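import Pool.Agent.Lib_MP_92ef0c_sp.SDefs
import Pool.Agent.Lib_MP_f1a94e_aq.Equid
import Pool.Agent.Lib_MP_f1a94e_eq.BDefs
import Pool.Agent.Lib_MP_f1a94e_mr.MertensA

/-!
# Mertens sums over all primes
-/

set_option autoImplicit false

namespace Pool.Agent.Spl

open Finset Pool.Agent.GaussMR Pool.Agent.OmAll Pool.Agent.OmEq

private theorem ms_log : ∃ C : ℝ, ∀ x : ℝ, 2 ≤ x →
    |∑ p ∈ (Finset.Icc 1 ⌊x⌋₊).filter (fun p => p.Prime), Real.log p / p - Real.log x| ≤ C := by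
  obtain ⟨C1, h1⟩ := Pool.Agent.GaussMR.mert_one
  obtain ⟨C3, h3⟩ := Pool.Agent.GaussMR.mertensA_powers
  refine ⟨C1 + C3 + Real.log 2, fun x hx => ?_⟩
  set N := ⌊x⌋₊ with hN
  have hN1 : 1 ≤ N := by
    rw [hN, Nat.one_le_floor_iff]
    linarith
  have hNpos : (0 : ℝ) < N := by exact_mod_cast hN1
  have k1 := h1 N hN1
  have k3 := h3 N
  set S1 := ∑ n ∈ Finset.Icc 1 N, ArithmeticFunction.vonMangoldt n / (n : ℝ) with hS1
  set T := ∑ n ∈ Finset.Icc 1 N,
    (if n.Prime then 0 else ArithmeticFunction.vonMangoldt n) / (n : ℝ) with hT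
  set A := ∑ p ∈ (Finset.Icc 1 N).filter (fun p => p.Prime), Real.log p / p with hA
  have hlog : |Real.log N - Real.log x| ≤ Real.log 2 := by
    have a1 : (N : ℝ) ≤ x := Nat.floor_le (by linarith)
    have a2 : x ≤ 2 * N := by
      have := Nat.lt_floor_add_one x
      rw [← hN] at this
      have : (1 : ℝ) ≤ N := by exact_mod_cast hN1
      linarith
    have b1 := Real.log_le_log hNpos a1
    have b2 := Real.log_le_log (by linarith) a2
    rw [Real.log_mul (by norm_num) hNpos.ne'] at b2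
    rw [abs_le]
    constructor <;> linarith [Real.log_nonneg (by norm_num : (1 : ℝ) ≤ 2)]
  have hT0 : 0 ≤ T := by
    rw [hT]
    refine Finset.sum_nonneg fun n _ => ?_
    split_ifs
    · simp
    · exact div_nonneg ArithmeticFunction.vonMangoldt_nonneg n.cast_nonneg
  have hS : S1 = A + T := by
    rw [hS1, hA, hT, Finset.sum_filter, ← Finset.sum_add_distrib]
    refine Finset.sum_congr rfl fun n _ => ?_
    by_cases hp : n.Prime
    · rw [if_pos hp, if_pos hp, zero_div, add_zero, ArithmeticFunction.vonMangoldt_apply_prime hp]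
    · rw [if_neg hp, if_neg hp, zero_add]
  rw [abs_le] at k1 hlog ⊢
  constructor <;> linarith [k1.1, k1.2, hlog.1, hlog.2]

open MeasureTheory in
/-- partial summation from `ms_log` -/
private theorem ms_sum : ∃ C : ℝ, ∀ x : ℝ, 2 ≤ x →
    |∑ p ∈ (Finset.Icc 1 ⌊x⌋₊).filter (fun p => p.Prime), (1 : ℝ) / p -
      Real.log (Real.log x)| ≤ C := by
  classical
  obtain ⟨C, hC⟩ := ms_log
  have hC0 : 0 ≤ C := (abs_nonneg _).trans (hC 2 le_rfl)
  have hl2 : 0 < Real.log 2 := Real.log_pos one_lt_two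
  let c : ℕ → ℝ := fun n => if n.Prime then Real.log n / n else 0
  have hc0 : c 0 = 0 := by simp [c]
  have hc1 : c 1 = 0 := by simp [c, Nat.not_prime_one]
  have hA : ∀ t : ℝ, ∑ k ∈ Finset.Icc 0 ⌊t⌋₊, c k =
      ∑ p ∈ (Finset.Icc 1 ⌊t⌋₊).filter (fun p => p.Prime), Real.log p / p := by
    intro t
    rw [Finset.sum_filter]
    symm
    refine Finset.sum_subset ?_ ?_
    · intro k hk
      rw [Finset.mem_Icc] at hk ⊢
      exact ⟨Nat.zero_le _, hk.2⟩
    · intro k hk hk'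
      have h0 : k = 0 := by
        rw [Finset.mem_Icc] at hk hk'
        omega
      subst h0
      simp
  let f : ℝ → ℝ := fun t => (Real.log t)⁻¹
  have hlogpos : ∀ t : ℝ, 2 ≤ t → 0 < Real.log t := fun t ht => Real.log_pos (by linarith)
  have hderiv : ∀ t : ℝ, 2 ≤ t → HasDerivAt f (-(t⁻¹) / (Real.log t) ^ 2) t := by
    intro t ht
    exact (Real.hasDerivAt_log (by linarith : t ≠ 0)).inv (hlogpos t ht).ne'
  have hfd : ∀ t : ℝ, 2 ≤ t → deriv f t = -(t⁻¹) / (Real.log t) ^ 2 := fun t ht =>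
    (hderiv t ht).deriv
  have hcont : ∀ b : ℝ, ContinuousOn (fun t : ℝ => -(t⁻¹) / (Real.log t) ^ 2) (Set.Icc 2 b) := by
    intro b
    refine ContinuousOn.div (ContinuousOn.neg (ContinuousOn.inv₀ continuousOn_id ?_)) ?_ ?_
    · intro t ht; have := ht.1; exact (by linarith : t ≠ 0)
    · refine ContinuousOn.pow (ContinuousOn.log continuousOn_id ?_) 2
      intro t ht; have := ht.1; exact (by linarith : t ≠ 0)
    · intro t ht; exact pow_ne_zero 2 (hlogpos t ht.1).ne'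
  have hint : ∀ b : ℝ, IntegrableOn (deriv f) (Set.Icc 2 b) := by
    intro b
    refine IntegrableOn.congr_fun ((hcont b).integrableOn_Icc) ?_ measurableSet_Icc
    intro t ht
    exact (hfd t ht.1).symm
  refine ⟨1 + C / Real.log 2 + C / Real.log 2 + |Real.log (Real.log 2)|, ?_⟩
  intro x hx
  have hlx := hlogpos x hx
  have hAbel := sum_mul_eq_sub_integral_mul₁ c (f := f) hc0 hc1 x
    (fun t ht => (hderiv t ht.1).differentiableAt) (hint x)
  have hL : ∑ k ∈ Finset.Icc 0 ⌊x⌋₊, f k * c k =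
      ∑ p ∈ (Finset.Icc 1 ⌊x⌋₊).filter (fun p => p.Prime), (1 : ℝ) / p := by
    rw [Finset.sum_filter]
    symm
    refine Finset.sum_subset_zero_on_sdiff (f := fun a : ℕ => if a.Prime then
      (1 : ℝ) / a else 0) (g := fun k : ℕ => f k * c k) ?_ ?_ ?_
    · intro k hk
      rw [Finset.mem_Icc] at hk ⊢
      exact ⟨Nat.zero_le _, hk.2⟩
    · intro k hk
      rw [Finset.mem_sdiff, Finset.mem_Icc, Finset.mem_Icc] at hk
      have h0 : k = 0 := by omega
      subst h0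
      simp [c]
    · intro k hk
      rw [Finset.mem_Icc] at hk
      simp only [c, f]
      split_ifs with hp
      · have h2 : (2 : ℝ) ≤ k := by exact_mod_cast hp.two_le
        have h3 := (hlogpos k h2).ne'
        field_simp
      · simp
  have hAint : IntegrableOn (fun t => deriv f t * ∑ k ∈ Finset.Icc 0 ⌊t⌋₊, c k) (Set.Ioc 2 x) :=
    (integrableOn_mul_sum_Icc c (by norm_num : (0 : ℝ) ≤ 2) (hint x)).mono_set
      Set.Ioc_subset_Icc_self
  have hfint : IntegrableOn (deriv f) (Set.Ioc 2 x) := (hint x).mono_set Set.Ioc_subset_Icc_self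
  have hgcont : ContinuousOn (fun t : ℝ => (t⁻¹) / Real.log t) (Set.Icc 2 x) := by
    refine ContinuousOn.div (ContinuousOn.inv₀ continuousOn_id ?_) ?_ ?_
    · intro t ht; have := ht.1; exact (by linarith : t ≠ 0)
    · refine ContinuousOn.log continuousOn_id ?_
      intro t ht; have := ht.1; exact (by linarith : t ≠ 0)
    · intro t ht; exact (hlogpos t ht.1).ne'
  have hgint : IntegrableOn (fun t : ℝ => (t⁻¹) / Real.log t) (Set.Ioc 2 x) :=
    hgcont.integrableOn_Icc.mono_set Set.Ioc_subset_Icc_self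
  have hgval : ∫ t in Set.Ioc 2 x, (t⁻¹) / Real.log t =
      Real.log (Real.log x) - Real.log (Real.log 2) := by
    rw [← intervalIntegral.integral_of_le hx]
    refine intervalIntegral.integral_eq_sub_of_hasDerivAt_of_le
      (f := fun t => Real.log (Real.log t)) (f' := fun t : ℝ => (t⁻¹) / Real.log t) hx ?_ ?_ ?_
    · refine ContinuousOn.log (ContinuousOn.log continuousOn_id ?_) ?_
      · intro t ht; have := ht.1; exact (by linarith : t ≠ 0)
      · intro t ht; exact (hlogpos t ht.1).ne'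
    · intro t ht
      exact (Real.hasDerivAt_log (by have := ht.1; linarith : t ≠ 0)).log
        (hlogpos t ht.1.le).ne'
    · rw [intervalIntegrable_iff_integrableOn_Icc_of_le hx]
      exact hgcont.integrableOn_Icc
  have hfval : ∫ t in Set.Ioc 2 x, deriv f t = (Real.log x)⁻¹ - (Real.log 2)⁻¹ := by
    rw [← intervalIntegral.integral_of_le hx]
    refine intervalIntegral.integral_eq_sub_of_hasDerivAt_of_le
      (f := f) (f' := deriv f) hx ?_ ?_ ?_
    · intro t ht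
      exact (hderiv t ht.1).continuousAt.continuousWithinAt
    · intro t ht
      have := hderiv t ht.1.le
      rw [hfd t ht.1.le]
      exact this
    · rw [intervalIntegrable_iff_integrableOn_Icc_of_le hx]
      exact hint x
  have hpt : ∀ t ∈ Set.Ioc (2 : ℝ) x,
      |deriv f t * ∑ k ∈ Finset.Icc 0 ⌊t⌋₊, c k - (-1 * ((t⁻¹) / Real.log t))| ≤
        -(C * deriv f t) := by
    intro t ht
    have ht2 : 2 ≤ t := ht.1.le
    have hlt := hlogpos t ht2
    have htp : 0 < t := by linarith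
    have h1 := hC t ht2
    rw [← hA t] at h1
    have h2 : deriv f t ≤ 0 := by
      rw [hfd t ht2]
      exact div_nonpos_of_nonpos_of_nonneg (by have := inv_pos.mpr htp; linarith) (by positivity)
    have h3 : (-1 * ((t⁻¹) / Real.log t)) = deriv f t * (Real.log t) := by
      rw [hfd t ht2]
      field_simp
    rw [h3, ← mul_sub, abs_mul, abs_of_nonpos h2]
    calc -deriv f t * |∑ k ∈ Finset.Icc 0 ⌊t⌋₊, c k - Real.log t|
        ≤ -deriv f t * C := mul_le_mul_of_nonneg_left h1 (by linarith)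
      _ = -(C * deriv f t) := by ring
  have hI : |(∫ t in Set.Ioc 2 x, deriv f t * ∑ k ∈ Finset.Icc 0 ⌊t⌋₊, c k) -
      (-1 * (Real.log (Real.log x) - Real.log (Real.log 2)))| ≤
      C * ((Real.log 2)⁻¹ - (Real.log x)⁻¹) := by
    rw [← hgval, ← integral_const_mul, ← integral_sub hAint (hgint.const_mul _)]
    calc |∫ t in Set.Ioc 2 x, (deriv f t * ∑ k ∈ Finset.Icc 0 ⌊t⌋₊, c k -
          -1 * ((t⁻¹) / Real.log t))|
        ≤ ∫ t in Set.Ioc 2 x, |deriv f t * ∑ k ∈ Finset.Icc 0 ⌊t⌋₊, c k -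
          -1 * ((t⁻¹) / Real.log t)| := abs_integral_le_integral_abs
      _ ≤ ∫ t in Set.Ioc 2 x, -(C * deriv f t) := by
          refine setIntegral_mono_on ?_ ?_ measurableSet_Ioc hpt
          · exact (hAint.sub (hgint.const_mul _)).abs
          · exact (hfint.const_mul C).neg
      _ = C * ((Real.log 2)⁻¹ - (Real.log x)⁻¹) := by
          rw [integral_neg, integral_const_mul, hfval]; ring
  have hE := hC x hx
  rw [← hA x] at hE
  rw [← hL, hAbel]
  have hfx : f x = (Real.log x)⁻¹ := rfl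
  have h4 : |f x * ∑ k ∈ Finset.Icc 0 ⌊x⌋₊, c k - 1| ≤ C / Real.log 2 := by
    have h5 : f x * ∑ k ∈ Finset.Icc 0 ⌊x⌋₊, c k - 1 =
        f x * (∑ k ∈ Finset.Icc 0 ⌊x⌋₊, c k - Real.log x) := by
      rw [hfx]; field_simp
    rw [h5, abs_mul, hfx, abs_of_pos (inv_pos.mpr hlx)]
    calc (Real.log x)⁻¹ * |∑ k ∈ Finset.Icc 0 ⌊x⌋₊, c k - Real.log x|
        ≤ (Real.log 2)⁻¹ * C := by
          refine mul_le_mul ?_ hE (abs_nonneg _) (inv_pos.mpr hl2).le
          exact inv_anti₀ hl2 (Real.log_le_log (by norm_num) hx)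
      _ = C / Real.log 2 := by rw [div_eq_mul_inv]; ring
  have h6 : C * ((Real.log 2)⁻¹ - (Real.log x)⁻¹) ≤ C / Real.log 2 := by
    rw [div_eq_mul_inv]
    refine mul_le_mul_of_nonneg_left ?_ hC0
    have := inv_pos.mpr hlx
    linarith
  have h7 := hI.trans h6
  have h8 := le_abs_self (Real.log (Real.log 2))
  have h9 := neg_abs_le (Real.log (Real.log 2))
  rw [abs_le] at h4 h7 ⊢
  constructor <;> linarith [h4.1, h4.2, h7.1, h7.2]

private theorem ms_mem {n p : ℕ} : p ∈ PP ∅ n ↔ p ≤ n ∧ p.Prime := by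
  rw [mem_PP]
  simp

private theorem ms_two {n p : ℕ} (h : p ∈ PP ∅ n) : 2 ≤ p := (ms_mem.1 h).2.two_le

private theorem ms_mono {m n : ℕ} (h : m ≤ n) : PP ∅ m ⊆ PP ∅ n := by
  intro p hp
  rw [ms_mem] at hp ⊢
  exact ⟨hp.1.trans h, hp.2⟩

private theorem ms_eq (n : ℕ) : PP ∅ n = (Finset.Icc 1 ⌊(n : ℝ)⌋₊).filter (fun p => p.Prime) := by
  ext p
  rw [ms_mem, mem_filter, mem_Icc, Nat.floor_natCast]
  constructor
  · rintro ⟨h1, h2⟩
    exact ⟨⟨h2.one_lt.le, h1⟩, h2⟩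
  · rintro ⟨⟨-, h1⟩, h2⟩
    exact ⟨h1, h2⟩

private theorem ms_one_le {T : ℕ} (hT : 3 ≤ T) : 1 ≤ Real.log T := by
  have h3 : (3 : ℝ) ≤ T := by exact_mod_cast hT
  rw [Real.le_log_iff_exp_le (by linarith)]
  have := Real.exp_one_lt_d9
  linarith

/-- the mass of the block `T^K < p ≤ T^(K+1)` -/
private theorem ms_block (C : ℝ) (hC0 : 0 ≤ C)
    (hA : ∀ n : ℕ, 2 ≤ n → ∑ p ∈ PP ∅ n, Real.log p / p ≤ Real.log n + C)
    (T : ℕ) (hT : 3 ≤ T) (K : ℕ) (hK : 1 ≤ K) :
    ∑ p ∈ PP ∅ (T ^ (K + 1)) \ PP ∅ (T ^ K), 1 / (p : ℝ) ^ (1 + 1 / Real.log T) ≤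
      (2 + C) * Real.exp (-(K : ℝ)) := by
  have hL := ms_one_le hT
  set L := Real.log T with hLdef
  have hK' : (1 : ℝ) ≤ K := by exact_mod_cast hK
  have hKL : 1 ≤ (K : ℝ) * L := by nlinarith
  have hT2 : 2 ≤ T ^ (K + 1) := by
    calc 2 ≤ T := by omega
      _ = T ^ 1 := (pow_one T).symm
      _ ≤ T ^ (K + 1) := Nat.pow_le_pow_right (by omega) (by omega)
  have h1 : ∀ p ∈ PP ∅ (T ^ (K + 1)) \ PP ∅ (T ^ K), 1 / (p : ℝ) ^ (1 + 1 / L) ≤
      Real.exp (-(K : ℝ)) / (K * L) * (Real.log p / p) := by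
    intro p hp
    rw [mem_sdiff] at hp
    obtain ⟨hp1, hp2⟩ := hp
    have hp5 := ms_two hp1
    rw [ms_mem] at hp1 hp2
    have hlt : T ^ K < p := by
      by_contra hc
      exact hp2 ⟨by omega, hp1.2⟩
    have hp0 : (0 : ℝ) < p := by exact_mod_cast (by omega : 0 < p)
    have hlog : (K : ℝ) * L ≤ Real.log p := by
      rw [hLdef, ← Real.log_pow]
      apply Real.log_le_log
      · have : (0 : ℝ) < T := by exact_mod_cast (by omega : 0 < T)
        positivity
      · exact_mod_cast hlt.le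
    have e1 : (p : ℝ) ^ (1 + 1 / L) = p * Real.exp (Real.log p / L) := by
      rw [Real.rpow_add hp0, Real.rpow_one, Real.rpow_def_of_pos hp0]
      congr 2
      ring
    have h2 : (K : ℝ) ≤ Real.log p / L := by
      rw [le_div_iff₀ (by linarith)]
      exact hlog
    have h3 : Real.exp (K : ℝ) ≤ Real.exp (Real.log p / L) := Real.exp_le_exp.mpr h2
    have h4 : 1 / (p * Real.exp (Real.log p / L)) ≤ 1 / (p * Real.exp (K : ℝ)) := by
      apply one_div_le_one_div_of_le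
      · positivity
      · exact mul_le_mul_of_nonneg_left h3 hp0.le
    rw [e1]
    refine h4.trans ?_
    have h5 : 1 / ((p : ℝ) * Real.exp (K : ℝ)) = Real.exp (-(K : ℝ)) / p := by
      rw [Real.exp_neg]
      field_simp
    have h6 : Real.exp (-(K : ℝ)) / (K * L) * (Real.log p / p) =
        Real.exp (-(K : ℝ)) / p * (Real.log p / (K * L)) := by
      field_simp
    rw [h5, h6]
    apply le_mul_of_one_le_right (by positivity)
    rw [one_le_div (by linarith)]
    exact hlog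
  calc ∑ p ∈ PP ∅ (T ^ (K + 1)) \ PP ∅ (T ^ K), 1 / (p : ℝ) ^ (1 + 1 / L)
      ≤ ∑ p ∈ PP ∅ (T ^ (K + 1)) \ PP ∅ (T ^ K),
          Real.exp (-(K : ℝ)) / (K * L) * (Real.log p / p) := sum_le_sum h1
    _ ≤ ∑ p ∈ PP ∅ (T ^ (K + 1)), Real.exp (-(K : ℝ)) / (K * L) * (Real.log p / p) := by
        apply sum_le_sum_of_subset_of_nonneg sdiff_subset
        intro p hp _
        have hp5 := ms_two hp
        have hp0 : (1 : ℝ) ≤ p := by exact_mod_cast (by omega : 1 ≤ p)
        have := Real.log_nonneg hp0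
        positivity
    _ = Real.exp (-(K : ℝ)) / (K * L) * ∑ p ∈ PP ∅ (T ^ (K + 1)), (Real.log p / p) := by
        rw [mul_sum]
    _ ≤ Real.exp (-(K : ℝ)) / (K * L) * (((K : ℝ) + 1) * L + C) := by
        apply mul_le_mul_of_nonneg_left _ (by positivity)
        have h7 := hA _ hT2
        have h8 : Real.log ((T ^ (K + 1) : ℕ) : ℝ) = ((K : ℝ) + 1) * L := by
          push_cast
          rw [Real.log_pow]
          push_cast
          rfl
        rw [h8] at h7
        exact h7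
    _ ≤ (2 + C) * Real.exp (-(K : ℝ)) := by
        have h9 : Real.exp (-(K : ℝ)) / (K * L) * (((K : ℝ) + 1) * L + C) =
          Real.exp (-(K : ℝ)) * ((((K : ℝ) + 1) * L + C) / (K * L)) := by
          field_simp
        rw [h9, mul_comm (2 + C)]
        apply mul_le_mul_of_nonneg_left _ (Real.exp_pos _).le
        rw [div_le_iff₀ (by linarith)]
        nlinarith [mul_nonneg hC0 (by linarith : (0 : ℝ) ≤ (K : ℝ) * L - 1),
          mul_nonneg (by linarith : (0 : ℝ) ≤ (K : ℝ) - 1) (by linarith : (0 : ℝ) ≤ L)]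

private theorem ms_blocks (C : ℝ) (hC0 : 0 ≤ C)
    (hA : ∀ n : ℕ, 2 ≤ n → ∑ p ∈ PP ∅ n, Real.log p / p ≤ Real.log n + C)
    (T : ℕ) (hT : 3 ≤ T) (K : ℕ) :
    ∑ p ∈ PP ∅ (T ^ (K + 1)) \ PP ∅ T, 1 / (p : ℝ) ^ (1 + 1 / Real.log T) ≤
      (2 + C) * (1 - Real.exp (-(K : ℝ))) := by
  induction K with
  | zero => simp
  | succ K ih =>
    have hsub : T ≤ T ^ (K + 1) := by
      calc T = T ^ 1 := (pow_one T).symm
        _ ≤ T ^ (K + 1) := Nat.pow_le_pow_right (by omega) (by omega)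
    have hsub2 : T ^ (K + 1) ≤ T ^ (K + 1 + 1) := Nat.pow_le_pow_right (by omega) (by omega)
    have hun : PP ∅ (T ^ (K + 1 + 1)) \ PP ∅ T =
        (PP ∅ (T ^ (K + 1)) \ PP ∅ T) ∪ (PP ∅ (T ^ (K + 1 + 1)) \ PP ∅ (T ^ (K + 1))) := by
      ext p
      simp only [mem_sdiff, mem_union]
      constructor
      · rintro ⟨h1, h2⟩
        by_cases h3 : p ∈ PP ∅ (T ^ (K + 1))
        · exact Or.inl ⟨h3, h2⟩
        · exact Or.inr ⟨h1, h3⟩
      · rintro (⟨h1, h2⟩ | ⟨h1, h2⟩)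
        · exact ⟨ms_mono hsub2 h1, h2⟩
        · exact ⟨h1, fun h3 => h2 (ms_mono hsub h3)⟩
    have hdis : Disjoint (PP ∅ (T ^ (K + 1)) \ PP ∅ T) (PP ∅ (T ^ (K + 1 + 1)) \ PP ∅ (T ^ (K + 1))) := by
      rw [disjoint_left]
      intro p hp hp'
      rw [mem_sdiff] at hp hp'
      exact hp'.2 hp.1
    rw [hun, sum_union hdis]
    have hb := ms_block C hC0 hA T hT (K + 1) (by omega)
    have he : Real.exp (-((K + 1 : ℕ) : ℝ)) * 2 ≤ Real.exp (-(K : ℝ)) := by
      have : Real.exp (-(K : ℝ)) = Real.exp (-((K + 1 : ℕ) : ℝ)) * Real.exp 1 := by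
        rw [← Real.exp_add]
        congr 1
        push_cast
        ring
      rw [this]
      apply mul_le_mul_of_nonneg_left _ (Real.exp_pos _).le
      have := Real.exp_one_gt_d9
      linarith
    have h1C : 0 ≤ 2 + C := by linarith
    nlinarith [mul_nonneg h1C (by linarith : (0 : ℝ) ≤ Real.exp (-(K : ℝ)) -
      Real.exp (-((K + 1 : ℕ) : ℝ)) * 2)]


/-- PROOF. `∑_(n ≤ T) Λ(n)/n = log T + O(1)` (`mert_one` in `Lib_MP_f1a94e_mr/MertensA.lean` or a neighbouring file; otherwise from `log T! = ∑ Λ(n) ⌊T/n⌋` and Stirling/`T log T - T`), and prime powers contribute `O(1)` (`mertensA_powers`). -/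
theorem mertSlog : ∃ C : ℝ, ∀ T : ℕ, 2 ≤ T → |∑ p ∈ PP ∅ T, Real.log p / p - Real.log T| ≤ C := by
  obtain ⟨C, hC⟩ := ms_log
  refine ⟨C, fun T hT => ?_⟩
  have h := hC T (by exact_mod_cast hT)
  rwa [← ms_eq] at h

/-- PROOF. Partial summation from `mertSlog`, as in `Lib_MP_f1a94e_mr/MertensB.lean`. -/
theorem mertS : ∃ C : ℝ, ∀ T : ℕ, 3 ≤ T → |∑ p ∈ PP ∅ T, (1 : ℝ) / p - Real.log (Real.log T)| ≤ C := by
  obtain ⟨C, hC⟩ := ms_sum
  refine ⟨C, fun T hT => ?_⟩
  have h := hC T (by exact_mod_cast (by omega : 2 ≤ T))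
  rwa [← ms_eq] at h

/-- PROOF. Version for all primes of `smooth_cut` in `Lib_MP_f1a94e_aq/ZSmooth.lean` (adapt it): for `p ≤ T`, `0 ≤ 1 - p^(-1/log T) ≤ log p / log T` and `mertSlog`; for `p > T` dyadic blocks `T^(2^i) < p ≤ T^(2^(i+1))`, `∑ 1/p ≤ log 2 + 2 C` (`mertS`), `p^(-1/log T) ≤ exp (-2^i)`. -/
theorem scut : ∃ C : ℝ, ∀ T : ℕ, 3 ≤ T → ∀ f : ℕ → ℝ, (∀ p, |f p| ≤ 1) →
    Summable (fun p : ℕ => if p.Prime then f p / (p : ℝ) ^ (1 + 1 / Real.log T) else 0) ∧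
    |∑ p ∈ PP ∅ T, f p / p - ∑' p : ℕ, (if p.Prime then f p / (p : ℝ) ^ (1 + 1 / Real.log T) else 0)| ≤ C := by
  obtain ⟨C, hC⟩ := mertSlog
  have hC0 : 0 ≤ C := (abs_nonneg _).trans (hC 2 le_rfl)
  have hA : ∀ n : ℕ, 2 ≤ n → ∑ p ∈ PP ∅ n, Real.log p / p ≤ Real.log n + C := by
    intro n hn
    have h1 := (abs_le.1 (hC n hn)).2
    linarith
  refine ⟨(1 + C) + (2 + C), fun T hT f hf => ?_⟩
  have hL := ms_one_le hT
  set L := Real.log T with hLdef
  have hδ : 0 < 1 / L := by positivity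
  have hsum : Summable (fun p : ℕ => if p.Prime then f p / (p : ℝ) ^ (1 + 1 / L)
      else 0) := by
    have h1 : Summable (fun p : ℕ => 1 / (p : ℝ) ^ (1 + 1 / L)) :=
      Real.summable_one_div_nat_rpow.mpr (by linarith)
    refine Summable.of_norm_bounded h1 (fun p => ?_)
    split_ifs
    · rw [norm_div, Real.norm_eq_abs, Real.norm_of_nonneg (by positivity)]
      exact div_le_div_of_nonneg_right (hf p) (by positivity)
    · rw [norm_zero]
      positivity
  refine ⟨hsum, ?_⟩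
  set a : ℕ → ℝ := fun p : ℕ => if p.Prime then f p / (p : ℝ) ^ (1 + 1 / L) else 0
    with ha
  have haPT : ∀ n : ℕ, ∑ p ∈ range (n + 1), a p = ∑ p ∈ PP ∅ n, f p / (p : ℝ) ^ (1 + 1 / L) := by
    intro n
    rw [PP, sdiff_empty, sum_filter]
  -- first part
  have hfirst : |∑ p ∈ PP ∅ T, f p / p - ∑ p ∈ PP ∅ T, f p / (p : ℝ) ^ (1 + 1 / L)| ≤ 1 + C := by
    rw [← sum_sub_distrib]
    calc |∑ p ∈ PP ∅ T, (f p / p - f p / (p : ℝ) ^ (1 + 1 / L))|
        ≤ ∑ p ∈ PP ∅ T, |f p / p - f p / (p : ℝ) ^ (1 + 1 / L)| := abs_sum_le_sum_abs _ _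
      _ ≤ ∑ p ∈ PP ∅ T, (1 / L) * (Real.log p / p) := by
          apply sum_le_sum
          intro p hp
          have hp5 := ms_two hp
          have hp0 : (0 : ℝ) < p := by exact_mod_cast (by omega : 0 < p)
          have hp1 : (1 : ℝ) ≤ p := by exact_mod_cast (by omega : 1 ≤ p)
          have hlog := Real.log_nonneg hp1
          have e1 : (p : ℝ) ^ (1 + 1 / L) = p * Real.exp (Real.log p / L) := by
            rw [Real.rpow_add hp0, Real.rpow_one, Real.rpow_def_of_pos hp0]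
            congr 2
            ring
          have e2 : f p / p - f p / (p : ℝ) ^ (1 + 1 / L) =
              f p * ((1 - Real.exp (-(Real.log p / L))) / p) := by
            rw [e1, Real.exp_neg]
            field_simp
          have h1 : 1 - Real.log p / L ≤ Real.exp (-(Real.log p / L)) := by
            have := Real.add_one_le_exp (-(Real.log p / L))
            linarith
          have h2 : Real.exp (-(Real.log p / L)) ≤ 1 := by
            rw [Real.exp_le_one_iff]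
            have : 0 ≤ Real.log p / L := by positivity
            linarith
          rw [e2, abs_mul, abs_of_nonneg (div_nonneg (by linarith) hp0.le)]
          calc |f p| * ((1 - Real.exp (-(Real.log p / L))) / p)
              ≤ 1 * ((Real.log p / L) / p) := by
                apply mul_le_mul (hf p) _ (div_nonneg (by linarith) hp0.le) zero_le_one
                exact div_le_div_of_nonneg_right (by linarith) hp0.le
            _ = (1 / L) * (Real.log p / p) := by ring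
      _ = (1 / L) * ∑ p ∈ PP ∅ T, Real.log p / p := by rw [mul_sum]
      _ ≤ (1 / L) * (L + C) :=
          mul_le_mul_of_nonneg_left (hA T (by omega)) (by positivity)
      _ = 1 + C / L := by
          have : L ≠ 0 := by linarith
          field_simp
      _ ≤ 1 + C := by
          have : C / L ≤ C := div_le_self hC0 hL
          linarith
  -- second part
  have hsecond : |∑ p ∈ PP ∅ T, f p / (p : ℝ) ^ (1 + 1 / L) - ∑' p : ℕ, a p| ≤ 2 + C := by
    have hT1 : Filter.Tendsto (fun K : ℕ => T ^ (K + 1) + 1) Filter.atTop Filter.atTop := by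
      apply Filter.tendsto_atTop_mono (f := fun K : ℕ => K)
      · intro K
        have : K < T ^ K := Nat.lt_pow_self (by omega)
        have : T ^ K ≤ T ^ (K + 1) := Nat.pow_le_pow_right (by omega) (by omega)
        omega
      · exact Filter.tendsto_id
    have hlim := (hsum.hasSum.tendsto_sum_nat.comp hT1)
    have hlim2 := (hlim.const_sub (∑ p ∈ PP ∅ T, f p / (p : ℝ) ^ (1 + 1 / L))).abs
    refine le_of_tendsto hlim2 (Filter.Eventually.of_forall fun K => ?_)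
    simp only [Function.comp_apply]
    rw [haPT]
    have hsub : PP ∅ T ⊆ PP ∅ (T ^ (K + 1)) := ms_mono (by
      calc T = T ^ 1 := (pow_one T).symm
        _ ≤ T ^ (K + 1) := Nat.pow_le_pow_right (by omega) (by omega))
    rw [← sum_sdiff hsub, sub_add_cancel_right, abs_neg]
    calc |∑ p ∈ PP ∅ (T ^ (K + 1)) \ PP ∅ T, f p / (p : ℝ) ^ (1 + 1 / L)|
        ≤ ∑ p ∈ PP ∅ (T ^ (K + 1)) \ PP ∅ T, |f p / (p : ℝ) ^ (1 + 1 / L)| := abs_sum_le_sum_abs _ _
      _ ≤ ∑ p ∈ PP ∅ (T ^ (K + 1)) \ PP ∅ T, 1 / (p : ℝ) ^ (1 + 1 / L) := by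
          apply sum_le_sum
          intro p _
          rw [abs_div, abs_of_nonneg (by positivity : (0 : ℝ) ≤ (p : ℝ) ^ (1 + 1 / L))]
          exact div_le_div_of_nonneg_right (hf p) (by positivity)
      _ ≤ (2 + C) * (1 - Real.exp (-(K : ℝ))) := ms_blocks C hC0 hA T hT K
      _ ≤ 2 + C := by
          have := Real.exp_pos (-(K : ℝ))
          nlinarith
  calc |∑ p ∈ PP ∅ T, f p / p - ∑' p : ℕ, a p|
      ≤ |∑ p ∈ PP ∅ T, f p / p - ∑ p ∈ PP ∅ T, f p / (p : ℝ) ^ (1 + 1 / L)| +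
        |∑ p ∈ PP ∅ T, f p / (p : ℝ) ^ (1 + 1 / L) - ∑' p : ℕ, a p| := abs_sub_le _ _ _
    _ ≤ _ := add_le_add hfirst hsecond

/-- PROOF. `1/p - As p = (3 p - 1)/(p^2 (p + 1)) ≤ 3/p^2`. -/
theorem As_bound (p : ℕ) (hp : 2 ≤ p) : 0 < As p ∧ As p ≤ 1 / p ∧ 1 / (p : ℝ) - As p ≤ 3 / (p : ℝ) ^ 2 ∧ 2 * As p ≤ 1 / 3 := by
  have hp2 : (2 : ℝ) ≤ p := by exact_mod_cast hp
  have hp0 : (0 : ℝ) < p := by linarith
  have hp1 : (0 : ℝ) < (p : ℝ) - 1 := by linarith
  refine ⟨?_, ?_, ?_, ?_⟩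
  · unfold As
    positivity
  · unfold As
    rw [div_le_div_iff₀ (by positivity) hp0]
    nlinarith [mul_pos hp0 hp0, mul_pos (mul_pos hp0 hp0) hp0]
  · unfold As
    have h1 : 1 / (p : ℝ) - ((p : ℝ) - 1) ^ 2 / ((p : ℝ) ^ 2 * (p + 1)) =
      (3 * (p : ℝ) - 1) / ((p : ℝ) ^ 2 * (p + 1)) := by
      field_simp
      ring
    rw [h1, div_le_div_iff₀ (by positivity) (by positivity)]
    nlinarith [mul_pos hp0 hp0]
  · unfold As
    rw [← mul_div_assoc, div_le_div_iff₀ (by positivity) (by norm_num)]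
    obtain ⟨q, hq⟩ : ∃ q : ℝ, q = (p : ℝ) - 2 := ⟨_, rfl⟩
    have hq0 : 0 ≤ q := by linarith
    have hpq : (p : ℝ) = q + 2 := by linarith
    rw [hpq]
    have h2 : 0 ≤ q ^ 3 + q ^ 2 + 4 * q + 6 := by positivity
    nlinarith

/-- PROOF. `mertS` and `As_bound`, `∑ 1/p^2` converges. (`As 2 = 1/12`, `As 3 = 1/9`, `As 5 = 8/75`, and `As p ≤ 1/p ≤ 1/7` for `p ≥ 7`; for `2 As ≤ 1/3`.) -/
theorem muS_bound : ∃ C : ℝ, ∀ T : ℕ, 3 ≤ T → |∑ p ∈ PP ∅ T, 2 * As p - 2 * Real.log (Real.log T)| ≤ C := by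
  obtain ⟨C, hC⟩ := mertS
  have hs : Summable (fun p : ℕ => 6 / (p : ℝ) ^ 2) := by
    have := (Real.summable_one_div_nat_pow (p := 2)).mpr (by norm_num)
    refine (this.mul_left 6).congr (fun p => ?_)
    ring
  refine ⟨2 * C + ∑' p : ℕ, 6 / (p : ℝ) ^ 2, fun T hT => ?_⟩
  have h1 := hC T hT
  have h2 : |∑ p ∈ PP ∅ T, 2 * As p - 2 * ∑ p ∈ PP ∅ T, (1 : ℝ) / p| ≤ ∑' p : ℕ, 6 / (p : ℝ) ^ 2 := by
    rw [mul_sum, ← sum_sub_distrib]
    calc |∑ p ∈ PP ∅ T, (2 * As p - 2 * (1 / (p : ℝ)))|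
        ≤ ∑ p ∈ PP ∅ T, |2 * As p - 2 * (1 / (p : ℝ))| := abs_sum_le_sum_abs _ _
      _ ≤ ∑ p ∈ PP ∅ T, 6 / (p : ℝ) ^ 2 := by
          apply sum_le_sum
          intro p hp
          obtain ⟨-, h4, h5, -⟩ := As_bound p (ms_two hp)
          have h6 : 6 / (p : ℝ) ^ 2 = 2 * (3 / (p : ℝ) ^ 2) := by ring
          rw [abs_le, h6]
          have h7 : 0 ≤ 3 / (p : ℝ) ^ 2 := by positivity
          constructor <;> linarith
      _ ≤ ∑' p : ℕ, 6 / (p : ℝ) ^ 2 := hs.sum_le_tsum _ (fun p _ => by positivity)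
  rw [abs_le] at h1 h2 ⊢
  constructor <;> linarith [h1.1, h1.2, h2.1, h2.2]

end Pool.Agent.Spl
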