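import Pool.Agent.Lib_MP_92ef0c_sp.SDefs0
import Pool.Agent.Lib_MP_f1a94e_aq.Equid
import Pool.Agent.Lib_MP_f1a94e_eq.ApxO
import Pool.Agent.Lib_MP_f1a94e_eq.BDefs
import Pool.Agent.Lib_MP_f1a94e_eq.CmpP
import Pool.Agent.Lib_MP_f1a94e_eq.NpT
import Pool.Agent.Lib_MP_f1a94e_mr.SplitA

/-!
# Definitions for the second half: products over the entries, residue classes, correlations
-/

set_option autoImplicit false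

namespace Pool.Agent.Spl

open Finset Pool.Agent.GaussMR Pool.Agent.OmAll Pool.Agent.OmEq

/-- product over the entries -/
def F4 (f1 f2 f3 f4 : ℕ → ℂ) (e : Q4) : ℂ := f1 e.a * f2 e.b * f3 e.c * f4 e.d

/-- a function of the class modulo `M` -/
def cz (M : ℕ) (ψ : ZMod M → ZMod M → ZMod M → ZMod M → ℂ) (e : Q4) : ℂ :=
  ψ (e.a : ZMod M) (e.b : ZMod M) (e.c : ZMod M) (e.d : ZMod M)

/-- the complex conjugate function -/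
def cj (f : ℕ → ℂ) (n : ℕ) : ℂ := (starRingEnd ℂ) (f n)

/-- the weight of the first row `(a, b)` -/
noncomputable def wV (h : ℝ → ℝ) (X a b : ℝ) : ℝ := h (a * b / X) * ps0 (Real.log a - Real.log b)

/-- the weight of a pair of second rows `(a b), (c d)` with difference `n` times the first row -/
noncomputable def w3 (h : ℝ → ℝ) (J N n : ℕ) (X : ℝ) (e : Q4) : ℝ :=
  wV h X (((e.a : ℝ) - e.c) / n) (((e.b : ℝ) - e.d) / n) ^ 2 * rho J N (n * e.a / ((e.a : ℝ) - e.c)) *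
    rho J N (n * e.c / ((e.a : ℝ) - e.c))

/-- the pairs of second rows `(a b), (c d)` of two matrices with the same first row, difference `n` times the first row,
and `b c = n0` modulo `Q` for the two matrices -/
def kap3 (n Q n0 : ℕ) (e : Q4) : Prop :=
  Q ∣ n ∧ (e.a ≡ e.c [MOD n] ∧ e.b ≡ e.d [MOD n]) ∧ e.b * e.c ≡ e.d * e.c + n * n0 [MOD n * Q]

open Classical in
/-- the matrices of determinant `h0` with `b c = n0` modulo `Q` -/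
noncomputable def SQ (h0 Q n0 : ℕ) (x : ℝ) : Finset Q4 := (SN h0 x).filter (fun e => e.b * e.c ≡ n0 [MOD Q])

/-- the sum over unbalanced matrices -/
noncomputable def SX3 (h0 Q n0 : ℕ) (f g : ℕ → ℂ) (h : ℝ → ℝ) (J N : ℕ) (x X : ℝ) : ℂ :=
  ∑ e ∈ SQ h0 Q n0 x, F4 g f f g e * ((wV h X e.a e.b * rho J N ((e.c : ℝ) / e.a) : ℝ) : ℂ)

open Classical in
/-- the correlations of determinant `n h0` -/
noncomputable def Gm3 (h0 Q n0 : ℕ) (f g : ℕ → ℂ) (h : ℝ → ℝ) (J N n : ℕ) (x X : ℝ) : ℂ :=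
  ∑ e ∈ (SN (n * h0) x).filter (kap3 n Q n0), F4 f g (cj f) (cj g) e * ((w3 h J N n X e : ℝ) : ℂ)

/-- the limit of the weight `w3` -/
noncomputable def WN3 (h : ℝ → ℝ) (J N n : ℕ) (y t u : ℝ) : ℂ :=
  WN h J N n y (t + u) * ((ps0 ((u - t) / 2) ^ 2 : ℝ) : ℂ)

/-- the limit of the weight of `SX3` -/
noncomputable def WO3 (h : ℝ → ℝ) (J N : ℕ) (y t u : ℝ) : ℂ :=
  WO h J N y (t + u) * ((ps0 ((u - t) / 2) : ℝ) : ℂ)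

/-- a cut-off in `y` times triangles in `t` and `u` -/
noncomputable def Wh (h : ℝ → ℝ) (y t u : ℝ) : ℂ := ((h y * ps0 t * ps0 u : ℝ) : ℂ)

/-- the hypotheses on the determinant and the residue class -/
structure HQ (h0 Q n0 : ℕ) : Prop where
  pos : 0 < h0
  posQ : 0 < Q
  dvd : h0 ∣ Q
  cop : n0.Coprime Q
  cop' : (n0 + h0).Coprime Q

/-- the correlations are small on average -/
def GmSmall3 (h0 Q n0 : ℕ) (f g : ℕ → ℂ) : Prop :=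
  ∀ (h : ℝ → ℝ) (h1 h2 : ℝ), HF h h1 h2 → ∀ ε : ℝ, 0 < ε → ∃ N0 : ℕ, ∀ N : ℕ, N0 ≤ N → ∃ J0 : ℕ, ∀ J : ℕ, J0 ≤ J →
    ∀ᶠ X : ℝ in Filter.atTop, ‖∑ n ∈ Icc 1 N, Gm3 h0 Q n0 f g h J N n (((J + N) ^ 2 * (h0 + 1) * h2) * X) X‖ ≤ ε * N ^ 2 * X

/-! ### stage B -/

/-- the sum over all classes -/
noncomputable def Qs3 (f : ℕ → ℂ) (n : ℕ) (x : ℝ) (W : ℝ → ℝ → ℝ → ℂ) (X : ℝ) : ℂ :=
  ∑ e ∈ SN n x, F4 f (cj f) (cj f) f e * W (yS e / X) (tS e) (uS e)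

/-- weighted sums over the determinants `n h0`, `Q ∣ n` -/
def QSmall3 (h0 Q : ℕ) (f : ℕ → ℂ) : Prop :=
  ∀ (h : ℝ → ℝ) (h1 h2 : ℝ), HF h h1 h2 → ∀ ε : ℝ, 0 < ε → ∃ N0 : ℕ, ∀ N : ℕ, N0 ≤ N → ∀ᶠ Y : ℝ in Filter.atTop,
    ‖∑ n ∈ (Icc 1 N).filter (fun n => Q ∣ n), (((n / n.totient) * ww ((n : ℝ) / N) : ℝ) : ℂ) *
      Qs3 f (n * h0) (h2 * Y) (Wh (fun y => h y ^ 2)) Y‖ ≤ ε * N * Y

/-- the same over the multiples of `D`, without the factor `n / φ(n)` -/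
def QdSmall3 (f : ℕ → ℂ) : Prop :=
  ∀ D : ℕ, 1 ≤ D → ∀ (h : ℝ → ℝ) (h1 h2 : ℝ), HF h h1 h2 → ∀ ε : ℝ, 0 < ε → ∃ N0 : ℕ, ∀ N : ℕ, N0 ≤ N →
    ∀ᶠ Y : ℝ in Filter.atTop, ‖∑ n ∈ (Icc 1 N).filter (fun n => D ∣ n), ((ww ((n : ℝ) / N) : ℝ) : ℂ) *
      Qs3 f n (h2 * Y) (Wh (fun y => h y ^ 2)) Y‖ ≤ ε * N * Y

/-- `f x * conj (f y)` -/
def F2 (f : ℕ → ℂ) (z : ℕ × ℕ) : ℂ := f z.1 * cj f z.2

theorem cj_cj (f : ℕ → ℂ) : cj (cj f) = f := by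
  funext n
  unfold cj
  exact Complex.conj_conj (f n)

theorem norm_cj (f : ℕ → ℂ) (n : ℕ) : ‖cj f n‖ = ‖f n‖ := by
  unfold cj
  exact RCLike.norm_conj (f n)

theorem MF.cj' {f : ℕ → ℂ} {E : Finset ℕ} {ω : ℂ} (h : MF f E ω) : MF (cj f) E ((starRingEnd ℂ) ω) := h.conj

theorem norm_F4_le {f1 f2 f3 f4 : ℕ → ℂ} (h1 : ∀ n, ‖f1 n‖ ≤ 1) (h2 : ∀ n, ‖f2 n‖ ≤ 1) (h3 : ∀ n, ‖f3 n‖ ≤ 1)
    (h4 : ∀ n, ‖f4 n‖ ≤ 1) (e : Q4) : ‖F4 f1 f2 f3 f4 e‖ ≤ 1 := by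
  unfold F4
  rw [norm_mul, norm_mul, norm_mul]
  exact mul_le_one₀ (mul_le_one₀ (mul_le_one₀ (h1 _) (norm_nonneg _) (h2 _)) (norm_nonneg _) (h3 _)) (norm_nonneg _) (h4 _)

theorem mem_SQ {h0 Q n0 : ℕ} {x : ℝ} {e : Q4} : e ∈ SQ h0 Q n0 x ↔ (Sn h0 e ∧ yS e ≤ x) ∧ e.b * e.c ≡ n0 [MOD Q] := by
  classical
  unfold SQ
  rw [mem_filter, mem_SN]

end Pool.Agent.Spl
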