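import Pool.Agent.Lib_MP_92ef0c_sp.SDefs
import Pool.Agent.Lib_MP_92ef0c_sp.TDefs
import Pool.Agent.Lib_MP_f1a94e_eq.LimH

/-!
# Test functions of three variables
-/

set_option autoImplicit false

namespace Pool.Agent.Spl

open Finset Pool.Agent.GaussMR Pool.Agent.OmAll Pool.Agent.OmEq MeasureTheory Filter

/-- PROOF. Clear (intersection and union of compact supports). -/
theorem TS.sub {b : ℝ} {W W' : ℝ → ℝ → ℝ → ℂ} (h : TS b W) (h' : TS b W') : TS b (fun y t u => W y t u - W' y t u) := by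
  refine ⟨h.cont.sub h'.cont, h.supp.sub h'.supp, ?_, ?_⟩
  · intro y t u hy
    rw [h.lo y t u hy, h'.lo y t u hy, sub_self]
  · intro y t u hy
    rw [h.hi y t u hy, h'.hi y t u hy, sub_self]

/-- PROOF. Clear. -/
theorem TS.smul {b : ℝ} {W : ℝ → ℝ → ℝ → ℂ} (h : TS b W) (c : ℂ) : TS b (fun y t u => c * W y t u) := by
  refine ⟨continuous_const.mul h.cont, h.supp.comp_left (g := fun z => c * z) (mul_zero c), ?_, ?_⟩
  · intro y t u hy
    rw [h.lo y t u hy, mul_zero]
  · intro y t u hy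
    rw [h.hi y t u hy, mul_zero]

/-- a bound for the support -/
theorem TS.bdd {b : ℝ} {W : ℝ → ℝ → ℝ → ℂ} (h : TS b W) : ∃ R : ℝ, 0 < R ∧ ∀ y t u, W y t u ≠ 0 → |y| ≤ R ∧ |t| ≤ R ∧ |u| ≤ R := by
  obtain ⟨R1, hR1⟩ := h.supp.isCompact.isBounded.subset_closedBall (0 : ℝ × ℝ × ℝ)
  refine ⟨max R1 1, by positivity, fun y t u hne => ?_⟩
  have h1 : (y, t, u) ∈ tsupport (fun v : ℝ × ℝ × ℝ => W v.1 v.2.1 v.2.2) :=
    subset_tsupport _ hne
  have h2 := hR1 h1
  rw [mem_closedBall_zero_iff, Prod.norm_def, Prod.norm_def, max_le_iff, max_le_iff] at h2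
  exact ⟨h2.1.trans (le_max_left _ _), h2.2.1.trans (le_max_left _ _),
    h2.2.2.trans (le_max_left _ _)⟩

/-- a bound for the values -/
theorem TS.norm_bdd {b : ℝ} {W : ℝ → ℝ → ℝ → ℂ} (h : TS b W) : ∃ C : ℝ, 0 < C ∧ ∀ y t u, ‖W y t u‖ ≤ C := by
  obtain ⟨C, hC⟩ := h.cont.bounded_above_of_compact_support h.supp
  exact ⟨max C 1, by positivity, fun y t u => (hC (y, t, u)).trans (le_max_left _ _)⟩

/-- parametric integrals of continuous functions with bounded support in the variable -/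
private theorem tsl_param {X : Type} [TopologicalSpace X] [FirstCountableTopology X]
    [LocallyCompactSpace X] {f : X → ℝ → ℂ}
    (hf : Continuous (Function.uncurry f)) {R : ℝ} (hR : ∀ x t, f x t ≠ 0 → |t| ≤ R) :
    Continuous (fun x => ∫ t, f x t) := by
  have h2 := continuous_parametric_integral_of_continuous (μ := (volume : Measure ℝ)) hf
    (isCompact_Icc (a := -R) (b := R))
  have h3 : (fun x => ∫ t, f x t) = fun x => ∫ t in Set.Icc (-R) R, f x t := by
    funext x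
    symm
    apply setIntegral_eq_integral_of_forall_compl_eq_zero
    intro t ht
    by_contra hne
    exact ht (abs_le.1 (hR x t hne))
  rw [h3]
  exact h2

private theorem tsl_ps0_ne {t : ℝ} (h : ps0 t ≠ 0) : |t| ≤ 1 := by
  by_contra h1
  exact h (limh_ps0_zero (not_le.1 h1).le)

private theorem tsl_supp {F : ℝ × ℝ × ℝ → ℂ} {R1 R2 R3 : ℝ}
    (h : ∀ v, F v ≠ 0 → |v.1| ≤ R1 ∧ |v.2.1| ≤ R2 ∧ |v.2.2| ≤ R3) : HasCompactSupport F := by
  apply HasCompactSupport.intro ((isCompact_Icc (a := -R1) (b := R1)).prod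
    ((isCompact_Icc (a := -R2) (b := R2)).prod (isCompact_Icc (a := -R3) (b := R3))))
  intro v hv
  by_contra hne
  obtain ⟨h1, h2, h3⟩ := h v hne
  exact hv ⟨abs_le.1 h1, abs_le.1 h2, abs_le.1 h3⟩

/-- PROOF. `c y u = ∫ t', W y t' u` is continuous with compact support (the integral runs over a compact interval, `continuous_parametric_integral_of_continuous` or `intervalIntegral`); `limh_ps0_cont`, `limh_ps0_supp` (`Lib_MP_f1a94e_eq/LimH.lean`). Compare `limh_tf`. -/
theorem ts_c1 {b : ℝ} {W : ℝ → ℝ → ℝ → ℂ} (h : TS b W) :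
    TS b (fun y t u => ((ps0 t : ℝ) : ℂ) * ∫ t', W y t' u) := by
  obtain ⟨R, hR0, hR⟩ := h.bdd
  have hc : Continuous (fun p : ℝ × ℝ => ∫ t', W p.1 t' p.2) := by
    refine tsl_param (f := fun (p : ℝ × ℝ) (t' : ℝ) => W p.1 t' p.2) (R := R) ?_ ?_
    · exact h.cont.comp ((continuous_fst.comp continuous_fst).prodMk
        (continuous_snd.prodMk (continuous_snd.comp continuous_fst)))
    · intro p t' hne
      exact (hR _ _ _ hne).2.1
  refine ⟨?_, ?_, ?_, ?_⟩
  · exact (Complex.continuous_ofReal.comp (limh_ps0_cont.comp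
      (continuous_fst.comp continuous_snd))).mul
      (hc.comp (continuous_fst.prodMk (continuous_snd.comp continuous_snd)))
  · refine tsl_supp (R1 := R) (R2 := 1) (R3 := R) ?_
    intro v hv
    have h1 := left_ne_zero_of_mul hv
    have h2 := right_ne_zero_of_mul hv
    have h3 : ps0 v.2.1 ≠ 0 := fun h0 => h1 (by rw [h0, Complex.ofReal_zero])
    have h4 : ∃ t', W v.1 t' v.2.2 ≠ 0 := by
      by_contra hcon
      push Not at hcon
      apply h2
      simp only [hcon, integral_zero]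
    obtain ⟨t', ht'⟩ := h4
    exact ⟨(hR _ _ _ ht').1, tsl_ps0_ne h3, (hR _ _ _ ht').2.2⟩
  · intro y t u hy
    simp only [h.lo y _ u hy, integral_zero, mul_zero]
  · intro y t u hy
    simp only [h.hi y _ u hy, integral_zero, mul_zero]

/-- PROOF. As `ts_c1`. -/
theorem ts_c2 {b : ℝ} {W : ℝ → ℝ → ℝ → ℂ} (h : TS b W) :
    (Continuous (fun y => ∫ t, ∫ u, W y t u) ∧ (∀ y, y ≤ 0 → (∫ t, ∫ u, W y t u) = 0) ∧
      ∀ y, b ≤ y → (∫ t, ∫ u, W y t u) = 0) ∧
    TS b (fun y t u => (∫ t', ∫ u', W y t' u') * ((ps0 t * ps0 u : ℝ) : ℂ)) := by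
  obtain ⟨R, hR0, hR⟩ := h.bdd
  have hc : Continuous (fun p : ℝ × ℝ => ∫ u, W p.1 p.2 u) := by
    refine tsl_param (f := fun (p : ℝ × ℝ) (u : ℝ) => W p.1 p.2 u) (R := R) ?_ ?_
    · exact h.cont.comp ((continuous_fst.comp continuous_fst).prodMk
        ((continuous_snd.comp continuous_fst).prodMk continuous_snd))
    · intro p t' hne
      exact (hR _ _ _ hne).2.2
  have hne1 : ∀ y t, (∫ u, W y t u) ≠ 0 → |y| ≤ R ∧ |t| ≤ R := by
    intro y t h2
    have h4 : ∃ u, W y t u ≠ 0 := by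
      by_contra hcon
      push Not at hcon
      apply h2
      simp only [hcon, integral_zero]
    obtain ⟨u, hu⟩ := h4
    exact ⟨(hR _ _ _ hu).1, (hR _ _ _ hu).2.1⟩
  have hc2 : Continuous (fun y => ∫ t, ∫ u, W y t u) := by
    refine tsl_param (f := fun (y : ℝ) (t : ℝ) => ∫ u, W y t u) (R := R) hc ?_
    intro y t hne
    exact (hne1 y t hne).2
  have hne2 : ∀ y, (∫ t, ∫ u, W y t u) ≠ 0 → |y| ≤ R := by
    intro y h2
    have h4 : ∃ t, (∫ u, W y t u) ≠ 0 := by
      by_contra hcon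
      push Not at hcon
      apply h2
      simp only [hcon, integral_zero]
    obtain ⟨t, ht⟩ := h4
    exact (hne1 y t ht).1
  have hlo : ∀ y, y ≤ 0 → (∫ t, ∫ u, W y t u) = 0 := by
    intro y hy
    simp only [h.lo y _ _ hy, integral_zero]
  have hhi : ∀ y, b ≤ y → (∫ t, ∫ u, W y t u) = 0 := by
    intro y hy
    simp only [h.hi y _ _ hy, integral_zero]
  refine ⟨⟨hc2, hlo, hhi⟩, ?_, ?_, ?_, ?_⟩
  · exact (hc2.comp continuous_fst).mul (Complex.continuous_ofReal.comp
      ((limh_ps0_cont.comp (continuous_fst.comp continuous_snd)).mul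
        (limh_ps0_cont.comp (continuous_snd.comp continuous_snd))))
  · refine tsl_supp (R1 := R) (R2 := 1) (R3 := 1) ?_
    intro v hv
    have h1 := left_ne_zero_of_mul hv
    have h2 := right_ne_zero_of_mul hv
    have h3 : ps0 v.2.1 ≠ 0 := fun h0 => h2 (by rw [h0, zero_mul, Complex.ofReal_zero])
    have h4 : ps0 v.2.2 ≠ 0 := fun h0 => h2 (by rw [h0, mul_zero, Complex.ofReal_zero])
    exact ⟨hne2 _ h1, tsl_ps0_ne h3, tsl_ps0_ne h4⟩
  · intro y t u hy
    simp only [hlo y hy, zero_mul]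
  · intro y t u hy
    simp only [hhi y hy, zero_mul]

/-- PROOF. Fubini for a continuous function with compact support. -/
theorem ts_swap {b : ℝ} {W : ℝ → ℝ → ℝ → ℂ} (h : TS b W) (y : ℝ) : (∫ t, ∫ u, W y t u) = ∫ u, ∫ t, W y t u := by
  obtain ⟨R, hR0, hR⟩ := h.bdd
  have hc : Continuous (Function.uncurry (W y)) :=
    h.cont.comp (continuous_const.prodMk (continuous_fst.prodMk continuous_snd))
  have hs : HasCompactSupport (Function.uncurry (W y)) := by
    apply HasCompactSupport.intro ((isCompact_Icc (a := -R) (b := R)).prod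
      (isCompact_Icc (a := -R) (b := R)))
    rintro ⟨t, u⟩ hv
    by_contra hne
    obtain ⟨_, h2, h3⟩ := hR y t u hne
    exact hv ⟨abs_le.1 h2, abs_le.1 h3⟩
  exact integral_integral_swap_of_hasCompactSupport hc hs

/-- PROOF. Clear. -/
theorem ts_Wh {h : ℝ → ℝ} {b : ℝ} (hc : Continuous h) (h0 : ∀ y, y ≤ 0 → h y = 0) (hb : ∀ y, b ≤ y → h y = 0) :
    TS b (Wh h) ∧ ∀ y, (∫ t, ∫ u, Wh h y t u) = ((h y : ℝ) : ℂ) := by
  refine ⟨⟨?_, ?_, ?_, ?_⟩, ?_⟩
  · unfold Wh
    exact Complex.continuous_ofReal.comp (((hc.comp continuous_fst).mul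
      (limh_ps0_cont.comp (continuous_fst.comp continuous_snd))).mul
        (limh_ps0_cont.comp (continuous_snd.comp continuous_snd)))
  · refine tsl_supp (R1 := max 0 b) (R2 := 1) (R3 := 1) ?_
    intro v hv
    have hv' : h v.1 * ps0 v.2.1 * ps0 v.2.2 ≠ 0 := fun h1 => hv (by
      show ((h v.1 * ps0 v.2.1 * ps0 v.2.2 : ℝ) : ℂ) = 0
      rw [h1, Complex.ofReal_zero])
    have h3 : ps0 v.2.2 ≠ 0 := right_ne_zero_of_mul hv'
    have h4 : ps0 v.2.1 ≠ 0 := right_ne_zero_of_mul (left_ne_zero_of_mul hv')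
    have h5 : h v.1 ≠ 0 := left_ne_zero_of_mul (left_ne_zero_of_mul hv')
    refine ⟨?_, tsl_ps0_ne h4, tsl_ps0_ne h3⟩
    have h6 : 0 < v.1 := by
      by_contra hcon
      exact h5 (h0 _ (not_lt.1 hcon))
    have h7 : v.1 < b := by
      by_contra hcon
      exact h5 (hb _ (not_lt.1 hcon))
    rw [abs_of_pos h6]
    exact h7.le.trans (le_max_right _ _)
  · intro y t u hy
    unfold Wh
    rw [h0 y hy]
    simp
  · intro y t u hy
    unfold Wh
    rw [hb y hy]
    simp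
  · intro y
    unfold Wh
    have h1 : ∀ t, (∫ u, ((h y * ps0 t * ps0 u : ℝ) : ℂ)) = ((h y * ps0 t : ℝ) : ℂ) := by
      intro t
      have h2 : (fun u => ((h y * ps0 t * ps0 u : ℝ) : ℂ)) =
          fun u => ((h y * ps0 t : ℝ) : ℂ) * ((ps0 u : ℝ) : ℂ) := by
        funext u
        rw [Complex.ofReal_mul]
      rw [h2, integral_const_mul, limh_ps0_intC, mul_one]
    simp only [h1]
    have h3 : (fun t => ((h y * ps0 t : ℝ) : ℂ)) =
        fun t => ((h y : ℝ) : ℂ) * ((ps0 t : ℝ) : ℂ) := by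
      funext t
      rw [Complex.ofReal_mul]
    rw [h3, integral_const_mul, limh_ps0_intC, mul_one]

end Pool.Agent.Spl
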