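import Pool.Agent.Lib_MP_92ef0c_sp.Cnt3
import Pool.Agent.Lib_MP_92ef0c_sp.TSL

/-!
# The weights of the unbalanced matrices are test functions up to `o(X)`
-/

set_option autoImplicit false

namespace Pool.Agent.Spl

open Finset Pool.Agent.GaussMR Pool.Agent.OmAll Pool.Agent.OmEq MeasureTheory Filter

/-- the weight as a function of `(y, t, u, δ)` -/
noncomputable def apxo3_K (h : ℝ → ℝ) (J N : ℕ) (p : ℝ × ℝ × ℝ × ℝ) : ℝ :=
  h (√(p.1 * (p.1 + p.2.2.2)) * Real.exp (-(p.2.1 + p.2.2.1) / 2)) *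
    ps0 ((Real.log (p.1 + p.2.2.2) - Real.log p.1) / 2 + (p.2.2.1 - p.2.1) / 2) *
    rho J N (√(p.1 / (p.1 + p.2.2.2)) * Real.exp ((p.2.1 + p.2.2.1) / 2))

theorem apxo3_K_cont {h : ℝ → ℝ} {h1 h2 : ℝ} (hh : HF h h1 h2) (J N : ℕ) (S : Set (ℝ × ℝ × ℝ × ℝ))
    (hS : ∀ p ∈ S, 0 < p.1 ∧ 0 ≤ p.2.2.2) : ContinuousOn (apxo3_K h J N) S := by
  have a1 : ContinuousOn (fun p : ℝ × ℝ × ℝ × ℝ => √(p.1 * (p.1 + p.2.2.2)) *
      Real.exp (-(p.2.1 + p.2.2.1) / 2)) S := Continuous.continuousOn (by fun_prop)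
  have a2 : ContinuousOn (fun p : ℝ × ℝ × ℝ × ℝ => (Real.log (p.1 + p.2.2.2) - Real.log p.1) / 2 +
      (p.2.2.1 - p.2.1) / 2) S := by
    have b1 : ContinuousOn (fun p : ℝ × ℝ × ℝ × ℝ => Real.log (p.1 + p.2.2.2)) S :=
      ContinuousOn.log (Continuous.continuousOn (by fun_prop)) fun p hp => by
        have := hS p hp
        exact (by linarith [this.1, this.2] : 0 < p.1 + p.2.2.2).ne'
    have b2 : ContinuousOn (fun p : ℝ × ℝ × ℝ × ℝ => Real.log p.1) S :=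
      ContinuousOn.log (Continuous.continuousOn (by fun_prop)) fun p hp => (hS p hp).1.ne'
    have b3 : ContinuousOn (fun p : ℝ × ℝ × ℝ × ℝ => (p.2.2.1 - p.2.1) / 2) S :=
      Continuous.continuousOn (by fun_prop)
    exact ((b1.sub b2).div_const 2).add b3
  have a3 : ContinuousOn (fun p : ℝ × ℝ × ℝ × ℝ => √(p.1 / (p.1 + p.2.2.2)) *
      Real.exp ((p.2.1 + p.2.2.1) / 2)) S := by
    have b1 : ContinuousOn (fun p : ℝ × ℝ × ℝ × ℝ => p.1 / (p.1 + p.2.2.2)) S :=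
      ContinuousOn.div (Continuous.continuousOn (by fun_prop))
        (Continuous.continuousOn (by fun_prop)) fun p hp => by
        have := hS p hp
        exact (by linarith [this.1, this.2] : 0 < p.1 + p.2.2.2).ne'
    have b2 : ContinuousOn (fun p : ℝ × ℝ × ℝ × ℝ => Real.exp ((p.2.1 + p.2.2.1) / 2)) S :=
      Continuous.continuousOn (by fun_prop)
    exact (Real.continuous_sqrt.comp_continuousOn b1).mul b2
  exact ((hh.cont.comp_continuousOn a1).mul (limh_ps0_cont.comp_continuousOn a2)).mul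
    ((apxn_rho_cont J N).comp_continuousOn a3)

theorem apxo3_K_zero (h : ℝ → ℝ) (J N : ℕ) {y : ℝ} (hy : 0 < y) (t u : ℝ) :
    ((apxo3_K h J N (y, t, u, 0) : ℝ) : ℂ) = WO3 h J N y t u := by
  unfold apxo3_K WO3 WO
  simp only
  rw [add_zero, Real.sqrt_mul_self hy.le, sub_self, zero_div, zero_add, div_self hy.ne',
    Real.sqrt_one, one_mul]
  push_cast
  ring

theorem apxo3_w (h : ℝ → ℝ) (J N : ℕ) {X : ℝ} (hX : 0 < X) {h0 : ℕ} {e : Q4} (he : Sn h0 e) :
    wV h X e.a e.b * rho J N ((e.c : ℝ) / e.a) = apxo3_K h J N (yS e / X, tS e, uS e, h0 / X) := by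
  obtain ⟨hdet, ha0, hb0, hc0, hd0, -, -⟩ := he
  have hdet' : (e.a : ℝ) * e.d = e.b * e.c + h0 := by exact_mod_cast hdet
  unfold apxo3_K wV yS tS uS
  simp only
  obtain ⟨a, ha⟩ : ∃ a : ℝ, a = e.a := ⟨_, rfl⟩
  obtain ⟨b, hb⟩ : ∃ b : ℝ, b = e.b := ⟨_, rfl⟩
  obtain ⟨c, hc⟩ : ∃ c : ℝ, c = e.c := ⟨_, rfl⟩
  obtain ⟨d, hd⟩ : ∃ d : ℝ, d = e.d := ⟨_, rfl⟩
  have pa : 0 < a := by rw [ha]; exact_mod_cast ha0
  have pb : 0 < b := by rw [hb]; exact_mod_cast hb0
  have pc : 0 < c := by rw [hc]; exact_mod_cast hc0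
  have pd : 0 < d := by rw [hd]; exact_mod_cast hd0
  rw [← ha, ← hb, ← hc, ← hd] at hdet' ⊢
  have e1 : b * c / X + h0 / X = a * d / X := by
    rw [hdet']
    ring
  rw [e1]
  obtain ⟨s, hs⟩ : ∃ s : ℝ, s = Real.log d - Real.log a + (Real.log c - Real.log b) := ⟨_, rfl⟩
  rw [← hs]
  have e2 : Real.exp (s / 2) = √(c * d / (a * b)) := by
    rw [Real.exp_half, hs, Real.exp_add, Real.exp_sub, Real.exp_sub, Real.exp_log pa,
      Real.exp_log pb, Real.exp_log pc, Real.exp_log pd]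
    congr 1
    field_simp
  have e3 : Real.exp (-s / 2) = √(a * b / (c * d)) := by
    rw [neg_div, Real.exp_neg, e2, ← Real.sqrt_inv, inv_div]
  have e4 : √(b * c / X * (a * d / X)) * Real.exp (-s / 2) = a * b / X := by
    rw [e3, ← Real.sqrt_mul (by positivity)]
    have e5 : b * c / X * (a * d / X) * (a * b / (c * d)) = (a * b / X) ^ 2 := by
      field_simp
    rw [e5, Real.sqrt_sq (by positivity)]
  have e6 : √(b * c / X / (a * d / X)) * Real.exp (s / 2) = c / a := by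
    rw [e2, ← Real.sqrt_mul (by positivity)]
    have e5 : b * c / X / (a * d / X) * (c * d / (a * b)) = (c / a) ^ 2 := by
      field_simp
    rw [e5, Real.sqrt_sq (by positivity)]
  have e7 : (Real.log (a * d / X) - Real.log (b * c / X)) / 2 +
      (Real.log c - Real.log b - (Real.log d - Real.log a)) / 2 = Real.log a - Real.log b := by
    rw [Real.log_div (by positivity) hX.ne', Real.log_div (by positivity) hX.ne',
      Real.log_mul pa.ne' pd.ne', Real.log_mul pb.ne' pc.ne']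
    ring
  rw [e4, e6, e7]

/-- the support of the weight -/
theorem apxo3_supp {h : ℝ → ℝ} {h1 h2 : ℝ} (hh : HF h h1 h2) {J N : ℕ} (hJ : 1 ≤ J) (hN : 1 ≤ N)
    {X : ℝ} (hX : 0 < X) {h0 : ℕ} {e : Q4} (he : Sn h0 e)
    (hne : wV h X e.a e.b * rho J N ((e.c : ℝ) / e.a) ≠ 0) :
    h1 ≤ yS e / X ∧ |tS e| ≤ Real.log (3 * (J + N) + h0) + 2 ∧
      |uS e| ≤ Real.log (3 * (J + N) + h0) + 2 := by
  obtain ⟨hdet, ha0, hb0, hc0, hd0, -, -⟩ := he
  have hdet' : (e.a : ℝ) * e.d = e.b * e.c + h0 := by exact_mod_cast hdet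
  have hJ' : (1 : ℝ) ≤ J := by exact_mod_cast hJ
  have hN' : (1 : ℝ) ≤ N := by exact_mod_cast hN
  have hh0 : (0 : ℝ) ≤ h0 := Nat.cast_nonneg h0
  unfold wV at hne
  unfold yS tS uS
  have ha1' : (1 : ℝ) ≤ e.a := by exact_mod_cast ha0
  obtain ⟨a, ha⟩ : ∃ a : ℝ, a = e.a := ⟨_, rfl⟩
  obtain ⟨b, hb⟩ : ∃ b : ℝ, b = e.b := ⟨_, rfl⟩
  obtain ⟨c, hc⟩ : ∃ c : ℝ, c = e.c := ⟨_, rfl⟩
  obtain ⟨d, hd⟩ : ∃ d : ℝ, d = e.d := ⟨_, rfl⟩
  have pa : 0 < a := by rw [ha]; exact_mod_cast ha0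
  have pb : 0 < b := by rw [hb]; exact_mod_cast hb0
  have pc : 0 < c := by rw [hc]; exact_mod_cast hc0
  have pd : 0 < d := by rw [hd]; exact_mod_cast hd0
  rw [← ha, ← hb, ← hc, ← hd] at hdet' ⊢
  rw [← ha, ← hb, ← hc] at hne
  rw [← ha] at ha1'
  have r1 := apxn_rho_ne hN (right_ne_zero_of_mul hne)
  have r2 := left_ne_zero_of_mul (left_ne_zero_of_mul hne)
  have r3 := right_ne_zero_of_mul (left_ne_zero_of_mul hne)
  have r4 : h1 < a * b / X := by
    by_contra h3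
    exact r2 (hh.lo _ (not_lt.1 h3))
  have r5 : |Real.log a - Real.log b| < 1 := by
    by_contra h3
    exact r3 (limh_ps0_zero (not_lt.1 h3))
  rw [abs_lt] at r5
  have hca : Real.log (c / a) = Real.log c - Real.log a := Real.log_div pc.ne' pa.ne'
  have hca0 : 0 < c / a := by positivity
  have hM : (0 : ℝ) < 3 * (J + N) + h0 := by positivity
  have l1 : Real.log (c / a) ≤ Real.log (3 * (J + N) + h0) :=
    Real.log_le_log hca0 (by linarith [r1.2])
  have l2 : 0 ≤ Real.log (c / a) := Real.log_nonneg (by linarith [r1.1])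
  have hM1 : 0 ≤ Real.log (3 * ((J : ℝ) + N) + h0) := l2.trans l1
  refine ⟨?_, ?_, ?_⟩
  · have h5 : b * c / X = a * b / X * (c / a) := by field_simp
    rw [h5]
    have h6 : 1 ≤ c / a := by linarith [r1.1]
    have h7 : 0 < a * b / X := by positivity
    nlinarith
  · -- `d / a = (b / a) (c / a) + h0 / a ^ 2`
    have hba : b / a < 3 := by
      have h5 : Real.log (b / a) < 1 := by
        rw [Real.log_div pb.ne' pa.ne']
        linarith [r5.1]
      have h6 := (Real.log_lt_iff_lt_exp (by positivity : 0 < b / a)).1 h5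
      have h7 := Real.exp_one_lt_d9
      linarith
    have hda : d / a = b / a * (c / a) + h0 / a ^ 2 := by
      field_simp
      linarith
    have hh1 : (h0 : ℝ) / a ^ 2 ≤ h0 := div_le_self hh0 (one_le_pow₀ ha1')
    have hda2 : d / a ≤ 3 * (J + N) + h0 := by
      rw [hda]
      have h8 : b / a * (c / a) ≤ 3 * (J + N) :=
        mul_le_mul hba.le r1.2.le hca0.le (by norm_num)
      linarith
    have h9 : Real.log d - Real.log a ≤ Real.log (3 * (J + N) + h0) := by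
      rw [← Real.log_div pd.ne' pa.ne']
      exact Real.log_le_log (by positivity) hda2
    have h10 : -1 ≤ Real.log d - Real.log a := by
      have h11 : b * c ≤ a * d := by linarith
      have h12 : Real.log b + Real.log c ≤ Real.log a + Real.log d := by
        rw [← Real.log_mul pb.ne' pc.ne', ← Real.log_mul pa.ne' pd.ne']
        exact Real.log_le_log (by positivity) h11
      rw [hca] at l2
      linarith [r5.2]
    rw [abs_le]
    constructor <;> linarith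
  · rw [hca] at l1 l2
    rw [abs_le]
    constructor <;> linarith [r5.1, r5.2]

/-- the support of the limit -/
theorem apxo3_suppW {h : ℝ → ℝ} {h1 h2 : ℝ} (hh : HF h h1 h2) {J N : ℕ} (hJ : 1 ≤ J) (hN : 1 ≤ N)
    {h0 : ℕ} {y t u : ℝ} (hne : WO3 h J N y t u ≠ 0) :
    h1 ≤ y ∧ |t| ≤ Real.log (3 * (J + N) + h0) + 2 ∧ |u| ≤ Real.log (3 * (J + N) + h0) + 2 := by
  have hJ' : (1 : ℝ) ≤ J := by exact_mod_cast hJ
  have hN' : (1 : ℝ) ≤ N := by exact_mod_cast hN
  have hh0 : (0 : ℝ) ≤ h0 := Nat.cast_nonneg h0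
  unfold WO3 WO at hne
  have r1 : h (y * Real.exp (-(t + u) / 2)) * rho J N (Real.exp ((t + u) / 2)) ≠ 0 := by
    have := left_ne_zero_of_mul hne
    exact_mod_cast this
  have r2 : ps0 ((u - t) / 2) ≠ 0 := by
    have := right_ne_zero_of_mul hne
    exact_mod_cast this
  have r3 := apxn_rho_ne hN (right_ne_zero_of_mul r1)
  have r4 : h1 < y * Real.exp (-(t + u) / 2) := by
    by_contra h3
    exact left_ne_zero_of_mul r1 (hh.lo _ (not_lt.1 h3))
  have r5 : |(u - t) / 2| < 1 := by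
    by_contra h3
    exact r2 (limh_ps0_zero (not_lt.1 h3))
  rw [abs_lt] at r5
  have r6 : 0 ≤ (t + u) / 2 := by
    have : 1 ≤ Real.exp ((t + u) / 2) := by linarith [r3.1]
    exact Real.one_le_exp_iff.1 this
  have r7 : (t + u) / 2 < Real.log (3 * (J + N) + h0) := by
    rw [Real.lt_log_iff_exp_lt (by positivity)]
    linarith [r3.2]
  have hexp : Real.exp (-(t + u) / 2) ≤ 1 := by
    rw [Real.exp_le_one_iff]
    linarith
  have hy : 0 < y := by
    by_contra h3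
    have h4 : y * Real.exp (-(t + u) / 2) ≤ 0 :=
      mul_nonpos_of_nonpos_of_nonneg (not_lt.1 h3) (Real.exp_pos _).le
    linarith [hh.pos]
  refine ⟨?_, ?_, ?_⟩
  · have := mul_le_mul_of_nonneg_left hexp hy.le
    linarith
  · rw [abs_le]
    constructor <;> linarith [r5.1, r5.2]
  · rw [abs_le]
    constructor <;> linarith [r5.1, r5.2]

/-- PROOF. As `apxN3` (simpler). For `e ∈ Sn h0`, `y = yS e / X`, `t = tS e`, `u = uS e`, `δ = h0 / X`: `a = sqrt((y+δ) X) exp(-t/2)`, `b = sqrt(y X) exp(-u/2)`, `c = sqrt(y X) exp(u/2)`, so the weight is `h (sqrt(y (y+δ)) exp(-(t+u)/2)) ps0 (1/2 log ((y+δ)/y) + (u-t)/2) rho (sqrt(y/(y+δ)) exp((t+u)/2))`, for `δ = 0` it is `WO3`. If one of the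
weights is not zero, `y ≥ c'' > 0`, `|t|, |u| ≤ B`. Uniform continuity and `cnt3`. Compare `apxO` in `Lib_MP_f1a94e_eq/ApxO.lean`. -/
theorem apxO3 (h0 Q n0 : ℕ) (hh0 : 0 < h0) (f g : ℕ → ℂ) (hf : ∀ m, ‖f m‖ ≤ 1) (hg : ∀ m, ‖g m‖ ≤ 1) (h : ℝ → ℝ) (h1 h2 : ℝ)
    (hh : HF h h1 h2) (J N : ℕ) (hJ : 1 ≤ J) (hN : 1 ≤ N) (b : ℝ) (hb : 0 < b) :
    Tendsto (fun X : ℝ => (SX3 h0 Q n0 f g h J N (b * X) X - ∑ e ∈ SQ h0 Q n0 (b * X),
      F4 g f f g e * WO3 h J N (yS e / X) (tS e) (uS e)) / X) atTop (nhds 0) := by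
  obtain ⟨B, hB⟩ : ∃ B : ℝ, B = Real.log (3 * (J + N) + h0) + 2 := ⟨_, rfl⟩
  obtain ⟨C, hC, hcnt⟩ := cnt3 B
  have hcomp : IsCompact (Set.Icc h1 b ×ˢ (Set.Icc (-B) B ×ˢ (Set.Icc (-B) B ×ˢ Set.Icc (0 : ℝ) 1))) :=
    isCompact_Icc.prod (isCompact_Icc.prod (isCompact_Icc.prod isCompact_Icc))
  have hKc := apxo3_K_cont hh J N
    (Set.Icc h1 b ×ˢ (Set.Icc (-B) B ×ˢ (Set.Icc (-B) B ×ˢ Set.Icc (0 : ℝ) 1)))
    (fun p hp => ⟨lt_of_lt_of_le hh.pos hp.1.1, hp.2.2.2.1⟩)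
  have huc := hcomp.uniformContinuousOn_of_continuous hKc
  rw [Metric.tendsto_atTop]
  intro ε hε
  have hε' : 0 < ε / (2 * (C * b)) := by positivity
  have hh0' : (0 : ℝ) < h0 := by exact_mod_cast hh0
  obtain ⟨η, hη, hK2⟩ := Metric.uniformContinuousOn_iff.1 huc (ε / (2 * (C * b))) hε'
  refine ⟨max 1 (max h0 (max (h0 / b) (2 * h0 / η))), fun X hX => ?_⟩
  have x1 : 1 ≤ X := (le_max_left _ _).trans hX
  have x2 : (h0 : ℝ) ≤ X := ((le_max_left _ _).trans (le_max_right _ _)).trans hX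
  have x3 : (h0 : ℝ) / b ≤ X :=
    ((le_max_left _ _).trans ((le_max_right _ _).trans (le_max_right _ _))).trans hX
  have x4 : 2 * (h0 : ℝ) / η ≤ X :=
    ((le_max_right _ _).trans ((le_max_right _ _).trans (le_max_right _ _))).trans hX
  have hX0 : 0 < X := by linarith
  have y1 : (h0 : ℝ) ≤ b * X := by
    rw [div_le_iff₀ hb] at x3
    linarith
  have y2 : (h0 : ℝ) / X ≤ 1 := by
    rw [div_le_one hX0]
    exact x2
  have y3 : (h0 : ℝ) / X < η := by
    rw [div_le_iff₀ hη] at x4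
    rw [div_lt_iff₀ hX0]
    nlinarith
  have y4 : 0 ≤ (h0 : ℝ) / X := by positivity
  have hterm : ∀ e ∈ SQ h0 Q n0 (b * X), ‖((wV h X e.a e.b * rho J N ((e.c : ℝ) / e.a) : ℝ) : ℂ) -
      WO3 h J N (yS e / X) (tS e) (uS e)‖ ≤
        if |tS e| ≤ B ∧ |uS e| ≤ B then ε / (2 * (C * b)) else 0 := by
    intro e he
    rw [mem_SQ] at he
    obtain ⟨⟨he1, he2⟩, -⟩ := he
    have hy0 : 0 < yS e / X := div_pos (by linarith [yS_pos he1]) hX0
    have hyb : yS e / X ≤ b := by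
      rw [div_le_iff₀ hX0]
      exact he2
    by_cases hall : h1 ≤ yS e / X ∧ |tS e| ≤ B ∧ |uS e| ≤ B
    · obtain ⟨k1, k2, k3⟩ := hall
      rw [if_pos ⟨k2, k3⟩, apxo3_w h J N hX0 he1, ← apxo3_K_zero h J N hy0, ← Complex.ofReal_sub,
        Complex.norm_real, ← dist_eq_norm]
      rw [abs_le] at k2 k3
      refine (hK2 _ ?_ _ ?_ ?_).le
      · exact ⟨⟨k1, hyb⟩, ⟨k2, ⟨k3, ⟨y4, y2⟩⟩⟩⟩
      · exact ⟨⟨k1, hyb⟩, ⟨k2, ⟨k3, ⟨le_refl _, zero_le_one⟩⟩⟩⟩
      · rw [Prod.dist_eq, Prod.dist_eq, Prod.dist_eq]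
        simp only [dist_self]
        rw [Real.dist_eq, sub_zero, abs_of_nonneg y4]
        exact max_lt hη (max_lt hη (max_lt hη y3))
    · have z1 : wV h X e.a e.b * rho J N ((e.c : ℝ) / e.a) = 0 := by
        by_contra h3
        apply hall
        rw [hB]
        exact apxo3_supp hh hJ hN hX0 he1 h3
      have z2 : WO3 h J N (yS e / X) (tS e) (uS e) = 0 := by
        by_contra h3
        apply hall
        rw [hB]
        exact apxo3_suppW hh hJ hN h3
      rw [z1, z2]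
      simp only [Complex.ofReal_zero, sub_self, norm_zero]
      split_ifs
      · exact hε'.le
      · exact le_refl _
  rw [dist_zero_right, norm_div, Complex.norm_real, Real.norm_eq_abs, abs_of_pos hX0,
    div_lt_iff₀ hX0]
  unfold SX3
  rw [← sum_sub_distrib]
  have hs : ‖∑ e ∈ SQ h0 Q n0 (b * X),
      (F4 g f f g e * ((wV h X e.a e.b * rho J N ((e.c : ℝ) / e.a) : ℝ) : ℂ) -
        F4 g f f g e * WO3 h J N (yS e / X) (tS e) (uS e))‖ ≤
      ∑ e ∈ SN h0 (b * X), if |tS e| ≤ B ∧ |uS e| ≤ B then ε / (2 * (C * b)) else 0 := by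
    refine (norm_sum_le _ _).trans ?_
    have hsub : SQ h0 Q n0 (b * X) ⊆ SN h0 (b * X) := by
      intro e he
      rw [mem_SQ] at he
      exact mem_SN.2 he.1
    refine le_trans (sum_le_sum fun e he => ?_)
      (sum_le_sum_of_subset_of_nonneg hsub fun e _ _ => ?_)
    · rw [← mul_sub, norm_mul]
      have h3 := hterm e he
      have h4 := norm_F4_le hg hf hf hg e
      exact (mul_le_of_le_one_left (norm_nonneg _) h4).trans h3
    · split_ifs
      · exact hε'.le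
      · exact le_refl _
  refine lt_of_le_of_lt hs ?_
  rw [← sum_filter, sum_const, nsmul_eq_mul]
  have h5 := hcnt h0 hh0 (b * X) y1
  have h6 : (((SN h0 (b * X)).filter (fun e => |tS e| ≤ B ∧ |uS e| ≤ B)).card : ℝ) *
      (ε / (2 * (C * b))) ≤ C * (b * X) * (ε / (2 * (C * b))) := by
    refine mul_le_mul_of_nonneg_right (le_trans (le_of_eq ?_) h5) hε'.le
    congr 2
  refine lt_of_le_of_lt h6 ?_
  have h7 : C * (b * X) * (ε / (2 * (C * b))) = ε * X / 2 := by field_simp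
  rw [h7]
  have : 0 < ε * X := by positivity
  linarith

end Pool.Agent.Spl
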