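import Pool.Agent.Lib_MP_f1a94e_eq.AppG

/-!
# Approximation of a continuous function of four variables by steps and triangles
-/

set_option autoImplicit false

namespace Pool.Agent.Spl

open Finset Pool.Agent.OmEq

/-- one variable, half line: a convex combination of two nearby values -/
theorem appG4_sig (I : ℕ) (hI : 1 ≤ I) (B : ℝ) (hB : 0 < B) (σ : ℝ) :
    ∃ s0 s1 u0 u1 : ℝ, 0 ≤ u0 ∧ 0 ≤ u1 ∧ u0 + u1 = 1 ∧ |σ - s0| ≤ 1 / I ∧ |σ - s1| ≤ 1 / I ∧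
      ∀ G : ℝ → ℝ, (∀ s, s ≤ 0 ∨ B ≤ s → G s = 0) →
        ∑ l ∈ range (⌈B⌉₊ * I + 1), G ((l : ℝ) / I) * max 0 (1 - |I * σ - l|) = u0 * G s0 + u1 * G s1 := by
  have hI' : (0 : ℝ) < I := by exact_mod_cast hI
  rcases lt_or_ge σ 0 with hσ | hσ
  · refine ⟨σ, σ, 1, 0, zero_le_one, le_refl _, by norm_num, by simp, by simp, ?_⟩
    intro G hG
    rw [hG σ (Or.inl hσ.le)]
    rw [Finset.sum_eq_zero]
    · simp
    intro l _
    rcases Nat.eq_zero_or_pos l with h | h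
    · rw [h, hG _ (by simp), zero_mul]
    · have h2 : (1 : ℝ) ≤ l := by exact_mod_cast h
      have h3 : (I : ℝ) * σ < 0 := mul_neg_of_pos_of_neg hI' hσ
      have h4 : 1 ≤ |(I : ℝ) * σ - l| := by
        rw [le_abs]
        right
        linarith
      rw [max_eq_left (by linarith), mul_zero]
  · have hs : 0 ≤ (I : ℝ) * σ := by positivity
    have g1 := Nat.floor_le hs
    have g2 := Nat.lt_floor_add_one ((I : ℝ) * σ)
    refine ⟨((⌊(I : ℝ) * σ⌋₊ : ℕ) : ℝ) / I, ((⌊(I : ℝ) * σ⌋₊ + 1 : ℕ) : ℝ) / I, 1 - (I * σ - ⌊(I : ℝ) * σ⌋₊),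
      I * σ - ⌊(I : ℝ) * σ⌋₊, by linarith, by linarith, by ring, ?_, ?_, ?_⟩
    · rw [abs_le, neg_le_iff_add_nonneg]
      constructor
      · have : σ - ((⌊(I : ℝ) * σ⌋₊ : ℕ) : ℝ) / I + 1 / I = (I * σ - ⌊(I : ℝ) * σ⌋₊ + 1) / I := by
          field_simp
        rw [this]
        exact div_nonneg (by linarith) hI'.le
      · rw [sub_le_iff_le_add, ← add_div, le_div_iff₀ hI']
        linarith
    · push_cast
      rw [abs_le, neg_le_iff_add_nonneg]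
      constructor
      · have : σ - (((⌊(I : ℝ) * σ⌋₊ : ℕ) : ℝ) + 1) / I + 1 / I = (I * σ - ⌊(I : ℝ) * σ⌋₊) / I := by
          field_simp
          ring
        rw [this]
        exact div_nonneg (by linarith) hI'.le
      · rw [sub_le_iff_le_add, ← add_div, le_div_iff₀ hI']
        linarith
    · intro G hG
      rw [appg_tri I _ (fun l => G ((l : ℝ) / I)) ?_ σ hσ]
      · ring
      · intro l hl
        apply hG
        right
        rw [le_div_iff₀ hI']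
        have h2 : ((⌈B⌉₊ * I + 1 : ℕ) : ℝ) ≤ l := by exact_mod_cast hl
        push_cast at h2
        have h3 := Nat.le_ceil B
        nlinarith

/-- one variable, whole line: a convex combination of two nearby values -/
theorem appG4_tau (I : ℕ) (hI : 1 ≤ I) (B : ℝ) (hB : 0 < B) (τ : ℝ) :
    ∃ t0 t1 w0 w1 : ℝ, 0 ≤ w0 ∧ 0 ≤ w1 ∧ w0 + w1 = 1 ∧ |τ - t0| ≤ 1 / I ∧ |τ - t1| ≤ 1 / I ∧
      ∀ G : ℝ → ℝ, (∀ s, B ≤ |s| → G s = 0) →
        ∑ k ∈ range (2 * ⌈B⌉₊ * I + 1), G ((k : ℝ) / I - ⌈B⌉₊) * max 0 (1 - |I * (τ + ⌈B⌉₊) - k|) =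
          w0 * G t0 + w1 * G t1 := by
  have hI' : (0 : ℝ) < I := by exact_mod_cast hI
  have hc := Nat.le_ceil B
  rcases lt_or_ge (τ + ⌈B⌉₊) 0 with hσ | hσ
  · refine ⟨τ, τ, 1, 0, zero_le_one, le_refl _, by norm_num, by simp, by simp, ?_⟩
    intro G hG
    rw [hG τ (by rw [le_abs]; right; linarith)]
    rw [Finset.sum_eq_zero]
    · simp
    intro l _
    rcases Nat.eq_zero_or_pos l with h | h
    · rw [h, hG _ (by rw [le_abs]; right; simpa using hc), zero_mul]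
    · have h2 : (1 : ℝ) ≤ l := by exact_mod_cast h
      have h3 : (I : ℝ) * (τ + ⌈B⌉₊) < 0 := mul_neg_of_pos_of_neg hI' hσ
      have h4 : 1 ≤ |(I : ℝ) * (τ + ⌈B⌉₊) - l| := by
        rw [le_abs]
        right
        linarith
      rw [max_eq_left (by linarith), mul_zero]
  · set ρ := τ + (⌈B⌉₊ : ℝ) with hρ
    have hs : 0 ≤ (I : ℝ) * ρ := by positivity
    have g1 := Nat.floor_le hs
    have g2 := Nat.lt_floor_add_one ((I : ℝ) * ρ)
    refine ⟨((⌊(I : ℝ) * ρ⌋₊ : ℕ) : ℝ) / I - ⌈B⌉₊, ((⌊(I : ℝ) * ρ⌋₊ + 1 : ℕ) : ℝ) / I - ⌈B⌉₊,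
      1 - (I * ρ - ⌊(I : ℝ) * ρ⌋₊),
      I * ρ - ⌊(I : ℝ) * ρ⌋₊, by linarith, by linarith, by ring, ?_, ?_, ?_⟩
    · have e : τ - (((⌊(I : ℝ) * ρ⌋₊ : ℕ) : ℝ) / I - ⌈B⌉₊) = ρ - ((⌊(I : ℝ) * ρ⌋₊ : ℕ) : ℝ) / I := by
        rw [hρ]; ring
      rw [e, abs_le, neg_le_iff_add_nonneg]
      constructor
      · have : ρ - ((⌊(I : ℝ) * ρ⌋₊ : ℕ) : ℝ) / I + 1 / I = (I * ρ - ⌊(I : ℝ) * ρ⌋₊ + 1) / I := by
          field_simp
        rw [this]
        exact div_nonneg (by linarith) hI'.le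
      · rw [sub_le_iff_le_add, ← add_div, le_div_iff₀ hI']
        linarith
    · have e : τ - (((⌊(I : ℝ) * ρ⌋₊ + 1 : ℕ) : ℝ) / I - ⌈B⌉₊) = ρ - (((⌊(I : ℝ) * ρ⌋₊ : ℕ) : ℝ) + 1) / I := by
        rw [hρ]; push_cast; ring
      rw [e, abs_le, neg_le_iff_add_nonneg]
      constructor
      · have : ρ - (((⌊(I : ℝ) * ρ⌋₊ : ℕ) : ℝ) + 1) / I + 1 / I = (I * ρ - ⌊(I : ℝ) * ρ⌋₊) / I := by
          field_simp
          ring
        rw [this]
        exact div_nonneg (by linarith) hI'.le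
      · rw [sub_le_iff_le_add, ← add_div, le_div_iff₀ hI']
        linarith
    · intro G hG
      rw [appg_tri I _ (fun l => G ((l : ℝ) / I - ⌈B⌉₊)) ?_ ρ hσ]
      · ring
      · intro l hl
        apply hG
        rw [le_abs]
        left
        have h2 : ((2 * ⌈B⌉₊ * I + 1 : ℕ) : ℝ) ≤ l := by exact_mod_cast hl
        push_cast at h2
        have h4 : 2 * (⌈B⌉₊ : ℝ) ≤ (l : ℝ) / I := by
          rw [le_div_iff₀ hI']
          linarith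
        linarith

/-- PROOF. As `appG` (`Lib_MP_f1a94e_eq/AppG.lean`) with one more variable. `F` is uniformly continuous. For `x, x' ∈ (0, C0]` exactly one `i` and one `j` have `cell = 1`, `|x - C0 i/I| ≤ C0/I`. For `|τ| ≤ ⌈B⌉` the triangles `max 0 (1 - |I (τ + ⌈B⌉) - k|)`, `0 ≤ k ≤ 2 ⌈B⌉ I`, add up to `1`; for `|τ| > ⌈B⌉` only `k = 0` or `k = 2 ⌈B⌉ I`
can contribute and there `F = 0` (`|k/I - ⌈B⌉| ≥ B`). For `σ ≥ 0` the triangles in `σ` over all `l ≥ 0` add up to `1`, `F (..) (l/I) = 0` for `l/I ≥ B` and for `l = 0`; for `σ < 0` only `l = 0` contributes. So the difference is at most the modulus of continuity at `(C0 + 1)/I`. Support: if `x < c0/2` (or `x' < c0/2`) then `F x .. = 0` and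
`C0 i/I < x < c0`; if `|τ| > B + 1` or `|σ| > B + 1` both vanish. For `I` large. -/
theorem appG4 (c0 C0 B : ℝ) (hc0 : 0 < c0) (hC0 : c0 ≤ C0) (hB : 0 < B) (F : ℝ → ℝ → ℝ → ℝ → ℝ)
    (hF : Continuous (fun v : ℝ × ℝ × ℝ × ℝ => F v.1 v.2.1 v.2.2.1 v.2.2.2))
    (h1 : ∀ x x' τ σ, x ≤ c0 ∨ x' ≤ c0 ∨ C0 ≤ x ∨ C0 ≤ x' ∨ B ≤ |τ| ∨ σ ≤ 0 ∨ B ≤ σ → F x x' τ σ = 0) (ε : ℝ) (hε : 0 < ε) :
    ∃ I : ℕ, 1 ≤ I ∧ ∀ x x' τ σ : ℝ, 0 < x → x ≤ C0 → 0 < x' → x' ≤ C0 →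
      |F x x' τ σ - ∑ i ∈ range I, ∑ j ∈ range I, ∑ k ∈ range (2 * ⌈B⌉₊ * I + 1), ∑ l ∈ range (⌈B⌉₊ * I + 1),
        F (C0 * i / I) (C0 * j / I) ((k : ℝ) / I - ⌈B⌉₊) ((l : ℝ) / I) * cell C0 I i x * cell C0 I j x' *
          max 0 (1 - |I * (τ + ⌈B⌉₊) - k|) * max 0 (1 - |I * σ - l|)| ≤
      if c0 / 2 ≤ x ∧ c0 / 2 ≤ x' ∧ |τ| ≤ B + 1 ∧ |σ| ≤ B + 1 then ε else 0 := by
  have hC0' : 0 < C0 := by linarith
  have hcs : HasCompactSupport (fun v : ℝ × ℝ × ℝ × ℝ => F v.1 v.2.1 v.2.2.1 v.2.2.2) := by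
    refine HasCompactSupport.intro (K := Set.Icc c0 C0 ×ˢ Set.Icc c0 C0 ×ˢ Set.Icc (-B) B ×ˢ Set.Icc 0 B)
      (isCompact_Icc.prod (isCompact_Icc.prod (isCompact_Icc.prod isCompact_Icc))) ?_
    rintro ⟨x, x', τ, σ⟩ hx
    by_contra hne
    apply hx
    have hn : ¬ (x ≤ c0 ∨ x' ≤ c0 ∨ C0 ≤ x ∨ C0 ≤ x' ∨ B ≤ |τ| ∨ σ ≤ 0 ∨ B ≤ σ) := fun h => hne (h1 x x' τ σ h)
    simp only [not_or, not_le] at hn
    obtain ⟨a1, a2, a3, a4, a5, a6, a7⟩ := hn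
    have a8 := abs_lt.1 a5
    exact ⟨⟨a1.le, a3.le⟩, ⟨a2.le, a4.le⟩, ⟨a8.1.le, a8.2.le⟩, ⟨a6.le, a7.le⟩⟩
  have huc := hcs.uniformContinuous_of_continuous hF
  obtain ⟨δ, hδ, hδF⟩ := Metric.uniformContinuous_iff.1 huc ε hε
  obtain ⟨I0, hI0⟩ := exists_nat_gt ((C0 + 1) / δ)
  have hI : 1 ≤ I0 + 1 := by omega
  have hI' : (0 : ℝ) < ((I0 + 1 : ℕ) : ℝ) := by positivity
  have hId : (C0 + 1) / ((I0 + 1 : ℕ) : ℝ) < δ := by
    rw [div_lt_iff₀ hI']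
    rw [div_lt_iff₀ hδ] at hI0
    push_cast
    nlinarith
  generalize I0 + 1 = I at hI hI' hId
  clear hI0
  have hI1 : (1 : ℝ) ≤ I := by exact_mod_cast hI
  refine ⟨I, hI, ?_⟩
  intro x x' τ σ hx hxC hx' hxC'
  obtain ⟨i0, hi0, hi1, hi2, hi3⟩ := appg_cell C0 I hC0' hI x hx hxC
  obtain ⟨j0, hj0, hj1, hj2, hj3⟩ := appg_cell C0 I hC0' hI x' hx' hxC'
  obtain ⟨s0, s1, u0, u1, hu0, hu1, hu, hs0, hs1, hG⟩ := appG4_sig I hI B hB σ
  obtain ⟨t0, t1, w0, w1, hw0, hw1, hw, ht0, ht1, hT⟩ := appG4_tau I hI B hB τ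
  have e1 : ∑ i ∈ range I, ∑ j ∈ range I, ∑ k ∈ range (2 * ⌈B⌉₊ * I + 1), ∑ l ∈ range (⌈B⌉₊ * I + 1),
        F (C0 * i / I) (C0 * j / I) ((k : ℝ) / I - ⌈B⌉₊) ((l : ℝ) / I) * cell C0 I i x * cell C0 I j x' *
          max 0 (1 - |I * (τ + ⌈B⌉₊) - k|) * max 0 (1 - |I * σ - l|) =
      ∑ k ∈ range (2 * ⌈B⌉₊ * I + 1), ∑ l ∈ range (⌈B⌉₊ * I + 1),
        F (C0 * i0 / I) (C0 * j0 / I) ((k : ℝ) / I - ⌈B⌉₊) ((l : ℝ) / I) *
          max 0 (1 - |I * (τ + ⌈B⌉₊) - k|) * max 0 (1 - |I * σ - l|) := by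
    rw [← hi3 (fun i => ∑ k ∈ range (2 * ⌈B⌉₊ * I + 1), ∑ l ∈ range (⌈B⌉₊ * I + 1),
        F (C0 * i / I) (C0 * j0 / I) ((k : ℝ) / I - ⌈B⌉₊) ((l : ℝ) / I) *
          max 0 (1 - |I * (τ + ⌈B⌉₊) - k|) * max 0 (1 - |I * σ - l|))]
    refine Finset.sum_congr rfl fun i _ => ?_
    rw [← hj3 (fun j => ∑ k ∈ range (2 * ⌈B⌉₊ * I + 1), ∑ l ∈ range (⌈B⌉₊ * I + 1),
        F (C0 * i / I) (C0 * j / I) ((k : ℝ) / I - ⌈B⌉₊) ((l : ℝ) / I) *
          max 0 (1 - |I * (τ + ⌈B⌉₊) - k|) * max 0 (1 - |I * σ - l|)), Finset.sum_mul]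
    refine Finset.sum_congr rfl fun j _ => ?_
    rw [Finset.sum_mul, Finset.sum_mul]
    refine Finset.sum_congr rfl fun k _ => ?_
    rw [Finset.sum_mul, Finset.sum_mul]
    refine Finset.sum_congr rfl fun l _ => ?_
    ring
  rw [e1]
  set a := C0 * i0 / I with ha
  set b := C0 * j0 / I with hb
  have e2 : ∑ k ∈ range (2 * ⌈B⌉₊ * I + 1), ∑ l ∈ range (⌈B⌉₊ * I + 1),
        F a b ((k : ℝ) / I - ⌈B⌉₊) ((l : ℝ) / I) *
          max 0 (1 - |I * (τ + ⌈B⌉₊) - k|) * max 0 (1 - |I * σ - l|) =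
      w0 * (u0 * F a b t0 s0 + u1 * F a b t0 s1) + w1 * (u0 * F a b t1 s0 + u1 * F a b t1 s1) := by
    rw [← hT (fun t => u0 * F a b t s0 + u1 * F a b t s1)]
    · refine Finset.sum_congr rfl fun k _ => ?_
      rw [← hG (fun s => F a b ((k : ℝ) / I - ⌈B⌉₊) s), Finset.sum_mul]
      · refine Finset.sum_congr rfl fun l _ => ?_
        ring
      · intro s hs
        apply h1
        exact Or.inr (Or.inr (Or.inr (Or.inr (Or.inr hs))))
    · intro t ht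
      show u0 * F a b t s0 + u1 * F a b t s1 = 0
      rw [h1 a b t s0 (Or.inr (Or.inr (Or.inr (Or.inr (Or.inl ht))))),
        h1 a b t s1 (Or.inr (Or.inr (Or.inr (Or.inr (Or.inl ht)))))]
      ring
  rw [e2]
  have hI11 : 1 / (I : ℝ) ≤ 1 := by
    rw [div_le_one hI']
    exact hI1
  by_cases hcase : c0 / 2 ≤ x ∧ c0 / 2 ≤ x' ∧ |τ| ≤ B + 1 ∧ |σ| ≤ B + 1
  · rw [if_pos hcase]
    have k0 : 1 / (I : ℝ) < δ := by
      refine lt_of_le_of_lt ?_ hId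
      exact div_le_div_of_nonneg_right (by linarith) hI'.le
    have k1 : |x - a| < δ := by
      rw [abs_of_pos (by linarith)]
      refine lt_of_le_of_lt hi2 (lt_of_le_of_lt ?_ hId)
      exact div_le_div_of_nonneg_right (by linarith) hI'.le
    have k2 : |x' - b| < δ := by
      rw [abs_of_pos (by linarith)]
      refine lt_of_le_of_lt hj2 (lt_of_le_of_lt ?_ hId)
      exact div_le_div_of_nonneg_right (by linarith) hI'.le
    have key : ∀ t s, |τ - t| ≤ 1 / I → |σ - s| ≤ 1 / I → |F x x' τ σ - F a b t s| ≤ ε := by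
      intro t s ht hs
      have := hδF (a := (x, x', τ, σ)) (b := (a, b, t, s))
        (by
          rw [Prod.dist_eq, Prod.dist_eq, Prod.dist_eq]
          exact max_lt k1 (max_lt k2 (max_lt (lt_of_le_of_lt ht k0) (lt_of_le_of_lt hs k0))))
      exact this.le
    have m00 := key t0 s0 ht0 hs0
    have m01 := key t0 s1 ht0 hs1
    have m10 := key t1 s0 ht1 hs0
    have m11 := key t1 s1 ht1 hs1
    have e3 : F x x' τ σ - (w0 * (u0 * F a b t0 s0 + u1 * F a b t0 s1) +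
        w1 * (u0 * F a b t1 s0 + u1 * F a b t1 s1)) =
        w0 * u0 * (F x x' τ σ - F a b t0 s0) + w0 * u1 * (F x x' τ σ - F a b t0 s1) +
        (w1 * u0 * (F x x' τ σ - F a b t1 s0) + w1 * u1 * (F x x' τ σ - F a b t1 s1)) := by
      have e4 : F x x' τ σ = (w0 + w1) * (u0 + u1) * F x x' τ σ := by rw [hw, hu]; ring
      calc F x x' τ σ - (w0 * (u0 * F a b t0 s0 + u1 * F a b t0 s1) +
        w1 * (u0 * F a b t1 s0 + u1 * F a b t1 s1)) = (w0 + w1) * (u0 + u1) * F x x' τ σ -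
          (w0 * (u0 * F a b t0 s0 + u1 * F a b t0 s1) +
            w1 * (u0 * F a b t1 s0 + u1 * F a b t1 s1)) := by rw [← e4]
        _ = _ := by ring
    rw [e3]
    have p : ∀ w u z : ℝ, 0 ≤ w → 0 ≤ u → |z| ≤ ε → |w * u * z| ≤ w * u * ε := by
      intro w u z hw hu hz
      rw [abs_mul, abs_of_nonneg (mul_nonneg hw hu)]
      exact mul_le_mul_of_nonneg_left hz (mul_nonneg hw hu)
    have q00 := p w0 u0 _ hw0 hu0 m00
    have q01 := p w0 u1 _ hw0 hu1 m01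
    have q10 := p w1 u0 _ hw1 hu0 m10
    have q11 := p w1 u1 _ hw1 hu1 m11
    have e5 : w0 * u0 * ε + w0 * u1 * ε + (w1 * u0 * ε + w1 * u1 * ε) = ε := by
      have : w0 * u0 * ε + w0 * u1 * ε + (w1 * u0 * ε + w1 * u1 * ε) = (w0 + w1) * (u0 + u1) * ε := by ring
      rw [this, hw, hu]; ring
    refine (abs_add_le _ _).trans ?_
    refine (add_le_add (abs_add_le _ _) (abs_add_le _ _)).trans ?_
    linarith
  · rw [if_neg hcase]
    have z : F x x' τ σ = 0 ∧ ∀ t s, |τ - t| ≤ 1 / I → |σ - s| ≤ 1 / I → F a b t s = 0 := by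
      rcases lt_or_ge x (c0 / 2) with h | h
      · exact ⟨h1 _ _ _ _ (Or.inl (by linarith)), fun t s _ _ => h1 _ _ _ _ (Or.inl (by linarith))⟩
      rcases lt_or_ge x' (c0 / 2) with h' | h'
      · exact ⟨h1 _ _ _ _ (Or.inr (Or.inl (by linarith))),
          fun t s _ _ => h1 _ _ _ _ (Or.inr (Or.inl (by linarith)))⟩
      rcases lt_or_ge (B + 1) |τ| with h'' | h''
      · refine ⟨h1 _ _ _ _ (Or.inr (Or.inr (Or.inr (Or.inr (Or.inl (by linarith)))))), fun t s ht _ =>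
          h1 _ _ _ _ (Or.inr (Or.inr (Or.inr (Or.inr (Or.inl ?_)))))⟩
        have := abs_sub_abs_le_abs_sub τ t
        linarith
      have h3 : B + 1 < |σ| := by
        by_contra hne
        exact hcase ⟨h, h', h'', not_lt.1 hne⟩
      refine ⟨h1 _ _ _ _ (Or.inr (Or.inr (Or.inr (Or.inr (Or.inr ?_))))), fun t s _ hs =>
          h1 _ _ _ _ (Or.inr (Or.inr (Or.inr (Or.inr (Or.inr ?_)))))⟩
      · rcases lt_abs.1 h3 with h4 | h4
        · right; linarith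
        · left; linarith
      · have h4 := abs_sub_abs_le_abs_sub σ s
        have h5 : B < |s| := by linarith
        rcases lt_abs.1 h5 with h6 | h6
        · right; linarith
        · left; linarith
    obtain ⟨z1, z2⟩ := z
    rw [z1, z2 t0 s0 ht0 hs0, z2 t0 s1 ht0 hs1, z2 t1 s0 ht1 hs0, z2 t1 s1 ht1 hs1]
    simp

end Pool.Agent.Spl
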