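import Pool.Agent.Lib_MP_92ef0c_sp.SDefs0
import Pool.Agent.Lib_MP_f1a94e_aq.Equid
import Pool.Agent.Lib_MP_f1a94e_eq.BDefs
import Pool.Agent.Lib_MP_f1a94e_eq.NpT

/-!
# Counting pairs of coprime pairs with close directions
-/

set_option autoImplicit false

namespace Pool.Agent.Spl

open Finset Pool.Agent.GaussMR Pool.Agent.OmAll Pool.Agent.OmEq MeasureTheory Filter

/-- the solutions of `a d - b c = m` -/
theorem cnt3_row (a b : ℕ) (ha : 0 < a) (hab : a.Coprime b) (C D : ℝ) (hC : 0 ≤ C) (m : ℤ) :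
    (((PB C D).filter (fun z => (a : ℤ) * z.2 - b * z.1 = m)).card : ℝ) ≤ C / a + 1 := by
  classical
  set S := (PB C D).filter (fun z => (a : ℤ) * z.2 - b * z.1 = m) with hS
  have hmap : ∀ z ∈ S, z.1 / a ∈ range (⌊C⌋₊ / a + 1) := by
    intro z hz
    rw [hS, mem_filter, mem_PB] at hz
    rw [mem_range, Nat.lt_succ_iff]
    exact Nat.div_le_div_right (Nat.le_floor hz.1.1.2)
  have hinj : Set.InjOn (fun z : ℕ × ℕ => z.1 / a) (S : Set (ℕ × ℕ)) := by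
    intro z hz w hw hzw
    rw [mem_coe, hS, mem_filter] at hz hw
    have h1 : (a : ℤ) * z.2 - b * z.1 = a * w.2 - b * w.1 := by rw [hz.2, hw.2]
    have h2 : (a : ℤ) ∣ (b : ℤ) * ((z.1 : ℤ) - w.1) := ⟨(z.2 : ℤ) - w.2, by linarith⟩
    have h3 : (a : ℤ) ∣ (z.1 : ℤ) - w.1 := by
      refine IsCoprime.dvd_of_dvd_mul_left ?_ h2
      exact Nat.isCoprime_iff_coprime.2 hab
    have h4 : z.1 ≡ w.1 [MOD a] := ((Nat.modEq_iff_dvd).2 h3).symm
    have h5 : z.1 = w.1 := by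
      have h6 : z.1 / a = w.1 / a := hzw
      have h7 : z.1 % a = w.1 % a := h4
      rw [← Nat.div_add_mod z.1 a, ← Nat.div_add_mod w.1 a, h6, h7]
    have h8 : z.2 = w.2 := by
      rw [h5] at h1
      have h9 : (a : ℤ) * z.2 = a * w.2 := by linarith
      have h10 : (a : ℤ) ≠ 0 := by exact_mod_cast ha.ne'
      have h11 := mul_left_cancel₀ h10 h9
      exact_mod_cast h11
    exact Prod.ext h5 h8
  have hcard : S.card ≤ ⌊C⌋₊ / a + 1 := by
    have := card_le_card_of_injOn (fun z : ℕ × ℕ => z.1 / a) hmap hinj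
    rwa [card_range] at this
  have h1 : (S.card : ℝ) ≤ ((⌊C⌋₊ / a : ℕ) : ℝ) + 1 := by exact_mod_cast hcard
  have h2 : ((⌊C⌋₊ / a : ℕ) : ℝ) ≤ (⌊C⌋₊ : ℝ) / a := Nat.cast_div_le
  have h3 : (⌊C⌋₊ : ℝ) / a ≤ C / a := by
    have := Nat.floor_le hC
    gcongr
  linarith

/-- the solutions of `|a d - b c| ≤ M` -/
theorem cnt3_row2 (a b : ℕ) (ha : 0 < a) (hab : a.Coprime b) (C D : ℝ) (hC : 0 ≤ C) (M : ℝ) (hM : 0 ≤ M) :
    (((PB C D).filter (fun z => |(a : ℝ) * z.2 - b * z.1| ≤ M)).card : ℝ) ≤ (2 * M + 1) * (C / a + 1) := by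
  classical
  set S := (PB C D).filter (fun z => |(a : ℝ) * z.2 - b * z.1| ≤ M) with hS
  set I : Finset ℤ := Icc (-(⌊M⌋₊ : ℤ)) ⌊M⌋₊ with hI
  have hmap : ∀ z ∈ S, (a : ℤ) * z.2 - b * z.1 ∈ I := by
    intro z hz
    rw [hS, mem_filter] at hz
    have h1 : |(a : ℤ) * z.2 - b * z.1| ≤ (⌊M⌋₊ : ℤ) := by
      have h2 : ((|(a : ℤ) * z.2 - b * z.1|).toNat : ℝ) ≤ M := by
        have h3 : (((|(a : ℤ) * z.2 - b * z.1|).toNat : ℤ) : ℝ) = |(a : ℝ) * z.2 - b * z.1| := by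
          rw [Int.toNat_of_nonneg (abs_nonneg _)]
          push_cast
          rfl
        have h4 : ((|(a : ℤ) * z.2 - b * z.1|).toNat : ℝ) = (((|(a : ℤ) * z.2 - b * z.1|).toNat : ℤ) : ℝ) := by
          push_cast
          rfl
        rw [h4, h3]
        exact hz.2
      have h5 := Nat.le_floor h2
      omega
    rw [hI, mem_Icc]
    exact abs_le.1 h1
  have hfib := card_eq_sum_card_fiberwise (f := fun z : ℕ × ℕ => (a : ℤ) * z.2 - b * z.1) (s := S) (t := I) hmap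
  have hIc : (I.card : ℝ) ≤ 2 * M + 1 := by
    rw [hI, Int.card_Icc]
    have h1 : ((⌊M⌋₊ : ℤ) + 1 - -(⌊M⌋₊ : ℤ)).toNat = 2 * ⌊M⌋₊ + 1 := by omega
    rw [h1]
    push_cast
    have := Nat.floor_le hM
    linarith
  have hpos : 0 ≤ C / a + 1 := by positivity
  calc (S.card : ℝ) = ∑ m ∈ I, ((S.filter (fun z : ℕ × ℕ => (a : ℤ) * z.2 - b * z.1 = m)).card : ℝ) := by
        rw [hfib]
        push_cast
        rfl
    _ ≤ ∑ m ∈ I, (C / a + 1) := by
        refine sum_le_sum fun m _ => ?_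
        refine le_trans ?_ (cnt3_row a b ha hab C D hC m)
        exact_mod_cast card_le_card (filter_subset_filter _ (filter_subset _ _))
    _ = I.card * (C / a + 1) := by rw [sum_const, nsmul_eq_mul]
    _ ≤ (2 * M + 1) * (C / a + 1) := mul_le_mul_of_nonneg_right hIc hpos

/-- close directions imply small determinants -/
theorem cnt3_det (a b c d : ℕ) (ha : 0 < a) (hb : 0 < b) (hc : 0 < c) (hd : 0 < d) (δ : ℝ) (hδ : δ ≤ 1)
    (h : |dirn (c, d) - dirn (a, b)| ≤ δ) : |(a : ℝ) * d - b * c| ≤ 2 * (b * c) * δ := by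
  have ha' : (0 : ℝ) < a := by exact_mod_cast ha
  have hb' : (0 : ℝ) < b := by exact_mod_cast hb
  have hc' : (0 : ℝ) < c := by exact_mod_cast hc
  have hd' : (0 : ℝ) < d := by exact_mod_cast hd
  set t : ℝ := dirn (c, d) - dirn (a, b) with ht
  have e1 : (a : ℝ) * d = b * c * Real.exp t := by
    have e2 : t = Real.log (a * d) - Real.log (b * c) := by
      rw [ht, Real.log_mul ha'.ne' hd'.ne', Real.log_mul hb'.ne' hc'.ne']
      unfold dirn
      simp only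
      ring
    rw [e2, Real.exp_sub, Real.exp_log (by positivity), Real.exp_log (by positivity)]
    field_simp
  have h1 : |Real.exp t - 1| ≤ 2 * |t| := Real.abs_exp_sub_one_le (h.trans hδ)
  have e3 : (a : ℝ) * d - b * c = b * c * (Real.exp t - 1) := by
    rw [e1]
    ring
  rw [e3, abs_mul, abs_of_pos (by positivity : (0 : ℝ) < b * c)]
  calc (b : ℝ) * c * |Real.exp t - 1| ≤ b * c * (2 * |t|) := mul_le_mul_of_nonneg_left h1 (by positivity)
    _ ≤ b * c * (2 * δ) := by gcongr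
    _ = 2 * (b * c) * δ := by ring

open Classical in
/-- the count for first rows in `t` -/
theorem cnt3_main (C0 K B : ℝ) (hC0 : 0 < C0) (hK : 0 < K) (hB : 0 < B) (N : ℕ) (Y : ℝ) (hY : 0 < Y)
    (hYN : B * N / Y ≤ 1) (t : Finset (ℕ × ℕ)) (ht : t ⊆ PB (C0 * Real.sqrt Y) (K * Real.sqrt Y))
    (E : Finset ((ℕ × ℕ) × (ℕ × ℕ)))
    (hE : ∀ e ∈ E, e.1 ∈ t ∧ e.2 ∈ PB (C0 * Real.sqrt Y) (K * Real.sqrt Y) ∧ |dirn e.2 - dirn e.1| ≤ B * N / Y) :
    (E.card : ℝ) ≤ ∑ z ∈ t, (2 * (2 * K * C0 * B * N) + 1) * (C0 * Real.sqrt Y / z.1 + 1) := by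
  have hsq : 0 < Real.sqrt Y := Real.sqrt_pos.2 hY
  have hfib := card_eq_sum_card_fiberwise (f := fun e : (ℕ × ℕ) × (ℕ × ℕ) => e.1) (s := E) (t := t)
    (fun e he => (hE e he).1)
  rw [hfib]
  push_cast
  refine sum_le_sum fun z hz => ?_
  have hz' := mem_PB.1 (ht hz)
  refine le_trans ?_ (cnt3_row2 z.1 z.2 hz'.1.1 hz'.2.2 (C0 * Real.sqrt Y) (K * Real.sqrt Y) (by positivity)
    (2 * K * C0 * B * N) (by positivity))
  have hc : (E.filter (fun e => e.1 = z)).card ≤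
      ((PB (C0 * Real.sqrt Y) (K * Real.sqrt Y)).filter
        (fun w => |(z.1 : ℝ) * w.2 - z.2 * w.1| ≤ 2 * K * C0 * B * N)).card := by
    refine card_le_card_of_injOn (fun e => e.2) ?_ ?_
    · intro e he
      rw [mem_coe, mem_filter] at he
      obtain ⟨he1, rfl⟩ := he
      obtain ⟨-, h2, h3⟩ := hE e he1
      rw [mem_coe, mem_filter]
      refine ⟨h2, ?_⟩
      have h2' := mem_PB.1 h2
      have h4 := cnt3_det e.1.1 e.1.2 e.2.1 e.2.2 hz'.1.1 hz'.2.1.1 h2'.1.1 h2'.2.1.1 (B * N / Y) hYN h3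
      refine h4.trans ?_
      have h5 : (e.1.2 : ℝ) * e.2.1 ≤ K * Real.sqrt Y * (C0 * Real.sqrt Y) :=
        mul_le_mul hz'.2.1.2 h2'.1.2 (Nat.cast_nonneg _) (by positivity)
      calc 2 * ((e.1.2 : ℝ) * e.2.1) * (B * N / Y) ≤ 2 * (K * Real.sqrt Y * (C0 * Real.sqrt Y)) * (B * N / Y) := by
            gcongr
        _ = 2 * K * C0 * B * N * ((Real.sqrt Y * Real.sqrt Y) / Y) := by ring
        _ = 2 * K * C0 * B * N := by
            rw [Real.mul_self_sqrt hY.le, div_self hY.ne', mul_one]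
    · intro e he e' he' hee
      rw [mem_coe, mem_filter] at he he'
      exact Prod.ext (he.2.trans he'.2.symm) hee
  exact_mod_cast hc

theorem cnt3_PB (C D : ℝ) (hC : 0 ≤ C) (hD : 0 ≤ D) : ((PB C D).card : ℝ) ≤ C * D := by
  have h1 : (PB C D).card ≤ ⌊C⌋₊ * ⌊D⌋₊ := by
    unfold PB
    refine (card_filter_le _ _).trans ?_
    rw [card_product, Nat.card_Icc, Nat.card_Icc]
    simp
  calc ((PB C D).card : ℝ) ≤ (⌊C⌋₊ * ⌊D⌋₊ : ℕ) := by exact_mod_cast h1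
    _ = (⌊C⌋₊ : ℝ) * ⌊D⌋₊ := by push_cast; rfl
    _ ≤ C * D := mul_le_mul (Nat.floor_le hC) (Nat.floor_le hD) (Nat.cast_nonneg _) hC

theorem cnt3_ev (B : ℝ) (N : ℕ) : ∀ᶠ Y : ℝ in atTop, B * N / Y ≤ 1 := by
  filter_upwards [eventually_ge_atTop (max 1 (B * N))] with Y hY
  have h1 : 1 ≤ Y := (le_max_left _ _).trans hY
  have h2 : B * N ≤ Y := (le_max_right _ _).trans hY
  rw [div_le_one (by linarith)]
  exact h2

open Classical in
/-- PROOF. Let `V = (a, b)`, `V' = (c, d)`, `Δ = dirn V' - dirn V = log (a d) - log (b c)`. `a d - b c = b c (exp Δ - 1)`, so for `|Δ| ≤ B N/Y ≤ 1`: `|a d - b c| ≤ 2 b c |Δ| ≤ 2 K C0 B N =: M`. For given `V` (at most `C0 K Y` possibilities) and an integer `m`, `|m| ≤ M`, the solutions of `a d - b c = m` have `c` in one residue class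
modulo `a` (`(a, b) = 1`) and `1 ≤ c ≤ C0 sqrt Y`: at most `C0 sqrt Y / a + 1 ≤ C0/c0 + 1`, and `d` is determined. -/
theorem cntA3 (c0 C0 K B : ℝ) (hc0 : 0 < c0) (hC0 : c0 ≤ C0) (hK : 0 < K) (hB : 0 < B) : ∃ C : ℝ, 0 < C ∧ ∀ N : ℕ, 1 ≤ N →
    ∀ᶠ Y : ℝ in atTop, (((PB (C0 * Real.sqrt Y) (K * Real.sqrt Y) ×ˢ PB (C0 * Real.sqrt Y) (K * Real.sqrt Y)).filter
      (fun e : (ℕ × ℕ) × (ℕ × ℕ) => c0 * Real.sqrt Y ≤ e.1.1 ∧ c0 * Real.sqrt Y ≤ e.2.1 ∧
        |dirn e.2 - dirn e.1| ≤ B * N / Y)).card : ℝ) ≤ C * N * Y := by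
  have hC0' : 0 < C0 := by linarith
  refine ⟨(4 * K * C0 * B + 1) * (C0 / c0 + 1) * (C0 * K), by positivity, ?_⟩
  intro N hN
  filter_upwards [cnt3_ev B N, eventually_ge_atTop 1] with Y hY1 hY
  have hY0 : 0 < Y := by linarith
  have hsq : 0 < Real.sqrt Y := Real.sqrt_pos.2 hY0
  have hN' : (1 : ℝ) ≤ N := by exact_mod_cast hN
  set t := (PB (C0 * Real.sqrt Y) (K * Real.sqrt Y)).filter (fun z => c0 * Real.sqrt Y ≤ z.1) with ht
  refine (cnt3_main C0 K B hC0' hK hB N Y hY0 hY1 t (filter_subset _ _) _ ?_).trans ?_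
  · intro e he
    rw [mem_filter, mem_product] at he
    exact ⟨mem_filter.2 ⟨he.1.1, he.2.1⟩, he.1.2, he.2.2.2⟩
  · have h1 : ∀ z ∈ t, (2 * (2 * K * C0 * B * N) + 1) * (C0 * Real.sqrt Y / z.1 + 1) ≤
        ((4 * K * C0 * B + 1) * N) * (C0 / c0 + 1) := by
      intro z hz
      rw [ht, mem_filter] at hz
      have h2 : C0 * Real.sqrt Y / z.1 ≤ C0 / c0 := by
        rw [div_le_div_iff₀ (lt_of_lt_of_le (by positivity) hz.2) hc0]
        calc C0 * Real.sqrt Y * c0 = C0 * (c0 * Real.sqrt Y) := by ring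
          _ ≤ C0 * z.1 := mul_le_mul_of_nonneg_left hz.2 hC0'.le
      have h3 : 2 * (2 * K * C0 * B * N) + 1 ≤ (4 * K * C0 * B + 1) * N := by
        have : (4 * K * C0 * B + 1) * (N : ℝ) = 2 * (2 * K * C0 * B * N) + N := by ring
        rw [this]
        linarith
      exact mul_le_mul h3 (by linarith) (by positivity) (by positivity)
    refine (sum_le_sum h1).trans ?_
    rw [sum_const, nsmul_eq_mul]
    have h4 : (t.card : ℝ) ≤ C0 * Real.sqrt Y * (K * Real.sqrt Y) := by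
      refine le_trans ?_ (cnt3_PB _ _ (by positivity) (by positivity))
      exact_mod_cast card_filter_le _ _
    calc (t.card : ℝ) * ((4 * K * C0 * B + 1) * N * (C0 / c0 + 1))
        ≤ (C0 * Real.sqrt Y * (K * Real.sqrt Y)) * ((4 * K * C0 * B + 1) * N * (C0 / c0 + 1)) :=
          mul_le_mul_of_nonneg_right h4 (by positivity)
      _ = (4 * K * C0 * B + 1) * (C0 / c0 + 1) * (C0 * K) * N * (Real.sqrt Y * Real.sqrt Y) := by ring
      _ = (4 * K * C0 * B + 1) * (C0 / c0 + 1) * (C0 * K) * N * Y := by rw [Real.mul_self_sqrt hY0.le]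

theorem cnt3_harm (C : ℝ) (hC : 1 ≤ C) : ∑ a ∈ Icc 1 ⌊C⌋₊, (C / a + 1) ≤ C * (2 + Real.log C) := by
  have hC0 : 0 < C := by linarith
  have h1 : ∑ a ∈ Icc 1 ⌊C⌋₊, ((a : ℝ))⁻¹ ≤ 1 + Real.log C := by
    have h2 := harmonic_le_one_add_log ⌊C⌋₊
    rw [harmonic_eq_sum_Icc] at h2
    push_cast at h2
    refine h2.trans ?_
    have h3 : Real.log (⌊C⌋₊ : ℝ) ≤ Real.log C := by
      refine Real.log_le_log ?_ (Nat.floor_le hC0.le)
      have : 1 ≤ ⌊C⌋₊ := Nat.le_floor (by simpa using hC)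
      exact_mod_cast this
    linarith
  rw [sum_add_distrib]
  have e1 : ∑ a ∈ Icc 1 ⌊C⌋₊, C / (a : ℝ) = C * ∑ a ∈ Icc 1 ⌊C⌋₊, ((a : ℝ))⁻¹ := by
    rw [mul_sum]
    rfl
  have e2 : ∑ _a ∈ Icc 1 ⌊C⌋₊, (1 : ℝ) ≤ C := by
    rw [sum_const, Nat.card_Icc, nsmul_eq_mul, mul_one]
    have := Nat.floor_le hC0.le
    simpa using this
  rw [e1]
  have h4 : C * ∑ a ∈ Icc 1 ⌊C⌋₊, ((a : ℝ))⁻¹ ≤ C * (1 + Real.log C) := mul_le_mul_of_nonneg_left h1 hC0.le
  linarith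

open Classical in
/-- PROOF. As `cntA3`, without the lower bound for `a`: `∑_(a ≤ C0 sqrt Y) ∑_(b ≤ K sqrt Y) (C0 sqrt Y/a + 1) (2 M + 1) ≤ (2 M + 1) C0 K Y (2 + log (C0 sqrt Y))` (harmonic sum). -/
theorem cntB3 (C0 K B : ℝ) (hC0 : 0 < C0) (hK : 0 < K) (hB : 0 < B) : ∃ C : ℝ, 0 < C ∧ ∀ N : ℕ, 1 ≤ N →
    ∀ᶠ Y : ℝ in atTop, (((PB (C0 * Real.sqrt Y) (K * Real.sqrt Y) ×ˢ PB (C0 * Real.sqrt Y) (K * Real.sqrt Y)).filter
      (fun e : (ℕ × ℕ) × (ℕ × ℕ) => |dirn e.2 - dirn e.1| ≤ B * N / Y)).card : ℝ) ≤ C * N * Y * Real.log Y := by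
  refine ⟨(4 * K * C0 * B + 1) * (C0 * K), by positivity, ?_⟩
  intro N hN
  have hlogev : ∀ᶠ Y : ℝ in atTop, 2 * (2 + Real.log C0) ≤ Real.log Y :=
    Real.tendsto_log_atTop.eventually_ge_atTop _
  filter_upwards [cnt3_ev B N, eventually_ge_atTop 1, eventually_ge_atTop ((1 / C0) ^ 2), hlogev] with Y hY1 hY hYC hYl
  have hY0 : 0 < Y := by linarith
  have hsq : 0 < Real.sqrt Y := Real.sqrt_pos.2 hY0
  have hN' : (1 : ℝ) ≤ N := by exact_mod_cast hN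
  have hC1 : 1 ≤ C0 * Real.sqrt Y := by
    have h1 : 1 / C0 ≤ Real.sqrt Y := Real.le_sqrt_of_sq_le hYC
    rw [div_le_iff₀ hC0] at h1
    linarith
  refine (cnt3_main C0 K B hC0 hK hB N Y hY0 hY1 _ (Subset.refl _) _ ?_).trans ?_
  · intro e he
    rw [mem_filter, mem_product] at he
    exact ⟨he.1.1, he.1.2, he.2⟩
  · set M : ℝ := 2 * (2 * K * C0 * B * N) + 1 with hM
    have hMpos : 0 < M := by positivity
    have hM2 : M ≤ (4 * K * C0 * B + 1) * N := by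
      have : (4 * K * C0 * B + 1) * (N : ℝ) = 2 * (2 * K * C0 * B * N) + N := by ring
      rw [this, hM]
      linarith
    have hlog : 2 + Real.log (C0 * Real.sqrt Y) ≤ Real.log Y := by
      rw [Real.log_mul hC0.ne' hsq.ne', Real.log_sqrt hY0.le]
      linarith
    have hlogY : 0 ≤ Real.log Y := Real.log_nonneg hY
    calc ∑ z ∈ PB (C0 * Real.sqrt Y) (K * Real.sqrt Y), M * (C0 * Real.sqrt Y / z.1 + 1)
        ≤ ∑ z ∈ (Icc 1 ⌊C0 * Real.sqrt Y⌋₊) ×ˢ (Icc 1 ⌊K * Real.sqrt Y⌋₊), M * (C0 * Real.sqrt Y / z.1 + 1) := by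
          unfold PB
          exact sum_le_sum_of_subset_of_nonneg (filter_subset _ _) fun z _ _ => by positivity
      _ = ∑ a ∈ Icc 1 ⌊C0 * Real.sqrt Y⌋₊, (⌊K * Real.sqrt Y⌋₊ : ℝ) * (M * (C0 * Real.sqrt Y / a + 1)) := by
          rw [sum_product]
          refine sum_congr rfl fun a _ => ?_
          show ∑ _b ∈ Icc 1 ⌊K * Real.sqrt Y⌋₊, M * (C0 * Real.sqrt Y / a + 1) = _
          rw [sum_const, Nat.card_Icc, nsmul_eq_mul]
          simp
      _ = (⌊K * Real.sqrt Y⌋₊ : ℝ) * M * ∑ a ∈ Icc 1 ⌊C0 * Real.sqrt Y⌋₊, (C0 * Real.sqrt Y / a + 1) := by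
          rw [mul_sum]
          refine sum_congr rfl fun a _ => ?_
          ring
      _ ≤ (K * Real.sqrt Y) * ((4 * K * C0 * B + 1) * N) * (C0 * Real.sqrt Y * (2 + Real.log (C0 * Real.sqrt Y))) := by
          have h1 := Nat.floor_le (show 0 ≤ K * Real.sqrt Y by positivity)
          have h2 := cnt3_harm _ hC1
          have h3 : (0 : ℝ) ≤ ∑ a ∈ Icc 1 ⌊C0 * Real.sqrt Y⌋₊, (C0 * Real.sqrt Y / a + 1) :=
            sum_nonneg fun a _ => by positivity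
          refine mul_le_mul (mul_le_mul h1 hM2 hMpos.le (by positivity)) h2 h3 (by positivity)
      _ ≤ (K * Real.sqrt Y) * ((4 * K * C0 * B + 1) * N) * (C0 * Real.sqrt Y * Real.log Y) := by
          gcongr
      _ = (4 * K * C0 * B + 1) * (C0 * K) * N * (Real.sqrt Y * Real.sqrt Y) * Real.log Y := by ring
      _ = (4 * K * C0 * B + 1) * (C0 * K) * N * Y * Real.log Y := by rw [Real.mul_self_sqrt hY0.le]

end Pool.Agent.Spl
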