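import Pool.Agent.Lib_MP_92ef0c_sp.ArcI3
import Pool.Agent.Lib_MP_92ef0c_sp.CntA3
import Pool.Agent.Lib_MP_92ef0c_sp.AppG4

/-!
# Pairs of coprime pairs with close directions
-/

set_option autoImplicit false

namespace Pool.Agent.Spl

open Finset Pool.Agent.GaussMR Pool.Agent.OmAll Pool.Agent.OmEq MeasureTheory Filter

/-- the residue classes modulo `D` -/
def arcp3R (D : ℕ) : Finset (ℕ × ℕ) := range D ×ˢ range D

theorem arcp3_card (D : ℕ) : (arcp3R D).card = D * D := by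
  unfold arcp3R
  rw [card_product, card_range]

theorem arcp3_split {D : ℕ} (hD : 0 < D) (S : Finset (ℕ × ℕ)) (g : ℕ × ℕ → ℂ) :
    ∑ z ∈ S, g z = ∑ b ∈ arcp3R D, ∑ z ∈ S.filter (fun z => z.1 ≡ b.1 [MOD D] ∧ z.2 ≡ b.2 [MOD D]), g z := by
  rw [← sum_fiberwise_of_maps_to (s := S) (t := arcp3R D) (g := fun z => (z.1 % D, z.2 % D))
    (fun z _ => by
      unfold arcp3R
      rw [mem_product, mem_range, mem_range]
      exact ⟨Nat.mod_lt _ hD, Nat.mod_lt _ hD⟩)]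
  refine sum_congr rfl fun b hb => ?_
  refine sum_congr (filter_congr fun z _ => ?_) fun _ _ => rfl
  unfold arcp3R at hb
  rw [mem_product, mem_range, mem_range] at hb
  constructor
  · intro h
    rw [← h]
    exact ⟨(Nat.mod_modEq _ _).symm, (Nat.mod_modEq _ _).symm⟩
  · rintro ⟨h1, h2⟩
    apply Prod.ext
    · exact (show z.1 % D = b.1 % D from h1).trans (Nat.mod_eq_of_lt hb.1)
    · exact (show z.2 % D = b.2 % D from h2).trans (Nat.mod_eq_of_lt hb.2)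

theorem arcp3_split2 {D : ℕ} (hD : 0 < D) (S : Finset (ℕ × ℕ)) (κ : ℕ × ℕ → ℕ × ℕ → ℂ)
    (hper : ∀ V V' U U' : ℕ × ℕ, V.1 ≡ U.1 [MOD D] → V.2 ≡ U.2 [MOD D] → V'.1 ≡ U'.1 [MOD D] →
      V'.2 ≡ U'.2 [MOD D] → κ V V' = κ U U') (a : ℕ × ℕ → ℕ × ℕ → ℂ) :
    ∑ V ∈ S, ∑ V' ∈ S, κ V V' * a V V' = ∑ b ∈ arcp3R D, ∑ b' ∈ arcp3R D, κ b b' *
      ∑ V ∈ S.filter (fun z => z.1 ≡ b.1 [MOD D] ∧ z.2 ≡ b.2 [MOD D]),
        ∑ V' ∈ S.filter (fun z => z.1 ≡ b'.1 [MOD D] ∧ z.2 ≡ b'.2 [MOD D]), a V V' := by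
  rw [arcp3_split hD]
  apply sum_congr rfl
  intro b _
  have h1 : ∀ V ∈ S.filter (fun z => z.1 ≡ b.1 [MOD D] ∧ z.2 ≡ b.2 [MOD D]), ∑ V' ∈ S, κ V V' * a V V' =
      ∑ b' ∈ arcp3R D, κ b b' *
        ∑ V' ∈ S.filter (fun z => z.1 ≡ b'.1 [MOD D] ∧ z.2 ≡ b'.2 [MOD D]), a V V' := by
    intro V hV
    rw [mem_filter] at hV
    rw [arcp3_split hD]
    apply sum_congr rfl
    intro b' _
    rw [mul_sum]
    apply sum_congr rfl
    intro V' hV'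
    rw [mem_filter] at hV'
    rw [hper V V' b b' hV.2.1 hV.2.2 hV'.2.1 hV'.2.2]
  rw [sum_congr rfl h1, sum_comm]
  apply sum_congr rfl
  intro b' _
  rw [mul_sum]

theorem arcp3_mono {C D C' D' : ℝ} (h : C ≤ C') (h' : D ≤ D') : PB C D ⊆ PB C' D' := by
  intro z hz
  rw [mem_PB] at hz ⊢
  exact ⟨⟨hz.1.1, hz.1.2.trans h⟩, ⟨hz.2.1.1, hz.2.1.2.trans h'⟩, hz.2.2⟩

theorem arcp3_cell {C0 K s : ℝ} (hC0 : 0 < C0) (hs : 0 < s) {I i : ℕ} (hi : i < I) (Q : ℕ × ℕ → Prop)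
    [DecidablePred Q] (g : ℕ × ℕ → ℂ) :
    ∑ z ∈ (PB (C0 * s) (K * s)).filter Q, g z * ((cell C0 I i (z.1 / s) : ℝ) : ℂ) =
      ∑ z ∈ (PB (C0 * s * ((i + 1 : ℕ) : ℝ) / I) (K * s)).filter Q, g z -
        ∑ z ∈ (PB (C0 * s * ((i : ℕ) : ℝ) / I) (K * s)).filter Q, g z := by
  have hI : (0 : ℝ) < I := by exact_mod_cast (Nat.zero_le i).trans_lt hi
  have hX : ∀ k : ℕ, k ≤ I → (PB (C0 * s * (k : ℝ) / I) (K * s)).filter Q =
      ((PB (C0 * s) (K * s)).filter Q).filter (fun z => (z.1 : ℝ) ≤ C0 * s * (k : ℝ) / I) := by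
    intro k hk
    have hk' : (k : ℝ) ≤ I := by exact_mod_cast hk
    have h1 : C0 * s * (k : ℝ) / I ≤ C0 * s := by
      rw [div_le_iff₀ hI]
      exact mul_le_mul_of_nonneg_left hk' (by positivity)
    ext z
    simp only [mem_filter, mem_PB]
    constructor
    · rintro ⟨⟨⟨h2, h2'⟩, h3, h3'⟩, h4⟩
      exact ⟨⟨⟨⟨h2, h2'.trans h1⟩, h3, h3'⟩, h4⟩, h2'⟩
    · rintro ⟨⟨⟨⟨h2, h2'⟩, h3, h3'⟩, h4⟩, h5⟩
      exact ⟨⟨⟨h2, h5⟩, h3, h3'⟩, h4⟩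
  rw [hX (i + 1) hi, hX i hi.le, sum_filter (s := (PB (C0 * s) (K * s)).filter Q),
    sum_filter (s := (PB (C0 * s) (K * s)).filter Q), ← sum_sub_distrib]
  apply sum_congr rfl
  intro z _
  have e1 : C0 * i / I < (z.1 : ℝ) / s ↔ ¬ (z.1 : ℝ) ≤ C0 * s * (i : ℝ) / I := by
    rw [not_le, div_lt_div_iff₀ hI hs, div_lt_iff₀ hI]
    constructor <;> intro h <;> linarith
  have e2 : (z.1 : ℝ) / s ≤ C0 * (i + 1) / I ↔ (z.1 : ℝ) ≤ C0 * s * ((i + 1 : ℕ) : ℝ) / I := by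
    rw [div_le_div_iff₀ hs hI, le_div_iff₀ hI]
    push_cast
    constructor <;> intro h <;> linarith
  have e3 : (z.1 : ℝ) ≤ C0 * s * (i : ℝ) / I → (z.1 : ℝ) ≤ C0 * s * ((i + 1 : ℕ) : ℝ) / I := by
    intro h
    refine h.trans ?_
    push_cast
    apply div_le_div_of_nonneg_right _ hI.le
    have : 0 < C0 * s := by positivity
    nlinarith
  unfold cell
  by_cases h1 : (z.1 : ℝ) ≤ C0 * s * (i : ℝ) / I
  · rw [if_neg (fun h => (e1.1 h.1) h1), if_pos (e3 h1), if_pos h1]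
    simp
  · by_cases h2 : (z.1 : ℝ) ≤ C0 * s * ((i + 1 : ℕ) : ℝ) / I
    · rw [if_pos ⟨e1.2 h1, e2.2 h2⟩, if_pos h2, if_neg h1]
      simp
    · rw [if_neg (fun h => h2 (e2.1 h.2)), if_neg h2, if_neg h1]
      simp

theorem arcp3_cells {C0 K s : ℝ} (hC0 : 0 < C0) (hs : 0 < s) {I i j : ℕ} (hi : i < I) (hj : j < I)
    (Q Q' : ℕ × ℕ → Prop) [DecidablePred Q] [DecidablePred Q'] (a : ℕ × ℕ → ℕ × ℕ → ℂ) (E : ℝ)
    (hE : ∀ k k' : ℕ, k ≤ I → k' ≤ I → ‖∑ V ∈ (PB (C0 * s * (k : ℝ) / I) (K * s)).filter Q,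
      ∑ V' ∈ (PB (C0 * s * (k' : ℝ) / I) (K * s)).filter Q', a V V'‖ ≤ E) :
    ‖∑ V ∈ (PB (C0 * s) (K * s)).filter Q, ∑ V' ∈ (PB (C0 * s) (K * s)).filter Q',
      a V V' * ((cell C0 I j (V'.1 / s) : ℝ) : ℂ) * ((cell C0 I i (V.1 / s) : ℝ) : ℂ)‖ ≤ 4 * E := by
  have h1 : ∀ V : ℕ × ℕ, ∑ V' ∈ (PB (C0 * s) (K * s)).filter Q',
      a V V' * ((cell C0 I j (V'.1 / s) : ℝ) : ℂ) * ((cell C0 I i (V.1 / s) : ℝ) : ℂ) =
      (∑ V' ∈ (PB (C0 * s * ((j + 1 : ℕ) : ℝ) / I) (K * s)).filter Q', a V V' -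
        ∑ V' ∈ (PB (C0 * s * ((j : ℕ) : ℝ) / I) (K * s)).filter Q', a V V') *
        ((cell C0 I i (V.1 / s) : ℝ) : ℂ) := by
    intro V
    rw [← arcp3_cell hC0 hs hj, sum_mul]
  simp only [h1]
  rw [arcp3_cell hC0 hs hi, sum_sub_distrib, sum_sub_distrib]
  have a1 := hE (i + 1) (j + 1) hi hj
  have a2 := hE (i + 1) j hi hj.le
  have a3 := hE i (j + 1) hi.le hj
  have a4 := hE i j hi.le hj.le
  refine (norm_sub_le _ _).trans ?_
  refine (add_le_add (norm_sub_le _ _) (norm_sub_le _ _)).trans ?_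
  linarith

theorem arcp3_PB0 (D : ℝ) : PB 0 D = ∅ := by
  rw [eq_empty_iff_forall_notMem]
  intro z hz
  rw [mem_PB] at hz
  have h1 : (0 : ℝ) < z.1 := by exact_mod_cast hz.1.1
  linarith [hz.1.2]

open Classical in
/-- bound for one quadruple of cells -/
theorem arcp3_term (f : ℕ → ℂ) (hf : ∀ n, ‖f n‖ ≤ 1) (D : ℕ) (hD : 0 < D) (κ : ℕ × ℕ → ℕ × ℕ → ℂ)
    (hκ : ∀ V V', ‖κ V V'‖ ≤ 2) (hper : ∀ V V' U U' : ℕ × ℕ, V.1 ≡ U.1 [MOD D] → V.2 ≡ U.2 [MOD D] →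
      V'.1 ≡ U'.1 [MOD D] → V'.2 ≡ U'.2 [MOD D] → κ V V' = κ U U')
    {C0 K s Y N A δ M : ℝ} (hC0 : 0 < C0) (hs : 0 < s) (hY : 0 < Y) (hN : 0 < N) {I i j k l β : ℕ}
    (hi : i < I) (hj : j < I) (hδ : δ = N / (I * Y)) (hA : 0 ≤ A) (hM : 0 ≤ M)
    (hS : ∀ b ∈ arcp3R D, ∀ k ∈ Icc 1 I,
      ∫ τ, ‖Ss f D b (C0 * s * (k : ℝ) / I) (K * s) δ τ‖ ^ 2 ≤ A)
    (hcnt : (((PB (C0 * s) (K * s) ×ˢ PB (C0 * s) (K * s)).filter
      (fun e : (ℕ × ℕ) × (ℕ × ℕ) => |dirn e.2 - dirn e.1| ≤ (l + 1) * δ)).card : ℝ) ≤ M) :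
    ‖∑ V ∈ PB (C0 * s) (K * s), ∑ V' ∈ PB (C0 * s) (K * s), κ V V' * (F2 f V * (starRingEnd ℂ) (F2 f V')) *
      ((cell C0 I i (V.1 / s) * cell C0 I j (V'.1 / s) * max 0 (1 - |I * (dirn V + β) - k|) *
        max 0 (1 - |I * (Y * (dirn V' - dirn V) / N) - l|) : ℝ) : ℂ)‖ ≤
      8 * ((D : ℝ) ^ 4) * (A / δ + I * δ * M) := by
  have hI : (0 : ℝ) < I := by exact_mod_cast (Nat.zero_le i).trans_lt hi
  have hδ0 : 0 < δ := by
    rw [hδ]
    positivity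
  have hE0 : 0 ≤ A / δ + I * δ * M := by positivity
  have e0 : ∀ V V' : ℕ × ℕ, κ V V' * (F2 f V * (starRingEnd ℂ) (F2 f V')) *
      ((cell C0 I i (V.1 / s) * cell C0 I j (V'.1 / s) * max 0 (1 - |I * (dirn V + β) - k|) *
        max 0 (1 - |I * (Y * (dirn V' - dirn V) / N) - l|) : ℝ) : ℂ) =
      κ V V' * (F2 f V * (starRingEnd ℂ) (F2 f V') * ((max 0 (1 - |I * (dirn V + β) - k|) *
        max 0 (1 - |(dirn V' - dirn V) / δ - l|) : ℝ) : ℂ) *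
        ((cell C0 I j (V'.1 / s) : ℝ) : ℂ) * ((cell C0 I i (V.1 / s) : ℝ) : ℂ)) := by
    intro V V'
    have e1 : (I : ℝ) * (Y * (dirn V' - dirn V) / N) = (dirn V' - dirn V) / δ := by
      rw [hδ]
      field_simp
    rw [e1]
    push_cast
    ring
  simp only [e0]
  rw [arcp3_split2 hD _ κ hper]
  have hcard : ((arcp3R D).card : ℝ) = (D : ℝ) * D := by
    rw [arcp3_card]
    push_cast
    ring
  have hφL : ∀ x y : ℝ, |max 0 (1 - |I * (x + β) - k|) - max 0 (1 - |I * (y + β) - k|)| ≤ I * |x - y| := by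
    intro x y
    have g1 : |max 0 (1 - |I * (x + β) - k|) - max 0 (1 - |I * (y + β) - k|)| ≤
        |(1 - |I * (x + β) - k|) - (1 - |I * (y + β) - k|)| := by
      have := abs_max_sub_max_le_abs (1 - |(I : ℝ) * (x + β) - k|) (1 - |(I : ℝ) * (y + β) - k|) 0
      rwa [max_comm 0, max_comm 0]
    refine g1.trans ?_
    have g2 : (1 - |(I : ℝ) * (x + β) - k|) - (1 - |(I : ℝ) * (y + β) - k|) =
        |(I : ℝ) * (y + β) - k| - |(I : ℝ) * (x + β) - k| := by ring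
    rw [g2]
    refine (abs_abs_sub_abs_le_abs_sub _ _).trans (le_of_eq ?_)
    have g3 : (I : ℝ) * (y + β) - k - (I * (x + β) - k) = I * (y - x) := by ring
    rw [g3, abs_mul, abs_of_pos hI, abs_sub_comm]
  have hφ1 : ∀ x : ℝ, |max 0 (1 - |(I : ℝ) * (x + β) - k|)| ≤ 1 := by
    intro x
    rw [abs_of_nonneg (le_max_left _ _)]
    exact max_le zero_le_one (by linarith [abs_nonneg ((I : ℝ) * (x + β) - k)])
  have hterm : ∀ b ∈ arcp3R D, ∀ b' ∈ arcp3R D, ‖κ b b' *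
      ∑ V ∈ (PB (C0 * s) (K * s)).filter (fun z => z.1 ≡ b.1 [MOD D] ∧ z.2 ≡ b.2 [MOD D]),
      ∑ V' ∈ (PB (C0 * s) (K * s)).filter (fun z => z.1 ≡ b'.1 [MOD D] ∧ z.2 ≡ b'.2 [MOD D]),
        (F2 f V * (starRingEnd ℂ) (F2 f V') * ((max 0 (1 - |I * (dirn V + β) - k|) *
        max 0 (1 - |(dirn V' - dirn V) / δ - l|) : ℝ) : ℂ) *
        ((cell C0 I j (V'.1 / s) : ℝ) : ℂ) * ((cell C0 I i (V.1 / s) : ℝ) : ℂ))‖ ≤
        8 * (A / δ + I * δ * M) := by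
    intro b hb b' hb'
    rw [norm_mul]
    have h4 : ‖∑ V ∈ (PB (C0 * s) (K * s)).filter (fun z => z.1 ≡ b.1 [MOD D] ∧ z.2 ≡ b.2 [MOD D]),
      ∑ V' ∈ (PB (C0 * s) (K * s)).filter (fun z => z.1 ≡ b'.1 [MOD D] ∧ z.2 ≡ b'.2 [MOD D]),
        (F2 f V * (starRingEnd ℂ) (F2 f V') * ((max 0 (1 - |I * (dirn V + β) - k|) *
        max 0 (1 - |(dirn V' - dirn V) / δ - l|) : ℝ) : ℂ) *
        ((cell C0 I j (V'.1 / s) : ℝ) : ℂ) * ((cell C0 I i (V.1 / s) : ℝ) : ℂ))‖ ≤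
        4 * (A / δ + I * δ * M) := by
      apply arcp3_cells hC0 hs hi hj (fun z => z.1 ≡ b.1 [MOD D] ∧ z.2 ≡ b.2 [MOD D])
        (fun z => z.1 ≡ b'.1 [MOD D] ∧ z.2 ≡ b'.2 [MOD D])
        (fun V V' => F2 f V * (starRingEnd ℂ) (F2 f V') * ((max 0 (1 - |I * (dirn V + β) - k|) *
        max 0 (1 - |(dirn V' - dirn V) / δ - l|) : ℝ) : ℂ))
      intro k1 k2 hk1 hk2
      rcases Nat.eq_zero_or_pos k1 with h0 | h0
      · rw [h0, Nat.cast_zero, mul_zero, zero_div, arcp3_PB0, filter_empty, sum_empty, norm_zero]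
        exact hE0
      · rcases Nat.eq_zero_or_pos k2 with h0' | h0'
        · rw [h0', Nat.cast_zero, mul_zero, zero_div, arcp3_PB0, filter_empty]
          simp only [sum_empty, sum_const_zero, norm_zero]
          exact hE0
        · refine (arc_bound3 f hf D b b' _ _ _ _ δ A hδ0 l (fun x => max 0 (1 - |I * (x + β) - k|)) I hI.le
            hφL hφ1 (hS b hb k1 (mem_Icc.2 ⟨h0, hk1⟩)) (hS b' hb' k2 (mem_Icc.2 ⟨h0', hk2⟩))).trans ?_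
          have hbox : ∀ m : ℕ, m ≤ I → PB (C0 * s * (m : ℝ) / I) (K * s) ⊆ PB (C0 * s) (K * s) := by
            intro m hm
            apply arcp3_mono _ (le_refl _)
            rw [div_le_iff₀ hI]
            have hm' : (m : ℝ) ≤ I := by exact_mod_cast hm
            exact mul_le_mul_of_nonneg_left hm' (by positivity)
          have h5 : (((PB (C0 * s * (k1 : ℝ) / I) (K * s) ×ˢ PB (C0 * s * (k2 : ℝ) / I) (K * s)).filter
            (fun e : (ℕ × ℕ) × (ℕ × ℕ) => |dirn e.2 - dirn e.1| ≤ (l + 1) * δ)).card : ℝ) ≤ M := by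
            refine le_trans ?_ hcnt
            exact_mod_cast card_le_card (filter_subset_filter _ (product_subset_product (hbox k1 hk1) (hbox k2 hk2)))
          have h6 : (I : ℝ) * δ * _ ≤ I * δ * M := mul_le_mul_of_nonneg_left h5 (by positivity)
          linarith
    calc _ ≤ 2 * (4 * (A / δ + I * δ * M)) := mul_le_mul (hκ _ _) h4 (norm_nonneg _) (by norm_num)
      _ = 8 * (A / δ + I * δ * M) := by ring
  refine (norm_sum_le _ _).trans ?_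
  refine (sum_le_card_nsmul _ _ ((D : ℝ) * D * (8 * (A / δ + I * δ * M))) (fun b hb => ?_)).trans ?_
  · refine (norm_sum_le _ _).trans ?_
    refine (sum_le_card_nsmul _ _ (8 * (A / δ + I * δ * M)) (fun b' hb' => hterm b hb b' hb')).trans ?_
    rw [nsmul_eq_mul, hcard]
  · rw [nsmul_eq_mul, hcard]
    exact le_of_eq (by ring)

theorem arcp3_ev (f : ℕ → ℂ) (hM : MRS f) {D : ℕ} (hD : 0 < D) {C0 K ε : ℝ} (hC0 : 0 < C0) (hK : C0 ≤ K)
    (hε : 0 < ε) {I : ℕ} (hI : 1 ≤ I) : ∀ᶠ N : ℕ in atTop, ∀ᶠ Y : ℝ in atTop, ∀ b ∈ arcp3R D, ∀ k ∈ Icc 1 I,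
      ∫ τ, ‖Ss f D b (C0 * Real.sqrt Y * (k : ℝ) / I) (K * Real.sqrt Y) (N / (I * Y)) τ‖ ^ 2 ≤
        ε * ((N : ℝ) * C0 ^ 2 / I) ^ 2 := by
  have hI' : (0 : ℝ) < I := by exact_mod_cast hI
  have hK0 : 0 < K := hC0.trans_le hK
  have h1 : ∀ᶠ N : ℕ in atTop, ∀ b ∈ arcp3R D, ∀ k ∈ Icc 1 I, ∀ᶠ X : ℝ in atTop,
      ∫ τ, ‖Ss f D b (Real.sqrt X) (K * I / (C0 * k) * Real.sqrt X) (((N : ℝ) * ((C0 * k / I) ^ 2 / I)) / X) τ‖ ^ 2 ≤
        ε * ((N : ℝ) * ((C0 * k / I) ^ 2 / I)) ^ 2 := by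
    rw [eventually_all_finset]
    intro b _
    rw [eventually_all_finset]
    intro k hk
    have hk1 : (1 : ℝ) ≤ k := by exact_mod_cast (mem_Icc.1 hk).1
    have hk2 : (k : ℝ) ≤ I := by exact_mod_cast (mem_Icc.1 hk).2
    have hK1 : 1 ≤ K * I / (C0 * k) := by
      rw [le_div_iff₀ (by positivity), one_mul]
      exact mul_le_mul hK hk2 (by positivity) hK0.le
    obtain ⟨H0, -, h⟩ := hM D hD b _ hK1 ε hε
    have ht : Tendsto (fun N : ℕ => (N : ℝ) * ((C0 * k / I) ^ 2 / I)) atTop atTop :=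
      tendsto_natCast_atTop_atTop.atTop_mul_const (by positivity)
    filter_upwards [ht.eventually_ge_atTop H0] with N hN
    obtain ⟨X0, hX0⟩ := h _ hN
    filter_upwards [eventually_ge_atTop X0] with X hX
    exact hX0 X hX
  filter_upwards [h1] with N hN
  rw [eventually_all_finset]
  intro b hb
  rw [eventually_all_finset]
  intro k hk
  have hk1 : (1 : ℝ) ≤ k := by exact_mod_cast (mem_Icc.1 hk).1
  have hk2 : (k : ℝ) ≤ I := by exact_mod_cast (mem_Icc.1 hk).2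
  have ht : Tendsto (fun Y : ℝ => (C0 * k / I) ^ 2 * Y) atTop atTop :=
    tendsto_id.const_mul_atTop (by positivity)
  filter_upwards [ht.eventually (hN b hb k hk), eventually_gt_atTop 0] with Y hY hY0
  have e1 : Real.sqrt ((C0 * k / I) ^ 2 * Y) = C0 * Real.sqrt Y * k / I := by
    rw [Real.sqrt_mul (by positivity), Real.sqrt_sq (by positivity)]
    ring
  have e2 : K * I / (C0 * k) * (C0 * Real.sqrt Y * k / I) = K * Real.sqrt Y := by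
    field_simp
  have e3 : (N : ℝ) * ((C0 * k / I) ^ 2 / I) / ((C0 * k / I) ^ 2 * Y) = N / (I * Y) := by
    field_simp
  rw [e1, e2, e3] at hY
  refine hY.trans (mul_le_mul_of_nonneg_left (pow_le_pow_left₀ (by positivity) ?_ 2) hε.le)
  rw [mul_div_assoc (N : ℝ)]
  refine mul_le_mul_of_nonneg_left (div_le_div_of_nonneg_right ?_ hI'.le) (Nat.cast_nonneg _)
  refine pow_le_pow_left₀ (by positivity) ?_ 2
  rw [div_le_iff₀ hI']
  exact mul_le_mul_of_nonneg_left hk2 hC0.le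

/-- PROOF. Adapt `arcpair` (`Lib_MP_f1a94e_eq/ArcPair.lean`). Let `P = PB (C0 sqrt Y) (K sqrt Y)`. `C` from `cntA3 (c0/2) C0 K (B+1)`; `appG4` with `ε1 = ε/(8 C)` gives `I`: the difference of the sum and the sum with `F` replaced by its approximation (`x = V.1/sqrt Y`, `x' = V'.1/sqrt Y ∈ (0, C0]`, `τ = dirn V`, `σ = Y (dirn V' - dirn V)/N`) is at most
`2 ε1 C N Y`. The approximation: split into residue classes `b, b'` modulo `D` (`κ V V' = κ b b'`); `cell C0 I i (V.1/sqrt Y)` is the difference of the indicators of `V.1 ≤ C0 (i+1) sqrt Y/I` and `V.1 ≤ C0 i sqrt Y/I`; `I σ - l = (dirn V' - dirn V)/δ - l` with `δ = N/(I Y)`; `φ τ = max 0 (1 - |I (τ + ⌈B⌉) - k|)` is Lipschitz with `L = I`. So it is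
a sum of at most `4 I^2 (2 ⌈B⌉ I + 1)(⌈B⌉ I + 1) D^4` terms, each at most `2 sup |F|` times a sum as in `arc_bound3` with boxes `PB (C0 i sqrt Y/I) (K sqrt Y)`, `PB (C0 j sqrt Y/I) (K sqrt Y)`, `1 ≤ i, j ≤ I` (the box with `i = 0` is empty). With `X_i = (C0 i/I)^2 Y`: `C0 i sqrt Y/I = sqrt X_i`, `K sqrt Y = K_i sqrt X_i`,
`K_i = K I/(C0 i) ≥ 1` (`hK`), `δ = H_i/X_i` with `H_i = N C0^2 i^2/I^3`. `hM` (modulus `D`, the finitely many classes `b`, the finitely many `K_i`, `ε2`): `H_i ≥ H0` if `N ≥ N0`; for fixed `N` and large `Y`: `∫ ‖Ss‖^2 ≤ ε2 H_i^2 ≤ ε2 (N C0^2/I)^2 =: A`, `A/δ = ε2 N C0^4 Y/I`. The second term of `arc_bound3` is at most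
`I δ C' N Y log Y = C' N^2 log Y` (`cntB3` with `(l+1) δ ≤ (⌈B⌉ I + 2) N/(I Y)`, all boxes are subsets of `P`), `o(Y)`. Choose `ε2` small, then `N0`, then `Y` large. -/
theorem arcp3 (f : ℕ → ℂ) (hf : ∀ n, ‖f n‖ ≤ 1) (hM : MRS f) (D : ℕ) (hD : 0 < D) (κ : ℕ × ℕ → ℕ × ℕ → ℂ)
    (hκ : ∀ V V', ‖κ V V'‖ ≤ 2) (hper : ∀ V V' U U' : ℕ × ℕ, V.1 ≡ U.1 [MOD D] → V.2 ≡ U.2 [MOD D] → V'.1 ≡ U'.1 [MOD D] →
      V'.2 ≡ U'.2 [MOD D] → κ V V' = κ U U')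
    (c0 C0 B K : ℝ) (hc0 : 0 < c0) (hC0 : c0 ≤ C0) (hB : 0 < B) (hK : C0 ≤ K) (F : ℝ → ℝ → ℝ → ℝ → ℝ)
    (hF : Continuous (fun v : ℝ × ℝ × ℝ × ℝ => F v.1 v.2.1 v.2.2.1 v.2.2.2))
    (h1 : ∀ x x' τ σ, x ≤ c0 ∨ x' ≤ c0 ∨ C0 ≤ x ∨ C0 ≤ x' ∨ B ≤ |τ| ∨ σ ≤ 0 ∨ B ≤ σ → F x x' τ σ = 0) (ε : ℝ) (hε : 0 < ε) :
    ∃ N0 : ℕ, ∀ N : ℕ, N0 ≤ N → ∀ᶠ Y : ℝ in atTop,
      ‖∑ V ∈ PB (C0 * Real.sqrt Y) (K * Real.sqrt Y), ∑ V' ∈ PB (C0 * Real.sqrt Y) (K * Real.sqrt Y),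
        κ V V' * (F2 f V * (starRingEnd ℂ) (F2 f V')) *
        ((F (V.1 / Real.sqrt Y) (V'.1 / Real.sqrt Y) (dirn V) (Y * (dirn V' - dirn V) / N) : ℝ) : ℂ)‖ ≤ ε * N * Y := by
  classical
  have hC0' : 0 < C0 := hc0.trans_le hC0
  have hK0 : 0 < K := hC0'.trans_le hK
  have hD' : (0 : ℝ) < D := by exact_mod_cast hD
  obtain ⟨C, hC, hcnt⟩ := cntA3 (c0 / 2) C0 K (B + 1) (by linarith) (by linarith) hK0 (by linarith)
  obtain ⟨C', hC', hcnt'⟩ := cntB3 C0 K (⌈B⌉₊ + 1) hC0' hK0 (by positivity)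
  set ε1 : ℝ := ε / (4 * C) with hε1
  have hε1' : 0 < ε1 := by positivity
  obtain ⟨I, hI, happ⟩ := appG4 c0 C0 B hc0 hC0 hB F hF h1 ε1 hε1'
  have hI' : (0 : ℝ) < I := by exact_mod_cast hI
  set Q : Finset (ℕ × ℕ × ℕ × ℕ) :=
    range I ×ˢ range I ×ˢ range (2 * ⌈B⌉₊ * I + 1) ×ˢ range (⌈B⌉₊ * I + 1) with hQ
  set cc : ℕ × ℕ × ℕ × ℕ → ℝ := fun q => F (C0 * q.1 / I) (C0 * q.2.1 / I) ((q.2.2.1 : ℝ) / I - ⌈B⌉₊)
    ((q.2.2.2 : ℝ) / I) with hcc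
  set S : ℝ := ∑ q ∈ Q, |cc q| with hS
  have hS0 : 0 ≤ S := sum_nonneg fun _ _ => abs_nonneg _
  set ε2 : ℝ := ε / (32 * (S + 1) * D ^ 4 * C0 ^ 4) with hε2
  have hε2' : 0 < ε2 := by positivity
  obtain ⟨N0, hN0⟩ := eventually_atTop.1 (arcp3_ev f hM hD hC0' hK hε2' hI)
  refine ⟨max N0 1, fun N hN => ?_⟩
  have hN1 : 1 ≤ N := (le_max_right _ _).trans hN
  have hNr : (0 : ℝ) < N := by exact_mod_cast hN1
  have hlog : ∀ᶠ Y : ℝ in atTop, Real.log Y ≤ ε / (32 * (S + 1) * D ^ 4 * C' * N) * Y := by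
    have := Real.isLittleO_log_id_atTop.bound (c := ε / (32 * (S + 1) * D ^ 4 * C' * N)) (by positivity)
    filter_upwards [this, eventually_ge_atTop 1] with Y hY hY1
    rw [Real.norm_eq_abs, Real.norm_eq_abs, abs_of_nonneg (Real.log_nonneg hY1)] at hY
    simpa only [id, abs_of_pos (lt_of_lt_of_le zero_lt_one hY1)] using hY
  filter_upwards [hN0 N ((le_max_left _ _).trans hN), hcnt N hN1, hcnt' N hN1, eventually_gt_atTop 1,
    hlog] with Y hY1 hY2 hY3 hYone hY4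
  have hY0 : 0 < Y := by linarith
  set s : ℝ := Real.sqrt Y with hs
  have hs0 : 0 < s := Real.sqrt_pos.2 hY0
  have hlogY : 0 ≤ Real.log Y := Real.log_nonneg hYone.le
  set δ : ℝ := N / (I * Y) with hδ
  have hδ0 : 0 < δ := by positivity
  set P := PB (C0 * s) (K * s) with hP
  set w : ℕ × ℕ → ℕ × ℕ → ℂ := fun V V' => F2 f V * (starRingEnd ℂ) (F2 f V') with hw
  have hF2 : ∀ V, ‖F2 f V‖ ≤ 1 := by
    intro V
    unfold F2
    rw [norm_mul, norm_cj]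
    exact mul_le_one₀ (hf _) (norm_nonneg _) (hf _)
  have hwb : ∀ V V', ‖w V V'‖ ≤ 1 := by
    intro V V'
    rw [hw]
    dsimp only
    rw [norm_mul, RCLike.norm_conj]
    exact mul_le_one₀ (hF2 _) (norm_nonneg _) (hF2 _)
  set u : ℕ × ℕ × ℕ × ℕ → ℕ × ℕ → ℕ × ℕ → ℝ := fun q V V' =>
    cell C0 I q.1 (V.1 / s) * cell C0 I q.2.1 (V'.1 / s) * max 0 (1 - |I * (dirn V + ⌈B⌉₊) - q.2.2.1|) *
    max 0 (1 - |I * (Y * (dirn V' - dirn V) / N) - q.2.2.2|) with hu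
  set Ap : ℕ × ℕ → ℕ × ℕ → ℝ := fun V V' => ∑ q ∈ Q, cc q * u q V V' with hAp
  have hap : ∀ V ∈ P, ∀ V' ∈ P,
      |F (V.1 / s) (V'.1 / s) (dirn V) (Y * (dirn V' - dirn V) / N) - Ap V V'| ≤
      if c0 / 2 * s ≤ V.1 ∧ c0 / 2 * s ≤ V'.1 ∧ |dirn V' - dirn V| ≤ (B + 1) * N / Y then ε1 else 0 := by
    intro V hV V' hV'
    rw [hP, mem_PB] at hV hV'
    have b1 : (0 : ℝ) < V.1 := by exact_mod_cast hV.1.1
    have b2 : (0 : ℝ) < V'.1 := by exact_mod_cast hV'.1.1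
    have a1 : (0 : ℝ) < V.1 / s := by positivity
    have a2 : (0 : ℝ) < V'.1 / s := by positivity
    have a3 : (V.1 : ℝ) / s ≤ C0 := by
      rw [div_le_iff₀ hs0]
      exact hV.1.2
    have a4 : (V'.1 : ℝ) / s ≤ C0 := by
      rw [div_le_iff₀ hs0]
      exact hV'.1.2
    have h3 := happ _ _ (dirn V) (Y * (dirn V' - dirn V) / N) a1 a3 a2 a4
    have e1 : Ap V V' = ∑ i ∈ range I, ∑ j ∈ range I, ∑ k ∈ range (2 * ⌈B⌉₊ * I + 1), ∑ l ∈ range (⌈B⌉₊ * I + 1),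
        F (C0 * i / I) (C0 * j / I) ((k : ℝ) / I - ⌈B⌉₊) ((l : ℝ) / I) * cell C0 I i (V.1 / s) *
          cell C0 I j (V'.1 / s) * max 0 (1 - |I * (dirn V + ⌈B⌉₊) - k|) *
          max 0 (1 - |I * (Y * (dirn V' - dirn V) / N) - l|) := by
      rw [hAp]
      dsimp only
      rw [hQ, sum_product]
      apply sum_congr rfl
      intro i _
      rw [sum_product]
      apply sum_congr rfl
      intro j _
      rw [sum_product]
      apply sum_congr rfl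
      intro k _
      apply sum_congr rfl
      intro l _
      rw [hcc, hu]
      dsimp only
      ring
    rw [e1]
    refine h3.trans ?_
    split_ifs with b1 b2 b3
    · exact le_rfl
    · exfalso
      apply b2
      obtain ⟨c1, c2, -, c3⟩ := b1
      rw [le_div_iff₀ hs0] at c1 c2
      refine ⟨c1, c2, ?_⟩
      rw [abs_div, abs_mul, abs_of_pos hY0, abs_of_pos hNr, div_le_iff₀ hNr] at c3
      rw [le_div_iff₀ hY0]
      linarith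
    · exact hε1'.le
    · exact le_rfl
  -- first part
  have hfirst : ‖∑ V ∈ P, ∑ V' ∈ P, κ V V' * w V V' *
      (((F (V.1 / s) (V'.1 / s) (dirn V) (Y * (dirn V' - dirn V) / N) : ℝ) : ℂ) - ((Ap V V' : ℝ) : ℂ))‖ ≤
      ε / 2 * N * Y := by
    have e1 : ∀ V ∈ P, ∀ V' ∈ P, ‖κ V V' * w V V' *
        (((F (V.1 / s) (V'.1 / s) (dirn V) (Y * (dirn V' - dirn V) / N) : ℝ) : ℂ) - ((Ap V V' : ℝ) : ℂ))‖ ≤
        2 * (if c0 / 2 * s ≤ V.1 ∧ c0 / 2 * s ≤ V'.1 ∧ |dirn V' - dirn V| ≤ (B + 1) * N / Y then ε1 else 0) := by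
      intro V hV V' hV'
      rw [← Complex.ofReal_sub, norm_mul, Complex.norm_real, Real.norm_eq_abs, norm_mul]
      have h3 := hap V hV V' hV'
      have h4 : ‖κ V V'‖ * ‖w V V'‖ ≤ 2 := by
        have := mul_le_mul (hκ V V') (hwb V V') (norm_nonneg _) (by norm_num)
        linarith
      exact mul_le_mul h4 h3 (abs_nonneg _) (by norm_num)
    refine (norm_sum_le _ _).trans ?_
    refine (sum_le_sum fun V hV => (norm_sum_le _ _).trans (sum_le_sum fun V' hV' => e1 V hV V' hV')).trans ?_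
    rw [← sum_product' P P (fun V V' => 2 * (if c0 / 2 * s ≤ (V.1 : ℝ) ∧ c0 / 2 * s ≤ (V'.1 : ℝ) ∧
      |dirn V' - dirn V| ≤ (B + 1) * N / Y then ε1 else 0)), ← mul_sum, ← sum_filter, sum_const, nsmul_eq_mul]
    have h5 : 2 * (C * N * Y * ε1) = ε / 2 * N * Y := by
      rw [hε1]
      field_simp
      ring
    rw [← h5]
    exact mul_le_mul_of_nonneg_left (mul_le_mul_of_nonneg_right hY2 hε1'.le) (by norm_num)
  -- second part
  have hsecond : ‖∑ V ∈ P, ∑ V' ∈ P, κ V V' * w V V' * ((Ap V V' : ℝ) : ℂ)‖ ≤ ε / 2 * N * Y := by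
    have e1 : ∑ V ∈ P, ∑ V' ∈ P, κ V V' * w V V' * ((Ap V V' : ℝ) : ℂ) =
        ∑ q ∈ Q, ((cc q : ℝ) : ℂ) * ∑ V ∈ P, ∑ V' ∈ P, κ V V' * w V V' * ((u q V V' : ℝ) : ℂ) := by
      have e2 : ∀ V V' : ℕ × ℕ, κ V V' * w V V' * ((Ap V V' : ℝ) : ℂ) =
          ∑ q ∈ Q, ((cc q : ℝ) : ℂ) * (κ V V' * w V V' * ((u q V V' : ℝ) : ℂ)) := by
        intro V V'
        rw [hAp]
        dsimp only
        rw [Complex.ofReal_sum, mul_sum]
        apply sum_congr rfl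
        intro q _
        rw [Complex.ofReal_mul]
        ring
      simp only [e2, mul_sum]
      rw [sum_congr rfl (fun V _ => sum_comm), sum_comm]
    rw [e1]
    refine (norm_sum_le _ _).trans ?_
    set A : ℝ := ε2 * ((N : ℝ) * C0 ^ 2 / I) ^ 2 with hA
    have hA0 : 0 ≤ A := by positivity
    set M : ℝ := C' * N * Y * Real.log Y with hMd
    have hM0 : 0 ≤ M := by positivity
    have e3 : ∀ q ∈ Q, ‖((cc q : ℝ) : ℂ) * ∑ V ∈ P, ∑ V' ∈ P, κ V V' * w V V' * ((u q V V' : ℝ) : ℂ)‖ ≤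
        |cc q| * (8 * ((D : ℝ) ^ 4) * (A / δ + I * δ * M)) := by
      intro q hq
      rw [hQ, mem_product, mem_product, mem_product, mem_range, mem_range, mem_range, mem_range] at hq
      rw [norm_mul, Complex.norm_real, Real.norm_eq_abs]
      refine mul_le_mul_of_nonneg_left ?_ (abs_nonneg _)
      refine arcp3_term f hf D hD κ hκ hper hC0' hs0 hY0 hNr hq.1 hq.2.1 hδ hA0 hM0 hY1 ?_
      refine le_trans ?_ hY3
      have h7 : ((q.2.2.2 : ℝ) + 1) * δ ≤ (⌈B⌉₊ + 1) * N / Y := by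
        have h8 : (q.2.2.2 : ℝ) ≤ ⌈B⌉₊ * I := by
          have : q.2.2.2 ≤ ⌈B⌉₊ * I := by omega
          exact_mod_cast this
        have h9 : (1 : ℝ) ≤ I := by exact_mod_cast hI
        have h10 : (⌈B⌉₊ + 1 : ℝ) * N / Y = ((⌈B⌉₊ + 1) * I) * δ := by
          rw [hδ]
          field_simp
        rw [h10]
        refine mul_le_mul_of_nonneg_right ?_ hδ0.le
        nlinarith
      refine Nat.cast_le.2 (card_le_card fun e he => ?_)
      rw [mem_filter] at he ⊢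
      exact ⟨he.1, he.2.trans h7⟩
    refine (sum_le_sum e3).trans ?_
    rw [← sum_mul, ← hS]
    have e4 : A / δ = ε2 * C0 ^ 4 * N * Y / I := by
      rw [hA, hδ]
      field_simp
    have e4' : I * δ * M = C' * N ^ 2 * Real.log Y := by
      rw [hMd, hδ]
      field_simp
    rw [e4, e4']
    have e5 : ε2 * C0 ^ 4 * N * Y / I ≤ ε2 * C0 ^ 4 * N * Y := by
      apply div_le_self (by positivity)
      exact_mod_cast hI
    have e5' : C' * N ^ 2 * Real.log Y ≤ C' * N ^ 2 * (ε / (32 * (S + 1) * D ^ 4 * C' * N) * Y) :=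
      mul_le_mul_of_nonneg_left hY4 (by positivity)
    have e6 : (S + 1) * (8 * (D : ℝ) ^ 4 * (ε2 * C0 ^ 4 * N * Y +
        C' * N ^ 2 * (ε / (32 * (S + 1) * D ^ 4 * C' * N) * Y))) = ε / 2 * N * Y := by
      rw [hε2]
      field_simp
      ring
    rw [← e6]
    refine mul_le_mul (by linarith) (mul_le_mul_of_nonneg_left (add_le_add e5 e5') (by positivity)) ?_
      (by linarith)
    have : 0 ≤ C' * N ^ 2 * Real.log Y := by positivity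
    positivity
  have hsum : ∑ V ∈ P, ∑ V' ∈ P, κ V V' * (F2 f V * (starRingEnd ℂ) (F2 f V')) *
        ((F (V.1 / s) (V'.1 / s) (dirn V) (Y * (dirn V' - dirn V) / N) : ℝ) : ℂ) =
      ∑ V ∈ P, ∑ V' ∈ P, κ V V' * w V V' *
        (((F (V.1 / s) (V'.1 / s) (dirn V) (Y * (dirn V' - dirn V) / N) : ℝ) : ℂ) - ((Ap V V' : ℝ) : ℂ)) +
      ∑ V ∈ P, ∑ V' ∈ P, κ V V' * w V V' * ((Ap V V' : ℝ) : ℂ) := by
    rw [← sum_add_distrib]
    apply sum_congr rfl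
    intro V _
    rw [← sum_add_distrib]
    apply sum_congr rfl
    intro V' _
    rw [hw]
    dsimp only
    ring
  rw [hsum]
  refine (norm_add_le _ _).trans ((add_le_add hfirst hsecond).trans (le_of_eq ?_))
  ring

end Pool.Agent.Spl
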