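import Pool.Agent.Lib_MP_92ef0c_sp.SDefs0
import Pool.Agent.Lib_MP_f1a94e_eq.Defs
import Pool.Agent.Lib_MP_f1a94e_eq.NpT
import Pool.Agent.Lib_MP_f1a94e_mr.Split

/-!
# MP_92ef0c_nt, split twin: joint equidistribution of `Ω` of the entries of integer matrices of fixed determinant

Matrices `(a b; c d)` with positive entries and `a d - b c = n`, moves of small primes between `a` and `d` and between
`b` and `c`, limit quantities. (Analogue of `Lib_MP_f1a94e_eq` for the algebra `ℤ × ℤ`.)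
-/

set_option autoImplicit false

namespace Pool.Agent.Spl

open Finset Pool.Agent.GaussMR Pool.Agent.OmAll Pool.Agent.OmEq

/-- the primes up to `T` not in `E` -/
def PP (E : Finset ℕ) (T : ℕ) : Finset ℕ := ((range (T + 1)).filter Nat.Prime) \ E

/-- the density of `p ∣ d`, `p ^ 2 ∤ a d`, `p ∤ a` -/
noncomputable def As (p : ℕ) : ℝ := ((p : ℝ) - 1) ^ 2 / (p ^ 2 * (p + 1))

/-- the primes of `PP E T` dividing `a d` exactly once -/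
def dA (E : Finset ℕ) (T : ℕ) (e : Q4) : Finset ℕ := (PP E T).filter (fun p => p ∣ e.a * e.d ∧ ¬ p ^ 2 ∣ e.a * e.d)

/-- all these primes divide `d` -/
def bA (E : Finset ℕ) (T : ℕ) (e : Q4) : Prop := ∀ p ∈ dA E T e, ¬ p ∣ e.a

/-- the primes of `PP E T` dividing `b c` exactly once -/
def dB (E : Finset ℕ) (T : ℕ) (e : Q4) : Finset ℕ := (PP E T).filter (fun p => p ∣ e.b * e.c ∧ ¬ p ^ 2 ∣ e.b * e.c)

/-- all these primes divide `c` -/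
def bB (E : Finset ℕ) (T : ℕ) (e : Q4) : Prop := ∀ p ∈ dB E T e, ¬ p ∣ e.b

/-- functions that are multiplied by `g p` when a prime `p ∉ E` moves from `d` to `a` -/
structure CmpA (n : ℕ) (E : Finset ℕ) (g : ℕ → ℂ) (Φ : Q4 → ℂ) : Prop where
  bd : ∀ e, ‖Φ e‖ ≤ 1
  mv : ∀ p a b c d : ℕ, p.Prime → p ∉ E → Sn n ⟨p * a, b, c, d⟩ → ¬ p ^ 2 ∣ p * a * d →
    Φ ⟨p * a, b, c, d⟩ = g p * Φ ⟨a, b, c, p * d⟩

/-- functions that are multiplied by `g p` when a prime `p ∉ E` moves from `c` to `b` -/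
structure CmpB (n : ℕ) (E : Finset ℕ) (g : ℕ → ℂ) (Φ : Q4 → ℂ) : Prop where
  bd : ∀ e, ‖Φ e‖ ≤ 1
  mv : ∀ p a b c d : ℕ, p.Prime → p ∉ E → Sn n ⟨a, p * b, c, d⟩ → ¬ p ^ 2 ∣ p * b * c →
    Φ ⟨a, p * b, c, d⟩ = g p * Φ ⟨a, b, p * c, d⟩

/-- density of the base matrices with movable primes `D` -/
noncomputable def PrS (E : Finset ℕ) (T : ℕ) (D : Finset ℕ) : ℝ :=
  (∏ p ∈ D, As p) * ∏ p ∈ PP E T \ D, (1 - 2 * As p)

/-- the limit of the sums of the absolute values of the cluster sums (`cs` from `Lib_MP_f1a94e_eq`) -/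
noncomputable def IS (E : Finset ℕ) (g : ℕ → ℂ) (T : ℕ) (w : ℝ → ℂ) : ℝ :=
  ∑ D ∈ (PP E T).powerset, PrS E T D * ∫ t, ‖cs g w D t‖

/-- `g (p) p^(-2 i τ) / p` has bounded sums up to `R log (1 / |τ|)` -/
def NPS (E : Finset ℕ) (g : ℕ → ℂ) (R : ℝ) : Prop :=
  ∀ B : ℝ, 0 < B → ∃ C : ℝ, ∀ T : ℕ, 3 ≤ T → ∀ τ : ℝ, 0 < |τ| → |τ| ≤ B →
    ∑ p ∈ PP E T, (g p * Complex.exp (-(2 * τ * Real.log p : ℝ) * Complex.I)).re / p ≤
      R * max 0 (Real.log (1 / |τ|)) + C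

/-- test functions of `y = b c / X`, `t = log (d / a)`, `u = log (c / b)` -/
structure TS (b : ℝ) (W : ℝ → ℝ → ℝ → ℂ) : Prop where
  cont : Continuous (fun v : ℝ × ℝ × ℝ => W v.1 v.2.1 v.2.2)
  supp : HasCompactSupport (fun v : ℝ × ℝ × ℝ => W v.1 v.2.1 v.2.2)
  lo : ∀ y t u, y ≤ 0 → W y t u = 0
  hi : ∀ y t u, b ≤ y → W y t u = 0

/-- real test functions -/
structure TR (b : ℝ) (W : ℝ → ℝ → ℝ → ℝ) : Prop where
  cont : Continuous (fun v : ℝ × ℝ × ℝ => W v.1 v.2.1 v.2.2)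
  supp : HasCompactSupport (fun v : ℝ × ℝ × ℝ => W v.1 v.2.1 v.2.2)
  lo : ∀ y t u, y ≤ 0 → W y t u = 0
  hi : ∀ y t u, b ≤ y → W y t u = 0

theorem mem_PP {E : Finset ℕ} {T p : ℕ} : p ∈ PP E T ↔ p ≤ T ∧ p.Prime ∧ p ∉ E := by
  unfold PP
  rw [mem_sdiff, mem_filter, mem_range]
  constructor
  · rintro ⟨⟨h1, h2⟩, h3⟩
    exact ⟨by omega, h2, h3⟩
  · rintro ⟨h1, h2, h3⟩
    exact ⟨⟨by omega, h2⟩, h3⟩

end Pool.Agent.Spl
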