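import Pool.Agent.Lib_MP_92ef0c_sp.Fin3H
import Pool.Agent.Lib_MP_f1a94e_eq.Conv

/-!
# Final form: quadruples of natural numbers in a window
-/

set_option autoImplicit false

namespace Pool.Agent.Spl

open Finset Filter Pool.Agent.OmEq

/-- the matrices with positive entries `a d = b c + h`, `b c ≤ x`, `b c = n0 mod k`, `b c` coprime to `h`, `d / a ∈ [α, β]`, `c / b ∈ [γ, δ]` -/
def WS (h k n0 : ℕ) (α β γ δ x : ℝ) : Set Q4 :=
  {e | (e.a * e.d = e.b * e.c + h ∧ 0 < e.b * e.c ∧ ((e.b * e.c : ℕ) : ℝ) ≤ x) ∧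
    (e.b * e.c ≡ n0 [MOD k] ∧ (e.b * e.c).Coprime h) ∧
    (α * e.a ≤ e.d ∧ (e.d : ℝ) ≤ β * e.a) ∧ (γ * e.b ≤ e.c ∧ (e.c : ℝ) ≤ δ * e.b)}

/-- the classes modulo `k h` -/
def CS (h k n0 : ℕ) : Finset ℕ := (range (k * h)).filter (fun m => m ≡ n0 [MOD k] ∧ m.Coprime h)

theorem cop_of_modEq {m n k : ℕ} (h : m ≡ n [MOD k]) (hc : n.Coprime k) : m.Coprime k := by
  unfold Nat.Coprime
  rw [h.gcd_eq]
  exact hc

theorem hq_of_mem {h k n0 m : ℕ} (hh : 0 < h) (hk : 0 < k) (h1 : n0.Coprime k) (h2 : (n0 + h).Coprime k)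
    (hm : m ∈ CS h k n0) : HQ h (k * h) m := by
  unfold CS at hm
  rw [mem_filter] at hm
  obtain ⟨-, hm1, hm2⟩ := hm
  refine ⟨hh, Nat.mul_pos hk hh, Dvd.intro_left k rfl, ?_, ?_⟩
  · exact Nat.Coprime.mul_right (cop_of_modEq hm1 h1) hm2
  · refine Nat.Coprime.mul_right (cop_of_modEq (hm1.add_right h) h2) ?_
    simpa using hm2

theorem cs_nonempty {h k n0 : ℕ} (hh : 0 < h) (hk : 0 < k) (h1 : n0.Coprime k) : (CS h k n0).Nonempty := by
  haveI : NeZero k := ⟨hk.ne'⟩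
  obtain ⟨p, hp, hpp, hpm⟩ := Nat.forall_exists_prime_gt_and_eq_mod (q := k) (a := (n0 : ZMod k))
    ((ZMod.isUnit_iff_coprime n0 k).2 h1) h
  refine ⟨p % (k * h), ?_⟩
  unfold CS
  rw [mem_filter, mem_range]
  refine ⟨Nat.mod_lt _ (Nat.mul_pos hk hh), ?_, ?_⟩
  · have h3 : p % (k * h) ≡ p [MOD k] := (Nat.mod_modEq p (k * h)).of_mul_right h
    exact h3.trans ((ZMod.natCast_eq_natCast_iff p n0 k).1 hpm)
  · have h3 : p % (k * h) ≡ p [MOD h] := (Nat.mod_modEq p (k * h)).of_mul_left k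
    refine cop_of_modEq h3 ?_
    rw [Nat.Prime.coprime_iff_not_dvd hpp]
    intro hd
    exact absurd (Nat.le_of_dvd hh hd) (by omega)

open Classical in
/-- the window as a finite disjoint union over the classes -/
theorem ncard_WS (h k n0 : ℕ) (hh : 0 < h) (hk : 0 < k) (h1 : n0.Coprime k) (h2 : (n0 + h).Coprime k)
    (α β γ δ : ℝ) (hα : 0 < α) (hβ : 0 < β) (hγ : 0 < γ) (hδ : 0 < δ) (x : ℝ) (P : Q4 → Prop) :
    {e : Q4 | e ∈ WS h k n0 α β γ δ x ∧ P e}.ncard =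
      ∑ m ∈ CS h k n0, ((SW h (k * h) m (Real.log α) (Real.log β) (Real.log γ) (Real.log δ) x).filter P).card := by
  have hdisj : ∀ m ∈ CS h k n0, ∀ m' ∈ CS h k n0, m ≠ m' →
      Disjoint ((SW h (k * h) m (Real.log α) (Real.log β) (Real.log γ) (Real.log δ) x).filter P)
        ((SW h (k * h) m' (Real.log α) (Real.log β) (Real.log γ) (Real.log δ) x).filter P) := by
    intro m hm m' hm' hne
    rw [Finset.disjoint_left]
    intro e he he'
    unfold SW at he he'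
    rw [mem_filter, mem_filter, mem_SQ] at he he'
    apply hne
    have h3 := he.1.1.2.symm.trans he'.1.1.2
    unfold CS at hm hm'
    rw [mem_filter, mem_range] at hm hm'
    unfold Nat.ModEq at h3
    rwa [Nat.mod_eq_of_lt hm.1, Nat.mod_eq_of_lt hm'.1] at h3
  rw [← card_biUnion hdisj, ← Set.ncard_coe_finset]
  congr 1
  ext e
  rw [mem_coe, mem_biUnion]
  simp only [Set.mem_ofPred_eq, mem_filter]
  constructor
  · rintro ⟨⟨⟨h3, h4, h5⟩, ⟨h6, h7⟩, h8, h9⟩, hP⟩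
    have hb : 0 < e.b := Nat.pos_of_mul_pos_right h4 |> fun _ => Nat.pos_of_ne_zero (by
      rintro h0
      rw [h0, zero_mul] at h4
      exact lt_irrefl _ h4)
    have hc : 0 < e.c := Nat.pos_of_ne_zero (by
      rintro h0
      rw [h0, mul_zero] at h4
      exact lt_irrefl _ h4)
    have had : 0 < e.a * e.d := by omega
    have ha : 0 < e.a := Nat.pos_of_ne_zero (by
      rintro h0
      rw [h0, zero_mul] at had
      exact lt_irrefl _ had)
    have hd : 0 < e.d := Nat.pos_of_ne_zero (by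
      rintro h0
      rw [h0, mul_zero] at had
      exact lt_irrefl _ had)
    refine ⟨(e.b * e.c) % (k * h), ?_, ?_, hP⟩
    · unfold CS
      rw [mem_filter, mem_range]
      refine ⟨Nat.mod_lt _ (Nat.mul_pos hk hh), ?_, ?_⟩
      · exact ((Nat.mod_modEq _ (k * h)).of_mul_right h).trans h6
      · exact cop_of_modEq ((Nat.mod_modEq _ (k * h)).of_mul_left k) h7
    · unfold SW
      rw [mem_filter, mem_SQ]
      refine ⟨⟨⟨⟨h3, ha, hb, hc, hd, ?_, ?_⟩, ?_⟩, (Nat.mod_modEq _ _).symm⟩, ?_, ?_⟩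
      · -- rows are primitive
        have h10 : Nat.gcd e.a e.b ∣ h := by
          have h11 : Nat.gcd e.a e.b ∣ e.b * e.c + h := h3 ▸ (Nat.gcd_dvd_left e.a e.b).mul_right e.d
          exact (Nat.dvd_add_right ((Nat.gcd_dvd_right e.a e.b).mul_right e.c)).1 h11
        have h12 : Nat.gcd e.a e.b ∣ Nat.gcd (e.b * e.c) h := Nat.dvd_gcd ((Nat.gcd_dvd_right e.a e.b).mul_right e.c) h10
        rw [h7] at h12
        exact Nat.dvd_one.1 h12
      · have h10 : Nat.gcd e.c e.d ∣ h := by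
          have h11 : Nat.gcd e.c e.d ∣ e.b * e.c + h := h3 ▸ (Nat.gcd_dvd_right e.c e.d).mul_left e.a
          exact (Nat.dvd_add_right ((Nat.gcd_dvd_left e.c e.d).mul_left e.b)).1 h11
        have h12 : Nat.gcd e.c e.d ∣ Nat.gcd (e.b * e.c) h := Nat.dvd_gcd ((Nat.gcd_dvd_left e.c e.d).mul_left e.b) h10
        rw [h7] at h12
        exact Nat.dvd_one.1 h12
      · unfold yS
        push_cast at h5
        exact h5
      · exact (log_cond hα hβ ha hd).2 h8
      · exact (log_cond hγ hδ hb hc).2 h9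
  · rintro ⟨m, hm, he, hP⟩
    have hQ := hq_of_mem hh hk h1 h2 hm
    unfold SW at he
    rw [mem_filter, mem_SQ] at he
    obtain ⟨⟨⟨⟨h3, ha, hb, hc, hd, -, -⟩, h5⟩, h6⟩, h7, h8⟩ := he
    unfold CS at hm
    rw [mem_filter] at hm
    obtain ⟨-, hm1, hm2⟩ := hm
    refine ⟨⟨⟨h3, Nat.mul_pos hb hc, ?_⟩, ⟨?_, ?_⟩, ?_, ?_⟩, hP⟩
    · unfold yS at h5
      push_cast
      exact h5
    · exact (h6.of_mul_right h).trans hm1
    · exact cop_of_modEq (h6.of_mul_left k) hm2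
    · exact (log_cond hα hβ ha hd).1 h7
    · exact (log_cond hγ hδ hb hc).1 h8

end Pool.Agent.Spl
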