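import Pool.Agent.Lib_MP_92ef0c_sp.SDefs
import Pool.Agent.Lib_MP_92ef0c_sp.TDefs
import Pool.Agent.Lib_MP_f1a94e_eq.LimH

/-!
# The limit weights
-/

set_option autoImplicit false

namespace Pool.Agent.Spl

open Finset Pool.Agent.GaussMR Pool.Agent.OmAll Pool.Agent.OmEq MeasureTheory Filter

/-- PROOF. For fixed `t` substitute `s = t + u` (translation), then exchange the integrals (continuous, compact support), and for fixed `s` substitute `v = s / 2 - t`: `∫∫ F s * G' (s/2 - t) ds dt = (∫ F)(∫ G')`. -/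
theorem int_split (F G' : ℝ → ℂ) (hF : Continuous F) (hF' : HasCompactSupport F) (hG : Continuous G')
    (hG' : HasCompactSupport G') : (∫ t, ∫ u, F (t + u) * G' ((u - t) / 2)) = (∫ s, F s) * ∫ v, G' v := by
  have h1 : ∀ t : ℝ, (∫ u, F (t + u) * G' ((u - t) / 2)) = ∫ s, F s * G' (s / 2 - t) := by
    intro t
    have h2 := integral_add_left_eq_self (μ := volume) (fun s : ℝ => F s * G' (s / 2 - t)) t
    rw [← h2]
    refine integral_congr_ae (Eventually.of_forall fun u => ?_)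
    show F (t + u) * G' ((u - t) / 2) = F (t + u) * G' ((t + u) / 2 - t)
    congr 2
    ring
  simp only [h1]
  have hc : Continuous (Function.uncurry fun t s : ℝ => F s * G' (s / 2 - t)) :=
    (hF.comp continuous_snd).mul (hG.comp (by fun_prop))
  have hs : HasCompactSupport (Function.uncurry fun t s : ℝ => F s * G' (s / 2 - t)) := by
    have hK : IsCompact ((fun p : ℝ × ℝ => ((p.1 / 2 - p.2, p.1) : ℝ × ℝ)) ''
        (tsupport F ×ˢ tsupport G')) :=
      (hF'.isCompact.prod hG'.isCompact).image (by fun_prop)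
    refine HasCompactSupport.of_support_subset_isCompact hK ?_
    rintro ⟨t, s⟩ hts
    have hne : F s * G' (s / 2 - t) ≠ 0 := hts
    refine ⟨(s, s / 2 - t), ⟨subset_tsupport _ (left_ne_zero_of_mul hne),
      subset_tsupport _ (right_ne_zero_of_mul hne)⟩, ?_⟩
    show ((s / 2 - (s / 2 - t), s) : ℝ × ℝ) = (t, s)
    rw [sub_sub_cancel]
  rw [integral_integral_swap_of_hasCompactSupport hc hs]
  have h3 : ∀ s : ℝ, (∫ t, F s * G' (s / 2 - t)) = F s * ∫ v, G' v := by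
    intro s
    rw [integral_const_mul, integral_sub_left_eq_self]
  simp only [h3]
  rw [integral_mul_const]

/-- a two variable test function in `t + u` times a cut-off in `(u - t) / 2` -/
theorem apx3_ts {b : ℝ} {W : ℝ → ℝ → ℂ} (hW : TF b W) {q : ℝ → ℝ} (hq : Continuous q)
    (hq0 : ∀ v, 1 ≤ |v| → q v = 0) : TS b (fun y t u => W y (t + u) * ((q ((u - t) / 2) : ℝ) : ℂ)) := by
  refine ⟨?_, ?_, ?_, ?_⟩
  · have c1 : Continuous fun v : ℝ × ℝ × ℝ => Function.uncurry W (v.1, v.2.1 + v.2.2) :=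
      hW.cont.comp (by fun_prop)
    have c2 : Continuous fun v : ℝ × ℝ × ℝ => ((q ((v.2.2 - v.2.1) / 2) : ℝ) : ℂ) :=
      Complex.continuous_ofReal.comp (hq.comp (by fun_prop))
    exact c1.mul c2
  · have hK : IsCompact ((fun p : (ℝ × ℝ) × ℝ => ((p.1.1, p.1.2 / 2 - p.2, p.1.2 / 2 + p.2) : ℝ × ℝ × ℝ)) ''
        (tsupport (Function.uncurry W) ×ˢ Set.Icc (-1 : ℝ) 1)) :=
      (hW.supp.isCompact.prod isCompact_Icc).image (by fun_prop)
    refine HasCompactSupport.of_support_subset_isCompact hK ?_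
    rintro ⟨y, t, u⟩ hv
    have hne : W y (t + u) * ((q ((u - t) / 2) : ℝ) : ℂ) ≠ 0 := hv
    have h1 : Function.uncurry W (y, t + u) ≠ 0 := left_ne_zero_of_mul hne
    have h2 : |(u - t) / 2| < 1 := by
      by_contra h3
      have h4 := hq0 _ (not_lt.1 h3)
      rw [h4] at hne
      simp at hne
    rw [abs_lt] at h2
    refine ⟨((y, t + u), (u - t) / 2), ⟨subset_tsupport _ h1, ⟨h2.1.le, h2.2.le⟩⟩, ?_⟩
    show ((y, (t + u) / 2 - (u - t) / 2, (t + u) / 2 + (u - t) / 2) : ℝ × ℝ × ℝ) = (y, t, u)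
    have e1 : (t + u) / 2 - (u - t) / 2 = t := by ring
    have e2 : (t + u) / 2 + (u - t) / 2 = u := by ring
    rw [e1, e2]
  · intro y t u hy
    show W y (t + u) * _ = 0
    rw [hW.lo y (t + u) hy, zero_mul]
  · intro y t u hy
    show W y (t + u) * _ = 0
    rw [hW.hi y (t + u) hy, zero_mul]

/-- `∫ ps0 ^ 2 = 2 / 3` -/
theorem apx3_ps0_sq : ∫ v, ((ps0 v ^ 2 : ℝ) : ℂ) = (2 / 3 : ℂ) := by
  have hcont : Continuous fun v : ℝ => ps0 v ^ 2 := limh_ps0_cont.pow 2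
  have h1 : ∫ t, ps0 t ^ 2 = ∫ t in Set.Ioc (-1 : ℝ) 1, ps0 t ^ 2 := by
    symm
    apply setIntegral_eq_integral_of_forall_compl_eq_zero
    intro t ht
    have h0 : ps0 t = 0 := by
      apply limh_ps0_zero
      rw [Set.mem_Ioc, not_and_or, not_lt, not_le] at ht
      rcases ht with ht | ht
      · rw [abs_of_nonpos (by linarith)]
        linarith
      · rw [abs_of_pos (by linarith)]
        exact ht.le
    rw [h0, zero_pow two_ne_zero]
  have h2 : ∫ t in (-1 : ℝ)..0, ps0 t ^ 2 = ∫ t in (-1 : ℝ)..0, (1 + t) ^ 2 := by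
    apply intervalIntegral.integral_congr
    intro t ht
    rw [Set.uIcc_of_le (by norm_num), Set.mem_Icc] at ht
    show ps0 t ^ 2 = (1 + t) ^ 2
    unfold ps0
    rw [abs_of_nonpos ht.2, max_eq_right (by linarith [ht.1])]
    ring
  have h3 : ∫ t in (0 : ℝ)..1, ps0 t ^ 2 = ∫ t in (0 : ℝ)..1, (1 - t) ^ 2 := by
    apply intervalIntegral.integral_congr
    intro t ht
    rw [Set.uIcc_of_le (by norm_num), Set.mem_Icc] at ht
    show ps0 t ^ 2 = (1 - t) ^ 2
    unfold ps0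
    rw [abs_of_nonneg ht.1, max_eq_right (by linarith [ht.2])]
  have h4 : ∫ t in (-1 : ℝ)..0, (1 + t) ^ 2 = 1 / 3 := by
    have h5 := intervalIntegral.integral_eq_sub_of_hasDerivAt (a := (-1 : ℝ)) (b := 0)
      (f := fun t : ℝ => (1 + t) ^ 3 / 3) (f' := fun t : ℝ => (1 + t) ^ 2)
      (fun t _ => by
        have h6 := (((hasDerivAt_id t).const_add (1 : ℝ)).pow 3).div_const 3
        exact h6.congr_deriv (by simp)) (Continuous.intervalIntegrable (by fun_prop) _ _)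
    rw [h5]
    norm_num
  have h5 : ∫ t in (0 : ℝ)..1, (1 - t) ^ 2 = 1 / 3 := by
    have h5 := intervalIntegral.integral_eq_sub_of_hasDerivAt (a := (0 : ℝ)) (b := 1)
      (f := fun t : ℝ => -((1 - t) ^ 3 / 3)) (f' := fun t : ℝ => (1 - t) ^ 2)
      (fun t _ => by
        have h6 := ((((hasDerivAt_id t).const_sub (1 : ℝ)).pow 3).div_const 3).neg
        exact h6.congr_deriv (by simp; ring)) (Continuous.intervalIntegrable (by fun_prop) _ _)
    rw [h5]
    norm_num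
  have h6 : ∫ t, ps0 t ^ 2 = 2 / 3 := by
    rw [h1, ← intervalIntegral.integral_of_le (by norm_num),
      ← intervalIntegral.integral_add_adjacent_intervals (b := (0 : ℝ))
        (hcont.intervalIntegrable _ _) (hcont.intervalIntegrable _ _), h2, h3, h4, h5]
    norm_num
  have h7 : ∫ v, ((ps0 v ^ 2 : ℝ) : ℂ) = ((∫ v, ps0 v ^ 2 : ℝ) : ℂ) := integral_ofReal
  rw [h7, h6]
  push_cast
  ring

/-- slices of test functions -/
theorem apx3_slice {b : ℝ} {W : ℝ → ℝ → ℂ} (hW : TF b W) (y : ℝ) :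
    Continuous (W y) ∧ HasCompactSupport (W y) :=
  ⟨limh_slice_cont hW y, limh_slice_supp hW y⟩

/-- PROOF. `WN_tf` (`Lib_MP_f1a94e_eq/ApxN.lean`): `(y, s) ↦ WN y s` is continuous with compact support; `(y, t, u) ↦ (y, t + u, (u - t)/2)` is a linear isomorphism; `ps0` is continuous and vanishes outside `[-1, 1]`. -/
theorem WN3_ts (h : ℝ → ℝ) (h1 h2 : ℝ) (hh : HF h h1 h2) (J N n : ℕ) (hJ : 1 ≤ J) (hN : 1 ≤ N) (hn : 1 ≤ n) (b : ℝ)
    (hb : ((J : ℝ) + N) ^ 2 * h2 ≤ b) : TS b (WN3 h J N n) := by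
  exact apx3_ts (WN_tf h h1 h2 hh J N n hJ hN hn b hb) (q := fun v => ps0 v ^ 2) (limh_ps0_cont.pow 2)
    (fun v hv => by rw [limh_ps0_zero hv, zero_pow two_ne_zero])

/-- PROOF. As `WN3_ts` with `WO_tf`. -/
theorem WO3_ts (h : ℝ → ℝ) (h1 h2 : ℝ) (hh : HF h h1 h2) (J N : ℕ) (hJ : 1 ≤ J) (hN : 1 ≤ N) (b : ℝ)
    (hb : ((J : ℝ) + N) * h2 ≤ b) : TS b (WO3 h J N) := by
  exact apx3_ts (WO_tf h h1 h2 hh J N hJ hN b hb) (q := ps0) limh_ps0_cont
    (fun v hv => limh_ps0_zero hv)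

/-- PROOF. `int_split` with `F = WN h J N n y`, `G' v = ps0 v ^ 2`, `∫ ps0 ^ 2 = 2/3`. -/
theorem WN3_int (h : ℝ → ℝ) (h1 h2 : ℝ) (hh : HF h h1 h2) (J N n : ℕ) (hJ : 1 ≤ J) (hN : 1 ≤ N) (hn : 1 ≤ n) (y : ℝ) :
    (∫ t, ∫ u, WN3 h J N n y t u) = (2 / 3 : ℂ) * ∫ s, WN h J N n y s := by
  obtain ⟨c1, c2⟩ := apx3_slice (WN_tf h h1 h2 hh J N n hJ hN hn _ le_rfl) y
  have hG : Continuous fun v : ℝ => ((ps0 v ^ 2 : ℝ) : ℂ) :=
    Complex.continuous_ofReal.comp (limh_ps0_cont.pow 2)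
  have hG' : HasCompactSupport fun v : ℝ => ((ps0 v ^ 2 : ℝ) : ℂ) := by
    apply HasCompactSupport.intro (isCompact_Icc (a := (-1 : ℝ)) (b := 1))
    intro t ht
    have h0 : ps0 t = 0 := by
      apply limh_ps0_zero
      rw [Set.mem_Icc, not_and_or, not_le, not_le] at ht
      rcases ht with ht | ht
      · rw [abs_of_neg (by linarith)]
        linarith
      · rw [abs_of_pos (by linarith)]
        exact ht.le
    rw [h0]
    simp
  have h3 := int_split (WN h J N n y) (fun v => ((ps0 v ^ 2 : ℝ) : ℂ)) c1 c2 hG hG'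
  rw [apx3_ps0_sq, mul_comm] at h3
  exact h3

/-- PROOF. `int_split` with `F = WO h J N y`, `G' = ps0`, `∫ ps0 = 1` (`limh_ps0_intC`). -/
theorem WO3_int (h : ℝ → ℝ) (h1 h2 : ℝ) (hh : HF h h1 h2) (J N : ℕ) (hJ : 1 ≤ J) (hN : 1 ≤ N) (y : ℝ) :
    (∫ t, ∫ u, WO3 h J N y t u) = ∫ s, WO h J N y s := by
  obtain ⟨c1, c2⟩ := apx3_slice (WO_tf h h1 h2 hh J N hJ hN _ le_rfl) y
  have hG : Continuous fun v : ℝ => ((ps0 v : ℝ) : ℂ) :=
    Complex.continuous_ofReal.comp limh_ps0_cont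
  have hG' : HasCompactSupport fun v : ℝ => ((ps0 v : ℝ) : ℂ) := by
    apply HasCompactSupport.intro (isCompact_Icc (a := (-1 : ℝ)) (b := 1))
    intro t ht
    have h0 : ps0 t = 0 := by
      apply limh_ps0_zero
      rw [Set.mem_Icc, not_and_or, not_le, not_le] at ht
      rcases ht with ht | ht
      · rw [abs_of_neg (by linarith)]
        linarith
      · rw [abs_of_pos (by linarith)]
        exact ht.le
    rw [h0]
    simp
  have h3 := int_split (WO h J N y) (fun v => ((ps0 v : ℝ) : ℂ)) c1 c2 hG hG'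
  rw [limh_ps0_intC, mul_one] at h3
  exact h3

end Pool.Agent.Spl
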