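import Pool.Agent.Lib_MP_92ef0c_sp.Cnt3
import Pool.Agent.Lib_MP_92ef0c_sp.SDefs
import Pool.Agent.Lib_MP_f1a94e_eq.Sharp

/-!
# Sharp cut-offs
-/

set_option autoImplicit false

namespace Pool.Agent.Spl

open Finset Pool.Agent.GaussMR Pool.Agent.OmAll Pool.Agent.OmEq MeasureTheory Filter

/-! ### trapezoids -/

theorem sh3_tz_supp {a b δ : ℝ} (hδ : 0 < δ) {y : ℝ} (hy : y ∉ Set.Icc (a - δ) (b + δ)) : sharp_tz a b δ y = 0 := by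
  rw [Set.mem_Icc, not_and_or, not_le, not_le] at hy
  rcases hy with hy | hy
  · exact sharp_tz_zero_left hδ hy.le
  · exact sharp_tz_zero_right hδ hy.le

theorem sh3_tz_int {a b δ : ℝ} (hδ : 0 < δ) : Integrable (sharp_tz a b δ) := by
  apply (sharp_tz_cont a b δ).integrable_of_hasCompactSupport
  exact HasCompactSupport.intro (isCompact_Icc (a := a - δ) (b := b + δ)) (fun y hy => sh3_tz_supp hδ hy)

theorem sh3_tz_ub {a b δ : ℝ} (hδ : 0 < δ) (hab : a ≤ b) : ∫ y, sharp_tz a b δ y ≤ b - a + 2 * δ := by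
  have h1 : ∫ y, sharp_tz a b δ y ≤ ∫ y, (Set.Icc (a - δ) (b + δ)).indicator (fun _ => (1 : ℝ)) y := by
    apply integral_mono (sh3_tz_int hδ)
    · exact (integrable_indicator_iff measurableSet_Icc).2 (integrableOn_const (by simp))
    · intro y
      by_cases hy : y ∈ Set.Icc (a - δ) (b + δ)
      · rw [Set.indicator_of_mem hy]
        exact sharp_tz_le_one _ _ _ _
      · rw [Set.indicator_of_notMem hy, sh3_tz_supp hδ hy]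
  rw [integral_indicator measurableSet_Icc, setIntegral_const, smul_eq_mul, mul_one, Real.volume_real_Icc_of_le (by linarith)] at h1
  linarith

theorem sh3_tz_lb {a b δ : ℝ} (hδ : 0 < δ) (hab : a ≤ b) : b - a ≤ ∫ y, sharp_tz a b δ y := by
  have h1 : ∫ y, (Set.Icc a b).indicator (fun _ => (1 : ℝ)) y ≤ ∫ y, sharp_tz a b δ y := by
    apply integral_mono _ (sh3_tz_int hδ)
    · intro y
      by_cases hy : y ∈ Set.Icc a b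
      · rw [Set.indicator_of_mem hy, sharp_tz_one hδ hy.1 hy.2]
      · rw [Set.indicator_of_notMem hy]
        exact sharp_tz_nonneg _ _ _ _
    · exact (integrable_indicator_iff measurableSet_Icc).2 (integrableOn_const (by simp))
  rw [integral_indicator measurableSet_Icc, setIntegral_const, smul_eq_mul, mul_one, Real.volume_real_Icc_of_le hab] at h1
  exact h1

/-- product of three trapezoids -/
noncomputable def sh3_b (a1 b1 e1 a2 b2 e2 a3 b3 e3 y t u : ℝ) : ℝ :=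
  sharp_tz a1 b1 e1 y * sharp_tz a2 b2 e2 t * sharp_tz a3 b3 e3 u

theorem sh3_b_nonneg (a1 b1 e1 a2 b2 e2 a3 b3 e3 y t u : ℝ) : 0 ≤ sh3_b a1 b1 e1 a2 b2 e2 a3 b3 e3 y t u :=
  mul_nonneg (mul_nonneg (sharp_tz_nonneg _ _ _ _) (sharp_tz_nonneg _ _ _ _)) (sharp_tz_nonneg _ _ _ _)

theorem sh3_b_le_one (a1 b1 e1 a2 b2 e2 a3 b3 e3 y t u : ℝ) : sh3_b a1 b1 e1 a2 b2 e2 a3 b3 e3 y t u ≤ 1 :=
  mul_le_one₀ (mul_le_one₀ (sharp_tz_le_one _ _ _ _) (sharp_tz_nonneg _ _ _ _) (sharp_tz_le_one _ _ _ _))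
    (sharp_tz_nonneg _ _ _ _) (sharp_tz_le_one _ _ _ _)

theorem sh3_b_one {a1 b1 e1 a2 b2 e2 a3 b3 e3 y t u : ℝ} (h1 : 0 < e1) (h2 : 0 < e2) (h3 : 0 < e3)
    (hy : a1 ≤ y) (hy' : y ≤ b1) (ht : a2 ≤ t) (ht' : t ≤ b2) (hu : a3 ≤ u) (hu' : u ≤ b3) :
    sh3_b a1 b1 e1 a2 b2 e2 a3 b3 e3 y t u = 1 := by
  unfold sh3_b
  rw [sharp_tz_one h1 hy hy', sharp_tz_one h2 ht ht', sharp_tz_one h3 hu hu']
  norm_num

theorem sh3_TR {a1 b1 e1 a2 b2 e2 a3 b3 e3 : ℝ} (h1 : 0 < e1) (h2 : 0 < e2) (h3 : 0 < e3) (hl : 0 ≤ a1 - e1)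
    (hh : b1 + e1 ≤ 3) : TR 3 (sh3_b a1 b1 e1 a2 b2 e2 a3 b3 e3) := by
  refine ⟨?_, ?_, ?_, ?_⟩
  · unfold sh3_b
    exact (((sharp_tz_cont _ _ _).comp continuous_fst).mul
      ((sharp_tz_cont _ _ _).comp (continuous_fst.comp continuous_snd))).mul
      ((sharp_tz_cont _ _ _).comp (continuous_snd.comp continuous_snd))
  · refine HasCompactSupport.intro (K := Set.Icc (a1 - e1) (b1 + e1) ×ˢ (Set.Icc (a2 - e2) (b2 + e2) ×ˢ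
      Set.Icc (a3 - e3) (b3 + e3))) (isCompact_Icc.prod (isCompact_Icc.prod isCompact_Icc)) ?_
    rintro ⟨y, t, u⟩ hx
    show sh3_b a1 b1 e1 a2 b2 e2 a3 b3 e3 y t u = 0
    unfold sh3_b
    by_cases g1 : y ∈ Set.Icc (a1 - e1) (b1 + e1)
    · by_cases g2 : t ∈ Set.Icc (a2 - e2) (b2 + e2)
      · by_cases g3 : u ∈ Set.Icc (a3 - e3) (b3 + e3)
        · exact absurd ⟨g1, g2, g3⟩ hx
        · rw [sh3_tz_supp h3 g3, mul_zero]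
      · rw [sh3_tz_supp h2 g2, mul_zero, zero_mul]
    · rw [sh3_tz_supp h1 g1, zero_mul, zero_mul]
  · intro y t u hy
    unfold sh3_b
    rw [sharp_tz_zero_left h1 (by linarith), zero_mul, zero_mul]
  · intro y t u hy
    unfold sh3_b
    rw [sharp_tz_zero_right h1 (by linarith), zero_mul, zero_mul]

theorem sh3_b_integral (a1 b1 e1 a2 b2 e2 a3 b3 e3 : ℝ) :
    (∫ y, ∫ t, ∫ u, sh3_b a1 b1 e1 a2 b2 e2 a3 b3 e3 y t u) =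
      (∫ y, sharp_tz a1 b1 e1 y) * (∫ t, sharp_tz a2 b2 e2 t) * (∫ u, sharp_tz a3 b3 e3 u) := by
  unfold sh3_b
  simp only [integral_const_mul, integral_mul_const]

theorem sh3_b_ub {a1 b1 e1 a2 b2 e2 a3 b3 e3 : ℝ} (h1 : 0 < e1) (h2 : 0 < e2) (h3 : 0 < e3) (l1 : a1 ≤ b1)
    (l2 : a2 ≤ b2) (l3 : a3 ≤ b3) {c1 c2 c3 : ℝ} (k1 : b1 - a1 + 2 * e1 ≤ c1) (k2 : b2 - a2 + 2 * e2 ≤ c2)
    (k3 : b3 - a3 + 2 * e3 ≤ c3) :
    (∫ y, ∫ t, ∫ u, sh3_b a1 b1 e1 a2 b2 e2 a3 b3 e3 y t u) ≤ c1 * c2 * c3 := by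
  rw [sh3_b_integral]
  have i1 := sh3_tz_ub h1 l1
  have i2 := sh3_tz_ub h2 l2
  have i3 := sh3_tz_ub h3 l3
  have j1 := sh3_tz_lb h1 l1
  have j2 := sh3_tz_lb h2 l2
  have j3 := sh3_tz_lb h3 l3
  have p1 : 0 ≤ ∫ y, sharp_tz a1 b1 e1 y := by linarith
  have p2 : 0 ≤ ∫ y, sharp_tz a2 b2 e2 y := by linarith
  have p3 : 0 ≤ ∫ y, sharp_tz a3 b3 e3 y := by linarith
  have q1 : 0 ≤ c1 := by linarith
  have q2 : 0 ≤ c2 := by linarith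
  exact mul_le_mul (mul_le_mul (by linarith) (by linarith) p2 q1) (by linarith) p3 (mul_nonneg q1 q2)

theorem sh3_b_int_nonneg {a1 b1 e1 a2 b2 e2 a3 b3 e3 : ℝ} (h1 : 0 < e1) (h2 : 0 < e2) (h3 : 0 < e3) (l1 : a1 ≤ b1)
    (l2 : a2 ≤ b2) (l3 : a3 ≤ b3) :
    0 ≤ (∫ y, ∫ t, ∫ u, sh3_b a1 b1 e1 a2 b2 e2 a3 b3 e3 y t u) := by
  rw [sh3_b_integral]
  have j1 := sh3_tz_lb h1 l1
  have j2 := sh3_tz_lb h2 l2
  have j3 := sh3_tz_lb h3 l3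
  exact mul_nonneg (mul_nonneg (by linarith) (by linarith)) (by linarith)

/-- the error function -/
noncomputable def sh3_G (t1 t2 u1 u2 δ y t u : ℝ) : ℝ :=
  sh3_b 1 (1 + δ) δ (t1 - δ) (t2 + δ) δ (u1 - δ) (u2 + δ) δ y t u +
  sh3_b δ (1 + δ) (δ / 2) (t1 - δ) t1 δ (u1 - δ) (u2 + δ) δ y t u +
  sh3_b δ (1 + δ) (δ / 2) t2 (t2 + δ) δ (u1 - δ) (u2 + δ) δ y t u +
  sh3_b δ (1 + δ) (δ / 2) (t1 - δ) (t2 + δ) δ (u1 - δ) u1 δ y t u +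
  sh3_b δ (1 + δ) (δ / 2) (t1 - δ) (t2 + δ) δ u2 (u2 + δ) δ y t u

theorem sh3_point (t1 t2 u1 u2 δ B X y t u : ℝ) (hδ : 0 < δ) (hδ' : δ ≤ 1 / 2) (hX : 0 < X)
    (b1 : -B ≤ t1 - 1) (b2 : t2 + 1 ≤ B) (b3 : -B ≤ u1 - 1) (b4 : u2 + 1 ≤ B) :
    |sharp_i (y ≤ X ∧ (t1 ≤ t ∧ t ≤ t2) ∧ (u1 ≤ u ∧ u ≤ u2)) - sh3_b δ 1 (δ / 2) t1 t2 δ u1 u2 δ (y / X) t u| ≤
      sharp_i (y ≤ δ * X ∧ |t| ≤ B ∧ |u| ≤ B) + sh3_G t1 t2 u1 u2 δ (y / X) t u := by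
  have a0 := sharp_i_nonneg (y ≤ δ * X ∧ |t| ≤ B ∧ |u| ≤ B)
  have g1 := sh3_b_nonneg 1 (1 + δ) δ (t1 - δ) (t2 + δ) δ (u1 - δ) (u2 + δ) δ (y / X) t u
  have g2 := sh3_b_nonneg δ (1 + δ) (δ / 2) (t1 - δ) t1 δ (u1 - δ) (u2 + δ) δ (y / X) t u
  have g3 := sh3_b_nonneg δ (1 + δ) (δ / 2) t2 (t2 + δ) δ (u1 - δ) (u2 + δ) δ (y / X) t u
  have g4 := sh3_b_nonneg δ (1 + δ) (δ / 2) (t1 - δ) (t2 + δ) δ (u1 - δ) u1 δ (y / X) t u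
  have g5 := sh3_b_nonneg δ (1 + δ) (δ / 2) (t1 - δ) (t2 + δ) δ u2 (u2 + δ) δ (y / X) t u
  have b : |sharp_i (y ≤ X ∧ (t1 ≤ t ∧ t ≤ t2) ∧ (u1 ≤ u ∧ u ≤ u2)) -
      sh3_b δ 1 (δ / 2) t1 t2 δ u1 u2 δ (y / X) t u| ≤ 1 := by
    have c1 := sh3_b_nonneg δ 1 (δ / 2) t1 t2 δ u1 u2 δ (y / X) t u
    have c2 := sh3_b_le_one δ 1 (δ / 2) t1 t2 δ u1 u2 δ (y / X) t u
    have c7 := sharp_i_nonneg (y ≤ X ∧ (t1 ≤ t ∧ t ≤ t2) ∧ (u1 ≤ u ∧ u ≤ u2))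
    have c8 : sharp_i (y ≤ X ∧ (t1 ≤ t ∧ t ≤ t2) ∧ (u1 ≤ u ∧ u ≤ u2)) ≤ 1 := by
      classical
      unfold sharp_i
      split_ifs <;> simp
    rw [abs_le]
    constructor <;> linarith
  have hG : 0 ≤ sh3_G t1 t2 u1 u2 δ (y / X) t u := by
    unfold sh3_G
    linarith
  by_cases h1 : t < t1 - δ
  · unfold sh3_b
    rw [sharp_tz_zero_left (a := t1) (b := t2) hδ h1.le, sharp_i_neg (p := y ≤ X ∧ (t1 ≤ t ∧ t ≤ t2) ∧ (u1 ≤ u ∧ u ≤ u2))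
      (by rintro ⟨-, ⟨h, -⟩, -⟩; linarith)]
    simp only [mul_zero, zero_mul, sub_zero, abs_zero]
    linarith
  by_cases h2 : t2 + δ < t
  · unfold sh3_b
    rw [sharp_tz_zero_right (a := t1) (b := t2) hδ h2.le, sharp_i_neg (p := y ≤ X ∧ (t1 ≤ t ∧ t ≤ t2) ∧ (u1 ≤ u ∧ u ≤ u2))
      (by rintro ⟨-, ⟨-, h⟩, -⟩; linarith)]
    simp only [mul_zero, zero_mul, sub_zero, abs_zero]
    linarith
  by_cases h3 : u < u1 - δ
  · unfold sh3_b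
    rw [sharp_tz_zero_left (a := u1) (b := u2) hδ h3.le, sharp_i_neg (p := y ≤ X ∧ (t1 ≤ t ∧ t ≤ t2) ∧ (u1 ≤ u ∧ u ≤ u2))
      (by rintro ⟨-, -, ⟨h, -⟩⟩; linarith)]
    simp only [mul_zero, sub_zero, abs_zero]
    linarith
  by_cases h4 : u2 + δ < u
  · unfold sh3_b
    rw [sharp_tz_zero_right (a := u1) (b := u2) hδ h4.le, sharp_i_neg (p := y ≤ X ∧ (t1 ≤ t ∧ t ≤ t2) ∧ (u1 ≤ u ∧ u ≤ u2))
      (by rintro ⟨-, -, ⟨-, h⟩⟩; linarith)]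
    simp only [mul_zero, sub_zero, abs_zero]
    linarith
  rw [not_lt] at h1 h2 h3 h4
  by_cases h5 : y ≤ δ * X
  · have ht : |t| ≤ B := abs_le.2 ⟨by linarith, by linarith⟩
    have hu : |u| ≤ B := abs_le.2 ⟨by linarith, by linarith⟩
    have := sharp_i_pos (p := y ≤ δ * X ∧ |t| ≤ B ∧ |u| ≤ B) ⟨h5, ht, hu⟩
    linarith
  rw [not_le] at h5
  have hy1 : δ < y / X := (lt_div_iff₀ hX).2 h5
  by_cases h6 : (1 + δ) * X < y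
  · have h7 : 1 + δ < y / X := (lt_div_iff₀ hX).2 h6
    unfold sh3_b
    rw [sharp_tz_zero_right (a := δ) (b := 1) (by linarith) (by linarith),
      sharp_i_neg (p := y ≤ X ∧ (t1 ≤ t ∧ t ≤ t2) ∧ (u1 ≤ u ∧ u ≤ u2))
      (by rintro ⟨h, -⟩; nlinarith)]
    simp only [zero_mul, sub_zero, abs_zero]
    linarith
  rw [not_lt] at h6
  have hy2 : y / X ≤ 1 + δ := (div_le_iff₀ hX).2 h6
  by_cases h7 : X < y
  · have h8 : 1 ≤ y / X := (one_le_div hX).2 h7.le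
    have := sh3_b_one (a1 := 1) (b1 := 1 + δ) (e1 := δ) (a2 := t1 - δ) (b2 := t2 + δ) (e2 := δ) (a3 := u1 - δ)
      (b3 := u2 + δ) (e3 := δ) hδ hδ hδ h8 hy2 h1 h2 h3 h4
    unfold sh3_G
    linarith
  rw [not_lt] at h7
  by_cases h8 : t < t1
  · have := sh3_b_one (a1 := δ) (b1 := 1 + δ) (e1 := δ / 2) (a2 := t1 - δ) (b2 := t1) (e2 := δ) (a3 := u1 - δ)
      (b3 := u2 + δ) (e3 := δ) (by linarith) hδ hδ hy1.le hy2 h1 h8.le h3 h4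
    unfold sh3_G
    linarith
  by_cases h9 : t2 < t
  · have := sh3_b_one (a1 := δ) (b1 := 1 + δ) (e1 := δ / 2) (a2 := t2) (b2 := t2 + δ) (e2 := δ) (a3 := u1 - δ)
      (b3 := u2 + δ) (e3 := δ) (by linarith) hδ hδ hy1.le hy2 h9.le h2 h3 h4
    unfold sh3_G
    linarith
  by_cases h10 : u < u1
  · have := sh3_b_one (a1 := δ) (b1 := 1 + δ) (e1 := δ / 2) (a2 := t1 - δ) (b2 := t2 + δ) (e2 := δ) (a3 := u1 - δ)
      (b3 := u1) (e3 := δ) (by linarith) hδ hδ hy1.le hy2 h1 h2 h3 h10.le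
    unfold sh3_G
    linarith
  by_cases h11 : u2 < u
  · have := sh3_b_one (a1 := δ) (b1 := 1 + δ) (e1 := δ / 2) (a2 := t1 - δ) (b2 := t2 + δ) (e2 := δ) (a3 := u2)
      (b3 := u2 + δ) (e3 := δ) (by linarith) hδ hδ hy1.le hy2 h1 h2 h11.le h4
    unfold sh3_G
    linarith
  rw [not_lt] at h8 h9 h10 h11
  rw [sharp_i_pos (p := y ≤ X ∧ (t1 ≤ t ∧ t ≤ t2) ∧ (u1 ≤ u ∧ u ≤ u2)) ⟨h7, ⟨h8, h9⟩, h10, h11⟩,
    sh3_b_one (by linarith) hδ hδ hy1.le ((div_le_one hX).2 h7) h8 h9 h10 h11]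
  simp only [sub_self, abs_zero]
  linarith

theorem sh3_sum_i (S : Finset Q4) (p : Q4 → Prop) [DecidablePred p] :
    ∑ e ∈ S, sharp_i (p e) = ((S.filter p).card : ℝ) := by
  rw [Finset.card_filter]
  push_cast
  refine Finset.sum_congr rfl fun e _ => ?_
  by_cases h : p e
  · rw [sharp_i_pos h, if_pos h]
  · rw [sharp_i_neg h, if_neg h]

open Classical in
theorem sh3_diff (n : ℕ) (Φ : Q4 → ℂ) (hΦ : ∀ e, ‖Φ e‖ ≤ 1) (t1 t2 u1 u2 δ B X : ℝ) (hδ : 0 < δ) (hδ' : δ ≤ 1 / 2)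
    (hX : 0 < X) (b1 : -B ≤ t1 - 1) (b2 : t2 + 1 ≤ B) (b3 : -B ≤ u1 - 1) (b4 : u2 + 1 ≤ B) :
    ‖(∑ e ∈ (SN n X).filter (fun e => (t1 ≤ tS e ∧ tS e ≤ t2) ∧ (u1 ≤ uS e ∧ uS e ≤ u2)), Φ e) -
      ∑ e ∈ SN n (3 * X), Φ e * ((sh3_b δ 1 (δ / 2) t1 t2 δ u1 u2 δ (yS e / X) (tS e) (uS e) : ℝ) : ℂ)‖ ≤
      (((SN n (δ * X)).filter (fun e => |tS e| ≤ B ∧ |uS e| ≤ B)).card : ℝ) +
        ∑ e ∈ SN n (3 * X), sh3_G t1 t2 u1 u2 δ (yS e / X) (tS e) (uS e) := by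
  have hle : X ≤ 3 * X := by linarith
  have e1 : (∑ e ∈ (SN n X).filter (fun e => (t1 ≤ tS e ∧ tS e ≤ t2) ∧ (u1 ≤ uS e ∧ uS e ≤ u2)), Φ e) =
      ∑ e ∈ SN n (3 * X), Φ e * (sharp_i (yS e ≤ X ∧ (t1 ≤ tS e ∧ tS e ≤ t2) ∧ (u1 ≤ uS e ∧ uS e ≤ u2)) : ℂ) := by
    have e2 : (SN n X).filter (fun e => (t1 ≤ tS e ∧ tS e ≤ t2) ∧ (u1 ≤ uS e ∧ uS e ≤ u2)) =
        (SN n (3 * X)).filter (fun e => yS e ≤ X ∧ (t1 ≤ tS e ∧ tS e ≤ t2) ∧ (u1 ≤ uS e ∧ uS e ≤ u2)) := by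
      ext e
      rw [mem_filter, mem_filter, mem_SN, mem_SN]
      constructor
      · rintro ⟨⟨h1, h2⟩, h3⟩
        exact ⟨⟨h1, h2.trans hle⟩, h2, h3⟩
      · rintro ⟨⟨h1, -⟩, h2, h3⟩
        exact ⟨⟨h1, h2⟩, h3⟩
    rw [e2, Finset.sum_filter]
    refine Finset.sum_congr rfl fun e _ => ?_
    by_cases h : yS e ≤ X ∧ (t1 ≤ tS e ∧ tS e ≤ t2) ∧ (u1 ≤ uS e ∧ uS e ≤ u2)
    · rw [if_pos h, sharp_i_pos h]
      simp
    · rw [if_neg h, sharp_i_neg h]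
      simp
  rw [e1, ← Finset.sum_sub_distrib]
  have e3 : ∀ e ∈ SN n (3 * X), ‖Φ e * (sharp_i (yS e ≤ X ∧ (t1 ≤ tS e ∧ tS e ≤ t2) ∧ (u1 ≤ uS e ∧ uS e ≤ u2)) : ℂ) -
      Φ e * ((sh3_b δ 1 (δ / 2) t1 t2 δ u1 u2 δ (yS e / X) (tS e) (uS e) : ℝ) : ℂ)‖ ≤
      sharp_i (yS e ≤ δ * X ∧ |tS e| ≤ B ∧ |uS e| ≤ B) + sh3_G t1 t2 u1 u2 δ (yS e / X) (tS e) (uS e) := by
    intro e _
    rw [← mul_sub, norm_mul, ← Complex.ofReal_sub, Complex.norm_real, Real.norm_eq_abs]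
    calc ‖Φ e‖ * _ ≤ 1 * _ := mul_le_mul_of_nonneg_right (hΦ e) (abs_nonneg _)
      _ ≤ _ := by
        rw [one_mul]
        exact sh3_point t1 t2 u1 u2 δ B X (yS e) (tS e) (uS e) hδ hδ' hX b1 b2 b3 b4
  refine (norm_sum_le_of_le _ e3).trans ?_
  rw [Finset.sum_add_distrib]
  have f1 : ∑ e ∈ SN n (3 * X), sharp_i (yS e ≤ δ * X ∧ |tS e| ≤ B ∧ |uS e| ≤ B) =
      (((SN n (δ * X)).filter (fun e => |tS e| ≤ B ∧ |uS e| ≤ B)).card : ℝ) := by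
    rw [sh3_sum_i]
    congr 2
    ext e
    rw [mem_filter, mem_filter, mem_SN, mem_SN]
    constructor
    · rintro ⟨⟨h1, -⟩, h2, h3⟩
      exact ⟨⟨h1, h2⟩, h3⟩
    · rintro ⟨⟨h1, h2⟩, h3⟩
      exact ⟨⟨h1, h2.trans (by nlinarith)⟩, h2, h3⟩
  rw [f1]

theorem sh3_J {δ T U J1 J2 J3 J4 J5 : ℝ} (hδ : 0 < δ) (hT0 : 0 ≤ T) (hU0 : 0 ≤ U)
    (k1 : J1 ≤ 3 * δ * (T + 2) * (U + 2)) (k2 : J2 ≤ 2 * (3 * δ) * (U + 2)) (k3 : J3 ≤ 2 * (3 * δ) * (U + 2))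
    (k4 : J4 ≤ 2 * (T + 2) * (3 * δ)) (k5 : J5 ≤ 2 * (T + 2) * (3 * δ)) :
    J1 + J2 + J3 + J4 + J5 ≤ 15 * δ * ((T + 2) * (U + 2)) := by
  have e1 : 2 * (3 * δ) * (U + 2) ≤ 3 * δ * ((T + 2) * (U + 2)) := by
    have : 0 ≤ 3 * δ * (T * (U + 2)) := by positivity
    nlinarith
  have e2 : 2 * (T + 2) * (3 * δ) ≤ 3 * δ * ((T + 2) * (U + 2)) := by
    have : 0 ≤ 3 * δ * (U * (T + 2)) := by positivity
    nlinarith
  linarith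

theorem sh3_I {δ T U A1 A2 A3 : ℝ} (hδ : 0 < δ) (hδ1 : δ ≤ 1 / 2) (hT0 : 0 ≤ T) (hU0 : 0 ≤ U)
    (k1 : A1 ≤ 1) (k1' : 1 - δ ≤ A1) (k2 : A2 ≤ T + 2 * δ) (k3 : A3 ≤ U + 2 * δ) (l2 : T ≤ A2) (l3 : U ≤ A3) :
    |A1 * A2 * A3 - T * U| ≤ 3 * δ * ((T + 2) * (U + 2)) := by
  have m23 : 0 ≤ A2 * A3 := mul_nonneg (by linarith) (by linarith)
  have n1 : A2 * A3 ≤ (T + 2 * δ) * (U + 2 * δ) := mul_le_mul k2 k3 (by linarith) (by linarith)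
  have n2 : T * U ≤ A2 * A3 := mul_le_mul l2 l3 hU0 (by linarith)
  have n3 : (T + 2 * δ) * (U + 2 * δ) ≤ T * U + 2 * δ * ((T + 2) * (U + 2)) := by
    have e1 : 0 ≤ δ * (T * U) := by positivity
    have e2 : 0 ≤ δ * T := by positivity
    have e3 : 0 ≤ δ * U := by positivity
    nlinarith
  have n4 : (1 - A1) * (A2 * A3) ≤ δ * ((T + 2) * (U + 2)) := by
    have o1 : 1 - A1 ≤ δ := by linarith
    have o2 : A2 * A3 ≤ (T + 2) * (U + 2) := by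
      refine n1.trans ?_
      exact mul_le_mul (by linarith) (by linarith) (by linarith) (by linarith)
    exact mul_le_mul o1 o2 m23 hδ.le
  have n5 : 0 ≤ (1 - A1) * (A2 * A3) := mul_nonneg (by linarith) m23
  have n6 : 0 ≤ δ * ((T + 2) * (U + 2)) := by positivity
  have e : A1 * A2 * A3 - T * U = (A2 * A3 - T * U) - (1 - A1) * (A2 * A3) := by ring
  rw [e, abs_le]
  constructor <;> linarith

open Classical in
/-- PROOF. Let `0 < δ < 1`, `tz a b` the trapezoid, `1` on `[a, b]`, `0` outside `[a - δ, b + δ]` (`sharp_tz` in `Lib_MP_f1a94e_eq/Sharp.lean`). `Wi y t u` = product of trapezoids, `1` on `[2 δ, 1 - δ] × [t1 + δ, t2 - δ] × [u1 + δ, u2 - δ]`, `0` outside `[δ, 1] × [t1, t2] × [u1, u2]` (take `0` if one of the intervals is too short), and `Wo y t u`, `1` on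
`[δ, 1] × [t1, t2] × [u1, u2]`, `0` outside `[δ/2, 1 + δ] × [t1 - δ, t2 + δ] × [u1 - δ, u2 + δ]`. The sharp indicator (`0 < y ≤ 1`) minus `Wo` is, for `y ≥ δ`, between `-(Wo - Wi)` and `0`; for `y < δ` it is bounded by `1` with `|t|, |u| ≤ B`. So the difference of the sharp sum and the sum with `Wo` is at most
`∑_(SN n ((1+δ) X)) (Wo - Wi) + #{e ∈ SN n (δ X) : |tS|, |uS| ≤ B}`, divided by `X` this is `≤ κ ∫∫∫ (Wo - Wi) + o(1) + C δ` (`hκ`, `cnt3`), and `∫∫∫ (Wo - Wi) ≤ C' δ`; `∫∫∫ Wo = (t2 - t1)(u2 - u1) + O(δ)`. Let `δ → 0`. -/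
theorem sharp3 (n : ℕ) (hn : 0 < n) (κ : ℝ) (hκ : ∀ (b : ℝ) (Ψ : ℝ → ℝ → ℝ → ℝ), TR b Ψ →
      Tendsto (fun X : ℝ => (∑ e ∈ SN n (b * X), Ψ (yS e / X) (tS e) (uS e)) / X) atTop (nhds (κ * ∫ y, ∫ t, ∫ u, Ψ y t u)))
    (Φ : Q4 → ℂ) (hΦ : ∀ e, ‖Φ e‖ ≤ 1) (L : ℂ) (H : ∀ (b : ℝ) (W : ℝ → ℝ → ℝ → ℂ), TS b W →
      Tendsto (fun X : ℝ => (∑ e ∈ SN n (b * X), Φ e * W (yS e / X) (tS e) (uS e)) / X) atTop
        (nhds (L * ∫ y, ∫ t, ∫ u, W y t u)))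
    (t1 t2 u1 u2 : ℝ) (ht : t1 ≤ t2) (hu : u1 ≤ u2) :
    Tendsto (fun X : ℝ => (∑ e ∈ (SN n X).filter (fun e => (t1 ≤ tS e ∧ tS e ≤ t2) ∧ (u1 ≤ uS e ∧ uS e ≤ u2)), Φ e) / X)
      atTop (nhds (L * (((t2 - t1) * (u2 - u1) : ℝ) : ℂ))) := by
  set B : ℝ := |t1| + |t2| + |u1| + |u2| + 1 with hB
  have b1 : -B ≤ t1 - 1 := by
    have := neg_abs_le t1
    have := abs_nonneg t2
    have := abs_nonneg u1
    have := abs_nonneg u2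
    linarith
  have b2 : t2 + 1 ≤ B := by
    have := le_abs_self t2
    have := abs_nonneg t1
    have := abs_nonneg u1
    have := abs_nonneg u2
    linarith
  have b3 : -B ≤ u1 - 1 := by
    have := neg_abs_le u1
    have := abs_nonneg t2
    have := abs_nonneg t1
    have := abs_nonneg u2
    linarith
  have b4 : u2 + 1 ≤ B := by
    have := le_abs_self u2
    have := abs_nonneg t2
    have := abs_nonneg t1
    have := abs_nonneg u1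
    linarith
  obtain ⟨C, hC, hcnt⟩ := cnt3 B
  set T : ℝ := t2 - t1 with hT
  set U : ℝ := u2 - u1 with hU
  have hT0 : 0 ≤ T := by linarith
  have hU0 : 0 ≤ U := by linarith
  set M : ℝ := (T + 2) * (U + 2) with hM
  have hM0 : 0 < M := by positivity
  rw [Metric.tendsto_nhds]
  intro ε hε
  -- choice of `δ`
  set R : ℝ := |κ| * 15 * M + C + ‖L‖ * 3 * M + 1 with hR
  have hR0 : 0 < R := by positivity
  obtain ⟨δ, hδ, hδ1, hδε⟩ : ∃ δ : ℝ, 0 < δ ∧ δ ≤ 1 / 2 ∧ R * δ ≤ ε / 4 := by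
    refine ⟨min (1 / 2) (ε / (4 * R)), lt_min (by norm_num) (by positivity), min_le_left _ _, ?_⟩
    calc R * min (1 / 2) (ε / (4 * R)) ≤ R * (ε / (4 * R)) :=
          mul_le_mul_of_nonneg_left (min_le_right _ _) hR0.le
      _ = ε / 4 := by field_simp
  -- the smooth sum
  have hW : TR 3 (sh3_b δ 1 (δ / 2) t1 t2 δ u1 u2 δ) := sh3_TR (by linarith) hδ hδ (by linarith) (by linarith)
  have hWc : TS 3 (fun y t u => ((sh3_b δ 1 (δ / 2) t1 t2 δ u1 u2 δ y t u : ℝ) : ℂ)) := by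
    refine ⟨Complex.continuous_ofReal.comp hW.cont, hW.supp.comp_left (g := fun z : ℝ => (z : ℂ)) (by simp), ?_, ?_⟩
    · intro y t u hy
      rw [hW.lo y t u hy, Complex.ofReal_zero]
    · intro y t u hy
      rw [hW.hi y t u hy, Complex.ofReal_zero]
  have h1 := H 3 _ hWc
  have hI : (∫ y, ∫ t, ∫ u, ((sh3_b δ 1 (δ / 2) t1 t2 δ u1 u2 δ y t u : ℝ) : ℂ)) =
      ((∫ y, ∫ t, ∫ u, sh3_b δ 1 (δ / 2) t1 t2 δ u1 u2 δ y t u : ℝ) : ℂ) := by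
    simp only [integral_complex_ofReal]
  rw [hI] at h1
  set I : ℝ := ∫ y, ∫ t, ∫ u, sh3_b δ 1 (δ / 2) t1 t2 δ u1 u2 δ y t u with hIdef
  have hI1 : |I - T * U| ≤ 3 * δ * M := by
    rw [hIdef, sh3_b_integral]
    have i1 := sh3_tz_ub (a := δ) (b := 1) (δ := δ / 2) (by linarith) (by linarith)
    have i2 := sh3_tz_ub hδ ht
    have i3 := sh3_tz_ub hδ hu
    have j1 := sh3_tz_lb (a := δ) (b := 1) (δ := δ / 2) (by linarith) (by linarith)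
    have j2 := sh3_tz_lb hδ ht
    have j3 := sh3_tz_lb hδ hu
    exact sh3_I hδ hδ1 hT0 hU0 (by linarith) (by linarith) i2 i3 j2 j3
  -- the error function
  have G1 : TR 3 (sh3_b 1 (1 + δ) δ (t1 - δ) (t2 + δ) δ (u1 - δ) (u2 + δ) δ) :=
    sh3_TR hδ hδ hδ (by linarith) (by linarith)
  have G2 : TR 3 (sh3_b δ (1 + δ) (δ / 2) (t1 - δ) t1 δ (u1 - δ) (u2 + δ) δ) :=
    sh3_TR (by linarith) hδ hδ (by linarith) (by linarith)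
  have G3 : TR 3 (sh3_b δ (1 + δ) (δ / 2) t2 (t2 + δ) δ (u1 - δ) (u2 + δ) δ) :=
    sh3_TR (by linarith) hδ hδ (by linarith) (by linarith)
  have G4 : TR 3 (sh3_b δ (1 + δ) (δ / 2) (t1 - δ) (t2 + δ) δ (u1 - δ) u1 δ) :=
    sh3_TR (by linarith) hδ hδ (by linarith) (by linarith)
  have G5 : TR 3 (sh3_b δ (1 + δ) (δ / 2) (t1 - δ) (t2 + δ) δ u2 (u2 + δ) δ) :=
    sh3_TR (by linarith) hδ hδ (by linarith) (by linarith)
  have k1 := sh3_b_ub (c1 := 3 * δ) (c2 := T + 2) (c3 := U + 2) (a1 := 1) (b1 := 1 + δ) (e1 := δ) (a2 := t1 - δ)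
    (b2 := t2 + δ) (e2 := δ) (a3 := u1 - δ) (b3 := u2 + δ) (e3 := δ) hδ hδ hδ (by linarith) (by linarith)
    (by linarith) (by linarith) (by linarith) (by linarith)
  have k2 := sh3_b_ub (c1 := 2) (c2 := 3 * δ) (c3 := U + 2) (a1 := δ) (b1 := 1 + δ) (e1 := δ / 2) (a2 := t1 - δ)
    (b2 := t1) (e2 := δ) (a3 := u1 - δ) (b3 := u2 + δ) (e3 := δ) (by linarith) hδ hδ (by linarith) (by linarith)
    (by linarith) (by linarith) (by linarith) (by linarith)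
  have k3 := sh3_b_ub (c1 := 2) (c2 := 3 * δ) (c3 := U + 2) (a1 := δ) (b1 := 1 + δ) (e1 := δ / 2) (a2 := t2)
    (b2 := t2 + δ) (e2 := δ) (a3 := u1 - δ) (b3 := u2 + δ) (e3 := δ) (by linarith) hδ hδ (by linarith) (by linarith)
    (by linarith) (by linarith) (by linarith) (by linarith)
  have k4 := sh3_b_ub (c1 := 2) (c2 := T + 2) (c3 := 3 * δ) (a1 := δ) (b1 := 1 + δ) (e1 := δ / 2) (a2 := t1 - δ)
    (b2 := t2 + δ) (e2 := δ) (a3 := u1 - δ) (b3 := u1) (e3 := δ) (by linarith) hδ hδ (by linarith) (by linarith)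
    (by linarith) (by linarith) (by linarith) (by linarith)
  have k5 := sh3_b_ub (c1 := 2) (c2 := T + 2) (c3 := 3 * δ) (a1 := δ) (b1 := 1 + δ) (e1 := δ / 2) (a2 := t1 - δ)
    (b2 := t2 + δ) (e2 := δ) (a3 := u2) (b3 := u2 + δ) (e3 := δ) (by linarith) hδ hδ (by linarith) (by linarith)
    (by linarith) (by linarith) (by linarith) (by linarith)
  have p1 := sh3_b_int_nonneg (a1 := 1) (b1 := 1 + δ) (e1 := δ) (a2 := t1 - δ) (b2 := t2 + δ) (e2 := δ)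
    (a3 := u1 - δ) (b3 := u2 + δ) (e3 := δ) hδ hδ hδ (by linarith) (by linarith) (by linarith)
  have p2 := sh3_b_int_nonneg (a1 := δ) (b1 := 1 + δ) (e1 := δ / 2) (a2 := t1 - δ) (b2 := t1) (e2 := δ)
    (a3 := u1 - δ) (b3 := u2 + δ) (e3 := δ) (by linarith) hδ hδ (by linarith) (by linarith) (by linarith)
  have p3 := sh3_b_int_nonneg (a1 := δ) (b1 := 1 + δ) (e1 := δ / 2) (a2 := t2) (b2 := t2 + δ) (e2 := δ)
    (a3 := u1 - δ) (b3 := u2 + δ) (e3 := δ) (by linarith) hδ hδ (by linarith) (by linarith) (by linarith)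
  have p4 := sh3_b_int_nonneg (a1 := δ) (b1 := 1 + δ) (e1 := δ / 2) (a2 := t1 - δ) (b2 := t2 + δ) (e2 := δ)
    (a3 := u1 - δ) (b3 := u1) (e3 := δ) (by linarith) hδ hδ (by linarith) (by linarith) (by linarith)
  have p5 := sh3_b_int_nonneg (a1 := δ) (b1 := 1 + δ) (e1 := δ / 2) (a2 := t1 - δ) (b2 := t2 + δ) (e2 := δ)
    (a3 := u2) (b3 := u2 + δ) (e3 := δ) (by linarith) hδ hδ (by linarith) (by linarith) (by linarith)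
  have hsum := ((((hκ 3 _ G1).add (hκ 3 _ G2)).add (hκ 3 _ G3)).add (hκ 3 _ G4)).add (hκ 3 _ G5)
  set J1 := ∫ y, ∫ t, ∫ u, sh3_b 1 (1 + δ) δ (t1 - δ) (t2 + δ) δ (u1 - δ) (u2 + δ) δ y t u
  set J2 := ∫ y, ∫ t, ∫ u, sh3_b δ (1 + δ) (δ / 2) (t1 - δ) t1 δ (u1 - δ) (u2 + δ) δ y t u
  set J3 := ∫ y, ∫ t, ∫ u, sh3_b δ (1 + δ) (δ / 2) t2 (t2 + δ) δ (u1 - δ) (u2 + δ) δ y t u
  set J4 := ∫ y, ∫ t, ∫ u, sh3_b δ (1 + δ) (δ / 2) (t1 - δ) (t2 + δ) δ (u1 - δ) u1 δ y t u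
  set J5 := ∫ y, ∫ t, ∫ u, sh3_b δ (1 + δ) (δ / 2) (t1 - δ) (t2 + δ) δ u2 (u2 + δ) δ y t u
  have hJ0 : 0 ≤ J1 + J2 + J3 + J4 + J5 := by linarith
  have hJ : J1 + J2 + J3 + J4 + J5 ≤ 15 * δ * M := by
    exact sh3_J hδ hT0 hU0 k1 k2 k3 k4 k5
  have hJκ : κ * J1 + κ * J2 + κ * J3 + κ * J4 + κ * J5 < |κ| * 15 * M * δ + ε / 8 := by
    have e1 : κ * J1 + κ * J2 + κ * J3 + κ * J4 + κ * J5 = κ * (J1 + J2 + J3 + J4 + J5) := by ring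
    rw [e1]
    have e2 : κ * (J1 + J2 + J3 + J4 + J5) ≤ |κ| * (15 * δ * M) :=
      (mul_le_mul_of_nonneg_right (le_abs_self κ) hJ0).trans (mul_le_mul_of_nonneg_left hJ (abs_nonneg κ))
    have e3 : |κ| * (15 * δ * M) = |κ| * 15 * M * δ := by ring
    linarith
  have h5 := (tendsto_order.1 hsum).2 _ hJκ
  have h6 := (Metric.tendsto_nhds.1 h1) (ε / 4) (by linarith)
  filter_upwards [h5, h6, eventually_gt_atTop 0, eventually_ge_atTop ((n : ℝ) / δ)] with X g1 g2 hX hXn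
  have hcnt' := hcnt n hn (δ * X) (by rw [div_le_iff₀ hδ] at hXn; linarith)
  have g3 := sh3_diff n Φ hΦ t1 t2 u1 u2 δ B X hδ hδ1 hX b1 b2 b3 b4
  set F := ∑ e ∈ (SN n X).filter (fun e => (t1 ≤ tS e ∧ tS e ≤ t2) ∧ (u1 ≤ uS e ∧ uS e ≤ u2)), Φ e with hF
  set K := ∑ e ∈ SN n (3 * X), Φ e * ((sh3_b δ 1 (δ / 2) t1 t2 δ u1 u2 δ (yS e / X) (tS e) (uS e) : ℝ) : ℂ) with hK
  have g4 : (F / X - L * ((T * U : ℝ) : ℂ) : ℂ) = (F - K) / X + (K / X - L * (I : ℂ)) + L * ((I - T * U : ℝ) : ℂ) := by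
    push_cast
    ring
  rw [dist_eq_norm, g4]
  have g5 : ‖(F - K) / (X : ℂ)‖ ≤ C * δ + (|κ| * 15 * M * δ + ε / 8) := by
    rw [norm_div, Complex.norm_real, Real.norm_eq_abs, abs_of_pos hX, div_le_iff₀ hX]
    refine g3.trans ?_
    have q1 : ∑ e ∈ SN n (3 * X), sh3_G t1 t2 u1 u2 δ (yS e / X) (tS e) (uS e) ≤
        (|κ| * 15 * M * δ + ε / 8) * X := by
      unfold sh3_G
      rw [Finset.sum_add_distrib, Finset.sum_add_distrib, Finset.sum_add_distrib, Finset.sum_add_distrib]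
      rw [← add_div, ← add_div, ← add_div, ← add_div, div_lt_iff₀ hX] at g1
      exact g1.le
    calc _ ≤ C * (δ * X) + (|κ| * 15 * M * δ + ε / 8) * X := add_le_add hcnt' q1
      _ = (C * δ + (|κ| * 15 * M * δ + ε / 8)) * X := by ring
  have g6 : ‖L * ((I - T * U : ℝ) : ℂ)‖ ≤ ‖L‖ * 3 * M * δ := by
    rw [norm_mul, Complex.norm_real, Real.norm_eq_abs]
    calc ‖L‖ * |I - T * U| ≤ ‖L‖ * (3 * δ * M) := mul_le_mul_of_nonneg_left hI1 (norm_nonneg _)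
      _ = ‖L‖ * 3 * M * δ := by ring
  have g7 : ‖(K / (X : ℂ) - L * (I : ℂ))‖ < ε / 4 := by
    rw [← dist_eq_norm]
    exact g2
  have g8 : R * δ = |κ| * 15 * M * δ + C * δ + ‖L‖ * 3 * M * δ + δ := by
    rw [hR]
    ring
  calc ‖(F - K) / (X : ℂ) + (K / X - L * (I : ℂ)) + L * ((I - T * U : ℝ) : ℂ)‖
      ≤ ‖(F - K) / (X : ℂ)‖ + ‖(K / (X : ℂ) - L * (I : ℂ))‖ + ‖L * ((I - T * U : ℝ) : ℂ)‖ := norm_add₃_le
    _ < ε := by linarith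

end Pool.Agent.Spl
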