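import Pool.Agent.Lib_MP_92ef0c_sp.TDefs

/-!
# Windows of matrices
-/

set_option autoImplicit false

namespace Pool.Agent.Spl

open Finset Pool.Agent.GaussMR Pool.Agent.OmAll Pool.Agent.OmEq MeasureTheory Filter

open Classical in
/-- the indicator of `b c = n0` as a function of the class -/
noncomputable def psq (Q n0 : ℕ) (_x1 x2 x3 _x4 : ZMod Q) : ℂ := if x2 * x3 = (n0 : ZMod Q) then 1 else 0

theorem psq_le (Q n0 : ℕ) (x1 x2 x3 x4 : ZMod Q) : ‖psq Q n0 x1 x2 x3 x4‖ ≤ 1 := by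
  unfold psq
  split_ifs <;> simp

open Classical in
theorem cz_psq (Q n0 : ℕ) (e : Q4) : cz Q (psq Q n0) e = if e.b * e.c ≡ n0 [MOD Q] then 1 else 0 := by
  unfold cz psq
  rw [← Nat.cast_mul]
  congr 1
  rw [ZMod.natCast_eq_natCast_iff]

theorem sum_SQ (h0 Q n0 : ℕ) (x : ℝ) (G : Q4 → ℂ) :
    ∑ e ∈ SQ h0 Q n0 x, G e = ∑ e ∈ SN h0 x, cz Q (psq Q n0) e * G e := by
  classical
  unfold SQ
  rw [sum_filter]
  apply sum_congr rfl
  intro e _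
  rw [cz_psq]
  split_ifs
  · rw [one_mul]
  · rw [zero_mul]

theorem sq_cop {h0 Q n0 : ℕ} (hQ : HQ h0 Q n0) {e : Q4} (he : Sn h0 e) (hc : e.b * e.c ≡ n0 [MOD Q]) :
    (e.a.Coprime Q ∧ e.b.Coprime Q) ∧ e.c.Coprime Q ∧ e.d.Coprime Q := by
  have h1 : (e.b * e.c).Coprime Q := by
    unfold Nat.Coprime
    rw [hc.gcd_eq]
    exact hQ.cop
  have h2 : (e.a * e.d).Coprime Q := by
    have h3 : e.a * e.d ≡ n0 + h0 [MOD Q] := by
      rw [he.1]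
      exact hc.add_right h0
    unfold Nat.Coprime
    rw [h3.gcd_eq]
    exact hQ.cop'
  exact ⟨⟨Nat.Coprime.coprime_mul_right h2, Nat.Coprime.coprime_mul_right h1⟩,
    Nat.Coprime.coprime_mul_left h1, Nat.Coprime.coprime_mul_left h2⟩

open Classical in
/-- the window -/
noncomputable def SW (h0 Q n0 : ℕ) (t1 t2 u1 u2 X : ℝ) : Finset Q4 :=
  (SQ h0 Q n0 X).filter (fun e => (t1 ≤ tS e ∧ tS e ≤ t2) ∧ (u1 ≤ uS e ∧ uS e ≤ u2))

open Classical in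
theorem sum_SW (h0 Q n0 : ℕ) (t1 t2 u1 u2 X : ℝ) (G : Q4 → ℂ) :
    ∑ e ∈ SW h0 Q n0 t1 t2 u1 u2 X, G e =
      ∑ e ∈ (SN h0 X).filter (fun e => (t1 ≤ tS e ∧ tS e ≤ t2) ∧ (u1 ≤ uS e ∧ uS e ≤ u2)),
        cz Q (psq Q n0) e * G e := by
  unfold SW SQ
  rw [filter_filter, sum_filter, sum_filter]
  apply sum_congr rfl
  intro e _
  rw [cz_psq]
  by_cases h1 : e.b * e.c ≡ n0 [MOD Q]
  · by_cases h2 : (t1 ≤ tS e ∧ tS e ≤ t2) ∧ (u1 ≤ uS e ∧ uS e ≤ u2)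
    · rw [if_pos ⟨h1, h2⟩, if_pos h2, if_pos h1, one_mul]
    · rw [if_neg (fun h => h2 h.2), if_neg h2]
  · rw [if_neg (fun h => h1 h.1), if_neg h1, zero_mul, ite_self]

end Pool.Agent.Spl
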