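import Pool.Agent.Lib_MP_92ef0c_sp.EqDefs

/-!
# A lower bound for the number of matrices of determinant 1
-/

set_option autoImplicit false

namespace Pool.Agent.Spl

open Finset Pool.Agent.GaussMR Pool.Agent.OmAll Pool.Agent.OmEq Filter

private theorem ep_tot (K : ℕ) : K * K ≤ 12 * ∑ d ∈ Ioc 0 K, Nat.totient d := by
  have h1 : ∑ n ∈ Ioc 0 K, n = ∑ d ∈ Ioc 0 K, Nat.totient d * (K / d) := by
    have h2 : ∀ n ∈ Ioc 0 K, n = ∑ d ∈ (Ioc 0 K).filter (fun d => d ∣ n), Nat.totient d := by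
      intro n hn
      rw [mem_Ioc] at hn
      conv_lhs => rw [← Nat.sum_totient n]
      apply sum_congr _ (fun _ _ => rfl)
      ext d
      rw [Nat.mem_divisors, mem_filter, mem_Ioc]
      constructor
      · rintro ⟨hd, -⟩
        exact ⟨⟨Nat.pos_of_dvd_of_pos hd hn.1, (Nat.le_of_dvd hn.1 hd).trans hn.2⟩, hd⟩
      · rintro ⟨-, hd⟩
        exact ⟨hd, by omega⟩
    rw [sum_congr rfl h2]
    simp_rw [sum_filter]
    rw [sum_comm]
    apply sum_congr rfl
    intro d _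
    rw [← sum_filter, sum_const, smul_eq_mul, Nat.Ioc_filter_dvd_card_eq_div, mul_comm]
  have h3 : 2 * ∑ n ∈ Ioc 0 K, n = K * (K + 1) := by
    clear h1
    induction K with
    | zero => simp
    | succ K ih =>
      rw [Finset.sum_Ioc_succ_top (Nat.zero_le K), mul_add, ih]
      ring
  have h4 : ∀ d ∈ Ioc 0 K, 4 * (Nat.totient d * (K / d)) ≤ 12 * Nat.totient d + (if 4 * d ≤ K then 4 * K else 0) := by
    intro d hd
    rw [mem_Ioc] at hd
    split_ifs with h
    · have h5 : Nat.totient d * (K / d) ≤ K := by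
        calc Nat.totient d * (K / d) ≤ d * (K / d) := Nat.mul_le_mul_right _ (Nat.totient_le d)
          _ ≤ K := Nat.mul_div_le K d
      omega
    · have h5 : K / d ≤ 3 := by
        have : K / d < 4 := by
          rw [Nat.div_lt_iff_lt_mul hd.1]
          omega
        omega
      calc 4 * (Nat.totient d * (K / d)) ≤ 4 * (Nat.totient d * 3) := by gcongr
        _ = 12 * Nat.totient d + 0 := by ring
  have h6 : 4 * ∑ d ∈ Ioc 0 K, Nat.totient d * (K / d) ≤
      12 * ∑ d ∈ Ioc 0 K, Nat.totient d + K * K := by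
    rw [mul_sum, mul_sum]
    calc ∑ d ∈ Ioc 0 K, 4 * (Nat.totient d * (K / d))
        ≤ ∑ d ∈ Ioc 0 K, (12 * Nat.totient d + (if 4 * d ≤ K then 4 * K else 0)) := sum_le_sum h4
      _ = ∑ d ∈ Ioc 0 K, 12 * Nat.totient d + ∑ d ∈ Ioc 0 K, (if 4 * d ≤ K then 4 * K else 0) := sum_add_distrib
      _ ≤ ∑ d ∈ Ioc 0 K, 12 * Nat.totient d + K * K := by
          apply Nat.add_le_add_left
          rw [← sum_filter, sum_const, smul_eq_mul]
          have h7 : ((Ioc 0 K).filter (fun d => 4 * d ≤ K)).card ≤ K / 4 := by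
            have h8 : (Ioc 0 K).filter (fun d => 4 * d ≤ K) ⊆ Ioc 0 (K / 4) := by
              intro d hd
              rw [mem_filter, mem_Ioc] at hd
              rw [mem_Ioc]
              omega
            calc _ ≤ (Ioc 0 (K / 4)).card := card_le_card h8
              _ = K / 4 := by simp
          calc _ ≤ (K / 4) * (4 * K) := Nat.mul_le_mul_right _ h7
            _ = (4 * (K / 4)) * K := by ring
            _ ≤ K * K := Nat.mul_le_mul_right _ (Nat.mul_div_le K 4)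
  rw [← h1] at h6
  nlinarith

private theorem ep_ex (a b : ℕ) (ha : 0 < a) (h : a.Coprime b) :
    ∃ c : ℕ, a ≤ c ∧ c < a + a ∧ a ∣ b * c + 1 := by
  have : NeZero a := ⟨by omega⟩
  refine ⟨a + (-((b : ZMod a)⁻¹)).val, by omega, ?_, ?_⟩
  · have := ZMod.val_lt (-((b : ZMod a)⁻¹))
    omega
  · rw [← ZMod.natCast_eq_zero_iff]
    push_cast
    rw [ZMod.natCast_self, ZMod.natCast_zmod_val, zero_add, mul_neg, ZMod.coe_mul_inv_eq_one b h.symm]
    ring

open Classical in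
/-- PROOF. Let `K = ⌊sqrt (x / 3)⌋`. For coprime `a, b` with `K / 2 < a ≤ K`, `K / 2 < b ≤ K` there is exactly one `c` with `a ≤ c < 2 a` and `b c ≡ -1 mod a` (`b` is invertible modulo `a`); put `d = (b c + 1) / a ≥ 1`. Then `a d = b c + 1`, `c` and `d` are coprime, `wS = log (c / a) ∈ [0, log 2)`,
`pS = log (b / a) ∈ (- log 2, log 2) ⊆ [-1, 1)`, `yS = b c < 2 a b ≤ 2 K^2 ≤ x`. So the number in question is at least the number of coprime pairs `(a, b)` in `(K/2, K]^2` (injectivity: `(a, b)` is part of the matrix). The number of all pairs is at least `(K/2 - 1)^2`... more precisely `⌈K/2⌉^2 ≥ K^2/4`, and the number of pairs with a common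
prime divisor is at most `∑_(p ≤ K, p prime) (K/(2p) + 1)^2 ≤ (K^2/4) ∑_(2 ≤ m) 1/m^2 + K ∑_(2 ≤ m ≤ K) 1/m + K ≤ (K^2/4)(3/4) + K (log K + 2)`, (`∑_(m ≥ 2) 1/m^2 ≤ 1/4 + ∑_(m ≥ 3) 1/(m (m-1)) = 1/4 + 1/2`). So at least `K^2/16 - K (log K + 2) ≥ K^2/20` coprime pairs for large `K`, and `K^2 ≥ x/4` for large `x`: `c = 1/80`. -/
theorem eqPos : ∃ c : ℝ, 0 < c ∧ ∀ᶠ x : ℝ in atTop,
    c * x ≤ (((SN 1 x).filter (fun e => (-1 ≤ pS e ∧ pS e < 1) ∧ (0 ≤ wS e ∧ wS e < 1))).card : ℝ) := by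
  have hex : ∀ z : ℕ × ℕ, ∃ e : Q4, 0 < z.1 → z.1.Coprime z.2 → z.1 ≤ z.2 → z.2 < z.1 + z.1 →
      e.a = z.1 ∧ e.b = z.2 ∧ Sn 1 e ∧ e.a ≤ e.c ∧ e.c < e.a + e.a := by
    rintro ⟨a, b⟩
    by_cases h : 0 < a ∧ a.Coprime b ∧ a ≤ b
    · obtain ⟨ha, hab, hle⟩ := h
      obtain ⟨c, hc1, hc2, d, hd⟩ := ep_ex a b ha hab
      refine ⟨⟨a, b, c, d⟩, fun _ _ _ _ => ⟨rfl, rfl, ⟨hd.symm, ha, lt_of_lt_of_le ha hle, lt_of_lt_of_le ha hc1, ?_, hab, ?_⟩, hc1, hc2⟩⟩
      · rcases Nat.eq_zero_or_pos d with h0 | h0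
        · rw [h0, mul_zero] at hd
          omega
        · exact h0
      · show c.Coprime d
        rw [Nat.coprime_iff_gcd_eq_one]
        apply Nat.dvd_one.1
        have h1 : c.gcd d ∣ a * d := (Nat.gcd_dvd_right c d).mul_left a
        have h2 : c.gcd d ∣ b * c := (Nat.gcd_dvd_left c d).mul_left b
        rw [← hd] at h1
        exact (Nat.dvd_add_right h2).1 h1
    · refine ⟨⟨0, 0, 0, 0⟩, fun h1 h2 h3 _ => absurd ⟨h1, h2, h3⟩ h⟩
  choose f hf using hex
  refine ⟨1 / 192, by norm_num, ?_⟩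
  filter_upwards [eventually_ge_atTop (16 : ℝ)] with x hx
  set K : ℕ := ⌊Real.sqrt x / 2⌋₊ with hK
  have hs4 : 4 ≤ Real.sqrt x := by
    have : Real.sqrt 16 = 4 := by
      rw [show (16:ℝ) = 4 ^ 2 by norm_num]
      exact Real.sqrt_sq (by norm_num)
    rw [← this]
    exact Real.sqrt_le_sqrt hx
  have hsq : Real.sqrt x * Real.sqrt x = x := Real.mul_self_sqrt (by linarith)
  have hK1 : (K : ℝ) ≤ Real.sqrt x / 2 := Nat.floor_le (by positivity)
  have hK2 : Real.sqrt x / 2 < K + 1 := Nat.lt_floor_add_one _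
  have hK3 : Real.sqrt x / 4 ≤ K := by linarith
  have hK4 : x / 16 ≤ (K : ℝ) * K := by nlinarith
  have hK5 : 4 * ((K : ℝ) * K) ≤ x := by nlinarith [Nat.cast_nonneg (α := ℝ) K]
  set S : Finset ((_ : ℕ) × ℕ) := (Ioc 0 K).sigma (fun a => (Ico a (a + a)).filter (fun b => a.Coprime b)) with hS
  have hcard : S.card = ∑ d ∈ Ioc 0 K, Nat.totient d := by
    rw [hS, card_sigma]
    exact sum_congr rfl (fun a _ => Nat.filter_coprime_Ico_eq_totient a a)
  have hle : S.card ≤ ((SN 1 x).filter (fun e => (-1 ≤ pS e ∧ pS e < 1) ∧ (0 ≤ wS e ∧ wS e < 1))).card := by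
    apply card_le_card_of_injOn (fun z => f (z.1, z.2))
    · intro z hz
      rw [mem_coe, hS, mem_sigma, mem_filter, mem_Ioc, mem_Ico] at hz
      obtain ⟨⟨h1, h2⟩, ⟨h3, h4⟩, h5⟩ := hz
      obtain ⟨e1, e2, e3, e4, e5⟩ := hf (z.1, z.2) h1 h5 h3 h4
      simp only at e1 e2
      rw [mem_coe, mem_filter, mem_SN]
      have hapos : (0:ℝ) < z.1 := by exact_mod_cast h1
      have hbpos : (0:ℝ) < z.2 := by exact_mod_cast (by omega : 0 < z.2)
      have hcpos : (0:ℝ) < (f (z.1, z.2)).c := by exact_mod_cast e3.2.2.2.1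
      have hlog2 : Real.log 2 < 1 := by linarith [Real.log_two_lt_d9]
      have hb2 : (z.2 : ℝ) < 2 * z.1 := by
        have : z.2 < 2 * z.1 := by omega
        exact_mod_cast this
      have hc2 : ((f (z.1, z.2)).c : ℝ) < 2 * z.1 := by
        have : (f (z.1, z.2)).c < 2 * z.1 := by omega
        exact_mod_cast this
      have hb1 : (z.1 : ℝ) ≤ z.2 := by exact_mod_cast h3
      have hc1 : (z.1 : ℝ) ≤ (f (z.1, z.2)).c := by
        have : z.1 ≤ (f (z.1, z.2)).c := by omega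
        exact_mod_cast this
      have haK : (z.1 : ℝ) ≤ K := by exact_mod_cast h2
      have hup : ∀ y : ℝ, 0 < y → y < 2 * z.1 → Real.log y - Real.log z.1 < 1 := by
        intro y hy hy2
        have : Real.log y < Real.log (2 * z.1) := Real.log_lt_log hy hy2
        rw [Real.log_mul (by norm_num) hapos.ne'] at this
        linarith
      have hlo : ∀ y : ℝ, (z.1 : ℝ) ≤ y → 0 ≤ Real.log y - Real.log z.1 := by
        intro y hy
        have := Real.log_le_log hapos hy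
        linarith
      refine ⟨⟨e3, ?_⟩, ⟨?_, ?_⟩, ?_, ?_⟩
      · unfold yS
        rw [e2]
        calc (z.2 : ℝ) * (f (z.1, z.2)).c ≤ (2 * z.1) * (2 * z.1) := by
              apply mul_le_mul hb2.le hc2.le hcpos.le (by positivity)
          _ ≤ (2 * K) * (2 * K) := by gcongr
          _ ≤ x := by linarith
      · unfold pS
        rw [e1, e2]
        linarith [hlo _ hb1]
      · unfold pS
        rw [e1, e2]
        exact hup _ hbpos hb2
      · unfold wS
        rw [e1]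
        exact hlo _ hc1
      · unfold wS
        rw [e1]
        exact hup _ hcpos hc2
    · intro z hz w hw hzw
      rw [mem_coe, hS, mem_sigma, mem_filter, mem_Ioc, mem_Ico] at hz hw
      obtain ⟨⟨h1, h2⟩, ⟨h3, h4⟩, h5⟩ := hz
      obtain ⟨⟨h1', h2'⟩, ⟨h3', h4'⟩, h5'⟩ := hw
      obtain ⟨e1, e2, -⟩ := hf (z.1, z.2) h1 h5 h3 h4
      obtain ⟨e1', e2', -⟩ := hf (w.1, w.2) h1' h5' h3' h4'
      simp only at hzw e1 e2 e1' e2'
      rw [hzw] at e1 e2
      obtain ⟨z1, z2⟩ := z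
      obtain ⟨w1, w2⟩ := w
      simp only at e1 e2 e1' e2'
      have q1 : z1 = w1 := by rw [← e1, e1']
      have q2 : z2 = w2 := by rw [← e2, e2']
      rw [q1, q2]
  have htot := ep_tot K
  have h12 : (K : ℝ) * K ≤ 12 * (S.card : ℝ) := by
    rw [hcard]
    exact_mod_cast htot
  have hle' : (S.card : ℝ) ≤ (((SN 1 x).filter (fun e => (-1 ≤ pS e ∧ pS e < 1) ∧ (0 ≤ wS e ∧ wS e < 1))).card : ℝ) := by
    exact_mod_cast hle
  linarith

end Pool.Agent.Spl
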