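import Pool.Agent.Lib_MP_92ef0c_sp.EqF
import Pool.Agent.Lib_MP_92ef0c_sp.EqPos

/-!
# Weak equidistribution for determinant `n` in residue classes
-/

set_option autoImplicit false

namespace Pool.Agent.Spl

open Finset Pool.Agent.GaussMR Pool.Agent.OmAll Pool.Agent.OmEq Filter MeasureTheory

/-- reduction modulo `M` -/
def eqd_rp (M : ℕ) (e : Q4) : Q4 := ⟨e.a % M, e.b % M, e.c % M, e.d % M⟩

theorem eqd_cq_iff {M : ℕ} {e γ : Q4} (hγ : γ ∈ clq M) : cq M e γ ↔ eqd_rp M e = γ := by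
  rw [mem_clq] at hγ
  obtain ⟨⟨h1, h2, h3, h4⟩, -⟩ := hγ
  unfold cq eqd_rp
  constructor
  · rintro ⟨a1, a2, a3, a4⟩
    apply Q4.ext
    · exact (show e.a % M = γ.a % M from a1).trans (Nat.mod_eq_of_lt h1)
    · exact (show e.b % M = γ.b % M from a2).trans (Nat.mod_eq_of_lt h2)
    · exact (show e.c % M = γ.c % M from a3).trans (Nat.mod_eq_of_lt h3)
    · exact (show e.d % M = γ.d % M from a4).trans (Nat.mod_eq_of_lt h4)
  · rintro rfl
    exact ⟨(Nat.mod_modEq _ _).symm, (Nat.mod_modEq _ _).symm, (Nat.mod_modEq _ _).symm,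
      (Nat.mod_modEq _ _).symm⟩

theorem eqd_rp_mem {M : ℕ} (hM : 0 < M) {e : Q4} (h : e.a * e.d ≡ e.b * e.c + 1 [MOD M]) :
    eqd_rp M e ∈ clq M := by
  rw [mem_clq]
  refine ⟨⟨Nat.mod_lt _ hM, Nat.mod_lt _ hM, Nat.mod_lt _ hM, Nat.mod_lt _ hM⟩, ?_⟩
  show (e.a % M) * (e.d % M) ≡ (e.b % M) * (e.c % M) + 1 [MOD M]
  exact ((Nat.mod_modEq _ _).mul (Nat.mod_modEq _ _)).trans (h.trans
    ((((Nat.mod_modEq _ _).mul (Nat.mod_modEq _ _)).symm).add_right 1))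

open Classical in
/-- splitting a sum into classes -/
theorem eqd_fib {M : ℕ} (hM : 0 < M) (S : Finset Q4) (m : Q4 → Q4)
    (hS : ∀ e ∈ S, (m e).a * (m e).d ≡ (m e).b * (m e).c + 1 [MOD M]) (f : Q4 → ℝ) :
    ∑ e ∈ S, f e = ∑ γ ∈ clq M, ∑ e ∈ S.filter (fun e => cq M (m e) γ), f e := by
  rw [← Finset.sum_fiberwise_of_maps_to (g := fun e => eqd_rp M (m e)) (t := clq M)
    (fun e he => eqd_rp_mem hM (hS e he)) f]
  refine Finset.sum_congr rfl fun γ hγ => ?_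
  refine Finset.sum_congr (Finset.filter_congr fun e _ => (eqd_cq_iff hγ).symm) fun _ _ => rfl

theorem eqd_det1 {e : Q4} (h : Sn 1 e) (M : ℕ) : e.a * e.d ≡ e.b * e.c + 1 [MOD M] := by
  rw [h.1]

theorem eqd_cq_one (e f : Q4) : cq 1 e f :=
  ⟨Nat.modEq_one, Nat.modEq_one, Nat.modEq_one, Nat.modEq_one⟩

open Classical in
/-- splitting the sector counts -/
theorem eqd_count {M : ℕ} (hM : 0 < M) (x p1 p2 w1 w2 : ℝ) (γ0 : Q4) :
    (((SN 1 x).filter (fun e => cq 1 e γ0 ∧ (p1 ≤ pS e ∧ pS e < p2) ∧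
        (w1 ≤ wS e ∧ wS e < w2))).card : ℝ) / x = ∑ γ ∈ clq M,
      (((SN 1 x).filter (fun e => cq M e γ ∧ (p1 ≤ pS e ∧ pS e < p2) ∧
        (w1 ≤ wS e ∧ wS e < w2))).card : ℝ) / x := by
  have h1 : (SN 1 x).filter (fun e => cq 1 e γ0 ∧ (p1 ≤ pS e ∧ pS e < p2) ∧
        (w1 ≤ wS e ∧ wS e < w2)) = (SN 1 x).filter (fun e => (p1 ≤ pS e ∧ pS e < p2) ∧
        (w1 ≤ wS e ∧ wS e < w2)) :=
    Finset.filter_congr fun e _ => ⟨fun h => h.2, fun h => ⟨eqd_cq_one e γ0, h⟩⟩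
  have h2 := eqd_fib hM ((SN 1 x).filter (fun e => (p1 ≤ pS e ∧ pS e < p2) ∧
        (w1 ≤ wS e ∧ wS e < w2))) id (fun e he => eqd_det1 (mem_SN.1 (mem_filter.1 he).1).1 M)
        (fun _ => 1)
  rw [h1, ← Finset.sum_div]
  congr 1
  simp only [Finset.sum_const, nsmul_eq_mul, mul_one, id] at h2
  rw [h2]
  refine Finset.sum_congr rfl fun γ _ => ?_
  rw [Finset.filter_filter]
  congr 2
  exact Finset.filter_congr fun e _ => and_comm

open Classical in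
/-- PROOF. Let `κ_M` be a constant with `κ_M (p2 - p1)(w2 - w1)` for the sector counts of `eqK M`. Summing over `γ ∈ clq M` (every `e ∈ Sn 1` is congruent modulo `M` to exactly one `γ ∈ clq M`) gives `κ_M #(clq M) = κ_1 #(clq 1) = κ_1` with the same sector counts for `M = 1` (`clq 1 = {0}`, no condition), and `κ_1 > 0` by `eqPos`
(`p ∈ [-1, 1)`, `w ∈ [0, 1)`: `2 κ_1 ≥ c`). -/
theorem kapM : ∃ κ1 : ℝ, 0 < κ1 ∧ ∀ M : ℕ, 0 < M → 0 < (clq M).card ∧ ∀ n l : ℕ, 0 < n → l < n → l.Coprime n →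
    ∀ γ : Q4, γ.a * γ.d ≡ γ.b * γ.c + 1 [MOD M] → ∀ (b : ℝ) (Ψ : ℝ → ℝ → ℝ → ℝ), TR b Ψ →
    Tendsto (fun X : ℝ => (∑ e ∈ (SN n (b * X)).filter (fun e => lc n l e ∧ cq M (dn n l e) γ),
      Ψ (yS e / X) (tS e) (uS e)) / X) atTop (nhds (κ1 / (clq M).card / (2 * n) * ∫ y, ∫ t, ∫ u, Ψ y t u)) := by
  obtain ⟨κ1, -, hA, -⟩ := eqK 1 one_pos
  have hpos : 0 < κ1 := by
    obtain ⟨c, hc, hev⟩ := eqPos
    have h1 := hA ⟨0, 0, 0, 0⟩ Nat.modEq_one (-1) 1 0 1 (by norm_num) (by norm_num)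
    have h2 : c ≤ κ1 * (1 - -1) * (1 - 0) := by
      apply ge_of_tendsto h1
      filter_upwards [hev, eventually_gt_atTop 0] with x hx hx0
      rw [le_div_iff₀ hx0]
      refine hx.trans ?_
      have h3 : (SN 1 x).filter (fun e => (-1 ≤ pS e ∧ pS e < 1) ∧ (0 ≤ wS e ∧ wS e < 1)) ⊆
          (SN 1 x).filter (fun e => cq 1 e ⟨0, 0, 0, 0⟩ ∧ (-1 ≤ pS e ∧ pS e < 1) ∧
            (0 ≤ wS e ∧ wS e < 1)) := by
        intro e he
        rw [mem_filter] at he ⊢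
        exact ⟨he.1, eqd_cq_one _ _, he.2⟩
      exact_mod_cast Finset.card_le_card h3
    linarith
  refine ⟨κ1, hpos, fun M hM => ?_⟩
  have hcard : 0 < (clq M).card :=
    Finset.card_pos.2 ⟨eqd_rp M ⟨1, 0, 0, 1⟩, eqd_rp_mem hM (Nat.ModEq.refl _)⟩
  refine ⟨hcard, ?_⟩
  obtain ⟨κM, -, hMA, hMB⟩ := eqK M hM
  have hk : κ1 = (clq M).card * κM := by
    have t1 := hA ⟨0, 0, 0, 0⟩ Nat.modEq_one 0 1 0 1 zero_le_one zero_le_one
    have t2 := tendsto_finsetSum (clq M) fun γ hγ => hMA γ (mem_clq.1 hγ).2 0 1 0 1 zero_le_one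
      zero_le_one
    have t3 := t2.congr fun x => (eqd_count hM x 0 1 0 1 ⟨0, 0, 0, 0⟩).symm
    have t4 := tendsto_nhds_unique t1 t3
    rw [Finset.sum_const, nsmul_eq_mul] at t4
    linarith
  intro n l hn hl hcop γ hγ b Ψ hΨ
  have h1 := hMB n l hn hl hcop γ hγ b Ψ hΨ
  have hc : ((clq M).card : ℝ) ≠ 0 := by exact_mod_cast hcard.ne'
  have h2 : κ1 / (clq M).card / (2 * n) = κM / (2 * n) := by
    rw [hk, mul_div_cancel_left₀ _ hc]
  rw [h2]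
  exact h1

/-- PROOF. Uniqueness: if `l, l'` both work, `n ∣ (l - l') a` and `n ∣ (l - l') b`, `(a, b) = 1`. Existence: Bezout `a r + b s = 1` over `ℤ`, `l = - (c r + d s)` modulo `n`: `c + l a = c - c (a r) - a d s = c b s - a d s = - n s`, similarly `d + l b = d a r - b c r = n r`. `l` is coprime to `n`: a common prime `q` divides `c` and `d`
(`n ∣ c + l a`), which are coprime. -/
theorem lc_unique (n : ℕ) (hn : 0 < n) (e : Q4) (he : Sn n e) : ∃! l : ℕ, (l < n ∧ l.Coprime n) ∧ lc n l e := by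
  obtain ⟨hdet, ha, hb, hc, hd, hab, hcd⟩ := he
  have hn' : (0 : ℤ) < n := by exact_mod_cast hn
  have hdet' : (e.a : ℤ) * e.d = e.b * e.c + n := by exact_mod_cast hdet
  have hab' : IsCoprime (e.a : ℤ) (e.b : ℤ) := Nat.isCoprime_iff_coprime.2 hab
  obtain ⟨r, s, hrs⟩ := hab'
  refine existsUnique_of_exists_of_unique ?_ ?_
  · obtain ⟨l0, hl0⟩ : ∃ l0 : ℤ, l0 = -(e.c * r + e.d * s) := ⟨_, rfl⟩
    have hnn := Int.emod_nonneg l0 hn'.ne'
    have hlt := Int.emod_lt_of_pos l0 hn'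
    obtain ⟨l, hl⟩ := Int.eq_ofNat_of_zero_le hnn
    have hl2 : (l : ℤ) = l0 - n * (l0 / n) := by
      have := Int.emod_add_mul_ediv l0 n
      linarith
    have hlc : lc n l e := by
      constructor
      · have h1 : (n : ℤ) ∣ (e.c : ℤ) + l * e.a := by
          refine ⟨-s - (l0 / n) * e.a, ?_⟩
          rw [hl2, hl0]
          linear_combination (e.c : ℤ) * (-hrs) + (-s) * hdet'
        exact_mod_cast h1
      · have h1 : (n : ℤ) ∣ (e.d : ℤ) + l * e.b := by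
          refine ⟨r - (l0 / n) * e.b, ?_⟩
          rw [hl2, hl0]
          linear_combination (e.d : ℤ) * (-hrs) + r * hdet'
        exact_mod_cast h1
    refine ⟨l, ⟨by omega, ?_⟩, hlc⟩
    by_contra hcop
    obtain ⟨q, hq, hq1, hq2⟩ := Nat.Prime.not_coprime_iff_dvd.1 hcop
    have h1 : q ∣ e.c := by
      have h2 := hq2.trans hlc.1
      exact (Nat.dvd_add_left (hq1.mul_right e.a)).1 h2
    have h2 : q ∣ e.d := by
      have h3 := hq2.trans hlc.2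
      exact (Nat.dvd_add_left (hq1.mul_right e.b)).1 h3
    exact Nat.not_coprime_of_dvd_of_dvd hq.one_lt h1 h2 hcd
  · rintro l l' ⟨⟨hl, -⟩, h1, h2⟩ ⟨⟨hl', -⟩, h1', h2'⟩
    have k1 : (n : ℤ) ∣ (e.c : ℤ) + l * e.a := by exact_mod_cast h1
    have k2 : (n : ℤ) ∣ (e.d : ℤ) + l * e.b := by exact_mod_cast h2
    have k1' : (n : ℤ) ∣ (e.c : ℤ) + l' * e.a := by exact_mod_cast h1'
    have k2' : (n : ℤ) ∣ (e.d : ℤ) + l' * e.b := by exact_mod_cast h2'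
    have m1 := dvd_sub k1 k1'
    have m2 := dvd_sub k2 k2'
    have m3 := dvd_add (Dvd.dvd.mul_left m1 r) (Dvd.dvd.mul_left m2 s)
    have e1 : r * ((e.c : ℤ) + l * e.a - (e.c + l' * e.a)) +
        s * ((e.d : ℤ) + l * e.b - (e.d + l' * e.b)) = (l : ℤ) - l' := by
      linear_combination ((l : ℤ) - l') * hrs
    rw [e1] at m3
    have m4 : (l : ℤ) ≡ l' [ZMOD n] := (Int.modEq_iff_dvd.2 m3).symm
    have m5 : l ≡ l' [MOD n] := (Int.natCast_modEq_iff).1 m4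
    exact Nat.ModEq.eq_of_lt_of_lt m5 hl hl'

/-- the residues -/
def eqd_LL (n : ℕ) : Finset ℕ := (range n).filter (fun l => l.Coprime n)

theorem eqd_mem_LL {n l : ℕ} : l ∈ eqd_LL n ↔ l < n ∧ l.Coprime n := by
  unfold eqd_LL
  rw [mem_filter, mem_range]

theorem eqd_dn_det {n l : ℕ} (hn : 0 < n) {e : Q4} (he : Sn n e) (hl : lc n l e) (M : ℕ) :
    (dn n l e).a * (dn n l e).d ≡ (dn n l e).b * (dn n l e).c + 1 [MOD M] := by
  obtain ⟨⟨c1, hc1⟩, ⟨d1, hd1⟩⟩ := hl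
  have h1 : (dn n l e).c = c1 := by
    show (e.c + l * e.a) / n = c1
    rw [hc1, Nat.mul_div_cancel_left _ hn]
  have h2 : (dn n l e).d = d1 := by
    show (e.d + l * e.b) / n = d1
    rw [hd1, Nat.mul_div_cancel_left _ hn]
  rw [h1, h2]
  show e.a * d1 ≡ e.b * c1 + 1 [MOD M]
  have h3 : e.a * d1 = e.b * c1 + 1 := by
    apply Nat.eq_of_mul_eq_mul_left hn
    calc n * (e.a * d1) = e.a * (n * d1) := by ring
      _ = e.a * e.d + l * e.a * e.b := by rw [← hd1]; ring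
      _ = e.b * (e.c + l * e.a) + n := by rw [he.1]; ring
      _ = n * (e.b * c1 + 1) := by rw [hc1]; ring
  rw [h3]

/-- the lifted matrix -/
def eqd_up (n k : ℕ) (γ : Q4) : Q4 := ⟨γ.a, γ.b, n * γ.c + k * γ.a, n * γ.d + k * γ.b⟩

theorem eqd_up_cq {n l M : ℕ} (hn : 0 < n) (hM : 0 < M) {e γ : Q4} (hl : lc n l e)
    (h : cq M (dn n l e) γ) : cq M e (eqd_up n (l * (M - 1)) γ) := by
  obtain ⟨⟨c1, hc1⟩, ⟨d1, hd1⟩⟩ := hl
  obtain ⟨a1, a2, a3, a4⟩ := h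
  have h1 : (dn n l e).c = c1 := by
    show (e.c + l * e.a) / n = c1
    rw [hc1, Nat.mul_div_cancel_left _ hn]
  have h2 : (dn n l e).d = d1 := by
    show (e.d + l * e.b) / n = d1
    rw [hd1, Nat.mul_div_cancel_left _ hn]
  rw [h1] at a3
  rw [h2] at a4
  have a1' : e.a ≡ γ.a [MOD M] := a1
  have a2' : e.b ≡ γ.b [MOD M] := a2
  obtain ⟨M', rfl⟩ : ∃ M', M = M' + 1 := ⟨M - 1, by omega⟩
  have e0 : M' + 1 - 1 = M' := by omega
  refine ⟨a1', a2', ?_, ?_⟩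
  · show e.c ≡ n * γ.c + l * (M' + 1 - 1) * γ.a [MOD M' + 1]
    rw [e0]
    have k1 : n * c1 + l * M' * e.a ≡ n * γ.c + l * M' * γ.a [MOD M' + 1] :=
      (a3.mul_left n).add (a1'.mul_left (l * M'))
    refine Nat.ModEq.trans ?_ k1
    have k2 : n * c1 + l * M' * e.a = e.c + (M' + 1) * (l * e.a) := by
      rw [← hc1]
      ring
    rw [k2]
    exact (Nat.modEq_iff_dvd' (by omega)).2 ⟨l * e.a, by omega⟩
  · show e.d ≡ n * γ.d + l * (M' + 1 - 1) * γ.b [MOD M' + 1]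
    rw [e0]
    have k1 : n * d1 + l * M' * e.b ≡ n * γ.d + l * M' * γ.b [MOD M' + 1] :=
      (a4.mul_left n).add (a2'.mul_left (l * M'))
    refine Nat.ModEq.trans ?_ k1
    have k2 : n * d1 + l * M' * e.b = e.d + (M' + 1) * (l * e.b) := by
      rw [← hd1]
      ring
    rw [k2]
    exact (Nat.modEq_iff_dvd' (by omega)).2 ⟨l * e.b, by omega⟩

/-- the shear -/
def eqd_sh (M k : ℕ) (γ : Q4) : Q4 := ⟨γ.a, γ.b, (γ.c + k * γ.a) % M, (γ.d + k * γ.b) % M⟩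

theorem eqd_sh_mem {M : ℕ} (hM : 0 < M) (k : ℕ) {γ : Q4} (hγ : γ ∈ clq M) : eqd_sh M k γ ∈ clq M := by
  rw [mem_clq] at hγ ⊢
  obtain ⟨⟨h1, h2, h3, h4⟩, h5⟩ := hγ
  refine ⟨⟨h1, h2, Nat.mod_lt _ hM, Nat.mod_lt _ hM⟩, ?_⟩
  show γ.a * ((γ.d + k * γ.b) % M) ≡ γ.b * ((γ.c + k * γ.a) % M) + 1 [MOD M]
  have k1 : γ.a * ((γ.d + k * γ.b) % M) ≡ γ.a * (γ.d + k * γ.b) [MOD M] :=
    (Nat.mod_modEq _ _).mul_left _
  have k2 : γ.b * ((γ.c + k * γ.a) % M) ≡ γ.b * (γ.c + k * γ.a) [MOD M] :=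
    (Nat.mod_modEq _ _).mul_left _
  refine k1.trans (Nat.ModEq.trans ?_ (k2.symm.add_right 1))
  have e1 : γ.a * (γ.d + k * γ.b) = γ.a * γ.d + k * γ.a * γ.b := by ring
  have e2 : γ.b * (γ.c + k * γ.a) + 1 = (γ.b * γ.c + 1) + k * γ.a * γ.b := by ring
  rw [e1, e2]
  exact h5.add_right _

theorem eqd_sh_sh {M k k' : ℕ} (hk : M ∣ k + k') {γ : Q4} (hγ : γ ∈ clq M) :
    eqd_sh M k' (eqd_sh M k γ) = γ := by
  rw [mem_clq] at hγ
  obtain ⟨⟨h1, h2, h3, h4⟩, -⟩ := hγ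
  obtain ⟨q, hq⟩ := hk
  unfold eqd_sh
  apply Q4.ext
  · rfl
  · rfl
  · show ((γ.c + k * γ.a) % M + k' * γ.a) % M = γ.c
    rw [Nat.mod_add_mod]
    have e1 : γ.c + k * γ.a + k' * γ.a = γ.c + M * (q * γ.a) := by
      calc γ.c + k * γ.a + k' * γ.a = γ.c + (k + k') * γ.a := by ring
        _ = γ.c + M * (q * γ.a) := by rw [hq]; ring
    rw [e1, Nat.add_mul_mod_self_left, Nat.mod_eq_of_lt h3]
  · show ((γ.d + k * γ.b) % M + k' * γ.b) % M = γ.d
    rw [Nat.mod_add_mod]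
    have e1 : γ.d + k * γ.b + k' * γ.b = γ.d + M * (q * γ.b) := by
      calc γ.d + k * γ.b + k' * γ.b = γ.d + (k + k') * γ.b := by ring
        _ = γ.d + M * (q * γ.b) := by rw [hq]; ring
    rw [e1, Nat.add_mul_mod_self_left, Nat.mod_eq_of_lt h4]

open Classical in
theorem eqd_shear {n M : ℕ} (hM : 0 < M) (hMn : M.Coprime n) (P : Q4 → Prop) (hP : PerQ M P)
    (k : ℕ) : ((clq M).filter (fun γ => P (eqd_up n k γ))).card =
      ((clq M).filter (fun e => P ⟨e.a, e.b, n * e.c, n * e.d⟩)).card := by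
  have : NeZero M := ⟨hM.ne'⟩
  obtain ⟨n', hn'⟩ : ∃ n' : ℕ, n * n' ≡ 1 [MOD M] := by
    refine ⟨((n : ZMod M)⁻¹).val, ?_⟩
    rw [← ZMod.natCast_eq_natCast_iff]
    push_cast
    rw [ZMod.natCast_zmod_val]
    exact ZMod.coe_mul_inv_eq_one n hMn.symm
  have key : ∀ γ : Q4, P (eqd_up n k γ) ↔ P ⟨(eqd_sh M (n' * k) γ).a, (eqd_sh M (n' * k) γ).b,
      n * (eqd_sh M (n' * k) γ).c, n * (eqd_sh M (n' * k) γ).d⟩ := by
    intro γ
    apply hP
    refine ⟨Nat.ModEq.refl _, Nat.ModEq.refl _, ?_, ?_⟩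
    · show n * γ.c + k * γ.a ≡ n * ((γ.c + n' * k * γ.a) % M) [MOD M]
      have k1 : n * ((γ.c + n' * k * γ.a) % M) ≡ n * (γ.c + n' * k * γ.a) [MOD M] :=
        (Nat.mod_modEq _ _).mul_left _
      refine Nat.ModEq.trans ?_ k1.symm
      have e1 : n * (γ.c + n' * k * γ.a) = n * γ.c + (n * n') * (k * γ.a) := by ring
      rw [e1]
      have k2 : (n * n') * (k * γ.a) ≡ 1 * (k * γ.a) [MOD M] := hn'.mul_right _
      rw [one_mul] at k2
      exact (k2.symm).add_left _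
    · show n * γ.d + k * γ.b ≡ n * ((γ.d + n' * k * γ.b) % M) [MOD M]
      have k1 : n * ((γ.d + n' * k * γ.b) % M) ≡ n * (γ.d + n' * k * γ.b) [MOD M] :=
        (Nat.mod_modEq _ _).mul_left _
      refine Nat.ModEq.trans ?_ k1.symm
      have e1 : n * (γ.d + n' * k * γ.b) = n * γ.d + (n * n') * (k * γ.b) := by ring
      rw [e1]
      have k2 : (n * n') * (k * γ.b) ≡ 1 * (k * γ.b) [MOD M] := hn'.mul_right _
      rw [one_mul] at k2
      exact (k2.symm).add_left _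
  have hdv : M ∣ n' * k + n' * k * (M - 1) := by
    refine ⟨n' * k, ?_⟩
    obtain ⟨M', rfl⟩ : ∃ M', M = M' + 1 := ⟨M - 1, by omega⟩
    have e0 : M' + 1 - 1 = M' := by omega
    rw [e0]
    ring
  have hdv' : M ∣ n' * k * (M - 1) + n' * k := by
    rw [add_comm]
    exact hdv
  apply Finset.card_nbij' (eqd_sh M (n' * k)) (eqd_sh M (n' * k * (M - 1)))
  · intro e he
    rw [Finset.mem_coe, mem_filter] at he
    rw [Finset.mem_coe, mem_filter]
    exact ⟨eqd_sh_mem hM _ he.1, (key e).1 he.2⟩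
  · intro e he
    rw [Finset.mem_coe, mem_filter] at he
    rw [Finset.mem_coe, mem_filter]
    refine ⟨eqd_sh_mem hM _ he.1, (key _).2 ?_⟩
    have h1 := eqd_sh_sh hdv' he.1
    rw [h1]
    exact he.2
  · intro e he
    rw [Finset.mem_coe, mem_filter] at he
    exact eqd_sh_sh hdv he.1
  · intro e he
    rw [Finset.mem_coe, mem_filter] at he
    exact eqd_sh_sh hdv' he.1

open Classical in
/-- the splitting of the sum -/
theorem eqd_split {n M : ℕ} (hn : 0 < n) (hM : 0 < M) (P : Q4 → Prop) (hP : PerQ M P) (x : ℝ)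
    (F : Q4 → ℝ) : ∑ e ∈ (SN n x).filter P, F e = ∑ l ∈ eqd_LL n,
      ∑ γ ∈ (clq M).filter (fun γ => P (eqd_up n (l * (M - 1)) γ)),
        ∑ e ∈ (SN n x).filter (fun e => lc n l e ∧ cq M (dn n l e) γ), F e := by
  have h1 : ∑ e ∈ (SN n x).filter P, F e = ∑ l ∈ eqd_LL n,
      ∑ e ∈ (SN n x).filter (fun e => lc n l e), (if P e then F e else 0) := by
    rw [Finset.sum_filter]
    rw [Finset.sum_comm' (t' := SN n x) (s' := fun e => (eqd_LL n).filter (fun l => lc n l e))]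
    · refine Finset.sum_congr rfl fun e he => ?_
      have he' := (mem_SN.1 he).1
      obtain ⟨l, hl, hu⟩ := lc_unique n hn e he'
      have h2 : (eqd_LL n).filter (fun l => lc n l e) = {l} := by
        ext l'
        rw [mem_filter, mem_singleton, eqd_mem_LL]
        constructor
        · intro h
          exact hu l' h
        · rintro rfl
          exact hl
      rw [h2, Finset.sum_singleton]
    · intro l e
      simp only [mem_filter]
      tauto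
  rw [h1]
  refine Finset.sum_congr rfl fun l hl => ?_
  rw [eqd_fib hM ((SN n x).filter (fun e => lc n l e)) (dn n l) (fun e he => by
    rw [mem_filter] at he
    exact eqd_dn_det hn (mem_SN.1 he.1).1 he.2 M)]
  rw [Finset.sum_filter]
  refine Finset.sum_congr rfl fun γ _ => ?_
  rw [Finset.filter_filter]
  by_cases hQ : P (eqd_up n (l * (M - 1)) γ)
  · rw [if_pos hQ]
    refine Finset.sum_congr rfl fun e he => ?_
    rw [mem_filter] at he
    have h2 : P e := (hP _ _ (eqd_up_cq hn hM he.2.1 he.2.2)).2 hQ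
    rw [if_pos h2]
  · rw [if_neg hQ]
    refine Finset.sum_eq_zero fun e he => ?_
    rw [mem_filter] at he
    have h2 : ¬ P e := fun h => hQ ((hP _ _ (eqd_up_cq hn hM he.2.1 he.2.2)).1 h)
    rw [if_neg h2]

open Classical in
/-- PROOF. `κ = κ1 φ(n) / (2 n)`, `κ1` from `kapM`. By `lc_unique` the matrices of `SN n (b X)` with `P` are split according to `l < n`, `l` coprime to `n` (`φ(n)` values) and according to the class `γ ∈ clq M` of `dn n l e`. As `c = n c1 - l a`, `d = n d1 - l b`, `P e` depends only on `γ` (and `l`): with a natural number `l'` with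
`l' + l ≡ 0 mod M`: `P e ↔ P ⟨γ.a, γ.b, n γ.c + l' γ.a, n γ.d + l' γ.b⟩`. `kapM` gives the limit `κ1/(#clq M)/(2n) ∫∫∫Ψ * #{γ ∈ clq M : P ⟨γ.a, γ.b, n γ.c + l' γ.a, n γ.d + l' γ.b⟩}`. For `n' n ≡ 1 mod M` the map `γ ↦ (γ.a, γ.b, γ.c + n' l' γ.a, γ.d + n' l' γ.b)` (reduced modulo `M`) is a bijection of `clq M`, so this
number is `#((clq M).filter (P ⟨·.a, ·.b, n ·.c, n ·.d⟩))`, for every `l`. Compare `Lib_MP_f1a94e_eq/EqnB.lean`. -/
theorem eqD (n : ℕ) (hn : 0 < n) : ∃ κ : ℝ, 0 ≤ κ ∧ ∀ M : ℕ, 0 < M → M.Coprime n → ∀ P : Q4 → Prop, PerQ M P →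
    ∀ (b : ℝ) (Ψ : ℝ → ℝ → ℝ → ℝ), TR b Ψ →
    Tendsto (fun X : ℝ => (∑ e ∈ (SN n (b * X)).filter P, Ψ (yS e / X) (tS e) (uS e)) / X) atTop
      (nhds (κ * ((((clq M).filter (fun e => P ⟨e.a, e.b, n * e.c, n * e.d⟩)).card : ℝ) / (clq M).card) *
        ∫ y, ∫ t, ∫ u, Ψ y t u)) := by
  obtain ⟨κ1, hκ1, hk⟩ := kapM
  refine ⟨κ1 * (eqd_LL n).card / (2 * n), by positivity, ?_⟩
  intro M hM hMn P hP b Ψ hΨ
  obtain ⟨hcard, hlim⟩ := hk M hM
  have hfun : ∀ X : ℝ, (∑ e ∈ (SN n (b * X)).filter P, Ψ (yS e / X) (tS e) (uS e)) / X =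
      ∑ l ∈ eqd_LL n, ∑ γ ∈ (clq M).filter (fun γ => P (eqd_up n (l * (M - 1)) γ)),
        (∑ e ∈ (SN n (b * X)).filter (fun e => lc n l e ∧ cq M (dn n l e) γ),
          Ψ (yS e / X) (tS e) (uS e)) / X := by
    intro X
    rw [eqd_split hn hM P hP (b * X) (fun e => Ψ (yS e / X) (tS e) (uS e)), Finset.sum_div]
    exact Finset.sum_congr rfl fun l _ => Finset.sum_div _ _ _
  have hT : Tendsto (fun X : ℝ => ∑ l ∈ eqd_LL n,
      ∑ γ ∈ (clq M).filter (fun γ => P (eqd_up n (l * (M - 1)) γ)),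
        (∑ e ∈ (SN n (b * X)).filter (fun e => lc n l e ∧ cq M (dn n l e) γ),
          Ψ (yS e / X) (tS e) (uS e)) / X) atTop (nhds (∑ l ∈ eqd_LL n,
      ∑ _γ ∈ (clq M).filter (fun γ => P (eqd_up n (l * (M - 1)) γ)),
        κ1 / (clq M).card / (2 * n) * ∫ y, ∫ t, ∫ u, Ψ y t u)) := by
    refine tendsto_finsetSum _ fun l hl => tendsto_finsetSum _ fun γ hγ => ?_
    have hl' := eqd_mem_LL.1 hl
    exact hlim n l hn hl'.1 hl'.2 γ (mem_clq.1 (mem_filter.1 hγ).1).2 b Ψ hΨ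
  have hval : (∑ l ∈ eqd_LL n, ∑ _γ ∈ (clq M).filter (fun γ => P (eqd_up n (l * (M - 1)) γ)),
        κ1 / (clq M).card / (2 * n) * ∫ y, ∫ t, ∫ u, Ψ y t u) =
      κ1 * (eqd_LL n).card / (2 * n) *
        ((((clq M).filter (fun e => P ⟨e.a, e.b, n * e.c, n * e.d⟩)).card : ℝ) / (clq M).card) *
        ∫ y, ∫ t, ∫ u, Ψ y t u := by
    have h1 : ∀ l ∈ eqd_LL n, ∑ _γ ∈ (clq M).filter (fun γ => P (eqd_up n (l * (M - 1)) γ)),
        κ1 / (clq M).card / (2 * n) * ∫ y, ∫ t, ∫ u, Ψ y t u =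
        (((clq M).filter (fun e => P ⟨e.a, e.b, n * e.c, n * e.d⟩)).card : ℝ) *
          (κ1 / (clq M).card / (2 * n) * ∫ y, ∫ t, ∫ u, Ψ y t u) := by
      intro l _
      rw [Finset.sum_const, nsmul_eq_mul, eqd_shear hM hMn P hP]
    rw [Finset.sum_congr rfl h1, Finset.sum_const, nsmul_eq_mul]
    ring
  rw [hval] at hT
  exact hT.congr fun X => (hfun X).symm

end Pool.Agent.Spl
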