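import Pool.Agent.Lib_MP_92ef0c_sp.TDefs
import Pool.Agent.Lib_MP_92ef0c_sp.EqD

/-!
# The number of matrices in a class, positivity
-/

set_option autoImplicit false

namespace Pool.Agent.Spl

open Finset Pool.Agent.GaussMR Pool.Agent.OmAll Pool.Agent.OmEq MeasureTheory Filter

/-- the condition of `SQ` -/
def tot3_P (Q n0 : ℕ) (e : Q4) : Prop := e.b * e.c ≡ n0 [MOD Q]

theorem tot3_per (Q n0 : ℕ) : PerQ Q (tot3_P Q n0) := by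
  intro e e' h
  obtain ⟨-, h2, h3, -⟩ := h
  have h4 : e.b * e.c ≡ e'.b * e'.c [MOD Q] := Nat.ModEq.mul h2 h3
  exact ⟨fun h => h4.symm.trans h, fun h => h4.trans h⟩

/-- an admissible pair -/
theorem tot3_ex (h0 Q n0 : ℕ) (hQ : HQ h0 Q n0) :
    ∃ l ∈ eqd_LL h0, ∃ γ ∈ clq Q, tot3_P Q n0 (eqd_up h0 (l * (Q - 1)) γ) := by
  have h0pos := hQ.pos
  set l : ℕ := (h0 - n0 % h0) % h0 with hl
  have hlt : l < h0 := Nat.mod_lt _ h0pos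
  have hdvd : h0 ∣ n0 + l := by
    have h1 : n0 + l ≡ 0 [MOD h0] := by
      have h2 : l ≡ h0 - n0 % h0 [MOD h0] := Nat.mod_modEq _ _
      have h3 : n0 ≡ n0 % h0 [MOD h0] := (Nat.mod_modEq _ _).symm
      have h4 : n0 + l ≡ n0 % h0 + (h0 - n0 % h0) [MOD h0] := h3.add h2
      have h5 : n0 % h0 + (h0 - n0 % h0) = h0 := by
        have := Nat.mod_lt n0 h0pos
        omega
      rw [h5] at h4
      exact h4.trans (Nat.modEq_zero_iff_dvd.2 dvd_rfl)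
    exact Nat.modEq_zero_iff_dvd.1 h1
  have hcop : l.Coprime h0 := by
    have h1 : n0.Coprime h0 := Nat.Coprime.coprime_dvd_right hQ.dvd hQ.cop
    have h2 : Nat.gcd l h0 ∣ n0 := by
      have h3 : Nat.gcd l h0 ∣ n0 + l := (Nat.gcd_dvd_right l h0).trans hdvd
      exact (Nat.dvd_add_left (Nat.gcd_dvd_left l h0)).1 h3
    have h4 : Nat.gcd l h0 ∣ Nat.gcd n0 h0 := Nat.dvd_gcd h2 (Nat.gcd_dvd_right l h0)
    rw [h1] at h4
    exact Nat.dvd_one.1 h4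
  obtain ⟨c, hc⟩ := hdvd
  refine ⟨l, eqd_mem_LL.2 ⟨hlt, hcop⟩, eqd_rp Q ⟨1, 1, c, c + 1⟩, eqd_rp_mem hQ.posQ ?_, ?_⟩
  · show 1 * (c + 1) ≡ 1 * c + 1 [MOD Q]
    rw [one_mul, one_mul]
  · show (1 % Q) * (h0 * (c % Q) + l * (Q - 1) * (1 % Q)) ≡ n0 [MOD Q]
    have h1 : (1 % Q) * (h0 * (c % Q) + l * (Q - 1) * (1 % Q)) ≡ 1 * (h0 * c + l * (Q - 1) * 1) [MOD Q] :=
      (Nat.mod_modEq _ _).mul (((Nat.mod_modEq _ _).mul_left _).add ((Nat.mod_modEq _ _).mul_left _))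
    refine h1.trans ?_
    rw [one_mul, mul_one, ← hc]
    obtain ⟨M', hM'⟩ : ∃ M', Q = M' + 1 := ⟨Q - 1, by have := hQ.posQ; omega⟩
    have h2 : n0 + l + l * (Q - 1) = n0 + Q * l := by
      rw [hM']
      have e0 : M' + 1 - 1 = M' := by omega
      rw [e0]
      ring
    rw [h2]
    exact (Nat.modEq_iff_dvd' (by omega)).2 ⟨l, by omega⟩ |>.symm

/-- PROOF. `kapM` with `M = Q`, constant `κ1`. By `lc_unique` (n = `h0`) the matrices are split according to `l < h0`, `l` coprime to `h0`, and according to the class `γ ∈ clq Q` of `dn h0 l e`. As `c = h0 c1 - l a`, the condition `b c ≡ n0 mod Q` says `γ.b (h0 γ.c + l' γ.a) ≡ n0 mod Q` with a natural number `l'`, `l' + l ≡ 0 mod Q`. So the limit is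
`κ ∫∫∫ Ψ` with `κ = κ1/(2 h0 #clq Q) * #{(l, γ) : ..}`. This number is positive: let `l < h0`, `l ≡ - n0 mod h0` (coprime to `h0` as `h0 ∣ Q` and `n0` is coprime to `Q`; for `h0 = 1`, `l = 0`), and `γ` the class of `(1, 1; (n0 + l)/h0, (n0 + h0 + l)/h0)`, of determinant `1`: `γ.b (h0 γ.c - l γ.a) = n0`. -/
theorem tot3 (h0 Q n0 : ℕ) (hQ : HQ h0 Q n0) : ∃ κ : ℝ, 0 < κ ∧ ∀ (b : ℝ) (Ψ : ℝ → ℝ → ℝ → ℝ), TR b Ψ →
    Tendsto (fun X : ℝ => (∑ e ∈ SQ h0 Q n0 (b * X), Ψ (yS e / X) (tS e) (uS e)) / X) atTop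
      (nhds (κ * ∫ y, ∫ t, ∫ u, Ψ y t u)) := by
  classical
  obtain ⟨κ1, hκ1, hk⟩ := kapM
  obtain ⟨hcard, hlim⟩ := hk Q hQ.posQ
  have hcard' : (0 : ℝ) < (clq Q).card := by exact_mod_cast hcard
  have h0' : (0 : ℝ) < h0 := by exact_mod_cast hQ.pos
  have hNN : (0 : ℝ) < ∑ l ∈ eqd_LL h0,
      (((clq Q).filter (fun γ => tot3_P Q n0 (eqd_up h0 (l * (Q - 1)) γ))).card : ℝ) := by
    obtain ⟨l, hl, γ, hγ, hP⟩ := tot3_ex h0 Q n0 hQ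
    refine Finset.sum_pos' (fun _ _ => Nat.cast_nonneg _) ⟨l, hl, ?_⟩
    exact_mod_cast Finset.card_pos.2 ⟨γ, mem_filter.2 ⟨hγ, hP⟩⟩
  refine ⟨κ1 / (clq Q).card / (2 * h0) * ∑ l ∈ eqd_LL h0,
      (((clq Q).filter (fun γ => tot3_P Q n0 (eqd_up h0 (l * (Q - 1)) γ))).card : ℝ), by positivity, ?_⟩
  intro b Ψ hΨ
  have hSQ : ∀ x : ℝ, SQ h0 Q n0 x = (SN h0 x).filter (tot3_P Q n0) := by
    intro x
    ext e
    rw [mem_SQ, mem_filter, mem_SN]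
    rfl
  have hfun : ∀ X : ℝ, (∑ e ∈ SQ h0 Q n0 (b * X), Ψ (yS e / X) (tS e) (uS e)) / X =
      ∑ l ∈ eqd_LL h0, ∑ γ ∈ (clq Q).filter (fun γ => tot3_P Q n0 (eqd_up h0 (l * (Q - 1)) γ)),
        (∑ e ∈ (SN h0 (b * X)).filter (fun e => lc h0 l e ∧ cq Q (dn h0 l e) γ),
          Ψ (yS e / X) (tS e) (uS e)) / X := by
    intro X
    rw [hSQ, eqd_split hQ.pos hQ.posQ (tot3_P Q n0) (tot3_per Q n0) (b * X)
      (fun e => Ψ (yS e / X) (tS e) (uS e)), Finset.sum_div]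
    exact Finset.sum_congr rfl fun l _ => Finset.sum_div _ _ _
  have hT : Tendsto (fun X : ℝ => ∑ l ∈ eqd_LL h0,
      ∑ γ ∈ (clq Q).filter (fun γ => tot3_P Q n0 (eqd_up h0 (l * (Q - 1)) γ)),
        (∑ e ∈ (SN h0 (b * X)).filter (fun e => lc h0 l e ∧ cq Q (dn h0 l e) γ),
          Ψ (yS e / X) (tS e) (uS e)) / X) atTop (nhds (∑ l ∈ eqd_LL h0,
      ∑ _γ ∈ (clq Q).filter (fun γ => tot3_P Q n0 (eqd_up h0 (l * (Q - 1)) γ)),
        κ1 / (clq Q).card / (2 * h0) * ∫ y, ∫ t, ∫ u, Ψ y t u)) := by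
    refine tendsto_finsetSum _ fun l hl => tendsto_finsetSum _ fun γ hγ => ?_
    have hl' := eqd_mem_LL.1 hl
    exact hlim h0 l hQ.pos hl'.1 hl'.2 γ (mem_clq.1 (mem_filter.1 hγ).1).2 b Ψ hΨ
  have hval : (∑ l ∈ eqd_LL h0,
      ∑ _γ ∈ (clq Q).filter (fun γ => tot3_P Q n0 (eqd_up h0 (l * (Q - 1)) γ)),
        κ1 / (clq Q).card / (2 * h0) * ∫ y, ∫ t, ∫ u, Ψ y t u) =
      κ1 / (clq Q).card / (2 * h0) * (∑ l ∈ eqd_LL h0,
      (((clq Q).filter (fun γ => tot3_P Q n0 (eqd_up h0 (l * (Q - 1)) γ))).card : ℝ)) *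
        ∫ y, ∫ t, ∫ u, Ψ y t u := by
    have h1 : ∀ l ∈ eqd_LL h0,
        ∑ _γ ∈ (clq Q).filter (fun γ => tot3_P Q n0 (eqd_up h0 (l * (Q - 1)) γ)),
          κ1 / (clq Q).card / (2 * h0) * ∫ y, ∫ t, ∫ u, Ψ y t u =
        (((clq Q).filter (fun γ => tot3_P Q n0 (eqd_up h0 (l * (Q - 1)) γ))).card : ℝ) *
          (κ1 / (clq Q).card / (2 * h0) * ∫ y, ∫ t, ∫ u, Ψ y t u) := by
      intro l _
      rw [Finset.sum_const, nsmul_eq_mul]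
    rw [Finset.sum_congr rfl h1, ← Finset.sum_mul]
    ring
  rw [hval] at hT
  exact hT.congr fun X => (hfun X).symm

/-- the smooth count without congruence condition -/
theorem tot1 (n : ℕ) (hn : 0 < n) : ∃ κ : ℝ, ∀ (b : ℝ) (Ψ : ℝ → ℝ → ℝ → ℝ), TR b Ψ →
    Tendsto (fun X : ℝ => (∑ e ∈ SN n (b * X), Ψ (yS e / X) (tS e) (uS e)) / X) atTop
      (nhds (κ * ∫ y, ∫ t, ∫ u, Ψ y t u)) := by
  classical
  obtain ⟨κ, _, h⟩ := eqD n hn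
  refine ⟨κ * ((((clq 1).filter (fun _ => True)).card : ℝ) / (clq 1).card), fun b Ψ hΨ => ?_⟩
  have h1 := h 1 one_pos (Nat.coprime_one_left n) (fun _ => True) (fun _ _ _ => Iff.rfl) b Ψ hΨ
  simpa using h1

end Pool.Agent.Spl
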