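import Pool.Agent.Lib_MP_92ef0c_sp.SDefs
import Pool.Agent.Lib_MP_f1a94e_eq.BDefs

/-!
# Triple integrals of test functions, from real to complex test functions
-/

set_option autoImplicit false

namespace Pool.Agent.Spl

open Finset MeasureTheory Filter

/-- a triple integral as an integral over the product -/
theorem tri_int {E : Type} [NormedAddCommGroup E] [NormedSpace ℝ E] (F : ℝ → ℝ → ℝ → E)
    (hc : Continuous (fun v : ℝ × ℝ × ℝ => F v.1 v.2.1 v.2.2))
    (hs : HasCompactSupport (fun v : ℝ × ℝ × ℝ => F v.1 v.2.1 v.2.2)) :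
    (∫ y, ∫ t, ∫ u, F y t u) = ∫ v : ℝ × ℝ × ℝ, F v.1 v.2.1 v.2.2 := by
  have hI : Integrable (fun v : ℝ × ℝ × ℝ => F v.1 v.2.1 v.2.2) := hc.integrable_of_hasCompactSupport hs
  rw [Measure.volume_eq_prod] at hI ⊢
  rw [integral_prod _ hI]
  congr 1
  funext y
  have hcy : Continuous (fun w : ℝ × ℝ => F y w.1 w.2) := hc.comp (Continuous.prodMk_right y)
  have hsy : HasCompactSupport (fun w : ℝ × ℝ => F y w.1 w.2) := by
    apply HasCompactSupport.intro (hs.image continuous_snd)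
    intro w hw
    by_contra hne
    apply hw
    refine ⟨(y, w), subset_tsupport _ ?_, rfl⟩
    exact hne
  have hIy : Integrable (fun w : ℝ × ℝ => F y w.1 w.2) := hcy.integrable_of_hasCompactSupport hsy
  rw [Measure.volume_eq_prod] at hIy ⊢
  rw [integral_prod _ hIy]

theorem TS.re {b : ℝ} {W : ℝ → ℝ → ℝ → ℂ} (h : TS b W) : TR b (fun y t u => (W y t u).re) := by
  refine ⟨Complex.continuous_re.comp h.cont, h.supp.comp_left Complex.zero_re, fun y t u hy => ?_, fun y t u hy => ?_⟩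
  · simp only [h.lo y t u hy, Complex.zero_re]
  · simp only [h.hi y t u hy, Complex.zero_re]

theorem TS.im {b : ℝ} {W : ℝ → ℝ → ℝ → ℂ} (h : TS b W) : TR b (fun y t u => (W y t u).im) := by
  refine ⟨Complex.continuous_im.comp h.cont, h.supp.comp_left Complex.zero_im, fun y t u hy => ?_, fun y t u hy => ?_⟩
  · simp only [h.lo y t u hy, Complex.zero_im]
  · simp only [h.hi y t u hy, Complex.zero_im]

theorem TS.int_eq {b : ℝ} {W : ℝ → ℝ → ℝ → ℂ} (h : TS b W) :
    (∫ y, ∫ t, ∫ u, W y t u) = (((∫ y, ∫ t, ∫ u, (W y t u).re) : ℝ) : ℂ) +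
      (((∫ y, ∫ t, ∫ u, (W y t u).im) : ℝ) : ℂ) * Complex.I := by
  rw [tri_int _ h.cont h.supp, tri_int _ h.re.cont h.re.supp, tri_int _ h.im.cont h.im.supp]
  have hI : Integrable (fun v : ℝ × ℝ × ℝ => W v.1 v.2.1 v.2.2) := h.cont.integrable_of_hasCompactSupport h.supp
  have h1 := integral_re_add_im hI
  exact h1.symm

/-- from real test functions to complex ones -/
theorem real_to_complex {ι : Type} (S : ℝ → ℝ → Finset ι) (m p w : ι → ℝ) (κ : ℝ)
    (H : ∀ (b : ℝ) (Ψ : ℝ → ℝ → ℝ → ℝ), TR b Ψ →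
      Tendsto (fun X : ℝ => (∑ e ∈ S b X, Ψ (m e / X) (p e) (w e)) / X) atTop (nhds (κ * ∫ y, ∫ t, ∫ u, Ψ y t u)))
    (b : ℝ) (W : ℝ → ℝ → ℝ → ℂ) (hW : TS b W) :
    Tendsto (fun X : ℝ => (∑ e ∈ S b X, W (m e / X) (p e) (w e)) / (X : ℂ)) atTop
      (nhds ((κ : ℂ) * ∫ y, ∫ t, ∫ u, W y t u)) := by
  have h1 := (Complex.continuous_ofReal.tendsto _).comp (H b _ hW.re)
  have h2 := (Complex.continuous_ofReal.tendsto _).comp (H b _ hW.im)
  have h3 := h1.add (h2.mul_const Complex.I)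
  have h4 : ((κ : ℂ) * ∫ y, ∫ t, ∫ u, W y t u) =
      ((κ * (∫ y, ∫ t, ∫ u, (W y t u).re) : ℝ) : ℂ) + ((κ * (∫ y, ∫ t, ∫ u, (W y t u).im) : ℝ) : ℂ) * Complex.I := by
    rw [hW.int_eq]
    push_cast
    ring
  rw [h4]
  refine h3.congr (fun X => ?_)
  simp only [Function.comp_apply]
  push_cast
  rw [div_mul_eq_mul_div, ← add_div, sum_mul, ← sum_add_distrib]
  congr 1
  apply sum_congr rfl
  intro e _
  exact Complex.re_add_im _

end Pool.Agent.Spl
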