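import Pool.Agent.Lib_MP_92ef0c_sp.MertS
import Pool.Agent.Lib_MP_f1a94e_eq.ProdB

/-!
# The product over the primes
-/

set_option autoImplicit false

namespace Pool.Agent.Spl

open Finset Pool.Agent.GaussMR Pool.Agent.OmAll Pool.Agent.OmEq MeasureTheory

/-- the phase of one prime -/
theorem prodS_re {E : Finset ℕ} {g : ℕ → ℂ}
    (hg1 : ∀ p : ℕ, p.Prime → p ∉ E → ‖g p‖ = 1) {T p : ℕ} (hp : p ∈ PP E T) (τ : ℝ) :
    |(g p * Complex.exp (-(2 * τ * Real.log p : ℝ) * Complex.I)).re| ≤ 1 := by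
  obtain ⟨-, h2, h4⟩ := mem_PP.1 hp
  refine (Complex.abs_re_le_norm _).trans ?_
  rw [norm_mul, hg1 p h2 h4, one_mul]
  have : (-(2 * τ * Real.log p : ℝ) * Complex.I : ℂ) = ((-(2 * τ * Real.log p) : ℝ) : ℂ) * Complex.I := by
    push_cast
    ring
  rw [this, Complex.norm_exp_ofReal_mul_I]

theorem prodS_two {E : Finset ℕ} {T p : ℕ} (hp : p ∈ PP E T) : 2 ≤ p :=
  (mem_PP.1 hp).2.1.two_le

theorem prodS_factor {p : ℕ} (hp : 2 ≤ p) {z c : ℝ} (hz : 0 < z) (hc : |c| ≤ 1) :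
    0 ≤ 1 + 2 * As p * (z - 1 + z * c) := by
  obtain ⟨h1, -, -, h2⟩ := As_bound p hp
  have h3 : -1 ≤ c := (abs_le.1 hc).1
  have h4 : -1 ≤ z - 1 + z * c := by nlinarith
  nlinarith

theorem prodS_prod (E : Finset ℕ) (g : ℕ → ℂ) (hg1 : ∀ p : ℕ, p.Prime → p ∉ E → ‖g p‖ = 1)
    (R : ℝ) (hNP : NPS E g R) (z : ℝ) (hz : 1 / 2 < z) (hz1 : z < 1)
    (B : ℝ) (hBpos : 0 < B) :
    ∃ K : ℝ, ∀ T : ℕ, 3 ≤ T → ∀ τ : ℝ, 0 < |τ| → |τ| ≤ B →
      ∏ p ∈ PP E T,
        (1 + 2 * As p * (z - 1 + z * (g p * Complex.exp (-(2 * τ * Real.log p : ℝ) * Complex.I)).re)) ≤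
      (Real.log T) ^ (2 * (z - 1)) * (Real.exp K *
        Real.exp (2 * z * R * max 0 (Real.log (1 / |τ|)))) := by
  obtain ⟨C1, hC1⟩ := muS_bound
  obtain ⟨C2, hC2⟩ := hNP B hBpos
  have hs : Summable (fun p : ℕ => 6 / (p : ℝ) ^ 2) := by
    have := (Real.summable_one_div_nat_pow (p := 2)).mpr (by norm_num)
    refine (this.mul_left 6).congr (fun p => ?_)
    ring
  obtain ⟨S, hS⟩ : ∃ S : ℝ, S = ∑' p : ℕ, 6 / (p : ℝ) ^ 2 := ⟨_, rfl⟩
  refine ⟨|C1| + E.card + 2 * |C2| + S, fun T hT τ hτ hτB => ?_⟩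
  have hlog := ZSm.one_le_logT hT
  obtain ⟨c, hc⟩ : ∃ c : ℕ → ℝ, ∀ p, c p =
    (g p * Complex.exp (-(2 * τ * Real.log p : ℝ) * Complex.I)).re := ⟨_, fun _ => rfl⟩
  have hc1 : ∀ p ∈ PP E T, |c p| ≤ 1 := by
    intro p hp
    rw [hc]
    exact prodS_re hg1 hp τ
  simp only [← hc]
  have hNP' : ∑ p ∈ PP E T, c p / p ≤ R * max 0 (Real.log (1 / |τ|)) + C2 := by
    have := hC2 T hT τ hτ hτB
    simp only [← hc] at this
    exact this
  have h1 : ∏ p ∈ PP E T, (1 + 2 * As p * (z - 1 + z * c p)) ≤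
      Real.exp (∑ p ∈ PP E T, 2 * As p * (z - 1 + z * c p)) := by
    rw [Real.exp_sum]
    apply prod_le_prod
    · intro p hp
      exact prodS_factor (prodS_two hp) (by linarith) (hc1 p hp)
    · intro p hp
      have := Real.add_one_le_exp (2 * As p * (z - 1 + z * c p))
      linarith
  refine h1.trans ?_
  have h2 : (Real.log T) ^ (2 * (z - 1)) = Real.exp (Real.log (Real.log T) * (2 * (z - 1))) :=
    Real.rpow_def_of_pos (by linarith) _
  rw [h2, ← Real.exp_add, ← Real.exp_add]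
  apply Real.exp_le_exp.2
  -- the sum
  have h3 : ∑ p ∈ PP E T, 2 * As p * (z - 1 + z * c p) =
      (z - 1) * ∑ p ∈ PP E T, 2 * As p + z * ∑ p ∈ PP E T, 2 * As p * c p := by
    rw [mul_sum, mul_sum, ← sum_add_distrib]
    refine sum_congr rfl fun p _ => ?_
    ring
  have h4 : ∑ p ∈ PP ∅ T, 2 * As p ≤ ∑ p ∈ PP E T, 2 * As p + E.card := by
    have hPP : PP E T = PP ∅ T \ E := by
      ext p
      rw [mem_sdiff, mem_PP, mem_PP]
      simp [and_assoc]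
    rw [hPP, ← sum_inter_add_sum_sdiff (PP ∅ T) E]
    have h5 : ∑ p ∈ PP ∅ T ∩ E, 2 * As p ≤ E.card := by
      have h6 : ∑ p ∈ PP ∅ T ∩ E, 2 * As p ≤ ∑ _p ∈ PP ∅ T ∩ E, (1 : ℝ) := by
        apply sum_le_sum
        intro p hp
        have := (As_bound p (prodS_two (mem_inter.1 hp).1)).2.2.2
        linarith
      rw [sum_const, nsmul_eq_mul, mul_one] at h6
      refine h6.trans ?_
      exact_mod_cast card_le_card inter_subset_right
    linarith
  have h5 : (z - 1) * ∑ p ∈ PP E T, 2 * As p ≤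
      Real.log (Real.log T) * (2 * (z - 1)) + |C1| + E.card := by
    have h6 := (abs_le.1 (hC1 T hT)).1
    have h7 : 2 * Real.log (Real.log T) - |C1| - E.card ≤ ∑ p ∈ PP E T, 2 * As p := by
      have := le_abs_self C1
      linarith
    have h8 : (z - 1) * ∑ p ∈ PP E T, 2 * As p ≤
        (z - 1) * (2 * Real.log (Real.log T) - |C1| - E.card) :=
      mul_le_mul_of_nonpos_left h7 (by linarith)
    have h9 : (1 - z) * (|C1| + E.card) ≤ 1 * (|C1| + E.card) :=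
      mul_le_mul_of_nonneg_right (by linarith) (by positivity)
    linarith
  have h6 : ∑ p ∈ PP E T, 2 * As p * c p ≤ 2 * ∑ p ∈ PP E T, c p / p + S := by
    have h7 : ∀ p ∈ PP E T, 2 * As p * c p ≤ 2 * (c p / p) + 6 / (p : ℝ) ^ 2 := by
      intro p hp
      obtain ⟨-, h8, h9, -⟩ := As_bound p (prodS_two hp)
      have h10 := hc1 p hp
      have h11 : 2 * As p * c p - 2 * (c p / p) = 2 * ((1 / (p : ℝ) - As p) * (-c p)) := by ring
      have h12 : (1 / (p : ℝ) - As p) * (-c p) ≤ (1 / (p : ℝ) - As p) * 1 :=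
        mul_le_mul_of_nonneg_left (by linarith [(abs_le.1 h10).1]) (by linarith)
      have h13 : 6 / (p : ℝ) ^ 2 = 2 * (3 / (p : ℝ) ^ 2) := by ring
      linarith
    have h8 := sum_le_sum h7
    rw [sum_add_distrib, ← mul_sum] at h8
    have h9 : ∑ p ∈ PP E T, 6 / (p : ℝ) ^ 2 ≤ S := by
      rw [hS]
      exact hs.sum_le_tsum _ (fun p _ => by positivity)
    linarith
  have hS0 : 0 ≤ S := by rw [hS]; exact tsum_nonneg (fun p => by positivity)
  have h7 : z * ∑ p ∈ PP E T, 2 * As p * c p ≤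
      2 * z * R * max 0 (Real.log (1 / |τ|)) + 2 * |C2| + S := by
    have h8 : ∑ p ∈ PP E T, 2 * As p * c p ≤ 2 * (R * max 0 (Real.log (1 / |τ|)) + C2) + S := by
      linarith
    have h9 := mul_le_mul_of_nonneg_left h8 (by linarith : 0 ≤ z)
    have h10 : z * (2 * C2 + S) ≤ 1 * (2 * |C2| + S) := by
      have e1 : z * (2 * C2 + S) ≤ z * (2 * |C2| + S) :=
        mul_le_mul_of_nonneg_left (by linarith [le_abs_self C2]) (by linarith)
      have e2 : z * (2 * |C2| + S) ≤ 1 * (2 * |C2| + S) :=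
        mul_le_mul_of_nonneg_right hz1.le (by positivity)
      linarith
    linarith
  rw [h3]
  linarith

/-- PROOF. Copy and adapt `prodB` (`Lib_MP_f1a94e_eq/ProdB.lean`): `As` in place of `Ap`, all primes. With `c_p = Re (g p exp (-2 i τ log p))`, `|c_p| ≤ 1`: the factor is `≥ 0` (`2 As p ≤ 1/3`) and `≤ exp (2 As p (z - 1 + z c_p))`; by `As_bound` the sum of the exponents is at most
`(z - 1) ∑ 2 As p + z ∑_(PP E T) (2/p) c_p + ∑ 12/p^2 ≤ (z - 1)(2 log log T) + 2 z (R max 0 (log (1/|τ|)) + C) + C'` (`muS_bound`; the primes of `E` contribute at most `2 #E`; `NPS` with `B`). So the product is `≤ C4 (log T)^(2 (z-1)) max 1 (|τ|^(-2 z R))`, exactly as in `prodB`. If `R < 1`, `2 z R < 1` and `|τ|^(-2 z R)` is integrable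
near `0`; in the second case of `h0`, `‖φ τ‖^2 |τ|^(-2 z R) ≤ C^2 |τ|^(2 - 2 z R)`, `2 - 2 z R > 0`. -/
theorem prodS (E : Finset ℕ) (g : ℕ → ℂ) (hg1 : ∀ p : ℕ, p.Prime → p ∉ E → ‖g p‖ = 1) (R : ℝ)
    (hR0 : 0 ≤ R) (hR1 : R ≤ 1) (hNP : NPS E g R) (z : ℝ) (hz : 1 / 2 < z) (hz1 : z < 1) (hzR : R < 1 → 2 * z * R < 1)
    (B C : ℝ) (hBpos : 0 < B) (φ : ℝ → ℂ) (hφ : Continuous φ) (hB : ∀ τ, B ≤ |τ| → φ τ = 0)
    (h0 : R < 1 ∨ ∀ τ, ‖φ τ‖ ≤ C * |τ|) :
    ∃ C' : ℝ, ∀ T : ℕ, 3 ≤ T →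
      ∫ τ, ‖φ τ‖ ^ 2 * ∏ p ∈ PP E T,
        (1 + 2 * As p * (z - 1 + z * (g p * Complex.exp (-(2 * τ * Real.log p : ℝ) * Complex.I)).re)) ≤
      C' * (Real.log T) ^ (2 * (z - 1)) := by
  obtain ⟨K, hK⟩ := prodS_prod E g hg1 R hNP z hz hz1 B hBpos
  obtain ⟨h, hi, hh⟩ := prodB_major R z B C hR0 hR1 hz hz1 hzR hBpos φ hφ hB h0
  refine ⟨Real.exp K * ∫ τ, h τ, fun T hT => ?_⟩
  have hlog : 0 < Real.log T := by linarith [ZSm.one_le_logT hT]
  have h1 : ∫ τ, ‖φ τ‖ ^ 2 * ∏ p ∈ PP E T,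
        (1 + 2 * As p * (z - 1 + z * (g p * Complex.exp (-(2 * τ * Real.log p : ℝ) * Complex.I)).re)) ≤
      ∫ τ, ((Real.log T) ^ (2 * (z - 1)) * Real.exp K) * h τ := by
    apply integral_mono_of_nonneg
    · refine Filter.Eventually.of_forall fun τ => ?_
      apply mul_nonneg (by positivity)
      exact prod_nonneg fun p hp => prodS_factor (prodS_two hp) (by linarith) (prodS_re hg1 hp τ)
    · exact hi.const_mul _
    · have h2 : ∀ᵐ τ : ℝ, τ ≠ 0 := by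
        simp [ae_iff]
      filter_upwards [h2] with τ hτ
      have hτ' : 0 < |τ| := abs_pos.2 hτ
      by_cases hτB : |τ| ≤ B
      · have e1 := hK T hT τ hτ' hτB
        have e2 := hh τ hτ'
        calc ‖φ τ‖ ^ 2 * ∏ p ∈ PP E T,
              (1 + 2 * As p * (z - 1 + z * (g p * Complex.exp (-(2 * τ * Real.log p : ℝ) * Complex.I)).re))
            ≤ ‖φ τ‖ ^ 2 * ((Real.log T) ^ (2 * (z - 1)) * (Real.exp K *
                Real.exp (2 * z * R * max 0 (Real.log (1 / |τ|))))) :=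
              mul_le_mul_of_nonneg_left e1 (by positivity)
          _ = ((Real.log T) ^ (2 * (z - 1)) * Real.exp K) * (‖φ τ‖ ^ 2 *
                Real.exp (2 * z * R * max 0 (Real.log (1 / |τ|)))) := by ring
          _ ≤ _ := mul_le_mul_of_nonneg_left e2 (by positivity)
      · have e2 := hh τ hτ'
        rw [hB τ (not_le.1 hτB).le, norm_zero] at e2 ⊢
        have e3 : 0 ≤ h τ := by simpa using e2
        have : 0 ≤ ((Real.log T) ^ (2 * (z - 1)) * Real.exp K) * h τ := by positivity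
        simpa using this
  rw [integral_const_mul] at h1
  refine h1.trans (le_of_eq ?_)
  ring

end Pool.Agent.Spl
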