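import Pool.Agent.Lib_MP_92ef0c_sp.AnIS
import Pool.Agent.Lib_MP_92ef0c_sp.ProdS

/-!
# The limit quantity tends to zero
-/

set_option autoImplicit false

namespace Pool.Agent.Spl

open Finset Pool.Agent.GaussMR Pool.Agent.OmAll Pool.Agent.OmEq MeasureTheory Filter

namespace AnSP

open Pool.Agent.OmEq.AnP

theorem PrS_nonneg (E : Finset ℕ) (T : ℕ) (D : Finset ℕ) (hD : D ⊆ PP E T) : 0 ≤ PrS E T D := by
  have h : ∀ p ∈ PP E T, 0 < As p ∧ 2 * As p ≤ 1 / 3 := by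
    intro p hp
    rw [mem_PP] at hp
    obtain ⟨h1, -, -, h2⟩ := As_bound p hp.2.1.two_le
    exact ⟨h1, h2⟩
  unfold PrS
  apply mul_nonneg
  · exact prod_nonneg fun p hp => (h p (hD hp)).1.le
  · refine prod_nonneg fun p hp => ?_
    have := (h p (mem_sdiff.mp hp).1).2
    linarith

/-- `∑_D PrS D ∏_(p ∈ D) x_p = ∏ (As p x_p + 1 - 2 As p)` -/
theorem sum_PrS (E : Finset ℕ) (T : ℕ) (x : ℕ → ℝ) :
    ∑ D ∈ (PP E T).powerset, PrS E T D * ∏ p ∈ D, x p =
      ∏ p ∈ PP E T, (As p * x p + (1 - 2 * As p)) := by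
  rw [prod_add]
  refine sum_congr rfl fun D _ => ?_
  unfold PrS
  rw [prod_mul_distrib]
  ring

theorem sum_PrS_two (E : Finset ℕ) (T : ℕ) :
    ∑ D ∈ (PP E T).powerset, PrS E T D * (2 : ℝ) ^ D.card = 1 := by
  have h := sum_PrS E T (fun _ => 2)
  simp only [prod_const] at h
  rw [h]
  refine prod_eq_one fun p _ => ?_
  ring

theorem norm_coefS {E : Finset ℕ} {g : ℕ → ℂ}
    (hg1 : ∀ p : ℕ, p.Prime → p ∉ E → ‖g p‖ = 1) {T : ℕ} {D a : Finset ℕ}
    (hD : D ⊆ PP E T) (ha : a ⊆ D) : ‖∏ p ∈ a, g p‖ = 1 := by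
  rw [norm_prod]
  refine prod_eq_one fun p hp => ?_
  have := mem_PP.mp (hD (ha hp))
  exact hg1 p this.2.1 this.2.2

theorem csS_le {E : Finset ℕ} {g : ℕ → ℂ}
    (hg1 : ∀ p : ℕ, p.Prime → p ∉ E → ‖g p‖ = 1) {T : ℕ} {D : Finset ℕ}
    (hD : D ⊆ PP E T) (w : ℝ → ℂ) (hw : Integrable w) :
    ∫ t, ‖cs g w D t‖ ≤ (2 : ℝ) ^ D.card * ∫ t, ‖w t‖ := by
  have hi : ∀ a : Finset ℕ, Integrable (fun t => ‖w (t - 2 * lg a)‖) := fun a =>
    (hw.comp_sub_right (2 * lg a)).norm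
  calc ∫ t, ‖cs g w D t‖ ≤ ∫ t, ∑ a ∈ D.powerset, ‖w (t - 2 * lg a)‖ := by
        apply integral_mono (cs_int g w hw D).norm (integrable_finsetSum _ fun a _ => hi a)
        intro t
        refine (norm_sum_le _ _).trans (sum_le_sum fun a ha => ?_)
        rw [norm_mul, norm_coefS hg1 hD (mem_powerset.mp ha), one_mul]
    _ = ∑ a ∈ D.powerset, ∫ t, ‖w (t - 2 * lg a)‖ := integral_finsetSum _ fun a _ => hi a
    _ = ∑ _a ∈ D.powerset, ∫ t, ‖w t‖ := by
        refine sum_congr rfl fun a _ => ?_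
        exact integral_sub_right_eq_self (fun t => ‖w t‖) (2 * lg a)
    _ = (2 : ℝ) ^ D.card * ∫ t, ‖w t‖ := by
        rw [sum_const, card_powerset, nsmul_eq_mul]
        push_cast
        ring

theorem IS_nonneg (E : Finset ℕ) (g : ℕ → ℂ) (T : ℕ) (w : ℝ → ℂ) : 0 ≤ IS E g T w := by
  unfold IS
  refine sum_nonneg fun D hD => ?_
  exact mul_nonneg (PrS_nonneg E T D (mem_powerset.mp hD)) (integral_nonneg fun t => norm_nonneg _)

theorem IS_add (E : Finset ℕ) (g : ℕ → ℂ) (T : ℕ) (w v : ℝ → ℂ) (hw : Integrable w)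
    (hv : Integrable v) : IS E g T w ≤ IS E g T v + IS E g T (fun u => w u - v u) := by
  unfold IS
  rw [← sum_add_distrib]
  refine sum_le_sum fun D hD => ?_
  rw [← mul_add]
  refine mul_le_mul_of_nonneg_left ?_ (PrS_nonneg E T D (mem_powerset.mp hD))
  have hs : Integrable (fun t => cs g (fun u => w u - v u) D t) := cs_int g _ (hw.sub hv) D
  rw [← integral_add (cs_int g v hv D).norm hs.norm]
  apply integral_mono (cs_int g w hw D).norm ((cs_int g v hv D).norm.add hs.norm)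
  intro t
  simp only
  rw [cs_sub g w v D t]
  exact norm_add_le _ _

/-- the L2 hypothesis of `anIS` -/
theorem hL2S (E : Finset ℕ) (g : ℕ → ℂ) (hg1 : ∀ p : ℕ, p.Prime → p ∉ E → ‖g p‖ = 1)
    (z : ℝ) (B : ℝ) (φ ψ : ℝ → ℂ) (hφ : Continuous φ) (hB : ∀ τ, B ≤ |τ| → φ τ = 0)
    (hψ : ∀ t, ψ t = ∫ τ, φ τ * Complex.exp ((τ * t : ℝ) * Complex.I)) (hψc : Continuous ψ) (C : ℝ)
    (hC : ∀ t, ‖ψ t‖ ≤ C / (1 + t ^ 2)) (T : ℕ) :
    ∑ D ∈ (PP E T).powerset, PrS E T D * z ^ D.card * ∫ t, ‖cs g ψ D t‖ ^ 2 =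
      2 * Real.pi * ∫ τ, ‖φ τ‖ ^ 2 * ∏ p ∈ PP E T,
        (1 + 2 * As p * (z - 1 + z * (g p * Complex.exp (-(2 * τ * Real.log p : ℝ) * Complex.I)).re)) := by
  have hint : ∀ D : Finset ℕ, Integrable (fun τ : ℝ => ‖φ τ‖ ^ 2 *
      ∏ p ∈ D, ‖1 + g p * Complex.exp (-(2 * τ * Real.log p : ℝ) * Complex.I)‖ ^ 2) := by
    intro D
    apply Continuous.integrable_of_hasCompactSupport
    · apply Continuous.mul (by fun_prop)
      apply continuous_finsetProd
      intro p _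
      fun_prop
    · apply HasCompactSupport.intro (isCompact_Icc : IsCompact (Set.Icc (-B) B))
      intro τ hτ
      have : B ≤ |τ| := by
        by_contra hc
        push Not at hc
        rw [abs_lt] at hc
        exact hτ ⟨hc.1.le, hc.2.le⟩
      rw [hB τ this]
      simp
  calc ∑ D ∈ (PP E T).powerset, PrS E T D * z ^ D.card * ∫ t, ‖cs g ψ D t‖ ^ 2
      = ∑ D ∈ (PP E T).powerset, ∫ τ, (2 * Real.pi) * ((PrS E T D * z ^ D.card) * (‖φ τ‖ ^ 2 *
        ∏ p ∈ D, ‖1 + g p * Complex.exp (-(2 * τ * Real.log p : ℝ) * Complex.I)‖ ^ 2)) := by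
        refine sum_congr rfl fun D _ => ?_
        rw [plan B φ ψ hφ hB hψ hψc C hC g D, integral_const_mul, integral_const_mul]
        ring
    _ = ∫ τ, ∑ D ∈ (PP E T).powerset, (2 * Real.pi) * ((PrS E T D * z ^ D.card) * (‖φ τ‖ ^ 2 *
        ∏ p ∈ D, ‖1 + g p * Complex.exp (-(2 * τ * Real.log p : ℝ) * Complex.I)‖ ^ 2)) := by
        rw [integral_finsetSum]
        intro D _
        exact ((hint D).const_mul _).const_mul _
    _ = ∫ τ, (2 * Real.pi) * (‖φ τ‖ ^ 2 * ∏ p ∈ PP E T,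
        (1 + 2 * As p * (z - 1 + z * (g p * Complex.exp (-(2 * τ * Real.log p : ℝ) *
          Complex.I)).re))) := by
        congr 1
        funext τ
        rw [← mul_sum]
        congr 1
        have h1 : ∑ D ∈ (PP E T).powerset, (PrS E T D * z ^ D.card) * (‖φ τ‖ ^ 2 *
            ∏ p ∈ D, ‖1 + g p * Complex.exp (-(2 * τ * Real.log p : ℝ) * Complex.I)‖ ^ 2) =
            ‖φ τ‖ ^ 2 * ∑ D ∈ (PP E T).powerset, PrS E T D * ∏ p ∈ D,
              (z * ‖1 + g p * Complex.exp (-(2 * τ * Real.log p : ℝ) * Complex.I)‖ ^ 2) := by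
          rw [mul_sum]
          refine sum_congr rfl fun D _ => ?_
          rw [prod_mul_distrib, prod_const]
          ring
        rw [h1, sum_PrS]
        congr 1
        refine prod_congr rfl fun p hp => ?_
        have hp' := mem_PP.mp hp
        have hn : ‖g p * Complex.exp (-(2 * τ * Real.log p : ℝ) * Complex.I)‖ = 1 := by
          rw [norm_mul, hg1 p hp'.2.1 hp'.2.2, norm_exp_I, one_mul]
        rw [norm_one_add_sq hn]
        ring
    _ = _ := by rw [integral_const_mul]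

end AnSP

open AnSP Pool.Agent.OmEq.AnP

/-- PROOF. Copy of `IT_le` (`Lib_MP_f1a94e_eq/An.lean`). -/
theorem IS_le (E : Finset ℕ) (g : ℕ → ℂ) (hg1 : ∀ p : ℕ, p.Prime → p ∉ E → ‖g p‖ = 1) (T : ℕ)
    (w : ℝ → ℂ) (hw : Integrable w) : IS E g T w ≤ ∫ t, ‖w t‖ := by
  unfold IS
  calc ∑ D ∈ (PP E T).powerset, PrS E T D * ∫ t, ‖cs g w D t‖
      ≤ ∑ D ∈ (PP E T).powerset, PrS E T D * ((2 : ℝ) ^ D.card * ∫ t, ‖w t‖) := by
        refine sum_le_sum fun D hD => ?_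
        exact mul_le_mul_of_nonneg_left (csS_le hg1 (mem_powerset.mp hD) w hw)
          (PrS_nonneg E T D (mem_powerset.mp hD))
    _ = (∑ D ∈ (PP E T).powerset, PrS E T D * (2 : ℝ) ^ D.card) * ∫ t, ‖w t‖ := by
        rw [sum_mul]
        refine sum_congr rfl fun D _ => ?_
        ring
    _ = ∫ t, ‖w t‖ := by rw [sum_PrS_two, one_mul]

/-- PROOF. Copy and adapt `an` (`Lib_MP_f1a94e_eq/An.lean`): `mol`, `plan` (unchanged), `prodS`, `anIS`. -/
theorem anS (E : Finset ℕ) (g : ℕ → ℂ) (hg1 : ∀ p : ℕ, p.Prime → p ∉ E → ‖g p‖ = 1) (R : ℝ)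
    (hR0 : 0 ≤ R) (hR1 : R ≤ 1) (hNP : NPS E g R) (w : ℝ → ℂ) (hw : Continuous w) (hc : HasCompactSupport w)
    (h0 : R < 1 ∨ (∫ t, w t) = 0) :
    Tendsto (fun T : ℕ => IS E g T w) atTop (nhds 0) := by
  obtain ⟨z, hz, hz1, hzR⟩ : ∃ z : ℝ, 1 / 2 < z ∧ z < 1 ∧ (R < 1 → 2 * z * R < 1) := by
    by_cases h : R ≤ 1 / 2
    · exact ⟨3 / 4, by norm_num, by norm_num, fun _ => by linarith⟩
    · push Not at h
      by_cases h1 : R < 1
      · have hR : 0 < 4 * R := by linarith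
        refine ⟨(R + 1) / (4 * R), ?_, ?_, fun _ => ?_⟩
        · rw [lt_div_iff₀ hR]; linarith
        · rw [div_lt_one hR]; linarith
        · have : 2 * ((R + 1) / (4 * R)) * R = (R + 1) / 2 := by
            field_simp
            ring
          rw [this]; linarith
      · exact ⟨3 / 4, by norm_num, by norm_num, fun h2 => absurd h2 h1⟩
  have hwi : Integrable w := hw.integrable_of_hasCompactSupport hc
  rw [Metric.tendsto_atTop]
  intro ε hε
  obtain ⟨B, C, φ, ψ, hB0, hC0, hφ, hB, hψ, hψc, hC, hdiff, hzero⟩ := mol w hw hc (ε / 2) (by linarith)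
  have hψi : Integrable ψ := psi_int hψc hC
  have h0' : R < 1 ∨ ∀ τ, ‖φ τ‖ ≤ C * |τ| := by
    rcases h0 with h | h
    · exact Or.inl h
    · exact Or.inr (hzero h)
  obtain ⟨C', hC'⟩ := prodS E g hg1 R hR0 hR1 hNP z hz hz1 hzR B C hB0 φ hφ hB h0'
  have hlim := anIS E g hg1 z hz hz1 ψ hψc C hC (2 * Real.pi * C') (by
    intro T hT
    rw [hL2S E g hg1 z B φ ψ hφ hB hψ hψc C hC T, mul_assoc (2 * Real.pi) C']
    exact mul_le_mul_of_nonneg_left (hC' T hT) (by positivity))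
  rw [Metric.tendsto_atTop] at hlim
  obtain ⟨N, hN⟩ := hlim (ε / 2) (by linarith)
  refine ⟨N, fun T hT => ?_⟩
  have h1 := hN T hT
  rw [Real.dist_eq, sub_zero, abs_of_nonneg (IS_nonneg E g T ψ)] at h1
  rw [Real.dist_eq, sub_zero, abs_of_nonneg (IS_nonneg E g T w)]
  have h2 := IS_add E g T w ψ hwi hψi
  have h3 := IS_le E g hg1 T (fun u => w u - ψ u) (hwi.sub hψi)
  linarith

end Pool.Agent.Spl
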