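import Pool.Agent.Lib_MP_92ef0c_sp.LocP
import Pool.Agent.Lib_MP_92ef0c_sp.SDefs
import Pool.Agent.Lib_MP_f1a94e_aq.Equid
import Pool.Agent.Lib_MP_f1a94e_eq.BDefs
import Pool.Agent.Lib_MP_f1a94e_eq.LocD

/-!
# Local densities of the base matrices
-/

set_option autoImplicit false

namespace Pool.Agent.Spl

open Finset Pool.Agent.GaussMR Pool.Agent.OmAll Pool.Agent.OmEq

namespace LocSP

/-- functions that respect the congruences -/
def CF (u : Q4 → ℕ) : Prop := ∀ (M : ℕ) (e f : Q4), cq M e f → u e ≡ u f [MOD M]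

/-- the condition at a prime of `D` -/
def QA (u v : Q4 → ℕ) (p : ℕ) (e : Q4) : Prop := p ∣ v e ∧ ¬ p ^ 2 ∣ u e * v e

/-- the condition at a prime outside of `D` -/
def QB (u v : Q4 → ℕ) (p : ℕ) (e : Q4) : Prop := ¬ (p ∣ u e * v e ∧ ¬ p ^ 2 ∣ u e * v e)

/-- the condition at the prime `p` -/
def QC (u v : Q4 → ℕ) (D : Finset ℕ) (p : ℕ) (e : Q4) : Prop :=
  (p ∈ D → QA u v p e) ∧ (p ∉ D → QB u v p e)

/-- all conditions -/
def RC (u v : Q4 → ℕ) (D P : Finset ℕ) (e : Q4) : Prop := ∀ p ∈ P, QC u v D p e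

theorem cq_mono {M N : ℕ} (h : N ∣ M) {e f : Q4} (hc : cq M e f) : cq N e f :=
  ⟨hc.1.of_dvd h, hc.2.1.of_dvd h, hc.2.2.1.of_dvd h, hc.2.2.2.of_dvd h⟩

theorem dvd_iff_of_modEq {M x y : ℕ} (h : x ≡ y [MOD M]) : M ∣ x ↔ M ∣ y := by
  rw [← Nat.modEq_zero_iff_dvd, ← Nat.modEq_zero_iff_dvd]
  exact ⟨fun h1 => h.symm.trans h1, fun h1 => h.trans h1⟩

theorem QC_per {u v : Q4 → ℕ} (hu : CF u) (hv : CF v) (D : Finset ℕ) (p : ℕ) {M : ℕ}
    (hM : p ^ 2 ∣ M) : PerQ M (QC u v D p) := by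
  intro e f h
  have hp : p ∣ M := (dvd_pow_self p two_ne_zero).trans hM
  have h1 : p ∣ v e ↔ p ∣ v f := dvd_iff_of_modEq (hv p e f (cq_mono hp h))
  have h2 : p ∣ u e * v e ↔ p ∣ u f * v f :=
    dvd_iff_of_modEq ((hu p e f (cq_mono hp h)).mul (hv p e f (cq_mono hp h)))
  have h3 : p ^ 2 ∣ u e * v e ↔ p ^ 2 ∣ u f * v f :=
    dvd_iff_of_modEq ((hu _ e f (cq_mono hM h)).mul (hv _ e f (cq_mono hM h)))
  unfold QC QA QB
  rw [h1, h2, h3]

theorem RC_per {u v : Q4 → ℕ} (hu : CF u) (hv : CF v) (D P : Finset ℕ) {M : ℕ}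
    (hM : ∀ p ∈ P, p ^ 2 ∣ M) : PerQ M (RC u v D P) := by
  intro e f h
  exact forall₂_congr (fun p hp => QC_per hu hv D p (hM p hp) e f h)

open Classical in
/-- the two counts at a prime -/
def CT (u v : Q4 → ℕ) (p : ℕ) : Prop :=
  ((clq (p ^ 2)).filter (fun e => p ∣ v e ∧ ¬ p ^ 2 ∣ u e * v e)).card = p ^ 2 * (p - 1) ^ 3 ∧
    ((clq (p ^ 2)).filter (fun e => p ∣ u e ∧ ¬ p ^ 2 ∣ u e * v e)).card = p ^ 2 * (p - 1) ^ 3

theorem As_eq {p : ℕ} (hp : p.Prime) :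
    ((p ^ 2 * (p - 1) ^ 3 : ℕ) : ℝ) = As p * ((p ^ 4 * (p ^ 2 - 1) : ℕ) : ℝ) := by
  have h1 : 1 ≤ p := hp.one_lt.le
  have h2 : 1 ≤ p ^ 2 := Nat.one_le_pow _ _ h1
  have h3 : (p : ℝ) ≠ 0 := by exact_mod_cast hp.ne_zero
  have h4 : (p : ℝ) + 1 ≠ 0 := by positivity
  push_cast [Nat.cast_sub h1, Nat.cast_sub h2]
  unfold As
  field_simp
  ring

open Classical in
theorem QA_card {u v : Q4 → ℕ} {p : ℕ} (hp : p.Prime) (hct : CT u v p) :
    (((clq (p ^ 2)).filter (QA u v p)).card : ℝ) = As p * (clq (p ^ 2)).card := by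
  have h1 : (clq (p ^ 2)).filter (QA u v p) =
      (clq (p ^ 2)).filter (fun e => p ∣ v e ∧ ¬ p ^ 2 ∣ u e * v e) :=
    filter_congr fun e _ => Iff.rfl
  rw [h1, hct.1, (locP p hp).1]
  exact As_eq hp

open Classical in
theorem QB_card {u v : Q4 → ℕ} {p : ℕ} (hp : p.Prime) (hct : CT u v p) :
    (((clq (p ^ 2)).filter (QB u v p)).card : ℝ) = (1 - 2 * As p) * (clq (p ^ 2)).card := by
  have h3 : ((clq (p ^ 2)).filter (QB u v p)).card +
      ((clq (p ^ 2)).filter (fun e => p ∣ v e ∧ ¬ p ^ 2 ∣ u e * v e)).card +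
      ((clq (p ^ 2)).filter (fun e => p ∣ u e ∧ ¬ p ^ 2 ∣ u e * v e)).card =
        (clq (p ^ 2)).card := by
    rw [card_filter, card_filter, card_filter, ← sum_add_distrib, ← sum_add_distrib,
      card_eq_sum_ones]
    apply sum_congr rfl
    intro e _
    unfold QB
    have h5 : p ∣ u e * v e ↔ p ∣ u e ∨ p ∣ v e := hp.dvd_mul
    have h6 : p ∣ u e → p ∣ v e → p ^ 2 ∣ u e * v e := by
      intro a b
      rw [pow_two]
      exact mul_dvd_mul a b
    by_cases h7 : p ^ 2 ∣ u e * v e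
    · simp [h7]
    · by_cases h8 : p ∣ u e
      · have h9 : ¬ p ∣ v e := fun h => h7 (h6 h8 h)
        simp [h5, h7, h8, h9]
      · by_cases h9 : p ∣ v e
        · simp [h5, h7, h8, h9]
        · simp [h5, h7, h8, h9]
  rw [hct.1, hct.2] at h3
  have h4 : (((clq (p ^ 2)).filter (QB u v p)).card : ℝ) + ((p ^ 2 * (p - 1) ^ 3 : ℕ) : ℝ) +
      ((p ^ 2 * (p - 1) ^ 3 : ℕ) : ℝ) = (clq (p ^ 2)).card := by
    exact_mod_cast h3
  rw [As_eq hp, ← (locP p hp).1] at h4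
  linarith

open Classical in
theorem QC_card {u v : Q4 → ℕ} (D : Finset ℕ) {p : ℕ} (hp : p.Prime) (hct : CT u v p) :
    (((clq (p ^ 2)).filter (QC u v D p)).card : ℝ) =
      (if p ∈ D then As p else 1 - 2 * As p) * (clq (p ^ 2)).card := by
  by_cases h : p ∈ D
  · rw [if_pos h, ← QA_card hp hct]
    congr 2
    apply filter_congr
    intro e _
    unfold QC
    simp [h]
  · rw [if_neg h, ← QB_card hp hct]
    congr 2
    apply filter_congr
    intro e _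
    unfold QC
    simp [h]

open Classical in
theorem main {u v : Q4 → ℕ} (hu : CF u) (hv : CF v) (D P : Finset ℕ) :
    (∀ p ∈ P, p.Prime ∧ CT u v p) →
    (((clq (∏ p ∈ P, p ^ 2)).filter (RC u v D P)).card : ℝ) =
      (∏ p ∈ P, if p ∈ D then As p else 1 - 2 * As p) * (clq (∏ p ∈ P, p ^ 2)).card := by
  induction P using Finset.induction_on with
  | empty =>
    intro _
    have h3 : ((clq (∏ p ∈ (∅ : Finset ℕ), p ^ 2)).filter (RC u v D ∅)) =
        clq (∏ p ∈ (∅ : Finset ℕ), p ^ 2) := by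
      apply filter_true_of_mem
      intro e _
      unfold RC
      simp
    rw [h3, prod_empty, prod_empty, one_mul]
  | insert p P hpP ih =>
    intro hP
    obtain ⟨hp, h4⟩ := hP p (mem_insert_self _ _)
    have hP' : ∀ q ∈ P, q.Prime ∧ CT u v q := fun q hq => hP q (mem_insert_of_mem hq)
    have ih' := ih hP'
    rw [prod_insert hpP, prod_insert hpP]
    set M1 : ℕ := ∏ q ∈ P, q ^ 2 with hM1
    have hM : p ^ 2 * M1 = M1 * p ^ 2 := by ring
    rw [hM]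
    have hpos1 : 0 < M1 := by
      rw [hM1]
      exact prod_pos (fun q hq => pow_pos (hP' q hq).1.pos 2)
    have hpos2 : 0 < p ^ 2 := pow_pos hp.pos 2
    have hco : M1.Coprime (p ^ 2) := by
      apply Nat.Coprime.pow_right
      rw [hM1]
      apply Nat.Coprime.prod_left
      intro q hq
      apply Nat.Coprime.pow_left
      rw [Nat.coprime_primes (hP' q hq).1 hp]
      rintro rfl
      exact hpP hq
    have hper1 : PerQ M1 (RC u v D P) := RC_per hu hv D P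
      (fun q hq => dvd_prod_of_mem (fun q => q ^ 2) hq)
    have hper2 : PerQ (p ^ 2) (QC u v D p) := QC_per hu hv D p (dvd_refl _)
    have h1 := clq_mul M1 (p ^ 2) hpos1 hpos2 hco (RC u v D P) (QC u v D p) hper1 hper2
    have h2 := clq_mul M1 (p ^ 2) hpos1 hpos2 hco (fun _ => True) (fun _ => True)
      (fun _ _ _ => Iff.rfl) (fun _ _ _ => Iff.rfl)
    simp only [and_self, filter_true] at h2
    have h3 : ((clq (M1 * p ^ 2)).filter (RC u v D (insert p P))).card =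
        ((clq (M1 * p ^ 2)).filter (fun e => RC u v D P e ∧ QC u v D p e)).card := by
      congr 1
      apply filter_congr
      intro e _
      unfold RC
      rw [forall_mem_insert]
      tauto
    rw [h3, h1, h2]
    push_cast
    rw [ih', QC_card D hp h4]
    ring

/-- the predicate on the left side, for `D ⊆ PP E T` -/
theorem b_d_iff (u v : Q4 → ℕ) (E : Finset ℕ) (T : ℕ) (D : Finset ℕ) (hD : D ⊆ PP E T) (e : Q4)
    (F : Finset ℕ) (hF : F = (PP E T).filter (fun p => p ∣ u e * v e ∧ ¬ p ^ 2 ∣ u e * v e)) :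
    ((∀ p ∈ F, ¬ p ∣ u e) ∧ F = D) ↔ RC u v D (PP E T) e := by
  constructor
  · rintro ⟨h1, h2⟩ p hp
    constructor
    · intro hpD
      have h4 : p ∈ F := h2.symm ▸ hpD
      have h5 := (mem_filter.1 (hF ▸ h4)).2
      have h6 := h1 p h4
      have hpr : p.Prime := (mem_PP.1 hp).2.1
      exact ⟨(hpr.dvd_mul.1 h5.1).resolve_left h6, h5.2⟩
    · intro hpD h3
      apply hpD
      rw [← h2, hF]
      exact mem_filter.2 ⟨hp, h3⟩
  · intro h
    have h2 : F = D := by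
      rw [hF]
      ext p
      rw [mem_filter]
      constructor
      · rintro ⟨h3, h4⟩
        by_contra h5
        exact (h p h3).2 h5 h4
      · intro hp
        have h3 := (h p (hD hp)).1 hp
        exact ⟨hD hp, h3.1.mul_left _, h3.2⟩
    refine ⟨?_, h2⟩
    intro p hp h3
    rw [h2] at hp
    have h4 := (h p (hD hp)).1 hp
    apply h4.2
    rw [pow_two]
    exact mul_dvd_mul h3 h4.1

/-- the factor `n` does not matter -/
theorem RC_scale (u v : Q4 → ℕ) (D P : Finset ℕ) (n : ℕ) (hP : ∀ p ∈ P, p.Prime ∧ ¬ p ∣ n)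
    (e f : Q4) (hu : u f = u e) (hv : v f = n * v e) :
    RC u v D P f ↔ RC u v D P e := by
  refine forall₂_congr (fun p hp => ?_)
  obtain ⟨h1, h2⟩ := hP p hp
  have hco : p.Coprime n := (Nat.Prime.coprime_iff_not_dvd h1).2 h2
  have hco2 : (p ^ 2).Coprime n := Nat.Coprime.pow_left 2 hco
  have a1 : p ∣ v f ↔ p ∣ v e := by
    rw [hv]
    exact hco.dvd_mul_left
  have a2 : p ∣ u f * v f ↔ p ∣ u e * v e := by
    rw [hu, hv, show u e * (n * v e) = n * (u e * v e) by ring]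
    exact hco.dvd_mul_left
  have a3 : p ^ 2 ∣ u f * v f ↔ p ^ 2 ∣ u e * v e := by
    rw [hu, hv, show u e * (n * v e) = n * (u e * v e) by ring]
    exact hco2.dvd_mul_left
  unfold QC QA QB
  rw [a1, a2, a3]

open Classical in
/-- the density, for general entries -/
theorem loc (u v : Q4 → ℕ) (hu : CF u) (hv : CF v) (hct : ∀ p : ℕ, p.Prime → CT u v p)
    (E : Finset ℕ) (T : ℕ) (D : Finset ℕ) (hD : D ⊆ PP E T) :
    (((clq (∏ p ∈ PP E T, p ^ 2)).filter (RC u v D (PP E T))).card : ℝ) =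
      PrS E T D * (clq (∏ p ∈ PP E T, p ^ 2)).card := by
  have h1 := main hu hv D (PP E T) (fun p hp => ⟨(mem_PP.1 hp).2.1, hct p (mem_PP.1 hp).2.1⟩)
  have h2 : (∏ p ∈ PP E T, if p ∈ D then As p else 1 - 2 * As p) = PrS E T D := by
    unfold PrS
    rw [prod_ite]
    congr 1
    · apply prod_congr _ (fun _ _ => rfl)
      ext p
      rw [mem_filter]
      exact ⟨fun h => h.2, fun h => ⟨hD h, h⟩⟩
    · apply prod_congr _ (fun _ _ => rfl)
      ext p
      rw [mem_filter, mem_sdiff]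
  rw [h2] at h1
  exact h1

/-- periodicity, for general entries -/
theorem per (u v : Q4 → ℕ) (hu : CF u) (hv : CF v) (E : Finset ℕ) (T : ℕ) (D : Finset ℕ)
    (F : Q4 → Finset ℕ)
    (hF : ∀ e, F e = (PP E T).filter (fun p => p ∣ u e * v e ∧ ¬ p ^ 2 ∣ u e * v e)) :
    PerQ (∏ p ∈ PP E T, p ^ 2) (fun e => (∀ p ∈ F e, ¬ p ∣ u e) ∧ F e = D) := by
  intro e f h
  have hM : ∀ p ∈ PP E T, p ^ 2 ∣ ∏ p ∈ PP E T, p ^ 2 :=
    fun p hp => dvd_prod_of_mem (fun q => q ^ 2) hp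
  have hds : F e = F f := by
    rw [hF, hF]
    apply filter_congr
    intro p hp
    have hp1 : p ∣ ∏ p ∈ PP E T, p ^ 2 := (dvd_pow_self p two_ne_zero).trans (hM p hp)
    rw [dvd_iff_of_modEq ((hu p e f (cq_mono hp1 h)).mul (hv p e f (cq_mono hp1 h))),
      dvd_iff_of_modEq ((hu _ e f (cq_mono (hM p hp) h)).mul (hv _ e f (cq_mono (hM p hp) h)))]
  have hbs : (∀ p ∈ F e, ¬ p ∣ u e) ↔ (∀ p ∈ F f, ¬ p ∣ u f) := by
    rw [hds]
    refine forall₂_congr (fun p hp => ?_)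
    have hp0 : p ∈ PP E T := (mem_filter.1 (hF f ▸ hp)).1
    have hp1 : p ∣ ∏ p ∈ PP E T, p ^ 2 := (dvd_pow_self p two_ne_zero).trans (hM p hp0)
    rw [dvd_iff_of_modEq (hu p e f (cq_mono hp1 h))]
  dsimp only
  rw [hbs, hds]

theorem CF_a : CF (fun e => e.a) := fun _ _ _ h => h.1
theorem CF_b : CF (fun e => e.b) := fun _ _ _ h => h.2.1
theorem CF_c : CF (fun e => e.c) := fun _ _ _ h => h.2.2.1
theorem CF_d : CF (fun e => e.d) := fun _ _ _ h => h.2.2.2

theorem CT_ad {p : ℕ} (hp : p.Prime) : CT (fun e => e.a) (fun e => e.d) p :=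
  ⟨(locP p hp).2.1, (locP p hp).2.2.1⟩

theorem CT_bc {p : ℕ} (hp : p.Prime) : CT (fun e => e.b) (fun e => e.c) p :=
  ⟨(locP p hp).2.2.2.1, (locP p hp).2.2.2.2⟩

end LocSP

/-- PROOF. Divisibility of an entry by `p` and of a product of two entries by `p ^ 2` depends only on the classes modulo `p ^ 2`, which divides the product. -/
theorem perA (E : Finset ℕ) (T : ℕ) (D : Finset ℕ) :
    PerQ (∏ p ∈ PP E T, p ^ 2) (fun e => bA E T e ∧ dA E T e = D) :=
  LocSP.per (fun e => e.a) (fun e => e.d) LocSP.CF_a LocSP.CF_d E T D (dA E T) (fun _ => rfl)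

/-- PROOF. As `perA`. -/
theorem perB (E : Finset ℕ) (T : ℕ) (D : Finset ℕ) :
    PerQ (∏ p ∈ PP E T, p ^ 2) (fun e => bB E T e ∧ dB E T e = D) :=
  LocSP.per (fun e => e.b) (fun e => e.c) LocSP.CF_b LocSP.CF_c E T D (dB E T) (fun _ => rfl)

open Classical in
/-- PROOF. Adapt `locD` in `Lib_MP_f1a94e_eq/LocD.lean`. As `p` does not divide `n` for `p ∈ PP E T`, the factor `n` does not matter. The predicate says: for `p ∈ D`: `p ∣ d`, `¬ p^2 ∣ a d` (then `p ∤ a`), and for `p ∈ PP E T \ D`: not (`p ∣ a d`, `¬ p^2 ∣ a d`). Induction over the primes with `clq_mul` (`clq 1` has one element), `locP`: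
the first set has density `As p = p^2 (p-1)^3 / (p^4 (p^2-1)) = (p-1)^2/(p^2 (p+1))` in `clq (p^2)`, the complement of the second one is the disjoint union of two sets of density `As p`. -/
theorem locA (E : Finset ℕ) (T : ℕ) (D : Finset ℕ) (hD : D ⊆ PP E T) (n : ℕ) (hn : ∀ p ∈ PP E T, ¬ p ∣ n) :
    (((clq (∏ p ∈ PP E T, p ^ 2)).filter (fun e => bA E T ⟨e.a, e.b, n * e.c, n * e.d⟩ ∧
      dA E T ⟨e.a, e.b, n * e.c, n * e.d⟩ = D)).card : ℝ) = PrS E T D * (clq (∏ p ∈ PP E T, p ^ 2)).card := by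
  rw [← LocSP.loc (fun e => e.a) (fun e => e.d) LocSP.CF_a LocSP.CF_d
    (fun p hp => LocSP.CT_ad hp) E T D hD]
  congr 2
  apply filter_congr
  intro e _
  have h1 := LocSP.b_d_iff (fun e => e.a) (fun e => e.d) E T D hD
    ⟨e.a, e.b, n * e.c, n * e.d⟩ (dA E T ⟨e.a, e.b, n * e.c, n * e.d⟩) rfl
  have h2 := LocSP.RC_scale (fun e => e.a) (fun e => e.d) D (PP E T) n
    (fun p hp => ⟨(mem_PP.1 hp).2.1, hn p hp⟩) e ⟨e.a, e.b, n * e.c, n * e.d⟩ rfl rfl
  exact h1.trans h2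

open Classical in
/-- PROOF. As `locA`, with `b, c` in place of `a, d`. -/
theorem locB (E : Finset ℕ) (T : ℕ) (D : Finset ℕ) (hD : D ⊆ PP E T) (n : ℕ) (hn : ∀ p ∈ PP E T, ¬ p ∣ n) :
    (((clq (∏ p ∈ PP E T, p ^ 2)).filter (fun e => bB E T ⟨e.a, e.b, n * e.c, n * e.d⟩ ∧
      dB E T ⟨e.a, e.b, n * e.c, n * e.d⟩ = D)).card : ℝ) = PrS E T D * (clq (∏ p ∈ PP E T, p ^ 2)).card := by
  rw [← LocSP.loc (fun e => e.b) (fun e => e.c) LocSP.CF_b LocSP.CF_c
    (fun p hp => LocSP.CT_bc hp) E T D hD]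
  congr 2
  apply filter_congr
  intro e _
  have h1 := LocSP.b_d_iff (fun e => e.b) (fun e => e.c) E T D hD
    ⟨e.a, e.b, n * e.c, n * e.d⟩ (dB E T ⟨e.a, e.b, n * e.c, n * e.d⟩) rfl
  have h2 := LocSP.RC_scale (fun e => e.b) (fun e => e.c) D (PP E T) n
    (fun p hp => ⟨(mem_PP.1 hp).2.1, hn p hp⟩) e ⟨e.a, e.b, n * e.c, n * e.d⟩ rfl rfl
  exact h1.trans h2

end Pool.Agent.Spl
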