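import Pool.Agent.Lib_MP_92ef0c_sp.EqD
import Pool.Agent.Lib_MP_92ef0c_sp.LocS

/-!
# Equidistribution of the base matrices
-/

set_option autoImplicit false

namespace Pool.Agent.Spl

open Finset Pool.Agent.GaussMR Pool.Agent.OmAll Pool.Agent.OmEq Filter MeasureTheory

theorem tr3_pos (M : ℕ) (hM : 0 < M) : (0 : ℝ) < (clq M).card := by
  have h2 : 0 < (clq M).card :=
    Finset.card_pos.2 ⟨eqd_rp M ⟨1, 0, 0, 1⟩, eqd_rp_mem hM (Nat.ModEq.refl _)⟩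
  exact_mod_cast h2

open Classical in
theorem tr3_gen (n : ℕ) (hn : 0 < n) (κ : ℝ)
    (h : ∀ M : ℕ, 0 < M → M.Coprime n → ∀ P : Q4 → Prop, PerQ M P →
      ∀ (b : ℝ) (Ψ : ℝ → ℝ → ℝ → ℝ), TR b Ψ →
      Tendsto (fun X : ℝ => (∑ e ∈ (SN n (b * X)).filter P, Ψ (yS e / X) (tS e) (uS e)) / X) atTop
        (nhds (κ * ((((clq M).filter (fun e => P ⟨e.a, e.b, n * e.c, n * e.d⟩)).card : ℝ) / (clq M).card) *
          ∫ y, ∫ t, ∫ u, Ψ y t u)))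
    (E : Finset ℕ) (hE : n.primeFactors ⊆ E) (T : ℕ) (bb : Q4 → Prop) (dd : Q4 → Finset ℕ)
    (hdd : ∀ e, dd e ⊆ PP E T)
    (hper : ∀ D : Finset ℕ, PerQ (∏ p ∈ PP E T, p ^ 2) (fun e => bb e ∧ dd e = D))
    (hloc : ∀ D : Finset ℕ, D ⊆ PP E T → (∀ p ∈ PP E T, ¬ p ∣ n) →
      (((clq (∏ p ∈ PP E T, p ^ 2)).filter (fun e => bb ⟨e.a, e.b, n * e.c, n * e.d⟩ ∧
        dd ⟨e.a, e.b, n * e.c, n * e.d⟩ = D)).card : ℝ) = PrS E T D * (clq (∏ p ∈ PP E T, p ^ 2)).card)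
    (Ψ : Finset ℕ → ℝ → ℝ → ℝ → ℝ) (b : ℝ) (hΨ : ∀ D, TR b (Ψ D)) :
    Tendsto (fun X : ℝ => (∑ e ∈ (SN n (b * X)).filter bb, Ψ (dd e) (yS e / X) (tS e) (uS e)) / X) atTop
      (nhds (κ * ∑ D ∈ (PP E T).powerset, PrS E T D * ∫ y, ∫ t, ∫ u, Ψ D y t u)) := by
  have hn0 : ∀ p ∈ PP E T, ¬ p ∣ n := by
    intro p hp hd
    obtain ⟨_, h2, h4⟩ := mem_PP.1 hp
    exact h4 (hE (Nat.mem_primeFactors.2 ⟨h2, hd, hn.ne'⟩))
  have hM : 0 < ∏ p ∈ PP E T, p ^ 2 :=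
    prod_pos (fun p hp => pow_pos (mem_PP.1 hp).2.1.pos 2)
  have hco : (∏ p ∈ PP E T, p ^ 2).Coprime n := by
    apply Nat.Coprime.prod_left
    intro p hp
    apply Nat.Coprime.pow_left
    exact (Nat.Prime.coprime_iff_not_dvd (mem_PP.1 hp).2.1).2 (hn0 p hp)
  have hpos := tr3_pos _ hM
  have key : ∀ D ∈ (PP E T).powerset, Tendsto (fun X : ℝ =>
      (∑ e ∈ (SN n (b * X)).filter (fun e => bb e ∧ dd e = D),
        Ψ D (yS e / X) (tS e) (uS e)) / X) atTop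
      (nhds (κ * (PrS E T D * ∫ y, ∫ t, ∫ u, Ψ D y t u))) := by
    intro D hD
    have h1 := h _ hM hco (fun e => bb e ∧ dd e = D) (hper D) b (Ψ D) (hΨ D)
    have h2 := hloc D (mem_powerset.1 hD) hn0
    have h4 : (((clq (∏ p ∈ PP E T, p ^ 2)).filter
        (fun e => bb ⟨e.a, e.b, n * e.c, n * e.d⟩ ∧ dd ⟨e.a, e.b, n * e.c, n * e.d⟩ = D)).card : ℝ) /
        (clq (∏ p ∈ PP E T, p ^ 2)).card = PrS E T D := by
      rw [h2, mul_div_assoc, div_self hpos.ne', mul_one]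
    have h5 : ∀ (f g : ℝ → ℝ) (a b : ℝ), a = b → (∀ x, f x = g x) → Tendsto f atTop (nhds a) →
        Tendsto g atTop (nhds b) := by
      rintro f g a b rfl hfg hf
      exact hf.congr hfg
    refine h5 _ _ _ _ ?_ ?_ h1
    · rw [← h4, ← mul_assoc]
      congr
    · intro x
      congr
  have hsum := tendsto_finsetSum _ key
  rw [← mul_sum] at hsum
  refine hsum.congr fun X => ?_
  rw [← sum_div]
  congr 1
  rw [← sum_fiberwise_of_maps_to (s := (SN n (b * X)).filter bb) (t := (PP E T).powerset)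
    (g := dd) (fun e _ => mem_powerset.2 (hdd e))]
  refine sum_congr rfl fun D _ => ?_
  rw [filter_filter]
  refine sum_congr rfl fun e he => ?_
  rw [(mem_filter.1 he).2.2]

open Classical in
/-- PROOF. As `tr` in `Lib_MP_f1a94e_eq/TR.lean` (with `Rect.lean`). Split by `D = dA E T e ⊆ PP E T`: the sum is `∑_(D ∈ (PP E T).powerset) ∑_(e ∈ SN n (b X), bA E T e ∧ dA E T e = D) Ψ D ..`. `eqD n` with `M = ∏_(p ∈ PP E T) p ^ 2` (coprime to `n` as `n.primeFactors ⊆ E`), `P e = bA E T e ∧ dA E T e = D` (`perA`), `locA`; the quotient is `PrS E T D` (`clq M` is not empty).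
`κ` from `eqD n`, the same for all `E, T, D`. -/
theorem trA (n : ℕ) (hn : 0 < n) : ∃ κ : ℝ, 0 ≤ κ ∧ ∀ E : Finset ℕ, n.primeFactors ⊆ E → ∀ (T : ℕ)
    (Ψ : Finset ℕ → ℝ → ℝ → ℝ → ℝ) (b : ℝ), (∀ D, TR b (Ψ D)) →
    Tendsto (fun X : ℝ => (∑ e ∈ (SN n (b * X)).filter (bA E T), Ψ (dA E T e) (yS e / X) (tS e) (uS e)) / X) atTop
      (nhds (κ * ∑ D ∈ (PP E T).powerset, PrS E T D * ∫ y, ∫ t, ∫ u, Ψ D y t u)) := by
  obtain ⟨κ, hκ, h⟩ := eqD n hn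
  refine ⟨κ, hκ, fun E hE T Ψ b hΨ => ?_⟩
  exact tr3_gen n hn κ h E hE T (bA E T) (dA E T) (fun e => filter_subset _ _) (perA E T)
    (fun D hD hn0 => locA E T D hD n hn0) Ψ b hΨ

open Classical in
/-- PROOF. As `trA`, with `perB`, `locB`. -/
theorem trB (n : ℕ) (hn : 0 < n) : ∃ κ : ℝ, 0 ≤ κ ∧ ∀ E : Finset ℕ, n.primeFactors ⊆ E → ∀ (T : ℕ)
    (Ψ : Finset ℕ → ℝ → ℝ → ℝ → ℝ) (b : ℝ), (∀ D, TR b (Ψ D)) →
    Tendsto (fun X : ℝ => (∑ e ∈ (SN n (b * X)).filter (bB E T), Ψ (dB E T e) (yS e / X) (tS e) (uS e)) / X) atTop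
      (nhds (κ * ∑ D ∈ (PP E T).powerset, PrS E T D * ∫ y, ∫ t, ∫ u, Ψ D y t u)) := by
  obtain ⟨κ, hκ, h⟩ := eqD n hn
  refine ⟨κ, hκ, fun E hE T Ψ b hΨ => ?_⟩
  exact tr3_gen n hn κ h E hE T (bB E T) (dB E T) (fun e => filter_subset _ _) (perB E T)
    (fun D hD hn0 => locB E T D hD n hn0) Ψ b hΨ

end Pool.Agent.Spl
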