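import Pool.Agent.Lib_MP_92ef0c_sp.CluAB
import Pool.Agent.Lib_MP_92ef0c_sp.Tr3
import Pool.Agent.Lib_MP_92ef0c_sp.AnS

/-!
# The cluster theorems for matrices
-/

set_option autoImplicit false

namespace Pool.Agent.Spl

open Finset Pool.Agent.GaussMR Pool.Agent.OmAll Pool.Agent.OmEq MeasureTheory Filter

namespace Ctw3P

/-- compact support in a box -/
theorem box {F : ℝ × ℝ × ℝ → ℂ} (hF : HasCompactSupport F) :
    ∃ R0 : ℝ, 0 < R0 ∧ ∀ y t u, F (y, t, u) ≠ 0 → |y| ≤ R0 ∧ |t| ≤ R0 ∧ |u| ≤ R0 := by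
  obtain ⟨R1, hR1⟩ := hF.isCompact.isBounded.subset_closedBall (0 : ℝ × ℝ × ℝ)
  refine ⟨max R1 1, by positivity, fun y t u h => ?_⟩
  have h1 : (y, t, u) ∈ tsupport F := subset_tsupport _ h
  have h2 := hR1 h1
  rw [mem_closedBall_zero_iff, Prod.norm_def, max_le_iff, Prod.norm_def, max_le_iff,
    Real.norm_eq_abs, Real.norm_eq_abs, Real.norm_eq_abs] at h2
  exact ⟨h2.1.trans (le_max_left _ _), h2.2.1.trans (le_max_left _ _),
    h2.2.2.trans (le_max_left _ _)⟩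

/-- a function on `ℝ × ℝ × ℝ` that vanishes outside a box -/
theorem hcs3 {M : Type} [AddMonoid M] (H : ℝ × ℝ × ℝ → M) (R0 : ℝ)
    (h : ∀ y t u, H (y, t, u) ≠ 0 → |y| ≤ R0 ∧ |t| ≤ R0 ∧ |u| ≤ R0) : HasCompactSupport H := by
  refine HasCompactSupport.of_support_subset_isCompact
    ((isCompact_Icc (a := -R0) (b := R0)).prod
      ((isCompact_Icc (a := -R0) (b := R0)).prod (isCompact_Icc (a := -R0) (b := R0)))) ?_
  rintro ⟨y, t, u⟩ h1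
  rw [Function.mem_support] at h1
  obtain ⟨h2, h3, h4⟩ := h y t u h1
  rw [Set.mem_prod, Set.mem_prod, Set.mem_Icc, Set.mem_Icc, Set.mem_Icc, ← abs_le, ← abs_le,
    ← abs_le]
  exact ⟨h2, h3, h4⟩

/-- the same on `(ℝ × ℝ) × ℝ` -/
theorem hcs21 {M : Type} [AddMonoid M] (H : (ℝ × ℝ) × ℝ → M) (R0 : ℝ)
    (h : ∀ y t u, H ((y, t), u) ≠ 0 → |y| ≤ R0 ∧ |t| ≤ R0 ∧ |u| ≤ R0) : HasCompactSupport H := by
  refine HasCompactSupport.of_support_subset_isCompact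
    (((isCompact_Icc (a := -R0) (b := R0)).prod (isCompact_Icc (a := -R0) (b := R0))).prod
      (isCompact_Icc (a := -R0) (b := R0))) ?_
  rintro ⟨⟨y, t⟩, u⟩ h1
  rw [Function.mem_support] at h1
  obtain ⟨h2, h3, h4⟩ := h y t u h1
  rw [Set.mem_prod, Set.mem_prod, Set.mem_Icc, Set.mem_Icc, Set.mem_Icc, ← abs_le, ← abs_le,
    ← abs_le]
  exact ⟨⟨h2, h3⟩, h4⟩

/-- integrals over `(ℝ × ℝ) × ℝ` -/
theorem int21 (H : (ℝ × ℝ) × ℝ → ℝ) (hc : Continuous H) (hs : HasCompactSupport H) :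
    Integrable (fun v : ℝ × ℝ => ∫ u, H (v, u)) ∧
      ∫ v : ℝ × ℝ, ∫ u, H (v, u) = ∫ y, ∫ t, ∫ u, H ((y, t), u) := by
  have h1 : Integrable H (volume.prod volume) := by
    have := hc.integrable_of_hasCompactSupport hs (μ := (volume : Measure ((ℝ × ℝ) × ℝ)))
    rwa [Measure.volume_eq_prod] at this
  have h2 : Integrable (fun v : ℝ × ℝ => ∫ u, H (v, u)) := h1.integral_prod_left
  refine ⟨h2, ?_⟩
  rw [Measure.volume_eq_prod] at h2 ⊢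
  rw [integral_prod _ h2]

/-- the order `y, t, u` -/
theorem ord_B (Ψ : ℝ → ℝ → ℝ → ℝ) (hc : Continuous (fun v : ℝ × ℝ × ℝ => Ψ v.1 v.2.1 v.2.2))
    (R0 : ℝ) (hR : ∀ y t u, Ψ y t u ≠ 0 → |y| ≤ R0 ∧ |t| ≤ R0 ∧ |u| ≤ R0) :
    ∫ y, ∫ t, ∫ u, Ψ y t u = ∫ v : ℝ × ℝ, ∫ u, Ψ v.1 v.2 u := by
  have hc' : Continuous (fun w : (ℝ × ℝ) × ℝ => Ψ w.1.1 w.1.2 w.2) :=
    hc.comp (f := fun w : (ℝ × ℝ) × ℝ => (w.1.1, w.1.2, w.2)) (by fun_prop)
  have h := (int21 (fun w => Ψ w.1.1 w.1.2 w.2) hc' (hcs21 _ R0 hR)).2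
  simp only at h
  rw [h]

/-- the order `y, u, t` -/
theorem ord_A (Ψ : ℝ → ℝ → ℝ → ℝ) (hc : Continuous (fun v : ℝ × ℝ × ℝ => Ψ v.1 v.2.1 v.2.2))
    (R0 : ℝ) (hR : ∀ y t u, Ψ y t u ≠ 0 → |y| ≤ R0 ∧ |t| ≤ R0 ∧ |u| ≤ R0) :
    ∫ y, ∫ t, ∫ u, Ψ y t u = ∫ v : ℝ × ℝ, ∫ t, Ψ v.1 t v.2 := by
  have hc' : Continuous (fun v : ℝ × ℝ × ℝ => (fun y u t => Ψ y t u) v.1 v.2.1 v.2.2) :=
    hc.comp (f := fun w : ℝ × ℝ × ℝ => (w.1, w.2.2, w.2.1)) (by fun_prop)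
  have h := ord_B (fun y u t => Ψ y t u) hc' R0 (fun y u t h => by
    obtain ⟨h1, h2, h3⟩ := hR y t u h
    exact ⟨h1, h3, h2⟩)
  rw [← h]
  congr 1
  funext y
  apply integral_integral_swap
  have h1 : Continuous (Function.uncurry fun t u => Ψ y t u) :=
    hc.comp (f := fun w : ℝ × ℝ => (y, w.1, w.2)) (by fun_prop)
  have h2 : HasCompactSupport (Function.uncurry fun t u => Ψ y t u) := by
    refine HasCompactSupport.of_support_subset_isCompact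
      ((isCompact_Icc (a := -R0) (b := R0)).prod (isCompact_Icc (a := -R0) (b := R0))) ?_
    rintro ⟨t, u⟩ h1
    rw [Function.mem_support] at h1
    obtain ⟨-, h3, h4⟩ := hR y t u h1
    rw [Set.mem_prod, Set.mem_Icc, Set.mem_Icc, ← abs_le, ← abs_le]
    exact ⟨h3, h4⟩
  have := h1.integrable_of_hasCompactSupport h2 (μ := (volume : Measure (ℝ × ℝ)))
  rwa [Measure.volume_eq_prod] at this

/-- a bound for the translations -/
theorem lg_bd (D : Finset ℕ) : ∃ L : ℝ, 0 ≤ L ∧ ∀ a ∈ D.powerset, |2 * lg a| ≤ L := by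
  refine ⟨∑ a ∈ D.powerset, |2 * lg a|, sum_nonneg fun _ _ => abs_nonneg _, fun a ha => ?_⟩
  exact single_le_sum (f := fun a => |2 * lg a|) (fun i _ => abs_nonneg _) ha

theorem cs_ne {g : ℕ → ℂ} {w : ℝ → ℂ} {D : Finset ℕ} {t L : ℝ}
    (hL : ∀ a ∈ D.powerset, |2 * lg a| ≤ L) (h : ‖cs g w D t‖ ≠ 0) :
    ∃ s : ℝ, w s ≠ 0 ∧ |t| ≤ |s| + L := by
  have h1 : cs g w D t ≠ 0 := norm_ne_zero_iff.mp h
  unfold cs at h1
  obtain ⟨a, ha, h2⟩ := exists_ne_zero_of_sum_ne_zero h1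
  refine ⟨_, right_ne_zero_of_mul h2, ?_⟩
  have h4 := hL a ha
  have h5 : |t| ≤ |t - 2 * lg a| + |2 * lg a| := by
    have := abs_add_le (t - 2 * lg a) (2 * lg a)
    rwa [sub_add_cancel] at this
  linarith

/-- the limit in `T` -/
theorem limT (E : Finset ℕ) (g : ℕ → ℂ)
    (hg1 : ∀ p : ℕ, p.Prime → p ∉ E → ‖g p‖ = 1) (R : ℝ) (hR0 : 0 ≤ R) (hR1 : R ≤ 1) (hNP : NPS E g R)
    (K : ℝ × ℝ → ℝ → ℂ) (hK : Continuous (fun w : (ℝ × ℝ) × ℝ => K w.1 w.2))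
    (R0 : ℝ) (hR : ∀ y u t, K (y, u) t ≠ 0 → |y| ≤ R0 ∧ |u| ≤ R0 ∧ |t| ≤ R0)
    (h0 : R < 1 ∨ ∀ v, (∫ t, K v t) = 0) (κ ε : ℝ) (hε : 0 < ε) :
    ∃ T : ℕ, κ * ∑ D ∈ (PP E T).powerset, PrS E T D * ∫ v, ∫ t, ‖cs g (K v) D t‖ < ε := by
  have hKv : ∀ v, Continuous (K v) := fun v =>
    hK.comp (f := fun t : ℝ => (v, t)) (by fun_prop)
  have hKs : ∀ v, HasCompactSupport (K v) := by
    intro v
    refine HasCompactSupport.of_support_subset_isCompact (isCompact_Icc (a := -R0) (b := R0)) ?_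
    intro t ht
    rw [Set.mem_Icc, ← abs_le]
    exact (hR v.1 v.2 t ht).2.2
  have hP1 : ∀ D : Finset ℕ, Integrable (fun v : ℝ × ℝ => ∫ t, ‖cs g (K v) D t‖) := by
    intro D
    obtain ⟨L, hL0, hL⟩ := lg_bd D
    refine (int21 (fun w => ‖cs g (K w.1) D w.2‖) ?_ (hcs21 _ (R0 + L) ?_)).1
    · unfold cs
      refine continuous_norm.comp (continuous_finsetSum _ fun a _ => continuous_const.mul ?_)
      exact hK.comp (f := fun w : (ℝ × ℝ) × ℝ => (w.1, w.2 - 2 * lg a)) (by fun_prop)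
    · intro y u t h
      obtain ⟨s, hs, hst⟩ := cs_ne hL h
      obtain ⟨h1, h2, h3⟩ := hR y u s hs
      exact ⟨by linarith, by linarith, by linarith⟩
  have hWi : Integrable (fun v : ℝ × ℝ => ∫ t, ‖K v t‖) := by
    refine (int21 (fun w => ‖K w.1 w.2‖) hK.norm (hcs21 _ R0 ?_)).1
    intro y u t h
    exact hR y u t (norm_ne_zero_iff.mp h)
  have hIT : ∀ T : ℕ, ∑ D ∈ (PP E T).powerset, PrS E T D * ∫ v, ∫ t, ‖cs g (K v) D t‖ =
      ∫ v, IS E g T (K v) := by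
    intro T
    unfold IS
    rw [integral_finsetSum]
    · refine sum_congr rfl fun D _ => ?_
      rw [integral_const_mul]
    · intro D _
      exact (hP1 D).const_mul _
  have hITi : ∀ T : ℕ, Integrable (fun v : ℝ × ℝ => IS E g T (K v)) := by
    intro T
    unfold IS
    exact integrable_finsetSum _ fun D _ => (hP1 D).const_mul _
  have hlim : Tendsto (fun T : ℕ => ∫ v : ℝ × ℝ, IS E g T (K v)) atTop (nhds 0) := by
    have h1 := tendsto_integral_of_dominated_convergence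
      (F := fun T (v : ℝ × ℝ) => IS E g T (K v))
      (f := fun _ => (0 : ℝ)) (fun v : ℝ × ℝ => ∫ t, ‖K v t‖)
      (fun T => (hITi T).aestronglyMeasurable) hWi ?_ ?_
    · rwa [integral_zero] at h1
    · intro T
      refine Filter.Eventually.of_forall fun v => ?_
      rw [Real.norm_eq_abs, abs_of_nonneg (AnSP.IS_nonneg E g T (K v))]
      exact IS_le E g hg1 T (K v) ((hKv v).integrable_of_hasCompactSupport (hKs v))
    · refine Filter.Eventually.of_forall fun v => ?_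
      exact anS E g hg1 R hR0 hR1 hNP (K v) (hKv v) (hKs v) (h0.imp id fun h => h v)
  have hlim' := hlim.const_mul κ
  rw [mul_zero] at hlim'
  obtain ⟨T, hT⟩ := (hlim'.eventually (gt_mem_nhds hε)).exists
  exact ⟨T, by rw [hIT T]; exact hT⟩

end Ctw3P

open Ctw3P

/-- PROOF. Adapt `ctw` (`Lib_MP_f1a94e_eq/Ctw.lean`). `cluA` with `W (· / X)` gives `∑_(e ∈ SN n (b X), bA) Φ e * cs g (fun t => W (yS e / X) t (uS e)) (dA E T e) (tS e)` (`X > 0`), bounded by `∑ Ψ (dA E T e) (yS e / X) (tS e) (uS e)`, `Ψ D y t u = ‖cs g (fun t => W y t u) D t‖`: `TR b (Ψ D)` (finite sum of translates in `t`). `trA`: the limit is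
`κ ∑_D PrS D ∫ y, ∫ t, ∫ u, Ψ D y t u = κ ∫ y, ∫ u, IS E g T (fun t => W y t u)` (Fubini for continuous functions with compact support, finite sum). As `T → ∞` it tends to `0` by dominated convergence (`anS` for each `(y, u)`, `IS_le` as a bound, `y, u` in a compact set). So `limsup_X` of the norm is `≤` an arbitrarily small number. -/
theorem ctwA (n : ℕ) (hn : 0 < n) (E : Finset ℕ) (hE : n.primeFactors ⊆ E) (g : ℕ → ℂ)
    (hg1 : ∀ p : ℕ, p.Prime → p ∉ E → ‖g p‖ = 1) (R : ℝ) (hR0 : 0 ≤ R) (hR1 : R ≤ 1) (hNP : NPS E g R)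
    (Φ : Q4 → ℂ) (hΦ : CmpA n E g Φ) (b : ℝ) (W : ℝ → ℝ → ℝ → ℂ) (hW : TS b W)
    (h0 : R < 1 ∨ ∀ y u, (∫ t, W y t u) = 0) :
    Tendsto (fun X : ℝ => (∑ e ∈ SN n (b * X), Φ e * W (yS e / X) (tS e) (uS e)) / X) atTop (nhds 0) := by
  classical
  obtain ⟨κ, hκ, htr⟩ := trA n hn
  obtain ⟨R1, hR1pos, hbox⟩ := box hW.supp
  simp only at hbox
  rw [Metric.tendsto_atTop]
  intro ε hε
  set Ψ : Finset ℕ → ℝ → ℝ → ℝ → ℝ := fun D y t u => ‖cs g (fun t => W y t u) D t‖ with hΨ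
  have hΨc : ∀ D, Continuous (fun v : ℝ × ℝ × ℝ => Ψ D v.1 v.2.1 v.2.2) := by
    intro D
    rw [hΨ]
    simp only
    unfold cs
    refine continuous_norm.comp (continuous_finsetSum _ fun a _ => continuous_const.mul ?_)
    exact hW.cont.comp (f := fun v : ℝ × ℝ × ℝ => (v.1, v.2.1 - 2 * lg a, v.2.2)) (by fun_prop)
  have hΨs : ∀ D, ∃ R2 : ℝ, ∀ y t u, Ψ D y t u ≠ 0 → |y| ≤ R2 ∧ |t| ≤ R2 ∧ |u| ≤ R2 := by
    intro D
    obtain ⟨L, hL0, hL⟩ := lg_bd D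
    refine ⟨R1 + L, fun y t u h => ?_⟩
    obtain ⟨s, hs, hst⟩ := cs_ne hL h
    obtain ⟨h1, h2, h3⟩ := hbox y s u hs
    exact ⟨by linarith, by linarith, by linarith⟩
  have hΨ0 : ∀ D y t u, (∀ s, W y s u = 0) → Ψ D y t u = 0 := by
    intro D y t u h
    rw [hΨ]
    simp only
    unfold cs
    rw [sum_eq_zero, norm_zero]
    intro a _
    simp only [h, mul_zero]
  have hTR : ∀ D, TR b (Ψ D) := by
    intro D
    obtain ⟨R2, hR2⟩ := hΨs D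
    refine ⟨hΨc D, hcs3 _ R2 (fun y t u h => hR2 y t u h), ?_, ?_⟩
    · intro y t u hy
      exact hΨ0 D y t u fun s => hW.lo y s u hy
    · intro y t u hy
      exact hΨ0 D y t u fun s => hW.hi y s u hy
  obtain ⟨T, hT⟩ := limT E g hg1 R hR0 hR1 hNP (fun v t => W v.1 t v.2)
    (hW.cont.comp (f := fun w : (ℝ × ℝ) × ℝ => (w.1.1, w.2, w.1.2)) (by fun_prop)) R1
    (fun y u t h => by
      obtain ⟨h1, h2, h3⟩ := hbox y t u h
      exact ⟨h1, h3, h2⟩) (h0.imp id fun h v => h v.1 v.2) κ ε hε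
  have ht := htr E hE T Ψ b hTR
  have hsum : ∑ D ∈ (PP E T).powerset, PrS E T D * ∫ y, ∫ t, ∫ u, Ψ D y t u =
      ∑ D ∈ (PP E T).powerset, PrS E T D * ∫ v : ℝ × ℝ, ∫ t, ‖cs g (fun t => W v.1 t v.2) D t‖ := by
    refine sum_congr rfl fun D _ => ?_
    obtain ⟨R2, hR2⟩ := hΨs D
    rw [ord_A (Ψ D) (hΨc D) R2 hR2]
  rw [hsum] at ht
  obtain ⟨X0, hX0⟩ := eventually_atTop.1 (ht.eventually (gt_mem_nhds hT))
  refine ⟨max X0 1, fun X hX => ?_⟩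
  have hX1 : X0 ≤ X := (le_max_left _ _).trans hX
  have hX2 : 0 < X := lt_of_lt_of_le one_pos ((le_max_right _ _).trans hX)
  have h3 := hX0 X hX1
  rw [dist_zero_right, norm_div, Complex.norm_real, Real.norm_eq_abs, abs_of_pos hX2]
  refine lt_of_le_of_lt ?_ h3
  refine div_le_div_of_nonneg_right ?_ hX2.le
  have h4 := cluA n hn E hE g Φ hΦ T (b * X) (fun y t u => W (y / X) t u)
  rw [h4]
  refine (norm_sum_le _ _).trans (sum_le_sum fun e _ => ?_)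
  rw [norm_mul]
  exact mul_le_of_le_one_left (norm_nonneg _) (hΦ.bd e)

/-- PROOF. As `ctwA` with `cluB`, `trB`, `Ψ D y t u = ‖cs g (fun u => W y t u) D u‖`. -/
theorem ctwB (n : ℕ) (hn : 0 < n) (E : Finset ℕ) (hE : n.primeFactors ⊆ E) (g : ℕ → ℂ)
    (hg1 : ∀ p : ℕ, p.Prime → p ∉ E → ‖g p‖ = 1) (R : ℝ) (hR0 : 0 ≤ R) (hR1 : R ≤ 1) (hNP : NPS E g R)
    (Φ : Q4 → ℂ) (hΦ : CmpB n E g Φ) (b : ℝ) (W : ℝ → ℝ → ℝ → ℂ) (hW : TS b W)
    (h0 : R < 1 ∨ ∀ y t, (∫ u, W y t u) = 0) :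
    Tendsto (fun X : ℝ => (∑ e ∈ SN n (b * X), Φ e * W (yS e / X) (tS e) (uS e)) / X) atTop (nhds 0) := by
  classical
  obtain ⟨κ, hκ, htr⟩ := trB n hn
  obtain ⟨R1, hR1pos, hbox⟩ := box hW.supp
  simp only at hbox
  rw [Metric.tendsto_atTop]
  intro ε hε
  set Ψ : Finset ℕ → ℝ → ℝ → ℝ → ℝ := fun D y t u => ‖cs g (fun u => W y t u) D u‖ with hΨ
  have hΨc : ∀ D, Continuous (fun v : ℝ × ℝ × ℝ => Ψ D v.1 v.2.1 v.2.2) := by
    intro D
    rw [hΨ]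
    simp only
    unfold cs
    refine continuous_norm.comp (continuous_finsetSum _ fun a _ => continuous_const.mul ?_)
    exact hW.cont.comp (f := fun v : ℝ × ℝ × ℝ => (v.1, v.2.1, v.2.2 - 2 * lg a)) (by fun_prop)
  have hΨs : ∀ D, ∃ R2 : ℝ, ∀ y t u, Ψ D y t u ≠ 0 → |y| ≤ R2 ∧ |t| ≤ R2 ∧ |u| ≤ R2 := by
    intro D
    obtain ⟨L, hL0, hL⟩ := lg_bd D
    refine ⟨R1 + L, fun y t u h => ?_⟩
    obtain ⟨s, hs, hst⟩ := cs_ne hL h
    obtain ⟨h1, h2, h3⟩ := hbox y t s hs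
    exact ⟨by linarith, by linarith, by linarith⟩
  have hΨ0 : ∀ D y t u, (∀ s, W y t s = 0) → Ψ D y t u = 0 := by
    intro D y t u h
    rw [hΨ]
    simp only
    unfold cs
    rw [sum_eq_zero, norm_zero]
    intro a _
    simp only [h, mul_zero]
  have hTR : ∀ D, TR b (Ψ D) := by
    intro D
    obtain ⟨R2, hR2⟩ := hΨs D
    refine ⟨hΨc D, hcs3 _ R2 (fun y t u h => hR2 y t u h), ?_, ?_⟩
    · intro y t u hy
      exact hΨ0 D y t u fun s => hW.lo y t s hy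
    · intro y t u hy
      exact hΨ0 D y t u fun s => hW.hi y t s hy
  obtain ⟨T, hT⟩ := limT E g hg1 R hR0 hR1 hNP (fun v u => W v.1 v.2 u)
    (hW.cont.comp (f := fun w : (ℝ × ℝ) × ℝ => (w.1.1, w.1.2, w.2)) (by fun_prop)) R1
    (fun y t u h => hbox y t u h) (h0.imp id fun h v => h v.1 v.2) κ ε hε
  have ht := htr E hE T Ψ b hTR
  have hsum : ∑ D ∈ (PP E T).powerset, PrS E T D * ∫ y, ∫ t, ∫ u, Ψ D y t u =
      ∑ D ∈ (PP E T).powerset, PrS E T D * ∫ v : ℝ × ℝ, ∫ u, ‖cs g (fun u => W v.1 v.2 u) D u‖ := by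
    refine sum_congr rfl fun D _ => ?_
    obtain ⟨R2, hR2⟩ := hΨs D
    rw [ord_B (Ψ D) (hΨc D) R2 hR2]
  rw [hsum] at ht
  obtain ⟨X0, hX0⟩ := eventually_atTop.1 (ht.eventually (gt_mem_nhds hT))
  refine ⟨max X0 1, fun X hX => ?_⟩
  have hX1 : X0 ≤ X := (le_max_left _ _).trans hX
  have hX2 : 0 < X := lt_of_lt_of_le one_pos ((le_max_right _ _).trans hX)
  have h3 := hX0 X hX1
  rw [dist_zero_right, norm_div, Complex.norm_real, Real.norm_eq_abs, abs_of_pos hX2]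
  refine lt_of_le_of_lt ?_ h3
  refine div_le_div_of_nonneg_right ?_ hX2.le
  have h4 := cluB n hn E hE g Φ hΦ T (b * X) (fun y t u => W (y / X) t u)
  rw [h4]
  refine (norm_sum_le _ _).trans (sum_le_sum fun e _ => ?_)
  rw [norm_mul]
  exact mul_le_of_le_one_left (norm_nonneg _) (hΦ.bd e)

end Pool.Agent.Spl
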