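import Pool.Agent.Lib_MP_92ef0c_sp.MertS
import Pool.Agent.Lib_MP_f1a94e_eq.Np

/-!
# Prime sums of characters near the line 1
-/

set_option autoImplicit false

namespace Pool.Agent.Spl

open Finset Pool.Agent.GaussMR Pool.Agent.OmAll Pool.Agent.OmEq

namespace NpSP

open Pool.Agent.OmEq.NpP ZEuler

/-- the two bounds at once, `e` the multiplicity of the pole -/
theorem aux (N : ℕ) [NeZero N] (χ : DirichletCharacter ℂ N) (ω : ℂ) (hω : ‖ω‖ = 1) (E : Finset ℕ) :
    NPS E (fun p => ω * χ ((p : ZMod N))) ((if χ = 1 then (1 : ℝ) else 0) * max 0 ω.re) := by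
  classical
  intro B hB
  obtain ⟨C0, hC0⟩ := scut
  obtain ⟨C1, hC1⟩ := charSum N χ (2 * B) (by linarith)
  refine ⟨C0 + (E.card : ℝ) + C1 + 2 * Real.log (1 + 2 * B), ?_⟩
  intro T hT τ hτ0 hτB
  have hL := ZSm.one_le_logT hT
  set δ : ℝ := 1 / Real.log T with hδdef
  have hδ : 0 < δ := by positivity
  have hδ1 : δ ≤ 1 := by
    rw [hδdef, div_le_one (by linarith)]
    exact hL
  -- the function
  set f : ℕ → ℝ := fun p => (ω * χ ((p : ZMod N)) *
    Complex.exp (-(2 * τ * Real.log p : ℝ) * Complex.I)).re with hf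
  have hf1 : ∀ p, |f p| ≤ 1 := by
    intro p
    refine (Complex.abs_re_le_norm _).trans ?_
    have hexp : ‖Complex.exp (-(2 * τ * Real.log p : ℝ) * Complex.I)‖ = 1 := by
      have : (-(2 * τ * Real.log p : ℝ) * Complex.I : ℂ) =
        ((-(2 * τ * Real.log p) : ℝ) : ℂ) * Complex.I := by push_cast; ring
      rw [this, Complex.norm_exp_ofReal_mul_I]
    rw [norm_mul, norm_mul, hω, hexp, one_mul, mul_one]
    exact χ.norm_le_one _
  obtain ⟨-, hcut⟩ := hC0 T hT f hf1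
  rw [← hδdef] at hcut
  -- the primes of `E`
  have hE : ∑ p ∈ PP E T, f p / p ≤ ∑ p ∈ PP ∅ T, f p / p + (E.card : ℝ) := by
    have hsub : PP E T ⊆ PP ∅ T := by
      intro p hp
      rw [mem_PP] at hp ⊢
      exact ⟨hp.1, hp.2.1, by simp⟩
    have h1 : ∑ p ∈ PP ∅ T \ PP E T, f p / (p : ℝ) + ∑ p ∈ PP E T, f p / (p : ℝ) =
        ∑ p ∈ PP ∅ T, f p / (p : ℝ) := sum_sdiff hsub
    have h2 : -(E.card : ℝ) ≤ ∑ p ∈ PP ∅ T \ PP E T, f p / (p : ℝ) := by
      have h3 : |∑ p ∈ PP ∅ T \ PP E T, f p / (p : ℝ)| ≤ (E.card : ℝ) := by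
        calc |∑ p ∈ PP ∅ T \ PP E T, f p / (p : ℝ)|
            ≤ ∑ p ∈ PP ∅ T \ PP E T, |f p / (p : ℝ)| := abs_sum_le_sum_abs _ _
          _ ≤ ∑ p ∈ PP ∅ T \ PP E T, (1 : ℝ) := by
              refine sum_le_sum fun p hp => ?_
              have hp2 := (mem_PP.mp (mem_sdiff.mp hp).1).2.1.two_le
              have hp1 : (1 : ℝ) ≤ p := by exact_mod_cast (by omega : 1 ≤ p)
              rw [abs_div, abs_of_pos (by linarith : (0 : ℝ) < p), div_le_one (by linarith)]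
              exact (hf1 p).trans hp1
          _ = ((PP ∅ T \ PP E T).card : ℝ) := by simp
          _ ≤ (E.card : ℝ) := by
              have : PP ∅ T \ PP E T ⊆ E := by
                intro p hp
                rw [mem_sdiff, mem_PP, mem_PP] at hp
                by_contra hc
                exact hp.2 ⟨hp.1.1, hp.1.2.1, hc⟩
              exact_mod_cast card_le_card this
      exact (abs_le.mp h3).1
    linarith
  -- as a sum over primes
  set a : Nat.Primes → ℂ := fun p => (ω * χ (((p : ℕ) : ZMod N))) *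
    ((p : ℕ) : ℂ) ^ (-((1 + δ : ℝ) + ((2 * τ : ℝ) : ℂ) * Complex.I)) with ha
  have hac : ∀ p : Nat.Primes, ‖ω * χ (((p : ℕ) : ZMod N))‖ ≤ 1 := by
    intro p
    rw [norm_mul, hω, one_mul]
    exact χ.norm_le_one _
  have hsa : Summable a := summ _ hac hδ (2 * τ)
  have hST : ∑' p : ℕ, (if p.Prime then f p / (p : ℝ) ^ (1 + δ) else 0) =
      (∑' p, a p).re := by
    rw [Complex.re_tsum hsa]
    rw [tsum_ite (fun p : ℕ => f p / (p : ℝ) ^ (1 + δ))]
    refine tsum_congr fun p => ?_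
    rw [ha]
    simp only
    exact f_eq p p.2.pos _ δ τ
  -- the character sum
  set P1 := ∑' p : Nat.Primes, χ (((p : ℕ) : ZMod N)) *
    ((p : ℕ) : ℂ) ^ (-((1 + δ : ℝ) + ((2 * τ : ℝ) : ℂ) * Complex.I)) with hP1
  have hasum : ∑' p, a p = ω * P1 := by
    rw [hP1, ← tsum_mul_left]
    refine tsum_congr fun p => ?_
    rw [ha]
    simp only
    ring
  have hτ2 : |2 * τ| ≤ 2 * B := by
    rw [abs_mul, abs_two]
    linarith
  set Lg := Real.log (1 / ‖(δ : ℂ) + ((2 * τ : ℝ) : ℂ) * Complex.I‖) with hLg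
  have k1 := hC1 δ (2 * τ) hδ hδ1 hτ2
  rw [← hP1, ← hLg] at k1
  set e1 : ℝ := if χ = 1 then (1 : ℝ) else 0 with he1
  have hmain : (ω * P1).re ≤ ω.re * (e1 * Lg) + C1 := by
    have h1 : ω * P1 = (((e1 * Lg) : ℝ) : ℂ) * ω + ω * (P1 - ((e1 * Lg : ℝ) : ℂ)) := by
      ring
    rw [h1, Complex.add_re, Complex.re_ofReal_mul]
    have h2 : (ω * (P1 - ((e1 * Lg : ℝ) : ℂ))).re ≤ C1 := by
      refine (Complex.re_le_norm _).trans ?_
      rw [norm_mul, hω, one_mul]
      exact k1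
    linarith
  have hpole : ω.re * (e1 * Lg) ≤ e1 * max 0 ω.re * max 0 (Real.log (1 / |τ|)) +
      2 * Real.log (1 + 2 * B) := by
    have hlogB : 0 ≤ Real.log (1 + 2 * B) := Real.log_nonneg (by linarith)
    by_cases h1 : χ = 1
    · have h2 : e1 = 1 := by rw [he1, if_pos h1]
      have h3 := log_pole hω hB hδ hδ1 hτ0 hτB (e := e1) (Or.inr h2)
      rw [← hLg, h2] at h3
      rw [h2]
      linarith
    · have h2 : e1 = 0 := by rw [he1, if_neg h1]
      rw [h2, zero_mul, mul_zero, zero_mul, zero_mul]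
      linarith
  have hcut' := (abs_le.mp hcut).2
  rw [hST, hasum] at hcut'
  have hfin : ∑ p ∈ PP E T, f p / p ≤ e1 * max 0 ω.re * max 0 (Real.log (1 / |τ|)) +
      (C0 + (E.card : ℝ) + C1 + 2 * Real.log (1 + 2 * B)) := by
    linarith
  exact hfin

end NpSP

/-- PROOF. Simpler version of `npChi`, `npZ` (`Lib_MP_f1a94e_eq/Np.lean`, `NpZ.lean`), all primes instead of the primes `1 mod 4`. `scut` with `f p = Re (ω χ(p) exp (-2 i τ log p))` replaces the sum over `PP ∅ T` by `∑'_p f(p) p^(-1-δ)`, `δ = 1/log T`; the primes of `E` contribute at most `#E`. It is `Re (ω P)`, `P = ∑'_p χ(p) p^(-(1 + δ + 2 i τ))`.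
If `χ ≠ 1`: bounded (`npN`). If `χ = 1`: up to the finitely many primes dividing `N`, `P = log (1/|δ + 2 i τ|) + O(1)` (`npT`), real up to `O(1)`, so `Re (ω P) ≤ max 0 (Re ω) max 0 (log (1/|τ|)) + C` (`|δ + 2 i τ| ≥ |τ|`, and `log (1/|δ+2iτ|) ≥ - C` for `|τ| ≤ B`). -/
theorem npS (N : ℕ) [NeZero N] (χ : DirichletCharacter ℂ N) (ω : ℂ) (hω : ‖ω‖ = 1) (E : Finset ℕ) :
    NPS E (fun p => ω * χ ((p : ZMod N))) (max 0 ω.re) ∧ (χ ≠ 1 → NPS E (fun p => ω * χ ((p : ZMod N))) 0) := by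
  have h := NpSP.aux N χ ω hω E
  refine ⟨?_, fun h1 => ?_⟩
  · intro B hB
    obtain ⟨C, hC⟩ := h B hB
    refine ⟨C, fun T hT τ hτ0 hτB => (hC T hT τ hτ0 hτB).trans ?_⟩
    have h0 : (0 : ℝ) ≤ max 0 ω.re * max 0 (Real.log (1 / |τ|)) := by positivity
    split_ifs
    · rw [one_mul]
    · rw [zero_mul, zero_mul]
      linarith
  · rw [if_neg h1, zero_mul] at h
    exact h

end Pool.Agent.Spl
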