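import Pool.Agent.Lib_MP_92ef0c_sp.TDefs
import Pool.Agent.Lib_MP_92ef0c_sp.Ctw3
import Pool.Agent.Lib_MP_92ef0c_sp.NpS

/-!
# Moves between `b` and `c` with residue classes
-/

set_option autoImplicit false

namespace Pool.Agent.Spl

open Finset Pool.Agent.GaussMR Pool.Agent.OmAll Pool.Agent.OmEq MeasureTheory Filter

namespace PsiBP

/-- the component of `ψ` that is multiplied by `χ w` under `(x2, x3) ↦ (w x2, w⁻¹ x3)` -/
noncomputable def psB (M : ℕ) [NeZero M] (ψ : ZMod M → ZMod M → ZMod M → ZMod M → ℂ) (χ : DirichletCharacter ℂ M)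
    (x1 x2 x3 x4 : ZMod M) : ℂ :=
  (M.totient : ℂ)⁻¹ * ∑ v : (ZMod M)ˣ, χ⁻¹ (v : ZMod M) * ψ x1 ((v : ZMod M) * x2) (((v⁻¹ : (ZMod M)ˣ) : ZMod M) * x3) x4

theorem psB_sum (M : ℕ) [NeZero M] (ψ : ZMod M → ZMod M → ZMod M → ZMod M → ℂ) (x1 x2 x3 x4 : ZMod M) :
    ∑ χ : DirichletCharacter ℂ M, psB M ψ χ x1 x2 x3 x4 = ψ x1 x2 x3 x4 := by
  have hφ : ((M.totient : ℕ) : ℂ) ≠ 0 := by
    exact_mod_cast (Nat.totient_pos.2 (Nat.pos_of_ne_zero (NeZero.ne M))).ne'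
  unfold psB
  rw [← mul_sum, sum_comm]
  have h1 : ∀ v : (ZMod M)ˣ, ∑ χ : DirichletCharacter ℂ M, χ⁻¹ (v : ZMod M) *
      ψ x1 ((v : ZMod M) * x2) (((v⁻¹ : (ZMod M)ˣ) : ZMod M) * x3) x4 =
      if v = 1 then (M.totient : ℂ) * ψ x1 x2 x3 x4 else 0 := by
    intro v
    rw [← sum_mul]
    have h2 : ∑ χ : DirichletCharacter ℂ M, χ⁻¹ (v : ZMod M) =
        ∑ χ : DirichletCharacter ℂ M, χ (v : ZMod M) :=
      Equiv.sum_comp (Equiv.inv (DirichletCharacter ℂ M)) (fun χ => χ (v : ZMod M))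
    rw [h2, DirichletCharacter.sum_characters_eq]
    by_cases hv : v = 1
    · subst hv
      simp
    · rw [if_neg hv, if_neg, zero_mul]
      intro h
      exact hv (Units.ext (by simpa using h))
  rw [sum_congr rfl (fun v _ => h1 v), sum_ite_eq' univ (1 : (ZMod M)ˣ), if_pos (mem_univ _),
    inv_mul_cancel_left₀ hφ]

theorem psB_mul (M : ℕ) [NeZero M] (ψ : ZMod M → ZMod M → ZMod M → ZMod M → ℂ) (χ : DirichletCharacter ℂ M) (w : (ZMod M)ˣ)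
    (x1 x2 x3 x4 : ZMod M) :
    psB M ψ χ x1 ((w : ZMod M) * x2) (((w⁻¹ : (ZMod M)ˣ) : ZMod M) * x3) x4 = χ (w : ZMod M) * psB M ψ χ x1 x2 x3 x4 := by
  unfold psB
  rw [mul_left_comm]
  congr 1
  rw [← Equiv.sum_comp (Equiv.mulRight w) (fun v : (ZMod M)ˣ => χ⁻¹ (v : ZMod M) *
    ψ x1 ((v : ZMod M) * x2) (((v⁻¹ : (ZMod M)ˣ) : ZMod M) * x3) x4), mul_sum]
  refine sum_congr rfl fun v _ => ?_
  rw [Equiv.coe_mulRight]
  have h1 : χ⁻¹ ((v * w : (ZMod M)ˣ) : ZMod M) = χ⁻¹ (v : ZMod M) * χ⁻¹ (w : ZMod M) := by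
    rw [Units.val_mul, map_mul]
  have h2 : χ (w : ZMod M) * χ⁻¹ (w : ZMod M) = 1 := by
    have h3 : (χ * χ⁻¹) (w : ZMod M) = 1 := by
      rw [mul_inv_cancel, MulChar.one_apply_coe]
    rwa [MulChar.mul_apply] at h3
  rw [h1, Units.val_mul, mul_inv_rev, Units.val_mul]
  have h4 : (v : ZMod M) * (w : ZMod M) * x2 = (v : ZMod M) * ((w : ZMod M) * x2) := mul_assoc _ _ _
  have h5 : ((w⁻¹ : (ZMod M)ˣ) : ZMod M) * ((v⁻¹ : (ZMod M)ˣ) : ZMod M) * x3 =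
      ((v⁻¹ : (ZMod M)ˣ) : ZMod M) * (((w⁻¹ : (ZMod M)ˣ) : ZMod M) * x3) := by ring
  rw [h4, h5]
  linear_combination (-(χ⁻¹ (v : ZMod M) * ψ x1 ((v : ZMod M) * ((w : ZMod M) * x2))
    (((v⁻¹ : (ZMod M)ˣ) : ZMod M) * (((w⁻¹ : (ZMod M)ˣ) : ZMod M) * x3)) x4)) * h2

theorem psB_le (M : ℕ) [NeZero M] (ψ : ZMod M → ZMod M → ZMod M → ZMod M → ℂ) (hψ : ∀ x1 x2 x3 x4, ‖ψ x1 x2 x3 x4‖ ≤ 1)
    (χ : DirichletCharacter ℂ M) (x1 x2 x3 x4 : ZMod M) : ‖psB M ψ χ x1 x2 x3 x4‖ ≤ 1 := by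
  have hφ : (0 : ℝ) < (M.totient : ℝ) := by
    exact_mod_cast (Nat.totient_pos.2 (Nat.pos_of_ne_zero (NeZero.ne M)))
  unfold psB
  rw [norm_mul, norm_inv, Complex.norm_natCast, inv_mul_le_iff₀ hφ, mul_one]
  refine (norm_sum_le _ _).trans ?_
  calc ∑ v : (ZMod M)ˣ, ‖χ⁻¹ (v : ZMod M) * ψ x1 ((v : ZMod M) * x2) (((v⁻¹ : (ZMod M)ˣ) : ZMod M) * x3) x4‖
      ≤ ∑ v : (ZMod M)ˣ, (1 : ℝ) := by
        refine sum_le_sum fun v _ => ?_
        rw [norm_mul]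
        exact mul_le_one₀ (χ⁻¹.norm_le_one _) (norm_nonneg _) (hψ _ _ _ _)
    _ = (M.totient : ℝ) := by
        rw [sum_const, card_univ, ZMod.card_units_eq_totient, nsmul_eq_mul, mul_one]

theorem re_lt {ω : ℂ} (hω : ‖ω‖ = 1) (h : ω ≠ 1) : ω.re < 1 := by
  refine lt_of_le_of_ne ((Complex.re_le_norm ω).trans hω.le) fun h1 => h ?_
  have h2 : ω.re ^ 2 + ω.im ^ 2 = 1 := by
    have := Complex.sq_norm ω
    rw [hω, Complex.normSq_apply] at this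
    nlinarith
  have h3 : ω.im = 0 := by
    have : ω.im ^ 2 = 0 := by
      rw [h1] at h2
      linarith
    exact pow_eq_zero_iff (two_ne_zero) |>.1 this
  exact Complex.ext (by simpa using h1) (by simpa using h3)

end PsiBP

open PsiBP in
/-- PROOF. As `pairA` (`PsiA.lean`) with `ctwB`: put `psB M ψ χ x1 x2 x3 x4 = (1/φ(M)) ∑_v χ⁻¹(v) ψ x1 (v x2) (v⁻¹ x3) x4`, `∑_χ psB = ψ`, `psB χ x1 (w x2) (w⁻¹ x3) x4 = χ(w) psB χ x1 x2 x3 x4`, `‖psB‖ ≤ 1`. For a prime `p ∉ E ∪ M.primeFactors`: `Φ = F4 f1 f2 f3 f4 * cz (psB ψ χ)` satisfies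
`Φ ⟨a, p b, c, d⟩ = ω2 conj ω3 χ(p) Φ ⟨a, b, p c, d⟩`. -/
theorem pairB (n M : ℕ) [NeZero M] (hn : 0 < n) (hnM : n.primeFactors ⊆ M.primeFactors) (E : Finset ℕ)
    (f1 f2 f3 f4 : ℕ → ℂ) (ω2 ω3 : ℂ) (h1 : ∀ m, ‖f1 m‖ ≤ 1) (h2 : MF f2 E ω2) (h3 : MF f3 E ω3) (h4 : ∀ m, ‖f4 m‖ ≤ 1)
    (hω2 : ‖ω2‖ = 1) (hω3 : ‖ω3‖ = 1) (ψ : ZMod M → ZMod M → ZMod M → ZMod M → ℂ)
    (hψ : ∀ x1 x2 x3 x4, ‖ψ x1 x2 x3 x4‖ ≤ 1) (b : ℝ) (W : ℝ → ℝ → ℝ → ℂ) (hW : TS b W)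
    (h0 : ω2 * (starRingEnd ℂ) ω3 ≠ 1 ∨ ∀ y t, (∫ u, W y t u) = 0) :
    Tendsto (fun X : ℝ => (∑ e ∈ SN n (b * X), F4 f1 f2 f3 f4 e * cz M ψ e * W (yS e / X) (tS e) (uS e)) / X)
      atTop (nhds 0) := by
  classical
  set ω : ℂ := ω2 * (starRingEnd ℂ) ω3 with hωdef
  have hω : ‖ω‖ = 1 := by rw [hωdef, norm_mul, RCLike.norm_conj, hω2, hω3, one_mul]
  have hω33 : (starRingEnd ℂ) ω3 * ω3 = 1 := by
    rw [mul_comm, Complex.mul_conj, Complex.normSq_eq_norm_sq, hω3]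
    norm_num
  have key : ∀ χ : DirichletCharacter ℂ M,
      Tendsto (fun X : ℝ => (∑ e ∈ SN n (b * X), (F4 f1 f2 f3 f4 e * cz M (psB M ψ χ) e) *
        W (yS e / X) (tS e) (uS e)) / X) atTop (nhds 0) := by
    intro χ
    refine ctwB n hn (E ∪ M.primeFactors) (hnM.trans subset_union_right) (fun p => ω * χ ((p : ZMod M))) ?_
      (max 0 ω.re) (le_max_left _ _) (max_le zero_le_one ((Complex.re_le_norm ω).trans hω.le))
      (npS M χ ω hω (E ∪ M.primeFactors)).1 (fun e => F4 f1 f2 f3 f4 e * cz M (psB M ψ χ) e) ?_ b W hW ?_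
    · intro p hp hpE
      have hpM : ¬ p ∣ M := fun h => hpE (mem_union_right _ (Nat.mem_primeFactors.2 ⟨hp, h, NeZero.ne M⟩))
      have hu : p.Coprime M := (Nat.Prime.coprime_iff_not_dvd hp).2 hpM
      rw [norm_mul, hω, one_mul, ← ZMod.coe_unitOfCoprime p hu]
      exact χ.unit_norm_eq_one _
    · refine ⟨fun e => ?_, ?_⟩
      · rw [norm_mul]
        exact mul_le_one₀ (norm_F4_le h1 h2.bd h3.bd h4 e) (norm_nonneg _) (psB_le M ψ hψ χ _ _ _ _)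
      · intro p a b' c d hp hpE _ _
        have hpM : ¬ p ∣ M := fun h => hpE (mem_union_right _ (Nat.mem_primeFactors.2 ⟨hp, h, NeZero.ne M⟩))
        have hpE' : p ∉ E := fun h => hpE (mem_union_left _ h)
        have hu : p.Coprime M := (Nat.Prime.coprime_iff_not_dvd hp).2 hpM
        set w : (ZMod M)ˣ := ZMod.unitOfCoprime p hu with hw
        have hwp : (w : ZMod M) = (p : ZMod M) := ZMod.coe_unitOfCoprime p hu
        have e1 : cz M (psB M ψ χ) ⟨a, p * b', c, d⟩ = χ (p : ZMod M) * cz M (psB M ψ χ) ⟨a, b', p * c, d⟩ := by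
          unfold cz
          simp only
          rw [Nat.cast_mul, Nat.cast_mul, ← hwp, ← psB_mul, Units.inv_mul_cancel_left]
        have e2 : F4 f1 f2 f3 f4 ⟨a, p * b', c, d⟩ = ω * F4 f1 f2 f3 f4 ⟨a, b', p * c, d⟩ := by
          unfold F4
          simp only
          rw [h2.mul, h3.mul, h2.pr p hp hpE', h3.pr p hp hpE', hωdef]
          linear_combination (-(f1 a * ω2 * f2 b' * f3 c * f4 d)) * hω33
        rw [e1, e2]
        ring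
    · rcases h0 with h0 | h0
      · exact Or.inl (max_lt one_pos (re_lt hω h0))
      · exact Or.inr h0
  have hsum := tendsto_finsetSum (univ : Finset (DirichletCharacter ℂ M)) (fun χ _ => key χ)
  rw [sum_const_zero] at hsum
  refine hsum.congr fun X => ?_
  rw [← sum_div, sum_comm]
  congr 1
  refine sum_congr rfl fun e _ => ?_
  rw [← sum_mul, ← mul_sum]
  congr 2
  unfold cz
  exact psB_sum M ψ _ _ _ _

end Pool.Agent.Spl
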