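import Pool.Agent.Lib_MP_92ef0c_sp.PsiA

/-!
# The classes of the correlations, their average
-/

set_option autoImplicit false

namespace Pool.Agent.Spl

open Finset Pool.Agent.GaussMR Pool.Agent.OmAll Pool.Agent.OmEq MeasureTheory Filter

open Classical in
/-- the indicator of `kap3` as a function of the class modulo `n Q` -/
noncomputable def psk (n Q n0 : ℕ) (x1 x2 x3 x4 : ZMod (n * Q)) : ℂ :=
  if kap3 n Q n0 ⟨x1.val, x2.val, x3.val, x4.val⟩ then 1 else 0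

theorem psk_le (n Q n0 : ℕ) (x1 x2 x3 x4 : ZMod (n * Q)) : ‖psk n Q n0 x1 x2 x3 x4‖ ≤ 1 := by
  unfold psk
  split_ifs <;> simp

open Classical in
/-- PROOF. `kap3` depends only on the classes of `a, b, c, d` modulo `n Q` (`ZMod.val_natCast`, `Nat.mod_modEq`, `Nat.ModEq.of_dvd`/`Nat.ModEq.of_mul_right`). -/
theorem cz_psk (n Q n0 : ℕ) (hn : 0 < n) (hQ : 0 < Q) (e : Q4) :
    cz (n * Q) (psk n Q n0) e = if kap3 n Q n0 e then 1 else 0 := by
  have key : kap3 n Q n0 ⟨(e.a : ZMod (n * Q)).val, (e.b : ZMod (n * Q)).val, (e.c : ZMod (n * Q)).val,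
      (e.d : ZMod (n * Q)).val⟩ ↔ kap3 n Q n0 e := by
    unfold kap3
    simp only [ZMod.val_natCast]
    have hm : ∀ x : ℕ, x % (n * Q) ≡ x [MOD n * Q] := fun x => Nat.mod_modEq x _
    have hm' : ∀ x : ℕ, x % (n * Q) ≡ x [MOD n] := fun x => (hm x).of_mul_right Q
    constructor
    · rintro ⟨h1, ⟨h2, h3⟩, h4⟩
      exact ⟨h1, ⟨(hm' _).symm.trans (h2.trans (hm' _)), (hm' _).symm.trans (h3.trans (hm' _))⟩,
        ((hm e.b).mul (hm e.c)).symm.trans (h4.trans (((hm e.d).mul (hm e.c)).add_right _))⟩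
    · rintro ⟨h1, ⟨h2, h3⟩, h4⟩
      exact ⟨h1, ⟨(hm' _).trans (h2.trans (hm' _).symm), (hm' _).trans (h3.trans (hm' _).symm)⟩,
        ((hm e.b).mul (hm e.c)).trans (h4.trans (((hm e.d).mul (hm e.c)).add_right _).symm)⟩
  unfold cz psk
  simp only [key]

/-- PROOF. Count the units `v` modulo `n Q` with `psk (v a) b c (v⁻¹ d) = 1`, `e = (a, b, c, d)`, `χ = 1`. Write `v` for a natural representative, `v'` for one of the inverse. The conditions are `v a ≡ c`, `b ≡ v' d mod n` (equivalently `v b ≡ d mod n`) and `b c ≡ v' d c + n n0 mod n Q`, equivalently (multiply by `v`) `v b c ≡ d c + v n n0 mod n Q`.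
As `a d = b c + n h0` and `(a, b) = (c, d) = 1` there is `λ`, coprime to `n`, unique modulo `n`, with `c ≡ λ a`, `d ≡ λ b mod n` (Bezout `r a + s b = 1`, `λ = r c + s d`). So the first two conditions say `v ≡ λ mod n`. Put `v = λ + n k`, `k` modulo `Q`; as `Q ∣ n`, `v` is coprime to `n Q` for every `k`. Third condition divided by `n`
(`λ b ≡ d mod n`): `((λ b - d)/n + k b) c ≡ (λ + n k) n0 ≡ λ n0 mod Q` (`Q ∣ n`), i.e. `k b c ≡ λ n0 - ((λ b - d)/n) c mod Q`: exactly one `k` modulo `Q` as `b c` is coprime to `Q`. So exactly one unit `v`, and the value is `1/φ(n Q)`; `φ(n Q) = Q φ(n)` for `Q ∣ n` (every prime divisor of `Q` divides `n`: `Nat.totient_mul_of_prime_of_dvd`,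
`Nat.totient_gcd_mul_totient_mul`, or `Nat.totient_eq_mul_prod_factors`). Work over `ℤ` where convenient. -/
theorem psk_one (n Q n0 h0 : ℕ) (hn : 0 < n) (hQ : 0 < Q) [NeZero (n * Q)] (hQn : Q ∣ n) (e : Q4) (he : Sn (n * h0) e)
    (hc : (e.b * e.c).Coprime Q) :
    cz (n * Q) (psA (n * Q) (psk n Q n0) 1) e = ((1 / (Q * n.totient) : ℝ) : ℂ) := by
  classical
  obtain ⟨hdet, ha, hb, hc0, hd, hab, hcd⟩ := he
  have hex : ∃! v : (ZMod (n * Q))ˣ, kap3 n Q n0 ⟨(v : ZMod (n * Q)).val * e.a, e.b, e.c,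
      ((v⁻¹ : (ZMod (n * Q))ˣ) : ZMod (n * Q)).val * e.d⟩ := by
    obtain ⟨r, s, hrs⟩ : IsCoprime (e.a : ℤ) (e.b : ℤ) := Nat.isCoprime_iff_coprime.2 hab
    obtain ⟨u, w, huw⟩ : IsCoprime (e.c : ℤ) (e.d : ℤ) := Nat.isCoprime_iff_coprime.2 hcd
    obtain ⟨x, y, hxy⟩ : IsCoprime ((e.b * e.c : ℕ) : ℤ) (Q : ℤ) := Nat.isCoprime_iff_coprime.2 hc
    obtain ⟨q, hq⟩ : (Q : ℤ) ∣ (n : ℤ) := by exact_mod_cast hQn
    have hdetZ : (e.a : ℤ) * e.d = e.b * e.c + n * h0 := by exact_mod_cast hdet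
    obtain ⟨lam, hlam⟩ : ∃ lam : ℤ, lam = r * e.c + s * e.d := ⟨_, rfl⟩
    have hla : lam * e.a = e.c + n * (s * h0) := by
      rw [hlam]; linear_combination (e.c : ℤ) * hrs + s * hdetZ
    have hlb : lam * e.b = e.d - n * (r * h0) := by
      rw [hlam]; linear_combination (e.d : ℤ) * hrs - r * hdetZ
    have hlc : IsCoprime lam (n : ℤ) :=
      ⟨u * e.a + w * e.b, h0 * (w * r - u * s), by linear_combination huw + u * hla + w * hlb⟩
    have hchar : ∀ v : (ZMod (n * Q))ˣ, kap3 n Q n0 ⟨(v : ZMod (n * Q)).val * e.a, e.b, e.c,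
        ((v⁻¹ : (ZMod (n * Q))ˣ) : ZMod (n * Q)).val * e.d⟩ ↔
        ((n : ℤ) ∣ ((v : ZMod (n * Q)).val : ℤ) - lam ∧ (n : ℤ) * Q ∣ ((v : ZMod (n * Q)).val : ℤ) * e.b * e.c -
          e.d * e.c - ((v : ZMod (n * Q)).val : ℤ) * n * n0) := by
      intro v
      obtain ⟨V, hV⟩ : ∃ V : ℕ, V = (v : ZMod (n * Q)).val := ⟨_, rfl⟩
      obtain ⟨V', hV'⟩ : ∃ V' : ℕ, V' = ((v⁻¹ : (ZMod (n * Q))ˣ) : ZMod (n * Q)).val := ⟨_, rfl⟩
      rw [← hV, ← hV']
      have hVV : ((n * Q : ℕ) : ℤ) ∣ (V : ℤ) * V' - 1 := by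
        rw [← ZMod.intCast_zmod_eq_zero_iff_dvd]
        push_cast
        rw [hV, hV', ZMod.natCast_zmod_val, ZMod.natCast_zmod_val, Units.mul_inv, sub_self]
      rw [Nat.cast_mul] at hVV
      obtain ⟨z, hz⟩ := hVV
      unfold kap3
      simp only [Nat.modEq_iff_dvd]
      push_cast
      constructor
      · rintro ⟨-, ⟨⟨z1, h1⟩, ⟨z2, h2⟩⟩, ⟨z3, h3⟩⟩
        refine ⟨⟨-(r * z1) - s * V * z2 + s * Q * z * e.d, ?_⟩, ⟨-(V * z3) + z * e.d * e.c, ?_⟩⟩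
        · rw [hlam]
          linear_combination -(V : ℤ) * hrs - r * h1 - s * V * h2 + s * e.d * hz
        · linear_combination -(V : ℤ) * h3 + (e.d : ℤ) * e.c * hz
      · rintro ⟨⟨z1, h1⟩, ⟨z2, h2⟩⟩
        refine ⟨hQn, ⟨⟨-(z1 * e.a) - s * h0, ?_⟩, ⟨-(V' * z1 * e.b) + V' * r * h0 + Q * z * e.b, ?_⟩⟩,
          ⟨-(V' * z2) + z * e.b * e.c - z * n * n0, ?_⟩⟩
        · linear_combination -(e.a : ℤ) * h1 - hla
        · linear_combination -(V' : ℤ) * e.b * h1 - V' * hlb + (e.b : ℤ) * hz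
        · linear_combination -(V' : ℤ) * h2 + ((e.b : ℤ) * e.c - n * n0) * hz
    -- existence
    obtain ⟨k, hk⟩ : ∃ k : ℤ, k = x * (lam * n0 + r * h0 * e.c) := ⟨_, rfl⟩
    obtain ⟨V0, hV0⟩ : ∃ V0 : ℤ, V0 = lam + n * k := ⟨_, rfl⟩
    have hco : IsCoprime ((n * Q : ℕ) : ℤ) V0 := by
      have h1 : IsCoprime (n : ℤ) V0 := by
        rw [hV0]
        exact hlc.symm.add_mul_left_right k
      have h2 : IsCoprime (Q : ℤ) V0 := h1.of_isCoprime_of_dvd_left ⟨q, hq⟩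
      rw [Nat.cast_mul]
      exact h1.mul_left h2
    obtain ⟨v0, hv0⟩ := (ZMod.coe_int_isUnit_iff_isCoprime V0 (n * Q)).2 hco
    have huniq : ∀ v v' : (ZMod (n * Q))ˣ, kap3 n Q n0 ⟨(v : ZMod (n * Q)).val * e.a, e.b, e.c,
        ((v⁻¹ : (ZMod (n * Q))ˣ) : ZMod (n * Q)).val * e.d⟩ → kap3 n Q n0 ⟨(v' : ZMod (n * Q)).val * e.a, e.b, e.c,
        ((v'⁻¹ : (ZMod (n * Q))ˣ) : ZMod (n * Q)).val * e.d⟩ → v = v' := by
      intro v v' h h'
      obtain ⟨⟨z1, h1⟩, ⟨z2, h2⟩⟩ := (hchar v).1 h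
      obtain ⟨⟨z1', h1'⟩, ⟨z2', h2'⟩⟩ := (hchar v').1 h'
      obtain ⟨V, hV⟩ : ∃ V : ℕ, V = (v : ZMod (n * Q)).val := ⟨_, rfl⟩
      obtain ⟨V', hV'⟩ : ∃ V' : ℕ, V' = (v' : ZMod (n * Q)).val := ⟨_, rfl⟩
      rw [← hV] at h1 h2
      rw [← hV'] at h1' h2'
      rw [Nat.cast_mul] at hxy
      have hn' : (n : ℤ) ≠ 0 := by exact_mod_cast hn.ne'
      have h3 : (z1 - z1') * ((e.b : ℤ) * e.c - n * n0) = Q * (z2 - z2') := by
        apply mul_left_cancel₀ hn'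
        linear_combination h2 - h2' - ((e.b : ℤ) * e.c - n * n0) * (h1 - h1')
      have h4 : (n : ℤ) * Q ∣ (V : ℤ) - V' := by
        refine ⟨x * (z2 - z2') + x * q * n0 * (z1 - z1') + y * (z1 - z1'), ?_⟩
        linear_combination h1 - h1' - (n : ℤ) * (z1 - z1') * hxy + (n : ℤ) * x * h3 +
          (n : ℤ) * x * (z1 - z1') * n0 * hq
      have h5 : (((V : ℤ) - V' : ℤ) : ZMod (n * Q)) = 0 := by
        rw [ZMod.intCast_zmod_eq_zero_iff_dvd, Nat.cast_mul]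
        exact h4
      push_cast at h5
      rw [hV, hV', ZMod.natCast_zmod_val, ZMod.natCast_zmod_val, sub_eq_zero] at h5
      exact Units.ext h5
    have hv0k : kap3 n Q n0 ⟨(v0 : ZMod (n * Q)).val * e.a, e.b, e.c,
          ((v0⁻¹ : (ZMod (n * Q))ˣ) : ZMod (n * Q)).val * e.d⟩ := by
      rw [hchar]
      obtain ⟨z, hz⟩ : ((n * Q : ℕ) : ℤ) ∣ ((v0 : ZMod (n * Q)).val : ℤ) - V0 := by
        rw [← ZMod.intCast_zmod_eq_zero_iff_dvd]
        push_cast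
        rw [ZMod.natCast_zmod_val, hv0, sub_self]
      rw [Nat.cast_mul] at hz
      rw [Nat.cast_mul] at hxy
      refine ⟨⟨Q * z + k, ?_⟩, ⟨z * (e.b * e.c - n * n0) - y * (lam * n0 + r * h0 * e.c) - q * k * n0, ?_⟩⟩
      · linear_combination hz + hV0
      · linear_combination ((e.b : ℤ) * e.c - n * n0) * hz + ((e.b : ℤ) * e.c - n * n0) * hV0 + (e.c : ℤ) * hlb +
          (n : ℤ) * e.b * e.c * hk + (n : ℤ) * (lam * n0 + r * h0 * e.c) * hxy - (n : ℤ) * k * n0 * hq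
    exact ⟨v0, hv0k, fun v hv => huniq v v0 hv hv0k⟩
  have hval : ∀ v : (ZMod (n * Q))ˣ, psk n Q n0 ((v : ZMod (n * Q)) * (e.a : ZMod (n * Q))) e.b e.c
      (((v⁻¹ : (ZMod (n * Q))ˣ) : ZMod (n * Q)) * (e.d : ZMod (n * Q))) =
      if kap3 n Q n0 ⟨(v : ZMod (n * Q)).val * e.a, e.b, e.c,
        ((v⁻¹ : (ZMod (n * Q))ˣ) : ZMod (n * Q)).val * e.d⟩ then 1 else 0 := by
    intro v
    rw [← cz_psk n Q n0 hn hQ]
    unfold cz
    simp only [Nat.cast_mul, ZMod.natCast_zmod_val]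
  have hcard : (univ.filter (fun v : (ZMod (n * Q))ˣ => kap3 n Q n0 ⟨(v : ZMod (n * Q)).val * e.a, e.b, e.c,
        ((v⁻¹ : (ZMod (n * Q))ˣ) : ZMod (n * Q)).val * e.d⟩)).card = 1 := by
    obtain ⟨v0, h1, h2⟩ := hex
    rw [Finset.card_eq_one]
    refine ⟨v0, ?_⟩
    ext v
    rw [mem_filter, mem_singleton]
    constructor
    · rintro ⟨-, h⟩
      exact h2 v h
    · rintro rfl
      exact ⟨mem_univ _, h1⟩
  have htot : (n * Q).totient = Q * n.totient := by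
    have h1 := Nat.totient_gcd_mul_totient_mul n Q
    rw [Nat.gcd_eq_right hQn] at h1
    have h2 : 0 < Q.totient := Nat.totient_pos.2 hQ
    have h3 : Q.totient * (n * Q).totient = Q.totient * (Q * n.totient) := by
      rw [h1]; ring
    exact Nat.eq_of_mul_eq_mul_left h2 h3
  unfold cz psA
  simp only [hval, inv_one, MulChar.one_apply_coe, one_mul]
  rw [Finset.sum_boole, hcard, htot]
  push_cast
  rw [mul_one, one_div]

end Pool.Agent.Spl
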