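import Pool.Agent.Lib_MP_92ef0c_sp.Q4
import Pool.Agent.Lib_MP_f1a94e_mr.Defs

/-!
# MP_92ef0c_nt, split twin: matrices of fixed determinant
-/

set_option autoImplicit false

namespace Pool.Agent.GaussMR

end Pool.Agent.GaussMR

namespace Pool.Agent.OmAll

end Pool.Agent.OmAll

namespace Pool.Agent.OmEq

end Pool.Agent.OmEq

namespace Pool.Agent.Spl

open Finset

/-- matrices with positive entries, primitive rows and determinant `n` -/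
def Sn (n : ℕ) (e : Q4) : Prop :=
  e.a * e.d = e.b * e.c + n ∧ 0 < e.a ∧ 0 < e.b ∧ 0 < e.c ∧ 0 < e.d ∧ e.a.Coprime e.b ∧ e.c.Coprime e.d

/-- the product `b c` -/
def yS (e : Q4) : ℝ := (e.b : ℝ) * e.c

/-- `log (d / a)` -/
noncomputable def tS (e : Q4) : ℝ := Real.log e.d - Real.log e.a

/-- `log (c / b)` -/
noncomputable def uS (e : Q4) : ℝ := Real.log e.c - Real.log e.b

open Classical in
/-- the matrices of `Sn n` with `b c ≤ x` -/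
noncomputable def SN (n : ℕ) (x : ℝ) : Finset Q4 :=
  (((range (⌊x⌋₊ + n + 1) ×ˢ range (⌊x⌋₊ + n + 1)) ×ˢ (range (⌊x⌋₊ + n + 1) ×ˢ range (⌊x⌋₊ + n + 1))).image
    (fun w : (ℕ × ℕ) × (ℕ × ℕ) => (⟨w.1.1, w.1.2, w.2.1, w.2.2⟩ : Q4))).filter (fun e => Sn n e ∧ yS e ≤ x)

theorem mem_SN {n : ℕ} {x : ℝ} {e : Q4} : e ∈ SN n x ↔ Sn n e ∧ yS e ≤ x := by
  classical
  unfold SN
  rw [mem_filter, mem_image]
  refine ⟨fun h => h.2, fun h => ⟨?_, h⟩⟩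
  obtain ⟨⟨h1, h2, h3, h4, h5, -, -⟩, h6⟩ := h
  have h7 : e.b * e.c ≤ ⌊x⌋₊ := by
    apply Nat.le_floor
    unfold yS at h6
    push_cast
    exact h6
  have hb : e.b ≤ e.b * e.c := Nat.le_mul_of_pos_right _ h4
  have hc : e.c ≤ e.b * e.c := Nat.le_mul_of_pos_left _ h3
  have ha : e.a ≤ e.a * e.d := Nat.le_mul_of_pos_right _ h5
  have hd : e.d ≤ e.a * e.d := Nat.le_mul_of_pos_left _ h2
  refine ⟨((e.a, e.b), (e.c, e.d)), ?_, rfl⟩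
  simp only [mem_product, mem_range]
  omega

theorem yS_pos {n : ℕ} {e : Q4} (h : Sn n e) : 1 ≤ yS e := by
  unfold yS
  have h1 : 0 < e.b * e.c := Nat.mul_pos h.2.2.1 h.2.2.2.1
  have h2 : 1 ≤ e.b * e.c := h1
  exact_mod_cast h2

/-- completely multiplicative functions, bounded by 1, constant on the primes outside `E` -/
structure MF (f : ℕ → ℂ) (E : Finset ℕ) (ω : ℂ) : Prop where
  mul : ∀ m n, f (m * n) = f m * f n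
  bd : ∀ n, ‖f n‖ ≤ 1
  pr : ∀ p : ℕ, p.Prime → p ∉ E → f p = ω

/-! ### the interface of block M -/

/-- coprime pairs in a box -/
noncomputable def PB (C D : ℝ) : Finset (ℕ × ℕ) := ((Icc 1 ⌊C⌋₊) ×ˢ (Icc 1 ⌊D⌋₊)).filter (fun z => z.1.Coprime z.2)

/-- the direction of a pair -/
noncomputable def dirn (z : ℕ × ℕ) : ℝ := Real.log z.2 - Real.log z.1

open Classical in
/-- the sum over an arc and a residue class -/
noncomputable def Ss (f : ℕ → ℂ) (m : ℕ) (b : ℕ × ℕ) (C D δ τ : ℝ) : ℂ :=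
  ∑ z ∈ (PB C D).filter (fun z => (z.1 ≡ b.1 [MOD m] ∧ z.2 ≡ b.2 [MOD m]) ∧ τ ≤ dirn z ∧ dirn z < τ + δ),
    f z.1 * (starRingEnd ℂ) (f z.2)

/-- Matomaki-Radziwill in arcs for `f c * conj (f d)` -/
def MRS (f : ℕ → ℂ) : Prop :=
  ∀ m : ℕ, 0 < m → ∀ b : ℕ × ℕ, ∀ K : ℝ, 1 ≤ K → ∀ ε : ℝ, 0 < ε → ∃ H0 : ℝ, 0 < H0 ∧ ∀ H : ℝ, H0 ≤ H →
    ∃ X0 : ℝ, ∀ X : ℝ, X0 ≤ X →
    ∫ τ, ‖Ss f m b (Real.sqrt X) (K * Real.sqrt X) (H / X) τ‖ ^ 2 ≤ ε * H ^ 2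

theorem mem_PB {C D : ℝ} {z : ℕ × ℕ} : z ∈ PB C D ↔ (0 < z.1 ∧ (z.1 : ℝ) ≤ C) ∧ (0 < z.2 ∧ (z.2 : ℝ) ≤ D) ∧ z.1.Coprime z.2 := by
  unfold PB
  rw [mem_filter, mem_product, mem_Icc, mem_Icc]
  constructor
  · rintro ⟨⟨⟨h1, h2⟩, h3, h4⟩, h5⟩
    exact ⟨⟨h1, (Nat.le_floor_iff' (by omega)).1 h2⟩, ⟨h3, (Nat.le_floor_iff' (by omega)).1 h4⟩, h5⟩
  · rintro ⟨⟨h1, h2⟩, ⟨h3, h4⟩, h5⟩
    exact ⟨⟨⟨h1, Nat.le_floor h2⟩, h3, Nat.le_floor h4⟩, h5⟩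

theorem MF.conj {f : ℕ → ℂ} {E : Finset ℕ} {ω : ℂ} (h : MF f E ω) :
    MF (fun n => (starRingEnd ℂ) (f n)) E ((starRingEnd ℂ) ω) := by
  refine ⟨fun m n => ?_, fun n => ?_, fun p hp hE => ?_⟩
  · simp only [h.mul, map_mul]
  · simp only [RCLike.norm_conj]
    exact h.bd n
  · simp only [h.pr p hp hE]

end Pool.Agent.Spl
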