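import Mathlib

/-!
# MP_92ef0c_nt, split twin: four natural numbers
-/

set_option autoImplicit false

namespace Pool.Agent.Spl

/-- four natural numbers, the matrix `(a b; c d)` -/
@[ext]
structure Q4 where
  a : ℕ
  b : ℕ
  c : ℕ
  d : ℕ
  deriving DecidableEq

end Pool.Agent.Spl
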