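import Pool.Agent.Lib_MP_92ef0c_sp.TDefs

/-!
# Overlaps of arcs
-/

set_option autoImplicit false

namespace Pool.Agent.Spl

open Finset Pool.Agent.GaussMR Pool.Agent.OmAll Pool.Agent.OmEq MeasureTheory Filter

open Classical in
/-- the indicator of an arc as a function of its left end -/
private noncomputable def arci3J (δ s τ : ℝ) : ℝ := if τ ≤ s ∧ s < τ + δ then 1 else 0

private theorem arci3J_eq (δ s : ℝ) :
    arci3J δ s = (Set.Ioc (s - δ) s).indicator (fun _ => (1 : ℝ)) := by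
  classical
  funext τ
  unfold arci3J
  by_cases h : τ ≤ s ∧ s < τ + δ
  · rw [if_pos h, Set.indicator_of_mem]
    exact ⟨by linarith [h.2], h.1⟩
  · rw [if_neg h, Set.indicator_of_notMem]
    rintro ⟨h1, h2⟩
    exact h ⟨h2, by linarith⟩

private theorem arci3J_int (δ s : ℝ) : Integrable (arci3J δ s) := by
  rw [arci3J_eq, integrable_indicator_iff measurableSet_Ioc]
  exact integrableOn_const (by rw [Real.volume_Ioc]; exact ENNReal.ofReal_ne_top)

private theorem arci3J_meas (δ s : ℝ) : Measurable (arci3J δ s) := by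
  rw [arci3J_eq]
  exact measurable_const.indicator measurableSet_Ioc

private theorem arci3J_nonneg (δ s τ : ℝ) : 0 ≤ arci3J δ s τ := by
  classical
  unfold arci3J
  split_ifs <;> norm_num

private theorem arci3J_le (δ s τ : ℝ) : arci3J δ s τ ≤ 1 := by
  classical
  unfold arci3J
  split_ifs <;> norm_num

open Classical in
/-- PROOF. The integrand is the indicator of the intersection of `(s - δ, s]` and `(s' - (l+1) δ, s' - l δ]`, of length `max 0 (δ - |s' - s - l δ|)`. -/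
theorem arc_overlap3 (s s' δ : ℝ) (hδ : 0 < δ) (l : ℕ) :
    ∫ τ : ℝ, ((if τ ≤ s ∧ s < τ + δ then 1 else 0) * (if τ + l * δ ≤ s' ∧ s' < τ + l * δ + δ then 1 else 0) : ℝ) =
      δ * max 0 (1 - |(s' - s) / δ - l|) := by
  set a' := max (s - δ) (s' - (l + 1) * δ) with ha'
  set b' := min s (s' - l * δ) with hb'
  have hind : (fun τ : ℝ => ((if τ ≤ s ∧ s < τ + δ then 1 else 0) *
      (if τ + l * δ ≤ s' ∧ s' < τ + l * δ + δ then 1 else 0) : ℝ)) =
      (Set.Ioc a' b').indicator (fun _ => (1 : ℝ)) := by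
    funext τ
    by_cases c1 : τ ≤ s ∧ s < τ + δ
    · rw [if_pos c1, one_mul]
      by_cases c2 : τ + l * δ ≤ s' ∧ s' < τ + l * δ + δ
      · rw [if_pos c2, Set.indicator_of_mem]
        refine ⟨max_lt (by linarith [c1.2]) ?_, le_min c1.1 (by linarith [c2.1])⟩
        have := c2.2
        linarith
      · rw [if_neg c2, Set.indicator_of_notMem]
        rintro ⟨h1, h2⟩
        have h3 := (max_lt_iff.mp h1).2
        have h4 := (le_min_iff.mp h2).2
        exact c2 ⟨by linarith, by linarith⟩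
    · rw [if_neg c1, zero_mul, Set.indicator_of_notMem]
      rintro ⟨h1, h2⟩
      have h3 := (max_lt_iff.mp h1).1
      have h4 := (le_min_iff.mp h2).1
      exact c1 ⟨h4, by linarith⟩
  rw [hind, MeasureTheory.integral_indicator measurableSet_Ioc, MeasureTheory.setIntegral_const, smul_eq_mul,
    mul_one, Real.volume_real_Ioc]
  have e1 : δ * max 0 (1 - |(s' - s) / δ - l|) = max 0 (δ - |s' - s - l * δ|) := by
    rw [mul_max_of_nonneg _ _ hδ.le, mul_zero, mul_sub, mul_one]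
    congr 2
    have : s' - s - l * δ = δ * ((s' - s) / δ - l) := by field_simp
    rw [this, abs_mul, abs_of_pos hδ]
  rw [e1, max_comm]
  congr 1
  rw [ha', hb']
  have e2 : s' - (l + 1) * δ = (s - δ) + (s' - s - l * δ) := by ring
  have e3 : s' - l * δ = s + (s' - s - l * δ) := by ring
  rw [e2, e3]
  rcases le_total 0 (s' - s - l * δ) with h | h
  · rw [abs_of_nonneg h, min_eq_left (by linarith), max_eq_right (by linarith)]
    ring
  · rw [abs_of_nonpos h, min_eq_right (by linarith), max_eq_left (by linarith)]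
    ring

private theorem arci3_ov (s s' δ : ℝ) (hδ : 0 < δ) (l : ℕ) :
    ∫ τ : ℝ, arci3J δ s τ * arci3J δ s' (τ + l * δ) = δ * max 0 (1 - |(s' - s) / δ - l|) :=
  arc_overlap3 s s' δ hδ l

private theorem arci3_meas2 (s s' δ c : ℝ) :
    Measurable (fun τ : ℝ => arci3J δ s τ * arci3J δ s' (τ + c)) :=
  (arci3J_meas δ s).mul ((arci3J_meas δ s').comp (measurable_id.add_const c))

private theorem arci3_int2 (s s' δ c : ℝ) (φ : ℝ → ℝ) (hφm : Measurable φ) (B : ℝ) (hB : 0 ≤ B) (hφ : ∀ τ, arci3J δ s τ ≠ 0 → |φ τ| ≤ B) :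
    Integrable (fun τ : ℝ => arci3J δ s τ * arci3J δ s' (τ + c) * φ τ) := by
  refine ((arci3J_int δ s).mul_const B).mono' ((arci3_meas2 s s' δ c).mul hφm).aestronglyMeasurable
    (Filter.Eventually.of_forall (fun τ => ?_))
  rw [Real.norm_eq_abs, abs_mul, abs_mul, abs_of_nonneg (arci3J_nonneg δ s τ),
    abs_of_nonneg (arci3J_nonneg δ s' (τ + c))]
  by_cases h : arci3J δ s τ = 0
  · rw [h, zero_mul, zero_mul, zero_mul]
  · have h1 := hφ τ h
    have h2 := arci3J_nonneg δ s τ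
    have h3 := arci3J_le δ s' (τ + c)
    have h4 := arci3J_nonneg δ s' (τ + c)
    calc arci3J δ s τ * arci3J δ s' (τ + c) * |φ τ| ≤ arci3J δ s τ * 1 * B := by gcongr
      _ = arci3J δ s τ * B := by ring

private theorem arci3_term (s s' δ : ℝ) (hδ : 0 < δ) (l : ℕ) (φ : ℝ → ℝ) (hφm : Measurable φ) (L : ℝ) (hL : 0 ≤ L)
    (hφ : ∀ s t, |φ s - φ t| ≤ L * |s - t|) (hφ1 : ∀ s, |φ s| ≤ 1) :
    |(∫ τ : ℝ, arci3J δ s τ * arci3J δ s' (τ + l * δ) * φ τ) - φ s * (δ * max 0 (1 - |(s' - s) / δ - l|))| ≤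
      L * δ * (δ * max 0 (1 - |(s' - s) / δ - l|)) := by
  have i1 := arci3_int2 s s' δ (l * δ) φ hφm 1 zero_le_one (fun τ _ => hφ1 τ)
  have i2 := arci3_int2 s s' δ (l * δ) (fun _ => φ s) measurable_const 1 zero_le_one (fun _ _ => hφ1 s)
  have i3 := arci3_int2 s s' δ (l * δ) (fun _ => L * δ) measurable_const (L * δ) (by positivity)
    (fun _ _ => by rw [abs_of_nonneg (by positivity)])
  have e0 := arci3_ov s s' δ hδ l
  have e1 : φ s * (δ * max 0 (1 - |(s' - s) / δ - l|)) =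
      ∫ τ : ℝ, arci3J δ s τ * arci3J δ s' (τ + l * δ) * φ s := by
    rw [integral_mul_const, e0]
    ring
  have e2 : L * δ * (δ * max 0 (1 - |(s' - s) / δ - l|)) =
      ∫ τ : ℝ, arci3J δ s τ * arci3J δ s' (τ + l * δ) * (L * δ) := by
    rw [integral_mul_const, e0]
    ring
  rw [e1, e2, ← integral_sub i1 i2, ← Real.norm_eq_abs]
  refine norm_integral_le_of_norm_le i3 (Filter.Eventually.of_forall (fun τ => ?_))
  rw [← mul_sub, Real.norm_eq_abs, abs_mul, abs_mul, abs_of_nonneg (arci3J_nonneg δ s τ),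
    abs_of_nonneg (arci3J_nonneg δ s' (τ + l * δ))]
  by_cases h : arci3J δ s τ = 0
  · rw [h, zero_mul, zero_mul, zero_mul]
  · have h2 := arci3J_nonneg δ s τ
    have h4 := arci3J_nonneg δ s' (τ + l * δ)
    refine mul_le_mul_of_nonneg_left ?_ (mul_nonneg h2 h4)
    refine (hφ τ s).trans (mul_le_mul_of_nonneg_left ?_ hL)
    have h5 : τ ≤ s ∧ s < τ + δ := by
      by_contra h6
      apply h
      unfold arci3J
      exact if_neg h6
    rw [abs_le]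
    exact ⟨by linarith [h5.2], by linarith [h5.1]⟩

open Classical in
private theorem arci3_Ss (f : ℕ → ℂ) (m : ℕ) (b : ℕ × ℕ) (C D δ τ : ℝ) :
    Ss f m b C D δ τ = ∑ z ∈ (PB C D).filter (fun z => z.1 ≡ b.1 [MOD m] ∧ z.2 ≡ b.2 [MOD m]),
      F2 f z * ((arci3J δ (dirn z) τ : ℝ) : ℂ) := by
  unfold Ss
  rw [Finset.sum_filter, Finset.sum_filter]
  refine Finset.sum_congr rfl (fun z _ => ?_)
  unfold arci3J
  by_cases h1 : z.1 ≡ b.1 [MOD m] ∧ z.2 ≡ b.2 [MOD m]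
  · by_cases h : τ ≤ dirn z ∧ dirn z < τ + δ
    · rw [if_pos h1, if_pos h, if_pos ⟨h1, h⟩, Complex.ofReal_one, mul_one]
      rfl
    · rw [if_pos h1, if_neg h, if_neg (fun hh => h hh.2), Complex.ofReal_zero, mul_zero]
  · rw [if_neg h1, if_neg (fun hh => h1 hh.1)]

private theorem arci3_F2 (f : ℕ → ℂ) (hf : ∀ n, ‖f n‖ ≤ 1) (z : ℕ × ℕ) : ‖F2 f z‖ ≤ 1 := by
  unfold F2
  rw [norm_mul, norm_cj]
  exact mul_le_one₀ (hf _) (norm_nonneg _) (hf _)

private theorem arci3_max (s s' δ : ℝ) (hδ : 0 < δ) (l : ℕ) (h : ¬ |s' - s| ≤ (l + 1) * δ) :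
    max 0 (1 - |(s' - s) / δ - l|) = 0 := by
  push Not at h
  refine max_eq_left ?_
  have h1 : |s' - s| / δ = |(s' - s) / δ| := by rw [abs_div, abs_of_pos hδ]
  have h2 : (l : ℝ) + 1 < |s' - s| / δ := by
    rw [lt_div_iff₀ hδ]
    exact h
  have h3 : |(s' - s) / δ| ≤ |(s' - s) / δ - l| + |(l : ℝ)| := by
    have := abs_add_le ((s' - s) / δ - l) (l : ℝ)
    rwa [sub_add_cancel] at this
  rw [abs_of_nonneg (Nat.cast_nonneg l : (0 : ℝ) ≤ l)] at h3
  rw [h1] at h2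
  linarith

open Classical in
/-- PROOF. Expand `I = ∫ Ss f m b C D δ τ * conj (Ss f m b' C' D' δ (τ + l δ)) * φ τ dτ` (finite sums of indicators): it is the sum over `V, V'` of `F2 f V conj (F2 f V')` times the integral of `φ τ` against the integrand of `arc_overlap3` with `s = dirn V`, `s' = dirn V'`; there `|τ - s| ≤ δ`, so this integral differs from `φ (dirn V) δ max 0 (..)`
by at most `L δ * δ max 0 (..) ≤ L δ^2`, and both vanish unless `|dirn V' - dirn V| ≤ (l + 1) δ`. Cauchy-Schwarz for integrals, `|φ| ≤ 1` and translation invariance: `‖I‖ ≤ A`. Divide by `δ`. Compare `arc_bound` in `Lib_MP_f1a94e_eq/ArcI.lean`. -/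
theorem arc_bound3 (f : ℕ → ℂ) (hf : ∀ n, ‖f n‖ ≤ 1) (m : ℕ) (b b' : ℕ × ℕ) (C D C' D' δ A : ℝ) (hδ : 0 < δ) (l : ℕ)
    (φ : ℝ → ℝ) (L : ℝ) (hL : 0 ≤ L) (hφ : ∀ s t, |φ s - φ t| ≤ L * |s - t|) (hφ1 : ∀ s, |φ s| ≤ 1)
    (h1 : ∫ τ, ‖Ss f m b C D δ τ‖ ^ 2 ≤ A) (h2 : ∫ τ, ‖Ss f m b' C' D' δ τ‖ ^ 2 ≤ A) :
    ‖∑ V ∈ (PB C D).filter (fun z => z.1 ≡ b.1 [MOD m] ∧ z.2 ≡ b.2 [MOD m]),
      ∑ V' ∈ (PB C' D').filter (fun z => z.1 ≡ b'.1 [MOD m] ∧ z.2 ≡ b'.2 [MOD m]),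
      F2 f V * (starRingEnd ℂ) (F2 f V') * ((φ (dirn V) * max 0 (1 - |(dirn V' - dirn V) / δ - l|) : ℝ) : ℂ)‖ ≤
    A / δ + L * δ * (((PB C D ×ˢ PB C' D').filter
      (fun e : (ℕ × ℕ) × (ℕ × ℕ) => |dirn e.2 - dirn e.1| ≤ (l + 1) * δ)).card : ℝ) := by
  have hφc : Continuous φ := by
    have : LipschitzWith (Real.toNNReal L) φ := by
      refine LipschitzWith.of_dist_le_mul (fun x y => ?_)
      rw [Real.dist_eq, Real.dist_eq, Real.coe_toNNReal L hL]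
      exact hφ x y
    exact this.continuous
  have hφm : Measurable φ := hφc.measurable
  set G1 := (PB C D).filter (fun z => z.1 ≡ b.1 [MOD m] ∧ z.2 ≡ b.2 [MOD m]) with hG1
  set G2 := (PB C' D').filter (fun z => z.1 ≡ b'.1 [MOD m] ∧ z.2 ≡ b'.2 [MOD m]) with hG2
  set S1 : ℝ → ℂ := fun τ => Ss f m b C D δ τ with hS1
  set S2 : ℝ → ℂ := fun τ => Ss f m b' C' D' δ (τ + l * δ) with hS2
  have e1 : ∀ τ, S1 τ = ∑ V ∈ G1, F2 f V * ((arci3J δ (dirn V) τ : ℝ) : ℂ) := fun τ => arci3_Ss f m b C D δ τ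
  have e2' : ∀ τ, Ss f m b' C' D' δ τ = ∑ V ∈ G2, F2 f V * ((arci3J δ (dirn V) τ : ℝ) : ℂ) :=
    fun τ => arci3_Ss f m b' C' D' δ τ
  have e2 : ∀ τ, S2 τ = ∑ V ∈ G2, F2 f V * ((arci3J δ (dirn V) (τ + l * δ) : ℝ) : ℂ) :=
    fun τ => arci3_Ss f m b' C' D' δ (τ + l * δ)
  -- general facts for sums of indicators
  have gen : ∀ (G : Finset (ℕ × ℕ)) (S : ℝ → ℂ) (c : ℝ),
      (∀ τ, S τ = ∑ V ∈ G, F2 f V * ((arci3J δ (dirn V) (τ + c) : ℝ) : ℂ)) →
      Measurable S ∧ Integrable (fun τ => ‖S τ‖ ^ 2) := by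
    intro G S c hS
    have hm : Measurable S := by
      have : S = fun τ => ∑ V ∈ G, F2 f V * ((arci3J δ (dirn V) (τ + c) : ℝ) : ℂ) := funext hS
      rw [this]
      refine Finset.measurable_sum _ (fun V _ => ?_)
      exact (Complex.measurable_ofReal.comp ((arci3J_meas δ (dirn V)).comp (measurable_id.add_const c))).const_mul _
    refine ⟨hm, ?_⟩
    have hb : ∀ τ, ‖S τ‖ ≤ ∑ V ∈ G, arci3J δ (dirn V) (τ + c) := by
      intro τ
      rw [hS]
      refine norm_sum_le_of_le _ (fun V _ => ?_)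
      rw [norm_mul, Complex.norm_real, Real.norm_eq_abs, abs_of_nonneg (arci3J_nonneg _ _ _)]
      exact mul_le_of_le_one_left (arci3J_nonneg _ _ _) (arci3_F2 f hf V)
    have hb' : ∀ τ, ‖S τ‖ ≤ (G.card : ℝ) := by
      intro τ
      refine (hb τ).trans ?_
      calc ∑ V ∈ G, arci3J δ (dirn V) (τ + c) ≤ ∑ _V ∈ G, (1 : ℝ) := Finset.sum_le_sum (fun V _ => arci3J_le _ _ _)
        _ = (G.card : ℝ) := by rw [Finset.sum_const, nsmul_eq_mul, mul_one]
    have hi : Integrable (fun τ => (G.card : ℝ) * ∑ V ∈ G, arci3J δ (dirn V) (τ + c)) := by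
      refine Integrable.const_mul ?_ _
      exact integrable_finset_sum _ (fun V _ => (arci3J_int δ (dirn V)).comp_add_right c)
    refine hi.mono' (hm.norm.pow_const 2).aestronglyMeasurable (Filter.Eventually.of_forall (fun τ => ?_))
    rw [Real.norm_eq_abs, abs_of_nonneg (by positivity), pow_two]
    exact mul_le_mul (hb' τ) (hb τ) (norm_nonneg _) (Nat.cast_nonneg _)
  obtain ⟨m1, hi1⟩ := gen G1 S1 0 (fun τ => by rw [e1 τ]; simp only [add_zero])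
  obtain ⟨m2, hi2⟩ := gen G2 S2 (l * δ) e2
  have h2' : ∫ τ, ‖S2 τ‖ ^ 2 ≤ A := by
    have k1 := integral_add_right_eq_self (fun τ => ‖Ss f m b' C' D' δ τ‖ ^ 2) ((l : ℝ) * δ) (μ := volume)
    rw [hS2]
    simp only at k1 ⊢
    rw [k1]
    exact h2
  set K : (ℕ × ℕ) → (ℕ × ℕ) → ℝ := fun V V' =>
    ∫ τ : ℝ, arci3J δ (dirn V) τ * arci3J δ (dirn V') (τ + l * δ) * φ τ with hK
  have hmain : ∫ τ, S1 τ * (starRingEnd ℂ) (S2 τ) * ((φ τ : ℝ) : ℂ) =
      ∑ V ∈ G1, ∑ V' ∈ G2, F2 f V * (starRingEnd ℂ) (F2 f V') * ((K V V' : ℝ) : ℂ) := by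
    have k1 : ∀ τ : ℝ, S1 τ * (starRingEnd ℂ) (S2 τ) * ((φ τ : ℝ) : ℂ) = ∑ p ∈ G1 ×ˢ G2,
        (F2 f p.1 * (starRingEnd ℂ) (F2 f p.2)) *
          ((arci3J δ (dirn p.1) τ * arci3J δ (dirn p.2) (τ + l * δ) * φ τ : ℝ) : ℂ) := by
      intro τ
      rw [e1, e2, map_sum, Finset.sum_mul_sum, Finset.sum_mul, Finset.sum_product]
      refine Finset.sum_congr rfl (fun V _ => ?_)
      rw [Finset.sum_mul]
      refine Finset.sum_congr rfl (fun V' _ => ?_)
      rw [map_mul, Complex.conj_ofReal]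
      push_cast
      ring
    have k2 : ∀ p ∈ G1 ×ˢ G2, Integrable (fun τ => (F2 f p.1 * (starRingEnd ℂ) (F2 f p.2)) *
          ((arci3J δ (dirn p.1) τ * arci3J δ (dirn p.2) (τ + l * δ) * φ τ : ℝ) : ℂ)) := by
      intro p _
      exact ((arci3_int2 (dirn p.1) (dirn p.2) δ (l * δ) φ hφm 1 zero_le_one (fun τ _ => hφ1 τ)).ofReal).const_mul _
    simp only [k1]
    rw [integral_finset_sum _ k2, Finset.sum_product]
    refine Finset.sum_congr rfl (fun V _ => Finset.sum_congr rfl (fun V' _ => ?_))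
    rw [integral_const_mul, integral_complex_ofReal]
  have hb : ‖∫ τ, S1 τ * (starRingEnd ℂ) (S2 τ) * ((φ τ : ℝ) : ℂ)‖ ≤ A := by
    calc ‖∫ τ, S1 τ * (starRingEnd ℂ) (S2 τ) * ((φ τ : ℝ) : ℂ)‖
        ≤ ∫ τ, ((1 / 2 : ℝ) * ‖S1 τ‖ ^ 2 + (1 / 2 : ℝ) * ‖S2 τ‖ ^ 2) := by
          refine norm_integral_le_of_norm_le ((hi1.const_mul _).add (hi2.const_mul _)) ?_
          refine Filter.Eventually.of_forall (fun τ => ?_)
          rw [norm_mul, norm_mul, RCLike.norm_conj, Complex.norm_real, Real.norm_eq_abs]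
          have k3 : ‖S1 τ‖ * ‖S2 τ‖ * |φ τ| ≤ ‖S1 τ‖ * ‖S2 τ‖ * 1 :=
            mul_le_mul_of_nonneg_left (hφ1 τ) (by positivity)
          nlinarith [sq_nonneg (‖S1 τ‖ - ‖S2 τ‖)]
      _ = (1 / 2 : ℝ) * (∫ τ, ‖S1 τ‖ ^ 2) + (1 / 2 : ℝ) * (∫ τ, ‖S2 τ‖ ^ 2) := by
          rw [integral_add (hi1.const_mul _) (hi2.const_mul _), integral_const_mul, integral_const_mul]
      _ ≤ A := by linarith
  set T := ∑ V ∈ G1, ∑ V' ∈ G2, F2 f V * (starRingEnd ℂ) (F2 f V') *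
        ((φ (dirn V) * max 0 (1 - |(dirn V' - dirn V) / δ - l|) : ℝ) : ℂ) with hT
  set N : ℝ := (((PB C D ×ˢ PB C' D').filter
      (fun e : (ℕ × ℕ) × (ℕ × ℕ) => |dirn e.2 - dirn e.1| ≤ (l + 1) * δ)).card : ℝ) with hN
  have hdiff : ‖(δ : ℂ) * T - ∫ τ, S1 τ * (starRingEnd ℂ) (S2 τ) * ((φ τ : ℝ) : ℂ)‖ ≤ L * δ ^ 2 * N := by
    have k1 : (δ : ℂ) * T - ∫ τ, S1 τ * (starRingEnd ℂ) (S2 τ) * ((φ τ : ℝ) : ℂ) =
        ∑ p ∈ G1 ×ˢ G2, F2 f p.1 * (starRingEnd ℂ) (F2 f p.2) *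
          ((φ (dirn p.1) * (δ * max 0 (1 - |(dirn p.2 - dirn p.1) / δ - l|)) - K p.1 p.2 : ℝ) : ℂ) := by
      rw [hmain, hT, ← Finset.sum_product', ← Finset.sum_product', Finset.mul_sum, ← Finset.sum_sub_distrib]
      refine Finset.sum_congr rfl (fun p _ => ?_)
      push_cast
      ring
    rw [k1]
    have k2 : ∀ p ∈ G1 ×ˢ G2, ‖F2 f p.1 * (starRingEnd ℂ) (F2 f p.2) *
          ((φ (dirn p.1) * (δ * max 0 (1 - |(dirn p.2 - dirn p.1) / δ - l|)) - K p.1 p.2 : ℝ) : ℂ)‖ ≤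
          if |dirn p.2 - dirn p.1| ≤ (l + 1) * δ then L * δ ^ 2 else 0 := by
      intro p _
      rw [norm_mul, norm_mul, RCLike.norm_conj, Complex.norm_real, Real.norm_eq_abs, abs_sub_comm]
      have k3 := arci3_term (dirn p.1) (dirn p.2) δ hδ l φ hφm L hL hφ hφ1
      have k4 : ‖F2 f p.1‖ * ‖F2 f p.2‖ ≤ 1 := mul_le_one₀ (arci3_F2 f hf _) (norm_nonneg _) (arci3_F2 f hf _)
      have k5 : ‖F2 f p.1‖ * ‖F2 f p.2‖ *
          |K p.1 p.2 - φ (dirn p.1) * (δ * max 0 (1 - |(dirn p.2 - dirn p.1) / δ - l|))| ≤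
          1 * (L * δ * (δ * max 0 (1 - |(dirn p.2 - dirn p.1) / δ - l|))) :=
        mul_le_mul k4 k3 (abs_nonneg _) zero_le_one
      refine k5.trans ?_
      rw [one_mul]
      by_cases hc : |dirn p.2 - dirn p.1| ≤ (l + 1) * δ
      · rw [if_pos hc]
        have k6 : max 0 (1 - |(dirn p.2 - dirn p.1) / δ - l|) ≤ 1 :=
          max_le zero_le_one (by linarith [abs_nonneg ((dirn p.2 - dirn p.1) / δ - l)])
        calc L * δ * (δ * max 0 (1 - |(dirn p.2 - dirn p.1) / δ - l|)) ≤ L * δ * (δ * 1) := by gcongr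
          _ = L * δ ^ 2 := by ring
      · rw [if_neg hc, arci3_max _ _ δ hδ l hc, mul_zero, mul_zero]
    refine (norm_sum_le_of_le _ k2).trans ?_
    rw [← Finset.sum_filter, Finset.sum_const, nsmul_eq_mul, mul_comm]
    have k7 : ((G1 ×ˢ G2).filter (fun e : (ℕ × ℕ) × (ℕ × ℕ) => |dirn e.2 - dirn e.1| ≤ (l + 1) * δ)).card ≤
        ((PB C D ×ˢ PB C' D').filter
          (fun e : (ℕ × ℕ) × (ℕ × ℕ) => |dirn e.2 - dirn e.1| ≤ (l + 1) * δ)).card := by
      refine Finset.card_le_card (Finset.filter_subset_filter _ ?_)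
      exact Finset.product_subset_product (Finset.filter_subset _ _) (Finset.filter_subset _ _)
    have k8 : (0 : ℝ) ≤ L * δ ^ 2 := by positivity
    refine mul_le_mul_of_nonneg_left ?_ k8
    rw [hN]
    exact_mod_cast k7
  have hfin : ‖(δ : ℂ) * T‖ ≤ A + L * δ ^ 2 * N := by
    have k1 : (δ : ℂ) * T = ((δ : ℂ) * T - ∫ τ, S1 τ * (starRingEnd ℂ) (S2 τ) * ((φ τ : ℝ) : ℂ)) +
        ∫ τ, S1 τ * (starRingEnd ℂ) (S2 τ) * ((φ τ : ℝ) : ℂ) := by ring
    rw [k1]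
    refine (norm_add_le _ _).trans ?_
    linarith
  rw [norm_mul, Complex.norm_real, Real.norm_eq_abs, abs_of_pos hδ] at hfin
  have k9 : A / δ + L * δ * N = (A + L * δ ^ 2 * N) / δ := by
    field_simp
  rw [k9, le_div_iff₀ hδ]
  linarith

end Pool.Agent.Spl
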