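import Pool.Agent.Lib_MP_92ef0c_sp.Clus
import Pool.Agent.Lib_MP_92ef0c_sp.SDefs

/-!
# Clusters for matrices: moves between `a` and `d` and between `b` and `c`
-/

set_option autoImplicit false

namespace Pool.Agent.Spl

open Finset Pool.Agent.GaussMR Pool.Agent.OmAll Pool.Agent.OmEq

private theorem cluAB_ndvd {n : ℕ} (hn : 0 < n) {E : Finset ℕ} (hE : n.primeFactors ⊆ E) {p : ℕ} (hp : p.Prime) (hpE : p ∉ E) :
    ¬ p ∣ n :=
  fun h => hpE (hE (Nat.mem_primeFactors.mpr ⟨hp, h, hn.ne'⟩))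

/-- moving a prime from `d` to `a` -/
private theorem cluAB_moveA {n : ℕ} {p a b c d : ℕ} (hp : p.Prime) (hpn : ¬ p ∣ n) :
    Sn n ⟨p * a, b, c, d⟩ ↔ Sn n ⟨a, b, c, p * d⟩ := by
  have hnb : ∀ k, p * k = b * c + n → ¬ p ∣ b := by
    intro k hk h
    apply hpn
    have h1 : p ∣ b * c + n := ⟨k, hk.symm⟩
    exact (Nat.dvd_add_right (Dvd.dvd.mul_right h c)).1 h1
  have hnc : ∀ k, p * k = b * c + n → ¬ p ∣ c := by
    intro k hk h
    apply hpn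
    have h1 : p ∣ b * c + n := ⟨k, hk.symm⟩
    exact (Nat.dvd_add_right (Dvd.dvd.mul_left h b)).1 h1
  unfold Sn
  constructor
  · rintro ⟨h1, h2, h3, h4, h5, h6, h7⟩
    simp only at h1 h2 h3 h4 h5 h6 h7 ⊢
    have h8 : p * (a * d) = b * c + n := by rw [← h1]; ring
    have hcp : c.Coprime p := ((Nat.Prime.coprime_iff_not_dvd hp).2 (hnc _ h8)).symm
    refine ⟨by rw [← h8]; ring, Nat.pos_of_mul_pos_left h2, h3, h4, Nat.mul_pos hp.pos h5, ?_, ?_⟩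
    · exact Nat.Coprime.coprime_mul_left h6
    · exact Nat.Coprime.mul_right hcp h7
  · rintro ⟨h1, h2, h3, h4, h5, h6, h7⟩
    simp only at h1 h2 h3 h4 h5 h6 h7 ⊢
    have h8 : p * (a * d) = b * c + n := by rw [← h1]; ring
    have hbp : p.Coprime b := (Nat.Prime.coprime_iff_not_dvd hp).2 (hnb _ h8)
    refine ⟨by rw [← h8]; ring, Nat.mul_pos hp.pos h2, h3, h4, Nat.pos_of_mul_pos_left h5, ?_, ?_⟩
    · exact Nat.Coprime.mul_left hbp h6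
    · exact Nat.Coprime.coprime_mul_left_right h7

/-- moving a prime from `c` to `b` -/
private theorem cluAB_moveB {n : ℕ} {p a b c d : ℕ} (hp : p.Prime) (hpn : ¬ p ∣ n) :
    Sn n ⟨a, p * b, c, d⟩ ↔ Sn n ⟨a, b, p * c, d⟩ := by
  have hna : ∀ k, a * d = p * k + n → ¬ p ∣ a := by
    intro k hk h
    apply hpn
    have h1 : p ∣ p * k + n := by rw [← hk]; exact Dvd.dvd.mul_right h d
    exact (Nat.dvd_add_right (Dvd.intro k rfl)).1 h1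
  have hnd : ∀ k, a * d = p * k + n → ¬ p ∣ d := by
    intro k hk h
    apply hpn
    have h1 : p ∣ p * k + n := by rw [← hk]; exact Dvd.dvd.mul_left h a
    exact (Nat.dvd_add_right (Dvd.intro k rfl)).1 h1
  unfold Sn
  constructor
  · rintro ⟨h1, h2, h3, h4, h5, h6, h7⟩
    simp only at h1 h2 h3 h4 h5 h6 h7 ⊢
    have h8 : a * d = p * (b * c) + n := by rw [h1]; ring
    have hdp : p.Coprime d := (Nat.Prime.coprime_iff_not_dvd hp).2 (hnd _ h8)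
    refine ⟨by rw [h8]; ring, h2, Nat.pos_of_mul_pos_left h3, Nat.mul_pos hp.pos h4, h5, ?_, ?_⟩
    · exact Nat.Coprime.coprime_mul_left_right h6
    · exact Nat.Coprime.mul_left hdp h7
  · rintro ⟨h1, h2, h3, h4, h5, h6, h7⟩
    simp only at h1 h2 h3 h4 h5 h6 h7 ⊢
    have h8 : a * d = p * (b * c) + n := by rw [h1]; ring
    have hap : a.Coprime p := ((Nat.Prime.coprime_iff_not_dvd hp).2 (hna _ h8)).symm
    refine ⟨by rw [h8]; ring, h2, Nat.mul_pos hp.pos h3, Nat.pos_of_mul_pos_left h4, h5, ?_, ?_⟩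
    · exact Nat.Coprime.mul_right hap h6
    · exact Nat.Coprime.coprime_mul_left h7

open Classical in
/-- PROOF. `clus_abs` with `S = SN n x`, `lo = a`, `hi = d`, `P = PP E T`, `tog p e = ⟨p a, b, c, d / p⟩`, `w e t = W (yS e) t (uS e)`; `tS e = log d - log a`, `yS`, `uS` depend on `b`, `c` only. For `p ∈ PP E T`: `p` does not divide `n` (`hE`).
`e ∈ SN n x`, `p ∣ d`, `¬ p ^ 2 ∣ a d`: `d = p d'`, `(p a) d' = a d = b c + n`; `p` does not divide `b` nor `c` (otherwise `p ∣ n`), so `p a` is coprime to `b` and `c` to `d'`. Conversely if `p ∣ a`, `a = p a'`: `e' = ⟨a', b, c, p d⟩` (`c` coprime to `p d`).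
`Φ`: `CmpA.mv`. -/
theorem cluA (n : ℕ) (hn : 0 < n) (E : Finset ℕ) (hE : n.primeFactors ⊆ E) (g : ℕ → ℂ) (Φ : Q4 → ℂ)
    (hΦ : CmpA n E g Φ) (T : ℕ) (x : ℝ) (W : ℝ → ℝ → ℝ → ℂ) :
    ∑ e ∈ SN n x, Φ e * W (yS e) (tS e) (uS e) =
      ∑ e ∈ (SN n x).filter (bA E T), Φ e * cs g (fun t => W (yS e) t (uS e)) (dA E T e) (tS e) := by
  refine clus_abs (SN n x) (fun e => e.a) (fun e => e.d) (PP E T) (fun p hp => (mem_PP.1 hp).2.1)
    (fun p e => ⟨p * e.a, e.b, e.c, e.d / p⟩) ?_ ?_ ?_ (fun e he => (mem_SN.1 he).1.2.1)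
    (fun e he => (mem_SN.1 he).1.2.2.2.2.1) g Φ ?_ (fun e t => W (yS e) t (uS e)) (fun _ _ _ _ _ _ => rfl)
  · rintro p hp ⟨a, b, c, d⟩ he hd hd2
    obtain ⟨hpT, hpp, hpE⟩ := mem_PP.1 hp
    have hpn := cluAB_ndvd hn hE hpp hpE
    obtain ⟨k, rfl⟩ := hd
    obtain ⟨he1, he2⟩ := mem_SN.1 he
    show ((⟨p * a, b, c, p * k / p⟩ : Q4) ∈ SN n x) ∧ p * a = p * a ∧ p * (p * k / p) = p * k
    rw [Nat.mul_div_cancel_left _ hpp.pos]
    exact ⟨mem_SN.2 ⟨(cluAB_moveA hpp hpn).2 he1, he2⟩, rfl, rfl⟩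
  · rintro p hp ⟨a, b, c, d⟩ he hd hd2
    obtain ⟨hpT, hpp, hpE⟩ := mem_PP.1 hp
    have hpn := cluAB_ndvd hn hE hpp hpE
    obtain ⟨k, rfl⟩ := hd
    obtain ⟨he1, he2⟩ := mem_SN.1 he
    refine ⟨⟨k, b, c, p * d⟩, mem_SN.2 ⟨(cluAB_moveA hpp hpn).1 he1, he2⟩, Dvd.intro _ rfl, ?_, ?_⟩
    · show ¬ p ^ 2 ∣ k * (p * d)
      have h1 : k * (p * d) = p * k * d := by ring
      rw [h1]
      exact hd2
    · show (⟨p * k, b, c, p * d / p⟩ : Q4) = ⟨p * k, b, c, d⟩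
      rw [Nat.mul_div_cancel_left _ hpp.pos]
  · rintro p hp ⟨a, b, c, d⟩ he ⟨a', b', c', d'⟩ he' hd hd' h
    obtain ⟨hpT, hpp, hpE⟩ := mem_PP.1 hp
    obtain ⟨k, rfl⟩ := hd
    obtain ⟨k', rfl⟩ := hd'
    simp only [Q4.mk.injEq] at h
    obtain ⟨h1, h2, h3, h4⟩ := h
    rw [Nat.mul_div_cancel_left _ hpp.pos, Nat.mul_div_cancel_left _ hpp.pos] at h4
    have h5 : a = a' := Nat.eq_of_mul_eq_mul_left hpp.pos h1
    rw [h5, h2, h3, h4]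
  · rintro p hp ⟨a, b, c, d⟩ he hd hd2
    obtain ⟨hpT, hpp, hpE⟩ := mem_PP.1 hp
    have hpn := cluAB_ndvd hn hE hpp hpE
    obtain ⟨k, rfl⟩ := hd
    obtain ⟨he1, he2⟩ := mem_SN.1 he
    show Φ ⟨p * a, b, c, p * k / p⟩ = g p * Φ ⟨a, b, c, p * k⟩
    rw [Nat.mul_div_cancel_left _ hpp.pos]
    refine hΦ.mv p a b c k hpp hpE ((cluAB_moveA hpp hpn).2 he1) ?_
    have h1 : p * a * k = a * (p * k) := by ring
    rw [h1]
    exact hd2

open Classical in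
/-- PROOF. The same with `lo = b`, `hi = c`, `tog p e = ⟨a, p b, c / p, d⟩`, `w e u = W (yS e) (tS e) u`; `b c`, hence `yS e`, and `a`, `d`, hence `tS e`, do not change. `p ∣ b c` and `p` does not divide `n`, so `p` does not divide `a d`, hence neither `a` nor `d`. -/
theorem cluB (n : ℕ) (hn : 0 < n) (E : Finset ℕ) (hE : n.primeFactors ⊆ E) (g : ℕ → ℂ) (Φ : Q4 → ℂ)
    (hΦ : CmpB n E g Φ) (T : ℕ) (x : ℝ) (W : ℝ → ℝ → ℝ → ℂ) :
    ∑ e ∈ SN n x, Φ e * W (yS e) (tS e) (uS e) =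
      ∑ e ∈ (SN n x).filter (bB E T), Φ e * cs g (fun u => W (yS e) (tS e) u) (dB E T e) (uS e) := by
  have hy : ∀ p a b k d : ℕ, yS ⟨a, p * b, k, d⟩ = yS ⟨a, b, p * k, d⟩ := by
    intro p a b k d
    unfold yS
    push_cast
    ring
  refine clus_abs (SN n x) (fun e => e.b) (fun e => e.c) (PP E T) (fun p hp => (mem_PP.1 hp).2.1)
    (fun p e => ⟨e.a, p * e.b, e.c / p, e.d⟩) ?_ ?_ ?_ (fun e he => (mem_SN.1 he).1.2.2.1)
    (fun e he => (mem_SN.1 he).1.2.2.2.1) g Φ ?_ (fun e u => W (yS e) (tS e) u) ?_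
  · rintro p hp ⟨a, b, c, d⟩ he hd hd2
    obtain ⟨hpT, hpp, hpE⟩ := mem_PP.1 hp
    have hpn := cluAB_ndvd hn hE hpp hpE
    obtain ⟨k, rfl⟩ := hd
    obtain ⟨he1, he2⟩ := mem_SN.1 he
    show ((⟨a, p * b, p * k / p, d⟩ : Q4) ∈ SN n x) ∧ p * b = p * b ∧ p * (p * k / p) = p * k
    rw [Nat.mul_div_cancel_left _ hpp.pos]
    refine ⟨mem_SN.2 ⟨(cluAB_moveB hpp hpn).2 he1, ?_⟩, rfl, rfl⟩
    rw [hy]
    exact he2
  · rintro p hp ⟨a, b, c, d⟩ he hd hd2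
    obtain ⟨hpT, hpp, hpE⟩ := mem_PP.1 hp
    have hpn := cluAB_ndvd hn hE hpp hpE
    obtain ⟨k, rfl⟩ := hd
    obtain ⟨he1, he2⟩ := mem_SN.1 he
    refine ⟨⟨a, k, p * c, d⟩, mem_SN.2 ⟨(cluAB_moveB hpp hpn).1 he1, ?_⟩, Dvd.intro _ rfl, ?_, ?_⟩
    · rw [← hy]
      exact he2
    · show ¬ p ^ 2 ∣ k * (p * c)
      have h1 : k * (p * c) = p * k * c := by ring
      rw [h1]
      exact hd2
    · show (⟨a, p * k, p * c / p, d⟩ : Q4) = ⟨a, p * k, c, d⟩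
      rw [Nat.mul_div_cancel_left _ hpp.pos]
  · rintro p hp ⟨a, b, c, d⟩ he ⟨a', b', c', d'⟩ he' hd hd' h
    obtain ⟨hpT, hpp, hpE⟩ := mem_PP.1 hp
    obtain ⟨k, rfl⟩ := hd
    obtain ⟨k', rfl⟩ := hd'
    simp only [Q4.mk.injEq] at h
    obtain ⟨h1, h2, h3, h4⟩ := h
    rw [Nat.mul_div_cancel_left _ hpp.pos, Nat.mul_div_cancel_left _ hpp.pos] at h3
    have h5 : b = b' := Nat.eq_of_mul_eq_mul_left hpp.pos h2
    rw [h5, h1, h3, h4]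
  · rintro p hp ⟨a, b, c, d⟩ he hd hd2
    obtain ⟨hpT, hpp, hpE⟩ := mem_PP.1 hp
    have hpn := cluAB_ndvd hn hE hpp hpE
    obtain ⟨k, rfl⟩ := hd
    obtain ⟨he1, he2⟩ := mem_SN.1 he
    show Φ ⟨a, p * b, p * k / p, d⟩ = g p * Φ ⟨a, b, p * k, d⟩
    rw [Nat.mul_div_cancel_left _ hpp.pos]
    refine hΦ.mv p a b k d hpp hpE ((cluAB_moveB hpp hpn).2 he1) ?_
    have h1 : p * b * k = b * (p * k) := by ring
    rw [h1]
    exact hd2
  · rintro p hp ⟨a, b, c, d⟩ he hd hd2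
    obtain ⟨hpT, hpp, hpE⟩ := mem_PP.1 hp
    obtain ⟨k, rfl⟩ := hd
    show (fun u => W (yS ⟨a, p * b, p * k / p, d⟩) (tS ⟨a, p * b, p * k / p, d⟩) u) =
      fun u => W (yS ⟨a, b, p * k, d⟩) (tS ⟨a, b, p * k, d⟩) u
    rw [Nat.mul_div_cancel_left _ hpp.pos, hy]
    rfl

end Pool.Agent.Spl
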