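import Pool.Agent.Lib_MP_f1a94e_aq.Exist
import Pool.Agent.Lib_MP_f1a94e_eq.Clu
import Pool.Agent.Lib_MP_f1a94e_eq.NpT

/-!
# Clusters, abstract version
-/

set_option autoImplicit false

namespace Pool.Agent.Spl

open Finset Pool.Agent.GaussMR Pool.Agent.OmAll Pool.Agent.OmEq

open Classical in
/-- one step of the induction over the primes -/
private theorem clus_step {ι : Type} (S : Finset ι) (lo hi : ι → ℕ) (P : Finset ℕ) (hP : ∀ p ∈ P, p.Prime)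
    (tog : ℕ → ι → ι)
    (h1 : ∀ p ∈ P, ∀ e ∈ S, p ∣ hi e → ¬ p ^ 2 ∣ lo e * hi e →
      tog p e ∈ S ∧ lo (tog p e) = p * lo e ∧ p * hi (tog p e) = hi e)
    (h2 : ∀ p ∈ P, ∀ e ∈ S, p ∣ lo e → ¬ p ^ 2 ∣ lo e * hi e →
      ∃ e' ∈ S, p ∣ hi e' ∧ ¬ p ^ 2 ∣ lo e' * hi e' ∧ tog p e' = e)
    (h3 : ∀ p ∈ P, ∀ e ∈ S, ∀ e' ∈ S, p ∣ hi e → p ∣ hi e' → tog p e = tog p e' → e = e')
    (hlo : ∀ e ∈ S, 0 < lo e) (hhi : ∀ e ∈ S, 0 < hi e) (g : ℕ → ℂ) (Φ : ι → ℂ)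
    (hΦ : ∀ p ∈ P, ∀ e ∈ S, p ∣ hi e → ¬ p ^ 2 ∣ lo e * hi e → Φ (tog p e) = g p * Φ e)
    (w : ι → ℝ → ℂ) (hw : ∀ p ∈ P, ∀ e ∈ S, p ∣ hi e → ¬ p ^ 2 ∣ lo e * hi e → w (tog p e) = w e)
    (Q : Finset ℕ) (p : ℕ) (hpQ : p ∉ Q) (hp : p ∈ P) (D : ι → Finset ℕ)
    (hD : ∀ e, D e = P.filter (fun p => p ∣ lo e * hi e ∧ ¬ p ^ 2 ∣ lo e * hi e)) :
    ∑ e ∈ S.filter (fun e => ∀ q ∈ D e ∩ Q, ¬ q ∣ lo e),
        Φ e * cs g (w e) (D e ∩ Q) (Real.log (hi e) - Real.log (lo e)) =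
      ∑ e ∈ S.filter (fun e => ∀ q ∈ D e ∩ insert p Q, ¬ q ∣ lo e),
        Φ e * cs g (w e) (D e ∩ insert p Q) (Real.log (hi e) - Real.log (lo e)) := by
  have hpp : p.Prime := hP p hp
  -- facts on the toggle
  have fact : ∀ e ∈ S, p ∣ hi e → ¬ p ^ 2 ∣ lo e * hi e →
      tog p e ∈ S ∧ lo (tog p e) = p * lo e ∧ D (tog p e) = D e ∧
      Real.log (hi (tog p e)) - Real.log (lo (tog p e)) = Real.log (hi e) - Real.log (lo e) - 2 * Real.log p := by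
    intro e he hd hd2
    obtain ⟨f1, f2, f3⟩ := h1 p hp e he hd hd2
    have f4 : lo (tog p e) * hi (tog p e) = lo e * hi e := by
      rw [f2, ← f3]
      ring
    refine ⟨f1, f2, ?_, ?_⟩
    · rw [hD, hD, f4]
    · have g1 : (p : ℝ) ≠ 0 := by exact_mod_cast hpp.ne_zero
      have g2 : (lo e : ℝ) ≠ 0 := by exact_mod_cast (hlo e he).ne'
      have g3 : (hi (tog p e) : ℝ) ≠ 0 := by exact_mod_cast (hhi _ f1).ne'
      rw [f2, ← f3]
      push_cast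
      rw [Real.log_mul g1 g2, Real.log_mul g1 g3]
      ring
  -- split the left side
  have hL : S.filter (fun e => ∀ q ∈ D e ∩ Q, ¬ q ∣ lo e) =
      S.filter (fun e => ∀ q ∈ D e ∩ insert p Q, ¬ q ∣ lo e) ∪
      S.filter (fun e => (∀ q ∈ D e ∩ Q, ¬ q ∣ lo e) ∧ p ∈ D e ∧ p ∣ lo e) := by
    ext e
    simp only [mem_filter, mem_union, mem_inter, mem_insert]
    constructor
    · rintro ⟨k1, k2⟩
      by_cases k3 : p ∈ D e ∧ p ∣ lo e
      · exact Or.inr ⟨k1, k2, k3⟩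
      · refine Or.inl ⟨k1, fun q hq => ?_⟩
        rcases hq.2 with rfl | k4
        · exact fun k5 => k3 ⟨hq.1, k5⟩
        · exact k2 q ⟨hq.1, k4⟩
    · rintro (⟨k1, k2⟩ | ⟨k1, k2, -⟩)
      · exact ⟨k1, fun q hq => k2 q ⟨hq.1, Or.inr hq.2⟩⟩
      · exact ⟨k1, k2⟩
  have hdisj : Disjoint (S.filter (fun e => ∀ q ∈ D e ∩ insert p Q, ¬ q ∣ lo e))
      (S.filter (fun e => (∀ q ∈ D e ∩ Q, ¬ q ∣ lo e) ∧ p ∈ D e ∧ p ∣ lo e)) := by
    rw [Finset.disjoint_left]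
    intro e k1 k2
    rw [mem_filter] at k1 k2
    exact k1.2 p (mem_inter.mpr ⟨k2.2.2.1, mem_insert_self _ _⟩) k2.2.2.2
  rw [hL, Finset.sum_union hdisj]
  -- the right side
  have hR : ∀ e : ι, Φ e * cs g (w e) (D e ∩ insert p Q) (Real.log (hi e) - Real.log (lo e)) =
      Φ e * cs g (w e) (D e ∩ Q) (Real.log (hi e) - Real.log (lo e)) +
        if p ∈ D e then Φ e * (g p * cs g (w e) (D e ∩ Q) (Real.log (hi e) - Real.log (lo e) - 2 * Real.log p))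
        else 0 := by
    intro e
    by_cases h : p ∈ D e
    · rw [if_pos h, Finset.inter_insert_of_mem h, cs_insert g _ _ p (fun k1 => hpQ (mem_inter.mp k1).2), mul_add]
    · rw [if_neg h, Finset.inter_insert_of_notMem h, add_zero]
  rw [Finset.sum_congr rfl (fun e _ => hR e), Finset.sum_add_distrib, ← Finset.sum_filter]
  congr 1
  symm
  have key : ∀ e : ι, ((e ∈ S ∧ ∀ q ∈ D e ∩ insert p Q, ¬ q ∣ lo e) ∧ p ∈ D e) →
      e ∈ S ∧ p ∣ hi e ∧ ¬ p ^ 2 ∣ lo e * hi e := by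
    rintro e ⟨⟨k1, k2⟩, k3⟩
    have k3' := k3
    rw [hD] at k3'
    have k4 : p ∣ lo e * hi e ∧ ¬ p ^ 2 ∣ lo e * hi e := (mem_filter.mp k3').2
    have k5 : ¬ p ∣ lo e := k2 p (mem_inter.mpr ⟨k3, mem_insert_self _ _⟩)
    exact ⟨k1, (hpp.dvd_mul.mp k4.1).resolve_left k5, k4.2⟩
  refine Finset.sum_nbij (tog p) ?_ ?_ ?_ ?_
  · intro e he
    rw [mem_filter, mem_filter] at he
    obtain ⟨e1, e2, e3⟩ := key e he
    obtain ⟨f1, f2, f3, -⟩ := fact e e1 e2 e3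
    rw [mem_filter]
    refine ⟨f1, ?_, ?_, ?_⟩
    · intro q hq
      rw [f3] at hq
      obtain ⟨hq1, hq2⟩ := mem_inter.mp hq
      have hq1' := hq1
      rw [hD] at hq1'
      have hqp : q.Prime := hP q (mem_filter.mp hq1').1
      have k13 : ¬ q ∣ lo e := he.1.2 q (mem_inter.mpr ⟨hq1, mem_insert_of_mem hq2⟩)
      rw [f2]
      intro k14
      rcases hqp.dvd_mul.mp k14 with k15 | k15
      · have k16 : q = p := (Nat.prime_dvd_prime_iff_eq hqp hpp).mp k15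
        exact hpQ (k16 ▸ hq2)
      · exact k13 k15
    · rw [f3]
      exact he.2
    · rw [f2]
      exact Dvd.intro _ rfl
  · intro e he e' he' hee
    rw [mem_coe, mem_filter, mem_filter] at he he'
    obtain ⟨e1, e2, e3⟩ := key e he
    obtain ⟨e1', e2', e3'⟩ := key e' he'
    exact h3 p hp e e1 e' e1' e2 e2' hee
  · intro e' he'
    rw [mem_coe, mem_filter] at he'
    obtain ⟨k1, k2, k3, k3'⟩ := he'
    have k3a := k3
    rw [hD] at k3a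
    have k4 : p ∣ lo e' * hi e' ∧ ¬ p ^ 2 ∣ lo e' * hi e' := (mem_filter.mp k3a).2
    obtain ⟨e, e1, e2, e3, e4⟩ := h2 p hp e' k1 k3' k4.2
    obtain ⟨f1, f2, f3, -⟩ := fact e e1 e2 e3
    rw [e4] at f2 f3
    refine ⟨e, ?_, e4⟩
    rw [mem_coe, mem_filter, mem_filter]
    refine ⟨⟨e1, ?_⟩, ?_⟩
    · intro q hq
      rw [← f3] at hq
      obtain ⟨hq1, hq2⟩ := mem_inter.mp hq
      rcases mem_insert.mp hq2 with rfl | hq2
      · intro k13
        refine e3 ?_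
        rw [pow_two]
        exact mul_dvd_mul k13 e2
      · have k13 : ¬ q ∣ lo e' := k2 q (mem_inter.mpr ⟨hq1, hq2⟩)
        intro k14
        apply k13
        rw [f2]
        exact Dvd.dvd.mul_left k14 _
    · rw [← f3]
      exact k3
  · intro e he
    rw [mem_filter, mem_filter] at he
    obtain ⟨e1, e2, e3⟩ := key e he
    obtain ⟨f1, f2, f3, f4⟩ := fact e e1 e2 e3
    rw [f3, f4, hΦ p hp e e1 e2 e3, hw p hp e e1 e2 e3]
    ring

open Classical in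
/-- PROOF. (Abstract version of `Pool.Agent.OmEq.cluster`, file `Lib_MP_f1a94e_eq/Clu.lean`; copy its structure.) Write `ds e` for the primes `p ∈ P` dividing `lo e * hi e` exactly once, `t e = log (hi e) - log (lo e)`.
Induction over subsets `Q ⊆ P`: claim
`∑_(e ∈ S) Φ e * w e (t e) = ∑_(e ∈ S, no q ∈ ds e ∩ Q divides lo e) Φ e * cs g (w e) (ds e ∩ Q) (t e)`. `Q = ∅`: `cs g w ∅ t = w t`. Step `Q → insert p Q`: the `e` of the left sum are of three kinds: `p ∉ ds e` (nothing changes);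
`p ∈ ds e`, `p ∣ hi e` (then `p ∤ lo e`); `p ∈ ds e`, `p ∣ lo e`. `tog p` is a bijection from the second to the third kind (`h1`, `h2`, `h3`): it does not change `lo * hi`, so not `ds`, it does not change the divisibility of `lo` by the other primes `q` (`lo (tog p e) = p * lo e`),
`t (tog p e) = t e - 2 log p`, `Φ (tog p e) = g p * Φ e`, `w (tog p e) = w e`. And `cs g w (insert p D) t = cs g w D t + g p * cs g w D (t - 2 log p)` for `p ∉ D` (`cs_insert` in `Lib_MP_f1a94e_eq/Clu.lean`). -/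
theorem clus_abs {ι : Type} (S : Finset ι) (lo hi : ι → ℕ) (P : Finset ℕ) (hP : ∀ p ∈ P, p.Prime)
    (tog : ℕ → ι → ι)
    (h1 : ∀ p ∈ P, ∀ e ∈ S, p ∣ hi e → ¬ p ^ 2 ∣ lo e * hi e →
      tog p e ∈ S ∧ lo (tog p e) = p * lo e ∧ p * hi (tog p e) = hi e)
    (h2 : ∀ p ∈ P, ∀ e ∈ S, p ∣ lo e → ¬ p ^ 2 ∣ lo e * hi e →
      ∃ e' ∈ S, p ∣ hi e' ∧ ¬ p ^ 2 ∣ lo e' * hi e' ∧ tog p e' = e)
    (h3 : ∀ p ∈ P, ∀ e ∈ S, ∀ e' ∈ S, p ∣ hi e → p ∣ hi e' → tog p e = tog p e' → e = e')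
    (hlo : ∀ e ∈ S, 0 < lo e) (hhi : ∀ e ∈ S, 0 < hi e) (g : ℕ → ℂ) (Φ : ι → ℂ)
    (hΦ : ∀ p ∈ P, ∀ e ∈ S, p ∣ hi e → ¬ p ^ 2 ∣ lo e * hi e → Φ (tog p e) = g p * Φ e)
    (w : ι → ℝ → ℂ) (hw : ∀ p ∈ P, ∀ e ∈ S, p ∣ hi e → ¬ p ^ 2 ∣ lo e * hi e → w (tog p e) = w e) :
    ∑ e ∈ S, Φ e * w e (Real.log (hi e) - Real.log (lo e)) =
      ∑ e ∈ S.filter (fun e => ∀ p ∈ P.filter (fun p => p ∣ lo e * hi e ∧ ¬ p ^ 2 ∣ lo e * hi e), ¬ p ∣ lo e),
        Φ e * cs g (w e) (P.filter (fun p => p ∣ lo e * hi e ∧ ¬ p ^ 2 ∣ lo e * hi e))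
          (Real.log (hi e) - Real.log (lo e)) := by
  set D : ι → Finset ℕ := fun e => P.filter (fun p => p ∣ lo e * hi e ∧ ¬ p ^ 2 ∣ lo e * hi e) with hDdef
  have hD : ∀ e, D e = P.filter (fun p => p ∣ lo e * hi e ∧ ¬ p ^ 2 ∣ lo e * hi e) := fun e => rfl
  have key : ∀ Q : Finset ℕ, Q ⊆ P → ∑ e ∈ S, Φ e * w e (Real.log (hi e) - Real.log (lo e)) =
      ∑ e ∈ S.filter (fun e => ∀ q ∈ D e ∩ Q, ¬ q ∣ lo e),
        Φ e * cs g (w e) (D e ∩ Q) (Real.log (hi e) - Real.log (lo e)) := by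
    intro Q
    induction Q using Finset.induction_on with
    | empty =>
      intro _
      have k1 : S.filter (fun e => ∀ q ∈ D e ∩ (∅ : Finset ℕ), ¬ q ∣ lo e) = S := by
        refine Finset.filter_true_of_mem fun e _ q hq => ?_
        rw [Finset.inter_empty] at hq
        exact absurd hq (Finset.notMem_empty q)
      rw [k1]
      refine Finset.sum_congr rfl fun e _ => ?_
      rw [Finset.inter_empty]
      unfold cs
      rw [Finset.powerset_empty, Finset.sum_singleton, Finset.prod_empty, one_mul]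
      unfold lg
      rw [Finset.sum_empty, mul_zero, sub_zero]
    | insert p Q hpQ ih =>
      intro hQ
      rw [ih (fun q hq => hQ (mem_insert_of_mem hq))]
      exact clus_step S lo hi P hP tog h1 h2 h3 hlo hhi g Φ hΦ w hw Q p hpQ (hQ (mem_insert_self _ _)) D hD
  rw [key P (Finset.Subset.refl _)]
  have k2 : ∀ e : ι, D e ∩ P = D e := fun e =>
    Finset.inter_eq_left.mpr (Finset.filter_subset _ _)
  refine Finset.sum_congr ?_ fun e _ => ?_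
  · ext e
    simp only [mem_filter, mem_inter, hDdef]
    exact ⟨fun h => ⟨h.1, fun q hq => h.2 q ⟨hq, hq.1⟩⟩, fun h => ⟨h.1, fun q hq => h.2 q hq.1⟩⟩
  · rw [k2]

end Pool.Agent.Spl
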