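import Pool.Agent.Lib_MP_92ef0c_sp.SDefs0
import Pool.Agent.Lib_MP_f1a94e_aq.CopA
import Pool.Agent.Lib_MP_f1a94e_eq.BDefs
import Pool.Agent.Lib_MP_f1a94e_eq.NpT

/-!
# Counting matrices
-/

set_option autoImplicit false

namespace Pool.Agent.Spl

open Finset Pool.Agent.GaussMR Pool.Agent.OmAll Pool.Agent.OmEq

/-- the bounds for the entries -/
theorem cnt3_bounds {B : ℝ} {n : ℕ} {x : ℝ} (hnx : (n : ℝ) ≤ x) {e : Q4} (h : Sn n e) (hy : yS e ≤ x)
    (ht : |tS e| ≤ B) (hu : |uS e| ≤ B) :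
    (e.a : ℝ) ^ 2 ≤ 2 * Real.exp B * x ∧ (e.b : ℝ) ^ 2 ≤ Real.exp B * x ∧
      (e.c : ℝ) ≤ Real.exp B ^ 2 * e.a := by
  obtain ⟨h1, ha, hb, hc, hd, -, -⟩ := h
  have ha' : (0 : ℝ) < e.a := by exact_mod_cast ha
  have hb' : (0 : ℝ) < e.b := by exact_mod_cast hb
  have hc' : (0 : ℝ) < e.c := by exact_mod_cast hc
  have hd' : (0 : ℝ) < e.d := by exact_mod_cast hd
  have hE : 0 < Real.exp B := Real.exp_pos B
  have key : ∀ u v : ℝ, 0 < u → 0 < v → Real.log u - Real.log v ≤ B → u ≤ Real.exp B * v := by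
    intro u v hu hv h
    have h2 : Real.log u ≤ B + Real.log v := by linarith
    have h3 := Real.exp_le_exp.2 h2
    rwa [Real.exp_log hu, Real.exp_add, Real.exp_log hv] at h3
  unfold tS at ht
  unfold uS at hu
  have hda := key _ _ hd' ha' (abs_le.1 ht).2
  have had := key _ _ ha' hd' (by linarith [(abs_le.1 ht).1])
  have hcb := key _ _ hc' hb' (abs_le.1 hu).2
  have hbc := key _ _ hb' hc' (by linarith [(abs_le.1 hu).1])
  have h1' : (e.a : ℝ) * e.d = e.b * e.c + n := by exact_mod_cast h1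
  have hn : (0 : ℝ) ≤ n := Nat.cast_nonneg n
  unfold yS at hy
  have hA : (e.a : ℝ) ^ 2 ≤ 2 * Real.exp B * x := by
    have h2 : (e.a : ℝ) ^ 2 ≤ Real.exp B * (e.a * e.d) := by nlinarith
    have h3 : (e.a : ℝ) * e.d ≤ 2 * x := by linarith
    nlinarith
  have hBb : (e.b : ℝ) ^ 2 ≤ Real.exp B * x := by
    have h2 : (e.b : ℝ) ^ 2 ≤ Real.exp B * (e.b * e.c) := by nlinarith
    nlinarith
  refine ⟨hA, hBb, ?_⟩
  have h4 : (e.b : ℝ) ^ 2 ≤ (Real.exp B * e.a) ^ 2 := by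
    have h2 : (e.b : ℝ) ^ 2 ≤ Real.exp B * (e.b * e.c) := by nlinarith
    have h3 : (e.b : ℝ) * e.c ≤ e.a * e.d := by linarith
    have h5 : (e.a : ℝ) * e.d ≤ Real.exp B * e.a ^ 2 := by nlinarith
    have h6 : Real.exp B * ((e.b : ℝ) * e.c) ≤ Real.exp B * (Real.exp B * (e.a : ℝ) ^ 2) :=
      mul_le_mul_of_nonneg_left (h3.trans h5) hE.le
    calc (e.b : ℝ) ^ 2 ≤ Real.exp B * (e.b * e.c) := h2
      _ ≤ Real.exp B * (Real.exp B * (e.a : ℝ) ^ 2) := h6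
      _ = (Real.exp B * e.a) ^ 2 := by ring
  have h5 : (e.b : ℝ) ≤ Real.exp B * e.a := le_of_sq_le_sq h4 (by positivity)
  calc (e.c : ℝ) ≤ Real.exp B * e.b := hcb
    _ ≤ Real.exp B * (Real.exp B * e.a) := mul_le_mul_of_nonneg_left h5 hE.le
    _ = Real.exp B ^ 2 * e.a := by ring

/-- the entries `a`, `b` and the quotient `c / a` determine the matrix -/
theorem cnt3_inj {n : ℕ} {e f : Q4} (he : Sn n e) (hf : Sn n f) (ha : e.a = f.a) (hb : e.b = f.b)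
    (hq : e.c / e.a = f.c / f.a) : e = f := by
  obtain ⟨h1, hea, heb, hec, hed, hcop, -⟩ := he
  obtain ⟨h2, hfa, hfb, hfc, hfd, -, -⟩ := hf
  rw [← ha, ← hb] at h2
  rw [← ha] at hq
  have h3 : e.b * e.c + n ≡ e.b * f.c + n [MOD e.a] := by
    rw [← h1, ← h2]
    exact ((Nat.modEq_zero_iff_dvd.2 (dvd_mul_right _ _))).trans
      ((Nat.modEq_zero_iff_dvd.2 (dvd_mul_right _ _))).symm
  have h4 : e.b * e.c ≡ e.b * f.c [MOD e.a] := Nat.ModEq.add_right_cancel' n h3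
  have h5 : e.c ≡ f.c [MOD e.a] := Nat.ModEq.cancel_left_of_coprime hcop h4
  have h6 : e.c = f.c := by
    have h7 := Nat.div_add_mod e.c e.a
    have h8 := Nat.div_add_mod f.c e.a
    have h9 : e.c % e.a = f.c % e.a := h5
    rw [← h7, ← h8, hq, h9]
  have h7 : e.d = f.d := by
    rw [← h6] at h2
    exact Nat.eq_of_mul_eq_mul_left hea (h1.trans h2.symm)
  exact Q4.ext ha hb h6 h7

open Classical in
/-- PROOF. We may assume `B ≥ 0` (otherwise the set is empty). `c ≥ exp(-B) b`, so `b^2 ≤ exp B b c ≤ exp B x`; `d ≥ exp(-B) a`, so `a^2 ≤ exp B a d ≤ 2 exp B x` (`a d = b c + n ≤ 2 x`): at most `2 exp B x` pairs `(a, b)`. Also `exp(-B) b^2 ≤ b c < a d ≤ exp B a^2`, so `b ≤ exp B a`.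
For given `(a, b)` the number `c` is determined modulo `a` (`b c ≡ - n mod a`, `(a, b) = 1`) and `1 ≤ c ≤ exp B b ≤ exp(2 B) a`: at most `exp(2 B) + 1` values; `d` is determined by `a, b, c`. -/
theorem cnt3 (B : ℝ) : ∃ C : ℝ, 0 < C ∧ ∀ n : ℕ, 0 < n → ∀ x : ℝ, (n : ℝ) ≤ x →
    (((SN n x).filter (fun e => |tS e| ≤ B ∧ |uS e| ≤ B)).card : ℝ) ≤ C * x := by
  have hE : 0 < Real.exp B := Real.exp_pos B
  refine ⟨2 * Real.exp B * (Real.exp B ^ 2 + 1), by positivity, ?_⟩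
  intro n hn x hnx
  have hx : 0 ≤ x := (Nat.cast_nonneg n).trans hnx
  set A : ℕ := ⌊Real.sqrt (2 * Real.exp B * x)⌋₊ with hA
  set D : ℕ := ⌊Real.sqrt (Real.exp B * x)⌋₊ with hD
  set K : ℕ := ⌊Real.exp B ^ 2⌋₊ with hK
  have hcard : ((SN n x).filter (fun e => |tS e| ≤ B ∧ |uS e| ≤ B)).card ≤
      ((Icc 1 A ×ˢ Icc 1 D) ×ˢ range (K + 1)).card := by
    apply card_le_card_of_injOn (fun e => ((e.a, e.b), e.c / e.a))
    · intro e he
      have he' := (mem_filter.1 (mem_coe.1 he))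
      obtain ⟨h1, h2, h3⟩ := he'
      obtain ⟨h4, h5⟩ := mem_SN.1 h1
      obtain ⟨b1, b2, b3⟩ := cnt3_bounds hnx h4 h5 h2 h3
      obtain ⟨-, ha, hb, -⟩ := h4
      have ha' : (0 : ℝ) < e.a := by exact_mod_cast ha
      simp only [coe_product, Set.mem_prod, coe_Icc, Set.mem_Icc, coe_range, Set.mem_Iio]
      refine ⟨⟨⟨ha, Nat.le_floor (Real.le_sqrt_of_sq_le b1)⟩, hb, Nat.le_floor (Real.le_sqrt_of_sq_le b2)⟩, ?_⟩
      have h6 : ((e.c / e.a : ℕ) : ℝ) ≤ Real.exp B ^ 2 := by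
        have h7 : ((e.c / e.a : ℕ) : ℝ) * e.a ≤ e.c := by exact_mod_cast Nat.div_mul_le_self e.c e.a
        have h8 : ((e.c / e.a : ℕ) : ℝ) * e.a ≤ Real.exp B ^ 2 * e.a := h7.trans b3
        exact le_of_mul_le_mul_right h8 ha'
      exact Nat.lt_succ_of_le (Nat.le_floor h6)
    · intro e he f hf hef
      have he' := (mem_SN.1 (mem_filter.1 (mem_coe.1 he)).1).1
      have hf' := (mem_SN.1 (mem_filter.1 (mem_coe.1 hf)).1).1
      simp only [Prod.mk.injEq] at hef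
      exact cnt3_inj he' hf' hef.1.1 hef.1.2 hef.2
  have h1 : (((Icc 1 A ×ˢ Icc 1 D) ×ˢ range (K + 1)).card : ℝ) = A * D * (K + 1) := by
    rw [card_product, card_product, Nat.card_Icc, Nat.card_Icc, card_range]
    push_cast
    simp
  have hA' : (A : ℝ) ≤ Real.sqrt (2 * Real.exp B * x) := Nat.floor_le (Real.sqrt_nonneg _)
  have hD' : (D : ℝ) ≤ Real.sqrt (2 * Real.exp B * x) :=
    (Nat.floor_le (Real.sqrt_nonneg _)).trans (Real.sqrt_le_sqrt (by nlinarith))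
  have hK' : (K : ℝ) ≤ Real.exp B ^ 2 := Nat.floor_le (by positivity)
  have h2 : (A : ℝ) * D ≤ 2 * Real.exp B * x := by
    calc (A : ℝ) * D ≤ Real.sqrt (2 * Real.exp B * x) * Real.sqrt (2 * Real.exp B * x) :=
          mul_le_mul hA' hD' (Nat.cast_nonneg _) (Real.sqrt_nonneg _)
      _ = 2 * Real.exp B * x := Real.mul_self_sqrt (by positivity)
  calc ((((SN n x).filter (fun e => |tS e| ≤ B ∧ |uS e| ≤ B)).card : ℕ) : ℝ)
      ≤ (((Icc 1 A ×ˢ Icc 1 D) ×ˢ range (K + 1)).card : ℝ) := by exact_mod_cast hcard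
    _ = A * D * (K + 1) := h1
    _ ≤ (2 * Real.exp B * x) * (Real.exp B ^ 2 + 1) :=
        mul_le_mul h2 (by linarith) (by positivity) (by positivity)
    _ = 2 * Real.exp B * (Real.exp B ^ 2 + 1) * x := by ring

end Pool.Agent.Spl
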