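import Pool.Agent.Lib_MP_92ef0c_sp.EqArc0

/-!
# Matrices of determinant 1 with the first row in an arc
-/

set_option autoImplicit false

namespace Pool.Agent.Spl

open Finset Pool.Agent.GaussMR Pool.Agent.OmAll Pool.Agent.OmEq Filter

open Classical in
/-- PROOF. Let `z0 = S u + v`, `z1 = (S + M) u + v`; both have positive coordinates, `re z0 ≤ re z1 ≤ (1 + M/S) re z0` and the same for `im` (`M u ≤ (M/S) S u` coordinatewise). If `V = α u + β v` is in the arc, `V = β z`, `z = σ u + v`, `S ≤ σ < S + M`, so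
`re z0 ≤ re z ≤ (1+M/S) re z0`, same for `im`; with `ρ = im V / re V` and `ρ0 = im z0 / re z0`: `ρ / ρ0 ∈ [1/(1+M/S), 1+M/S]`, hence for `ψ(ρ) = ρ + 1/ρ = nm z / (re z im z)`: `ψ(ρ)/ψ(ρ0) ∈ [1/(1+M/S), 1+M/S]`.
A matrix `e = (a b; c d) ∈ SN 1 x` is the edge `V = ⟨a, b⟩`, `V' = ⟨c, d⟩`, `det V V' = a d - b c = 1`. With `r = c / a = exp (wS e)`: `d = (b c + 1) / a = r b + 1/a`, so `V' = r V + ⟨0, 1/a⟩`, `dot V V' = r nm V + b / a`, `nm V' = r^2 nm V + 2 r b/a + 1/a^2`. For `w1 ≤ wS e < w2` and `ρ` in the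
compact range above, `nm V' / nm V = r^2 (1 + O(1/nm V))` and `dot / (b c) = (a c + b d)/(b c) = ψ(ρ) (1 + O(1/nm V))`. Given `δ > 0`, except for finitely many `V` (`nm V ≤ B0(δ)`; for each such `V` the number of `V'` with `c < exp w2 a` is bounded, so altogether `O(1)` matrices):
`e` with `w1 ≤ wS < w2`, `b c ≤ x` lies in `NE M γ' (2 w1 - δ) (2 w2 + δ) (x ψ(ρ0) (1 + M/S) (1 + δ))`, and conversely an edge in the arc that is in `NE M γ' (2 w1 + δ) (2 w2 - δ) (x ψ(ρ0) (1+M/S)⁻¹ (1-δ))` and has large norm gives such an `e` (`c > 0` as `nm V' > exp(..) nm V` and the edge is nearly parallel to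
`V`: `c = r a` with `r > 0`; `d > 0`; rows primitive). `γ' = (⟨γ.a, γ.b⟩, ⟨γ.c, γ.d⟩)`, `cg M` against `Nat.ModEq`: `Int.natCast_modEq_iff`. By `arc_asymp` (constant `c`) the number is at most `c (2 (w2 - w1) + 2 δ)/(nm z0) * x ψ(ρ0) (1+M/S)(1+δ) + ε' x + O(1)` and `ψ(ρ0)/nm z0 = 1/(re z0 im z0)`; from below with
`nm z1 ≤ (1+M/S)^2 nm z0`. Finally `λ = |dl z1 - dl z0| = |log X - log Y|`, `X = im z1 re z0`, `Y = re z1 im z0`, `|X - Y| = |det z0 z1| = M`, both in `[re z0 im z0, (1+M/S) re z0 im z0]`, so `M / ((1+M/S) re z0 im z0) ≤ λ ≤ M / (re z0 im z0)`. Let `δ, ε' → 0`. -/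
theorem arcS' (hUp : EqArc.UpperS) (hLo : EqArc.LowerS) (M : ℕ) (hM : 0 < M) (c : ℝ) (hc : CopC M c) (γ : Q4) (hγ : γ.a * γ.d ≡ γ.b * γ.c + 1 [MOD M])
    (u v : G) (huv : Fr u v) (S : ℕ) (hS : 2 ≤ S) (w1 w2 : ℝ) (hw : w1 ≤ w2) (ε : ℝ) (hε : 0 < ε) :
    ∃ x0 : ℝ, ∀ x : ℝ, x0 ≤ x →
      2 * c / M * (w2 - w1) * |dl ((((S : ℤ) + M : ℤ) : G) * u + v) - dl (((S : ℤ) : G) * u + v)| / (1 + (M : ℝ) / S) ^ 4 * x - ε * x ≤
        (((SN 1 x).filter (fun e => cq M e γ ∧ (⟨(e.a : ℤ), (e.b : ℤ)⟩ : G) ∈ arc u v S M ∧ w1 ≤ wS e ∧ wS e < w2)).card : ℝ) ∧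
      (((SN 1 x).filter (fun e => cq M e γ ∧ (⟨(e.a : ℤ), (e.b : ℤ)⟩ : G) ∈ arc u v S M ∧ w1 ≤ wS e ∧ wS e < w2)).card : ℝ) ≤
        2 * c / M * (w2 - w1) * |dl ((((S : ℤ) + M : ℤ) : G) * u + v) - dl (((S : ℤ) : G) * u + v)| * (1 + (M : ℝ) / S) ^ 4 * x + ε * x := by
  have hc0 := copC_nonneg M c hc
  have hMr : (0 : ℝ) < M := by exact_mod_cast hM
  have hSr : (0 : ℝ) < S := by
    have : 0 < S := by omega
    exact_mod_cast this
  obtain ⟨P1, P2⟩ := EqArc.pos_re huv (k := (S : ℤ)) (by exact_mod_cast hS)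
  obtain ⟨R, hR⟩ : ∃ R : ℝ, R = ((((S : ℤ) : G) * u + v).re : ℝ) := ⟨_, rfl⟩
  obtain ⟨I, hI⟩ : ∃ I : ℝ, I = ((((S : ℤ) : G) * u + v).im : ℝ) := ⟨_, rfl⟩
  obtain ⟨K, hK⟩ : ∃ K : ℝ, K = 1 + (M : ℝ) / S := ⟨_, rfl⟩
  have hRp : 0 < R := by rw [hR]; exact_mod_cast (by omega : (0 : ℤ) < (((S : ℤ) : G) * u + v).re)
  have hIp : 0 < I := by rw [hI]; exact_mod_cast (by omega : (0 : ℤ) < (((S : ℤ) : G) * u + v).im)
  have hK1 : 1 ≤ K := by
    rw [hK]
    have : 0 ≤ (M : ℝ) / S := by positivity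
    linarith
  have hKp : 0 < K := by linarith
  obtain ⟨hl1, hl2⟩ := EqArc.lam_bd u v huv S M hS hR hI hK
  have hrat := arc_ratio u v huv S M (by omega)
  rw [← hK] at hrat ⊢
  obtain ⟨L, hL⟩ : ∃ L : ℝ, L = |dl ((((S : ℤ) + M : ℤ) : G) * u + v) - dl (((S : ℤ) : G) * u + v)| := ⟨_, rfl⟩
  rw [← hL] at hl1 hl2 ⊢
  have hL0 : 0 ≤ L := by rw [hL]; positivity
  obtain ⟨q0, hq0⟩ : ∃ q0 : ℝ, q0 = (nm (((S : ℤ) : G) * u + v) : ℝ) := ⟨_, rfl⟩
  obtain ⟨q1, hq1⟩ : ∃ q1 : ℝ, q1 = (nm ((((S : ℤ) + M : ℤ) : G) * u + v) : ℝ) := ⟨_, rfl⟩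
  have hq0' : q0 = R ^ 2 + I ^ 2 := by rw [hq0, EqArc.nm_r, hR, hI]
  have hq0p : 0 < q0 := by rw [hq0']; positivity
  rw [← hq0, ← hq1] at hrat
  have hq1p : 0 < q1 := by
    rw [hq1]
    have hne : nm ((((S : ℤ) + M : ℤ) : G) * u + v) ≠ 0 := by
      rw [Ne, nm_eq_zero]
      intro h0
      have hSM : (2 : ℤ) ≤ (S : ℤ) + M := by
        have : (2 : ℤ) ≤ S := by exact_mod_cast hS
        omega
      obtain ⟨P3, -⟩ := EqArc.pos_re huv (k := (S : ℤ) + M) hSM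
      rw [h0] at P3
      simp at P3
    exact_mod_cast Nat.pos_of_ne_zero hne
  obtain ⟨p, hp⟩ : ∃ p : ℝ, p = R * I := ⟨_, rfl⟩
  have hpp : 0 < p := by rw [hp]; positivity
  rw [← hp] at hl1 hl2
  obtain ⟨w, hw'⟩ : ∃ w : ℝ, w = w2 - w1 := ⟨_, rfl⟩
  have hw0 : 0 ≤ w := by linarith
  -- `1 / p ≤ K L / M` and `L / M ≤ 1 / p`
  have hp1 : 1 / p ≤ K * L / M := by
    rw [div_le_div_iff₀ hpp hMr]
    rw [div_le_iff₀ (by positivity)] at hl1
    linarith
  have hp2 : L / M ≤ 1 / p := by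
    rw [div_le_div_iff₀ hMr hpp]
    rw [le_div_iff₀ hpp] at hl2
    linarith
  have hγ' : (M : ℤ) ∣ det (EqArc.phi γ).1 (EqArc.phi γ).2 - 1 := by
    have := EqArc.dvd_of_modEq hγ
    unfold det EqArc.phi
    push_cast at this
    have e : (γ.a : ℤ) * γ.d - γ.b * γ.c - 1 = γ.a * γ.d - (γ.b * γ.c + 1) := by ring
    simp only
    rw [e]
    exact this
  -- choice of `δ`
  obtain ⟨A, hA⟩ : ∃ A : ℝ, A = c * K ^ 2 * L / M * (2 * w + 2) + c * L / M + 1 := ⟨_, rfl⟩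
  have hAp : 0 < A := by rw [hA]; positivity
  obtain ⟨δ, hδ, hδ1, hδA⟩ : ∃ δ : ℝ, 0 < δ ∧ δ ≤ 1 ∧ A * δ ≤ ε / 4 := by
    refine ⟨min 1 (ε / 4 / A), lt_min one_pos (by positivity), min_le_left _ _, ?_⟩
    calc A * min 1 (ε / 4 / A) ≤ A * (ε / 4 / A) := mul_le_mul_of_nonneg_left (min_le_right _ _) hAp.le
      _ = ε / 4 := by field_simp
  have hδ2 : c * K ^ 2 * L / M * (2 * w + 2) * δ ≤ ε / 4 := by
    refine le_trans (mul_le_mul_of_nonneg_right ?_ hδ.le) hδA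
    rw [hA]
    have : 0 ≤ c * L / M := by positivity
    linarith
  have hδ3 : c * L / M * δ ≤ ε / 4 := by
    refine le_trans (mul_le_mul_of_nonneg_right ?_ hδ.le) hδA
    rw [hA]
    have : 0 ≤ c * K ^ 2 * L / M * (2 * w + 2) := by positivity
    linarith
  -- choice of `ε'`
  obtain ⟨T, hT⟩ : ∃ T : ℝ, T = K * q0 / p * 2 := ⟨_, rfl⟩
  have hTp : 0 < T := by rw [hT]; positivity
  obtain ⟨ε', hε', hεT⟩ : ∃ ε' : ℝ, 0 < ε' ∧ ε' * T ≤ ε / 4 :=
    ⟨ε / 4 / T, by positivity, by field_simp; exact le_refl _⟩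
  -- choice of `B`
  obtain ⟨B, hB1, hB2, hB3⟩ : ∃ B : ℝ, 1 < Real.exp (2 * w1 + δ) * B ∧ 3 * (K * I) ≤ δ * Real.exp w1 * R * B ∧
      3 * (K * I) ≤ δ * Real.exp w2 * R * B := by
    have e1 := Real.exp_pos (2 * w1 + δ)
    have e2 := Real.exp_pos w1
    have e3 : Real.exp w1 ≤ Real.exp w2 := Real.exp_le_exp.2 hw
    have e4 : 0 < δ * Real.exp w1 * R := by positivity
    have e5 : 0 < 3 * (K * I) := by positivity
    refine ⟨2 / Real.exp (2 * w1 + δ) + 3 * (K * I) / (δ * Real.exp w1 * R), ?_, ?_, ?_⟩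
    · rw [mul_add, mul_div_cancel₀ _ e1.ne']
      have : 0 < Real.exp (2 * w1 + δ) * (3 * (K * I) / (δ * Real.exp w1 * R)) := by positivity
      linarith
    · rw [mul_add, mul_div_cancel₀ _ e4.ne']
      have : 0 < δ * Real.exp w1 * R * (2 / Real.exp (2 * w1 + δ)) := by positivity
      linarith
    · have e6 : δ * Real.exp w1 * R ≤ δ * Real.exp w2 * R := by
        apply mul_le_mul_of_nonneg_right _ hRp.le
        exact mul_le_mul_of_nonneg_left e3 hδ.le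
      have e7 : 0 ≤ 2 / Real.exp (2 * w1 + δ) + 3 * (K * I) / (δ * Real.exp w1 * R) := by positivity
      refine le_trans ?_ (mul_le_mul_of_nonneg_right e6 e7)
      rw [mul_add, mul_div_cancel₀ _ e4.ne']
      have : 0 < δ * Real.exp w1 * R * (2 / Real.exp (2 * w1 + δ)) := by positivity
      linarith
  have hup := hUp M γ u v huv S hS w1 w2 δ B R I K hδ hR hI hK hB3
  have hlo := hLo M γ u v huv S hS w1 w2 δ B R I K hδ hR hI hK hB1 hB2
  rw [← hp, ← hq0'] at hup hlo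
  obtain ⟨C2, hC2⟩ : ∃ C2 : ℝ, C2 = ((EqArc.Sm B ((Real.exp (2 * w2) + 3 * Real.exp w2) * B)).ncard : ℝ) := ⟨_, rfl⟩
  obtain ⟨C3, hC3⟩ : ∃ C3 : ℝ, C3 = ((EqArc.Sm B (Real.exp (2 * w2) * B)).ncard : ℝ) := ⟨_, rfl⟩
  have hC20 : 0 ≤ C2 := by rw [hC2]; positivity
  have hC30 : 0 ≤ C3 := by rw [hC3]; positivity
  have hcard : ∀ x : ℝ, ((SN 1 x).filter (fun e => cq M e γ ∧ (⟨(e.a : ℤ), (e.b : ℤ)⟩ : G) ∈ arc u v S M ∧ w1 ≤ wS e ∧ wS e < w2)) =
      ((SN 1 x).filter (fun e => EqArc.FP M γ u v S w1 w2 e)) := by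
    intro x
    ext e
    rw [mem_filter, mem_filter]
    rfl
  simp only [hcard]
  -- upper
  have hU : ∃ x0 : ℝ, ∀ x : ℝ, x0 ≤ x → (((SN 1 x).filter (fun e => EqArc.FP M γ u v S w1 w2 e)).card : ℝ) ≤
      2 * c / M * (w2 - w1) * L * K ^ 4 * x + ε * x := by
    obtain ⟨x1, hx1⟩ := arc_asymp M hM c hc (EqArc.phi γ) hγ' u v huv S hS (2 * w1) (2 * w2 + δ) (by linarith) ε' hε'
    rw [← hq0] at hx1
    refine ⟨max (max 1 (1 / δ)) (max (x1 * p / (K * q0)) (4 * C2 / ε)), fun x hx => ?_⟩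
    have f1 : 1 ≤ x := (le_max_left _ _).trans ((le_max_left _ _).trans hx)
    have f2 : 1 / δ ≤ x := (le_max_right _ _).trans ((le_max_left _ _).trans hx)
    have f3 : x1 * p / (K * q0) ≤ x := (le_max_left _ _).trans ((le_max_right _ _).trans hx)
    have f4 : 4 * C2 / ε ≤ x := (le_max_right _ _).trans ((le_max_right _ _).trans hx)
    rw [div_le_iff₀ hδ] at f2
    rw [div_le_iff₀ (by positivity)] at f3
    rw [div_le_iff₀ hε] at f4
    have g1 : x1 ≤ K * q0 * (x + 1) / p := by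
      rw [le_div_iff₀ hpp]
      have : 0 < K * q0 := by positivity
      linarith
    have g2 := (hx1 _ g1).2
    have g3 := hup x
    have g4 : (((SN 1 x).filter (fun e => EqArc.FP M γ u v S w1 w2 e)).card : ℝ) ≤
      ({e : G × G | e ∈ NE M (EqArc.phi γ) (2 * w1) (2 * w2 + δ) (K * q0 * (x + 1) / p) ∧ e.1 ∈ arc u v S M}.ncard : ℝ) + C2 := by
      rw [hC2]; exact_mod_cast g3
    refine g4.trans ?_
    have g5 : x + 1 ≤ (1 + δ) * x := by linarith
    have g6 : c * (2 * w2 + δ - 2 * w1) / q0 * (K * q0 * (x + 1) / p) = c * (2 * w + δ) * K * (x + 1) * (1 / p) := by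
      rw [hw']; field_simp; ring
    have g7 : c * (2 * w + δ) * K * (x + 1) * (1 / p) ≤ c * (2 * w + δ) * K * ((1 + δ) * x) * (K * L / M) := by
      apply mul_le_mul _ hp1 (by positivity) (by positivity)
      exact mul_le_mul_of_nonneg_left g5 (by positivity)
    have g8 : c * (2 * w + δ) * K * ((1 + δ) * x) * (K * L / M) =
      2 * c / M * w * L * K ^ 2 * x + c * K ^ 2 * L / M * (2 * w + 1 + δ) * δ * x := by field_simp; ring
    have g9 : c * K ^ 2 * L / M * (2 * w + 1 + δ) * δ * x ≤ ε / 4 * x := by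
      apply mul_le_mul_of_nonneg_right _ (by linarith)
      refine le_trans ?_ hδ2
      apply mul_le_mul_of_nonneg_right _ hδ.le
      apply mul_le_mul_of_nonneg_left _ (by positivity)
      linarith
    have g10 : ε' * (K * q0 * (x + 1) / p) ≤ ε / 4 * x := by
      have e1 : ε' * (K * q0 * (x + 1) / p) = ε' * T * ((x + 1) / 2) := by rw [hT]; field_simp
      rw [e1]
      have e2 : (x + 1) / 2 ≤ x := by linarith
      exact mul_le_mul hεT e2 (by linarith) (by positivity)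
    have g11 : 2 * c / M * w * L * K ^ 2 * x ≤ 2 * c / M * w * L * K ^ 4 * x := by
      apply mul_le_mul_of_nonneg_right _ (by linarith)
      apply mul_le_mul_of_nonneg_left _ (by positivity)
      exact pow_le_pow_right₀ hK1 (by norm_num)
    rw [← hw']
    rw [g6] at g2
    linarith
  -- lower
  have hLo : ∃ x0 : ℝ, ∀ x : ℝ, x0 ≤ x → 2 * c / M * (w2 - w1) * L / K ^ 4 * x - ε * x ≤
      (((SN 1 x).filter (fun e => EqArc.FP M γ u v S w1 w2 e)).card : ℝ) := by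
    have hK4 : (1 : ℝ) ≤ K ^ 4 := one_le_pow₀ hK1
    by_cases hwδ : δ ≤ 2 * w
    · obtain ⟨x1, hx1⟩ := arc_asymp M hM c hc (EqArc.phi γ) hγ' u v huv S hS (2 * w1 + δ) (2 * w2) (by linarith) ε' hε'
      rw [← hq1] at hx1
      refine ⟨max 1 (max (x1 * (K * p) / q0) (4 * C3 / ε)), fun x hx => ?_⟩
      have f1 : 1 ≤ x := (le_max_left _ _).trans hx
      have f3 : x1 * (K * p) / q0 ≤ x := (le_max_left _ _).trans ((le_max_right _ _).trans hx)
      have f4 : 4 * C3 / ε ≤ x := (le_max_right _ _).trans ((le_max_right _ _).trans hx)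
      rw [div_le_iff₀ hq0p] at f3
      rw [div_le_iff₀ hε] at f4
      have g1 : x1 ≤ x * q0 / (K * p) := by
        rw [le_div_iff₀ (by positivity)]
        linarith
      have g2 := (hx1 _ g1).1
      have g3 := hlo x
      have g4 : ({e : G × G | e ∈ NE M (EqArc.phi γ) (2 * w1 + δ) (2 * w2) (x * q0 / (K * p)) ∧ e.1 ∈ arc u v S M}.ncard : ℝ) ≤
        (((SN 1 x).filter (fun e => EqArc.FP M γ u v S w1 w2 e)).card : ℝ) + C3 := by
        rw [hC3]; exact_mod_cast g3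
      have g6 : c * (2 * w - δ) / (K ^ 2 * q0) * (x * q0 / (K * p)) ≤ c * (2 * w2 - (2 * w1 + δ)) / q1 * (x * q0 / (K * p)) := by
        have e0 : 2 * w2 - (2 * w1 + δ) = 2 * w - δ := by rw [hw']; ring
        rw [e0]
        apply mul_le_mul_of_nonneg_right _ (by positivity)
        have e1 : 0 ≤ c * (2 * w - δ) := mul_nonneg hc0 (by linarith)
        exact div_le_div_of_nonneg_left e1 hq1p hrat
      have g7 : c * (2 * w - δ) / (K ^ 2 * q0) * (x * q0 / (K * p)) = c * (2 * w - δ) / K ^ 3 * x * (1 / p) := by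
        field_simp
      have g8 : c * (2 * w - δ) / K ^ 4 * x * (L / M) ≤ c * (2 * w - δ) / K ^ 3 * x * (1 / p) := by
        have e1 : 0 ≤ c * (2 * w - δ) := mul_nonneg hc0 (by linarith)
        apply mul_le_mul _ hp2 (by positivity) (by positivity)
        apply mul_le_mul_of_nonneg_right _ (by linarith)
        apply div_le_div_of_nonneg_left e1 (by positivity)
        exact pow_le_pow_right₀ hK1 (by norm_num)
      have g9 : c * (2 * w - δ) / K ^ 4 * x * (L / M) = 2 * c / M * w * L / K ^ 4 * x - (c * L / M * δ) * x / K ^ 4 := by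
        field_simp
      have g10 : (c * L / M * δ) * x / K ^ 4 ≤ ε / 4 * x := by
        have e1 : 0 ≤ (c * L / M * δ) * x := by positivity
        refine (div_le_self e1 hK4).trans ?_
        exact mul_le_mul_of_nonneg_right hδ3 (by linarith)
      have g11 : ε' * (x * q0 / (K * p)) ≤ ε / 4 * x := by
        have e1 : x * q0 / (K * p) ≤ T * x := by
          rw [hT]
          have e2 : x * q0 / (K * p) ≤ x * q0 / p := by
            apply div_le_div_of_nonneg_left (by positivity) hpp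
            exact le_mul_of_one_le_left hpp.le hK1
          have e3 : K * q0 / p * 2 * x = (x * q0 / p) * (2 * K) := by ring
          rw [e3]
          refine e2.trans ?_
          have e4 : 0 ≤ x * q0 / p := by positivity
          exact le_mul_of_one_le_right e4 (by linarith only [hK1])
        calc ε' * (x * q0 / (K * p)) ≤ ε' * (T * x) := mul_le_mul_of_nonneg_left e1 hε'.le
          _ = ε' * T * x := by ring
          _ ≤ ε / 4 * x := mul_le_mul_of_nonneg_right hεT (by linarith)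
      rw [← hw']
      linarith
    · push Not at hwδ
      refine ⟨0, fun x hx => ?_⟩
      have e1 : 2 * c / M * (w2 - w1) * L / K ^ 4 * x ≤ ε * x := by
        apply mul_le_mul_of_nonneg_right _ hx
        rw [← hw']
        have e2 : 0 ≤ 2 * c / M * w * L := by positivity
        refine (div_le_self e2 hK4).trans ?_
        have e3 : 2 * c / M * w * L = c * L / M * (2 * w) := by ring
        rw [e3]
        have e4 : c * L / M * (2 * w) ≤ c * L / M * δ := mul_le_mul_of_nonneg_left hwδ.le (by positivity)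
        linarith
      have e5 : (0 : ℝ) ≤ (((SN 1 x).filter (fun e => EqArc.FP M γ u v S w1 w2 e)).card : ℝ) := by positivity
      linarith
  obtain ⟨xU, hxU⟩ := hU
  obtain ⟨xL, hxL⟩ := hLo
  exact ⟨max xU xL, fun x hx => ⟨hxL x ((le_max_right _ _).trans hx), hxU x ((le_max_left _ _).trans hx)⟩⟩

end Pool.Agent.Spl
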