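import Pool.Agent.Lib_MP_92ef0c_sp.EqDefs
import Pool.Agent.Lib_MP_f1a94e_aq.Arc

/-!
# Matrices of determinant 1 with the first row in an arc
-/

set_option autoImplicit false

namespace Pool.Agent.Spl

open Finset Pool.Agent.GaussMR Pool.Agent.OmAll Pool.Agent.OmEq Filter

namespace EqArc

theorem re1 (α : ℤ) (u v : G) : ((α : G) * u + v).re = α * u.re + v.re := by simp

theorem im1 (α : ℤ) (u v : G) : ((α : G) * u + v).im = α * u.im + v.im := by simp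

theorem re2 (α β : ℤ) (u v : G) : ((α : G) * u + (β : G) * v).re = α * u.re + β * v.re := by simp

theorem im2 (α β : ℤ) (u v : G) : ((α : G) * u + (β : G) * v).im = α * u.im + β * v.im := by simp

/-- the matrix as a pair of Gaussian integers -/
def phi (e : Q4) : G × G := (⟨(e.a : ℤ), (e.b : ℤ)⟩, ⟨(e.c : ℤ), (e.d : ℤ)⟩)

theorem phi_inj : Function.Injective phi := by
  rintro ⟨a, b, c, d⟩ ⟨a', b', c', d'⟩ h
  simp only [phi, Prod.mk.injEq, Zsqrtd.ext_iff, Nat.cast_inj] at h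
  obtain ⟨⟨rfl, rfl⟩, rfl, rfl⟩ := h
  rfl

/-- both coordinates of `k u + v` are positive -/
theorem pos_re {u v : G} (h : Fr u v) {k : ℤ} (hk : 2 ≤ k) : (1 : ℤ) ≤ ((k : G) * u + v).re ∧ (1 : ℤ) ≤ ((k : G) * u + v).im := by
  obtain ⟨h0, h1, h2, h3, h4⟩ := h
  rw [re1, im1]
  constructor
  · by_contra hc
    have h5 : u.re = 0 := by nlinarith
    have h6 : v.re = 0 := by nlinarith
    unfold det at h0
    rw [h5, h6] at h0
    norm_num at h0
  · by_contra hc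
    have h5 : u.im = 0 := by nlinarith
    have h6 : v.im = 0 := by nlinarith
    unfold det at h0
    rw [h5, h6] at h0
    norm_num at h0

/-- the directions in the arc -/
theorem dir_bd {u v : G} (h : Fr u v) {S M : ℕ} (hS : 2 ≤ S) {V : G} (hV : V ∈ arc u v S M) :
    0 < V.re ∧ 0 < V.im ∧
    (V.re : ℝ) * ((((S : ℤ) : G) * u + v).im : ℝ) ≤
      (1 + (M : ℝ) / S) * ((((S : ℤ) : G) * u + v).re : ℝ) * V.im ∧
    (V.im : ℝ) * ((((S : ℤ) : G) * u + v).re : ℝ) ≤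
      (1 + (M : ℝ) / S) * ((((S : ℤ) : G) * u + v).im : ℝ) * V.re := by
  obtain ⟨p1, p2⟩ := pos_re h (k := (S : ℤ)) (by exact_mod_cast hS)
  rw [re1] at p1
  rw [im1] at p2
  rw [re1, im1]
  obtain ⟨-, h1, h2, h3, h4⟩ := h
  obtain ⟨α, β, rfl, a1, a2, a3⟩ := hV
  rw [re2, im2]
  have b1 : β * ((S : ℤ) * u.re + v.re) ≤ α * u.re + β * v.re := by nlinarith
  have b2 : β * ((S : ℤ) * u.im + v.im) ≤ α * u.im + β * v.im := by nlinarith
  have c1 : 0 < β * ((S : ℤ) * u.re + v.re) := by positivity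
  have c2 : 0 < β * ((S : ℤ) * u.im + v.im) := by positivity
  have hSr : (0 : ℝ) < S := by
    have : 0 < S := by omega
    exact_mod_cast this
  have key : ∀ x y : ℤ, 0 ≤ x → 0 ≤ y → ((α * x + β * y : ℤ) : ℝ) ≤ (1 + (M : ℝ) / S) * (β * ((S : ℤ) * x + y) : ℤ) := by
    intro x y hx hy
    have e1 : (α * x + β * y) ≤ ((S : ℤ) + M) * β * x + β * y := by nlinarith
    have e2 : ((α * x + β * y : ℤ) : ℝ) ≤ (((S : ℤ) + M) * β * x + β * y : ℤ) := by exact_mod_cast e1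
    refine e2.trans ?_
    push_cast
    have hβ : (0 : ℝ) < β := by exact_mod_cast a1
    have hx' : (0 : ℝ) ≤ x := by exact_mod_cast hx
    have hy' : (0 : ℝ) ≤ y := by exact_mod_cast hy
    have e3 : (1 + (M : ℝ) / S) * (β * (S * x + y)) = (S + M) * β * x + β * y + (M : ℝ) / S * (β * y) := by
      field_simp
      ring
    rw [e3]
    have : 0 ≤ (M : ℝ) / S * (β * y) := by positivity
    linarith
  have k1 := key _ _ h1 h3
  have k2 := key _ _ h2 h4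
  have b1' : ((β * ((S : ℤ) * u.re + v.re) : ℤ) : ℝ) ≤ ((α * u.re + β * v.re : ℤ) : ℝ) := by exact_mod_cast b1
  have b2' : ((β * ((S : ℤ) * u.im + v.im) : ℤ) : ℝ) ≤ ((α * u.im + β * v.im : ℤ) : ℝ) := by exact_mod_cast b2
  have q1 : (0 : ℝ) < (((S : ℤ) * u.re + v.re : ℤ) : ℝ) := by exact_mod_cast (by omega : (0 : ℤ) < (S : ℤ) * u.re + v.re)
  have q2 : (0 : ℝ) < (((S : ℤ) * u.im + v.im : ℤ) : ℝ) := by exact_mod_cast (by omega : (0 : ℤ) < (S : ℤ) * u.im + v.im)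
  have hK : (0 : ℝ) < 1 + (M : ℝ) / S := by positivity
  refine ⟨by omega, by omega, ?_, ?_⟩
  · rw [Int.cast_mul] at k1 b2'
    calc ((α * u.re + β * v.re : ℤ) : ℝ) * (((S : ℤ) * u.im + v.im : ℤ) : ℝ)
        ≤ ((1 + (M : ℝ) / S) * (β * (((S : ℤ) * u.re + v.re : ℤ) : ℝ))) * (((S : ℤ) * u.im + v.im : ℤ) : ℝ) :=
          mul_le_mul_of_nonneg_right k1 q2.le
      _ = ((1 + (M : ℝ) / S) * (((S : ℤ) * u.re + v.re : ℤ) : ℝ)) * (β * (((S : ℤ) * u.im + v.im : ℤ) : ℝ)) := by ring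
      _ ≤ _ := mul_le_mul_of_nonneg_left b2' (by positivity)
  · rw [Int.cast_mul] at k2 b1'
    calc ((α * u.im + β * v.im : ℤ) : ℝ) * (((S : ℤ) * u.re + v.re : ℤ) : ℝ)
        ≤ ((1 + (M : ℝ) / S) * (β * (((S : ℤ) * u.im + v.im : ℤ) : ℝ))) * (((S : ℤ) * u.re + v.re : ℤ) : ℝ) :=
          mul_le_mul_of_nonneg_right k2 q1.le
      _ = ((1 + (M : ℝ) / S) * (((S : ℤ) * u.im + v.im : ℤ) : ℝ)) * (β * (((S : ℤ) * u.re + v.re : ℤ) : ℝ)) := by ring
      _ ≤ _ := mul_le_mul_of_nonneg_left b1' (by positivity)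

/-- difference of logarithms -/
theorem log_diff {X Y p K m : ℝ} (hp : 0 < p) (hX1 : p ≤ X) (hX2 : X ≤ K * p) (hY1 : p ≤ Y) (hY2 : Y ≤ K * p)
    (h : |X - Y| = m) : m / (K * p) ≤ |Real.log X - Real.log Y| ∧ |Real.log X - Real.log Y| ≤ m / p := by
  wlog hXY : Y ≤ X generalizing X Y
  · have := this hY1 hY2 hX1 hX2 (by rw [abs_sub_comm]; exact h) (by linarith)
    rwa [abs_sub_comm] at this
  have hX : 0 < X := by linarith
  have hY : 0 < Y := by linarith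
  have h1 : |X - Y| = X - Y := abs_of_nonneg (by linarith)
  rw [h1] at h
  have h2 : 0 ≤ Real.log X - Real.log Y := by
    have := Real.log_le_log hY hXY
    linarith
  rw [abs_of_nonneg h2, ← Real.log_div hX.ne' hY.ne']
  have hm : 0 ≤ m := by linarith
  constructor
  · have h3 := Real.one_sub_inv_le_log_of_pos (div_pos hX hY)
    refine le_trans ?_ h3
    rw [inv_div]
    have h4 : 1 - Y / X = m / X := by
      rw [← h]; field_simp
    rw [h4]
    exact div_le_div_of_nonneg_left hm hX hX2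
  · have h3 := Real.log_le_sub_one_of_pos (div_pos hX hY)
    refine h3.trans ?_
    have h4 : X / Y - 1 = m / Y := by
      rw [← h]; field_simp
    rw [h4]
    exact div_le_div_of_nonneg_left hm hp hY1

/-- the matrices counted in `arcS` -/
def FP (M : ℕ) (γ : Q4) (u v : G) (S : ℕ) (w1 w2 : ℝ) (e : Q4) : Prop :=
  cq M e γ ∧ (⟨(e.a : ℤ), (e.b : ℤ)⟩ : G) ∈ arc u v S M ∧ w1 ≤ wS e ∧ wS e < w2

/-- small edges -/
def Sm (B B' : ℝ) : Set (G × G) := {e | (nm e.1 : ℝ) ≤ B ∧ (nm e.2 : ℝ) ≤ B'}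

theorem Sm_finite (B B' : ℝ) : (Sm B B').Finite := by
  apply ((finite_ball B).prod (finite_ball B')).subset
  rintro ⟨V, V'⟩ ⟨h1, h2⟩
  exact ⟨h1, h2⟩

theorem nm_r (z : G) : (nm z : ℝ) = (z.re : ℝ) ^ 2 + (z.im : ℝ) ^ 2 := by
  exact_mod_cast nm_eq z

theorem dvd_of_modEq {M a b : ℕ} (h : a ≡ b [MOD M]) : (M : ℤ) ∣ (a : ℤ) - b := by
  have := (Nat.modEq_iff_dvd.1 h)
  rw [← neg_sub]
  exact (dvd_neg).2 this

theorem modEq_of_dvd {M a b : ℕ} (h : (M : ℤ) ∣ (a : ℤ) - b) : a ≡ b [MOD M] := by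
  rw [Nat.modEq_iff_dvd, ← neg_sub]
  exact (dvd_neg).2 h

/-- bound for the logarithmic length of the arc -/
theorem lam_bd (u v : G) (huv : Fr u v) (S M : ℕ) (hS : 2 ≤ S) {R I K : ℝ}
    (hR : R = ((((S : ℤ) : G) * u + v).re : ℝ)) (hI : I = ((((S : ℤ) : G) * u + v).im : ℝ)) (hK : K = 1 + (M : ℝ) / S) :
    (M : ℝ) / (K * (R * I)) ≤ |dl ((((S : ℤ) + M : ℤ) : G) * u + v) - dl (((S : ℤ) : G) * u + v)| ∧
      |dl ((((S : ℤ) + M : ℤ) : G) * u + v) - dl (((S : ℤ) : G) * u + v)| ≤ M / (R * I) := by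
  obtain ⟨P1, P2⟩ := pos_re huv (k := (S : ℤ)) (by exact_mod_cast hS)
  obtain ⟨P3, P4⟩ := pos_re huv (k := (S : ℤ) + M) (by have : (2 : ℤ) ≤ S := by exact_mod_cast hS
                                                       omega)
  have hRp : 0 < R := by rw [hR]; exact_mod_cast (by omega : (0 : ℤ) < (((S : ℤ) : G) * u + v).re)
  have hIp : 0 < I := by rw [hI]; exact_mod_cast (by omega : (0 : ℤ) < (((S : ℤ) : G) * u + v).im)
  obtain ⟨R1, hR1⟩ : ∃ R1 : ℝ, R1 = (((((S : ℤ) + M : ℤ) : G) * u + v).re : ℝ) := ⟨_, rfl⟩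
  obtain ⟨I1, hI1⟩ : ∃ I1 : ℝ, I1 = (((((S : ℤ) + M : ℤ) : G) * u + v).im : ℝ) := ⟨_, rfl⟩
  have hR1p : 0 < R1 := by rw [hR1]; exact_mod_cast (by omega : (0 : ℤ) < ((((S : ℤ) + M : ℤ) : G) * u + v).re)
  have hI1p : 0 < I1 := by rw [hI1]; exact_mod_cast (by omega : (0 : ℤ) < ((((S : ℤ) + M : ℤ) : G) * u + v).im)
  have hSr : (0 : ℝ) < S := by
    have : 0 < S := by omega
    exact_mod_cast this
  obtain ⟨h0, h1, h2, h3, h4⟩ := huv
  have h1r : (0 : ℝ) ≤ u.re := by exact_mod_cast h1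
  have h2r : (0 : ℝ) ≤ u.im := by exact_mod_cast h2
  have h3r : (0 : ℝ) ≤ v.re := by exact_mod_cast h3
  have h4r : (0 : ℝ) ≤ v.im := by exact_mod_cast h4
  have fR : R = S * u.re + v.re := by rw [hR, re1]; push_cast; ring
  have fI : I = S * u.im + v.im := by rw [hI, im1]; push_cast; ring
  have fR1 : R1 = R + M * u.re := by rw [hR1, re1, fR]; push_cast; ring
  have fI1 : I1 = I + M * u.im := by rw [hI1, im1, fI]; push_cast; ring
  have hMr : (0 : ℝ) ≤ M := by positivity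
  have gR : R ≤ R1 := by rw [fR1]; have : 0 ≤ (M : ℝ) * u.re := by positivity
                         linarith
  have gI : I ≤ I1 := by rw [fI1]; have : 0 ≤ (M : ℝ) * u.im := by positivity
                         linarith
  have gR' : R1 ≤ K * R := by
    rw [fR1, hK]
    have e1 : (1 + (M : ℝ) / S) * R = R + M * u.re + (M : ℝ) / S * v.re := by
      rw [fR]; field_simp; ring
    rw [e1]
    have : 0 ≤ (M : ℝ) / S * v.re := by positivity
    linarith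
  have gI' : I1 ≤ K * I := by
    rw [fI1, hK]
    have e1 : (1 + (M : ℝ) / S) * I = I + M * u.im + (M : ℝ) / S * v.im := by
      rw [fI]; field_simp; ring
    rw [e1]
    have : 0 ≤ (M : ℝ) / S * v.im := by positivity
    linarith
  have hdet : |I1 * R - R1 * I| = M := by
    have e1 : I1 * R - R1 * I = M * (-(det u v : ℝ)) := by
      rw [fI1, fR1, fR, fI]
      unfold det
      push_cast
      ring
    rw [e1, abs_mul, abs_neg]
    have e2 : |(det u v : ℝ)| = 1 := by exact_mod_cast h0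
    rw [e2, mul_one, abs_of_nonneg hMr]
  have e3 : dl ((((S : ℤ) + M : ℤ) : G) * u + v) - dl (((S : ℤ) : G) * u + v) = Real.log (I1 * R) - Real.log (R1 * I) := by
    unfold dl
    rw [← hR1, ← hI1, ← hR, ← hI, Real.log_mul hI1p.ne' hRp.ne', Real.log_mul hR1p.ne' hIp.ne']
    ring
  rw [e3]
  apply log_diff (by positivity)
  · nlinarith
  · nlinarith
  · nlinarith
  · nlinarith
  · exact hdet

open Classical in
/-- the statement of `upper_set` -/
def UpperS : Prop :=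
  ∀ (M : ℕ) (γ : Q4) (u v : G) (huv : Fr u v) (S : ℕ) (hS : 2 ≤ S) (w1 w2 : ℝ) (δ B R I K : ℝ) (hδ : 0 < δ)
    (hR : R = ((((S : ℤ) : G) * u + v).re : ℝ)) (hI : I = ((((S : ℤ) : G) * u + v).im : ℝ)) (hK : K = 1 + (M : ℝ) / S)
    (hB : 3 * (K * I) ≤ δ * Real.exp w2 * R * B) (x : ℝ),
    (((SN 1 x).filter (fun e => FP M γ u v S w1 w2 e)).card) ≤
      ({e : G × G | e ∈ NE M (phi γ) (2 * w1) (2 * w2 + δ) (K * (R ^ 2 + I ^ 2) * (x + 1) / (R * I)) ∧ e.1 ∈ arc u v S M}.ncard) +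
        (Sm B ((Real.exp (2 * w2) + 3 * Real.exp w2) * B)).ncard

open Classical in
/-- the statement of `lower_set` -/
def LowerS : Prop :=
  ∀ (M : ℕ) (γ : Q4) (u v : G) (huv : Fr u v) (S : ℕ) (hS : 2 ≤ S) (w1 w2 : ℝ) (δ B R I K : ℝ) (hδ : 0 < δ)
    (hR : R = ((((S : ℤ) : G) * u + v).re : ℝ)) (hI : I = ((((S : ℤ) : G) * u + v).im : ℝ)) (hK : K = 1 + (M : ℝ) / S)
    (hB1 : 1 < Real.exp (2 * w1 + δ) * B)
    (hB : 3 * (K * I) ≤ δ * Real.exp w1 * R * B) (x : ℝ),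
    ({e : G × G | e ∈ NE M (phi γ) (2 * w1 + δ) (2 * w2) (x * (R ^ 2 + I ^ 2) / (K * (R * I))) ∧ e.1 ∈ arc u v S M}.ncard) ≤
    (((SN 1 x).filter (fun e => FP M γ u v S w1 w2 e)).card) +
        (Sm B (Real.exp (2 * w2) * B)).ncard

end EqArc

end Pool.Agent.Spl
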