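import Pool.Agent.Lib_MP_92ef0c_sp.EqDefs

/-!
# Edges of the Farey graph in sectors, upper
-/

set_option autoImplicit false

namespace Pool.Agent.Spl

open Finset Pool.Agent.GaussMR Pool.Agent.OmAll Pool.Agent.OmEq Filter

namespace EqArc

theorem psi1 {a b R I K : ℝ} (ha : 0 < a) (hb : 0 < b) (hR : 0 < R) (hI : 0 < I)
    (h1 : a * I ≤ K * R * b) (h2 : b * R ≤ K * I * a) :
    (a ^ 2 + b ^ 2) * (R * I) ≤ K * (R ^ 2 + I ^ 2) * (a * b) ∧
    (R ^ 2 + I ^ 2) * (a * b) ≤ K * (a ^ 2 + b ^ 2) * (R * I) := by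
  have e1 := mul_le_mul_of_nonneg_left h1 (by positivity : 0 ≤ a * R)
  have e2 := mul_le_mul_of_nonneg_left h2 (by positivity : 0 ≤ b * I)
  have e3 := mul_le_mul_of_nonneg_left h2 (by positivity : 0 ≤ a * R)
  have e4 := mul_le_mul_of_nonneg_left h1 (by positivity : 0 ≤ b * I)
  constructor
  · linarith
  · linarith

/-- an edge with `exp w1 a ≤ c < exp w2 a` -/
theorem up_edge {a b c d : ℝ} (ha : 1 ≤ a) (hb : 1 ≤ b) (hc : 1 ≤ c) (hd : a * d - b * c = 1) {R I K w1 w2 δ B x : ℝ}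
    (hR : 0 < R) (hI : 0 < I) (hδ : 0 < δ)
    (h1 : a * I ≤ K * R * b) (h2 : b * R ≤ K * I * a)
    (hw1 : Real.exp w1 * a ≤ c) (hw2 : c < Real.exp w2 * a) (hx : b * c ≤ x)
    (hB : 3 * (K * I) ≤ δ * Real.exp w2 * R * B) :
    (c ^ 2 + d ^ 2 ≤ (Real.exp (2 * w2) + 3 * Real.exp w2) * (a ^ 2 + b ^ 2)) ∧
    0 < a * c + b * d ∧ (a * c + b * d) * (R * I) ≤ K * (R ^ 2 + I ^ 2) * (x + 1) ∧
    Real.exp (2 * w1) * (a ^ 2 + b ^ 2) ≤ c ^ 2 + d ^ 2 ∧
    (B ≤ a ^ 2 + b ^ 2 → c ^ 2 + d ^ 2 < Real.exp (2 * w2 + δ) * (a ^ 2 + b ^ 2)) := by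
  have E1 : a ^ 2 * (c ^ 2 + d ^ 2) = c ^ 2 * (a ^ 2 + b ^ 2) + 2 * b * c + 1 := by
    linear_combination (a * d + b * c + 1) * hd
  have E2 : a * (a * c + b * d) = c * (a ^ 2 + b ^ 2) + b := by
    linear_combination b * hd
  have ha0 : 0 < a := by linarith
  have hb0 : 0 < b := by linarith
  have hc0 : 0 < c := by linarith
  have ha2 : 0 < a ^ 2 := by positivity
  have hw1p := Real.exp_pos w1
  have hw2p := Real.exp_pos w2
  have x1 : Real.exp (2 * w1) = Real.exp w1 ^ 2 := by rw [sq, ← Real.exp_add]; ring_nf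
  have x2 : Real.exp (2 * w2) = Real.exp w2 ^ 2 := by rw [sq, ← Real.exp_add]; ring_nf
  have hbc : 1 ≤ b * c := by nlinarith
  have hN : 0 < a ^ 2 + b ^ 2 := by positivity
  have g1 : c ^ 2 ≤ Real.exp w2 ^ 2 * a ^ 2 := by
    rw [← mul_pow]; exact pow_le_pow_left₀ hc0.le hw2.le 2
  have g1' : c ^ 2 < Real.exp w2 ^ 2 * a ^ 2 := by
    rw [← mul_pow]; exact pow_lt_pow_left₀ hw2 hc0.le (by norm_num)
  have g2 : Real.exp w1 ^ 2 * a ^ 2 ≤ c ^ 2 := by
    rw [← mul_pow]; exact pow_le_pow_left₀ (by positivity) hw1 2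
  have g3 : b * c ≤ b * (Real.exp w2 * a) := mul_le_mul_of_nonneg_left hw2.le hb0.le
  have g4 : c ^ 2 * (a ^ 2 + b ^ 2) ≤ Real.exp w2 ^ 2 * a ^ 2 * (a ^ 2 + b ^ 2) :=
    mul_le_mul_of_nonneg_right g1 hN.le
  obtain ⟨p1, -⟩ := psi1 ha0 hb0 hR hI h1 h2
  refine ⟨?_, ?_, ?_, ?_, ?_⟩
  · rw [x2]
    have f1 : b * (Real.exp w2 * a) ≤ Real.exp w2 * (a ^ 2 + b ^ 2) * a ^ 2 := by
      have f2 : b * a ≤ (a ^ 2 + b ^ 2) * a ^ 2 := by
        have f3 : a ≤ a ^ 2 := by nlinarith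
        have f4 : b ≤ a ^ 2 + b ^ 2 := by nlinarith
        exact mul_le_mul f4 f3 ha0.le hN.le
      have := mul_le_mul_of_nonneg_left f2 hw2p.le
      linarith
    have f5 : a ^ 2 * (c ^ 2 + d ^ 2) ≤ a ^ 2 * ((Real.exp w2 ^ 2 + 3 * Real.exp w2) * (a ^ 2 + b ^ 2)) := by
      rw [E1]
      linarith
    exact le_of_mul_le_mul_left f5 ha2
  · have : 0 < a * (a * c + b * d) := by rw [E2]; positivity
    exact (mul_pos_iff_of_pos_left ha0).1 this
  · have hK : 0 < K := by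
      by_contra hk
      have : K * R * b ≤ 0 := by
        have : K * (R * b) ≤ 0 := mul_nonpos_of_nonpos_of_nonneg (by linarith) (by positivity)
        linarith
      have : 0 < a * I := by positivity
      linarith
    -- multiply by `a N`
    have f1 : (a * (a * c + b * d)) * (R * I) * (a ^ 2 + b ^ 2) ≤ a * (K * (R ^ 2 + I ^ 2) * (x + 1)) * (a ^ 2 + b ^ 2) := by
      rw [E2]
      have f2 := mul_le_mul_of_nonneg_left p1 (by positivity : 0 ≤ c * (a ^ 2 + b ^ 2) + b)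
      have f3 : (c * (a ^ 2 + b ^ 2) + b) * (K * (R ^ 2 + I ^ 2) * (a * b)) =
        a * (K * (R ^ 2 + I ^ 2)) * ((b * c) * (a ^ 2 + b ^ 2) + b ^ 2) := by ring
      have f4 : (b * c) * (a ^ 2 + b ^ 2) + b ^ 2 ≤ (x + 1) * (a ^ 2 + b ^ 2) := by
        have := mul_le_mul_of_nonneg_right hx hN.le
        have : 0 < a ^ 2 := ha2
        linarith
      have f5 := mul_le_mul_of_nonneg_left f4 (by positivity : 0 ≤ a * (K * (R ^ 2 + I ^ 2)))
      linarith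
    have f6 := le_of_mul_le_mul_right f1 hN
    have f7 : a * ((a * c + b * d) * (R * I)) ≤ a * (K * (R ^ 2 + I ^ 2) * (x + 1)) := by linarith
    exact le_of_mul_le_mul_left f7 ha0
  · rw [x1]
    have f1 := mul_le_mul_of_nonneg_right g2 hN.le
    have f2 : a ^ 2 * (Real.exp w1 ^ 2 * (a ^ 2 + b ^ 2)) ≤ a ^ 2 * (c ^ 2 + d ^ 2) := by
      rw [E1]
      linarith
    exact le_of_mul_le_mul_left f2 ha2
  · intro hBN
    have y1 : Real.exp w2 ^ 2 * (1 + δ) ≤ Real.exp (2 * w2 + δ) := by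
      rw [Real.exp_add, x2]
      apply mul_le_mul_of_nonneg_left _ (by positivity)
      linarith [Real.add_one_le_exp δ]
    -- `3 b ≤ δ exp w2 a N`
    have y2 : 3 * b ≤ δ * Real.exp w2 * a * (a ^ 2 + b ^ 2) := by
      have y3 : 3 * (b * R) ≤ 3 * (K * I * a) := by linarith
      have y4 : 3 * (K * I) * a ≤ δ * Real.exp w2 * R * B * a := mul_le_mul_of_nonneg_right hB ha0.le
      have y5 : δ * Real.exp w2 * R * a * B ≤ δ * Real.exp w2 * R * a * (a ^ 2 + b ^ 2) :=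
        mul_le_mul_of_nonneg_left hBN (by positivity)
      have y6 : (3 * b) * R ≤ (δ * Real.exp w2 * a * (a ^ 2 + b ^ 2)) * R := by linarith
      exact le_of_mul_le_mul_right y6 hR
    have y7 := mul_le_mul_of_nonneg_left y2 (by positivity : 0 ≤ Real.exp w2 * a)
    have y8 := mul_lt_mul_of_pos_right g1' hN
    have y9 := mul_le_mul_of_nonneg_right y1 (by positivity : 0 ≤ a ^ 2 * (a ^ 2 + b ^ 2))
    have y10 : a ^ 2 * (c ^ 2 + d ^ 2) < a ^ 2 * (Real.exp (2 * w2 + δ) * (a ^ 2 + b ^ 2)) := by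
      rw [E1]
      nlinarith
    exact lt_of_mul_lt_mul_left y10 ha2.le

end EqArc

end Pool.Agent.Spl
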