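import Pool.Agent.Lib_MP_92ef0c_sp.EqArc0
import Pool.Agent.Lib_MP_92ef0c_sp.EqArcU

/-!
# Matrices of determinant 1 with the first row in an arc, upper bound
-/

set_option autoImplicit false

namespace Pool.Agent.Spl

open Finset Pool.Agent.GaussMR Pool.Agent.OmAll Pool.Agent.OmEq Filter

namespace EqArc

open Classical in
theorem upper_set (M : ℕ) (γ : Q4) (u v : G) (huv : Fr u v) (S : ℕ) (hS : 2 ≤ S) (w1 w2 : ℝ) (δ B R I K : ℝ) (hδ : 0 < δ)
    (hR : R = ((((S : ℤ) : G) * u + v).re : ℝ)) (hI : I = ((((S : ℤ) : G) * u + v).im : ℝ)) (hK : K = 1 + (M : ℝ) / S)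
    (hB : 3 * (K * I) ≤ δ * Real.exp w2 * R * B) (x : ℝ) :
    (((SN 1 x).filter (fun e => FP M γ u v S w1 w2 e)).card) ≤
      ({e : G × G | e ∈ NE M (phi γ) (2 * w1) (2 * w2 + δ) (K * (R ^ 2 + I ^ 2) * (x + 1) / (R * I)) ∧ e.1 ∈ arc u v S M}.ncard) +
        (Sm B ((Real.exp (2 * w2) + 3 * Real.exp w2) * B)).ncard := by
  have hfin : {e : G × G | e ∈ NE M (phi γ) (2 * w1) (2 * w2 + δ) (K * (R ^ 2 + I ^ 2) * (x + 1) / (R * I)) ∧ e.1 ∈ arc u v S M}.Finite :=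
    (NE_finite _ _ _ _ _).subset (fun _ h => h.1)
  rw [← Finset.card_image_of_injective _ phi_inj, ← Set.ncard_coe_finset]
  refine le_trans (Set.ncard_le_ncard ?_ (hfin.union (Sm_finite _ _))) (Set.ncard_union_le _ _)
  intro e he
  rw [Finset.mem_coe, Finset.mem_image] at he
  obtain ⟨f, hf, rfl⟩ := he
  rw [mem_filter, mem_SN] at hf
  obtain ⟨⟨⟨s1, s2, s3, s4, s5, s6, s7⟩, s8⟩, ⟨t1, t2, t3, t4⟩, t5, t6, t7⟩ := hf
  obtain ⟨d1, d2, d3, d4⟩ := dir_bd huv hS t5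
  simp only at d1 d2 d3 d4
  obtain ⟨P1, P2⟩ := pos_re huv (k := (S : ℤ)) (by exact_mod_cast hS)
  have hRp : 0 < R := by rw [hR]; exact_mod_cast (by omega : (0 : ℤ) < (((S : ℤ) : G) * u + v).re)
  have hIp : 0 < I := by rw [hI]; exact_mod_cast (by omega : (0 : ℤ) < (((S : ℤ) : G) * u + v).im)
  rw [← hI, ← hR, ← hK] at d3 d4
  have ha : (1 : ℝ) ≤ f.a := by exact_mod_cast s2
  have hb : (1 : ℝ) ≤ f.b := by exact_mod_cast s3
  have hc : (1 : ℝ) ≤ f.c := by exact_mod_cast s4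
  have hd : (f.a : ℝ) * f.d - f.b * f.c = 1 := by
    have : (f.a : ℝ) * f.d = f.b * f.c + 1 := by exact_mod_cast s1
    linarith
  have hw1 : Real.exp w1 * f.a ≤ f.c := by
    unfold wS at t6
    rw [← Real.log_le_log_iff (by positivity) (by linarith), Real.log_mul (Real.exp_pos _).ne' (by linarith), Real.log_exp]
    linarith
  have hw2 : (f.c : ℝ) < Real.exp w2 * f.a := by
    unfold wS at t7
    rw [← Real.log_lt_log_iff (by linarith) (by positivity), Real.log_mul (Real.exp_pos _).ne' (by linarith), Real.log_exp]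
    linarith
  have hx : (f.b : ℝ) * f.c ≤ x := s8
  have d3' : (f.a : ℝ) * I ≤ K * R * f.b := by exact_mod_cast d3
  have d4' : (f.b : ℝ) * R ≤ K * I * f.a := by exact_mod_cast d4
  obtain ⟨u1, u2, u3, u4, u5⟩ := up_edge ha hb hc hd hRp hIp hδ d3' d4' hw1 hw2 hx hB
  have n1 : (nm (phi f).1 : ℝ) = (f.a : ℝ) ^ 2 + f.b ^ 2 := by
    rw [nm_r]; unfold phi; push_cast; rfl
  have n2 : (nm (phi f).2 : ℝ) = (f.c : ℝ) ^ 2 + f.d ^ 2 := by
    rw [nm_r]; unfold phi; push_cast; rfl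
  have n3 : ((dot (phi f).1 (phi f).2 : ℤ) : ℝ) = (f.a : ℝ) * f.c + f.b * f.d := by
    unfold dot phi; push_cast; rfl
  have n4 : det (phi f).1 (phi f).2 = 1 := by
    unfold det phi
    have : (f.a : ℤ) * f.d = f.b * f.c + 1 := by exact_mod_cast s1
    linarith
  by_cases hBN : B ≤ (f.a : ℝ) ^ 2 + f.b ^ 2
  · left
    refine ⟨⟨n4, ?_, ?_, ?_, ?_, ?_, ?_⟩, t5⟩
    · have : (0 : ℝ) < ((dot (phi f).1 (phi f).2 : ℤ) : ℝ) := by rw [n3]; exact u2
      exact_mod_cast this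
    · rw [n3, le_div_iff₀ (by positivity)]
      exact u3
    · rw [n1, n2]
      exact u4
    · rw [n1, n2]
      exact u5 hBN
    · exact ⟨dvd_of_modEq t1, dvd_of_modEq t2⟩
    · exact ⟨dvd_of_modEq t3, dvd_of_modEq t4⟩
  · right
    push Not at hBN
    refine ⟨?_, ?_⟩
    · rw [n1]; exact hBN.le
    · rw [n2]
      refine u1.trans ?_
      exact mul_le_mul_of_nonneg_left hBN.le (by positivity)

end EqArc

end Pool.Agent.Spl
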