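import Pool.Agent.Lib_MP_92ef0c_sp.EqDefs

/-!
# Edges of the Farey graph in sectors, lower
-/

set_option autoImplicit false

namespace Pool.Agent.Spl

open Finset Pool.Agent.GaussMR Pool.Agent.OmAll Pool.Agent.OmEq Filter

namespace EqArc

theorem psi2 {a b R I K : ℝ} (ha : 0 < a) (hb : 0 < b) (hR : 0 < R) (hI : 0 < I)
    (h1 : a * I ≤ K * R * b) (h2 : b * R ≤ K * I * a) :
    (a ^ 2 + b ^ 2) * (R * I) ≤ K * (R ^ 2 + I ^ 2) * (a * b) ∧
    (R ^ 2 + I ^ 2) * (a * b) ≤ K * (a ^ 2 + b ^ 2) * (R * I) := by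
  have e1 := mul_le_mul_of_nonneg_left h1 (by positivity : 0 ≤ a * R)
  have e2 := mul_le_mul_of_nonneg_left h2 (by positivity : 0 ≤ b * I)
  have e3 := mul_le_mul_of_nonneg_left h2 (by positivity : 0 ≤ a * R)
  have e4 := mul_le_mul_of_nonneg_left h1 (by positivity : 0 ≤ b * I)
  constructor
  · linarith
  · linarith

/-- from edges to matrices -/
theorem lo_edge {a b c d : ℤ} (ha : 0 < a) (hb : 0 < b) (hd : a * d - b * c = 1) {R I K w1 w2 δ B x : ℝ}
    (hR : 0 < R) (hI : 0 < I) (hδ : 0 < δ)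
    (h1 : (a : ℝ) * I ≤ K * R * b) (h2 : (b : ℝ) * R ≤ K * I * a)
    (hD : 0 < a * c + b * d) (hx : K * ((a * c + b * d : ℤ) : ℝ) * (R * I) ≤ x * (R ^ 2 + I ^ 2))
    (hw1 : Real.exp (2 * w1 + δ) * ((a : ℝ) ^ 2 + b ^ 2) ≤ (c : ℝ) ^ 2 + d ^ 2)
    (hw2 : (c : ℝ) ^ 2 + d ^ 2 < Real.exp (2 * w2) * ((a : ℝ) ^ 2 + b ^ 2))
    (hB1 : 1 < Real.exp (2 * w1 + δ) * B) (hB : 3 * (K * I) ≤ δ * Real.exp w1 * R * B)
    (hBN : B ≤ (a : ℝ) ^ 2 + b ^ 2) :
    0 < c ∧ 0 < d ∧ Real.exp w1 * a ≤ c ∧ (c : ℝ) < Real.exp w2 * a ∧ (b : ℝ) * c ≤ x := by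
  have E1 : a ^ 2 * (c ^ 2 + d ^ 2) = c ^ 2 * (a ^ 2 + b ^ 2) + 2 * b * c + 1 := by
    linear_combination (a * d + b * c + 1) * hd
  have E2 : a * (a * c + b * d) = c * (a ^ 2 + b ^ 2) + b := by
    linear_combination b * hd
  have har : (1 : ℝ) ≤ a := by exact_mod_cast ha
  have hbr : (1 : ℝ) ≤ b := by exact_mod_cast hb
  have har0 : (0 : ℝ) < a := by linarith
  have hbr0 : (0 : ℝ) < b := by linarith
  have hN : (0 : ℝ) < (a : ℝ) ^ 2 + b ^ 2 := by positivity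
  have hc : 0 < c := by
    by_contra hc
    have e1 : 0 < c * (a ^ 2 + b ^ 2) + b := by rw [← E2]; exact mul_pos ha hD
    have e2 : c = 0 := by
      by_contra h0
      have e3 : c ≤ -1 := by omega
      have e4 : c * (a ^ 2 + b ^ 2) ≤ (-1) * (a ^ 2 + b ^ 2) := mul_le_mul_of_nonneg_right e3 (by positivity)
      nlinarith
    subst e2
    have e3 : a * d = 1 := by linarith
    have e4 : d = 1 := by
      have := Int.isUnit_iff.1 (IsUnit.of_mul_eq_one a (by rw [mul_comm]; exact e3))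
      rcases this with h | h
      · exact h
      · rw [h] at e3; omega
    subst e4
    have e5 : Real.exp (2 * w1 + δ) * B ≤ 1 := by
      refine (mul_le_mul_of_nonneg_left hBN (Real.exp_pos _).le).trans ?_
      refine hw1.trans ?_
      norm_num
    linarith
  have hcr : (1 : ℝ) ≤ c := by exact_mod_cast hc
  have hcr0 : (0 : ℝ) < c := by linarith
  have hdp : 0 < d := by
    have : 0 < a * d := by
      have : 0 < b * c := mul_pos hb hc
      linarith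
    exact (mul_pos_iff_of_pos_left ha).1 this
  have E1r : (a : ℝ) ^ 2 * ((c : ℝ) ^ 2 + d ^ 2) = (c : ℝ) ^ 2 * ((a : ℝ) ^ 2 + b ^ 2) + 2 * b * c + 1 := by
    exact_mod_cast E1
  have E2r : (a : ℝ) * ((a * c + b * d : ℤ) : ℝ) = (c : ℝ) * ((a : ℝ) ^ 2 + b ^ 2) + b := by
    exact_mod_cast E2
  have x1 : Real.exp (2 * w1) = Real.exp w1 ^ 2 := by rw [sq, ← Real.exp_add]; ring_nf
  have x2 : Real.exp (2 * w2) = Real.exp w2 ^ 2 := by rw [sq, ← Real.exp_add]; ring_nf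
  have hw1p := Real.exp_pos w1
  have hw2p := Real.exp_pos w2
  have ha2 : (0 : ℝ) < (a : ℝ) ^ 2 := by positivity
  have hbc : (1 : ℝ) ≤ b * c := by nlinarith
  obtain ⟨-, p2⟩ := psi2 har0 hbr0 hR hI h1 h2
  have hK : 0 < K := by
    by_contra hk
    have : K * R * b ≤ 0 := by
      have : K * (R * b) ≤ 0 := mul_nonpos_of_nonpos_of_nonneg (by linarith) (by positivity)
      linarith
    have : 0 < (a : ℝ) * I := by positivity
    linarith
  refine ⟨hc, hdp, ?_, ?_, ?_⟩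
  · by_contra hlt
    push Not at hlt
    have y1 : Real.exp w1 ^ 2 * (1 + δ) ≤ Real.exp (2 * w1 + δ) := by
      rw [Real.exp_add, x1]
      apply mul_le_mul_of_nonneg_left _ (by positivity)
      linarith [Real.add_one_le_exp δ]
    have y2 : 3 * (b : ℝ) ≤ δ * Real.exp w1 * a * ((a : ℝ) ^ 2 + b ^ 2) := by
      have y3 : 3 * ((b : ℝ) * R) ≤ 3 * (K * I * a) := by linarith
      have y4 : 3 * (K * I) * a ≤ δ * Real.exp w1 * R * B * a := mul_le_mul_of_nonneg_right hB har0.le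
      have y5 : δ * Real.exp w1 * R * a * B ≤ δ * Real.exp w1 * R * a * ((a : ℝ) ^ 2 + b ^ 2) :=
        mul_le_mul_of_nonneg_left hBN (by positivity)
      have y6 : (3 * (b : ℝ)) * R ≤ (δ * Real.exp w1 * a * ((a : ℝ) ^ 2 + b ^ 2)) * R := by linarith
      exact le_of_mul_le_mul_right y6 hR
    have g1 : (c : ℝ) ^ 2 < Real.exp w1 ^ 2 * (a : ℝ) ^ 2 := by
      rw [← mul_pow]; exact pow_lt_pow_left₀ hlt hcr0.le (by norm_num)
    have g3 : (b : ℝ) * c ≤ b * (Real.exp w1 * a) := mul_le_mul_of_nonneg_left hlt.le hbr0.le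
    have y7 := mul_le_mul_of_nonneg_left y2 (by positivity : 0 ≤ Real.exp w1 * (a : ℝ))
    have y8 := mul_lt_mul_of_pos_right g1 hN
    have y9 := mul_le_mul_of_nonneg_right y1 (by positivity : 0 ≤ (a : ℝ) ^ 2 * ((a : ℝ) ^ 2 + b ^ 2))
    have y10 := mul_le_mul_of_nonneg_left hw1 ha2.le
    rw [E1r] at y10
    nlinarith
  · have g1 : (c : ℝ) ^ 2 * ((a : ℝ) ^ 2 + b ^ 2) < Real.exp w2 ^ 2 * (a : ℝ) ^ 2 * ((a : ℝ) ^ 2 + b ^ 2) := by
      rw [x2] at hw2
      have := mul_lt_mul_of_pos_left hw2 ha2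
      rw [E1r] at this
      linarith
    have g2 := lt_of_mul_lt_mul_right g1 hN.le
    rw [← mul_pow] at g2
    exact lt_of_pow_lt_pow_left₀ 2 (by positivity) g2
  · -- `c N ≤ a D`
    have f1 : (c : ℝ) * ((a : ℝ) ^ 2 + b ^ 2) ≤ a * ((a * c + b * d : ℤ) : ℝ) := by
      rw [E2r]; linarith
    have f2 := mul_le_mul_of_nonneg_right f1 (by positivity : 0 ≤ K * (R * I))
    have f3 := mul_le_mul_of_nonneg_left p2 hcr0.le
    have f4 := mul_le_mul_of_nonneg_left hx har0.le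
    have f5 : ((b : ℝ) * c) * (a * (R ^ 2 + I ^ 2)) ≤ x * (a * (R ^ 2 + I ^ 2)) := by linarith
    exact le_of_mul_le_mul_right f5 (by positivity)

end EqArc

end Pool.Agent.Spl
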