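import Pool.Agent.Lib_MP_92ef0c_sp.EqArc0
import Pool.Agent.Lib_MP_92ef0c_sp.EqArcL

/-!
# Matrices of determinant 1 with the first row in an arc, lower bound
-/

set_option autoImplicit false

namespace Pool.Agent.Spl

open Finset Pool.Agent.GaussMR Pool.Agent.OmAll Pool.Agent.OmEq Filter

namespace EqArc

open Classical in
theorem lower_set (M : ℕ) (γ : Q4) (u v : G) (huv : Fr u v) (S : ℕ) (hS : 2 ≤ S) (w1 w2 : ℝ) (δ B R I K : ℝ) (hδ : 0 < δ)
    (hR : R = ((((S : ℤ) : G) * u + v).re : ℝ)) (hI : I = ((((S : ℤ) : G) * u + v).im : ℝ)) (hK : K = 1 + (M : ℝ) / S)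
    (hB1 : 1 < Real.exp (2 * w1 + δ) * B)
    (hB : 3 * (K * I) ≤ δ * Real.exp w1 * R * B) (x : ℝ) :
    ({e : G × G | e ∈ NE M (phi γ) (2 * w1 + δ) (2 * w2) (x * (R ^ 2 + I ^ 2) / (K * (R * I))) ∧ e.1 ∈ arc u v S M}.ncard) ≤
    (((SN 1 x).filter (fun e => FP M γ u v S w1 w2 e)).card) +
        (Sm B (Real.exp (2 * w2) * B)).ncard := by
  rw [← Finset.card_image_of_injective _ phi_inj, ← Set.ncard_coe_finset]
  refine le_trans (Set.ncard_le_ncard ?_ ((Finset.finite_toSet _).union (Sm_finite _ _))) (Set.ncard_union_le _ _)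
  rintro ⟨⟨a, b⟩, ⟨c, d⟩⟩ ⟨⟨e1, e2, e3, e4, e5, e6, e7⟩, e8⟩
  simp only at e1 e2 e3 e4 e5 e6 e7 e8
  obtain ⟨d1, d2, d3, d4⟩ := dir_bd huv hS e8
  simp only at d1 d2 d3 d4
  obtain ⟨P1, P2⟩ := pos_re huv (k := (S : ℤ)) (by exact_mod_cast hS)
  have hRp : 0 < R := by rw [hR]; exact_mod_cast (by omega : (0 : ℤ) < (((S : ℤ) : G) * u + v).re)
  have hIp : 0 < I := by rw [hI]; exact_mod_cast (by omega : (0 : ℤ) < (((S : ℤ) : G) * u + v).im)
  rw [← hI, ← hR, ← hK] at d3 d4
  have hKp : 0 < K := by rw [hK]; positivity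
  rw [nm_r, nm_r] at e4 e5
  simp only at e4 e5
  by_cases hBN : B ≤ (a : ℝ) ^ 2 + b ^ 2
  · left
    have hx : K * ((a * c + b * d : ℤ) : ℝ) * (R * I) ≤ x * (R ^ 2 + I ^ 2) := by
      unfold dot at e3
      simp only at e3
      rw [le_div_iff₀ (by positivity)] at e3
      linarith
    obtain ⟨k1, k2, k3, k4, k5⟩ := lo_edge d1 d2 e1 hRp hIp hδ d3 d4 e2 hx e4 e5 hB1 hB hBN
    simp only at k1 k2
    rw [Finset.mem_coe, Finset.mem_image]
    lift a to ℕ using d1.le
    lift b to ℕ using d2.le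
    lift c to ℕ using k1.le
    lift d to ℕ using k2.le
    simp only [Int.cast_natCast] at k3 k4 k5
    have har : (0 : ℝ) < a := by exact_mod_cast d1
    have hcr : (0 : ℝ) < c := by exact_mod_cast k1
    have e1' : a * d = b * c + 1 := by
      have : (a : ℤ) * d = b * c + 1 := by
        unfold det at e1
        simp only at e1
        linarith
      exact_mod_cast this
    refine ⟨⟨a, b, c, d⟩, ?_, rfl⟩
    rw [mem_filter, mem_SN]
    refine ⟨⟨⟨e1', by exact_mod_cast d1, by exact_mod_cast d2, by exact_mod_cast k1, by exact_mod_cast k2, ?_, ?_⟩, k5⟩,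
      ⟨modEq_of_dvd e6.1, modEq_of_dvd e6.2, modEq_of_dvd e7.1, modEq_of_dvd e7.2⟩, e8, ?_, ?_⟩
    · show Nat.Coprime a b
      rw [← Nat.isCoprime_iff_coprime]
      exact ⟨d, -c, by unfold det at e1; simp only at e1; linarith⟩
    · show Nat.Coprime c d
      rw [← Nat.isCoprime_iff_coprime]
      exact ⟨-b, a, by unfold det at e1; simp only at e1; linarith⟩
    · unfold wS
      simp only
      have := Real.log_le_log (by positivity) k3
      rw [Real.log_mul (Real.exp_pos _).ne' har.ne', Real.log_exp] at this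
      linarith
    · unfold wS
      simp only
      have := Real.log_lt_log hcr k4
      rw [Real.log_mul (Real.exp_pos _).ne' har.ne', Real.log_exp] at this
      linarith
  · right
    push Not at hBN
    refine ⟨?_, ?_⟩
    · rw [nm_r]; exact hBN.le
    · rw [nm_r]
      refine e5.le.trans ?_
      exact mul_le_mul_of_nonneg_left hBN.le (Real.exp_pos _).le

end EqArc

end Pool.Agent.Spl
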