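import Pool.Agent.Lib_MP_92ef0c_sp.Q4
import Pool.Agent.Lib_MP_92ef0c_sp.SDefs0
import Pool.Agent.Lib_MP_f1a94e_mr.Defs

/-!
# Equidistribution of matrices in residue classes: definitions
-/

set_option autoImplicit false

namespace Pool.Agent.Spl

open Finset Pool.Agent.GaussMR Pool.Agent.OmAll Pool.Agent.OmEq

/-- congruence of matrices -/
def cq (M : ℕ) (e f : Q4) : Prop := e.a ≡ f.a [MOD M] ∧ e.b ≡ f.b [MOD M] ∧ e.c ≡ f.c [MOD M] ∧ e.d ≡ f.d [MOD M]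

/-- predicates that depend only on the class modulo `M` -/
def PerQ (M : ℕ) (P : Q4 → Prop) : Prop := ∀ e f : Q4, cq M e f → (P e ↔ P f)

open Classical in
/-- representatives of `SL2 (ℤ / M)` -/
noncomputable def clq (M : ℕ) : Finset Q4 :=
  (((range M ×ˢ range M) ×ˢ (range M ×ˢ range M)).image
    (fun w : (ℕ × ℕ) × (ℕ × ℕ) => (⟨w.1.1, w.1.2, w.2.1, w.2.2⟩ : Q4))).filter (fun e => e.a * e.d ≡ e.b * e.c + 1 [MOD M])

/-- `log (b / a)`, the direction of the first row -/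
noncomputable def pS (e : Q4) : ℝ := Real.log e.b - Real.log e.a

/-- `log (c / a)` -/
noncomputable def wS (e : Q4) : ℝ := Real.log e.c - Real.log e.a

/-- `log (im / re)` -/
noncomputable def dl (z : G) : ℝ := Real.log z.im - Real.log z.re

theorem mem_clq {M : ℕ} {e : Q4} : e ∈ clq M ↔ (e.a < M ∧ e.b < M ∧ e.c < M ∧ e.d < M) ∧
    e.a * e.d ≡ e.b * e.c + 1 [MOD M] := by
  classical
  unfold clq
  rw [mem_filter, mem_image]
  constructor
  · rintro ⟨⟨w, hw, rfl⟩, h⟩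
    simp only [mem_product, mem_range] at hw
    exact ⟨⟨hw.1.1, hw.1.2, hw.2.1, hw.2.2⟩, h⟩
  · rintro ⟨⟨h1, h2, h3, h4⟩, h⟩
    refine ⟨⟨((e.a, e.b), (e.c, e.d)), ?_, rfl⟩, h⟩
    simp only [mem_product, mem_range]
    exact ⟨⟨h1, h2⟩, h3, h4⟩

end Pool.Agent.Spl
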