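import Mathlib
import Pool.Agent.Lib_MP_f1a94e_eq.RiemTwo

/-!
# Riemann sums in three variables
-/

set_option autoImplicit false

namespace Pool.Agent.Spl

open Finset Filter MeasureTheory

/-- the integral over the last variable and its Riemann sum -/
private theorem r3_last (f : ℝ → ℝ) (hf : Continuous f) (s : ℕ → ℝ) (J : ℕ) (δ η : ℝ)
    (hs : ∀ l, s (l + 1) - s l = δ) (hδ : 0 ≤ δ)
    (h : ∀ l, ∀ r ∈ Set.Icc (s l) (s (l + 1)), |f r - f (s l)| ≤ η) :
    |(∫ r in s 0..s J, f r) - ∑ l ∈ range J, δ * f (s l)| ≤ J * (η * δ) := by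
  rw [← intervalIntegral.sum_integral_adjacent_intervals (n := J) (a := s)
    (fun k _ => hf.intervalIntegrable _ _), ← Finset.sum_sub_distrib]
  have h1 : ∀ l ∈ range J, |(∫ r in s l..s (l + 1), f r) - δ * f (s l)| ≤ η * δ := by
    intro l _
    have h2 : (∫ r in s l..s (l + 1), f r) - δ * f (s l) = ∫ r in s l..s (l + 1), (f r - f (s l)) := by
      rw [intervalIntegral.integral_sub (hf.intervalIntegrable _ _)
        (continuous_const.intervalIntegrable _ _), intervalIntegral.integral_const, smul_eq_mul, hs]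
    have hle : s l ≤ s (l + 1) := by linarith [hs l]
    rw [h2]
    have h4 := intervalIntegral.norm_integral_le_of_norm_le_const (a := s l) (b := s (l + 1)) (C := η)
      (f := fun r => f r - f (s l)) (by
        intro r hr
        rw [Set.uIoc_of_le hle] at hr
        exact h l r ⟨hr.1.le, hr.2⟩)
    rwa [hs, abs_of_nonneg hδ] at h4
  refine (Finset.abs_sum_le_sum_abs _ _).trans ((Finset.sum_le_sum h1).trans (le_of_eq ?_))
  rw [Finset.sum_const, Finset.card_range, nsmul_eq_mul]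

/-- PROOF. The three-dimensional version of `riem2` (`Lib_MP_f1a94e_eq/RiemTwo.lean`); adapt it. `Ψ` is uniformly continuous and vanishes outside `[0, b] × [-B, B] × [-B, B]`. Cells `i/K X < m e ≤ (i+1)/K X`, `j/K ≤ p e < (j+1)/K`, `l/K ≤ w e < (l+1)/K` have `X c / K^3 + o(X)` elements (difference of `hc` at two values of
`x`; for `i = 0` use `0 < m e`: the set at `x = 0` is empty). On a cell `Ψ` differs from its value at the corner by at most `η(K) → 0`; the Riemann sum of a continuous function with compact support converges to the iterated integral. -/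
theorem riem3 {ι : Type} (A : ι → Prop) (S : ℝ → Finset ι) (m p w : ι → ℝ) (hS : ∀ x e, e ∈ S x ↔ A e ∧ m e ≤ x)
    (hm : ∀ e, A e → 0 < m e) (c : ℝ) (hc0 : 0 ≤ c)
    (hc : ∀ p1 p2 w1 w2 : ℝ, p1 ≤ p2 → w1 ≤ w2 →
      Tendsto (fun x : ℝ => (((S x).filter (fun e => (p1 ≤ p e ∧ p e < p2) ∧ (w1 ≤ w e ∧ w e < w2))).card : ℝ) / x) atTop
        (nhds (c * (p2 - p1) * (w2 - w1))))
    (Ψ : ℝ → ℝ → ℝ → ℝ) (hΨ : Continuous (fun v : ℝ × ℝ × ℝ => Ψ v.1 v.2.1 v.2.2))
    (hcs : HasCompactSupport (fun v : ℝ × ℝ × ℝ => Ψ v.1 v.2.1 v.2.2))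
    (hneg : ∀ y q r, y ≤ 0 → Ψ y q r = 0) (b : ℝ) (hb : ∀ y q r, b ≤ y → Ψ y q r = 0) :
    Tendsto (fun X : ℝ => (∑ e ∈ S (b * X), Ψ (m e / X) (p e) (w e)) / X) atTop (nhds (c * ∫ y, ∫ q, ∫ r, Ψ y q r)) := by
  classical
  -- bounds of the support
  obtain ⟨M, hM1, hMb⟩ : ∃ M : ℕ, 1 ≤ M ∧ b ≤ M := by
    obtain ⟨n, hn⟩ := exists_nat_ge b
    exact ⟨n + 1, by omega, hn.trans (by push_cast; linarith)⟩
  obtain ⟨B, hB1, hB⟩ : ∃ B : ℕ, 1 ≤ B ∧ ∀ y q r, Ψ y q r ≠ 0 → |q| < B ∧ |r| < B := by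
    obtain ⟨R, hR⟩ := hcs.isBounded.subset_closedBall (0 : ℝ × ℝ × ℝ)
    obtain ⟨n, hn⟩ := exists_nat_gt R
    refine ⟨n + 1, by omega, fun y q r h => ?_⟩
    have h1 : (y, q, r) ∈ tsupport (fun v : ℝ × ℝ × ℝ => Ψ v.1 v.2.1 v.2.2) := subset_tsupport _ (by
      rw [Function.mem_support]
      exact h)
    have h2 := hR h1
    rw [mem_closedBall_zero_iff, Prod.norm_def, Prod.norm_def] at h2
    have h3 : ‖q‖ ≤ R := ((le_max_left _ _).trans (le_max_right _ _)).trans h2
    have h4 : ‖r‖ ≤ R := ((le_max_right _ _).trans (le_max_right _ _)).trans h2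
    rw [Real.norm_eq_abs] at h3 h4
    push_cast
    constructor <;> linarith
  have hB0 : (0:ℝ) < B := by exact_mod_cast hB1
  have hM0 : (0:ℝ) < M := by exact_mod_cast hM1
  have hbM : ∀ y q r, (M : ℝ) ≤ y → Ψ y q r = 0 := fun y q r h => hb y q r (hMb.trans h)
  have hcont2 : ∀ r, Continuous (Function.uncurry fun y q => Ψ y q r) := by
    intro r
    have h1 : Continuous fun v : ℝ × ℝ => ((v.1, v.2, r) : ℝ × ℝ × ℝ) := by fun_prop
    exact hΨ.comp h1
  have hcont1 : ∀ y q, Continuous fun r => Ψ y q r := by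
    intro y q
    have h1 : Continuous fun r : ℝ => ((y, q, r) : ℝ × ℝ × ℝ) := by fun_prop
    exact hΨ.comp h1
  have hcontR : Continuous (Function.uncurry fun y q => ∫ r in (-B:ℝ)..B, Ψ y q r) := by
    have h1 : Continuous (Function.uncurry fun (v : ℝ × ℝ) (r : ℝ) => Ψ v.1 v.2 r) := by
      have h2 : Continuous fun v : (ℝ × ℝ) × ℝ => ((v.1.1, v.1.2, v.2) : ℝ × ℝ × ℝ) := by fun_prop
      exact hΨ.comp h2
    exact intervalIntegral.continuous_parametric_intervalIntegral_of_continuous' h1 (-B) B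
  -- integrals over the box
  have hint2 : ∀ F : ℝ → ℝ → ℝ, (∀ y q, y ≤ 0 → F y q = 0) → (∀ y q, (M:ℝ) ≤ y → F y q = 0) →
      (∀ y q, F y q ≠ 0 → |q| < B) → (∫ y, ∫ q, F y q) = ∫ y in (0:ℝ)..M, ∫ q in (-B:ℝ)..B, F y q := by
    intro F h0 h1 h2
    have h3 : ∀ y, (∫ q, F y q) = ∫ q in (-B:ℝ)..B, F y q := by
      intro y
      symm
      apply intervalIntegral.integral_eq_integral_of_support_subset
      intro q hq
      have := abs_lt.1 (h2 y q hq)
      exact ⟨this.1, this.2.le⟩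
    simp_rw [h3]
    symm
    apply intervalIntegral.integral_eq_integral_of_support_subset
    intro y hy
    rw [Function.mem_support] at hy
    constructor
    · by_contra hc
      apply hy
      have : ∀ q, F y q = 0 := fun q => h0 y q (not_lt.1 hc)
      simp [this]
    · by_contra hc
      apply hy
      have : ∀ q, F y q = 0 := fun q => h1 y q (not_le.1 hc).le
      simp [this]
  have hin : ∀ y q, (∫ r, Ψ y q r) = ∫ r in (-B:ℝ)..B, Ψ y q r := by
    intro y q
    symm
    apply intervalIntegral.integral_eq_integral_of_support_subset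
    intro r hr
    have := abs_lt.1 (hB y q r hr).2
    exact ⟨this.1, this.2.le⟩
  have hint3 : (∫ y, ∫ q, ∫ r, Ψ y q r) = ∫ y in (0:ℝ)..M, ∫ q in (-B:ℝ)..B, ∫ r in (-B:ℝ)..B, Ψ y q r := by
    simp_rw [hin]
    apply hint2
    · intro y q h
      have : ∀ r, Ψ y q r = 0 := fun r => hneg y q r h
      simp [this]
    · intro y q h
      have : ∀ r, Ψ y q r = 0 := fun r => hbM y q r h
      simp [this]
    · intro y q h
      by_contra hcon
      apply h
      have : ∀ r, Ψ y q r = 0 := by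
        intro r
        by_contra h'
        exact hcon (hB y q r h').1
      simp [this]
  rw [Metric.tendsto_atTop']
  intro ε hε
  -- parameters
  obtain ⟨V, hV⟩ : ∃ V : ℝ, V = M * (2 * B) * (2 * B) := ⟨_, rfl⟩
  have hV0 : 0 < V := by rw [hV]; positivity
  obtain ⟨η, hη⟩ : ∃ η : ℝ, η = ε / (4 * ((c + 1) * (V + 1))) := ⟨_, rfl⟩
  have hη0 : 0 < η := by rw [hη]; positivity
  have hηe : η * ((c + 1) * (V + 1)) = ε / 4 := by
    rw [hη]
    field_simp
  have huc : UniformContinuous (fun v : ℝ × ℝ × ℝ => Ψ v.1 v.2.1 v.2.2) :=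
    hcs.uniformContinuous_of_continuous hΨ
  obtain ⟨δ, hδ, hδ'⟩ := Metric.uniformContinuous_iff.1 huc η hη0
  obtain ⟨K, hK⟩ := exists_nat_gt (1 / δ)
  have hK0 : (0:ℝ) < K := lt_trans (by positivity) hK
  have hKδ : 1 / (K:ℝ) < δ := by
    rw [div_lt_iff₀ hK0]
    rw [div_lt_iff₀ hδ] at hK
    linarith
  obtain ⟨s, hs⟩ : ∃ s : ℕ → ℝ, s = fun j : ℕ => -(B:ℝ) + (j : ℝ) / K := ⟨_, rfl⟩
  have hsm : Monotone s := by
    intro i j hij
    rw [hs]
    simp only
    gcongr
  have hs0 : s 0 = -B := by rw [hs]; simp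
  have hsJ : s (2 * B * K) = B := by
    rw [hs]
    simp only [Nat.cast_mul, Nat.cast_ofNat]
    field_simp
    ring
  have hds : ∀ i, s (i + 1) - s i = 1 / K := fun i => by
    rw [hs]
    simp only [Nat.cast_add, Nat.cast_one]
    ring
  have hvar : ∀ y q, ∀ l, ∀ r ∈ Set.Icc (s l) (s (l + 1)), |Ψ y q r - Ψ y q (s l)| ≤ η := by
    intro y q l r hr
    have h2 := hds l
    have h3 : dist ((y, q, r) : ℝ × ℝ × ℝ) (y, q, s l) < δ := by
      rw [Prod.dist_eq, Prod.dist_eq, dist_self, dist_self, Real.dist_eq,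
        abs_of_nonneg (by linarith [hr.1])]
      simp only [max_lt_iff]
      exact ⟨hδ, hδ, by linarith [hr.2]⟩
    have h4 := hδ' h3
    rw [Real.dist_eq] at h4
    exact h4.le
  -- the Riemann sum in the last variable
  obtain ⟨I, hI⟩ : ∃ I : ℝ, I = ∑ l ∈ range (2 * B * K), (1 / K : ℝ) * ∫ y, ∫ q, Ψ y q (s l) := ⟨_, rfl⟩
  have hslab : ∀ l, (∫ y, ∫ q, Ψ y q (s l)) = ∫ y in (0:ℝ)..M, ∫ q in (-B:ℝ)..B, Ψ y q (s l) := by
    intro l
    exact hint2 (fun y q => Ψ y q (s l)) (fun y q h => hneg y q _ h) (fun y q h => hbM y q _ h)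
      (fun y q h => (hB y q _ h).1)
  have hcontS : ∀ l, Continuous (Function.uncurry fun y q => (1 / K : ℝ) * Ψ y q (s l)) := fun l =>
    continuous_const.mul (hcont2 (s l))
  have hpar : ∀ F : ℝ → ℝ → ℝ, Continuous (Function.uncurry F) → Continuous fun y => ∫ q in (-B:ℝ)..B, F y q :=
    fun F hF => intervalIntegral.continuous_parametric_intervalIntegral_of_continuous' hF _ _
  have hsec : ∀ F : ℝ → ℝ → ℝ, Continuous (Function.uncurry F) → ∀ y, Continuous fun q => F y q :=
    fun F hF y => hF.comp (Continuous.prodMk_right y)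
  have hI2 : I = ∫ y in (0:ℝ)..M, ∫ q in (-B:ℝ)..B, ∑ l ∈ range (2 * B * K), (1 / K : ℝ) * Ψ y q (s l) := by
    have h1 : ∀ y, (∫ q in (-B:ℝ)..B, ∑ l ∈ range (2 * B * K), (1 / K : ℝ) * Ψ y q (s l)) =
        ∑ l ∈ range (2 * B * K), ∫ q in (-B:ℝ)..B, (1 / K : ℝ) * Ψ y q (s l) := by
      intro y
      exact intervalIntegral.integral_finsetSum
        (fun l _ => (hsec _ (hcontS l) y).intervalIntegrable _ _)
    simp_rw [h1]
    rw [intervalIntegral.integral_finsetSum
      (fun l _ => (hpar _ (hcontS l)).intervalIntegrable _ _), hI]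
    apply Finset.sum_congr rfl
    intro l _
    rw [hslab l, ← intervalIntegral.integral_const_mul]
    apply intervalIntegral.integral_congr
    intro y _
    simp only
    rw [intervalIntegral.integral_const_mul]
  have hint4 : |(∫ y, ∫ q, ∫ r, Ψ y q r) - I| ≤ η * V := by
    have hc2 : Continuous (Function.uncurry fun y q => ∑ l ∈ range (2 * B * K), (1 / K : ℝ) * Ψ y q (s l)) := by
      have h0 : (Function.uncurry fun y q => ∑ l ∈ range (2 * B * K), (1 / K : ℝ) * Ψ y q (s l)) =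
          fun v : ℝ × ℝ => ∑ l ∈ range (2 * B * K), (Function.uncurry fun y q => (1 / K : ℝ) * Ψ y q (s l)) v := by
        funext v
        rfl
      rw [h0]
      exact continuous_finsetSum _ fun l _ => hcontS l
    obtain ⟨D, hD⟩ : ∃ D : ℝ → ℝ → ℝ, D = fun y q => (∫ r in (-B:ℝ)..B, Ψ y q r) -
      ∑ l ∈ range (2 * B * K), (1 / K : ℝ) * Ψ y q (s l) := ⟨_, rfl⟩
    have hDc : Continuous (Function.uncurry D) := by
      rw [hD]
      exact hcontR.sub hc2
    have h1 : (∫ y, ∫ q, ∫ r, Ψ y q r) - I = ∫ y in (0:ℝ)..M, ∫ q in (-B:ℝ)..B, D y q := by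
      rw [hint3, hI2, ← intervalIntegral.integral_sub ((hpar _ hcontR).intervalIntegrable _ _)
        ((hpar _ hc2).intervalIntegrable _ _)]
      apply intervalIntegral.integral_congr
      intro y _
      simp only
      rw [← intervalIntegral.integral_sub ((hsec _ hcontR y).intervalIntegrable _ _)
        ((hsec _ hc2 y).intervalIntegrable _ _), hD]
    have h2 : ∀ y ∈ Set.Icc (0:ℝ) M, ∀ q ∈ Set.Icc (-B:ℝ) B, |D y q - 0| ≤ η * (2 * B) := by
      intro y _ q _
      have h3 := r3_last (fun r => Ψ y q r) (hcont1 y q) s (2 * B * K) (1 / K) η hds (by positivity)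
        (hvar y q)
      rw [hs0, hsJ] at h3
      rw [sub_zero, hD]
      refine h3.trans (le_of_eq ?_)
      push_cast
      field_simp
    have h3 := Pool.Agent.OmEq.rt_cellint D hDc 0 M (-B) B 0 (η * (2 * B)) hM0.le (by linarith) h2
    rw [h1]
    rw [zero_mul, sub_zero] at h3
    refine h3.trans (le_of_eq ?_)
    rw [hV]; ring
  -- slabs
  obtain ⟨T, hT⟩ : ∃ T : ℕ → ℝ → Finset ι, T = fun l x => (S x).filter
      (fun e => s l ≤ w e ∧ w e < s (l + 1)) := ⟨_, rfl⟩
  have hslim : ∀ l, Tendsto (fun X : ℝ => (∑ e ∈ T l (M * X), Ψ (m e / X) (p e) (s l)) / X) atTop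
      (nhds (c * (1 / K) * ∫ y, ∫ q, Ψ y q (s l))) := by
    intro l
    refine Pool.Agent.OmEq.riem2 (fun e => A e ∧ (s l ≤ w e ∧ w e < s (l + 1))) (T l) m p ?_ ?_
      (c * (1 / K)) (by positivity) ?_ (fun y q => Ψ y q (s l)) (hcont2 (s l)) ?_
      (fun y q h => hneg y q _ h) M (fun y q h => hbM y q _ h)
    · intro x e
      rw [hT]
      simp only [Finset.mem_filter, hS]
      tauto
    · intro e he
      exact hm e he.1
    · intro p1 p2 h12
      have h1 := hc p1 p2 (s l) (s (l + 1)) h12 (hsm (Nat.le_succ _))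
      rw [hds] at h1
      have h2 : c * (p2 - p1) * (1 / K) = c * (1 / K) * (p2 - p1) := by ring
      rw [h2] at h1
      refine h1.congr fun x => ?_
      rw [hT]
      simp only [Finset.filter_filter]
      congr 3
      ext e
      simp only [Finset.mem_filter]
      tauto
    · have hemb : Topology.IsClosedEmbedding (fun v : ℝ × ℝ => ((v.1, v.2, s l) : ℝ × ℝ × ℝ)) := by
        refine Topology.IsClosedEmbedding.of_continuous_injective_isClosedMap (by fun_prop) ?_ ?_
        · intro a a' h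
          simp only [Prod.mk.injEq, and_true] at h
          exact Prod.ext h.1 h.2
        · intro C hC
          have h1 : (fun v : ℝ × ℝ => ((v.1, v.2, s l) : ℝ × ℝ × ℝ)) '' C =
              {v : ℝ × ℝ × ℝ | (v.1, v.2.1) ∈ C} ∩ {v : ℝ × ℝ × ℝ | v.2.2 = s l} := by
            ext ⟨y, q, r⟩
            constructor
            · rintro ⟨v, hv, h⟩
              simp only [Prod.mk.injEq] at h
              obtain ⟨h1, h2, h3⟩ := h
              subst h1 h2 h3
              exact ⟨hv, rfl⟩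
            · rintro ⟨h1, h2⟩
              exact ⟨(y, q), h1, by
                have h2' : r = s l := h2
                simp only [h2']⟩
          rw [h1]
          refine IsClosed.inter (hC.preimage (by fun_prop)) ?_
          exact isClosed_eq (by fun_prop) continuous_const
      exact hcs.comp_isClosedEmbedding hemb
  have hl2 : Tendsto (fun X : ℝ => ∑ l ∈ range (2 * B * K),
      (∑ e ∈ T l (M * X), Ψ (m e / X) (p e) (s l)) / X) atTop (nhds (c * I)) := by
    have e : c * I = ∑ l ∈ range (2 * B * K), c * (1 / K) * ∫ y, ∫ q, Ψ y q (s l) := by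
      rw [hI, Finset.mul_sum]
      apply Finset.sum_congr rfl
      intro l _
      ring
    rw [e]
    exact tendsto_finsetSum _ fun l _ => hslim l
  -- the number of points in the box
  have hl1 : Tendsto (fun X : ℝ => (((S (M * X)).filter (fun e => (-(B:ℝ) ≤ p e ∧ p e < B) ∧
      (-(B:ℝ) ≤ w e ∧ w e < B))).card : ℝ) / X) atTop (nhds (c * V)) := by
    have h1 : Tendsto (fun X : ℝ => (M:ℝ) * X) atTop atTop := tendsto_id.const_mul_atTop hM0
    have h2 := ((hc (-B) B (-B) B (by linarith) (by linarith)).comp h1).const_mul (M:ℝ)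
    have h3 : (M:ℝ) * (c * (B - -B) * (B - -B)) = c * V := by rw [hV]; ring
    rw [h3] at h2
    refine h2.congr' ?_
    filter_upwards [eventually_gt_atTop 0] with X hX
    simp only [Function.comp]
    field_simp
  have hev1 := hl1.eventually (gt_mem_nhds (show c * V < c * V + 1 by linarith))
  have hev2 := (Metric.tendsto_nhds.1 hl2) (ε / 4) (by linarith)
  obtain ⟨X0, hX0⟩ := ((hev1.and hev2).and (eventually_gt_atTop (0:ℝ))).exists_forall_of_atTop
  refine ⟨X0, fun X hXX => ?_⟩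
  obtain ⟨⟨h1, h2⟩, hX⟩ := hX0 X (le_of_lt hXX)
  -- the sum over the points
  have hsum : ∑ e ∈ S (b * X), Ψ (m e / X) (p e) (w e) = ∑ e ∈ S (M * X), Ψ (m e / X) (p e) (w e) := by
    apply Finset.sum_subset
    · intro e he
      rw [hS] at he ⊢
      exact ⟨he.1, he.2.trans (mul_le_mul_of_nonneg_right hMb hX.le)⟩
    · intro e he he'
      rw [hS] at he he'
      apply hb
      rw [le_div_iff₀ hX]
      by_contra hcon
      exact he' ⟨he.1, (not_le.1 hcon).le⟩
  have hsum2 : ∑ e ∈ S (M * X), Ψ (m e / X) (p e) (w e) =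
      ∑ l ∈ range (2 * B * K), ∑ e ∈ T l (M * X), Ψ (m e / X) (p e) (w e) := by
    rw [hT]
    rw [← Pool.Agent.OmEq.rt_tele (S (M * X)) w s hsm (fun e => Ψ (m e / X) (p e) (w e)) (2 * B * K),
      Finset.sum_filter]
    apply Finset.sum_congr rfl
    intro e _
    by_cases h : s 0 ≤ w e ∧ w e < s (2 * B * K)
    · rw [if_pos h]
    · rw [if_neg h]
      by_contra hcon
      have h3 := abs_lt.1 (hB _ _ _ hcon).2
      apply h
      rw [hs0, hsJ]
      exact ⟨h3.1.le, h3.2⟩
  -- the error in the slabs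
  have hcard : ∑ l ∈ range (2 * B * K), ∑ e ∈ (T l (M * X)).filter (fun e => -(B:ℝ) ≤ p e ∧ p e < B), η =
      η * (((S (M * X)).filter (fun e => (-(B:ℝ) ≤ p e ∧ p e < B) ∧
      (-(B:ℝ) ≤ w e ∧ w e < B))).card : ℝ) := by
    have h3 := Pool.Agent.OmEq.rt_tele ((S (M * X)).filter (fun e => -(B:ℝ) ≤ p e ∧ p e < B)) w s hsm
      (fun _ => η) (2 * B * K)
    rw [hs0, hsJ, Finset.filter_filter, Finset.sum_const, nsmul_eq_mul, mul_comm] at h3
    rw [h3]
    apply Finset.sum_congr rfl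
    intro l _
    rw [hT]
    simp only [Finset.filter_filter]
    congr 1
    ext e
    simp only [Finset.mem_filter]
    tauto
  have hest : |(∑ e ∈ S (b * X), Ψ (m e / X) (p e) (w e)) / X - ∑ l ∈ range (2 * B * K),
      (∑ e ∈ T l (M * X), Ψ (m e / X) (p e) (s l)) / X| ≤ η * (c * V + 1) := by
    have h3 : (∑ e ∈ S (b * X), Ψ (m e / X) (p e) (w e)) / X - ∑ l ∈ range (2 * B * K),
        (∑ e ∈ T l (M * X), Ψ (m e / X) (p e) (s l)) / X =
        (∑ l ∈ range (2 * B * K), ∑ e ∈ T l (M * X),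
          (Ψ (m e / X) (p e) (w e) - Ψ (m e / X) (p e) (s l))) / X := by
      rw [hsum, hsum2, ← Finset.sum_div, ← sub_div, ← Finset.sum_sub_distrib]
      congr 1
      apply Finset.sum_congr rfl
      intro l _
      rw [Finset.sum_sub_distrib]
    rw [h3, abs_div, abs_of_pos hX]
    have h4 : |∑ l ∈ range (2 * B * K), ∑ e ∈ T l (M * X),
        (Ψ (m e / X) (p e) (w e) - Ψ (m e / X) (p e) (s l))| ≤
        η * (((S (M * X)).filter (fun e => (-(B:ℝ) ≤ p e ∧ p e < B) ∧
        (-(B:ℝ) ≤ w e ∧ w e < B))).card : ℝ) := by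
      rw [← hcard]
      refine (Finset.abs_sum_le_sum_abs _ _).trans (Finset.sum_le_sum fun l _ => ?_)
      refine (Finset.abs_sum_le_sum_abs _ _).trans ?_
      rw [Finset.sum_filter]
      apply Finset.sum_le_sum
      intro e he
      rw [hT] at he
      simp only [Finset.mem_filter] at he
      by_cases hp : -(B:ℝ) ≤ p e ∧ p e < B
      · rw [if_pos hp]
        exact hvar _ _ l _ ⟨he.2.1, he.2.2.le⟩
      · rw [if_neg hp]
        have h5 : ∀ r, Ψ (m e / X) (p e) r = 0 := by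
          intro r
          by_contra hcon
          have h6 := abs_lt.1 (hB _ _ _ hcon).1
          exact hp ⟨h6.1.le, h6.2⟩
        rw [h5, h5]
        simp
    calc |∑ l ∈ range (2 * B * K), ∑ e ∈ T l (M * X),
        (Ψ (m e / X) (p e) (w e) - Ψ (m e / X) (p e) (s l))| / X ≤
        η * (((S (M * X)).filter (fun e => (-(B:ℝ) ≤ p e ∧ p e < B) ∧
        (-(B:ℝ) ≤ w e ∧ w e < B))).card : ℝ) / X := div_le_div_of_nonneg_right h4 hX.le
      _ = η * ((((S (M * X)).filter (fun e => (-(B:ℝ) ≤ p e ∧ p e < B) ∧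
        (-(B:ℝ) ≤ w e ∧ w e < B))).card : ℝ) / X) := by ring
      _ ≤ η * (c * V + 1) := mul_le_mul_of_nonneg_left h1.le hη0.le
  rw [Real.dist_eq] at h2 ⊢
  have h8 : |c * I - c * ∫ y, ∫ q, ∫ r, Ψ y q r| ≤ c * (η * V) := by
    rw [← mul_sub, abs_mul, abs_of_nonneg hc0, abs_sub_comm]
    exact mul_le_mul_of_nonneg_left hint4 hc0
  have h9 : η * (c * V + 1) ≤ ε / 4 := by
    rw [← hηe]
    apply mul_le_mul_of_nonneg_left _ hη0.le
    nlinarith
  have h10 : c * (η * V) ≤ ε / 4 := by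
    rw [← hηe]
    nlinarith [mul_pos hη0 hV0, mul_nonneg hc0 hη0.le]
  rw [abs_lt] at h2 ⊢
  rw [abs_le] at hest h8
  constructor
  · linarith [hest.1, h8.1, h2.1]
  · linarith [hest.2, h8.2, h2.2]

end Pool.Agent.Spl
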