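import Pool.Agent.Lib_MP_92ef0c_sp.EqHyp
import Pool.Agent.Lib_MP_92ef0c_sp.Riem3
import Pool.Agent.Lib_MP_92ef0c_sp.SDefs
import Pool.Agent.Lib_MP_f1a94e_eq.BDefs

/-!
# From determinant 1 to determinant `n`, one residue
-/

set_option autoImplicit false

namespace Pool.Agent.Spl

open Finset Pool.Agent.GaussMR Pool.Agent.OmAll Pool.Agent.OmEq Filter MeasureTheory

/-- `n ∣ c + l a`, `n ∣ d + l b` -/
def lc (n l : ℕ) (e : Q4) : Prop := n ∣ e.c + l * e.a ∧ n ∣ e.d + l * e.b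

/-- the matrix `(a b; (c + l a)/n (d + l b)/n)` -/
def dn (n l : ℕ) (e : Q4) : Q4 := ⟨e.a, e.b, (e.c + l * e.a) / n, (e.d + l * e.b) / n⟩

namespace EqK

/-- the inverse of `dn` -/
def upq (n l : ℕ) (e : Q4) : Q4 := ⟨e.a, e.b, n * e.c - l * e.a, n * e.d - l * e.b⟩

theorem dn_mem {n l : ℕ} (hn : 0 < n) {e : Q4} (he : Sn n e) (h : lc n l e) :
    Sn 1 (dn n l e) ∧ l * (dn n l e).a < n * (dn n l e).c ∧ upq n l (dn n l e) = e := by
  obtain ⟨hdet, ha, hb, hc, hd, hab, hcd⟩ := he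
  obtain ⟨⟨c1, hc1⟩, ⟨d1, hd1⟩⟩ := h
  have e1 : (e.c + l * e.a) / n = c1 := by rw [hc1]; exact Nat.mul_div_cancel_left _ hn
  have e2 : (e.d + l * e.b) / n = d1 := by rw [hd1]; exact Nat.mul_div_cancel_left _ hn
  have hdn : dn n l e = ⟨e.a, e.b, c1, d1⟩ := by unfold dn; rw [e1, e2]
  rw [hdn]
  have hdet1 : e.a * d1 = e.b * c1 + 1 := by
    have h1 : n * (e.a * d1) = n * (e.b * c1 + 1) := by
      calc n * (e.a * d1) = e.a * (n * d1) := by ring
        _ = e.a * (e.d + l * e.b) := by rw [hd1]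
        _ = e.a * e.d + l * e.a * e.b := by ring
        _ = e.b * e.c + n + l * e.a * e.b := by rw [hdet]
        _ = e.b * (e.c + l * e.a) + n := by ring
        _ = e.b * (n * c1) + n := by rw [hc1]
        _ = n * (e.b * c1 + 1) := by ring
    exact Nat.eq_of_mul_eq_mul_left hn h1
  have hc1p : 0 < c1 := by
    rcases Nat.eq_zero_or_pos c1 with h0 | h0
    · rw [h0] at hc1; omega
    · exact h0
  have hd1p : 0 < d1 := by
    rcases Nat.eq_zero_or_pos d1 with h0 | h0
    · rw [h0] at hd1; omega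
    · exact h0
  refine ⟨⟨hdet1, ha, hb, hc1p, hd1p, hab, ?_⟩, ?_, ?_⟩
  · show c1.Coprime d1
    rw [Nat.coprime_iff_gcd_eq_one, ← Nat.dvd_one]
    have h1 : Nat.gcd c1 d1 ∣ e.a * d1 := Dvd.dvd.mul_left (Nat.gcd_dvd_right _ _) _
    have h2 : Nat.gcd c1 d1 ∣ e.b * c1 := Dvd.dvd.mul_left (Nat.gcd_dvd_left _ _) _
    rw [hdet1] at h1
    exact (Nat.dvd_add_right h2).1 h1
  · show l * e.a < n * c1
    omega
  · unfold upq
    ext
    · rfl
    · rfl
    · show n * c1 - l * e.a = e.c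
      omega
    · show n * d1 - l * e.b = e.d
      omega

theorem up_mem {n l : ℕ} (hn : 0 < n) (hl : l.Coprime n) {e : Q4} (he : Sn 1 e)
    (h : l * e.a < n * e.c) : Sn n (upq n l e) ∧ lc n l (upq n l e) ∧ dn n l (upq n l e) = e := by
  obtain ⟨hdet, ha, hb, hc, hd, hab, hcd⟩ := he
  have h2 : l * e.b < n * e.d := by
    have h3 : e.a * (l * e.b) < e.a * (n * e.d) := by
      calc e.a * (l * e.b) = e.b * (l * e.a) := by ring
        _ < e.b * (n * e.c) := Nat.mul_lt_mul_of_pos_left h hb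
        _ ≤ e.b * (n * e.c) + n := Nat.le_add_right _ _
        _ = n * (e.b * e.c + 1) := by ring
        _ = n * (e.a * e.d) := by rw [hdet]
        _ = e.a * (n * e.d) := by ring
    exact lt_of_mul_lt_mul_left h3 (Nat.zero_le _)
  obtain ⟨c, hc'⟩ := Nat.exists_eq_add_of_lt h
  obtain ⟨d, hd'⟩ := Nat.exists_eq_add_of_lt h2
  have ec : n * e.c - l * e.a = c + 1 := by omega
  have ed : n * e.d - l * e.b = d + 1 := by omega
  have hup : upq n l e = ⟨e.a, e.b, c + 1, d + 1⟩ := by unfold upq; rw [ec, ed]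
  have hcs : (c + 1) + l * e.a = n * e.c := by omega
  have hds : (d + 1) + l * e.b = n * e.d := by omega
  have hdet' : e.a * (d + 1) = e.b * (c + 1) + n := by
    have h3 : e.a * (d + 1) + l * e.a * e.b = e.b * (c + 1) + n + l * e.a * e.b := by
      calc e.a * (d + 1) + l * e.a * e.b = e.a * ((d + 1) + l * e.b) := by ring
        _ = e.a * (n * e.d) := by rw [hds]
        _ = n * (e.a * e.d) := by ring
        _ = n * (e.b * e.c + 1) := by rw [hdet]
        _ = e.b * (n * e.c) + n := by ring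
        _ = e.b * ((c + 1) + l * e.a) + n := by rw [hcs]
        _ = _ := by ring
    exact Nat.add_right_cancel h3
  rw [hup]
  refine ⟨⟨hdet', ha, hb, Nat.succ_pos _, Nat.succ_pos _, hab, ?_⟩, ⟨?_, ?_⟩, ?_⟩
  · show (c + 1).Coprime (d + 1)
    by_contra hnc
    obtain ⟨q, hq, hqc, hqd⟩ := Nat.Prime.not_coprime_iff_dvd.1 hnc
    have hqn : q ∣ n := by
      have h3 : q ∣ e.b * (c + 1) + n := by rw [← hdet']; exact Dvd.dvd.mul_left hqd _
      exact (Nat.dvd_add_right (Dvd.dvd.mul_left hqc _)).1 h3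
    have hql : ¬ q ∣ l := fun h4 => hq.one_lt.ne' (Nat.dvd_one.1 (hl ▸ Nat.dvd_gcd h4 hqn))
    have hqa : q ∣ e.a := by
      have h4 : q ∣ (c + 1) + l * e.a := by rw [hcs]; exact Dvd.dvd.mul_right hqn _
      have h5 := (Nat.dvd_add_right hqc).1 h4
      exact (hq.dvd_mul.1 h5).resolve_left hql
    have hqb : q ∣ e.b := by
      have h4 : q ∣ (d + 1) + l * e.b := by rw [hds]; exact Dvd.dvd.mul_right hqn _
      have h5 := (Nat.dvd_add_right hqd).1 h4
      exact (hq.dvd_mul.1 h5).resolve_left hql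
    exact Nat.Prime.not_coprime_iff_dvd.2 ⟨q, hq, hqa, hqb⟩ hab
  · show n ∣ (c + 1) + l * e.a
    rw [hcs]; exact Dvd.intro _ rfl
  · show n ∣ (d + 1) + l * e.b
    rw [hds]; exact Dvd.intro _ rfl
  · unfold dn
    ext
    · rfl
    · rfl
    · show ((c + 1) + l * e.a) / n = e.c
      rw [hcs]; exact Nat.mul_div_cancel_left _ hn
    · show ((d + 1) + l * e.b) / n = e.d
      rw [hds]; exact Nat.mul_div_cancel_left _ hn

/-- the real quantities of the matrix `upq n l e` -/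
theorem real_up {n l : ℕ} (hn : 0 < n) {e : Q4} (he : Sn 1 e) (h : l * e.a < n * e.c)
    (hs : Sn n (upq n l e)) :
    0 < n * Real.exp (wS e) - l ∧
    yS (upq n l e) = yS e * (n * Real.exp (wS e) - l) / Real.exp (wS e) ∧
    uS (upq n l e) = Real.log (n * Real.exp (wS e) - l) - pS e ∧
    0 ≤ tS (upq n l e) - (Real.log (n * Real.exp (wS e) - l) + pS e) ∧
    tS (upq n l e) - (Real.log (n * Real.exp (wS e) - l) + pS e) ≤ n / yS (upq n l e) := by
  obtain ⟨hdet, ha, hb, hc, hd, hab, hcd⟩ := he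
  obtain ⟨hdet', -, -, hc', hd', -, -⟩ := hs
  have hup : (upq n l e).c = n * e.c - l * e.a := rfl
  have haR : (0 : ℝ) < e.a := by exact_mod_cast ha
  have hbR : (0 : ℝ) < e.b := by exact_mod_cast hb
  have hcR : (0 : ℝ) < e.c := by exact_mod_cast hc
  have hc'R : (0 : ℝ) < (upq n l e).c := by exact_mod_cast hc'
  have hd'R : (0 : ℝ) < (upq n l e).d := by exact_mod_cast hd'
  have ecR : ((upq n l e).c : ℝ) = n * e.c - l * e.a := by
    rw [hup, Nat.cast_sub h.le]; push_cast; ring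
  have hexp : Real.exp (wS e) = e.c / e.a := by
    unfold wS
    rw [Real.exp_sub, Real.exp_log hcR, Real.exp_log haR]
  have hr : n * Real.exp (wS e) - l = (upq n l e).c / e.a := by
    rw [hexp, ecR]; field_simp
  have hrp : 0 < n * Real.exp (wS e) - l := by rw [hr]; positivity
  have hua : (upq n l e).a = e.a := rfl
  have hub : (upq n l e).b = e.b := rfl
  have hlog : Real.log (n * Real.exp (wS e) - l) = Real.log (upq n l e).c - Real.log e.a := by
    rw [hr, Real.log_div hc'R.ne' haR.ne']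
  have hdetR : (e.a : ℝ) * (upq n l e).d = e.b * (upq n l e).c + n := by
    have h1 : e.a * (upq n l e).d = e.b * (upq n l e).c + n := hdet'
    exact_mod_cast h1
  have hy : 0 < yS (upq n l e) := by unfold yS; rw [hub]; positivity
  have hnR : (0 : ℝ) < n := by exact_mod_cast hn
  have htt : tS (upq n l e) - (Real.log (n * Real.exp (wS e) - l) + pS e) =
      Real.log (1 + n / yS (upq n l e)) := by
    rw [hlog]
    unfold tS pS
    rw [hua]
    have h1 : 1 + n / yS (upq n l e) = (e.a * (upq n l e).d) / (e.b * (upq n l e).c) := by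
      rw [hdetR]
      unfold yS
      rw [hub]
      field_simp
    rw [h1, Real.log_div (by positivity) (by positivity), Real.log_mul haR.ne' hd'R.ne',
      Real.log_mul hbR.ne' hc'R.ne']
    ring
  refine ⟨hrp, ?_, ?_, ?_, ?_⟩
  · rw [hr, hexp]
    unfold yS
    rw [hub]
    field_simp
  · rw [hlog]
    unfold uS pS
    rw [hub]
    ring
  · rw [htt]
    apply Real.log_nonneg
    have : 0 < n / yS (upq n l e) := by positivity
    linarith
  · rw [htt]
    have h1 : 0 < 1 + n / yS (upq n l e) := by positivity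
    have := Real.log_le_sub_one_of_pos h1
    linarith

end EqK

namespace EqK

/-- functions of three variables with compact support: bound for the support -/
theorem exB {Ψ : ℝ → ℝ → ℝ → ℝ} (hcs : HasCompactSupport (fun v : ℝ × ℝ × ℝ => Ψ v.1 v.2.1 v.2.2)) :
    ∃ B : ℝ, 0 < B ∧ ∀ y t u, (B < |t| ∨ B < |u|) → Ψ y t u = 0 := by
  obtain ⟨B, hB⟩ := hcs.isBounded.exists_norm_le
  refine ⟨max B 1, by positivity, fun y t u h => ?_⟩
  by_contra hne
  have h1 : (y, t, u) ∈ tsupport (fun v : ℝ × ℝ × ℝ => Ψ v.1 v.2.1 v.2.2) :=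
    subset_tsupport _ (by exact hne)
  have h2 := hB _ h1
  have h3 : |t| ≤ B := le_trans (le_trans (by
    rw [← Real.norm_eq_abs]
    exact le_trans (norm_fst_le (t, u)) (norm_snd_le (y, t, u))) h2) le_rfl
  have h4 : |u| ≤ B := le_trans (le_trans (by
    rw [← Real.norm_eq_abs]
    exact le_trans (norm_snd_le (t, u)) (norm_snd_le (y, t, u))) h2) le_rfl
  have h5 := le_max_left B 1
  rcases h with h | h <;> linarith

section Fub

variable {W : ℝ → ℝ → ℝ → ℝ}

theorem slice_supp (hcs : HasCompactSupport (fun v : ℝ × ℝ × ℝ => W v.1 v.2.1 v.2.2)) (y : ℝ) :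
    HasCompactSupport (fun q : ℝ × ℝ => W y q.1 q.2) := by
  apply HasCompactSupport.intro (hcs.isCompact.image continuous_snd)
  intro q hq
  by_contra hne
  exact hq ⟨(y, q), subset_tsupport _ (by exact hne), rfl⟩

theorem phi_supp (hcs : HasCompactSupport (fun v : ℝ × ℝ × ℝ => W v.1 v.2.1 v.2.2)) :
    HasCompactSupport (fun q : ℝ × ℝ => ∫ y, W y q.1 q.2) := by
  apply HasCompactSupport.intro (hcs.isCompact.image continuous_snd)
  intro q hq
  have h1 : ∀ y, W y q.1 q.2 = 0 := by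
    intro y
    by_contra hne
    exact hq ⟨(y, q), subset_tsupport _ (by exact hne), rfl⟩
  simp [h1]

theorem phi_cont (hc : Continuous (fun v : ℝ × ℝ × ℝ => W v.1 v.2.1 v.2.2))
    (hcs : HasCompactSupport (fun v : ℝ × ℝ × ℝ => W v.1 v.2.1 v.2.2)) :
    Continuous (fun q : ℝ × ℝ => ∫ y, W y q.1 q.2) := by
  have hK := hcs.isCompact.image continuous_fst
  have h1 : (fun q : ℝ × ℝ => ∫ y, W y q.1 q.2) = fun q : ℝ × ℝ =>
      ∫ y in (Prod.fst '' tsupport (fun v : ℝ × ℝ × ℝ => W v.1 v.2.1 v.2.2)), W y q.1 q.2 := by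
    funext q
    symm
    apply setIntegral_eq_integral_of_forall_compl_eq_zero
    intro y hy
    by_contra hne
    exact hy ⟨(y, q), subset_tsupport _ (by exact hne), rfl⟩
  rw [h1]
  have h2 : Continuous (Function.uncurry (fun (q : ℝ × ℝ) (y : ℝ) => W y q.1 q.2)) :=
    hc.comp (continuous_snd.prodMk continuous_fst)
  exact continuous_parametric_integral_of_continuous h2 hK

theorem swap3 (hc : Continuous (fun v : ℝ × ℝ × ℝ => W v.1 v.2.1 v.2.2))
    (hcs : HasCompactSupport (fun v : ℝ × ℝ × ℝ => W v.1 v.2.1 v.2.2)) :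
    ∫ y, ∫ t, ∫ u, W y t u = ∫ t, ∫ u, ∫ y, W y t u := by
  have hq : ∀ y, ∫ t, ∫ u, W y t u = ∫ q : ℝ × ℝ, W y q.1 q.2 := by
    intro y
    have hcy : Continuous (fun q : ℝ × ℝ => W y q.1 q.2) := hc.comp (continuous_const.prodMk continuous_id)
    exact (integral_prod (fun q : ℝ × ℝ => W y q.1 q.2)
      (hcy.integrable_of_hasCompactSupport (slice_supp hcs y))).symm
  simp only [hq]
  rw [integral_integral_swap_of_hasCompactSupport (f := fun (y : ℝ) (q : ℝ × ℝ) => W y q.1 q.2) hc hcs]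
  exact integral_prod (fun q : ℝ × ℝ => ∫ y, W y q.1 q.2)
    ((phi_cont hc hcs).integrable_of_hasCompactSupport (phi_supp hcs))

end Fub

/-- `max (n exp w - l) (exp (-B-1))` -/
noncomputable def rho (n l : ℕ) (B w : ℝ) : ℝ := max (n * Real.exp w - l) (Real.exp (-B - 1))

theorem rho_pos (n l : ℕ) (B w : ℝ) : 0 < rho n l B w :=
  lt_of_lt_of_le (Real.exp_pos _) (le_max_right _ _)

theorem rho_cont (n l : ℕ) (B : ℝ) : Continuous (rho n l B) := by
  unfold rho
  fun_prop

/-- the transformed function -/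
noncomputable def P1 (n l : ℕ) (B : ℝ) (Ψ : ℝ → ℝ → ℝ → ℝ) (y p w : ℝ) : ℝ :=
  Ψ (y * (rho n l B w / Real.exp w)) (Real.log (rho n l B w) + p) (Real.log (rho n l B w) - p)

theorem box {n l : ℕ} (hn : 0 < n) {B r p w : ℝ} (hr : 0 < r) (hrw : r = n * Real.exp w - l)
    (h1 : |Real.log r + p| ≤ B) (h2 : |Real.log r - p| ≤ B) :
    |p| ≤ B ∧ Real.exp (-B) ≤ r ∧ r ≤ Real.exp B ∧ -B - Real.log n ≤ w ∧
      w ≤ Real.log (Real.exp B + l) ∧ Real.exp w / r ≤ 1 + l * Real.exp B := by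
  rw [abs_le] at h1 h2
  have hp : |p| ≤ B := by rw [abs_le]; constructor <;> linarith
  have hl1 : -B ≤ Real.log r := by linarith
  have hl2 : Real.log r ≤ B := by linarith
  have hr1 : Real.exp (-B) ≤ r := by
    rw [← Real.exp_log hr]; exact Real.exp_le_exp.2 hl1
  have hr2 : r ≤ Real.exp B := by
    rw [← Real.exp_log hr]; exact Real.exp_le_exp.2 hl2
  have hnR : (0 : ℝ) < n := by exact_mod_cast hn
  have hn1 : (1 : ℝ) ≤ n := by exact_mod_cast hn
  have hl0 : (0 : ℝ) ≤ l := Nat.cast_nonneg _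
  have hew : n * Real.exp w = r + l := by linarith
  have hexp : Real.exp w ≤ r + l := by
    have := Real.exp_pos w
    nlinarith
  refine ⟨hp, hr1, hr2, ?_, ?_, ?_⟩
  · have h3 : Real.exp (-B) ≤ n * Real.exp w := by linarith
    have h4 := Real.log_le_log (Real.exp_pos _) h3
    rw [Real.log_exp, Real.log_mul hnR.ne' (Real.exp_pos _).ne', Real.log_exp] at h4
    linarith
  · rw [Real.le_log_iff_exp_le (by positivity)]
    linarith
  · rw [div_le_iff₀ hr]
    have h5 : 1 ≤ Real.exp B * r := by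
      have h6 : Real.exp B * Real.exp (-B) = 1 := by rw [← Real.exp_add]; simp
      have := Real.exp_pos B
      nlinarith
    nlinarith

theorem P1_ne {n l : ℕ} (hn : 0 < n) {b B : ℝ} {Ψ : ℝ → ℝ → ℝ → ℝ}
    (hΨ : TR b Ψ) (hsup : ∀ y t u, (B < |t| ∨ B < |u|) → Ψ y t u = 0) {y p w : ℝ}
    (h : P1 n l B Ψ y p w ≠ 0) :
    rho n l B w = n * Real.exp w - l ∧ 0 < y ∧ y < b * (1 + l * Real.exp B) ∧ |p| ≤ B ∧
      -B - Real.log n ≤ w ∧ w ≤ Real.log (Real.exp B + l) := by
  unfold P1 at h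
  have hr := rho_pos n l B w
  have h1 : |Real.log (rho n l B w) + p| ≤ B := by
    by_contra hh; push Not at hh; exact h (hsup _ _ _ (Or.inl hh))
  have h2 : |Real.log (rho n l B w) - p| ≤ B := by
    by_contra hh; push Not at hh; exact h (hsup _ _ _ (Or.inr hh))
  have hrw : rho n l B w = n * Real.exp w - l := by
    unfold rho
    apply max_eq_left
    by_contra hh
    push Not at hh
    have h3 : rho n l B w = Real.exp (-B - 1) := max_eq_right hh.le
    rw [h3, Real.log_exp] at h1 h2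
    rw [abs_le] at h1 h2
    linarith
  obtain ⟨hp, -, -, hw1, hw2, hq⟩ := box hn hr hrw h1 h2
  have he := Real.exp_pos w
  have hquo : 0 < rho n l B w / Real.exp w := by positivity
  have hy0 : 0 < y := by
    by_contra hh
    push Not at hh
    exact h (hΨ.lo _ _ _ (mul_nonpos_of_nonpos_of_nonneg hh hquo.le))
  have hyb : y * (rho n l B w / Real.exp w) < b := by
    by_contra hh
    push Not at hh
    exact h (hΨ.hi _ _ _ hh)
  refine ⟨hrw, hy0, ?_, hp, hw1, hw2⟩
  have hb : 0 < b := lt_trans (by positivity) hyb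
  have h4 : y < b * (Real.exp w / rho n l B w) := by
    have h5 : y = (y * (rho n l B w / Real.exp w)) * (Real.exp w / rho n l B w) := by
      field_simp
    rw [h5]
    exact mul_lt_mul_of_pos_right hyb (by positivity)
  calc y < b * (Real.exp w / rho n l B w) := h4
    _ ≤ b * (1 + l * Real.exp B) := mul_le_mul_of_nonneg_left hq hb.le

theorem P1_TR {n l : ℕ} (hn : 0 < n) {b B : ℝ} {Ψ : ℝ → ℝ → ℝ → ℝ}
    (hΨ : TR b Ψ) (hsup : ∀ y t u, (B < |t| ∨ B < |u|) → Ψ y t u = 0) :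
    TR (b * (1 + l * Real.exp B)) (P1 n l B Ψ) := by
  constructor
  · have hr := rho_cont n l B
    have h1 : Continuous (fun v : ℝ × ℝ × ℝ => (v.1 * (rho n l B v.2.2 / Real.exp v.2.2),
        Real.log (rho n l B v.2.2) + v.2.1, Real.log (rho n l B v.2.2) - v.2.1)) := by
      have hl : Continuous (fun v : ℝ × ℝ × ℝ => Real.log (rho n l B v.2.2)) :=
        Continuous.log (hr.comp (continuous_snd.comp continuous_snd)) (fun v => (rho_pos n l B _).ne')
      have hq : Continuous (fun v : ℝ × ℝ × ℝ => rho n l B v.2.2 / Real.exp v.2.2) :=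
        (hr.comp (continuous_snd.comp continuous_snd)).div (by fun_prop) (fun v => (Real.exp_pos _).ne')
      fun_prop
    exact hΨ.cont.comp h1
  · apply HasCompactSupport.intro (K := Set.Icc 0 (b * (1 + l * Real.exp B)) ×ˢ
      (Set.Icc (-B) B ×ˢ Set.Icc (-B - Real.log n) (Real.log (Real.exp B + l))))
      (isCompact_Icc.prod (isCompact_Icc.prod isCompact_Icc))
    intro v hv
    by_contra hne
    obtain ⟨-, h1, h2, h3, h4, h5⟩ := P1_ne hn hΨ hsup hne
    rw [abs_le] at h3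
    exact hv ⟨⟨h1.le, h2.le⟩, ⟨h3.1, h3.2⟩, h4, h5⟩
  · intro y p w hy
    by_contra hne
    exact absurd (P1_ne hn hΨ hsup hne).2.1 (not_lt.2 hy)
  · intro y p w hy
    by_contra hne
    exact absurd (P1_ne hn hΨ hsup hne).2.2.1 (not_lt.2 hy)

/-- the substitution `v = log (n exp w - l)` -/
theorem subst {n l : ℕ} (hn : 0 < n) {B : ℝ} (Φ : ℝ → ℝ → ℝ)
    (hsup : ∀ t u, (B < |t| ∨ B < |u|) → Φ t u = 0) (p : ℝ) :
    ∫ w, Real.exp w / rho n l B w * Φ (Real.log (rho n l B w) + p) (Real.log (rho n l B w) - p) =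
      1 / n * ∫ v, Φ (v + p) (v - p) := by
  have hnR : (0 : ℝ) < n := by exact_mod_cast hn
  have hl0 : (0 : ℝ) ≤ l := Nat.cast_nonneg _
  set g : ℝ → ℝ := fun w =>
    Real.exp w / rho n l B w * Φ (Real.log (rho n l B w) + p) (Real.log (rho n l B w) - p) with hg
  -- vanishing
  have hvan : ∀ v : ℝ, v ≤ -B - 1 → Φ (v + p) (v - p) = 0 := by
    intro v hv
    apply hsup
    by_contra hh
    push Not at hh
    have h1 := (abs_le.1 hh.1).1
    have h2 := (abs_le.1 hh.2).1
    linarith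
  have hgv : ∀ w, n * Real.exp w - l ≤ Real.exp (-B - 1) → g w = 0 := by
    intro w hw
    have h1 : rho n l B w = Real.exp (-B - 1) := max_eq_right hw
    rw [hg]
    simp only [h1, Real.log_exp]
    rw [hvan (-B - 1) le_rfl, mul_zero]
  set ψ : ℝ → ℝ := fun v => Real.log ((Real.exp v + l) / n) with hψ
  have hpos : ∀ v : ℝ, 0 < (Real.exp v + l) / n := fun v => by
    have := Real.exp_pos v
    positivity
  have hexpψ : ∀ v, Real.exp (ψ v) = (Real.exp v + l) / n := fun v => Real.exp_log (hpos v)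
  have hinj : Set.InjOn ψ Set.univ := by
    intro v _ v' _ h
    have h1 := congrArg Real.exp h
    rw [hexpψ, hexpψ, div_left_inj' hnR.ne', add_left_inj] at h1
    exact Real.exp_injective h1
  have hder : ∀ v ∈ Set.univ, HasDerivWithinAt ψ (Real.exp v / (Real.exp v + l)) Set.univ v := by
    intro v _
    apply HasDerivAt.hasDerivWithinAt
    have h1 : HasDerivAt (fun v => (Real.exp v + l) / (n : ℝ)) (Real.exp v / n) v :=
      ((Real.hasDerivAt_exp v).add_const (l : ℝ)).div_const (n : ℝ)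
    have h2 := h1.log (hpos v).ne'
    rw [div_div_div_cancel_right₀ hnR.ne'] at h2
    exact h2
  have hsub := integral_image_eq_integral_abs_deriv_smul MeasurableSet.univ hder hinj g
  have himg : ∫ w in ψ '' Set.univ, g w = ∫ w, g w := by
    apply setIntegral_eq_integral_of_forall_compl_eq_zero
    intro w hw
    apply hgv
    by_contra hh
    push Not at hh
    apply hw
    have h3 : 0 < n * Real.exp w - l := lt_trans (Real.exp_pos _) hh
    refine ⟨Real.log (n * Real.exp w - l), Set.mem_univ _, ?_⟩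
    rw [hψ]
    simp only
    rw [Real.exp_log h3]
    have h4 : (n * Real.exp w - l + l) / n = Real.exp w := by field_simp; ring
    rw [h4, Real.log_exp]
  rw [← himg, hsub, Measure.restrict_univ, ← integral_const_mul]
  congr 1
  funext v
  have he := Real.exp_pos v
  have hel : 0 < Real.exp v + l := by positivity
  rw [abs_of_nonneg (by positivity), smul_eq_mul]
  have hback : n * Real.exp (ψ v) - l = Real.exp v := by
    rw [hexpψ]; field_simp; ring
  by_cases hc : Real.exp v ≤ Real.exp (-B - 1)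
  · rw [hgv (ψ v) (by rw [hback]; exact hc), hvan v (Real.exp_le_exp.1 hc), mul_zero, mul_zero]
  · push Not at hc
    have hrv : rho n l B (ψ v) = Real.exp v := by
      unfold rho
      rw [hback]
      exact max_eq_left hc.le
    rw [hg]
    simp only
    rw [hrv, hexpψ, Real.log_exp]
    field_simp

theorem intP1 {n l : ℕ} (hn : 0 < n) {b B : ℝ} {Ψ : ℝ → ℝ → ℝ → ℝ}
    (hΨ : TR b Ψ) (hsup : ∀ y t u, (B < |t| ∨ B < |u|) → Ψ y t u = 0) :
    ∫ y, ∫ p, ∫ w, P1 n l B Ψ y p w = 1 / (2 * n) * ∫ y, ∫ t, ∫ u, Ψ y t u := by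
  have h1 := P1_TR hn hΨ hsup (n := n) (l := l)
  rw [swap3 h1.cont h1.supp, swap3 hΨ.cont hΨ.supp]
  set Φ : ℝ → ℝ → ℝ := fun t u => ∫ y, Ψ y t u with hΦ
  have hΦc : Continuous (fun q : ℝ × ℝ => Φ q.1 q.2) := phi_cont hΨ.cont hΨ.supp
  have hΦs : HasCompactSupport (fun q : ℝ × ℝ => Φ q.1 q.2) := phi_supp hΨ.supp
  have hΦ0 : ∀ t u, (B < |t| ∨ B < |u|) → Φ t u = 0 := by
    intro t u h
    rw [hΦ]
    simp only [fun y => hsup y t u h, integral_zero]
  have h2 : ∀ p w, ∫ y, P1 n l B Ψ y p w = Real.exp w / rho n l B w *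
      Φ (Real.log (rho n l B w) + p) (Real.log (rho n l B w) - p) := by
    intro p w
    unfold P1
    have h3 := Measure.integral_comp_mul_right (fun y => Ψ y (Real.log (rho n l B w) + p)
      (Real.log (rho n l B w) - p)) (rho n l B w / Real.exp w)
    rw [h3, smul_eq_mul, inv_div, abs_of_pos (div_pos (Real.exp_pos _) (rho_pos n l B w))]
  simp only [h2]
  have h4 : ∀ p, ∫ w, Real.exp w / rho n l B w * Φ (Real.log (rho n l B w) + p)
      (Real.log (rho n l B w) - p) = 1 / n * ∫ t, Φ t (t - 2 * p) := by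
    intro p
    rw [subst hn Φ hΦ0 p]
    congr 1
    have h5 := integral_add_right_eq_self (μ := volume) (fun t => Φ t (t - 2 * p)) p
    rw [← h5]
    congr 1
    funext v
    congr 1
    ring
  simp only [h4]
  rw [integral_const_mul]
  have hc2 : Continuous (Function.uncurry (fun p t : ℝ => Φ t (t - 2 * p))) :=
    hΦc.comp (g := fun q : ℝ × ℝ => Φ q.1 q.2)
      (f := fun v : ℝ × ℝ => (v.2, v.2 - 2 * v.1)) (by fun_prop)
  have hs2 : HasCompactSupport (Function.uncurry (fun p t : ℝ => Φ t (t - 2 * p))) := by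
    apply HasCompactSupport.intro (K := Set.Icc (-B) B ×ˢ Set.Icc (-B) B)
      (isCompact_Icc.prod isCompact_Icc)
    rintro ⟨p, t⟩ hv
    show Φ t (t - 2 * p) = 0
    apply hΦ0
    by_contra hh
    push Not at hh
    obtain ⟨ha, hb⟩ := hh
    rw [abs_le] at ha hb
    exact hv ⟨⟨by linarith, by linarith⟩, ha.1, ha.2⟩
  rw [integral_integral_swap_of_hasCompactSupport hc2 hs2]
  have h6 : ∀ t, ∫ p, Φ t (t - 2 * p) = 1 / 2 * ∫ u, Φ t u := by
    intro t
    have h7 := Measure.integral_comp_mul_left (fun x => Φ t (t - x)) 2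
    have h8 := integral_sub_left_eq_self (fun x => Φ t x) volume t
    rw [h7, h8, smul_eq_mul, abs_of_pos (by norm_num)]
    norm_num
  simp only [h6]
  rw [integral_const_mul, ← mul_assoc]
  congr 1
  field_simp

end EqK

namespace EqK

open Classical in
/-- the summand of the reindexed sum -/
noncomputable def ph (n l : ℕ) (Ψ : ℝ → ℝ → ℝ → ℝ) (X : ℝ) (e : Q4) : ℝ :=
  if l * e.a < n * e.c then Ψ (yS (upq n l e) / X) (tS (upq n l e)) (uS (upq n l e)) else 0

/-- consequences of `Ψ ≠ 0` -/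
theorem ph_ne {n l : ℕ} (hn : 0 < n) {B0 : ℝ} {Ψ : ℝ → ℝ → ℝ → ℝ}
    (hsup : ∀ y t u, (B0 < |t| ∨ B0 < |u|) → Ψ y t u = 0) {X : ℝ} {e : Q4} (he : Sn 1 e)
    (h : l * e.a < n * e.c) (hs : Sn n (upq n l e))
    (hne : Ψ (yS (upq n l e) / X) (tS (upq n l e)) (uS (upq n l e)) ≠ 0) :
    |Real.log (n * Real.exp (wS e) - l) + pS e| ≤ B0 + n ∧
      |Real.log (n * Real.exp (wS e) - l) - pS e| ≤ B0 + n := by
  obtain ⟨hr, hy, hu, ht0, ht1⟩ := real_up hn he h hs
  have hy1 := yS_pos hs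
  have hn0 : (0 : ℝ) ≤ n := Nat.cast_nonneg _
  have h1 : |tS (upq n l e)| ≤ B0 := by
    by_contra hh; push Not at hh; exact hne (hsup _ _ _ (Or.inl hh))
  have h2 : |uS (upq n l e)| ≤ B0 := by
    by_contra hh; push Not at hh; exact hne (hsup _ _ _ (Or.inr hh))
  have h3 : (n : ℝ) / yS (upq n l e) ≤ n := div_le_self hn0 hy1
  rw [hu] at h2
  rw [abs_le] at h1 h2
  constructor
  · rw [abs_le]; constructor <;> linarith [h1.1, h1.2]
  · rw [abs_le]; constructor <;> linarith [h2.1, h2.2]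

open Classical in
theorem reindex {n l : ℕ} (M : ℕ) (γ : Q4) (hn : 0 < n) (hl : l.Coprime n) {b B0 : ℝ}
    {Ψ : ℝ → ℝ → ℝ → ℝ} (hΨ : TR b Ψ)
    (hsup : ∀ y t u, (B0 < |t| ∨ B0 < |u|) → Ψ y t u = 0) {X : ℝ} (hX : 0 < X) :
    ∑ e ∈ (SN n (b * X)).filter (fun e => lc n l e ∧ cq M (dn n l e) γ),
      Ψ (yS e / X) (tS e) (uS e) =
    ∑ e ∈ (SN 1 (b * (1 + l * Real.exp (B0 + n)) * X)).filter (fun e => cq M e γ),
      ph n l Ψ X e := by
  refine Finset.sum_bij_ne_zero (fun e _ _ => dn n l e) ?_ ?_ ?_ ?_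
  · intro e he hne
    rw [mem_filter, mem_SN] at he
    obtain ⟨⟨hSn, hyle⟩, hlc, hcq⟩ := he
    obtain ⟨hs1, hlt, hup⟩ := dn_mem hn hSn hlc
    rw [mem_filter, mem_SN]
    refine ⟨⟨hs1, ?_⟩, hcq⟩
    have hsn : Sn n (upq n l (dn n l e)) := by rw [hup]; exact hSn
    have hne' : Ψ (yS (upq n l (dn n l e)) / X) (tS (upq n l (dn n l e))) (uS (upq n l (dn n l e))) ≠ 0 := by
      rw [hup]; exact hne
    obtain ⟨h1, h2⟩ := ph_ne hn hsup hs1 hlt hsn hne'
    obtain ⟨hr, hy, -, -, -⟩ := real_up hn hs1 hlt hsn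
    obtain ⟨-, -, -, -, -, hq⟩ := box hn hr rfl h1 h2
    rw [hup] at hy
    have hex := Real.exp_pos (wS (dn n l e))
    have hy' : yS (dn n l e) = yS e * (Real.exp (wS (dn n l e)) / (n * Real.exp (wS (dn n l e)) - l)) := by
      rw [hy]; field_simp
    have hy1 := yS_pos hSn
    have hq0 : 0 < Real.exp (wS (dn n l e)) / (n * Real.exp (wS (dn n l e)) - l) := div_pos hex hr
    calc yS (dn n l e) = yS e * (Real.exp (wS (dn n l e)) / (n * Real.exp (wS (dn n l e)) - l)) := hy'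
      _ ≤ yS e * (1 + l * Real.exp (B0 + n)) := mul_le_mul_of_nonneg_left hq (by linarith)
      _ ≤ (b * X) * (1 + l * Real.exp (B0 + n)) := mul_le_mul_of_nonneg_right hyle (by positivity)
      _ = b * (1 + l * Real.exp (B0 + n)) * X := by ring
  · intro e he _ f hf _ h
    rw [mem_filter, mem_SN] at he hf
    have h1 := (dn_mem hn he.1.1 he.2.1).2.2
    have h2 := (dn_mem hn hf.1.1 hf.2.1).2.2
    rw [← h1, ← h2]
    exact congrArg (upq n l) h
  · intro e he hne
    rw [mem_filter, mem_SN] at he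
    have hlt : l * e.a < n * e.c := by
      by_contra hh
      exact hne (by unfold ph; rw [if_neg hh])
    unfold ph at hne
    rw [if_pos hlt] at hne
    obtain ⟨hs, hlc, hdn⟩ := up_mem hn hl he.1.1 hlt
    refine ⟨upq n l e, ?_, hne, hdn⟩
    rw [mem_filter, mem_SN]
    refine ⟨⟨hs, ?_⟩, hlc, by rw [hdn]; exact he.2⟩
    by_contra hh
    push Not at hh
    exact hne (hΨ.hi _ _ _ (by rw [le_div_iff₀ hX]; exact hh.le))
  · intro e he hne
    rw [mem_filter, mem_SN] at he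
    obtain ⟨hs1, hlt, hup⟩ := dn_mem hn he.1.1 he.2.1
    show _ = ph n l Ψ X (dn n l e)
    unfold ph
    rw [if_pos hlt, hup]

theorem unif {n : ℕ} {b : ℝ} {Ψ : ℝ → ℝ → ℝ → ℝ} (hΨ : TR b Ψ) {ε : ℝ} (hε : 0 < ε) :
    ∃ X0 : ℝ, 0 < X0 ∧ ∀ X : ℝ, X0 ≤ X → ∀ y t t' u : ℝ, 0 < y → 0 ≤ t - t' → t - t' ≤ n / y →
      |Ψ (y / X) t u - Ψ (y / X) t' u| ≤ ε := by
  have huc := hΨ.supp.uniformContinuous_of_continuous hΨ.cont
  rw [Metric.uniformContinuous_iff] at huc
  obtain ⟨δ, hδ, huc⟩ := huc (ε / 2) (by linarith)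
  have hn0 : (0 : ℝ) ≤ n := Nat.cast_nonneg _
  refine ⟨(n + 1) / δ ^ 2, by positivity, fun X hX y t t' u hy h0 h1 => ?_⟩
  have hXp : 0 < X := lt_of_lt_of_le (by positivity) hX
  by_cases hc : y / X < δ
  · have h2 : ∀ s : ℝ, |Ψ (y / X) s u| < ε / 2 := by
      intro s
      have h3 := @huc (y / X, s, u) (0, s, u) (by
        rw [Prod.dist_eq]
        simp only [dist_self, Real.dist_eq, sub_zero]
        rw [abs_of_pos (by positivity)]
        exact max_lt hc hδ)
      rw [Real.dist_eq] at h3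
      simp only [hΨ.lo 0 s u le_rfl, sub_zero] at h3
      exact h3
    have h3 := abs_sub (Ψ (y / X) t u) (Ψ (y / X) t' u)
    linarith [h2 t, h2 t']
  · push Not at hc
    have h2 : t - t' < δ := by
      have h3 : δ * X ≤ y := by rwa [le_div_iff₀ hXp] at hc
      have h4 : (n : ℝ) / y ≤ n / (δ * X) := by
        apply div_le_div_of_nonneg_left hn0 (by positivity) h3
      have h5 : (n : ℝ) / (δ * X) < δ := by
        rw [div_lt_iff₀ (by positivity)]
        rw [div_le_iff₀ (by positivity)] at hX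
        nlinarith
      linarith
    have h3 := @huc (y / X, t, u) (y / X, t', u) (by
      rw [Prod.dist_eq, Prod.dist_eq]
      simp only [dist_self, Real.dist_eq]
      rw [abs_of_nonneg h0]
      exact max_lt hδ (max_lt h2 hδ))
    rw [Real.dist_eq] at h3
    simp only at h3
    linarith

theorem diff {n l : ℕ} (hn : 0 < n) (hl : l.Coprime n) {b B0 : ℝ}
    {Ψ : ℝ → ℝ → ℝ → ℝ} (hΨ : TR b Ψ)
    (hsup : ∀ y t u, (B0 < |t| ∨ B0 < |u|) → Ψ y t u = 0) {ε X : ℝ} (hε : 0 < ε)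
    (hun : ∀ y t t' u : ℝ, 0 < y → 0 ≤ t - t' → t - t' ≤ n / y →
      |Ψ (y / X) t u - Ψ (y / X) t' u| ≤ ε) {e : Q4} (he : Sn 1 e) :
    |ph n l Ψ X e - P1 n l (B0 + n) Ψ (yS e / X) (pS e) (wS e)| ≤
      if (-(B0 + n) ≤ pS e ∧ pS e < (B0 + n) + 1) ∧
        (-(B0 + n) - Real.log n ≤ wS e ∧ wS e < Real.log (Real.exp (B0 + n) + l) + 1) then ε else 0 := by
  have hn0 : (0 : ℝ) ≤ n := Nat.cast_nonneg _
  have hsup' : ∀ y t u, (B0 + n < |t| ∨ B0 + n < |u|) → Ψ y t u = 0 := by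
    intro y t u h
    apply hsup
    rcases h with h | h
    · left; linarith
    · right; linarith
  by_cases hb : |Real.log (rho n l (B0 + n) (wS e)) + pS e| ≤ B0 + n ∧
      |Real.log (rho n l (B0 + n) (wS e)) - pS e| ≤ B0 + n ∧
      rho n l (B0 + n) (wS e) = n * Real.exp (wS e) - l
  · obtain ⟨h1, h2, hrw⟩ := hb
    obtain ⟨hp, -, -, hw1, hw2, -⟩ := box hn (rho_pos _ _ _ _) hrw h1 h2
    rw [abs_le] at hp
    rw [if_pos ⟨⟨hp.1, by linarith [hp.2]⟩, hw1, by linarith⟩]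
    have hr : 0 < n * Real.exp (wS e) - l := by rw [← hrw]; exact rho_pos _ _ _ _
    -- the condition `l a < n c`
    have hlt : l * e.a < n * e.c := by
      have haR : (0 : ℝ) < e.a := by exact_mod_cast he.2.1
      have hcR : (0 : ℝ) < e.c := by exact_mod_cast he.2.2.2.1
      have hexp : Real.exp (wS e) = e.c / e.a := by
        unfold wS
        rw [Real.exp_sub, Real.exp_log hcR, Real.exp_log haR]
      rw [hexp] at hr
      have h3 : (l : ℝ) * e.a < n * e.c := by
        have h4 : (n * (e.c / e.a) - l) * e.a = (n : ℝ) * e.c - l * e.a := by field_simp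
        have h5 := mul_pos hr haR
        linarith
      exact_mod_cast h3
    obtain ⟨hs, -, -⟩ := up_mem hn hl he hlt
    obtain ⟨-, hy, hu, ht0, ht1⟩ := real_up hn he hlt hs
    have hy1 := yS_pos hs
    have h3 : P1 n l (B0 + n) Ψ (yS e / X) (pS e) (wS e) = Ψ (yS (upq n l e) / X)
        (Real.log (n * Real.exp (wS e) - l) + pS e) (uS (upq n l e)) := by
      unfold P1
      rw [hrw, hu, hy]
      congr 1
      ring
    rw [h3]
    unfold ph
    rw [if_pos hlt]
    exact hun _ _ _ _ (by linarith) ht0 ht1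
  · have hP : P1 n l (B0 + n) Ψ (yS e / X) (pS e) (wS e) = 0 := by
      by_contra hne
      obtain ⟨hrw, -⟩ := P1_ne hn hΨ hsup' hne
      unfold P1 at hne
      apply hb
      refine ⟨?_, ?_, hrw⟩
      · by_contra hh; push Not at hh; exact hne (hsup' _ _ _ (Or.inl hh))
      · by_contra hh; push Not at hh; exact hne (hsup' _ _ _ (Or.inr hh))
    have hph : ph n l Ψ X e = 0 := by
      by_contra hne
      have hlt : l * e.a < n * e.c := by
        by_contra hh
        exact hne (by unfold ph; rw [if_neg hh])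
      unfold ph at hne
      rw [if_pos hlt] at hne
      obtain ⟨hs, -, -⟩ := up_mem hn hl he hlt
      obtain ⟨h1, h2⟩ := ph_ne hn hsup he hlt hs hne
      obtain ⟨hr, -⟩ := real_up hn he hlt hs
      obtain ⟨-, hr1, -⟩ := box hn hr rfl h1 h2
      have hrw : rho n l (B0 + n) (wS e) = n * Real.exp (wS e) - l := by
        unfold rho
        apply max_eq_left
        refine le_trans (Real.exp_le_exp.2 ?_) hr1
        linarith
      apply hb
      rw [hrw]
      exact ⟨h1, h2, rfl⟩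
    rw [hP, hph, sub_zero, abs_zero]
    split_ifs
    · exact hε.le
    · exact le_rfl

end EqK

open Classical in
/-- PROOF. Adapt `Lib_MP_f1a94e_eq/EqnB.lean`. `κ` from `eqW M`. For `e ∈ Sn n` with `lc n l e`, `e1 = dn n l e = (a, b, c1, d1)`: `a d1 - b c1 = (a d - b c)/n = 1`, all entries positive, so `e1 ∈ Sn 1`. Conversely if `e1 ∈ Sn 1` and `c = n c1 - l a > 0`, then `d = n d1 - l b`, `a d = b c + n > 0`, so `d > 0`, and
`(c, d)` is coprime: a common prime divides `n` (`a d - b c = n`), hence divides `l a` and `l b`, `l` is coprime to `n` (if `n = 1` then `l = 0` and there is nothing to do), `(a, b) = 1`. So `e ↦ e1` is a bijection of `{e ∈ Sn n, lc n l e}` to `{e1 ∈ Sn 1, l a < n c1}`, injective. With `w = wS e1 = log (c1/a)`, `p = pS e1 = pS e`, `r' = c/a = n exp w - l`: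
`yS e = yS e1 * r' / exp w`, `uS e = log (c/b) = log r' - p`, `tS e = log (d/a) = log r' + p + log (1 + n/(b c))` (`a d = b c + n`). Put `Ψ1 y1 p w = Ψ (y1 (n exp w - l)/exp w) (log (n exp w - l) + p) (log (n exp w - l) - p)` if `n exp w - l > 0`, otherwise `0`. It is continuous with compact support, zero for `y1 ≤ 0`, and zero for `y1 ≥ b1`, some `b1 ≥ b`
(on the support of `Ψ`: `|t|, |u| ≤ B`, so `|p| ≤ B`, `log r' = (t+u)/2 ∈ [-B, B]`, `exp w = (r' + l)/n ∈ [exp(-B)/n, (exp B + n)/n]`, `y1 = y exp w / r' ≤ b exp w/r'`). `eqW` gives the limit `κ ∫∫∫ Ψ1` for `∑_(e1 ∈ SN 1 (b1 X), cq M e1 γ) Ψ1 (yS e1/X) (pS e1) (wS e1)`, which is the sum over the `e` of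
`Ψ (yS e / X) (log (c/a) + p) (uS e)`; it differs from the sum with `tS e` by `o(X)`: `|tS e - (log(c/a) + p)| = log (1 + n/yS e) ≤ n / yS e`; `Ψ` is uniformly continuous and small where `y` is small (`Ψ 0 = 0`), and the number of `e` in question is `O(X)` (e.g. by `eqW` with a nonnegative majorant). Finally
`∫∫∫ Ψ1 = (1/(2 n)) ∫∫∫ Ψ`: substitute for fixed `p, w`: `y = y1 r'/exp w`; then `w' = log (n exp w - l)`, `exp w dw / r' = dw'/n`; then `(p, w') ↦ (t, u) = (w' + p, w' - p)`, `dp dw' = dt du / 2`. -/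
theorem eqK' (hS : EqSS) (M : ℕ) (hM : 0 < M) : ∃ κ : ℝ, 0 ≤ κ ∧
    (∀ γ : Q4, γ.a * γ.d ≡ γ.b * γ.c + 1 [MOD M] → ∀ p1 p2 w1 w2 : ℝ, p1 ≤ p2 → w1 ≤ w2 →
      Tendsto (fun x : ℝ => (((SN 1 x).filter (fun e => cq M e γ ∧ (p1 ≤ pS e ∧ pS e < p2) ∧
        (w1 ≤ wS e ∧ wS e < w2))).card : ℝ) / x) atTop (nhds (κ * (p2 - p1) * (w2 - w1)))) ∧
    ∀ n l : ℕ, 0 < n → l < n → l.Coprime n →
    ∀ γ : Q4, γ.a * γ.d ≡ γ.b * γ.c + 1 [MOD M] → ∀ (b : ℝ) (Ψ : ℝ → ℝ → ℝ → ℝ), TR b Ψ →
    Tendsto (fun X : ℝ => (∑ e ∈ (SN n (b * X)).filter (fun e => lc n l e ∧ cq M (dn n l e) γ),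
      Ψ (yS e / X) (tS e) (uS e)) / X) atTop (nhds (κ / (2 * n) * ∫ y, ∫ t, ∫ u, Ψ y t u)) := by
  obtain ⟨κ, hκ0, hκ⟩ := hS M hM
  refine ⟨κ, hκ0, hκ, ?_⟩
  intro n l hn hln hl γ hγ b Ψ hΨ
  obtain ⟨B0, hB0, hsup⟩ := EqK.exB hΨ.supp
  have hn0 : (0 : ℝ) < n := by exact_mod_cast hn
  have hn1 : (1 : ℝ) ≤ n := by exact_mod_cast hn
  have hl0 : (0 : ℝ) ≤ l := Nat.cast_nonneg _
  have hsup' : ∀ y t u, (B0 + n < |t| ∨ B0 + n < |u|) → Ψ y t u = 0 := by
    intro y t u h
    apply hsup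
    rcases h with h | h
    · left; linarith
    · right; linarith
  by_cases hb : b ≤ 0
  · have hz : ∀ y t u, Ψ y t u = 0 := by
      intro y t u
      rcases le_total y 0 with h | h
      · exact hΨ.lo _ _ _ h
      · exact hΨ.hi _ _ _ (le_trans hb h)
    simp [hz]
  push Not at hb
  set B := B0 + (n : ℝ) with hB
  set b1 := b * (1 + l * Real.exp B) with hb1
  have hb1p : 0 < b1 := by positivity
  have hTR := EqK.P1_TR (l := l) hn hΨ hsup'
  have hint := EqK.intP1 (l := l) hn hΨ hsup'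
  have hmain := riem3 (ι := Q4) (fun e => Sn 1 e ∧ cq M e γ)
    (fun x => (SN 1 x).filter (fun e => cq M e γ)) yS pS wS
    (by
      intro x e
      simp only [mem_filter, mem_SN]
      tauto)
    (fun e he => lt_of_lt_of_le one_pos (yS_pos he.1)) κ hκ0
    (by
      intro p1 p2 w1 w2 hp hw
      have := hκ γ hγ p1 p2 w1 w2 hp hw
      simpa only [filter_filter] using this)
    (EqK.P1 n l B Ψ) hTR.cont hTR.supp hTR.lo b1 hTR.hi
  rw [hint] at hmain
  have hval : κ * (1 / (2 * n) * ∫ y, ∫ t, ∫ u, Ψ y t u) =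
      κ / (2 * n) * ∫ y, ∫ t, ∫ u, Ψ y t u := by ring
  rw [hval] at hmain
  -- the number of elements of the box
  set w1 := -B - Real.log n with hw1
  set w2 := Real.log (Real.exp B + l) + 1 with hw2
  have hlogn : 0 ≤ Real.log n := Real.log_nonneg hn1
  have hBp : 0 < B := by positivity
  have hw12 : w1 ≤ w2 := by
    have h1 : B ≤ Real.log (Real.exp B + l) := by
      rw [Real.le_log_iff_exp_le (by positivity)]
      linarith
    rw [hw1, hw2]
    linarith
  have hcnt := hκ γ hγ (-B) (B + 1) w1 w2 (by linarith) hw12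
  set L := κ * (B + 1 - -B) * (w2 - w1) with hL
  have hL0 : 0 ≤ L := by
    apply mul_nonneg (mul_nonneg hκ0 (by linarith)) (by linarith)
  have hcnt2 : ∀ᶠ X : ℝ in atTop, (((SN 1 (b1 * X)).filter (fun e => cq M e γ ∧
      (-B ≤ pS e ∧ pS e < B + 1) ∧ (w1 ≤ wS e ∧ wS e < w2))).card : ℝ) ≤ (L + 1) * (b1 * X) := by
    have h1 : ∀ᶠ x : ℝ in atTop, (((SN 1 x).filter (fun e => cq M e γ ∧
      (-B ≤ pS e ∧ pS e < B + 1) ∧ (w1 ≤ wS e ∧ wS e < w2))).card : ℝ) / x ≤ L + 1 :=
      hcnt.eventually (eventually_le_nhds (by linarith))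
    have h2 : Tendsto (fun X : ℝ => b1 * X) atTop atTop := tendsto_id.const_mul_atTop hb1p
    filter_upwards [h2.eventually h1, eventually_gt_atTop 0] with X hX hXp
    rwa [div_le_iff₀ (by positivity)] at hX
  -- the difference
  have hdiff : Tendsto (fun X : ℝ => (∑ e ∈ (SN n (b * X)).filter (fun e => lc n l e ∧ cq M (dn n l e) γ),
      Ψ (yS e / X) (tS e) (uS e)) / X - (∑ e ∈ (SN 1 (b1 * X)).filter (fun e => cq M e γ),
      EqK.P1 n l B Ψ (yS e / X) (pS e) (wS e)) / X) atTop (nhds 0) := by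
    rw [Metric.tendsto_atTop']
    intro η hη
    have hC : 0 < (L + 1) * b1 := by positivity
    obtain ⟨X0, hX0, hun⟩ := EqK.unif (n := n) hΨ (ε := η / (2 * ((L + 1) * b1))) (by positivity)
    obtain ⟨X1, hX1⟩ := (eventually_atTop.1 hcnt2)
    refine ⟨max X0 X1, fun X hX => ?_⟩
    have hXX0 : X0 ≤ X := le_trans (le_max_left _ _) hX.le
    have hXX1 : X1 ≤ X := le_trans (le_max_right _ _) hX.le
    have hXp : 0 < X := lt_of_lt_of_le hX0 hXX0
    have h1 := hX1 X hXX1
    rw [EqK.reindex M γ hn hl hΨ hsup hXp, ← hB, ← hb1, ← sub_div, ← Finset.sum_sub_distrib,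
      Real.dist_eq, sub_zero, abs_div, abs_of_pos hXp, div_lt_iff₀ hXp]
    calc |∑ e ∈ (SN 1 (b1 * X)).filter (fun e => cq M e γ), (EqK.ph n l Ψ X e -
          EqK.P1 n l B Ψ (yS e / X) (pS e) (wS e))|
        ≤ ∑ e ∈ (SN 1 (b1 * X)).filter (fun e => cq M e γ), |EqK.ph n l Ψ X e -
          EqK.P1 n l B Ψ (yS e / X) (pS e) (wS e)| := Finset.abs_sum_le_sum_abs _ _
      _ ≤ ∑ e ∈ (SN 1 (b1 * X)).filter (fun e => cq M e γ),
          (if (-B ≤ pS e ∧ pS e < B + 1) ∧ (w1 ≤ wS e ∧ wS e < w2) then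
            η / (2 * ((L + 1) * b1)) else 0) := by
          apply Finset.sum_le_sum
          intro e he
          rw [mem_filter, mem_SN] at he
          exact EqK.diff hn hl hΨ hsup (by positivity) (hun X hXX0) he.1.1
      _ = (((SN 1 (b1 * X)).filter (fun e => cq M e γ ∧
          (-B ≤ pS e ∧ pS e < B + 1) ∧ (w1 ≤ wS e ∧ wS e < w2))).card : ℝ) *
            (η / (2 * ((L + 1) * b1))) := by
          rw [← Finset.sum_filter, filter_filter, Finset.sum_const, nsmul_eq_mul]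
      _ ≤ (L + 1) * (b1 * X) * (η / (2 * ((L + 1) * b1))) :=
          mul_le_mul_of_nonneg_right h1 (by positivity)
      _ = η / 2 * X := by
          field_simp
      _ < η * X := by nlinarith
  have := hdiff.add hmain
  simpa using this

end Pool.Agent.Spl
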