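import Pool.Agent.Lib_MP_92ef0c_sp.EqDefs
import Pool.Agent.Lib_MP_f1a94e_aq.Defs

/-!
# Arcs, cones and directions
-/

set_option autoImplicit false

namespace Pool.Agent.Spl.EqsAux

open Finset Pool.Agent.GaussMR Pool.Agent.OmAll Pool.Agent.OmEq Filter MeasureTheory

/-- positive coordinates -/
def Pos (z : G) : Prop := 0 < z.re ∧ 0 < z.im

theorem dl_eq {z : G} (hz : Pos z) : dl z = Real.log ((z.im : ℝ) / z.re) := by
  have h1 : (0 : ℝ) < z.re := by exact_mod_cast hz.1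
  have h2 : (0 : ℝ) < z.im := by exact_mod_cast hz.2
  unfold dl
  rw [Real.log_div h2.ne' h1.ne']

theorem dl_le {z w : G} (hz : Pos z) (hw : Pos w) : dl z ≤ dl w ↔ 0 ≤ det z w := by
  have h1 : (0 : ℝ) < z.re := by exact_mod_cast hz.1
  have h2 : (0 : ℝ) < z.im := by exact_mod_cast hz.2
  have h3 : (0 : ℝ) < w.re := by exact_mod_cast hw.1
  have h4 : (0 : ℝ) < w.im := by exact_mod_cast hw.2
  rw [dl_eq hz, dl_eq hw, Real.log_le_log_iff (by positivity) (by positivity), div_le_div_iff₀ h1 h3]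
  unfold det
  rw [sub_nonneg, mul_comm z.re w.im]
  exact_mod_cast Iff.rfl

theorem dl_lt {z w : G} (hz : Pos z) (hw : Pos w) : dl z < dl w ↔ 0 < det z w := by
  rw [← not_le, dl_le hw hz, not_le]
  unfold det
  constructor <;> intro h <;> nlinarith

theorem z_re (n : ℤ) (u v : G) : ((n : G) * u + v).re = n * u.re + v.re := by simp

theorem z_im (n : ℤ) (u v : G) : ((n : G) * u + v).im = n * u.im + v.im := by simp

theorem ab_re (α β : ℤ) (u v : G) : ((α : G) * u + (β : G) * v).re = α * u.re + β * v.re := by simp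

theorem ab_im (α β : ℤ) (u v : G) : ((α : G) * u + (β : G) * v).im = α * u.im + β * v.im := by simp

theorem det_cases {u v : G} (h : Fr u v) : det u v = 1 ∨ det u v = -1 := by
  have h1 := h.1
  rcases abs_cases (det u v) with ⟨h2, _⟩ | ⟨h2, _⟩
  · left; omega
  · right; omega

/-- the vectors `n u + v`, `n ≥ 1`, of a frame have positive coordinates -/
theorem pos_z {u v : G} (h : Fr u v) {n : ℤ} (hn : 1 ≤ n) : Pos ((n : G) * u + v) := by
  obtain ⟨h1, h2, h3, h4, h5⟩ := h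
  unfold Pos
  rw [z_re, z_im]
  unfold det at h1
  constructor
  · by_contra hc
    rw [not_lt] at hc
    have a1 : u.re = 0 := by nlinarith
    have a2 : v.re = 0 := by nlinarith
    rw [a1, a2] at h1
    simp at h1
  · by_contra hc
    rw [not_lt] at hc
    have a1 : u.im = 0 := by nlinarith
    have a2 : v.im = 0 := by nlinarith
    rw [a1, a2] at h1
    simp at h1

theorem det_z0 (n α β : ℤ) (u v : G) :
    det ((n : G) * u + v) ((α : G) * u + (β : G) * v) = (n * β - α) * det u v := by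
  unfold det
  rw [ab_re, ab_im, z_re, z_im]
  ring

theorem det_z1 (n α β : ℤ) (u v : G) :
    det ((α : G) * u + (β : G) * v) ((n : G) * u + v) = (α - n * β) * det u v := by
  unfold det
  rw [ab_re, ab_im, z_re, z_im]
  ring

/-- directions of the vectors of an arc -/
theorem arc_dl {u v : G} (h : Fr u v) {S M : ℕ} (hS : 2 ≤ S) {V : G} (hV : Pos V) (hVa : V ∈ arc u v S M) :
    dl V ∈ Set.uIcc (dl (((S : ℤ) : G) * u + v)) (dl ((((S : ℤ) + M : ℤ) : G) * u + v)) := by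
  obtain ⟨α, β, rfl, h1, h2, h3⟩ := hVa
  have p0 : Pos (((S : ℤ) : G) * u + v) := pos_z h (by omega)
  have p1 : Pos ((((S : ℤ) + M : ℤ) : G) * u + v) := pos_z h (by omega)
  rw [Set.mem_uIcc, dl_le p0 hV, dl_le hV p1, dl_le p1 hV, dl_le hV p0, det_z0, det_z1, det_z0, det_z1]
  rcases det_cases h with h4 | h4 <;> rw [h4]
  · right
    constructor <;> linarith
  · left
    constructor <;> linarith

/-- vectors with a direction inside -/
theorem mem_arc_of {u v : G} (h : Fr u v) {S M : ℕ} (hS : 2 ≤ S) {V : G} (hV : Pos V)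
    (h0 : dl (((S : ℤ) : G) * u + v) < dl V ∧ dl V < dl ((((S : ℤ) + M : ℤ) : G) * u + v) ∨
      dl ((((S : ℤ) + M : ℤ) : G) * u + v) < dl V ∧ dl V < dl (((S : ℤ) : G) * u + v)) : V ∈ arc u v S M := by
  have p0 : Pos (((S : ℤ) : G) * u + v) := pos_z h (by omega)
  have p1 : Pos ((((S : ℤ) + M : ℤ) : G) * u + v) := pos_z h (by omega)
  rw [dl_lt p0 hV, dl_lt hV p1, dl_lt p1 hV, dl_lt hV p0] at h0
  have hd : det u v * det u v = 1 := by
    rcases det_cases h with h4 | h4 <;> rw [h4] <;> norm_num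
  have hVeq : V = ((det V v * det u v : ℤ) : G) * u + ((det u V * det u v : ℤ) : G) * v := by
    have e1 : V.re * (det u v * det u v) = det V v * det u v * u.re + det u V * det u v * v.re := by
      unfold det; ring
    have e2 : V.im * (det u v * det u v) = det V v * det u v * u.im + det u V * det u v * v.im := by
      unfold det; ring
    rw [hd, mul_one] at e1 e2
    apply Zsqrtd.ext
    · rw [ab_re]; exact e1
    · rw [ab_im]; exact e2
  generalize det V v * det u v = α at hVeq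
  generalize det u V * det u v = β at hVeq
  rw [hVeq] at h0
  rw [det_z0, det_z1, det_z0, det_z1] at h0
  refine ⟨α, β, hVeq, ?_⟩
  have hM : (0 : ℤ) ≤ M := by positivity
  have hS' : (2 : ℤ) ≤ S := by exact_mod_cast hS
  have hA : (S : ℤ) * β < α ∧ α < ((S : ℤ) + M) * β → 0 < β ∧ (S : ℤ) * β ≤ α ∧ α < ((S : ℤ) + M) * β := by
    rintro ⟨a1, a2⟩
    refine ⟨?_, a1.le, a2⟩
    by_contra hc
    rw [not_lt] at hc
    nlinarith
  have hB : ((S : ℤ) + M) * β < α ∧ α < (S : ℤ) * β → False := by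
    rintro ⟨a1, a2⟩
    have hβ : β < 0 := by
      by_contra hc
      rw [not_lt] at hc
      nlinarith
    have hα : α < 0 := by nlinarith
    have h5 := hV.1
    rw [hVeq, ab_re] at h5
    have h6 := h.2.1
    have h7 := h.2.2.2.1
    nlinarith
  rcases det_cases h with h4 | h4 <;> rw [h4] at h0
  · rcases h0 with h0 | h0
    · exact (hB ⟨by linarith [h0.2], by linarith [h0.1]⟩).elim
    · exact hA ⟨by linarith [h0.2], by linarith [h0.1]⟩
  · rcases h0 with h0 | h0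
    · exact hA ⟨by linarith [h0.1], by linarith [h0.2]⟩
    · exact (hB ⟨by linarith [h0.1], by linarith [h0.2]⟩).elim

/-- rational directions are dense -/
theorem dl_dense (a b : ℝ) (hab : a < b) : ∃ V : G, Pos V ∧ a < dl V ∧ dl V < b := by
  obtain ⟨q, h1, h2⟩ := exists_rat_btwn (Real.exp_lt_exp.2 hab)
  have hq : (0 : ℝ) < q := (Real.exp_pos a).trans h1
  have hq' : 0 < q := by exact_mod_cast hq
  have hp : Pos (⟨(q.den : ℤ), q.num⟩ : G) := ⟨(by show (0 : ℤ) < (q.den : ℤ); exact_mod_cast q.den_pos), Rat.num_pos.2 hq'⟩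
  refine ⟨⟨(q.den : ℤ), q.num⟩, hp, ?_⟩
  rw [dl_eq hp]
  have h3 : ((q.num : ℤ) : ℝ) / ((q.den : ℤ) : ℝ) = (q : ℝ) := by
    rw [Int.cast_natCast]
    exact (Rat.cast_def q).symm
  show a < Real.log (((q.num : ℤ) : ℝ) / ((q.den : ℤ) : ℝ)) ∧ Real.log (((q.num : ℤ) : ℝ) / ((q.den : ℤ) : ℝ)) < b
  rw [h3]
  exact ⟨(Real.lt_log_iff_exp_lt hq).2 h1, (Real.log_lt_iff_lt_exp hq).2 h2⟩

/-- the length of the interval of an arc -/
noncomputable def lam (M : ℕ) (a : G × G × ℕ) : ℝ :=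
  |dl ((((a.2.2 : ℤ) + M : ℤ) : G) * a.1 + a.2.1) - dl (((a.2.2 : ℤ) : G) * a.1 + a.2.1)|

theorem lam_le {u v : G} (h : Fr u v) {S M : ℕ} (hS : 2 ≤ S) : lam M (u, v, S) ≤ M / S := by
  have p0 : Pos (((S : ℤ) : G) * u + v) := pos_z h (by omega)
  have p1 : Pos ((((S : ℤ) + M : ℤ) : G) * u + v) := pos_z h (by omega)
  have hS' : (0 : ℝ) < S := by exact_mod_cast (by omega : 0 < S)
  unfold lam
  simp only
  -- `z1 = z0 + M u`, determinant `± M`
  set z0 := (((S : ℤ) : G) * u + v) with hz0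
  set z1 := ((((S : ℤ) + M : ℤ) : G) * u + v) with hz1
  have hdet : |(z1.im * z0.re - z1.re * z0.im : ℤ)| = M := by
    have h1 : z1.im * z0.re - z1.re * z0.im = -(M * det u v) := by
      rw [hz0, hz1, z_re, z_re, z_im, z_im]
      unfold det
      ring
    rw [h1, abs_neg, abs_mul, h.1, mul_one]
    exact abs_of_nonneg (by positivity)
  have hge : (S : ℤ) ≤ z0.re * z0.im := by
    have hS2 : (2 : ℤ) ≤ S := by exact_mod_cast hS
    have a1 := p0.1
    have a2 := p0.2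
    obtain ⟨h1, h2, h3, h4, h5⟩ := h
    have hu : 1 ≤ u.re ∨ 1 ≤ u.im := by
      by_contra hc
      push Not at hc
      have b1 : u.re = 0 := by omega
      have b2 : u.im = 0 := by omega
      unfold det at h1
      rw [b1, b2] at h1
      simp at h1
    rw [hz0, z_re] at a1 ⊢
    rw [hz0, z_im] at a2
    rw [z_im]
    rcases hu with hu | hu
    · nlinarith
    · nlinarith
  have hr0 : (0 : ℝ) < z0.re := by exact_mod_cast p0.1
  have hi0 : (0 : ℝ) < z0.im := by exact_mod_cast p0.2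
  have hr1 : (z0.re : ℝ) ≤ z1.re := by
    have : z0.re ≤ z1.re := by
      rw [hz0, hz1, z_re, z_re]
      have := h.2.1
      have hM : (0 : ℤ) ≤ M := by positivity
      nlinarith
    exact_mod_cast this
  have hi1 : (z0.im : ℝ) ≤ z1.im := by
    have : z0.im ≤ z1.im := by
      rw [hz0, hz1, z_im, z_im]
      have := h.2.2.1
      have hM : (0 : ℤ) ≤ M := by positivity
      nlinarith
    exact_mod_cast this
  have hge' : (S : ℝ) ≤ z0.re * z0.im := by exact_mod_cast hge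
  have hdet' : |(z1.im : ℝ) * z0.re - z1.re * z0.im| = M := by exact_mod_cast hdet
  -- `|log X - log Y| ≤ |X - Y| / min`
  have hlog : ∀ X Y : ℝ, (S : ℝ) ≤ X → (S : ℝ) ≤ Y → Real.log X - Real.log Y ≤ |X - Y| / S := by
    intro X Y hX hY
    have hY0 : 0 < Y := by linarith
    have hX0 : 0 < X := by linarith
    rw [← Real.log_div hX0.ne' hY0.ne']
    refine (Real.log_le_sub_one_of_pos (by positivity)).trans ?_
    have h1 : X / Y - 1 = (X - Y) / Y := by field_simp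
    rw [h1]
    calc (X - Y) / Y ≤ |X - Y| / Y := by gcongr; exact le_abs_self _
      _ ≤ |X - Y| / S := by gcongr
  have hr1' : (0 : ℝ) < z1.re := by linarith
  have hi1' : (0 : ℝ) < z1.im := by linarith
  have e : dl z1 - dl z0 = Real.log ((z1.im : ℝ) * z0.re) - Real.log ((z1.re : ℝ) * z0.im) := by
    unfold dl
    rw [Real.log_mul hi1'.ne' hr0.ne', Real.log_mul hr1'.ne' hi0.ne']
    ring
  have hX : (S : ℝ) ≤ (z1.im : ℝ) * z0.re := by nlinarith
  have hY : (S : ℝ) ≤ (z1.re : ℝ) * z0.im := by nlinarith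
  rw [e, abs_le]
  constructor
  · have := hlog _ _ hY hX
    rw [abs_sub_comm, hdet'] at this
    linarith
  · have := hlog _ _ hX hY
    rw [hdet'] at this
    exact this

/-! ### cones -/

/-- the coordinate `im / (re + im)` of the direction `log (im / re) = τ` -/
noncomputable def sg (τ : ℝ) : ℝ := Real.exp τ / (1 + Real.exp τ)

/-- the coordinate of a vector -/
noncomputable def TT (z : G) : ℝ := (z.im : ℝ) / (ll z : ℝ)

theorem sg_cont : Continuous sg := by
  unfold sg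
  exact Real.continuous_exp.div (by fun_prop) (fun x => by positivity)

theorem sg_dl {V : G} (hV : Pos V) : sg (dl V) = TT V := by
  have h1 : (0 : ℝ) < V.re := by exact_mod_cast hV.1
  have h2 : (0 : ℝ) < V.im := by exact_mod_cast hV.2
  unfold sg TT ll
  rw [dl_eq hV, Real.exp_log (by positivity)]
  push_cast
  field_simp

theorem sg_lip {p1 p2 x y : ℝ} (hx1 : p1 ≤ x) (hx2 : x ≤ p2) (hy1 : p1 ≤ y) (hy2 : y ≤ p2) :
    |x - y| ≤ (1 + Real.exp p2) ^ 2 * Real.exp (-p1) * |sg x - sg y| := by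
  wlog hxy : y ≤ x generalizing x y
  · rw [abs_sub_comm, abs_sub_comm (sg x)]
    exact this hy1 hy2 hx1 hx2 (le_of_not_ge hxy)
  have h1 : sg x - sg y = (Real.exp x - Real.exp y) / ((1 + Real.exp x) * (1 + Real.exp y)) := by
    unfold sg
    field_simp
    ring
  have h2 : Real.exp y * (x - y) ≤ Real.exp x - Real.exp y := by
    have h3 := Real.add_one_le_exp (x - y)
    have h4 : Real.exp x = Real.exp y * Real.exp (x - y) := by rw [← Real.exp_add]; ring_nf
    rw [h4]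
    nlinarith [Real.exp_pos y]
  have h5 : Real.exp p1 * (x - y) ≤ Real.exp x - Real.exp y := by
    refine le_trans ?_ h2
    gcongr
  have h6 : (1 + Real.exp x) * (1 + Real.exp y) ≤ (1 + Real.exp p2) ^ 2 := by
    rw [sq]
    gcongr
  have h0 : 0 ≤ Real.exp x - Real.exp y := by
    have := Real.exp_le_exp.2 hxy
    linarith
  have h7 : Real.exp p1 * (x - y) / (1 + Real.exp p2) ^ 2 ≤ sg x - sg y := by
    rw [h1]
    gcongr
  rw [abs_of_nonneg (by linarith), abs_of_nonneg (by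
    refine le_trans ?_ h7
    have := Real.exp_pos p1
    positivity)]
  rw [div_le_iff₀ (by positivity)] at h7
  rw [Real.exp_neg]
  have h8 : x - y = (Real.exp p1 * (x - y)) * (Real.exp p1)⁻¹ := by
    field_simp
  rw [h8]
  calc (Real.exp p1 * (x - y)) * (Real.exp p1)⁻¹ ≤ ((sg x - sg y) * (1 + Real.exp p2) ^ 2) * (Real.exp p1)⁻¹ := by gcongr
    _ = _ := by ring

theorem ll_pos' {u v : G} (h : Fr u v) : 0 < ll u ∧ 0 < ll v := by
  obtain ⟨h1, h2, h3, h4, h5⟩ := h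
  unfold ll
  unfold det at h1
  constructor
  · by_contra hc
    have a1 : u.re = 0 := by omega
    have a2 : u.im = 0 := by omega
    rw [a1, a2] at h1
    simp at h1
  · by_contra hc
    have a1 : v.re = 0 := by omega
    have a2 : v.im = 0 := by omega
    rw [a1, a2] at h1
    simp at h1

theorem TT_sub {u v : G} (h : Fr u v) : |TT u - TT v| = 1 / ((ll u : ℝ) * ll v) := by
  obtain ⟨hu, hv⟩ := ll_pos' h
  have hu' : (0 : ℝ) < ll u := by exact_mod_cast hu
  have hv' : (0 : ℝ) < ll v := by exact_mod_cast hv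
  have h1 : TT u - TT v = -((det u v : ℤ) : ℝ) / ((ll u : ℝ) * ll v) := by
    unfold TT
    rw [div_sub_div _ _ hu'.ne' hv'.ne']
    congr 1
    unfold det ll
    push_cast
    ring
  rw [h1, abs_div, abs_of_pos (by positivity : (0 : ℝ) < (ll u : ℝ) * ll v), abs_neg]
  congr 1
  have := h.1
  exact_mod_cast this

/-- the set of directions of a cone -/
def Jc (u v : G) : Set ℝ := {τ | sg τ ∈ Set.uIcc (TT u) (TT v)}

theorem Jc_closed (u v : G) : IsClosed (Jc u v) := (isClosed_Icc).preimage sg_cont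

theorem mem_Jc {u v : G} (h : Fr u v) {V : G} (hV : Pos V) (hc : V ∈ cone u v) : dl V ∈ Jc u v := by
  obtain ⟨hu, hv⟩ := ll_pos' h
  have hu' : (0 : ℝ) < ll u := by exact_mod_cast hu
  have hv' : (0 : ℝ) < ll v := by exact_mod_cast hv
  show sg (dl V) ∈ Set.uIcc (TT u) (TT v)
  rw [sg_dl hV]
  obtain ⟨α, β, rfl, h1, h2⟩ := hc
  have hα : (0 : ℝ) ≤ α := by exact_mod_cast h1
  have hβ : (0 : ℝ) ≤ β := by exact_mod_cast h2
  have hl : (ll ((α : G) * u + (β : G) * v) : ℝ) = α * ll u + β * ll v := by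
    unfold ll
    rw [ab_re, ab_im]
    push_cast
    ring
  have hl0 : (0 : ℝ) < α * ll u + β * ll v := by
    rw [← hl]
    have := hV.1
    have := hV.2
    have h3 : 0 < ll ((α : G) * u + (β : G) * v) := by unfold ll; omega
    exact_mod_cast h3
  have hT : TT ((α : G) * u + (β : G) * v) = (α * ll u * TT u + β * ll v * TT v) / (α * ll u + β * ll v) := by
    unfold TT
    rw [hl, ab_im]
    congr 1
    push_cast
    field_simp
  have h5 : TT ((α : G) * u + (β : G) * v) = (α * ll u / (α * ll u + β * ll v)) * TT u + (β * ll v / (α * ll u + β * ll v)) * TT v := by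
    rw [hT]
    ring
  rw [h5]
  have ha : 0 ≤ (α : ℝ) * (ll u : ℝ) / (α * ll u + β * ll v) := by positivity
  have hb : 0 ≤ (β : ℝ) * (ll v : ℝ) / (α * ll u + β * ll v) := by positivity
  have hab : (α : ℝ) * (ll u : ℝ) / (α * ll u + β * ll v) + (β : ℝ) * (ll v : ℝ) / (α * ll u + β * ll v) = 1 := by
    rw [← add_div, div_self hl0.ne']
  generalize (α : ℝ) * (ll u : ℝ) / (α * ll u + β * ll v) = a at *
  generalize (β : ℝ) * (ll v : ℝ) / (α * ll u + β * ll v) = b at *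
  have hae : a = 1 - b := by linarith
  subst hae
  rw [Set.mem_uIcc]
  rcases le_total (TT u) (TT v) with hle | hle
  · left
    have e1 := mul_nonneg ha (sub_nonneg.2 hle)
    have e2 := mul_nonneg hb (sub_nonneg.2 hle)
    constructor <;> linarith
  · right
    have e1 := mul_nonneg ha (sub_nonneg.2 hle)
    have e2 := mul_nonneg hb (sub_nonneg.2 hle)
    constructor <;> linarith

theorem vol_Jc {u v : G} (h : Fr u v) (p1 p2 : ℝ) :
    volume (Jc u v ∩ Set.Icc p1 p2) ≤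
      ENNReal.ofReal ((1 + Real.exp p2) ^ 2 * Real.exp (-p1) * (1 / ((ll u : ℝ) * ll v))) := by
  refine (Real.volume_le_diam _).trans ?_
  refine Metric.ediam_le ?_
  rintro x ⟨hx, hx1, hx2⟩ y ⟨hy, hy1, hy2⟩
  rw [edist_dist, Real.dist_eq]
  apply ENNReal.ofReal_le_ofReal
  refine (sg_lip hx1 hx2 hy1 hy2).trans ?_
  rw [← TT_sub h]
  apply mul_le_mul_of_nonneg_left _ (by positivity)
  have hx' : sg x ∈ Set.uIcc (TT v) (TT u) := by
    rw [Set.uIcc_comm]
    exact hx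
  have hy' : sg y ∈ Set.uIcc (TT v) (TT u) := by
    rw [Set.uIcc_comm]
    exact hy
  exact Set.abs_sub_le_of_uIcc_subset_uIcc (Set.uIcc_subset_uIcc hy' hx')

/-! ### lengths -/

/-- the closed interval of an arc -/
noncomputable def Ia (M : ℕ) (a : G × G × ℕ) : Set ℝ :=
  Set.uIcc (dl (((a.2.2 : ℤ) : G) * a.1 + a.2.1)) (dl ((((a.2.2 : ℤ) + M : ℤ) : G) * a.1 + a.2.1))

/-- the open interval of an arc -/
noncomputable def Io (M : ℕ) (a : G × G × ℕ) : Set ℝ :=
  Set.uIoo (dl (((a.2.2 : ℤ) : G) * a.1 + a.2.1)) (dl ((((a.2.2 : ℤ) + M : ℤ) : G) * a.1 + a.2.1))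

theorem lam_nonneg (M : ℕ) (a : G × G × ℕ) : 0 ≤ lam M a := abs_nonneg _

theorem vol_Ia (M : ℕ) (a : G × G × ℕ) : volume (Ia M a) = ENNReal.ofReal (lam M a) := by
  unfold Ia lam
  show volume (Set.Icc (min _ _) (max _ _)) = _
  rw [Real.volume_Icc, max_sub_min_eq_abs]

theorem vol_Io (M : ℕ) (a : G × G × ℕ) : volume (Io M a) = ENNReal.ofReal (lam M a) := by
  unfold Io lam
  rw [Set.uIoo, Real.volume_Ioo, max_sub_min_eq_abs]

theorem dist_Ia {M : ℕ} {a : G × G × ℕ} {x y : ℝ} (hx : x ∈ Ia M a) (hy : y ∈ Ia M a) : |x - y| ≤ lam M a := by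
  unfold lam
  exact Set.abs_sub_le_of_uIcc_subset_uIcc (Set.uIcc_subset_uIcc hy hx)

theorem Io_disj {M : ℕ} {a a' : G × G × ℕ} (h : Fr a.1 a.2.1) (h' : Fr a'.1 a'.2.1) (hS : 2 ≤ a.2.2) (hS' : 2 ≤ a'.2.2)
    (hd : Disjoint (arc a.1 a.2.1 a.2.2 M) (arc a'.1 a'.2.1 a'.2.2 M)) : Disjoint (Io M a) (Io M a') := by
  rw [Set.disjoint_left]
  intro x hx hx'
  have h1 : IsOpen (Io M a ∩ Io M a') := isOpen_Ioo.inter isOpen_Ioo
  obtain ⟨l, r, ⟨h2, h3⟩, h4⟩ := mem_nhds_iff_exists_Ioo_subset.1 (h1.mem_nhds ⟨hx, hx'⟩)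
  obtain ⟨V, hV, h5, h6⟩ := dl_dense l r (h2.trans h3)
  obtain ⟨h7, h8⟩ := h4 ⟨h5, h6⟩
  have key : ∀ b : G × G × ℕ, Fr b.1 b.2.1 → 2 ≤ b.2.2 → dl V ∈ Io M b → V ∈ arc b.1 b.2.1 b.2.2 M := by
    intro b hb hSb hVb
    apply mem_arc_of hb hSb hV
    rcases le_total (dl (((b.2.2 : ℤ) : G) * b.1 + b.2.1)) (dl ((((b.2.2 : ℤ) + M : ℤ) : G) * b.1 + b.2.1)) with hle | hle
    · left
      unfold Io at hVb
      rwa [Set.uIoo_of_le hle] at hVb
    · right
      unfold Io at hVb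
      rwa [Set.uIoo_of_ge hle] at hVb
  exact Set.disjoint_left.1 hd (key a h hS h7) (key a' h' hS' h8)

open Classical in
/-- arcs meeting `[p1, p2]` -/
theorem sum_upper {M : ℕ} (A : Finset (G × G × ℕ)) (hA : ∀ a ∈ A, Fr a.1 a.2.1 ∧ 2 ≤ a.2.2)
    (hd : ∀ a ∈ A, ∀ a' ∈ A, a ≠ a' → Disjoint (arc a.1 a.2.1 a.2.2 M) (arc a'.1 a'.2.1 a'.2.2 M))
    {η : ℝ} (hη : 0 ≤ η) (hl : ∀ a ∈ A, lam M a ≤ η) {p1 p2 : ℝ} (hp : p1 ≤ p2) :
    ∑ a ∈ A.filter (fun a => (Ia M a ∩ Set.Icc p1 p2).Nonempty), lam M a ≤ p2 - p1 + 2 * η := by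
  set B := A.filter (fun a => (Ia M a ∩ Set.Icc p1 p2).Nonempty) with hB
  have h1 : volume (⋃ a ∈ B, Io M a) = ∑ a ∈ B, volume (Io M a) := by
    apply measure_biUnion_finset
    · intro a ha a' ha' hne
      obtain ⟨ha, -⟩ := mem_filter.1 ha
      obtain ⟨ha', -⟩ := mem_filter.1 ha'
      exact Io_disj (hA a ha).1 (hA a' ha').1 (hA a ha).2 (hA a' ha').2 (hd a ha a' ha' hne)
    · intro a _
      exact measurableSet_Ioo
  have h2 : (⋃ a ∈ B, Io M a) ⊆ Set.Icc (p1 - η) (p2 + η) := by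
    intro x hx
    simp only [Set.mem_iUnion] at hx
    obtain ⟨a, ha, hx⟩ := hx
    obtain ⟨ha, y, hy, hy1, hy2⟩ := mem_filter.1 ha
    have h3 : x ∈ Ia M a := Set.Ioo_subset_Icc_self hx
    have h4 := dist_Ia h3 hy
    have h5 := hl a ha
    rw [abs_le] at h4
    constructor <;> linarith [h4.1, h4.2]
  have h3 := measure_mono (μ := volume) h2
  rw [h1, Real.volume_Icc] at h3
  simp only [vol_Io] at h3
  rw [← ENNReal.ofReal_sum_of_nonneg (fun a _ => lam_nonneg M a)] at h3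
  rw [ENNReal.ofReal_le_ofReal_iff (by linarith)] at h3
  linarith

open Classical in
/-- arcs contained in `[p1, p2)` -/
theorem sum_lower {M : ℕ} (A : Finset (G × G × ℕ)) (L : Finset (G × G)) (hA : ∀ a ∈ A, Fr a.1 a.2.1 ∧ 2 ≤ a.2.2)
    (hL : ∀ l ∈ L, Fr l.1 l.2)
    (hcov : ∀ V : G, Pos V → (∃ a ∈ A, V ∈ arc a.1 a.2.1 a.2.2 M) ∨ ∃ l ∈ L, V ∈ cone l.1 l.2)
    {η : ℝ} (hη : 0 < η) (hl : ∀ a ∈ A, lam M a < η) {p1 p2 : ℝ} :
    p2 - p1 - 2 * η ≤ ∑ a ∈ A.filter (fun a => Ia M a ⊆ Set.Ico p1 p2), lam M a +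
      (1 + Real.exp p2) ^ 2 * Real.exp (-p1) * ∑ l ∈ L, (1 / ((ll l.1 : ℝ) * ll l.2)) := by
  set B := A.filter (fun a => Ia M a ⊆ Set.Ico p1 p2) with hB
  set C := (1 + Real.exp p2) ^ 2 * Real.exp (-p1) with hC
  have hC0 : 0 ≤ C := by positivity
  -- everything is covered
  have h1 : (⋃ a ∈ A, Ia M a) ∪ (⋃ l ∈ L, Jc l.1 l.2) = Set.univ := by
    have hcl : IsClosed ((⋃ a ∈ A, Ia M a) ∪ (⋃ l ∈ L, Jc l.1 l.2)) := by
      apply IsClosed.union
      · exact isClosed_biUnion_finset (fun a _ => isClosed_Icc)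
      · exact isClosed_biUnion_finset (fun l _ => Jc_closed _ _)
    rw [← hcl.closure_eq]
    apply Dense.closure_eq
    rw [dense_iff_inter_open]
    intro U hU ⟨x, hx⟩
    obtain ⟨l, r, ⟨h2, h3⟩, h4⟩ := mem_nhds_iff_exists_Ioo_subset.1 (hU.mem_nhds hx)
    obtain ⟨V, hV, h5, h6⟩ := dl_dense l r (h2.trans h3)
    refine ⟨dl V, h4 ⟨h5, h6⟩, ?_⟩
    rcases hcov V hV with ⟨a, ha, h7⟩ | ⟨c, hc, h7⟩
    · left
      simp only [Set.mem_iUnion]
      exact ⟨a, ha, arc_dl (hA a ha).1 (hA a ha).2 hV h7⟩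
    · right
      simp only [Set.mem_iUnion]
      exact ⟨c, hc, mem_Jc (hL c hc) hV h7⟩
  have h2 : Set.Icc (p1 + η) (p2 - η) ⊆ (⋃ a ∈ B, Ia M a) ∪ (⋃ l ∈ L, (Jc l.1 l.2 ∩ Set.Icc p1 p2)) := by
    intro x hx
    have hx' : x ∈ (⋃ a ∈ A, Ia M a) ∪ (⋃ l ∈ L, Jc l.1 l.2) := by rw [h1]; trivial
    rcases hx' with h | h
    · left
      simp only [Set.mem_iUnion] at h ⊢
      obtain ⟨a, ha, h⟩ := h
      refine ⟨a, mem_filter.2 ⟨ha, ?_⟩, h⟩
      intro y hy
      have h4 := dist_Ia h hy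
      have h5 := hl a ha
      rw [abs_le] at h4
      exact ⟨by linarith [h4.1, h4.2, hx.1, hx.2], by linarith [h4.1, h4.2, hx.1, hx.2]⟩
    · right
      simp only [Set.mem_iUnion] at h ⊢
      obtain ⟨l, hl', h⟩ := h
      exact ⟨l, hl', h, by linarith [hx.1], by linarith [hx.2]⟩
  have h3 := measure_mono (μ := volume) h2
  rw [Real.volume_Icc] at h3
  have h4 : volume ((⋃ a ∈ B, Ia M a) ∪ (⋃ l ∈ L, (Jc l.1 l.2 ∩ Set.Icc p1 p2))) ≤
      ENNReal.ofReal (∑ a ∈ B, lam M a + C * ∑ l ∈ L, (1 / ((ll l.1 : ℝ) * ll l.2))) := by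
    refine (measure_union_le _ _).trans ?_
    have hl0 : ∀ l ∈ L, 0 ≤ C * (1 / ((ll l.1 : ℝ) * ll l.2)) := by
      intro l hl'
      obtain ⟨hu, hv⟩ := ll_pos' (hL l hl')
      have hu' : (0 : ℝ) < ll l.1 := by exact_mod_cast hu
      have hv' : (0 : ℝ) < ll l.2 := by exact_mod_cast hv
      positivity
    rw [Finset.mul_sum, ENNReal.ofReal_add (Finset.sum_nonneg fun a _ => lam_nonneg M a) (Finset.sum_nonneg hl0),
      ENNReal.ofReal_sum_of_nonneg (fun a _ => lam_nonneg M a), ENNReal.ofReal_sum_of_nonneg hl0]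
    refine add_le_add ?_ ?_
    · refine (measure_biUnion_finset_le _ _).trans (Finset.sum_le_sum fun a _ => ?_)
      rw [vol_Ia]
    · refine (measure_biUnion_finset_le _ _).trans (Finset.sum_le_sum fun l hl' => ?_)
      exact vol_Jc (hL l hl') p1 p2
  have h5 := h3.trans h4
  have h6 : 0 ≤ ∑ a ∈ B, lam M a + C * ∑ l ∈ L, (1 / ((ll l.1 : ℝ) * ll l.2)) := by
    apply add_nonneg (Finset.sum_nonneg fun a _ => lam_nonneg M a)
    apply mul_nonneg hC0
    apply Finset.sum_nonneg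
    intro l hl'
    obtain ⟨hu, hv⟩ := ll_pos' (hL l hl')
    have hu' : (0 : ℝ) < ll l.1 := by exact_mod_cast hu
    have hv' : (0 : ℝ) < ll l.2 := by exact_mod_cast hv
    positivity
  rw [ENNReal.ofReal_le_ofReal_iff h6] at h5
  linarith

end Pool.Agent.Spl.EqsAux
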