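import Pool.Agent.Lib_MP_92ef0c_sp.EqHyp
import Pool.Agent.Lib_MP_92ef0c_sp.EqSA
import Pool.Agent.Lib_MP_f1a94e_aq.Left

/-!
# Equidistribution of matrices of determinant 1 in sectors and residue classes
-/

set_option autoImplicit false

namespace Pool.Agent.Spl

open Finset Pool.Agent.GaussMR Pool.Agent.OmAll Pool.Agent.OmEq Filter MeasureTheory

namespace EqsAux

/-- the first row -/
def rw1 (e : Q4) : G := ⟨(e.a : ℤ), (e.b : ℤ)⟩

theorem pos_rw1 {n : ℕ} {e : Q4} (h : Sn n e) : Pos (rw1 e) := by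
  refine ⟨?_, ?_⟩
  · show (0 : ℤ) < (e.a : ℤ)
    exact_mod_cast h.2.1
  · show (0 : ℤ) < (e.b : ℤ)
    exact_mod_cast h.2.2.1

theorem dl_rw1 (e : Q4) : dl (rw1 e) = pS e := by
  unfold dl pS rw1
  simp only [Int.cast_natCast]

open Classical in
/-- the leftover cones -/
theorem lft (p1 p2 w1 w2 : ℝ) : ∃ K : ℝ, 0 < K ∧ ∀ u v : G, Fr u v → ∀ x : ℝ, 1 ≤ x →
    (((SN 1 x).filter (fun e => rw1 e ∈ cone u v ∧ (p1 ≤ pS e ∧ pS e < p2) ∧ (w1 ≤ wS e ∧ wS e < w2))).card : ℝ) ≤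
      K * (x / ((ll u : ℝ) * ll v) + Real.sqrt x + 1) := by
  set r : ℝ := (1 + Real.exp p2) * Real.exp (-(p1 + w1) / 2) with hr
  have hr0 : 0 < r := by positivity
  refine ⟨(r + 1) ^ 2 * (Real.exp w2 + 1), by positivity, ?_⟩
  intro u v huv x hx
  obtain ⟨hu1, hv1⟩ := ll_pos' huv
  have hu : (1 : ℝ) ≤ ll u := by exact_mod_cast hu1
  have hv : (1 : ℝ) ≤ ll v := by exact_mod_cast hv1
  set R : ℝ := r * Real.sqrt x with hR
  have hx0 : 0 ≤ Real.sqrt x := Real.sqrt_nonneg x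
  have hR0 : 0 ≤ R := by positivity
  have hsq : Real.sqrt x ^ 2 = x := Real.sq_sqrt (by linarith)
  set E := (SN 1 x).filter (fun e => rw1 e ∈ cone u v ∧ (p1 ≤ pS e ∧ pS e < p2) ∧ (w1 ≤ wS e ∧ wS e < w2)) with hE
  set Vs : Finset G := (range (⌊R / ll u⌋₊ + 1) ×ˢ range (⌊R / ll v⌋₊ + 1)).image
    (fun w : ℕ × ℕ => (((w.1 : ℤ) : G)) * u + (((w.2 : ℤ) : G)) * v) with hVs
  have hprop : ∀ e ∈ E, Sn 1 e ∧ yS e ≤ x ∧ rw1 e ∈ cone u v ∧ Real.exp p1 * e.a ≤ e.b ∧ (e.b : ℝ) ≤ Real.exp p2 * e.a ∧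
      Real.exp w1 * e.a ≤ e.c ∧ (e.c : ℝ) ≤ Real.exp w2 * e.a := by
    intro e he
    obtain ⟨h1, h2, ⟨h3, h4⟩, h5, h6⟩ := mem_filter.1 he
    obtain ⟨h7, h8⟩ := mem_SN.1 h1
    have ha : (0 : ℝ) < e.a := by exact_mod_cast h7.2.1
    have hb : (0 : ℝ) < e.b := by exact_mod_cast h7.2.2.1
    have hc : (0 : ℝ) < e.c := by exact_mod_cast h7.2.2.2.1
    unfold pS at h3 h4
    unfold wS at h5 h6
    have key1 : ∀ p t s : ℝ, 0 < t → 0 < s → p ≤ Real.log t - Real.log s → Real.exp p * s ≤ t := by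
      intro p t s ht hs h
      rw [← Real.log_div ht.ne' hs.ne', Real.le_log_iff_exp_le (by positivity)] at h
      rwa [le_div_iff₀ hs] at h
    have key2 : ∀ p t s : ℝ, 0 < t → 0 < s → Real.log t - Real.log s < p → t ≤ Real.exp p * s := by
      intro p t s ht hs h
      rw [← Real.log_div ht.ne' hs.ne', Real.log_lt_iff_lt_exp (by positivity)] at h
      rw [div_lt_iff₀ hs] at h
      exact h.le
    exact ⟨h7, h8, h2, key1 _ _ _ hb ha h3, key2 _ _ _ hb ha h4, key1 _ _ _ hc ha h5, key2 _ _ _ hc ha h6⟩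
  have hmem : ∀ e ∈ E, rw1 e ∈ Vs := by
    intro e he
    obtain ⟨h1, h2, ⟨α, β, hV, hα, hβ⟩, h3, h4, h5, h6⟩ := hprop e he
    have ha : (0 : ℝ) < e.a := by exact_mod_cast h1.2.1
    have h7 : (e.a : ℝ) ≤ Real.exp (-(p1 + w1) / 2) * Real.sqrt x := by
      have e1 : (e.a : ℝ) ^ 2 * Real.exp (p1 + w1) ≤ x := by
        refine le_trans ?_ h2
        unfold yS
        rw [Real.exp_add]
        have : (Real.exp p1 * e.a) * (Real.exp w1 * e.a) ≤ (e.b : ℝ) * e.c := by gcongr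
        calc (e.a : ℝ) ^ 2 * (Real.exp p1 * Real.exp w1) = (Real.exp p1 * e.a) * (Real.exp w1 * e.a) := by ring
          _ ≤ _ := this
      have e2 : (e.a : ℝ) ^ 2 ≤ (Real.exp (-(p1 + w1) / 2) * Real.sqrt x) ^ 2 := by
        rw [mul_pow, hsq]
        have e3 : Real.exp (-(p1 + w1) / 2) ^ 2 * Real.exp (p1 + w1) = 1 := by
          rw [← Real.exp_nat_mul, ← Real.exp_add]
          have : ((2 : ℕ) : ℝ) * (-(p1 + w1) / 2) + (p1 + w1) = 0 := by push_cast; ring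
          rw [this, Real.exp_zero]
        calc (e.a : ℝ) ^ 2 = Real.exp (-(p1 + w1) / 2) ^ 2 * ((e.a : ℝ) ^ 2 * Real.exp (p1 + w1)) := by
              rw [mul_comm ((e.a : ℝ) ^ 2), ← mul_assoc, e3, one_mul]
          _ ≤ _ := by gcongr
      exact le_of_sq_le_sq e2 (by positivity)
    have hll : ((ll (rw1 e) : ℤ) : ℝ) ≤ R := by
      have e1 : ((ll (rw1 e) : ℤ) : ℝ) = e.a + e.b := by
        unfold ll rw1
        push_cast
        ring
      rw [e1, hR, hr]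
      calc (e.a : ℝ) + e.b ≤ (1 + Real.exp p2) * e.a := by linarith
        _ ≤ (1 + Real.exp p2) * (Real.exp (-(p1 + w1) / 2) * Real.sqrt x) := by gcongr
        _ = _ := by ring
    have hlin : ((ll (rw1 e) : ℤ) : ℝ) = α * ll u + β * ll v := by
      rw [hV]
      unfold ll
      rw [ab_re, ab_im]
      push_cast
      ring
    have hα' : (0 : ℝ) ≤ α := by exact_mod_cast hα
    have hβ' : (0 : ℝ) ≤ β := by exact_mod_cast hβ
    rw [hlin] at hll
    obtain ⟨a, rfl⟩ := Int.eq_ofNat_of_zero_le hα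
    obtain ⟨b, rfl⟩ := Int.eq_ofNat_of_zero_le hβ
    rw [hVs]
    refine Finset.mem_image.2 ⟨(a, b), ?_, hV.symm⟩
    rw [Finset.mem_product, Finset.mem_range, Finset.mem_range]
    push_cast at hll
    constructor
    · apply Nat.lt_succ_of_le
      apply Nat.le_floor
      rw [le_div_iff₀ (by linarith)]
      have : (0 : ℝ) ≤ (b : ℝ) * ll v := by positivity
      linarith
    · apply Nat.lt_succ_of_le
      apply Nat.le_floor
      rw [le_div_iff₀ (by linarith)]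
      have : (0 : ℝ) ≤ (a : ℝ) * ll u := by positivity
      linarith
  have hcard : E.card ≤ (Vs ×ˢ range (⌊Real.exp w2⌋₊ + 1)).card := by
    apply Finset.card_le_card_of_injOn (fun e : Q4 => (rw1 e, e.c / e.a))
    · intro e he
      have he' : e ∈ E := he
      obtain ⟨h1, h2, -, h3, h4, h5, h6⟩ := hprop e he'
      have ha : (0 : ℝ) < e.a := by exact_mod_cast h1.2.1
      rw [Finset.mem_coe, Finset.mem_product]
      refine ⟨hmem e he', ?_⟩
      rw [Finset.mem_range]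
      apply Nat.lt_succ_of_le
      apply Nat.le_floor
      calc ((e.c / e.a : ℕ) : ℝ) ≤ (e.c : ℝ) / e.a := Nat.cast_div_le
        _ ≤ Real.exp w2 := by
          rw [div_le_iff₀ ha]
          exact h6
    · intro e he f hf hef
      obtain ⟨h1, -⟩ := hprop e he
      obtain ⟨h2, -⟩ := hprop f hf
      simp only [Prod.mk.injEq] at hef
      obtain ⟨h3, h4⟩ := hef
      have ha : e.a = f.a := by
        have h9 : (e.a : ℤ) = f.a := congrArg Zsqrtd.re h3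
        exact_mod_cast h9
      have hb : e.b = f.b := by
        have h9 : (e.b : ℤ) = f.b := congrArg Zsqrtd.im h3
        exact_mod_cast h9
      obtain ⟨k1, k2, k3, k4, k5, k6, k7⟩ := h1
      obtain ⟨l1, l2, l3, l4, l5, l6, l7⟩ := h2
      have hmod : e.c ≡ f.c [MOD e.a] := by
        have e1 : e.b * e.c + 1 ≡ e.b * f.c + 1 [MOD e.a] := by
          rw [← k1, hb, ← l1, ha]
          exact (Nat.modEq_zero_iff_dvd.2 (dvd_mul_right _ _)).trans (Nat.modEq_zero_iff_dvd.2 (dvd_mul_right _ _)).symm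
        have e2 := Nat.ModEq.add_right_cancel' 1 e1
        exact Nat.ModEq.cancel_left_of_coprime k6 e2
      have hc : e.c = f.c := by
        rw [← Nat.div_add_mod e.c e.a, ← Nat.div_add_mod f.c e.a, hmod, h4, ha]
      have hd : e.d = f.d := by
        have e1 : e.a * e.d = e.a * f.d := by
          rw [k1, hb, hc, ha, ← l1]
        exact Nat.eq_of_mul_eq_mul_left k2 e1
      exact Q4.ext ha hb hc hd
  have hVc : (Vs.card : ℝ) ≤ (R / ll u + 1) * (R / ll v + 1) := by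
    have h1 : Vs.card ≤ (⌊R / ll u⌋₊ + 1) * (⌊R / ll v⌋₊ + 1) := by
      refine Finset.card_image_le.trans ?_
      rw [Finset.card_product, Finset.card_range, Finset.card_range]
    calc (Vs.card : ℝ) ≤ (((⌊R / ll u⌋₊ + 1) * (⌊R / ll v⌋₊ + 1) : ℕ) : ℝ) := by exact_mod_cast h1
      _ = ((⌊R / ll u⌋₊ : ℝ) + 1) * ((⌊R / ll v⌋₊ : ℝ) + 1) := by push_cast; ring
      _ ≤ _ := by
        gcongr
        · exact Nat.floor_le (by positivity)
        · exact Nat.floor_le (by positivity)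
  have hmul : (R / ll u + 1) * (R / ll v + 1) ≤ (r + 1) ^ 2 * (x / ((ll u : ℝ) * ll v) + Real.sqrt x + 1) := by
    have e1 : (R / ll u + 1) * (R / ll v + 1) = r ^ 2 * (x / ((ll u : ℝ) * ll v)) + (R / ll u + R / ll v) + 1 := by
      have : R ^ 2 = r ^ 2 * x := by rw [hR, mul_pow, hsq]
      have h2 : r ^ 2 * (x / ((ll u : ℝ) * ll v)) = R ^ 2 / ((ll u : ℝ) * ll v) := by rw [this]; ring
      rw [h2]
      field_simp
      ring
    have e2 : R / ll u ≤ R := div_le_self hR0 hu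
    have e3 : R / ll v ≤ R := div_le_self hR0 hv
    rw [e1]
    have e4 : 0 ≤ x / ((ll u : ℝ) * ll v) := by positivity
    have e5 : r ^ 2 ≤ (r + 1) ^ 2 := by nlinarith
    have e6 : 2 * r ≤ (r + 1) ^ 2 := by nlinarith
    have e7 : 1 ≤ (r + 1) ^ 2 := by nlinarith
    have e8 : r ^ 2 * (x / ((ll u : ℝ) * ll v)) ≤ (r + 1) ^ 2 * (x / ((ll u : ℝ) * ll v)) := by gcongr
    have e9 : 2 * R ≤ (r + 1) ^ 2 * Real.sqrt x := by
      rw [hR]
      calc 2 * (r * Real.sqrt x) = (2 * r) * Real.sqrt x := by ring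
        _ ≤ _ := by gcongr
    nlinarith
  calc (E.card : ℝ) ≤ ((Vs ×ˢ range (⌊Real.exp w2⌋₊ + 1)).card : ℝ) := by exact_mod_cast hcard
    _ = (Vs.card : ℝ) * ((⌊Real.exp w2⌋₊ : ℝ) + 1) := by
        rw [Finset.card_product, Finset.card_range]
        push_cast
        ring
    _ ≤ ((r + 1) ^ 2 * (x / ((ll u : ℝ) * ll v) + Real.sqrt x + 1)) * (Real.exp w2 + 1) := by
        have h1 := hVc.trans hmul
        have h2 : (⌊Real.exp w2⌋₊ : ℝ) ≤ Real.exp w2 := Nat.floor_le (Real.exp_pos _).le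
        gcongr
    _ = _ := by ring

theorem eqs_fr_one : Fr (1 : G) ⟨0, 1⟩ := by
  unfold Fr det
  simp

theorem eqs_cone {V : G} (hV : Pos V) : V ∈ cone (1 : G) ⟨0, 1⟩ := by
  refine ⟨V.re, V.im, ?_, hV.1.le, hV.2.le⟩
  apply Zsqrtd.ext <;> simp

theorem eqs_sqrt (e : ℝ) (he : 0 < e) : ∀ᶠ x : ℝ in atTop, Real.sqrt x + 1 ≤ e * x := by
  filter_upwards [eventually_ge_atTop (max 1 (4 / e ^ 2))] with x hx
  have h1 : 1 ≤ x := le_trans (le_max_left _ _) hx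
  have h2 : 4 / e ^ 2 ≤ x := le_trans (le_max_right _ _) hx
  have h3 : 1 ≤ Real.sqrt x := by
    rw [Real.one_le_sqrt]
    exact h1
  have h4 : Real.sqrt x * Real.sqrt x = x := Real.mul_self_sqrt (by linarith)
  have h5 : 2 / e ≤ Real.sqrt x := by
    apply Real.le_sqrt_of_sq_le
    rw [div_pow]
    norm_num
    exact h2
  have h6 : 2 ≤ e * Real.sqrt x := by
    rw [div_le_iff₀ he] at h5
    linarith
  calc Real.sqrt x + 1 ≤ 2 * Real.sqrt x := by linarith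
    _ ≤ (e * Real.sqrt x) * Real.sqrt x := mul_le_mul_of_nonneg_right h6 (by linarith)
    _ = e * x := by rw [mul_assoc, h4]

private theorem n_eta {k P ε : ℝ} (hk0 : 0 ≤ k) (hP0 : 0 ≤ P) (hε : 0 < ε) :
    ∃ η : ℝ, 0 < η ∧ η ≤ 1 ∧ k * η * (P + 4) ≤ ε / 8 := by
  refine ⟨min 1 (ε / (8 * (k * (P + 4) + 1))), by positivity, min_le_left _ _, ?_⟩
  have h0 : 0 ≤ k * (P + 4) := by positivity
  calc k * min 1 (ε / (8 * (k * (P + 4) + 1))) * (P + 4) = (k * (P + 4)) * min 1 (ε / (8 * (k * (P + 4) + 1))) := by ring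
    _ ≤ (k * (P + 4)) * (ε / (8 * (k * (P + 4) + 1))) := by gcongr; exact min_le_right _ _
    _ ≤ ε / 8 := by
      rw [← mul_div_assoc, div_le_iff₀ (by positivity)]
      nlinarith

private theorem n_delta {K k C ε : ℝ} (hK : 0 < K) (hk0 : 0 ≤ k) (hC0 : 0 < C) (hε : 0 < ε) :
    ∃ δ : ℝ, 0 < δ ∧ K * δ ≤ ε / 8 ∧ k * (C * δ) ≤ ε / 8 := by
  have h0 : 0 ≤ k * C := by positivity
  refine ⟨ε / (8 * (K + k * C)), by positivity, ?_, ?_⟩
  · rw [← mul_div_assoc, div_le_iff₀ (by positivity)]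
    nlinarith
  · rw [← mul_div_assoc, ← mul_div_assoc, div_le_iff₀ (by positivity)]
    nlinarith

private theorem n_four {y η : ℝ} (h0 : 0 ≤ y) (h1 : y ≤ η / 32) (hη : η ≤ 1) : (1 + y) ^ 4 ≤ 1 + η := by
  have h2 : y ≤ 1 / 32 := by linarith
  have h3 : y ^ 2 ≤ y := by nlinarith
  have h4 : (1 + y) ^ 4 = (1 + (2 * y + y ^ 2)) ^ 2 := by ring
  have h5 : 2 * y + y ^ 2 ≤ 3 * y := by linarith
  have h6 : 0 ≤ 2 * y + y ^ 2 := by positivity
  rw [h4]
  calc (1 + (2 * y + y ^ 2)) ^ 2 ≤ (1 + 3 * y) ^ 2 := by gcongr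
    _ = 1 + 6 * y + 9 * y ^ 2 := by ring
    _ ≤ 1 + η := by linarith

private theorem n_card {B A ε : ℝ} (h : B ≤ A) (hA : 0 ≤ A) (hε : 0 < ε) : B * (ε / (8 * (A + 1))) ≤ ε / 8 := by
  rw [← mul_div_assoc, div_le_iff₀ (by positivity)]
  nlinarith

private theorem n_cardK {K L ε : ℝ} (hK : 0 < K) (hL : 0 ≤ L) (hε : 0 < ε) : K * L * (ε / (8 * K * (L + 1))) ≤ ε / 8 := by
  rw [← mul_div_assoc, div_le_iff₀ (by positivity)]
  have : 0 ≤ K * ε := by positivity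
  nlinarith

private theorem n_lo {P η Λ D : ℝ} (hη0 : 0 ≤ η) (hη1 : η ≤ 1) (h4 : P - 2 * η - D ≤ Λ) (h6 : Λ ≤ P + 2 * η) :
    P - (P + 4) * η - D ≤ Λ * (1 - η) := by
  have h7 : η * Λ ≤ η * (P + 2 * η) := mul_le_mul_of_nonneg_left h6 hη0
  nlinarith

private theorem n_up {P η : ℝ} (hη0 : 0 ≤ η) (hη1 : η ≤ 1) : (1 + η) * (P + 2 * η) ≤ P + η * (P + 4) := by
  nlinarith

private theorem n_div {l q η : ℝ} (hl : 0 ≤ l) (hq : 0 < q) (hη0 : 0 ≤ η) (hη1 : η ≤ 1) (h : q ≤ 1 + η) : l * (1 - η) ≤ l / q := by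
  rw [le_div_iff₀ hq]
  have h6 : (1 - η) * q ≤ 1 := by nlinarith
  calc l * (1 - η) * q = l * ((1 - η) * q) := by ring
    _ ≤ l * 1 := by gcongr
    _ = l := mul_one _

open Classical in
/-- two-sided bound -/
theorem eqs_two (hS : ArcSS) (M : ℕ) (hM : 0 < M) (c : ℝ) (hc : CopC M c) (γ : Q4) (hγ : γ.a * γ.d ≡ γ.b * γ.c + 1 [MOD M])
    (p1 p2 w1 w2 : ℝ) (hp : p1 ≤ p2) (hw : w1 ≤ w2) (ε : ℝ) (hε : 0 < ε) :
    ∀ᶠ x : ℝ in atTop,
      (2 * c / M * (w2 - w1)) * (p2 - p1) * x - ε * x ≤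
        (((SN 1 x).filter (fun e => cq M e γ ∧ (p1 ≤ pS e ∧ pS e < p2) ∧ (w1 ≤ wS e ∧ wS e < w2))).card : ℝ) ∧
      (((SN 1 x).filter (fun e => cq M e γ ∧ (p1 ≤ pS e ∧ pS e < p2) ∧ (w1 ≤ wS e ∧ wS e < w2))).card : ℝ) ≤
        (2 * c / M * (w2 - w1)) * (p2 - p1) * x + ε * x := by
  have hc0 := copC_nonneg M c hc
  have hM' : (0 : ℝ) < M := by exact_mod_cast hM
  obtain ⟨K, hK, hlft⟩ := lft p1 p2 w1 w2
  set k : ℝ := 2 * c / M * (w2 - w1) with hk
  have hk0 : 0 ≤ k := mul_nonneg (by positivity) (by linarith)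
  set P : ℝ := p2 - p1 with hP
  have hP0 : 0 ≤ P := by linarith
  set C : ℝ := (1 + Real.exp p2) ^ 2 * Real.exp (-p1) with hC
  have hC0 : 0 < C := by positivity
  -- parameters
  obtain ⟨η, hη0, hη1, hηD⟩ := n_eta hk0 hP0 hε
  obtain ⟨δ, hδ0, hδ1, hδ2⟩ := n_delta hK hk0 hC0 hε
  set S0 : ℕ := ⌈32 * (M : ℝ) / η⌉₊ + 2 with hS0
  have hS2 : 2 ≤ S0 := by omega
  have hSη : 32 * (M : ℝ) / η ≤ S0 := by
    refine (Nat.le_ceil _).trans ?_
    have : ⌈32 * (M : ℝ) / η⌉₊ ≤ S0 := by omega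
    exact_mod_cast this
  have hS0' : (0 : ℝ) < S0 := by exact_mod_cast (by omega : 0 < S0)
  have hy1 : ∀ S : ℕ, S0 ≤ S → (M : ℝ) / S ≤ η / 32 := by
    intro S hS
    have hSS : (S0 : ℝ) ≤ S := by exact_mod_cast hS
    have hS' : (0 : ℝ) < S := lt_of_lt_of_le hS0' hSS
    rw [div_le_div_iff₀ hS' (by norm_num)]
    rw [div_le_iff₀ hη0] at hSη
    have := mul_le_mul_of_nonneg_right hSS hη0.le
    linarith
  have hy : ∀ S : ℕ, S0 ≤ S → (1 + (M : ℝ) / S) ^ 4 ≤ 1 + η := by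
    intro S hS
    exact n_four (by positivity) (hy1 S hS) hη1
  obtain ⟨A, L, hA, hAd, hL, hcov, hsum⟩ := cover M S0 hM hS2 δ hδ0 1 ⟨0, 1⟩ eqs_fr_one
  have hA2 : ∀ a ∈ A, Fr a.1 a.2.1 ∧ 2 ≤ a.2.2 := fun a ha => ⟨(hA a ha).1, hS2.trans (hA a ha).2.1⟩
  have hlam : ∀ a ∈ A, lam M a ≤ η / 32 := by
    intro a ha
    obtain ⟨u, v, S⟩ := a
    exact (lam_le (hA2 _ ha).1 (hA2 _ ha).2).trans (hy1 S (hA _ ha).2.1)
  have hcovP : ∀ V : G, Pos V → (∃ a ∈ A, V ∈ arc a.1 a.2.1 a.2.2 M) ∨ ∃ l ∈ L, V ∈ cone l.1 l.2 :=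
    fun V hV => hcov V (eqs_cone hV)
  set Ap := A.filter (fun a => (Ia M a ∩ Set.Icc p1 p2).Nonempty) with hAp
  set Am := A.filter (fun a => Ia M a ⊆ Set.Ico p1 p2) with hAm
  have hup : ∑ a ∈ Ap, lam M a ≤ P + 2 * η :=
    sum_upper A hA2 hAd hη0.le (fun a ha => (hlam a ha).trans (by linarith)) hp
  have hlo : P - 2 * η ≤ ∑ a ∈ Am, lam M a + C * ∑ l ∈ L, (1 / ((ll l.1 : ℝ) * ll l.2)) :=
    sum_lower A L hA2 hL hcovP hη0 (fun a ha => lt_of_le_of_lt (hlam a ha) (by linarith))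
  have hsub : Am ⊆ Ap := by
    intro a ha
    obtain ⟨h1, h2⟩ := mem_filter.1 ha
    refine mem_filter.2 ⟨h1, ?_⟩
    have h3 : dl (((a.2.2 : ℤ) : G) * a.1 + a.2.1) ∈ Ia M a := Set.left_mem_uIcc
    have h4 := h2 h3
    exact ⟨_, h3, h4.1, h4.2.le⟩
  have hAmAp : ∑ a ∈ Am, lam M a ≤ P + 2 * η :=
    (Finset.sum_le_sum_of_subset_of_nonneg hsub (fun a _ _ => lam_nonneg M a)).trans hup
  -- counting functions
  set Fa : G × G × ℕ → ℝ → ℝ := fun a x =>
    (((SN 1 x).filter (fun e => cq M e γ ∧ (⟨(e.a : ℤ), (e.b : ℤ)⟩ : G) ∈ arc a.1 a.2.1 a.2.2 M ∧ w1 ≤ wS e ∧ wS e < w2)).card : ℝ) with hFa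
  set Fl : G × G → ℝ → ℝ := fun l x =>
    (((SN 1 x).filter (fun e => rw1 e ∈ cone l.1 l.2 ∧ (p1 ≤ pS e ∧ pS e < p2) ∧ (w1 ≤ wS e ∧ wS e < w2))).card : ℝ) with hFl
  set F : ℝ → ℝ := fun x =>
    (((SN 1 x).filter (fun e => cq M e γ ∧ (p1 ≤ pS e ∧ pS e < p2) ∧ (w1 ≤ wS e ∧ wS e < w2))).card : ℝ) with hF
  have hUpper : ∀ x, F x ≤ ∑ a ∈ Ap, Fa a x + ∑ l ∈ L, Fl l x := by
    intro x
    have h1 : (SN 1 x).filter (fun e => cq M e γ ∧ (p1 ≤ pS e ∧ pS e < p2) ∧ (w1 ≤ wS e ∧ wS e < w2)) ⊆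
        (Ap.biUnion (fun a => (SN 1 x).filter (fun e => cq M e γ ∧ (⟨(e.a : ℤ), (e.b : ℤ)⟩ : G) ∈ arc a.1 a.2.1 a.2.2 M ∧ w1 ≤ wS e ∧ wS e < w2))) ∪
        (L.biUnion (fun l => (SN 1 x).filter (fun e => rw1 e ∈ cone l.1 l.2 ∧ (p1 ≤ pS e ∧ pS e < p2) ∧ (w1 ≤ wS e ∧ wS e < w2)))) := by
      intro e he
      obtain ⟨h2, h3, h4, h5⟩ := mem_filter.1 he
      have hpos := pos_rw1 (mem_SN.1 h2).1
      rw [mem_union, mem_biUnion, mem_biUnion]
      rcases hcovP _ hpos with ⟨a, ha, h6⟩ | ⟨l, hl, h6⟩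
      · left
        refine ⟨a, mem_filter.2 ⟨ha, dl (rw1 e), arc_dl (hA2 a ha).1 (hA2 a ha).2 hpos h6, ?_⟩, ?_⟩
        · rw [dl_rw1]
          exact ⟨h4.1, h4.2.le⟩
        · exact mem_filter.2 ⟨h2, h3, h6, h5⟩
      · right
        exact ⟨l, hl, mem_filter.2 ⟨h2, h6, h4, h5⟩⟩
    have h2 := (card_le_card h1).trans ((card_union_le _ _).trans (add_le_add card_biUnion_le card_biUnion_le))
    simp only [hF, hFa, hFl]
    exact_mod_cast h2
  have hLower : ∀ x, ∑ a ∈ Am, Fa a x ≤ F x := by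
    intro x
    have h1 : Am.biUnion (fun a => (SN 1 x).filter (fun e => cq M e γ ∧ (⟨(e.a : ℤ), (e.b : ℤ)⟩ : G) ∈ arc a.1 a.2.1 a.2.2 M ∧ w1 ≤ wS e ∧ wS e < w2)) ⊆
        (SN 1 x).filter (fun e => cq M e γ ∧ (p1 ≤ pS e ∧ pS e < p2) ∧ (w1 ≤ wS e ∧ wS e < w2)) := by
      intro e he
      obtain ⟨a, ha, he⟩ := mem_biUnion.1 he
      obtain ⟨h2, h3, h4, h5⟩ := mem_filter.1 he
      obtain ⟨h6, h7⟩ := mem_filter.1 ha
      have hpos := pos_rw1 (mem_SN.1 h2).1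
      have h8 := h7 (arc_dl (hA2 a h6).1 (hA2 a h6).2 hpos h4)
      rw [dl_rw1] at h8
      exact mem_filter.2 ⟨h2, h3, h8, h5⟩
    have h2 := card_le_card h1
    rw [card_biUnion] at h2
    · simp only [hF, hFa]
      exact_mod_cast h2
    · intro a ha a' ha' hne
      show Disjoint _ _
      rw [Finset.disjoint_left]
      intro e he he'
      exact Set.disjoint_left.1 (hAd a (mem_filter.1 ha).1 a' (mem_filter.1 ha').1 hne)
        (mem_filter.1 he).2.2.1 (mem_filter.1 he').2.2.1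
  -- asymptotics in the arcs
  set e1 : ℝ := ε / (8 * (A.card + 1)) with he1
  have he1' : 0 < e1 := by positivity
  have hev : ∀ᶠ x : ℝ in atTop, ∀ a ∈ A,
      k * lam M a / (1 + (M : ℝ) / a.2.2) ^ 4 * x - e1 * x ≤ Fa a x ∧
      Fa a x ≤ k * lam M a * (1 + (M : ℝ) / a.2.2) ^ 4 * x + e1 * x := by
    rw [eventually_all_finset]
    intro a ha
    obtain ⟨x0, hx0⟩ := hS M hM c hc γ hγ a.1 a.2.1 (hA2 a ha).1 a.2.2 (hA2 a ha).2 w1 w2 hw e1 he1'
    filter_upwards [eventually_ge_atTop x0] with x hx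
    exact hx0 x hx
  set e2 : ℝ := ε / (8 * K * (L.card + 1)) with he2
  have he2' : 0 < e2 := by positivity
  filter_upwards [hev, eqs_sqrt e2 he2', eventually_ge_atTop 1] with x hx hsq hx1
  have hx0 : 0 < x := by linarith
  have hAc : (0 : ℝ) < (A.card : ℝ) + 1 := by positivity
  have hbnd : ∀ B : Finset (G × G × ℕ), B ⊆ A → (B.card : ℝ) * e1 ≤ ε / 8 := by
    intro B hB
    have h1 : (B.card : ℝ) ≤ A.card := by exact_mod_cast card_le_card hB
    exact n_card h1 (by positivity) hε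
  have hkx : 0 ≤ k * x := by positivity
  constructor
  · refine le_trans ?_ (hLower x)
    have h1 : ∑ a ∈ Am, (k * x * (lam M a * (1 - η)) - e1 * x) ≤ ∑ a ∈ Am, Fa a x := by
      refine sum_le_sum fun a ha => ?_
      have haA := (mem_filter.1 ha).1
      refine le_trans ?_ (hx a haA).1
      have h2 := hy a.2.2 (hA a haA).2.1
      have h3 : 0 < (1 + (M : ℝ) / a.2.2) ^ 4 := by positivity
      have h4 : lam M a * (1 - η) ≤ lam M a / (1 + (M : ℝ) / a.2.2) ^ 4 :=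
        n_div (lam_nonneg M a) h3 hη0.le hη1 h2
      have h8 : k * x * (lam M a * (1 - η)) ≤ k * x * (lam M a / (1 + (M : ℝ) / a.2.2) ^ 4) := by gcongr
      have h9 : k * x * (lam M a / (1 + (M : ℝ) / a.2.2) ^ 4) = k * lam M a / (1 + (M : ℝ) / a.2.2) ^ 4 * x := by ring
      linarith
    refine le_trans ?_ h1
    rw [sum_sub_distrib, ← mul_sum, ← sum_mul, sum_const, nsmul_eq_mul]
    have h2 := hbnd Am (filter_subset _ _)
    have h3 : (Am.card : ℝ) * (e1 * x) ≤ ε / 8 * x := by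
      rw [← mul_assoc]
      gcongr
    have h4 : P - 2 * η - C * δ ≤ ∑ a ∈ Am, lam M a := by
      have h5 := mul_le_mul_of_nonneg_left hsum hC0.le
      linarith
    set Λ := ∑ a ∈ Am, lam M a with hΛ
    have h5 : P - (P + 4) * η - C * δ ≤ Λ * (1 - η) := n_lo hη0.le hη1 h4 hAmAp
    have h6 := mul_le_mul_of_nonneg_left h5 hkx
    have h7 : k * η * (P + 4) * x ≤ ε / 8 * x := by gcongr
    have h8 : k * (C * δ) * x ≤ ε / 8 * x := by gcongr
    have h9 : k * x * (P - (P + 4) * η - C * δ) = k * P * x - k * η * (P + 4) * x - k * (C * δ) * x := by ring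
    have h10 : 0 ≤ ε * x := by positivity
    linarith
  · refine (hUpper x).trans ?_
    have h1 : ∑ a ∈ Ap, Fa a x ≤ ∑ a ∈ Ap, (k * x * (1 + η) * lam M a + e1 * x) := by
      refine sum_le_sum fun a ha => ?_
      have haA := (mem_filter.1 ha).1
      refine (hx a haA).2.trans ?_
      have h2 := hy a.2.2 (hA a haA).2.1
      have h5 := lam_nonneg M a
      have h6 : k * x * lam M a * (1 + (M : ℝ) / a.2.2) ^ 4 ≤ k * x * lam M a * (1 + η) := by gcongr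
      linarith
    have h2 : ∑ l ∈ L, Fl l x ≤ ∑ l ∈ L, K * (x * (1 / ((ll l.1 : ℝ) * ll l.2)) + (Real.sqrt x + 1)) := by
      refine sum_le_sum fun l hl => (hlft l.1 l.2 (hL l hl) x hx1).trans (le_of_eq ?_)
      ring
    refine (add_le_add h1 h2).trans ?_
    rw [sum_add_distrib, ← mul_sum, sum_const, nsmul_eq_mul, ← mul_sum, sum_add_distrib, ← mul_sum, sum_const, nsmul_eq_mul]
    have h3 := hbnd Ap (filter_subset _ _)
    have h4 : (Ap.card : ℝ) * (e1 * x) ≤ ε / 8 * x := by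
      rw [← mul_assoc]
      gcongr
    have h5 : k * x * (1 + η) * ∑ a ∈ Ap, lam M a ≤ k * x * (1 + η) * (P + 2 * η) := by gcongr
    have h6 : k * η * (P + 4) * x ≤ ε / 8 * x := by gcongr
    have h7 : k * x * (1 + η) * (P + 2 * η) ≤ k * P * x + k * η * (P + 4) * x := by
      have h8 : (1 + η) * (P + 2 * η) ≤ P + η * (P + 4) := n_up hη0.le hη1
      have h9 := mul_le_mul_of_nonneg_left h8 hkx
      linarith
    have h8 : K * (x * ∑ l ∈ L, (1 / ((ll l.1 : ℝ) * ll l.2))) ≤ ε / 8 * x := by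
      calc K * (x * ∑ l ∈ L, (1 / ((ll l.1 : ℝ) * ll l.2))) ≤ K * (x * δ) := by gcongr
        _ = (K * δ) * x := by ring
        _ ≤ ε / 8 * x := by gcongr
    have h9 : K * ((L.card : ℝ) * (Real.sqrt x + 1)) ≤ ε / 8 * x := by
      calc K * ((L.card : ℝ) * (Real.sqrt x + 1)) ≤ K * ((L.card : ℝ) * (e2 * x)) := by gcongr
        _ = (K * L.card * e2) * x := by ring
        _ ≤ ε / 8 * x := by
          exact mul_le_mul_of_nonneg_right (n_cardK hK (by positivity) hε) hx0.le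
    rw [mul_add]
    have : 0 ≤ ε * x := by positivity
    linarith

end EqsAux

open EqsAux

open Classical in
/-- PROOF. Let `c` be from `cop_asymp M`, `c ≥ 0` (`copC_nonneg`), `κ = 2 c / M`. Fix `γ, p1 ≤ p2, w1 ≤ w2`, `η > 0`. Choose `S0 ≥ 2` with `(1 + M/S0)^4 ≤ 1 + η` and `M / S0 ≤ η`. For an arc `(u, v, S)`, `S ≥ S0`, in the quadrant with `z0 = S u + v`, `z1 = (S+M) u + v`
its interval is `[dl z0, dl z1]` (or reversed) of length `λ ≤ M/(re z0 im z0) ≤ M/S ≤ η` (`re z0 im z0 ≥ S`: both coordinates are `≥ 1`, one is `≥ S`); for `V` in the arc `dl V` is in the interval.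
`cover M S0 δ` for the frame `(1, i)` gives disjoint arcs `A` and a leftover `L`. Every `V = ⟨a, b⟩` with `a, b > 0` is in `cone 1 i`.
UPPER: the matrices with `p1 ≤ pS < p2` have `V` in an arc whose interval meets `[p1, p2]` or in a leftover cone. The intervals of the arcs meeting `[p1, p2]` lie in `[p1 - η, p2 + η]` and do not overlap (a common interior point would give a common open interval, a rational direction in both, contradicting disjointness), so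
`∑ λ ≤ p2 - p1 + 2 η`; `arcS` gives at most `κ (w2 - w1)(1 + η)(p2 - p1 + 2 η) x + ε x`. Leftover: `left` with `s = 2 w1 - 2`, `t = 2 w2 + 2` and the bound `dot ≤ C x` (for `p1 ≤ pS < p2`, `b c ≤ x`: `dot = a c + b d ≤ C(p1, p2) b c + ..`; all but finitely many matrices satisfy the conditions on `nm V'/nm V`, compare the proof of
`arcS`): at most `C' x ∑_L 1/(ll u ll v) + o(x) ≤ C' δ x + o(x)`.
LOWER: the arcs whose interval is contained in `[p1, p2)`: `arcS` from below; needed: `∑ λ ≥ p2 - p1 - 2 η - C'' δ`. The closed intervals of all arcs and of the leftover cones cover `[p1, p2]` (they cover all rational directions, and finitely many closed sets). In the coordinate `τ = im / (re + im) ∈ [0, 1]` a frame `(u, v)` has length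
exactly `1/(ll u ll v)` (`|det u v| = 1`), and `dl = log (τ/(1-τ))` has derivative `1/(τ (1-τ)) ≤ C''` on the part between `p1` and `p2`. So the leftover cones cover at most `C'' δ` of `[p1, p2]`, the arcs meeting `[p1, p2]` but not contained in it at most `2 η` (measure subadditivity, `Real.volume_Icc`).
Let first `x → ∞`, then `δ, ε, η → 0`. -/
theorem eqS' (hS : ArcSS) (M : ℕ) (hM : 0 < M) : ∃ κ : ℝ, 0 ≤ κ ∧ ∀ γ : Q4, γ.a * γ.d ≡ γ.b * γ.c + 1 [MOD M] →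
    ∀ p1 p2 w1 w2 : ℝ, p1 ≤ p2 → w1 ≤ w2 →
    Tendsto (fun x : ℝ => (((SN 1 x).filter (fun e => cq M e γ ∧ (p1 ≤ pS e ∧ pS e < p2) ∧
      (w1 ≤ wS e ∧ wS e < w2))).card : ℝ) / x) atTop (nhds (κ * (p2 - p1) * (w2 - w1))) := by
  obtain ⟨c, hc⟩ := cop_asymp M hM
  have hc0 := copC_nonneg M c hc
  refine ⟨2 * c / M, by positivity, ?_⟩
  intro γ hγ p1 p2 w1 w2 hp hw
  rw [Metric.tendsto_atTop]
  intro ε hε
  obtain ⟨x1, hx1⟩ := eventually_atTop.mp
    ((eqs_two hS M hM c hc γ hγ p1 p2 w1 w2 hp hw (ε / 2) (by positivity)).and (eventually_gt_atTop 0))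
  refine ⟨x1, fun x hx => ?_⟩
  obtain ⟨⟨h1, h2⟩, h3⟩ := hx1 x hx
  rw [Real.dist_eq, abs_lt]
  constructor
  · have h4 : (2 * c / M * (w2 - w1)) * (p2 - p1) - ε / 2 ≤
        (((SN 1 x).filter (fun e => cq M e γ ∧ (p1 ≤ pS e ∧ pS e < p2) ∧ (w1 ≤ wS e ∧ wS e < w2))).card : ℝ) / x := by
      rw [le_div_iff₀ h3]
      linarith
    linarith
  · have h4 : (((SN 1 x).filter (fun e => cq M e γ ∧ (p1 ≤ pS e ∧ pS e < p2) ∧ (w1 ≤ wS e ∧ wS e < w2))).card : ℝ) / x ≤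
        (2 * c / M * (w2 - w1)) * (p2 - p1) + ε / 2 := by
      rw [div_le_iff₀ h3]
      linarith
    linarith

end Pool.Agent.Spl
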