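import Pool.Agent.Lib_MP_92ef0c_sp.EqArc
import Pool.Agent.Lib_MP_92ef0c_sp.EqArcB1
import Pool.Agent.Lib_MP_92ef0c_sp.EqArcB2
import Pool.Agent.Lib_MP_92ef0c_sp.EqS
import Pool.Agent.Lib_MP_92ef0c_sp.EqK

/-!
# Equidistribution in sectors, final form
-/

set_option autoImplicit false

namespace Pool.Agent.Spl

open Finset Pool.Agent.GaussMR Pool.Agent.OmAll Pool.Agent.OmEq Filter MeasureTheory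

open Classical in
theorem eqS (M : ℕ) (hM : 0 < M) : ∃ κ : ℝ, 0 ≤ κ ∧ ∀ γ : Q4, γ.a * γ.d ≡ γ.b * γ.c + 1 [MOD M] →
    ∀ p1 p2 w1 w2 : ℝ, p1 ≤ p2 → w1 ≤ w2 →
    Tendsto (fun x : ℝ => (((SN 1 x).filter (fun e => cq M e γ ∧ (p1 ≤ pS e ∧ pS e < p2) ∧
      (w1 ≤ wS e ∧ wS e < w2))).card : ℝ) / x) atTop (nhds (κ * (p2 - p1) * (w2 - w1))) :=
  eqS' (arcS' EqArc.upper_set EqArc.lower_set) M hM

open Classical in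
theorem eqK (M : ℕ) (hM : 0 < M) : ∃ κ : ℝ, 0 ≤ κ ∧
    (∀ γ : Q4, γ.a * γ.d ≡ γ.b * γ.c + 1 [MOD M] → ∀ p1 p2 w1 w2 : ℝ, p1 ≤ p2 → w1 ≤ w2 →
      Tendsto (fun x : ℝ => (((SN 1 x).filter (fun e => cq M e γ ∧ (p1 ≤ pS e ∧ pS e < p2) ∧
        (w1 ≤ wS e ∧ wS e < w2))).card : ℝ) / x) atTop (nhds (κ * (p2 - p1) * (w2 - w1)))) ∧
    ∀ n l : ℕ, 0 < n → l < n → l.Coprime n →
    ∀ γ : Q4, γ.a * γ.d ≡ γ.b * γ.c + 1 [MOD M] → ∀ (b : ℝ) (Ψ : ℝ → ℝ → ℝ → ℝ), TR b Ψ →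
    Tendsto (fun X : ℝ => (∑ e ∈ (SN n (b * X)).filter (fun e => lc n l e ∧ cq M (dn n l e) γ),
      Ψ (yS e / X) (tS e) (uS e)) / X) atTop (nhds (κ / (2 * n) * ∫ y, ∫ t, ∫ u, Ψ y t u)) :=
  eqK' eqS M hM

end Pool.Agent.Spl
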