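import Pool.Agent.Lib_MP_92ef0c_sp.EqDefs
import Pool.Agent.Lib_MP_f1a94e_aq.Arc

/-!
# The statements of `arcS` and `eqS` (only to keep the import graph flat)
-/

set_option autoImplicit false

namespace Pool.Agent.Spl

open Finset Pool.Agent.GaussMR Pool.Agent.OmAll Pool.Agent.OmEq Filter

open Classical in
/-- the statement of `arcS` -/
def ArcSS : Prop :=
  ∀ (M : ℕ) (hM : 0 < M) (c : ℝ) (hc : CopC M c) (γ : Q4) (hγ : γ.a * γ.d ≡ γ.b * γ.c + 1 [MOD M])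
    (u v : G) (huv : Fr u v) (S : ℕ) (hS : 2 ≤ S) (w1 w2 : ℝ) (hw : w1 ≤ w2) (ε : ℝ) (hε : 0 < ε),
    ∃ x0 : ℝ, ∀ x : ℝ, x0 ≤ x →
      2 * c / M * (w2 - w1) * |dl ((((S : ℤ) + M : ℤ) : G) * u + v) - dl (((S : ℤ) : G) * u + v)| / (1 + (M : ℝ) / S) ^ 4 * x - ε * x ≤
        (((SN 1 x).filter (fun e => cq M e γ ∧ (⟨(e.a : ℤ), (e.b : ℤ)⟩ : G) ∈ arc u v S M ∧ w1 ≤ wS e ∧ wS e < w2)).card : ℝ) ∧
      (((SN 1 x).filter (fun e => cq M e γ ∧ (⟨(e.a : ℤ), (e.b : ℤ)⟩ : G) ∈ arc u v S M ∧ w1 ≤ wS e ∧ wS e < w2)).card : ℝ) ≤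
        2 * c / M * (w2 - w1) * |dl ((((S : ℤ) + M : ℤ) : G) * u + v) - dl (((S : ℤ) : G) * u + v)| * (1 + (M : ℝ) / S) ^ 4 * x + ε * x

open Classical in
/-- the statement of `eqS` -/
def EqSS : Prop :=
  ∀ (M : ℕ) (hM : 0 < M), ∃ κ : ℝ, 0 ≤ κ ∧ ∀ γ : Q4, γ.a * γ.d ≡ γ.b * γ.c + 1 [MOD M] →
    ∀ p1 p2 w1 w2 : ℝ, p1 ≤ p2 → w1 ≤ w2 →
    Tendsto (fun x : ℝ => (((SN 1 x).filter (fun e => cq M e γ ∧ (p1 ≤ pS e ∧ pS e < p2) ∧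
      (w1 ≤ wS e ∧ wS e < w2))).card : ℝ) / x) atTop (nhds (κ * (p2 - p1) * (w2 - w1)))

end Pool.Agent.Spl
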