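import Pool.Agent.Lib_MP_92ef0c_sp.SDefs
import Pool.Agent.Lib_MP_92ef0c_sp.EqF
import Pool.Agent.Lib_MP_92ef0c_sp.Riem3

/-!
# Weak equidistribution for determinant 1, the mass is positive
-/

set_option autoImplicit false

namespace Pool.Agent.Spl

open Finset Pool.Agent.GaussMR Pool.Agent.OmAll Pool.Agent.OmEq Filter MeasureTheory

open Classical in
/-- PROOF. `riem3` with `A e = Sn 1 e ∧ cq M e γ`, `S x = (SN 1 x).filter (cq M · γ)` (`mem_SN`), `m = yS`, `p = pS`, `w = wS`, `eqS M`. -/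
theorem eqW (M : ℕ) (hM : 0 < M) : ∃ κ : ℝ, 0 ≤ κ ∧ ∀ γ : Q4, γ.a * γ.d ≡ γ.b * γ.c + 1 [MOD M] →
    ∀ (b : ℝ) (Ψ : ℝ → ℝ → ℝ → ℝ), TR b Ψ →
    Tendsto (fun X : ℝ => (∑ e ∈ (SN 1 (b * X)).filter (fun e => cq M e γ), Ψ (yS e / X) (pS e) (wS e)) / X) atTop
      (nhds (κ * ∫ y, ∫ p, ∫ w, Ψ y p w)) := by
  obtain ⟨κ, hκ, h⟩ := eqS M hM
  refine ⟨κ, hκ, fun γ hγ b Ψ hΨ => ?_⟩
  refine riem3 (fun e => Sn 1 e ∧ cq M e γ) (fun x => (SN 1 x).filter (fun e => cq M e γ)) yS pS wS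
    ?_ ?_ κ hκ ?_ Ψ hΨ.cont hΨ.supp hΨ.lo b hΨ.hi
  · intro x e
    simp only [mem_filter, mem_SN]
    tauto
  · intro e he
    linarith [yS_pos he.1]
  · intro p1 p2 w1 w2 hp hw
    refine (h γ hγ p1 p2 w1 w2 hp hw).congr fun x => ?_
    simp only [filter_filter]

end Pool.Agent.Spl
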