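import Pool.Agent.Lib_MP_92ef0c_sp.Apx3
import Pool.Agent.Lib_MP_92ef0c_sp.ApxN3
import Pool.Agent.Lib_MP_92ef0c_sp.PsiK

/-!
# Stage A: `ω ω' ≠ 1`
-/

set_option autoImplicit false

namespace Pool.Agent.Spl

open Finset Pool.Agent.GaussMR Pool.Agent.OmAll Pool.Agent.OmEq MeasureTheory Filter

open Classical in
/-- PROOF. `pairA` with `n h0` in place of `n`, `M = n Q` (`(n h0).primeFactors ⊆ (n Q).primeFactors` as `h0 ∣ Q`), `ψ = psk n Q n0` (`cz_psk`), `f1 = f`, `f4 = cj g` (`MF.cj'`), `ω1 conj ω4 = ω ω' ≠ 1`. -/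
theorem gram3 (h0 Q n0 : ℕ) (hQ : HQ h0 Q n0) (n : ℕ) (hn : 0 < n) (E : Finset ℕ) (f g : ℕ → ℂ) (ω ω' : ℂ) (hf : MF f E ω)
    (hg : MF g E ω') (hω : ‖ω‖ = 1) (hω' : ‖ω'‖ = 1) (hne : ω * ω' ≠ 1) (b : ℝ) (W : ℝ → ℝ → ℝ → ℂ) (hW : TS b W) :
    Tendsto (fun X : ℝ => (∑ e ∈ (SN (n * h0) (b * X)).filter (kap3 n Q n0), F4 f g (cj f) (cj g) e *
      W (yS e / X) (tS e) (uS e)) / X) atTop (nhds 0) := by
  have hnQ : n * Q ≠ 0 := (Nat.mul_pos hn hQ.posQ).ne'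
  haveI : NeZero (n * Q) := ⟨hnQ⟩
  have hsub : (n * h0).primeFactors ⊆ (n * Q).primeFactors :=
    Nat.primeFactors_mono (Nat.mul_dvd_mul_left n hQ.dvd) hnQ
  have key := pairA (n * h0) (n * Q) (Nat.mul_pos hn hQ.pos) hsub E f g (cj f) (cj g) ω
    ((starRingEnd ℂ) ω') hf hg.bd (fun m => by rw [norm_cj]; exact hf.bd m) hg.cj' hω
    (by rw [RCLike.norm_conj]; exact hω') (psk n Q n0) (psk_le n Q n0) b W hW
    (Or.inl (by rw [Complex.conj_conj]; exact hne))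
  refine key.congr (fun X => ?_)
  congr 1
  rw [Finset.sum_filter]
  refine Finset.sum_congr rfl (fun e _ => ?_)
  rw [cz_psk n Q n0 hn hQ.posQ e]
  by_cases hk : kap3 n Q n0 e
  · rw [if_pos hk, if_pos hk, mul_one]
  · rw [if_neg hk, if_neg hk, mul_zero, zero_mul]

/-- PROOF. As `gm_small_of_ne` (`Lib_MP_f1a94e_eq/GmA.lean`): `N0 = J0 = 1`, for each `n ≤ N` `apxN3` with `b = (J+N)^2 (h0+1) h2` and `gram3` for `WN3 h J N n` (`WN3_ts`); finite sum of limits. (`N = 0` trivial with `N0 = 1`.) -/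
theorem gm_small_A3 (h0 Q n0 : ℕ) (hQ : HQ h0 Q n0) (E : Finset ℕ) (f g : ℕ → ℂ) (ω ω' : ℂ) (hf : MF f E ω)
    (hg : MF g E ω') (hω : ‖ω‖ = 1) (hω' : ‖ω'‖ = 1) (hne : ω * ω' ≠ 1) : GmSmall3 h0 Q n0 f g := by
  classical
  intro h' h1 h2 hh ε hε
  refine ⟨1, fun N hN => ⟨1, fun J hJ => ?_⟩⟩
  have h2one : (1 : ℝ) ≤ h2 := hh.one
  have hJ1 : (1 : ℝ) ≤ J := by exact_mod_cast hJ
  have hN1 : (1 : ℝ) ≤ N := by exact_mod_cast hN
  have hh0 : (0 : ℝ) ≤ h0 := Nat.cast_nonneg h0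
  set b : ℝ := ((J : ℝ) + N) ^ 2 * (h0 + 1) * h2 with hb
  have hb0 : 0 < b := by
    rw [hb]
    positivity
  have hbge : ((J : ℝ) + N) ^ 2 * h2 ≤ b := by
    rw [hb]
    have : 0 ≤ ((J : ℝ) + N) ^ 2 * h0 * h2 := by positivity
    nlinarith [this]
  have hlim : ∀ n ∈ Icc 1 N, Tendsto (fun X : ℝ => Gm3 h0 Q n0 f g h' J N n (b * X) X / X) atTop (nhds 0) := by
    intro n hn
    have hn1 : 1 ≤ n := (mem_Icc.mp hn).1
    have e1 := apxN3 h0 Q n0 hQ.pos f g hf.bd hg.bd h' h1 h2 hh J N n hJ hN hn1 b hb0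
    have e2 := gram3 h0 Q n0 hQ n hn1 E f g ω ω' hf hg hω hω' hne b (WN3 h' J N n)
      (WN3_ts h' h1 h2 hh J N n hJ hN hn1 b hbge)
    have e3 := e1.add e2
    rw [add_zero] at e3
    refine e3.congr (fun X => ?_)
    ring
  have hsum := tendsto_finsetSum (Icc 1 N) hlim
  rw [Finset.sum_const_zero] at hsum
  have hev := (Metric.tendsto_nhds.mp hsum) ε hε
  filter_upwards [hev, eventually_gt_atTop (0 : ℝ)] with X hX hX0
  rw [dist_zero_right, ← Finset.sum_div, norm_div, Complex.norm_real, Real.norm_eq_abs, abs_of_pos hX0,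
    div_lt_iff₀ hX0] at hX
  have hN2 : (1 : ℝ) ≤ (N : ℝ) ^ 2 := one_le_pow₀ hN1
  calc ‖∑ n ∈ Icc 1 N, Gm3 h0 Q n0 f g h' J N n (b * X) X‖ ≤ ε * X := hX.le
    _ ≤ ε * N ^ 2 * X := by
      have : ε * 1 * X ≤ ε * (N : ℝ) ^ 2 * X := by gcongr
      linarith

end Pool.Agent.Spl
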