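import Pool.Agent.Lib_MP_92ef0c_sp.SDefs0
import Pool.Agent.Lib_MP_f1a94e_eq.BDefs
import Pool.Agent.Lib_MP_f1a94e_eq.FzD
import Pool.Agent.Lib_MP_f1a94e_eq.Np

/-!
# Restriction to numbers coprime to `Q`
-/

set_option autoImplicit false

namespace Pool.Agent.Spl

open Finset Pool.Agent.GaussMR Pool.Agent.OmAll Pool.Agent.OmEq MeasureTheory Filter

/-- as `fz_FF` in `Lib_MP_f1a94e_eq/FinE.lean` -/
theorem fz_MF (Q : ℕ) (hQ : 0 < Q) (z : ℂ) (hz : ‖z‖ = 1) : MF (fz Q z) Q.primeFactors z := by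
  refine ⟨?_, ?_, ?_⟩
  · intro m n
    unfold fz
    by_cases hm : m = 0
    · subst hm
      simp
    by_cases hn : n = 0
    · subst hn
      simp
    have hmn : m * n ≠ 0 := mul_ne_zero hm hn
    by_cases h1 : m.Coprime Q
    · by_cases h2 : n.Coprime Q
      · have h3 : (m * n).Coprime Q := Nat.Coprime.mul_left h1 h2
        rw [if_neg (by tauto), if_neg (by tauto), if_neg (by tauto),
          ArithmeticFunction.cardFactors_mul hm hn, pow_add]
      · have h3 : ¬ (m * n).Coprime Q := fun h => h2 (Nat.Coprime.coprime_mul_left h)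
        rw [if_pos (Or.inr h3), if_pos (Or.inr h2), mul_zero]
    · have h3 : ¬ (m * n).Coprime Q := fun h => h1 (Nat.Coprime.coprime_mul_right h)
      rw [if_pos (Or.inr h3), if_pos (Or.inr h1), zero_mul]
  · intro n
    unfold fz
    split_ifs
    · rw [norm_zero]
      exact zero_le_one
    · rw [norm_pow, hz, one_pow]
  · intro p hp hpR
    unfold fz
    have h1 : p.Coprime Q := by
      rw [Nat.Prime.coprime_iff_not_dvd hp]
      intro h
      exact hpR (Nat.mem_primeFactors.2 ⟨hp, h, hQ.ne'⟩)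
    rw [if_neg]
    · rw [ArithmeticFunction.cardFactors_apply_prime hp, pow_one]
    · rintro (h | h)
      · exact hp.ne_zero h
      · exact h h1

/-- the sum over an arc is integrable, as a function of the position -/
theorem mrQ_int (f : ℕ → ℂ) (m : ℕ) (b : ℕ × ℕ) (C D δ : ℝ) :
    Integrable (fun τ => ‖Ss f m b C D δ τ‖ ^ 2) := by
  classical
  set A := (PB C D).filter (fun w => w.1 ≡ b.1 [MOD m] ∧ w.2 ≡ b.2 [MOD m]) with hA
  have e : ∀ τ, Ss f m b C D δ τ = ∑ w ∈ A, (Set.Ioc (dirn w - δ) (dirn w)).indicator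
      (fun _ => f w.1 * (starRingEnd ℂ) (f w.2)) τ := by
    intro τ
    unfold Ss
    rw [hA, ← filter_filter, sum_filter]
    apply sum_congr rfl
    intro w _
    rw [Set.indicator_apply]
    by_cases h : τ ≤ dirn w ∧ dirn w < τ + δ
    · rw [if_pos h, if_pos (Set.mem_Ioc.2 ⟨by linarith [h.2], h.1⟩)]
    · rw [if_neg h, if_neg]
      intro h2
      rw [Set.mem_Ioc] at h2
      exact h ⟨h2.2, by linarith [h2.1]⟩
  have hI : Integrable (fun τ => Ss f m b C D δ τ) := by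
    simp only [e]
    refine integrable_finsetSum _ fun w _ => ?_
    rw [integrable_indicator_iff measurableSet_Ioc]
    exact integrableOn_const (hs := by rw [Real.volume_Ioc]; exact ENNReal.ofReal_ne_top)
  have hb : ∀ τ, ‖Ss f m b C D δ τ‖ ≤ ∑ w ∈ A, ‖f w.1 * (starRingEnd ℂ) (f w.2)‖ := by
    intro τ
    rw [e]
    refine (norm_sum_le _ _).trans (sum_le_sum fun w _ => ?_)
    exact norm_indicator_le_norm_self _ _
  refine (hI.norm.const_mul (∑ w ∈ A, ‖f w.1 * (starRingEnd ℂ) (f w.2)‖)).mono'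
    (hI.norm.aestronglyMeasurable.pow 2) (Eventually.of_forall fun τ => ?_)
  rw [Real.norm_of_nonneg (by positivity), pow_two]
  exact mul_le_mul_of_nonneg_right (hb τ) (norm_nonneg _)

open Classical in
/-- decomposition into classes modulo `m Q` -/
theorem mrQ_dec (z : ℂ) {m Q : ℕ} (hm : 0 < m) (hQ : 0 < Q) (b : ℕ × ℕ) (C D δ τ : ℝ) :
    Ss (fz Q z) m b C D δ τ = ∑ b1 ∈ (range (m * Q) ×ˢ range (m * Q)).filter
      (fun w => (w.1 ≡ b.1 [MOD m] ∧ w.2 ≡ b.2 [MOD m]) ∧ w.1.Coprime Q ∧ w.2.Coprime Q),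
      Ss (fun n => z ^ ArithmeticFunction.cardFactors n) (m * Q) b1 C D δ τ := by
  have hM : 0 < m * Q := Nat.mul_pos hm hQ
  set L : ℕ → ℂ := fun n => z ^ ArithmeticFunction.cardFactors n with hL
  set A := (PB C D).filter (fun w => (w.1 ≡ b.1 [MOD m] ∧ w.2 ≡ b.2 [MOD m]) ∧ τ ≤ dirn w ∧ dirn w < τ + δ) with hA
  have h1 : Ss (fz Q z) m b C D δ τ = ∑ w ∈ A.filter (fun w => w.1.Coprime Q ∧ w.2.Coprime Q),
      L w.1 * (starRingEnd ℂ) (L w.2) := by
    unfold Ss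
    rw [sum_filter (s := A)]
    apply sum_congr rfl
    intro w hw
    rw [mem_filter, PB, mem_filter, mem_product, mem_Icc, mem_Icc] at hw
    obtain ⟨⟨⟨⟨h1, -⟩, ⟨h2, -⟩⟩, -⟩, -⟩ := hw
    by_cases hc : w.1.Coprime Q ∧ w.2.Coprime Q
    · rw [if_pos hc]
      unfold fz
      rw [if_neg, if_neg]
      · rintro (h | h)
        · omega
        · exact h hc.2
      · rintro (h | h)
        · omega
        · exact h hc.1
    · rw [if_neg hc]
      unfold fz
      by_cases h3 : w.1.Coprime Q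
      · have h4 : ¬ w.2.Coprime Q := fun h => hc ⟨h3, h⟩
        rw [if_pos (Or.inr h4), map_zero, mul_zero]
      · rw [if_pos (Or.inr h3), zero_mul]
  rw [h1]
  have hcop : ∀ x : ℕ, (x % (m * Q)).Coprime Q ↔ x.Coprime Q := by
    intro x
    have h2 : x % (m * Q) ≡ x [MOD Q] := (Nat.mod_modEq x (m * Q)).of_mul_left m
    unfold Nat.Coprime
    rw [h2.gcd_eq]
  rw [← sum_fiberwise_of_maps_to (g := fun w : ℕ × ℕ => (w.1 % (m * Q), w.2 % (m * Q)))
    (t := (range (m * Q) ×ˢ range (m * Q)).filter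
      (fun w => (w.1 ≡ b.1 [MOD m] ∧ w.2 ≡ b.2 [MOD m]) ∧ w.1.Coprime Q ∧ w.2.Coprime Q))]
  · apply sum_congr rfl
    intro b1 hb1
    rw [mem_filter, mem_product, mem_range, mem_range] at hb1
    obtain ⟨⟨hb2, hb3⟩, ⟨hb4, hb5⟩, hb6, hb7⟩ := hb1
    unfold Ss
    apply sum_congr _ (fun _ _ => rfl)
    ext w
    simp only [hA, mem_filter, Prod.ext_iff]
    have k1 : (w.1 % (m * Q) = b1.1) ↔ w.1 ≡ b1.1 [MOD m * Q] := by
      unfold Nat.ModEq
      rw [Nat.mod_eq_of_lt hb2]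
    have k2 : (w.2 % (m * Q) = b1.2) ↔ w.2 ≡ b1.2 [MOD m * Q] := by
      unfold Nat.ModEq
      rw [Nat.mod_eq_of_lt hb3]
    rw [k1, k2]
    constructor
    · rintro ⟨⟨⟨hw1, hw2, hw3⟩, hw4⟩, hw5⟩
      exact ⟨hw1, hw5, hw3⟩
    · rintro ⟨hw1, hw5, hw3⟩
      have k3 : w.1 ≡ b.1 [MOD m] := (hw5.1.of_mul_right Q).trans hb4
      have k4 : w.2 ≡ b.2 [MOD m] := (hw5.2.of_mul_right Q).trans hb5
      have k5 : w.1.Coprime Q := by
        rw [← hcop, k1.2 hw5.1]
        exact hb6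
      have k6 : w.2.Coprime Q := by
        rw [← hcop, k2.2 hw5.2]
        exact hb7
      exact ⟨⟨⟨hw1, ⟨k3, k4⟩, hw3⟩, k5, k6⟩, hw5⟩
  · intro w hw
    simp only [hA, mem_filter] at hw
    obtain ⟨⟨hw1, ⟨hw2, hw3⟩, -⟩, hw4, hw5⟩ := hw
    rw [mem_filter, mem_product, mem_range, mem_range]
    refine ⟨⟨Nat.mod_lt _ hM, Nat.mod_lt _ hM⟩, ⟨?_, ?_⟩, (hcop _).2 hw4, (hcop _).2 hw5⟩
    · exact ((Nat.mod_modEq w.1 (m * Q)).of_mul_right Q).trans hw2
    · exact ((Nat.mod_modEq w.2 (m * Q)).of_mul_right Q).trans hw3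

/-- PROOF. Compare `mrp_of_mro` (`Lib_MP_f1a94e_eq/MrpO.lean`), here without shift. Let `m > 0`, `M = m Q`. For positive `x, y`: `fz Q z x conj (fz Q z y)` is `z^Ω(x) conj (z^Ω(y))` if `x` and `y` are coprime to `Q`, otherwise `0`; so `Ss (fz Q z) m b C D δ τ = ∑_(b1) Ss (z^Ω) M b1 C D δ τ`, `b1` over the pairs in `[0, M)^2` with `b1 ≡ b mod m` and both
coordinates coprime to `Q` (the class of `(x, y) ∈ PB C D` modulo `M` is one of them iff `x ≡ b.1, y ≡ b.2 mod m` and `x, y` coprime to `Q`). At most `M^2` terms, `‖∑‖^2 ≤ M^2 ∑ ‖.‖^2`; `τ ↦ ‖Ss ..‖^2` is a bounded measurable function with compact support (finite sums of indicators), so the integral of the sum is the sum of the integrals.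
Apply `hM` for the modulus `M` and all the finitely many classes with `ε / M^4`, take the maximum of the `H0` and of the `X0`. -/
theorem mrQ (z : ℂ) (hz : ‖z‖ = 1) (hM : MRS (fun n => z ^ ArithmeticFunction.cardFactors n)) (Q : ℕ) (hQ : 0 < Q) :
    MRS (fz Q z) := by
  classical
  intro m hm b K hK ε hε
  set L : ℕ → ℂ := fun n => z ^ ArithmeticFunction.cardFactors n with hL
  set M : ℕ := m * Q with hMd
  have hM0 : 0 < M := Nat.mul_pos hm hQ
  have hM' : (0 : ℝ) < M := by exact_mod_cast hM0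
  set ε' : ℝ := ε / (M : ℝ) ^ 4 with hε'
  have hε'0 : 0 < ε' := by positivity
  set B := (range M ×ˢ range M).filter
      (fun w => (w.1 ≡ b.1 [MOD m] ∧ w.2 ≡ b.2 [MOD m]) ∧ w.1.Coprime Q ∧ w.2.Coprime Q) with hB
  have key : ∀ᶠ H : ℝ in atTop, ∀ b1 ∈ B, ∀ᶠ X : ℝ in atTop,
      ∫ τ, ‖Ss L M b1 (Real.sqrt X) (K * Real.sqrt X) (H / X) τ‖ ^ 2 ≤ ε' * H ^ 2 := by
    rw [eventually_all_finset]
    intro b1 _
    obtain ⟨H0, -, h⟩ := hM M hM0 b1 K hK ε' hε'0
    filter_upwards [eventually_ge_atTop H0] with H hH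
    obtain ⟨X0, hX0⟩ := h H hH
    filter_upwards [eventually_ge_atTop X0] with X hX
    exact hX0 X hX
  obtain ⟨H0, hH0⟩ := eventually_atTop.1 key
  refine ⟨max H0 1, lt_max_of_lt_right one_pos, fun H hH => ?_⟩
  have k1 := (eventually_all_finset _).2 (hH0 H ((le_max_left _ _).trans hH))
  obtain ⟨X0, hX0⟩ := eventually_atTop.1 k1
  refine ⟨X0, fun X hX => ?_⟩
  have q := hX0 X hX
  have hcard : (B.card : ℝ) ≤ (M : ℝ) ^ 2 := by
    have h1 : B.card ≤ M * M := by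
      refine (card_le_card (filter_subset _ _)).trans ?_
      rw [card_product, card_range]
    rw [pow_two]
    exact_mod_cast h1
  have hpt : ∀ τ : ℝ, ‖Ss (fz Q z) m b (Real.sqrt X) (K * Real.sqrt X) (H / X) τ‖ ^ 2 ≤
      (M : ℝ) ^ 2 * ∑ b1 ∈ B, ‖Ss L M b1 (Real.sqrt X) (K * Real.sqrt X) (H / X) τ‖ ^ 2 := by
    intro τ
    rw [mrQ_dec z hm hQ]
    refine (pow_le_pow_left₀ (norm_nonneg _) (norm_sum_le _ _) 2).trans ?_
    refine (sq_sum_le_card_mul_sum_sq).trans ?_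
    exact mul_le_mul_of_nonneg_right hcard (sum_nonneg fun _ _ => by positivity)
  have hI : ∀ b1 ∈ B, Integrable (fun τ => ‖Ss L M b1 (Real.sqrt X) (K * Real.sqrt X) (H / X) τ‖ ^ 2) :=
    fun b1 _ => mrQ_int L M b1 _ _ _
  have h1 := integral_mono_of_nonneg (Eventually.of_forall fun τ => by positivity)
    ((integrable_finsetSum B hI).const_mul ((M : ℝ) ^ 2)) (Eventually.of_forall hpt)
  refine h1.trans ?_
  rw [integral_const_mul, integral_finsetSum _ hI]
  have h2 : ∑ b1 ∈ B, ∫ τ, ‖Ss L M b1 (Real.sqrt X) (K * Real.sqrt X) (H / X) τ‖ ^ 2 ≤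
      (M : ℝ) ^ 2 * (ε' * H ^ 2) := by
    refine (sum_le_card_nsmul _ _ (ε' * H ^ 2) (fun b1 hb1 => q b1 hb1)).trans ?_
    rw [nsmul_eq_mul]
    exact mul_le_mul_of_nonneg_right hcard (by positivity)
  refine (mul_le_mul_of_nonneg_left h2 (by positivity)).trans (le_of_eq ?_)
  rw [hε']
  field_simp

end Pool.Agent.Spl
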