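import Pool.Agent.Lib_MP_92ef0c_sp.ArcP3
import Pool.Agent.Lib_MP_92ef0c_sp.Cnt3
import Pool.Agent.Lib_MP_f1a94e_eq.QdS

/-!
# Stage B: from arcs to weighted sums over the determinants
-/

set_option autoImplicit false

namespace Pool.Agent.Spl

open Finset Pool.Agent.GaussMR Pool.Agent.OmAll Pool.Agent.OmEq MeasureTheory Filter

/-! ### weights -/

/-- the weight of a pair in terms of the first coordinates and the directions -/
noncomputable def q3C (h : ℝ → ℝ) (η X X' τ σ : ℝ) : ℝ :=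
  qdsW η (X * X' * Real.exp τ * σ) * h (X * X' * Real.exp τ) ^ 2 *
    (ps0 (Real.log X' - Real.log X + τ) * ps0 (Real.log X' - Real.log X - τ))

theorem q3_ps0_lip (s s' : ℝ) : |ps0 s - ps0 s'| ≤ |s - s'| := by
  unfold ps0
  rw [max_comm 0, max_comm 0]
  refine (abs_max_sub_max_le_abs _ _ _).trans ?_
  have e1 : (1 - |s|) - (1 - |s'|) = |s'| - |s| := by ring
  rw [e1, abs_sub_comm s s']
  exact abs_abs_sub_abs_le_abs_sub _ _

theorem q3_exp_lt {x : ℝ} (hx : x < 1) : Real.exp x < 4 :=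
  (Real.exp_lt_exp.2 hx).trans_le qds_exp1

theorem q3C_supp {h : ℝ → ℝ} {h1 h2 : ℝ} (hh : HF h h1 h2) {η X X' τ σ : ℝ} (hη : 0 < η) (hX : 0 < X) (hX' : 0 < X')
    (hne : q3C h η X X' τ σ ≠ 0) :
    h1 < 4 * X ^ 2 ∧ h1 < 4 * X' ^ 2 ∧ X ^ 2 < 4 * h2 ∧ X' ^ 2 < 4 * h2 ∧ |τ| < 1 ∧ 0 < σ ∧ σ < 1 / h1 := by
  have h1p := hh.pos
  unfold q3C at hne
  have nab := right_ne_zero_of_mul hne
  have n12 := left_ne_zero_of_mul hne
  have n1 := left_ne_zero_of_mul n12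
  have na := qds_ps0_ne (left_ne_zero_of_mul nab)
  have nb := qds_ps0_ne (right_ne_zero_of_mul nab)
  have n2 : h (X * X' * Real.exp τ) ≠ 0 := by
    intro h0
    apply right_ne_zero_of_mul n12
    rw [h0]
    norm_num
  set y := X * X' * Real.exp τ with hy
  have lo : h1 < y := by
    by_contra hc
    exact n2 (hh.lo _ (not_lt.1 hc))
  have hi : y < h2 := by
    by_contra hc
    exact n2 (hh.hi _ (not_lt.1 hc))
  set L := Real.log X' - Real.log X with hL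
  rw [abs_lt] at na nb
  have eL : Real.exp L = X' / X := by
    rw [hL, Real.exp_sub, Real.exp_log hX', Real.exp_log hX]
  have y1 : y = X ^ 2 * Real.exp (L + τ) := by
    rw [hy, Real.exp_add, eL]
    field_simp
  have y2 : y = X' ^ 2 * Real.exp (-(L - τ)) := by
    have e2 : -(L - τ) = -L + τ := by ring
    rw [hy, e2, Real.exp_add, Real.exp_neg, eL]
    field_simp
  have y3 : X ^ 2 = y * Real.exp (-(L + τ)) := by
    rw [y1, mul_assoc, ← Real.exp_add]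
    simp
  have y4 : X' ^ 2 = y * Real.exp (L - τ) := by
    rw [y2, mul_assoc, ← Real.exp_add]
    simp
  have E1 := q3_exp_lt na.2
  have E2 := q3_exp_lt (by linarith [na.1] : -(L + τ) < 1)
  have E3 := q3_exp_lt nb.2
  have E4 := q3_exp_lt (by linarith [nb.1] : -(L - τ) < 1)
  have hy0 : 0 < y := h1p.trans lo
  refine ⟨?_, ?_, ?_, ?_, ?_, ?_, ?_⟩
  · have : X ^ 2 * Real.exp (L + τ) < X ^ 2 * 4 := mul_lt_mul_of_pos_left E1 (by positivity)
    rw [← y1] at this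
    linarith
  · have : X' ^ 2 * Real.exp (-(L - τ)) < X' ^ 2 * 4 := mul_lt_mul_of_pos_left E4 (by positivity)
    rw [← y2] at this
    linarith
  · rw [y3]
    have : y * Real.exp (-(L + τ)) < y * 4 := mul_lt_mul_of_pos_left E2 hy0
    linarith
  · rw [y4]
    have : y * Real.exp (L - τ) < y * 4 := mul_lt_mul_of_pos_left E3 hy0
    linarith
  · rw [abs_lt]
    constructor <;> linarith [na.1, na.2, nb.1, nb.2]
  · by_contra hc
    apply n1
    apply qdsW_lo hη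
    exact mul_nonpos_of_nonneg_of_nonpos hy0.le (not_lt.1 hc)
  · by_contra hc
    apply n1
    apply qdsW_hi
    have h3 : h1 * (1 / h1) = 1 := by field_simp
    rw [← h3]
    exact mul_le_mul lo.le (not_lt.1 hc) (by positivity) hy0.le

/-- the weight of `arcp3` -/
noncomputable def q3F (h : ℝ → ℝ) (η c x x' τ σ : ℝ) : ℝ := q3C h η (max x c) (max x' c) τ σ

theorem q3F_cont {h : ℝ → ℝ} (hh : Continuous h) (η : ℝ) {c : ℝ} (hc : 0 < c) :
    Continuous (fun v : ℝ × ℝ × ℝ × ℝ => q3F h η c v.1 v.2.1 v.2.2.1 v.2.2.2) := by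
  have c1 : Continuous (fun v : ℝ × ℝ × ℝ × ℝ => max v.1 c) := continuous_fst.max continuous_const
  have c2 : Continuous (fun v : ℝ × ℝ × ℝ × ℝ => max v.2.1 c) :=
    (continuous_fst.comp continuous_snd).max continuous_const
  have c3 : Continuous (fun v : ℝ × ℝ × ℝ × ℝ => v.2.2.1) :=
    continuous_fst.comp (continuous_snd.comp continuous_snd)
  have c4 : Continuous (fun v : ℝ × ℝ × ℝ × ℝ => v.2.2.2) :=
    continuous_snd.comp (continuous_snd.comp continuous_snd)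
  have c5 : Continuous (fun v : ℝ × ℝ × ℝ × ℝ => Real.log (max v.1 c)) :=
    c1.log (fun v => (lt_of_lt_of_le hc (le_max_right _ _)).ne')
  have c6 : Continuous (fun v : ℝ × ℝ × ℝ × ℝ => Real.log (max v.2.1 c)) :=
    c2.log (fun v => (lt_of_lt_of_le hc (le_max_right _ _)).ne')
  have c7 : Continuous (fun v : ℝ × ℝ × ℝ × ℝ => max v.1 c * max v.2.1 c * Real.exp v.2.2.1) :=
    (c1.mul c2).mul c3.rexp
  have c8 : Continuous (fun v : ℝ × ℝ × ℝ × ℝ => Real.log (max v.2.1 c) - Real.log (max v.1 c) + v.2.2.1) :=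
    (c6.sub c5).add c3
  have c9 : Continuous (fun v : ℝ × ℝ × ℝ × ℝ => Real.log (max v.2.1 c) - Real.log (max v.1 c) - v.2.2.1) :=
    (c6.sub c5).sub c3
  unfold q3F q3C
  exact (((qdsW_cont η).comp (c7.mul c4)).mul ((hh.comp c7).pow 2)).mul
    ((qds_ps0_cont.comp c8).mul (qds_ps0_cont.comp c9))

theorem q3F_van {h : ℝ → ℝ} {h1 h2 : ℝ} (hh : HF h h1 h2) {η : ℝ} (hη : 0 < η) (x x' τ σ : ℝ)
    (hv : x ≤ Real.sqrt h1 / 4 ∨ x' ≤ Real.sqrt h1 / 4 ∨ 4 * Real.sqrt h2 ≤ x ∨ 4 * Real.sqrt h2 ≤ x' ∨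
      1 + 1 / h1 ≤ |τ| ∨ σ ≤ 0 ∨ 1 + 1 / h1 ≤ σ) :
    q3F h η (Real.sqrt h1 / 4) x x' τ σ = 0 := by
  have h1p := hh.pos
  have h2p := hh.one
  have hs1 : 0 < Real.sqrt h1 := Real.sqrt_pos.2 h1p
  have hs2 : 0 < Real.sqrt h2 := Real.sqrt_pos.2 (by linarith)
  have q1 : Real.sqrt h1 ^ 2 = h1 := Real.sq_sqrt h1p.le
  have q2 : Real.sqrt h2 ^ 2 = h2 := Real.sq_sqrt (by linarith)
  have hc : 0 < Real.sqrt h1 / 4 := by positivity
  have hX : 0 < max x (Real.sqrt h1 / 4) := lt_of_lt_of_le hc (le_max_right _ _)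
  have hX' : 0 < max x' (Real.sqrt h1 / 4) := lt_of_lt_of_le hc (le_max_right _ _)
  have h1i : 0 < 1 / h1 := by positivity
  by_contra hne
  obtain ⟨s1, s2, s3, s4, s5, s6, s7⟩ := q3C_supp hh hη hX hX' hne
  rcases hv with hv | hv | hv | hv | hv | hv | hv
  · rw [max_eq_right hv] at s1
    nlinarith
  · rw [max_eq_right hv] at s2
    nlinarith
  · have := le_max_left x (Real.sqrt h1 / 4)
    have h3 : 4 * Real.sqrt h2 ≤ max x (Real.sqrt h1 / 4) := hv.trans this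
    nlinarith
  · have := le_max_left x' (Real.sqrt h1 / 4)
    have h3 : 4 * Real.sqrt h2 ≤ max x' (Real.sqrt h1 / 4) := hv.trans this
    nlinarith
  · linarith
  · linarith
  · linarith

theorem q3F_eq {h : ℝ → ℝ} {h1 h2 : ℝ} (hh : HF h h1 h2) {η : ℝ} (hη : 0 < η) {x x' : ℝ} (τ σ : ℝ)
    (hx : 0 < x) (hx' : 0 < x') :
    q3F h η (Real.sqrt h1 / 4) x x' τ σ = q3C h η x x' τ σ := by
  by_cases hc : Real.sqrt h1 / 4 ≤ x ∧ Real.sqrt h1 / 4 ≤ x'
  · unfold q3F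
    rw [max_eq_left hc.1, max_eq_left hc.2]
  · have h0 : q3F h η (Real.sqrt h1 / 4) x x' τ σ = 0 := by
      apply q3F_van hh hη
      by_contra hn
      apply hc
      constructor
      · by_contra h3
        exact hn (Or.inl (not_le.1 h3).le)
      · by_contra h3
        exact hn (Or.inr (Or.inl (not_le.1 h3).le))
    rw [h0]
    by_contra hne
    have hne' := Ne.symm hne
    obtain ⟨s1, s2, -, -, -, -, -⟩ := q3C_supp hh hη hx hx' hne'
    have h1p := hh.pos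
    have hs1 : 0 < Real.sqrt h1 := Real.sqrt_pos.2 h1p
    have q1 : Real.sqrt h1 ^ 2 = h1 := Real.sq_sqrt h1p.le
    apply hc
    constructor
    · by_contra h3
      have h4 := not_le.1 h3
      nlinarith
    · by_contra h3
      have h4 := not_le.1 h3
      nlinarith

/-! ### pairs and matrices -/

/-- the periodic factor -/
noncomputable def q3K (D : ℕ) (V V' : ℕ × ℕ) : ℂ := if V.1 * V'.2 ≡ V.2 * V'.1 [MOD D] then 1 else 0

theorem q3K_bd1 (D : ℕ) (V V' : ℕ × ℕ) : ‖q3K D V V'‖ ≤ 1 := by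
  unfold q3K
  split_ifs <;> simp

theorem q3K_bd (D : ℕ) (V V' : ℕ × ℕ) : ‖q3K D V V'‖ ≤ 2 := (q3K_bd1 D V V').trans (by norm_num)

theorem q3K_per (D : ℕ) (V V' U U' : ℕ × ℕ) (h1 : V.1 ≡ U.1 [MOD D]) (h2 : V.2 ≡ U.2 [MOD D])
    (h3 : V'.1 ≡ U'.1 [MOD D]) (h4 : V'.2 ≡ U'.2 [MOD D]) : q3K D V V' = q3K D U U' := by
  have a1 : V.1 * V'.2 ≡ U.1 * U'.2 [MOD D] := h1.mul h4
  have a2 : V.2 * V'.1 ≡ U.2 * U'.1 [MOD D] := h2.mul h3
  have hP : (V.1 * V'.2 ≡ V.2 * V'.1 [MOD D]) ↔ (U.1 * U'.2 ≡ U.2 * U'.1 [MOD D]) :=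
    ⟨fun h => (a1.symm.trans h).trans a2, fun h => (a1.trans h).trans a2.symm⟩
  unfold q3K
  by_cases hp : V.1 * V'.2 ≡ V.2 * V'.1 [MOD D]
  · rw [if_pos hp, if_pos (hP.1 hp)]
  · rw [if_neg hp, if_neg (fun h => hp (hP.2 h))]

/-- the matrix of a pair -/
def mk4 (e : (ℕ × ℕ) × (ℕ × ℕ)) : Q4 := ⟨e.1.1, e.1.2, e.2.1, e.2.2⟩

/-- the rows of a matrix -/
def un4 (e : Q4) : (ℕ × ℕ) × (ℕ × ℕ) := ((e.a, e.b), (e.c, e.d))

theorem mk4_un4 (e : Q4) : mk4 (un4 e) = e := rfl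

theorem un4_mk4 (e : (ℕ × ℕ) × (ℕ × ℕ)) : un4 (mk4 e) = e := rfl

theorem un4_inj : Function.Injective un4 := fun e f h => by
  rw [← mk4_un4 e, h, mk4_un4]

theorem mem_un4 {s : Finset Q4} {e : (ℕ × ℕ) × (ℕ × ℕ)} : e ∈ s.image un4 ↔ mk4 e ∈ s := by
  rw [mem_image]
  constructor
  · rintro ⟨q, hq, rfl⟩
    exact hq
  · intro h
    exact ⟨mk4 e, h, rfl⟩

/-- the weight of a pair in the sums `Qs3` -/
noncomputable def q3T (h : ℝ → ℝ) (N : ℕ) (Y : ℝ) (e : (ℕ × ℕ) × (ℕ × ℕ)) : ℝ :=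
  if e.1.2 * e.2.1 < e.1.1 * e.2.2 ∧ e.1.1 * e.2.2 ≤ e.1.2 * e.2.1 + N then
    ww (((e.1.1 : ℝ) * e.2.2 - e.1.2 * e.2.1) / N) * h ((e.1.2 : ℝ) * e.2.1 / Y) ^ 2 *
      (ps0 (Real.log e.2.2 - Real.log e.1.1) * ps0 (Real.log e.2.1 - Real.log e.1.2)) else 0

theorem q3_box {p q M h2 Y : ℝ} (hp : 0 < p) (hq : 0 < q) (hl : |Real.log q - Real.log p| < 1) (hM : p * q ≤ M)
    (hM2 : M ≤ 2 * (h2 * Y)) (h2p : 0 ≤ h2) (hY : 0 ≤ Y) :
    p ≤ 4 * Real.sqrt h2 * Real.sqrt Y ∧ q ≤ 4 * Real.sqrt h2 * Real.sqrt Y := by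
  obtain ⟨r1, r2⟩ := qds_ratio hp hq hl
  have e1 : (4 * Real.sqrt h2 * Real.sqrt Y) ^ 2 = 16 * (h2 * Y) := by
    rw [mul_pow, mul_pow, Real.sq_sqrt h2p, Real.sq_sqrt hY]
    ring
  have hz : 0 ≤ h2 * Y := mul_nonneg h2p hY
  constructor
  · apply le_of_sq_le_sq _ (by positivity)
    rw [e1]
    nlinarith
  · apply le_of_sq_le_sq _ (by positivity)
    rw [e1]
    nlinarith

theorem q3_F4 (f : ℕ → ℂ) (e : (ℕ × ℕ) × (ℕ × ℕ)) :
    F4 f (cj f) (cj f) f (mk4 e) = F2 f e.1 * (starRingEnd ℂ) (F2 f e.2) := by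
  unfold F4 F2 mk4 cj
  simp only [map_mul, Complex.conj_conj]
  ring

theorem q3_sum (f : ℕ → ℂ) (D : ℕ) {h : ℝ → ℝ} {h1 h2 : ℝ} (hh : HF h h1 h2) {N : ℕ} {Y : ℝ}
    (hY : (N : ℝ) ≤ Y) (hY0 : 0 < Y) :
    ∑ n ∈ (Icc 1 N).filter (fun n => D ∣ n), ((ww ((n : ℝ) / N) : ℝ) : ℂ) *
      Qs3 f n (h2 * Y) (Wh (fun y => h y ^ 2)) Y =
    ∑ e ∈ PB (4 * Real.sqrt h2 * Real.sqrt Y) (4 * Real.sqrt h2 * Real.sqrt Y) ×ˢ
        PB (4 * Real.sqrt h2 * Real.sqrt Y) (4 * Real.sqrt h2 * Real.sqrt Y),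
      q3K D e.1 e.2 * (F2 f e.1 * (starRingEnd ℂ) (F2 f e.2)) * ((q3T h N Y e : ℝ) : ℂ) := by
  classical
  have h2p := hh.one
  set R := 4 * Real.sqrt h2 * Real.sqrt Y with hR
  set P := PB R R ×ˢ PB R R with hP
  set T : (ℕ × ℕ) × (ℕ × ℕ) → ℂ := fun e => q3K D e.1 e.2 * (F2 f e.1 * (starRingEnd ℂ) (F2 f e.2)) *
      ((q3T h N Y e : ℝ) : ℂ) with hT
  have e1 : ∀ e ∈ P, T e = ∑ n ∈ Icc 1 N, if e.1.1 * e.2.2 = e.1.2 * e.2.1 + n then T e else 0 := by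
    intro e _
    by_cases hc : e.1.2 * e.2.1 < e.1.1 * e.2.2 ∧ e.1.1 * e.2.2 ≤ e.1.2 * e.2.1 + N
    · rw [sum_eq_single (e.1.1 * e.2.2 - e.1.2 * e.2.1)]
      · rw [if_pos (by omega)]
      · intro n _ hn
        rw [if_neg (by omega)]
      · intro h3
        exfalso
        apply h3
        rw [mem_Icc]
        omega
    · have h0 : T e = 0 := by
        rw [hT]
        dsimp only
        unfold q3T
        rw [if_neg hc, Complex.ofReal_zero, mul_zero]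
      rw [h0]
      symm
      apply sum_eq_zero
      intro n _
      rw [ite_self]
  rw [sum_congr rfl e1, sum_comm, sum_filter]
  apply sum_congr rfl
  intro n hn
  rw [mem_Icc] at hn
  have hn0 : 0 < n := hn.1
  have hnN : (n : ℝ) ≤ N := by exact_mod_cast hn.2
  rw [← sum_filter]
  have hKn : ∀ e : (ℕ × ℕ) × (ℕ × ℕ), e.1.1 * e.2.2 = e.1.2 * e.2.1 + n →
      ((e.1.1 * e.2.2 ≡ e.1.2 * e.2.1 [MOD D]) ↔ D ∣ n) := by
    intro e he
    rw [he]
    constructor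
    · intro h3
      have h4 : e.1.2 * e.2.1 + n ≡ e.1.2 * e.2.1 + 0 [MOD D] := h3
      exact (Nat.modEq_zero_iff_dvd).1 (Nat.ModEq.add_left_cancel' _ h4)
    · intro h3
      have h4 : n ≡ 0 [MOD D] := (Nat.modEq_zero_iff_dvd).2 h3
      exact h4.add_left (e.1.2 * e.2.1)
  split_ifs with hdn
  · unfold Qs3
    rw [mul_sum]
    have him : ∑ i ∈ SN n (h2 * Y), ((ww ((n : ℝ) / N) : ℝ) : ℂ) * (F4 f (cj f) (cj f) f i *
        Wh (fun y => h y ^ 2) (yS i / Y) (tS i) (uS i)) =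
      ∑ e ∈ (SN n (h2 * Y)).image un4, ((ww ((n : ℝ) / N) : ℝ) : ℂ) * (F4 f (cj f) (cj f) f (mk4 e) *
        Wh (fun y => h y ^ 2) (yS (mk4 e) / Y) (tS (mk4 e)) (uS (mk4 e))) := by
      rw [sum_image (fun x _ y _ hxy => un4_inj hxy)]
      simp only [mk4_un4]
    rw [him]
    apply sum_congr_of_eq_on_inter
    · intro e he hne
      rw [mem_un4, mem_SN] at he
      obtain ⟨hEn, hm⟩ := he
      have hnP : e ∉ P := by
        intro h3
        exact hne (mem_filter.2 ⟨h3, hEn.1⟩)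
      obtain ⟨k1, k2, k3, k4, k5, k6, k7⟩ := hEn
      by_cases hps : ps0 (tS (mk4 e)) = 0
      · unfold Wh
        rw [hps]
        simp
      · by_cases hpu : ps0 (uS (mk4 e)) = 0
        · unfold Wh
          rw [hpu]
          simp
        · by_cases hh0 : h (yS (mk4 e) / Y) = 0
          · unfold Wh
            dsimp only
            rw [hh0]
            simp
          · exfalso
            apply hnP
            have ht := qds_ps0_ne hps
            have hu := qds_ps0_ne hpu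
            unfold tS mk4 at ht
            unfold uS mk4 at hu
            dsimp only at ht hu
            unfold yS mk4 at hm
            dsimp only at hm
            unfold mk4 at k1 k2 k3 k4 k5 k6 k7
            dsimp only at k1 k2 k3 k4 k5 k6 k7
            have k2' : (0 : ℝ) < e.1.1 := by exact_mod_cast k2
            have k3' : (0 : ℝ) < e.1.2 := by exact_mod_cast k3
            have k4' : (0 : ℝ) < e.2.1 := by exact_mod_cast k4
            have k5' : (0 : ℝ) < e.2.2 := by exact_mod_cast k5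
            have k1' : (e.1.1 : ℝ) * e.2.2 = e.1.2 * e.2.1 + n := by exact_mod_cast k1
            have hz : Y ≤ h2 * Y := by nlinarith
            obtain ⟨b1, b2⟩ := q3_box k2' k5' ht le_rfl (by linarith : (e.1.1 : ℝ) * e.2.2 ≤ 2 * (h2 * Y))
              (by linarith) hY0.le
            obtain ⟨b3, b4⟩ := q3_box k3' k4' hu le_rfl (by linarith : (e.1.2 : ℝ) * e.2.1 ≤ 2 * (h2 * Y))
              (by linarith) hY0.le
            rw [hP, mem_product, mem_PB, mem_PB]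
            exact ⟨⟨⟨k2, b1⟩, ⟨k3, b3⟩, k6⟩, ⟨⟨k4, b4⟩, ⟨k5, b2⟩, k7⟩⟩
    · intro e he hne
      rw [mem_filter, hP, mem_product, mem_PB, mem_PB] at he
      obtain ⟨⟨⟨⟨p1, -⟩, ⟨p2, -⟩, p3⟩, ⟨⟨p4, -⟩, ⟨p5, -⟩, p6⟩⟩, hdet⟩ := he
      rw [mem_un4, mem_SN] at hne
      rw [hT]
      dsimp only
      have hm : ¬ yS (mk4 e) ≤ h2 * Y := by
        intro h3
        apply hne
        exact ⟨⟨hdet, p1, p2, p4, p5, p3, p6⟩, h3⟩
      have hz : h ((e.1.2 : ℝ) * e.2.1 / Y) = 0 := by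
        apply hh.hi
        rw [le_div_iff₀ hY0]
        exact (not_le.1 hm).le
      unfold q3T
      rw [hz]
      simp
    · intro e he he'
      rw [mem_un4, mem_SN] at he
      obtain ⟨hEn, hm⟩ := he
      have hdet : e.1.1 * e.2.2 = e.1.2 * e.2.1 + n := hEn.1
      have hK : q3K D e.1 e.2 = 1 := by
        unfold q3K
        rw [if_pos ((hKn e hdet).2 hdn)]
      have hdet' : (e.1.1 : ℝ) * e.2.2 = e.1.2 * e.2.1 + n := by exact_mod_cast hdet
      have hTT : q3T h N Y e = ww ((n : ℝ) / N) * h ((e.1.2 : ℝ) * e.2.1 / Y) ^ 2 *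
          (ps0 (Real.log e.2.2 - Real.log e.1.1) * ps0 (Real.log e.2.1 - Real.log e.1.2)) := by
        unfold q3T
        rw [if_pos (by omega), hdet']
        congr 4
        ring
      rw [hT]
      dsimp only
      rw [hK, hTT, q3_F4]
      unfold Wh yS tS uS mk4
      dsimp only
      push_cast
      ring
  · symm
    apply sum_eq_zero
    intro e he
    rw [mem_filter] at he
    have hK : q3K D e.1 e.2 = 0 := by
      unfold q3K
      rw [if_neg (fun h3 => hdn ((hKn e he.2).1 h3))]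
    rw [hT]
    dsimp only
    rw [hK]
    simp

/-- pairs with a small determinant -/
def q3Bad (h2 η : ℝ) (N : ℕ) (Y : ℝ) (e : (ℕ × ℕ) × (ℕ × ℕ)) : Prop :=
  e.1.2 * e.2.1 < e.1.1 * e.2.2 ∧ (e.1.1 : ℝ) * e.2.2 - e.1.2 * e.2.1 < η * N ∧
    |Real.log e.2.2 - Real.log e.1.1| ≤ 1 ∧ |Real.log e.2.1 - Real.log e.1.2| ≤ 1 ∧ (e.1.2 : ℝ) * e.2.1 ≤ h2 * Y

open Classical in
theorem q3_bad {C h2 η : ℝ} (hC : 0 < C) (hη : 0 < η) (hη1 : η ≤ 1) (h2p : 1 ≤ h2)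
    (hcnt : ∀ n : ℕ, 0 < n → ∀ x : ℝ, (n : ℝ) ≤ x →
      (((SN n x).filter (fun e => |tS e| ≤ 1 ∧ |uS e| ≤ 1)).card : ℝ) ≤ C * x)
    {N : ℕ} {Y : ℝ} (hY : (N : ℝ) ≤ Y) (R : ℝ) :
    (((PB R R ×ˢ PB R R).filter (q3Bad h2 η N Y)).card : ℝ) ≤ η * N * (C * (h2 * Y)) := by
  have hN0 : (0 : ℝ) ≤ N := Nat.cast_nonneg _
  have hsub : (PB R R ×ˢ PB R R).filter (q3Bad h2 η N Y) ⊆
      (Icc 1 ⌊η * N⌋₊).biUnion (fun n =>
        ((SN n (h2 * Y)).filter (fun e => |tS e| ≤ 1 ∧ |uS e| ≤ 1)).image un4) := by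
    intro e he
    rw [mem_filter, mem_product, mem_PB, mem_PB] at he
    obtain ⟨⟨⟨⟨p1, -⟩, ⟨p2, -⟩, p3⟩, ⟨⟨p4, -⟩, ⟨p5, -⟩, p6⟩⟩, b1, b2, b3, b4, b5⟩ := he
    rw [mem_biUnion]
    have hd0 : e.1.1 * e.2.2 = e.1.2 * e.2.1 + (e.1.1 * e.2.2 - e.1.2 * e.2.1) := by omega
    have hn0 : 0 < e.1.1 * e.2.2 - e.1.2 * e.2.1 := by omega
    refine ⟨e.1.1 * e.2.2 - e.1.2 * e.2.1, ?_, ?_⟩
    · rw [mem_Icc]
      refine ⟨hn0, ?_⟩
      apply Nat.le_floor
      have h3 : ((e.1.1 * e.2.2 - e.1.2 * e.2.1 : ℕ) : ℝ) = (e.1.1 : ℝ) * e.2.2 - e.1.2 * e.2.1 := by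
        rw [Nat.cast_sub b1.le]
        push_cast
        ring
      rw [h3]
      exact b2.le
    · rw [mem_un4, mem_filter, mem_SN]
      exact ⟨⟨⟨hd0, p1, p2, p4, p5, p3, p6⟩, b5⟩, b3, b4⟩
  have h3 : (((PB R R ×ˢ PB R R).filter (q3Bad h2 η N Y)).card : ℝ) ≤
      ∑ n ∈ Icc 1 ⌊η * N⌋₊, (((SN n (h2 * Y)).filter (fun e => |tS e| ≤ 1 ∧ |uS e| ≤ 1)).card : ℝ) := by
    have h4 := (card_le_card hsub).trans card_biUnion_le
    have h5 : ∑ n ∈ Icc 1 ⌊η * N⌋₊, (((SN n (h2 * Y)).filter (fun e => |tS e| ≤ 1 ∧ |uS e| ≤ 1)).image un4).card ≤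
        ∑ n ∈ Icc 1 ⌊η * N⌋₊, ((SN n (h2 * Y)).filter (fun e => |tS e| ≤ 1 ∧ |uS e| ≤ 1)).card :=
      sum_le_sum (fun n _ => card_image_le)
    exact_mod_cast h4.trans h5
  refine h3.trans ?_
  have hY0 : 0 ≤ Y := hN0.trans hY
  refine (sum_le_card_nsmul _ _ (C * (h2 * Y)) ?_).trans ?_
  · intro n hn
    rw [mem_Icc] at hn
    apply hcnt n hn.1
    have h4 : (n : ℝ) ≤ η * N := (Nat.cast_le.2 hn.2).trans (Nat.floor_le (by positivity))
    nlinarith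
  · rw [nsmul_eq_mul, Nat.card_Icc, Nat.add_sub_cancel]
    exact mul_le_mul_of_nonneg_right (Nat.floor_le (by positivity)) (by positivity)

/-- comparison of the weights -/
theorem q3_cmp {h : ℝ → ℝ} {h1 h2 : ℝ} (hh : HF h h1 h2) {η : ℝ} (hη : 0 < η) (hη1 : η ≤ 1) {N : ℕ} (hN : 1 ≤ N)
    {Y δ : ℝ} (hY0 : 0 < Y) (hY1 : (N : ℝ) / (h1 * Y) ≤ 1) (hY2 : h2 * N / (h1 ^ 2 * Y) < δ)
    (hY3 : (N : ℝ) / (h1 * Y) ≤ η / 2)
    (hw : ∀ s s' : ℝ, |s - s'| < δ → |qdsW η s - qdsW η s'| < η / 4) (e : (ℕ × ℕ) × (ℕ × ℕ))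
    (he1 : 0 < e.1.1) (he2 : 0 < e.1.2) (he3 : 0 < e.2.1) (he4 : 0 < e.2.2) :
    (|q3T h N Y e - q3F h η (Real.sqrt h1 / 4) (e.1.1 / Real.sqrt Y) (e.2.1 / Real.sqrt Y) (dirn e.1)
        (Y * (dirn e.2 - dirn e.1) / N)| ≤ η ∧
      Real.sqrt h1 / 4 * Real.sqrt Y ≤ e.1.1 ∧ Real.sqrt h1 / 4 * Real.sqrt Y ≤ e.2.1 ∧
      |dirn e.2 - dirn e.1| ≤ 1 / h1 * N / Y) ∨
    (|q3T h N Y e - q3F h η (Real.sqrt h1 / 4) (e.1.1 / Real.sqrt Y) (e.2.1 / Real.sqrt Y) (dirn e.1)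
        (Y * (dirn e.2 - dirn e.1) / N)| ≤ 1 + η ∧
      Real.sqrt h1 / 4 * Real.sqrt Y ≤ e.1.1 ∧ Real.sqrt h1 / 4 * Real.sqrt Y ≤ e.2.1 ∧
      |dirn e.2 - dirn e.1| ≤ 1 / h1 * N / Y ∧ q3Bad h2 η N Y e) ∨
    (|q3T h N Y e - q3F h η (Real.sqrt h1 / 4) (e.1.1 / Real.sqrt Y) (e.2.1 / Real.sqrt Y) (dirn e.1)
        (Y * (dirn e.2 - dirn e.1) / N)| ≤ 0) := by
  have h1p := hh.pos
  have h2p := hh.one
  have hN' : (0 : ℝ) < N := by exact_mod_cast hN
  have a1 : (0 : ℝ) < e.1.1 := by exact_mod_cast he1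
  have a2 : (0 : ℝ) < e.1.2 := by exact_mod_cast he2
  have a3 : (0 : ℝ) < e.2.1 := by exact_mod_cast he3
  have a4 : (0 : ℝ) < e.2.2 := by exact_mod_cast he4
  have hsY : 0 < Real.sqrt Y := Real.sqrt_pos.2 hY0
  have hsY2 : Real.sqrt Y * Real.sqrt Y = Y := Real.mul_self_sqrt hY0.le
  have hx : 0 < (e.1.1 : ℝ) / Real.sqrt Y := by positivity
  have hx' : 0 < (e.2.1 : ℝ) / Real.sqrt Y := by positivity
  have hdz : ∀ z : ℕ × ℕ, dirn z = Real.log z.2 - Real.log z.1 := fun z => rfl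
  set a : ℝ := (e.1.1 : ℝ) with ha
  set b : ℝ := (e.1.2 : ℝ) with hb
  set c : ℝ := (e.2.1 : ℝ) with hc
  set d : ℝ := (e.2.2 : ℝ) with hd
  set Δ := dirn e.2 - dirn e.1 with hΔ
  have hΔ' : Δ = (Real.log d - Real.log c) - (Real.log b - Real.log a) := by
    rw [hΔ, hdz, hdz]
  set t := Real.log d - Real.log a with ht
  set u := Real.log c - Real.log b with hu
  set M := b * c with hM
  have hM0 : 0 < M := mul_pos a2 a3
  set Dt := a * d - M with hDt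
  have hexpτ : Real.exp (dirn e.1) = b / a := by
    rw [hdz, ← ha, ← hb, Real.exp_sub, Real.exp_log a2, Real.exp_log a1]
  have hs1 : a / Real.sqrt Y * (c / Real.sqrt Y) * Real.exp (dirn e.1) = M / Y := by
    rw [hexpτ, hM]
    have h3 : a / Real.sqrt Y * (c / Real.sqrt Y) = a * c / Y := by
      rw [div_mul_div_comm, hsY2]
    rw [h3]
    field_simp
  have hlogx : Real.log (c / Real.sqrt Y) - Real.log (a / Real.sqrt Y) = Real.log c - Real.log a := by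
    rw [Real.log_div a3.ne' hsY.ne', Real.log_div a1.ne' hsY.ne']
    ring
  have hF : q3F h η (Real.sqrt h1 / 4) (a / Real.sqrt Y) (c / Real.sqrt Y) (dirn e.1) (Y * Δ / N) =
      qdsW η (M * Δ / N) * h (M / Y) ^ 2 * (ps0 (t - Δ) * ps0 u) := by
    rw [q3F_eq hh hη _ _ hx hx']
    unfold q3C
    rw [hs1, hlogx]
    have k1 : M / Y * (Y * Δ / N) = M * Δ / N := by field_simp
    have k2 : Real.log c - Real.log a + dirn e.1 = t - Δ := by
      rw [hΔ', ht, hdz, ← ha, ← hb]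
      ring
    have k3 : Real.log c - Real.log a - dirn e.1 = u := by
      rw [hu, hdz, ← ha, ← hb]
      ring
    rw [k1, k2, k3]
  have hexpΔ : M * Real.exp Δ = M + Dt := by
    have h3 : Real.exp Δ = a * d / M := by
      rw [hΔ', Real.exp_sub, Real.exp_sub, Real.exp_sub, Real.exp_log a4, Real.exp_log a3, Real.exp_log a2,
        Real.exp_log a1, hM]
      field_simp
    rw [h3, hDt]
    field_simp
    ring
  have hi : M * Δ ≤ Dt := by
    have h3 := mul_le_mul_of_nonneg_left (Real.add_one_le_exp Δ) hM0.le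
    rw [hexpΔ, mul_add, mul_one] at h3
    linarith only [h3]
  rw [hF]
  have hTdef : q3T h N Y e = if e.1.2 * e.2.1 < e.1.1 * e.2.2 ∧ e.1.1 * e.2.2 ≤ e.1.2 * e.2.1 + N then
      ww (Dt / N) * h (M / Y) ^ 2 * (ps0 t * ps0 u) else 0 := rfl
  by_cases hpu : ps0 u = 0
  · right
    right
    rw [hTdef, hpu]
    simp
  by_cases hh0 : h (M / Y) = 0
  · right
    right
    rw [hTdef, hh0]
    simp
  have hy1 : h1 < M / Y := by
    by_contra hc
    exact hh0 (hh.lo _ (not_lt.1 hc))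
  have hy2 : M / Y < h2 := by
    by_contra hc
    exact hh0 (hh.hi _ (not_lt.1 hc))
  rw [lt_div_iff₀ hY0] at hy1
  rw [div_lt_iff₀ hY0] at hy2
  have hu1 := qds_ps0_ne hpu
  have hhY : 0 < h1 * Y := by positivity
  by_cases hlt : e.1.2 * e.2.1 < e.1.1 * e.2.2
  swap
  · -- nonpositive determinant
    right
    right
    have hDt0 : Dt ≤ 0 := by
      have h3 : (e.1.1 : ℝ) * e.2.2 ≤ e.1.2 * e.2.1 := by exact_mod_cast not_lt.1 hlt
      rw [hDt, hM, ha, hb, hc, hd]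
      linarith
    have hΔ0 : M * Δ / N ≤ 0 := by
      apply div_nonpos_of_nonpos_of_nonneg _ hN'.le
      linarith
    rw [hTdef, if_neg (fun h3 => hlt h3.1), qdsW_lo hη hΔ0]
    simp
  have hDt1 : 0 < Dt := by
    have h3 : (e.1.2 : ℝ) * e.2.1 < e.1.1 * e.2.2 := by exact_mod_cast hlt
    rw [hDt, hM, ha, hb, hc, hd]
    linarith
  have hΔ0 : 0 < Δ := by
    by_contra hcon
    have h3 : Real.exp Δ ≤ 1 := Real.exp_le_one_iff.2 (not_lt.1 hcon)
    have h4 := mul_le_mul_of_nonneg_left h3 hM0.le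
    rw [hexpΔ, mul_one] at h4
    linarith only [h4, hDt1]
  by_cases hB : Δ ≤ N / (h1 * Y)
  swap
  · -- large angle
    right
    right
    have h3 := not_le.1 hB
    rw [div_lt_iff₀ hhY] at h3
    have h4 : (N : ℝ) < M * Δ := by
      have h5 := mul_le_mul_of_nonneg_left hy1.le hΔ0.le
      rw [mul_comm M Δ]
      exact h3.trans_le h5
    have h5 : (1 : ℝ) ≤ M * Δ / N := by
      rw [le_div_iff₀ hN']
      linarith
    have h6 : (1 : ℝ) ≤ Dt / N := by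
      rw [le_div_iff₀ hN']
      linarith
    rw [hTdef, qdsW_hi h5, ww_props.2.2.2 _ (h6.trans (le_abs_self _))]
    simp
  have hΔ1 : Δ ≤ 1 := hB.trans hY1
  by_cases hz : ps0 t = 0 ∧ ps0 (t - Δ) = 0
  · right
    right
    rw [hTdef, hz.1, hz.2]
    simp
  have ht2 : t < 2 ∧ -2 < t := by
    by_cases h3 : ps0 t = 0
    · have h4 : ps0 (t - Δ) ≠ 0 := fun h5 => hz ⟨h3, h5⟩
      have h5 := qds_ps0_ne h4
      rw [abs_lt] at h5
      constructor <;> linarith [h5.1, h5.2]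
    · have h5 := qds_ps0_ne h3
      rw [abs_lt] at h5
      constructor <;> linarith [h5.1, h5.2]
  have hda : d ≤ 16 * a := by
    have h3 : Real.log d < 1 + (1 + Real.log a) := by
      have := ht2.1
      rw [ht] at this
      linarith
    have h4 := Real.exp_lt_exp.2 h3
    rw [Real.exp_add, Real.exp_add, Real.exp_log a4, Real.exp_log a1] at h4
    have h5 := qds_exp1
    have h6 := Real.exp_pos 1
    have h7 : Real.exp 1 * (Real.exp 1 * a) ≤ 4 * (4 * a) :=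
      mul_le_mul h5 (mul_le_mul_of_nonneg_right h5 a1.le) (by positivity) (by norm_num)
    linarith
  have hbc : b ≤ 4 * c ∧ c ≤ 4 * b := by
    have := qds_ratio a2 a3 hu1
    exact ⟨this.2, this.1⟩
  have hsq : (Real.sqrt h1 / 4 * Real.sqrt Y) ^ 2 = h1 * Y / 16 := by
    rw [mul_pow, div_pow, Real.sq_sqrt h1p.le, Real.sq_sqrt hY0.le]
    ring
  have hA1 : Real.sqrt h1 / 4 * Real.sqrt Y ≤ a := by
    apply le_of_sq_le_sq _ a1.le
    rw [hsq]
    have h3 : M < a * d := by linarith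
    have h4 := mul_le_mul_of_nonneg_left hda a1.le
    have h5 : a * (16 * a) = 16 * a ^ 2 := by ring
    linarith only [h3, h4, h5, hy1]
  have hA2 : Real.sqrt h1 / 4 * Real.sqrt Y ≤ c := by
    apply le_of_sq_le_sq _ a3.le
    rw [hsq]
    have h3 : M ≤ 4 * c ^ 2 := by
      have h4 := mul_le_mul_of_nonneg_right hbc.1 a3.le
      have h5 : 4 * c * c = 4 * c ^ 2 := by ring
      rw [h5] at h4
      exact h4
    have h6 := sq_nonneg c
    linarith only [h3, h6, hy1]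
  have hA3 : |Δ| ≤ 1 / h1 * N / Y := by
    rw [abs_of_pos hΔ0]
    refine hB.trans (le_of_eq ?_)
    field_simp
  -- closeness of arguments
  have d1 : |Dt / N - M * Δ / N| < δ := by
    rw [← sub_div, abs_div, abs_of_pos hN', abs_of_nonneg (by linarith)]
    refine lt_of_le_of_lt ?_ hY2
    have h3 := Real.abs_exp_sub_one_sub_id_le (abs_le.2 ⟨by linarith, hΔ1⟩ : |Δ| ≤ 1)
    have h4 := (abs_le.1 h3).2
    have h5 : Dt - M * Δ ≤ M * Δ ^ 2 := by
      have h6 := mul_le_mul_of_nonneg_left h4 hM0.le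
      have h7 : M * (Real.exp Δ - 1 - Δ) = M * Real.exp Δ - M - M * Δ := by ring
      rw [h7, hexpΔ] at h6
      linarith only [h6]
    have h6 : Δ * (h1 * Y) ≤ N := by rwa [le_div_iff₀ hhY] at hB
    rw [div_le_div_iff₀ hN' (by positivity)]
    have h7 : M * Δ ^ 2 ≤ h2 * Y * Δ ^ 2 := mul_le_mul_of_nonneg_right hy2.le (by positivity)
    have h8 : (Δ * (h1 * Y)) ^ 2 ≤ (N : ℝ) ^ 2 := by
      apply pow_le_pow_left₀ (by positivity) h6
    have h9 : (Dt - M * Δ) * (h1 ^ 2 * Y) ≤ h2 * Y * Δ ^ 2 * (h1 ^ 2 * Y) :=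
      mul_le_mul_of_nonneg_right (h5.trans h7) (by positivity)
    have h10 : h2 * Y * Δ ^ 2 * (h1 ^ 2 * Y) = h2 * (Δ * (h1 * Y)) ^ 2 := by ring
    have h11 : h2 * (Δ * (h1 * Y)) ^ 2 ≤ h2 * (N : ℝ) ^ 2 := mul_le_mul_of_nonneg_left h8 (by linarith)
    calc (Dt - M * Δ) * (h1 ^ 2 * Y) ≤ h2 * (N : ℝ) ^ 2 := by linarith
      _ = h2 * N * N := by ring
  have w1 := hw _ _ d1
  have w2 : |ps0 t - ps0 (t - Δ)| ≤ η / 2 := by
    refine (q3_ps0_lip _ _).trans ?_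
    have h3 : t - (t - Δ) = Δ := by ring
    rw [h3, abs_of_pos hΔ0]
    exact hB.trans hY3
  have hwn := qdsW_nn η (Dt / N)
  have hwn' := qdsW_nn η (M * Δ / N)
  have hw1' := qdsW_le1 η (M * Δ / N)
  have hb0 := hh.nn (M / Y)
  have hb1 := hh.le (M / Y)
  have hp0 := qds_ps0_nn t
  have hp1 := qds_ps0_le t
  have hu0 := qds_ps0_nn u
  have hu1' := qds_ps0_le u
  have hmain : |qdsW η (Dt / N) * h (M / Y) ^ 2 * (ps0 t * ps0 u) -
      qdsW η (M * Δ / N) * h (M / Y) ^ 2 * (ps0 (t - Δ) * ps0 u)| ≤ η := by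
    have e1 : qdsW η (Dt / N) * h (M / Y) ^ 2 * (ps0 t * ps0 u) -
        qdsW η (M * Δ / N) * h (M / Y) ^ 2 * (ps0 (t - Δ) * ps0 u) =
        ((qdsW η (Dt / N) - qdsW η (M * Δ / N)) * ps0 t + qdsW η (M * Δ / N) * (ps0 t - ps0 (t - Δ))) *
          (h (M / Y) ^ 2 * ps0 u) := by ring
    rw [e1, abs_mul, abs_of_nonneg (by positivity : 0 ≤ h (M / Y) ^ 2 * ps0 u)]
    have t0 : h (M / Y) ^ 2 * ps0 u ≤ 1 := mul_le_one₀ (pow_le_one₀ hb0 hb1) hu0 hu1'
    refine (mul_le_of_le_one_right (abs_nonneg _) t0).trans ?_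
    refine (abs_add_le _ _).trans ?_
    rw [abs_mul, abs_mul, abs_of_nonneg hp0, abs_of_nonneg hwn']
    have t1 : |qdsW η (Dt / N) - qdsW η (M * Δ / N)| * ps0 t ≤ η / 4 :=
      (mul_le_of_le_one_right (abs_nonneg _) hp1).trans w1.le
    have t2 : qdsW η (M * Δ / N) * |ps0 t - ps0 (t - Δ)| ≤ 1 * (η / 2) :=
      mul_le_mul hw1' w2 (abs_nonneg _) zero_le_one
    linarith
  by_cases hsm : Dt < η * N
  · -- small determinant
    by_cases hpt : ps0 t = 0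
    · left
      have hT : q3T h N Y e = 0 := by
        rw [hTdef, hpt]
        simp
      rw [hpt] at hmain
      rw [hT]
      refine ⟨?_, hA1, hA2, hA3⟩
      have e0 : qdsW η (Dt / N) * h (M / Y) ^ 2 * (0 * ps0 u) = 0 := by ring
      rw [e0] at hmain
      exact hmain
    · right
      left
      refine ⟨?_, hA1, hA2, hA3, hlt, hsm, (qds_ps0_ne hpt).le, hu1.le, hy2.le⟩
      have hDN : e.1.1 * e.2.2 ≤ e.1.2 * e.2.1 + N := by
        have h3 : Dt < N := lt_of_lt_of_le hsm ((mul_le_mul_of_nonneg_right hη1 hN'.le).trans_eq (one_mul _))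
        have h4 : (e.1.1 : ℝ) * e.2.2 ≤ e.1.2 * e.2.1 + N := by
          rw [hDt, hM, ha, hb, hc, hd] at h3
          linarith
        exact_mod_cast h4
      rw [hTdef, if_pos ⟨hlt, hDN⟩]
      have e1 : ww (Dt / N) * h (M / Y) ^ 2 * (ps0 t * ps0 u) -
            qdsW η (M * Δ / N) * h (M / Y) ^ 2 * (ps0 (t - Δ) * ps0 u) =
          (ww (Dt / N) - qdsW η (Dt / N)) * (h (M / Y) ^ 2 * (ps0 t * ps0 u)) +
          (qdsW η (Dt / N) * h (M / Y) ^ 2 * (ps0 t * ps0 u) -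
            qdsW η (M * Δ / N) * h (M / Y) ^ 2 * (ps0 (t - Δ) * ps0 u)) := by ring
      rw [e1]
      refine (abs_add_le _ _).trans (add_le_add ?_ hmain)
      have t1 := qdsW_le η (Dt / N)
      have t2 := ww_props.2.2.1 (Dt / N)
      have t3 : h (M / Y) ^ 2 * (ps0 t * ps0 u) ≤ 1 :=
        mul_le_one₀ (pow_le_one₀ hb0 hb1) (by positivity) (mul_le_one₀ hp1 hu0 hu1')
      rw [abs_mul, abs_of_nonneg (by linarith : 0 ≤ ww (Dt / N) - qdsW η (Dt / N)),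
        abs_of_nonneg (by positivity : 0 ≤ h (M / Y) ^ 2 * (ps0 t * ps0 u))]
      exact mul_le_one₀ (by linarith) (by positivity) t3
  · left
    refine ⟨?_, hA1, hA2, hA3⟩
    have hT : q3T h N Y e = qdsW η (Dt / N) * h (M / Y) ^ 2 * (ps0 t * ps0 u) := by
      rw [hTdef]
      by_cases hDN : e.1.1 * e.2.2 ≤ e.1.2 * e.2.1 + N
      · rw [if_pos ⟨hlt, hDN⟩, qdsW_eq hη]
        rw [le_div_iff₀ hN']
        exact not_lt.1 hsm
      · rw [if_neg (fun h3 => hDN h3.2), qdsW_hi]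
        · simp
        · rw [le_div_iff₀ hN']
          have h4 : (e.1.2 : ℝ) * e.2.1 + N < e.1.1 * e.2.2 := by exact_mod_cast not_le.1 hDN
          rw [hDt, hM, ha, hb, hc, hd]
          linarith
    rw [hT]
    exact hmain

/-- PROOF. Adapt `qds` (`Lib_MP_f1a94e_eq/QdS.lean`). The matrices `e ∈ SN n (h2 Y)`, `1 ≤ n ≤ N`, are the pairs `V = (a, b)`, `V' = (c, d)` of coprime pairs of positive integers with `1 ≤ a d - b c ≤ N`, `b c ≤ h2 Y`, and `F4 f (cj f) (cj f) f e = F2 f V conj (F2 f V')`; so the sum is `S = ∑ κ(V, V') F2 f V conj (F2 f V') w(V, V')`,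
`κ = 1` if `a d ≡ b c mod D`, else `0` (periodic modulo `D`), `w = ww((a d - b c)/N) h(b c/Y)^2 ps0(log(d/a)) ps0(log(c/b))`. Let `0 < η < 1` and, for `x, x' > 0`, `y = x x' exp τ`:
`F x x' τ σ = w_η(y σ) h(y)^2 ps0(log x' - log x + τ) ps0(log x' - log x - τ)`, `F = 0` for `x ≤ 0` or `x' ≤ 0`, `w_η(s) = ww(s) min 1 (max 0 (s/η))` (`qdsW`). On the support `h1 < y < h2`, `|log(x'/x)| < 1`, `|τ| < 1`, `0 < y σ < 1`, so `c0 = sqrt(h1) exp(-1)`, `C0 = sqrt(h2) exp 1`, `B = 1 + 1/h1`, `K = 10 C0` are admissible in `arcp3`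
(continuity: near points with `x` or `x'` small `F = 0`), which bounds the sum with `F`. Comparison of the weights for a pair: put `Δ = dirn V' - dirn V = log(a d/(b c))`, `x = a/sqrt Y`, `x' = c/sqrt Y`, `τ = dirn V = log(b/a)`: `b c/Y = x x' exp τ = y` exactly, `(a d - b c)/N = (b c/Y) Y (exp Δ - 1)/N`, `log(c/b) = log(x'/x) - τ` exactly,
`log(d/a) = log(x'/x) + τ + Δ`. If `F ≠ 0`: `0 < Δ ≤ B N/Y`; if the pair is in the range of `S` with `h(b c/Y) ≠ 0`: `0 < Δ ≤ (a d - b c)/(b c) ≤ N/(h1 Y)`. In both cases `Δ → 0` and `(a d - b c)/N - y σ → 0` uniformly as `Y → ∞` (`N` fixed, `y ≤ h2`); all pairs in question are in the box: `a^2 = a d (a/d) ≤ (h2 Y + N) exp 1`, etc. By uniform continuity of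
`ww`, `ps0` the weights differ by at most `η` for pairs with `a d - b c ≥ 2 η N` and by at most `1` otherwise. The number of pairs in question (`c0/2 sqrt Y ≤ a, c`, `|Δ| ≤ 2 B N/Y`) is at most `C N Y` (`cntA3`), and those with `1 ≤ a d - b c ≤ 2 η N` are at most `2 η N * C Y` (`cnt3` for each `n ≤ 2 η N`, `B = 2`). Choose `η`, then `N0` from `arcp3`.
(Pairs with `a d - b c ≤ 0` do not occur in `S`, and have `F = 0`; pairs with `a d - b c > N`, `F ≠ 0`: `y σ < 1` and `(a d - b c)/N → y σ`, so `ww` is small there by continuity, `ww(s) = 0` for `s ≥ 1`.) -/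
theorem qds3 (f : ℕ → ℂ) (hf : ∀ n, ‖f n‖ ≤ 1) (hM : MRS f) : QdSmall3 f := by
  classical
  intro D hD h h1 h2 hh ε hε
  have h1p := hh.pos
  have h2p := hh.one
  by_cases h12 : h1 ≤ h2
  swap
  · -- trivial: `h = 0`
    have hz : ∀ y, h y = 0 := by
      intro y
      rcases le_total y h1 with h3 | h3
      · exact hh.lo y h3
      · exact hh.hi y (by linarith)
    refine ⟨0, fun N _ => ?_⟩
    filter_upwards [eventually_ge_atTop 0] with Y hY
    have h0 : ∑ n ∈ (Icc 1 N).filter (fun n => D ∣ n), ((ww ((n : ℝ) / N) : ℝ) : ℂ) *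
      Qs3 f n (h2 * Y) (Wh (fun y => h y ^ 2)) Y = 0 := by
      apply sum_eq_zero
      intro n _
      have : Qs3 f n (h2 * Y) (Wh (fun y => h y ^ 2)) Y = 0 := by
        unfold Qs3 Wh
        apply sum_eq_zero
        intro e _
        dsimp only
        rw [hz]
        simp
      rw [this, mul_zero]
    rw [h0, norm_zero]
    positivity
  have hs1 : 0 < Real.sqrt h1 := Real.sqrt_pos.2 h1p
  have hs2 : 0 < Real.sqrt h2 := Real.sqrt_pos.2 (by linarith)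
  have hs12 : Real.sqrt h1 ≤ Real.sqrt h2 := Real.sqrt_le_sqrt h12
  obtain ⟨C, hC, hcntA⟩ := cntA3 (Real.sqrt h1 / 4) (4 * Real.sqrt h2) (4 * Real.sqrt h2) (1 / h1) (by positivity)
    (by linarith) (by positivity) (by positivity)
  obtain ⟨C1, hC1, hcnt⟩ := cnt3 1
  set K : ℝ := C + 2 * C1 * h2 with hK
  have hKp : 0 < K := by positivity
  set η : ℝ := min 1 (ε / (4 * K)) with hηd
  have hη : 0 < η := lt_min one_pos (by positivity)
  have hη1 : η ≤ 1 := min_le_left _ _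
  have hη2 : η * (4 * K) ≤ ε := by
    have := min_le_right 1 (ε / (4 * K))
    rwa [← hηd, le_div_iff₀ (by positivity)] at this
  obtain ⟨N0, hN0⟩ := arcp3 f hf hM D hD (q3K D) (q3K_bd D) (q3K_per D) (Real.sqrt h1 / 4) (4 * Real.sqrt h2)
    (1 + 1 / h1) (4 * Real.sqrt h2) (by positivity) (by linarith) (by positivity) le_rfl
    (q3F h η (Real.sqrt h1 / 4)) (q3F_cont hh.cont η (by positivity))
    (q3F_van hh hη) (ε / 2) (by linarith)
  obtain ⟨δ, hδ, hw⟩ := Metric.uniformContinuous_iff.1 (qdsW_uc η hη) (η / 4) (by linarith)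
  have hw' : ∀ s s' : ℝ, |s - s'| < δ → |qdsW η s - qdsW η s'| < η / 4 := by
    intro s s' hs
    have := hw (a := s) (b := s') (by rw [Real.dist_eq]; exact hs)
    rwa [Real.dist_eq] at this
  refine ⟨max N0 1, fun N hN => ?_⟩
  have hN1 : 1 ≤ N := (le_max_right _ _).trans hN
  have hN' : (1 : ℝ) ≤ N := by exact_mod_cast hN1
  have hl1 : Tendsto (fun Y : ℝ => (N : ℝ) / (h1 * Y)) atTop (nhds 0) := by
    have h3 : Tendsto (fun Y : ℝ => ((N : ℝ) / h1) / Y) atTop (nhds 0) := tendsto_const_nhds.div_atTop tendsto_id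
    refine h3.congr (fun Y => ?_)
    rw [div_div]
  have hl2 : Tendsto (fun Y : ℝ => h2 * (N : ℝ) / (h1 ^ 2 * Y)) atTop (nhds 0) := by
    have h3 : Tendsto (fun Y : ℝ => (h2 * (N : ℝ) / h1 ^ 2) / Y) atTop (nhds 0) :=
      tendsto_const_nhds.div_atTop tendsto_id
    refine h3.congr (fun Y => ?_)
    rw [div_div]
  filter_upwards [hN0 N ((le_max_left _ _).trans hN), hcntA N hN1, eventually_gt_atTop 0,
    eventually_ge_atTop (N : ℝ), hl1.eventually_lt_const (by norm_num : (0 : ℝ) < 1), hl2.eventually_lt_const hδ,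
    hl1.eventually_lt_const (by positivity : 0 < η / 2)] with Y hA hB hY0 hY1 hY2 hY3 hY4
  rw [q3_sum f D hh hY1 hY0]
  set P := PB (4 * Real.sqrt h2 * Real.sqrt Y) (4 * Real.sqrt h2 * Real.sqrt Y) with hP
  rw [← sum_product' P P (fun V V' => q3K D V V' * (F2 f V * (starRingEnd ℂ) (F2 f V')) *
        ((q3F h η (Real.sqrt h1 / 4) (V.1 / Real.sqrt Y) (V'.1 / Real.sqrt Y) (dirn V)
          (Y * (dirn V' - dirn V) / N) : ℝ) : ℂ))] at hA
  have hdec : ∑ e ∈ P ×ˢ P, q3K D e.1 e.2 * (F2 f e.1 * (starRingEnd ℂ) (F2 f e.2)) * ((q3T h N Y e : ℝ) : ℂ) =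
      ∑ e ∈ P ×ˢ P, q3K D e.1 e.2 * (F2 f e.1 * (starRingEnd ℂ) (F2 f e.2)) *
        ((q3F h η (Real.sqrt h1 / 4) (e.1.1 / Real.sqrt Y) (e.2.1 / Real.sqrt Y) (dirn e.1)
          (Y * (dirn e.2 - dirn e.1) / N) : ℝ) : ℂ) +
      ∑ e ∈ P ×ˢ P, q3K D e.1 e.2 * (F2 f e.1 * (starRingEnd ℂ) (F2 f e.2)) *
        ((q3T h N Y e - q3F h η (Real.sqrt h1 / 4) (e.1.1 / Real.sqrt Y) (e.2.1 / Real.sqrt Y) (dirn e.1)
          (Y * (dirn e.2 - dirn e.1) / N) : ℝ) : ℂ) := by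
    rw [← sum_add_distrib]
    apply sum_congr rfl
    intro e _
    rw [Complex.ofReal_sub]
    ring
  rw [hdec]
  refine (norm_add_le _ _).trans ?_
  have hsec : ‖∑ e ∈ P ×ˢ P, q3K D e.1 e.2 * (F2 f e.1 * (starRingEnd ℂ) (F2 f e.2)) *
        ((q3T h N Y e - q3F h η (Real.sqrt h1 / 4) (e.1.1 / Real.sqrt Y) (e.2.1 / Real.sqrt Y) (dirn e.1)
          (Y * (dirn e.2 - dirn e.1) / N) : ℝ) : ℂ)‖ ≤
      ε / 2 * N * Y := by
    have hpt : ∀ e ∈ P ×ˢ P, ‖q3K D e.1 e.2 * (F2 f e.1 * (starRingEnd ℂ) (F2 f e.2)) *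
        ((q3T h N Y e - q3F h η (Real.sqrt h1 / 4) (e.1.1 / Real.sqrt Y) (e.2.1 / Real.sqrt Y) (dirn e.1)
          (Y * (dirn e.2 - dirn e.1) / N) : ℝ) : ℂ)‖ ≤
        (if Real.sqrt h1 / 4 * Real.sqrt Y ≤ e.1.1 ∧ Real.sqrt h1 / 4 * Real.sqrt Y ≤ e.2.1 ∧
          |dirn e.2 - dirn e.1| ≤ 1 / h1 * N / Y then η else 0) +
          (if q3Bad h2 η N Y e then 2 else 0) := by
      intro e he
      rw [mem_product, hP, mem_PB, mem_PB] at he
      obtain ⟨⟨⟨p1, -⟩, ⟨p2, -⟩, -⟩, ⟨⟨p4, -⟩, ⟨p5, -⟩, -⟩⟩ := he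
      have hcm := q3_cmp hh hη hη1 hN1 hY0 hY2.le hY3 hY4.le hw' e p1 p2 p4 p5
      set DD := q3T h N Y e - q3F h η (Real.sqrt h1 / 4) (e.1.1 / Real.sqrt Y) (e.2.1 / Real.sqrt Y) (dirn e.1)
          (Y * (dirn e.2 - dirn e.1) / N) with hDD
      have hF2 : ∀ z, ‖F2 f z‖ ≤ 1 := by
        intro z
        unfold F2
        rw [norm_mul, norm_cj]
        exact mul_le_one₀ (hf _) (norm_nonneg _) (hf _)
      have hKf : ‖q3K D e.1 e.2 * (F2 f e.1 * (starRingEnd ℂ) (F2 f e.2))‖ ≤ 1 := by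
        rw [norm_mul, norm_mul, RCLike.norm_conj]
        exact mul_le_one₀ (q3K_bd1 D e.1 e.2) (by positivity) (mul_le_one₀ (hF2 _) (norm_nonneg _) (hF2 _))
      rw [norm_mul, Complex.norm_real, Real.norm_eq_abs]
      refine (mul_le_of_le_one_left (abs_nonneg _) hKf).trans ?_
      have t1 : (0 : ℝ) ≤ if q3Bad h2 η N Y e then 2 else 0 := by split_ifs <;> norm_num
      have t2 : (0 : ℝ) ≤ if Real.sqrt h1 / 4 * Real.sqrt Y ≤ e.1.1 ∧ Real.sqrt h1 / 4 * Real.sqrt Y ≤ e.2.1 ∧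
          |dirn e.2 - dirn e.1| ≤ 1 / h1 * N / Y then η else 0 := by
        split_ifs
        · exact hη.le
        · exact le_rfl
      rcases hcm with ⟨m1, m2⟩ | ⟨m1, m2, m3, m4, m5⟩ | m1
      · rw [if_pos m2]
        linarith
      · rw [if_pos ⟨m2, m3, m4⟩, if_pos m5]
        linarith
      · linarith
    refine (norm_sum_le _ _).trans ((sum_le_sum hpt).trans ?_)
    rw [sum_add_distrib, ← sum_filter, ← sum_filter, sum_const, sum_const, nsmul_eq_mul, nsmul_eq_mul]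
    have hb := q3_bad hC1 hη hη1 h2p hcnt (N := N) (Y := Y) hY1 (4 * Real.sqrt h2 * Real.sqrt Y)
    rw [← hP] at hb
    have hb2 : (((P ×ˢ P).filter (fun e : (ℕ × ℕ) × (ℕ × ℕ) => Real.sqrt h1 / 4 * Real.sqrt Y ≤ e.1.1 ∧
        Real.sqrt h1 / 4 * Real.sqrt Y ≤ e.2.1 ∧ |dirn e.2 - dirn e.1| ≤ 1 / h1 * N / Y)).card : ℝ) ≤ C * N * Y := by
      refine le_trans (le_of_eq ?_) hB
      congr
    have hb1 : (((P ×ˢ P).filter (fun e : (ℕ × ℕ) × (ℕ × ℕ) => q3Bad h2 η N Y e)).card : ℝ) ≤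
        η * N * (C1 * (h2 * Y)) := by
      refine le_trans (le_of_eq ?_) hb
      congr
    have t1 := mul_le_mul_of_nonneg_right hb2 hη.le
    have hNY : 0 ≤ (N : ℝ) * Y := by positivity
    have t3 : C * N * Y * η + η * N * (C1 * (h2 * Y)) * 2 = η * (4 * K) / 4 * ((N : ℝ) * Y) := by
      rw [hK]
      ring
    have t4 : η * (4 * K) / 4 * ((N : ℝ) * Y) ≤ ε / 4 * ((N : ℝ) * Y) :=
      mul_le_mul_of_nonneg_right (by linarith) hNY
    calc _ ≤ C * N * Y * η + η * N * (C1 * (h2 * Y)) * 2 := by linarith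
      _ = η * (4 * K) / 4 * ((N : ℝ) * Y) := t3
      _ ≤ ε / 4 * ((N : ℝ) * Y) := t4
      _ ≤ ε / 2 * ((N : ℝ) * Y) := mul_le_mul_of_nonneg_right (by linarith) hNY
      _ = ε / 2 * N * Y := by ring
  refine (add_le_add hA hsec).trans (le_of_eq ?_)
  ring

end Pool.Agent.Spl
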