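import Pool.Agent.Lib_MP_92ef0c_sp.PsiA
import Pool.Agent.Lib_MP_92ef0c_sp.PsiB
import Pool.Agent.Lib_MP_92ef0c_sp.TSL

/-!
# Test functions with integral zero over `t` and `u`
-/

set_option autoImplicit false

namespace Pool.Agent.Spl

open Finset Pool.Agent.GaussMR Pool.Agent.OmAll Pool.Agent.OmEq MeasureTheory Filter

private theorem tvf2_int_t {b : ℝ} {W : ℝ → ℝ → ℝ → ℂ} (hW : TS b W) (y u : ℝ) : Integrable (fun t => W y t u) := by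
  obtain ⟨R, -, hR⟩ := hW.bdd
  have hc : Continuous (fun t => W y t u) :=
    hW.cont.comp (continuous_const.prodMk (continuous_id.prodMk continuous_const))
  apply hc.integrable_of_hasCompactSupport
  apply HasCompactSupport.intro (isCompact_Icc (a := -R) (b := R))
  intro t ht
  by_contra hne
  exact ht (Set.mem_Icc.2 (abs_le.1 (hR y t u hne).2.1))

private theorem tvf2_w1 {b : ℝ} {W : ℝ → ℝ → ℝ → ℂ} (hW : TS b W) (y u : ℝ) :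
    (∫ t, (W y t u - ((ps0 t : ℝ) : ℂ) * ∫ t', W y t' u)) = 0 := by
  have h1 : Integrable (fun t => ((ps0 t : ℝ) : ℂ) * ∫ t', W y t' u) :=
    (limh_ps0_cont.integrable_of_hasCompactSupport limh_ps0_supp).ofReal.mul_const _
  rw [integral_sub (tvf2_int_t hW y u) h1, integral_mul_const, limh_ps0_intC, one_mul, sub_self]

private theorem tvf2_w2 {b : ℝ} {W : ℝ → ℝ → ℝ → ℂ} (hW : TS b W) (h0 : ∀ y, (∫ t, ∫ u, W y t u) = 0) (y t : ℝ) :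
    (∫ u, (((ps0 t : ℝ) : ℂ) * ∫ t', W y t' u)) = 0 := by
  rw [integral_const_mul, ← ts_swap hW y, h0 y, mul_zero]

/-- PROOF. `W = W1 + W2`, `W2 y t u = ps0 t * ∫ t', W y t' u` (`ts_c1`), `W1 = W - W2`. `∫ t, W1 y t u = 0` as `∫ ps0 = 1` (`limh_ps0_intC`): `pairA`, second alternative. `∫ u, W2 y t u = ps0 t * ∫ u, ∫ t', W y t' u = 0` (`ts_swap`): `pairB`, second alternative. -/
theorem tvf2 (n M : ℕ) [NeZero M] (hn : 0 < n) (hnM : n.primeFactors ⊆ M.primeFactors) (E : Finset ℕ)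
    (f1 f2 f3 f4 : ℕ → ℂ) (ω1 ω2 ω3 ω4 : ℂ) (h1 : MF f1 E ω1) (h2 : MF f2 E ω2) (h3 : MF f3 E ω3) (h4 : MF f4 E ω4)
    (hω1 : ‖ω1‖ = 1) (hω2 : ‖ω2‖ = 1) (hω3 : ‖ω3‖ = 1) (hω4 : ‖ω4‖ = 1) (ψ : ZMod M → ZMod M → ZMod M → ZMod M → ℂ)
    (hψ : ∀ x1 x2 x3 x4, ‖ψ x1 x2 x3 x4‖ ≤ 1) (b : ℝ) (W : ℝ → ℝ → ℝ → ℂ) (hW : TS b W)
    (h0 : ∀ y, (∫ t, ∫ u, W y t u) = 0) :
    Tendsto (fun X : ℝ => (∑ e ∈ SN n (b * X), F4 f1 f2 f3 f4 e * cz M ψ e * W (yS e / X) (tS e) (uS e)) / X)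
      atTop (nhds 0) := by
  have hW2 := ts_c1 hW
  have hW1 := hW.sub hW2
  have e1 := pairA n M hn hnM E f1 f2 f3 f4 ω1 ω4 h1 h2.bd h3.bd h4 hω1 hω4 ψ hψ b _ hW1
    (Or.inr fun y u => tvf2_w1 hW y u)
  have e2 := pairB n M hn hnM E f1 f2 f3 f4 ω2 ω3 h1.bd h2 h3 h4.bd hω2 hω3 ψ hψ b _ hW2
    (Or.inr fun y t => tvf2_w2 hW h0 y t)
  have e3 := e1.add e2
  rw [add_zero] at e3
  refine e3.congr fun X => ?_
  rw [← add_div, ← sum_add_distrib]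
  congr 1
  refine sum_congr rfl fun e _ => ?_
  ring

/-- PROOF. `tvf2` with `M = Q`, `ψ x1 x2 x3 x4 = 1` if `x2 * x3 = n0` in `ZMod Q`, otherwise `0` (`ZMod.natCast_eq_natCast_iff`, `Nat.cast_mul`). -/
theorem tvfQ (h0 Q n0 : ℕ) (hQ : HQ h0 Q n0) (E : Finset ℕ)
    (f1 f2 f3 f4 : ℕ → ℂ) (ω1 ω2 ω3 ω4 : ℂ) (h1 : MF f1 E ω1) (h2 : MF f2 E ω2) (h3 : MF f3 E ω3) (h4 : MF f4 E ω4)
    (hω1 : ‖ω1‖ = 1) (hω2 : ‖ω2‖ = 1) (hω3 : ‖ω3‖ = 1) (hω4 : ‖ω4‖ = 1) (b : ℝ) (W : ℝ → ℝ → ℝ → ℂ) (hW : TS b W)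
    (hz : ∀ y, (∫ t, ∫ u, W y t u) = 0) :
    Tendsto (fun X : ℝ => (∑ e ∈ SQ h0 Q n0 (b * X), F4 f1 f2 f3 f4 e * W (yS e / X) (tS e) (uS e)) / X)
      atTop (nhds 0) := by
  classical
  haveI : NeZero Q := ⟨hQ.posQ.ne'⟩
  have hsub : h0.primeFactors ⊆ Q.primeFactors := Nat.primeFactors_mono hQ.dvd hQ.posQ.ne'
  have e1 := tvf2 h0 Q hQ.pos hsub E f1 f2 f3 f4 ω1 ω2 ω3 ω4 h1 h2 h3 h4 hω1 hω2 hω3 hω4
    (fun _ x2 x3 _ => if x2 * x3 = (n0 : ZMod Q) then 1 else 0)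
    (fun x1 x2 x3 x4 => by split_ifs <;> simp) b W hW hz
  refine e1.congr fun X => ?_
  congr 1
  unfold SQ
  rw [sum_filter]
  refine sum_congr rfl fun e _ => ?_
  have hiff : ((e.b : ZMod Q) * (e.c : ZMod Q) = (n0 : ZMod Q)) ↔ e.b * e.c ≡ n0 [MOD Q] := by
    rw [← Nat.cast_mul]
    exact ZMod.natCast_eq_natCast_iff _ _ _
  unfold cz
  beta_reduce
  by_cases h : e.b * e.c ≡ n0 [MOD Q]
  · rw [if_pos h, if_pos (hiff.2 h), mul_one]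
  · rw [if_neg h, if_neg (fun h' => h (hiff.1 h')), mul_zero, zero_mul]

end Pool.Agent.Spl
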