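import Pool.Agent.Lib_MP_92ef0c_sp.PsiK
import Pool.Agent.Lib_MP_92ef0c_sp.Tvf2

/-!
# Stage B: average over the classes
-/

set_option autoImplicit false

namespace Pool.Agent.Spl

open Finset Pool.Agent.GaussMR Pool.Agent.OmAll Pool.Agent.OmEq MeasureTheory Filter

open Classical in
/-- PROOF. `pairA1` with `n h0` in place of `n`, `M = n Q`, `ψ = psk n Q n0`, `f1 = f4 = f`, `f2 = f3 = cj f` (`(n h0).primeFactors ⊆ (n Q).primeFactors` as `h0 ∣ Q`). For `e ∈ SN (n h0) (b X)`: `cz psk e` is the indicator of `kap3` (`cz_psk`), and either `F4 f (cj f) (cj f) f e = 0` (if `b` or `c` is not coprime to `Q`) or `(b c, Q) = 1` and `psk_one` applies. -/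
theorem gramB3 (h0 Q n0 : ℕ) (hQ : HQ h0 Q n0) (n : ℕ) (hn : 0 < n) (hQn : Q ∣ n) (E : Finset ℕ) (f : ℕ → ℂ) (ω : ℂ)
    (hf : MF f E ω) (hω : ‖ω‖ = 1) (hz : ∀ m : ℕ, ¬ m.Coprime Q → f m = 0) (b : ℝ) (W : ℝ → ℝ → ℝ → ℂ) (hW : TS b W) :
    Tendsto (fun X : ℝ => (∑ e ∈ (SN (n * h0) (b * X)).filter (kap3 n Q n0), F4 f (cj f) (cj f) f e *
      W (yS e / X) (tS e) (uS e) - ((1 / (Q * n.totient) : ℝ) : ℂ) * Qs3 f (n * h0) (b * X) W X) / X) atTop (nhds 0) := by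
  haveI : NeZero (n * Q) := ⟨(Nat.mul_pos hn hQ.posQ).ne'⟩
  have hsub : (n * h0).primeFactors ⊆ (n * Q).primeFactors :=
    Nat.primeFactors_mono (Nat.mul_dvd_mul_left n hQ.dvd) (Nat.mul_pos hn hQ.posQ).ne'
  have hcj : ∀ m, ‖cj f m‖ ≤ 1 := fun m => by rw [norm_cj]; exact hf.bd m
  have h1 := pairA1 (n * h0) (n * Q) (Nat.mul_pos hn hQ.pos) hsub E f (cj f) (cj f) f ω ω hf hcj hcj hf hω hω
    (psk n Q n0) (psk_le n Q n0) b W hW
  refine h1.congr fun X => ?_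
  congr 1
  unfold Qs3
  rw [sum_filter, mul_sum, ← sum_sub_distrib]
  refine sum_congr rfl fun e he => ?_
  have hS := (mem_SN.1 he).1
  rw [cz_psk n Q n0 hn hQ.posQ e]
  by_cases hc : (e.b * e.c).Coprime Q
  · rw [psk_one n Q n0 h0 hn hQ.posQ hQn e hS hc]
    split_ifs <;> ring
  · have hF : F4 f (cj f) (cj f) f e = 0 := by
      have h2 : ¬ (e.b.Coprime Q ∧ e.c.Coprime Q) := fun h => hc (Nat.Coprime.mul_left h.1 h.2)
      unfold F4
      by_cases hb : e.b.Coprime Q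
      · have hc' : ¬ e.c.Coprime Q := fun h => h2 ⟨hb, h⟩
        have : cj f e.c = 0 := by
          unfold cj
          rw [hz _ hc', map_zero]
        rw [this, mul_zero, zero_mul]
      · have : cj f e.b = 0 := by
          unfold cj
          rw [hz _ hb, map_zero]
        rw [this, mul_zero, zero_mul, zero_mul]
    rw [hF]
    simp

/-- PROOF. `tvf2` with `M = n`, `ψ = 1`, `f1 = f4 = f`, `f2 = f3 = cj f`. -/
theorem tvfB3 (n : ℕ) (hn : 0 < n) (E : Finset ℕ) (f : ℕ → ℂ) (ω : ℂ)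
    (hf : MF f E ω) (hω : ‖ω‖ = 1) (b : ℝ) (W : ℝ → ℝ → ℝ → ℂ) (hW : TS b W)
    (h0 : ∀ y, (∫ t, ∫ u, W y t u) = 0) :
    Tendsto (fun X : ℝ => Qs3 f n (b * X) W X / X) atTop (nhds 0) := by
  haveI : NeZero n := ⟨hn.ne'⟩
  have h1 := tvf2 n n hn (Finset.Subset.refl _) E f (cj f) (cj f) f ω ((starRingEnd ℂ) ω) ((starRingEnd ℂ) ω) ω
    hf hf.cj' hf.cj' hf hω (by rw [RCLike.norm_conj]; exact hω) (by rw [RCLike.norm_conj]; exact hω) hω
    (fun _ _ _ _ => 1) (fun _ _ _ _ => by simp) b W hW h0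
  refine h1.congr fun X => ?_
  congr 1
  unfold Qs3
  refine sum_congr rfl fun e _ => ?_
  unfold cz
  ring

end Pool.Agent.Spl
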