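import Pool.Agent.Lib_MP_92ef0c_sp.Apx3
import Pool.Agent.Lib_MP_92ef0c_sp.ApxN3
import Pool.Agent.Lib_MP_92ef0c_sp.GramB3
import Pool.Agent.Lib_MP_f1a94e_eq.RedB

/-!
# Stage B: reduction to weighted sums over the determinants
-/

set_option autoImplicit false

namespace Pool.Agent.Spl

open Finset Pool.Agent.GaussMR Pool.Agent.OmAll Pool.Agent.OmEq MeasureTheory Filter

theorem redb3_int1 {b : ℝ} {W : ℝ → ℝ → ℝ → ℂ} (hW : TS b W) (y t : ℝ) : Integrable (fun u => W y t u) := by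
  obtain ⟨R, -, hR⟩ := hW.bdd
  have hc : Continuous (fun u => W y t u) :=
    hW.cont.comp (Continuous.prodMk_right y |>.comp (Continuous.prodMk_right t))
  refine hc.integrable_of_hasCompactSupport (HasCompactSupport.intro (isCompact_Icc (a := -R) (b := R)) ?_)
  intro u hu
  by_contra hcon
  exact hu (abs_le.mp (hR y t u hcon).2.2)

theorem redb3_int2 {b : ℝ} {W : ℝ → ℝ → ℝ → ℂ} (hW : TS b W) (y : ℝ) : Integrable (fun t => ∫ u, W y t u) := by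
  obtain ⟨R, -, hR⟩ := hW.bdd
  have h1 : (fun t => ∫ u, W y t u) = fun t => ∫ u in Set.Icc (-R) R, W y t u := by
    funext t
    rw [MeasureTheory.setIntegral_eq_integral_of_forall_compl_eq_zero]
    intro u hu
    by_contra hcon
    exact hu (abs_le.mp (hR y t u hcon).2.2)
  have hc : Continuous (fun t => ∫ u, W y t u) := by
    rw [h1]
    refine continuous_parametric_integral_of_continuous ?_ isCompact_Icc
    exact hW.cont.comp (Continuous.prodMk_right y)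
  refine hc.integrable_of_hasCompactSupport (HasCompactSupport.intro (isCompact_Icc (a := -R) (b := R)) ?_)
  intro t ht
  have h2 : (fun u => W y t u) = fun _ => 0 := by
    funext u
    by_contra hcon
    exact ht (abs_le.mp (hR y t u hcon).2.1)
  rw [h2, integral_zero]

theorem redb3_ps0_intg : Integrable (fun t => ((ps0 t : ℝ) : ℂ)) := by
  have hc : Continuous (fun t => ((ps0 t : ℝ) : ℂ)) := Complex.continuous_ofReal.comp redb_ps0_cont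
  refine hc.integrable_of_hasCompactSupport (HasCompactSupport.intro (isCompact_Icc (a := (-1 : ℝ)) (b := 1)) ?_)
  intro t ht
  have : ps0 t = 0 := by
    apply redb_ps0_zero
    by_contra hcon
    push Not at hcon
    exact ht (abs_le.mp hcon.le)
  rw [this, Complex.ofReal_zero]

theorem redb3_ps0_intC : (∫ t, ((ps0 t : ℝ) : ℂ)) = 1 := by
  rw [integral_complex_ofReal, redb_ps0_int, Complex.ofReal_one]

theorem redb3_zero {b : ℝ} {W : ℝ → ℝ → ℝ → ℂ} (hW : TS b W) (y : ℝ) :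
    (∫ t, ∫ u, (W y t u - (∫ t', ∫ u', W y t' u') * ((ps0 t * ps0 u : ℝ) : ℂ))) = 0 := by
  set c : ℂ := ∫ t', ∫ u', W y t' u' with hc
  have h1 : ∀ t, (∫ u, (W y t u - c * ((ps0 t * ps0 u : ℝ) : ℂ))) = (∫ u, W y t u) - c * ((ps0 t : ℝ) : ℂ) := by
    intro t
    have e1 : (fun u => W y t u - c * ((ps0 t * ps0 u : ℝ) : ℂ)) =
        fun u => W y t u - (c * ((ps0 t : ℝ) : ℂ)) * ((ps0 u : ℝ) : ℂ) := by
      funext u
      push_cast
      ring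
    rw [e1, integral_sub (redb3_int1 hW y t) (redb3_ps0_intg.const_mul _), integral_const_mul, redb3_ps0_intC, mul_one]
  simp_rw [h1]
  rw [integral_sub (redb3_int2 hW y) (redb3_ps0_intg.const_mul _), integral_const_mul, redb3_ps0_intC, mul_one, ← hc,
    sub_self]

/-- linearity and the change of scale -/
theorem redb3_scale (f : ℕ → ℂ) (h : ℝ → ℝ) (h1 h2 : ℝ) (hh : HF h h1 h2) (n : ℕ) (a b X : ℝ) (J : ℕ)
    (hJ : 1 ≤ J) (hX : 0 < X) (hb : (J : ℝ) ^ 2 * h2 ≤ b) :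
    Qs3 f n (b * X) (fun y t u => ((a * h (y / (J : ℝ) ^ 2) ^ 2 : ℝ) : ℂ) * ((ps0 t * ps0 u : ℝ) : ℂ)) X =
      (a : ℂ) * Qs3 f n (h2 * ((J : ℝ) ^ 2 * X)) (Wh (fun y => h y ^ 2)) ((J : ℝ) ^ 2 * X) := by
  classical
  have hJ0 : (0 : ℝ) < (J : ℝ) ^ 2 := by
    have : (0 : ℝ) < J := by exact_mod_cast hJ
    positivity
  unfold Qs3
  rw [Finset.mul_sum]
  symm
  have hsub : SN n (h2 * ((J : ℝ) ^ 2 * X)) ⊆ SN n (b * X) := by
    intro e he
    have he3 := mem_SN.1 he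
    refine mem_SN.2 ⟨he3.1, he3.2.trans ?_⟩
    nlinarith
  have key : ∀ e : Q4, h (yS e / ((J : ℝ) ^ 2 * X)) = h (yS e / X / (J : ℝ) ^ 2) := by
    intro e
    rw [div_div, mul_comm X]
  rw [← Finset.sum_subset hsub]
  · refine Finset.sum_congr rfl (fun e _ => ?_)
    unfold Wh
    beta_reduce
    rw [key]
    push_cast
    ring
  · intro e he hne
    have he3 := mem_SN.1 he
    have h4 : h2 * ((J : ℝ) ^ 2 * X) < yS e := by
      by_contra hcon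
      push Not at hcon
      exact hne (mem_SN.2 ⟨he3.1, hcon⟩)
    have h5 : h (yS e / X / (J : ℝ) ^ 2) = 0 := by
      rw [← key]
      apply hh.hi
      rw [le_div_iff₀ (by positivity)]
      exact h4.le
    beta_reduce
    rw [h5]
    push_cast
    ring

/-- comparison of two weights -/
theorem redb3_cmp (f : ℕ → ℂ) (hf : ∀ n, ‖f n‖ ≤ 1) (C : ℝ)
    (hC : ∀ n : ℕ, 0 < n → ∀ x : ℝ, (n : ℝ) ≤ x →
      (((SN n x).filter (fun e => |tS e| ≤ 1 ∧ |uS e| ≤ 1)).card : ℝ) ≤ C * x)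
    (n : ℕ) (hn : 0 < n) (c d : ℝ → ℂ) (κ : ℝ) (hκ : 0 ≤ κ) (hcd : ∀ y, ‖c y - d y‖ ≤ κ) (x X : ℝ) (hx : (n : ℝ) ≤ x) :
    ‖Qs3 f n x (fun y t u => c y * ((ps0 t * ps0 u : ℝ) : ℂ)) X - Qs3 f n x (fun y t u => d y * ((ps0 t * ps0 u : ℝ) : ℂ)) X‖ ≤
      κ * (C * x) := by
  refine le_trans ?_ (mul_le_mul_of_nonneg_left (hC n hn x hx) hκ)
  unfold Qs3
  rw [← Finset.sum_sub_distrib]
  calc ‖∑ e ∈ SN n x, (F4 f (cj f) (cj f) f e * (c (yS e / X) * ((ps0 (tS e) * ps0 (uS e) : ℝ) : ℂ)) -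
        F4 f (cj f) (cj f) f e * (d (yS e / X) * ((ps0 (tS e) * ps0 (uS e) : ℝ) : ℂ)))‖
      ≤ ∑ e ∈ SN n x, (if |tS e| ≤ 1 ∧ |uS e| ≤ 1 then κ else 0) := by
        refine norm_sum_le_of_le _ (fun e _ => ?_)
        have e1 : F4 f (cj f) (cj f) f e * (c (yS e / X) * ((ps0 (tS e) * ps0 (uS e) : ℝ) : ℂ)) -
            F4 f (cj f) (cj f) f e * (d (yS e / X) * ((ps0 (tS e) * ps0 (uS e) : ℝ) : ℂ)) =
            F4 f (cj f) (cj f) f e * ((c (yS e / X) - d (yS e / X)) * ((ps0 (tS e) * ps0 (uS e) : ℝ) : ℂ)) := by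
          ring
        have a0 := redb_ps0_nonneg (tS e)
        have a0' := redb_ps0_nonneg (uS e)
        rw [e1, norm_mul, norm_mul, Complex.norm_real, Real.norm_eq_abs, abs_of_nonneg (mul_nonneg a0 a0')]
        have hcj : ∀ m, ‖cj f m‖ ≤ 1 := fun m => by
          rw [norm_cj]
          exact hf m
        have a5 := norm_F4_le hf hcj hcj hf e
        have a7 : ps0 (tS e) * ps0 (uS e) ≤ 1 := mul_le_one₀ (redb_ps0_le _) a0' (redb_ps0_le _)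
        have a8 := hcd (yS e / X)
        by_cases ht : |tS e| ≤ 1 ∧ |uS e| ≤ 1
        · rw [if_pos ht]
          calc ‖F4 f (cj f) (cj f) f e‖ * (‖c (yS e / X) - d (yS e / X)‖ * (ps0 (tS e) * ps0 (uS e))) ≤ 1 * (κ * 1) := by
                gcongr
            _ = κ := by ring
        · rw [if_neg ht]
          have h0 : ps0 (tS e) * ps0 (uS e) = 0 := by
            by_cases h1 : |tS e| ≤ 1
            · have h2 : ¬ |uS e| ≤ 1 := fun h => ht ⟨h1, h⟩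
              push Not at h2
              rw [redb_ps0_zero (uS e) h2.le, mul_zero]
            · push Not at h1
              rw [redb_ps0_zero (tS e) h1.le, zero_mul]
          rw [h0, mul_zero, mul_zero]
    _ = κ * (((SN n x).filter (fun e => |tS e| ≤ 1 ∧ |uS e| ≤ 1)).card : ℝ) := by
        rw [← Finset.sum_filter, Finset.sum_const, nsmul_eq_mul, mul_comm]

/-- one determinant: the limit statement -/
theorem redb3_one (h0 Q n0 : ℕ) (hQ : HQ h0 Q n0) (E : Finset ℕ) (f : ℕ → ℂ) (ω : ℂ)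
    (hf : MF f E ω) (hω : ‖ω‖ = 1) (hz : ∀ m : ℕ, ¬ m.Coprime Q → f m = 0) (h' : ℝ → ℝ) (h1 h2 : ℝ)
    (hh : HF h' h1 h2) (J N n : ℕ) (hJ : 1 ≤ J) (hN : 1 ≤ N) (hn : 1 ≤ n) (hQn : Q ∣ n) (b : ℝ)
    (hb : ((J : ℝ) + N) ^ 2 * h2 ≤ b) (hb0 : 0 < b) :
    Tendsto (fun X : ℝ => (Gm3 h0 Q n0 f (cj f) h' J N n (b * X) X - ((1 / (Q * n.totient) : ℝ) : ℂ) *
      Qs3 f (n * h0) (b * X) (fun y t u => (∫ t', ∫ u', WN3 h' J N n y t' u') * ((ps0 t * ps0 u : ℝ) : ℂ)) X) / X)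
      atTop (nhds 0) := by
  have hTS := WN3_ts h' h1 h2 hh J N n hJ hN hn b hb
  have hcj : ∀ m, ‖cj f m‖ ≤ 1 := fun m => by
    rw [norm_cj]
    exact hf.bd m
  have e1 := apxN3 h0 Q n0 hQ.pos f (cj f) hf.bd hcj h' h1 h2 hh J N n hJ hN hn b hb0
  rw [cj_cj] at e1
  have e2 := gramB3 h0 Q n0 hQ n hn hQn E f ω hf hω hz b (WN3 h' J N n) hTS
  have e3 := (tvfB3 (n * h0) (Nat.mul_pos hn hQ.pos) E f ω hf hω b _ (hTS.sub (ts_c2 hTS).2)
    (redb3_zero hTS)).const_mul ((1 / (Q * n.totient) : ℝ) : ℂ)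
  rw [mul_zero] at e3
  have e4 := (e1.add e2).add e3
  rw [add_zero, add_zero] at e4
  refine e4.congr (fun X => ?_)
  have e5 : Qs3 f (n * h0) (b * X) (fun y t u => WN3 h' J N n y t u -
        (∫ t', ∫ u', WN3 h' J N n y t' u') * ((ps0 t * ps0 u : ℝ) : ℂ)) X =
      Qs3 f (n * h0) (b * X) (WN3 h' J N n) X -
        Qs3 f (n * h0) (b * X) (fun y t u => (∫ t', ∫ u', WN3 h' J N n y t' u') * ((ps0 t * ps0 u : ℝ) : ℂ)) X := by
    unfold Qs3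
    rw [← Finset.sum_sub_distrib]
    refine Finset.sum_congr rfl (fun e _ => ?_)
    ring
  rw [e5]
  ring

theorem redb3_gm_zero (h0 Q n0 : ℕ) (f g : ℕ → ℂ) (h : ℝ → ℝ) (J N n : ℕ) (x X : ℝ) (hn : ¬ Q ∣ n) :
    Gm3 h0 Q n0 f g h J N n x X = 0 := by
  classical
  unfold Gm3
  apply Finset.sum_eq_zero
  intro e he
  exact absurd (mem_filter.1 he).2.1 hn

/-- PROOF. Adapt `redB` (`Lib_MP_f1a94e_eq/RedB.lean`). Given `h, h1, h2, ε`. `N0` from `hq` with `ε/4`, `N ≥ max N0 1`; `C` from `cnt3 1`; `J0 ≥ N` so large that `cnB` holds with `η = ε/(40 C h2 (h0+1) N)`. Fix `J ≥ J0`, `b = (J+N)^2 (h0+1) h2 ≤ 4 J^2 (h0+1) h2`. `Gm3 h0 Q n0 f (cj f)` has the product `F4 f (cj f) (cj f) f` (`cj_cj`).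
If `Q` does not divide `n`, `kap3` is false and `Gm3 = 0`. For `Q ∣ n`, `1 ≤ n ≤ N`, as `X → ∞`: (i) `apxN3` and `gramB3` for `WN3 h J N n` (`WN3_ts`): `Gm3 n = (1/(Q φ(n))) Qs3 f (n h0) (b X) WN3 X + o(X)`. (ii) `tvfB3` for `WN3 y t u - c y ps0 t ps0 u`, `c y = ∫ t, ∫ u, WN3 y t u = (2/3) ∫ WN h J N n y` (`ts_c2`, `WN3_int`).
(iii) `cnB`: `‖c y - (4 n N/(3 J^2)) h (y/J^2)^2 ww(n/N)‖ ≤ η n N/J^2`, so `Qs3 (c ⊗ ps0 ⊗ ps0)` differs from `(4 n N/(3 J^2)) ww(n/N) Qs3 f (n h0) (b X) (h (·/J^2)^2 ⊗ ps0 ⊗ ps0) X` by at most `η (n N/J^2) #{e ∈ SN (n h0) (b X) : |tS|, |uS| ≤ 1} ≤ η (n N/J^2) C b X ≤ 4 η n N C (h0+1) h2 X` (`cnt3`).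
(iv) With `Y = J^2 X`: `Qs3 f (n h0) (b X) (h (·/J^2)^2 ..) X = Qs3 f (n h0) (h2 Y) (Wh (h^2)) Y` (terms with `yS ≥ h2 Y` vanish, `b X ≥ h2 Y`). (v) `(1/(Q φ(n))) 4 n N/(3 J^2) ww = (4 N/(3 Q J^2)) (n/φ(n)) ww`; by `hq` the sum is at most `(4 N/(3 J^2)) (ε/4) N Y = (ε/3) N^2 X`;
the errors (iii): `∑_(n ≤ N) (1/φ(n)) 4 η n N C (h0+1) h2 X ≤ 4 η C (h0+1) h2 N * N^2 X ≤ (ε/10) N^2 X`; the `o(X)` terms are `≤ (ε/4) N^2 X` eventually. -/
theorem redB3 (h0 Q n0 : ℕ) (hQ : HQ h0 Q n0) (E : Finset ℕ) (f : ℕ → ℂ) (ω : ℂ)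
    (hf : MF f E ω) (hω : ‖ω‖ = 1) (hz : ∀ m : ℕ, ¬ m.Coprime Q → f m = 0) (hq : QSmall3 h0 Q f) :
    GmSmall3 h0 Q n0 f (cj f) := by
  classical
  intro h' h1 h2 hh ε hε
  have h2one : (1 : ℝ) ≤ h2 := hh.one
  have h2pos : 0 < h2 := by linarith
  have hh0 : (0 : ℝ) ≤ h0 := Nat.cast_nonneg _
  obtain ⟨C, hC, hcnt⟩ := cnt3 1
  obtain ⟨N0, hN0⟩ := hq h' h1 h2 hh (ε / 4) (by positivity)
  refine ⟨max N0 1, fun N hN => ?_⟩
  have hN1 : 1 ≤ N := le_trans (le_max_right _ _) hN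
  have hNN0 : N0 ≤ N := le_trans (le_max_left _ _) hN
  have hNr : (1 : ℝ) ≤ N := by exact_mod_cast hN1
  have hNpos : (0 : ℝ) < N := by linarith
  set η : ℝ := ε / (40 * C * h2 * (h0 + 1) * N) with hη
  have hηpos : 0 < η := by positivity
  obtain ⟨J0, hJ01, hcn⟩ := cnB h' h1 h2 hh N hN1 η hηpos
  refine ⟨max J0 N, fun J hJ => ?_⟩
  have hJ0 : J0 ≤ J := le_trans (le_max_left _ _) hJ
  have hJN : N ≤ J := le_trans (le_max_right _ _) hJ
  have hJ1 : 1 ≤ J := le_trans hN1 hJN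
  have hJNr : (N : ℝ) ≤ J := by exact_mod_cast hJN
  have hJr : (1 : ℝ) ≤ J := by linarith
  have hJpos : (0 : ℝ) < J := by linarith
  have hQ1 : (1 : ℝ) ≤ Q := by exact_mod_cast hQ.posQ
  set b : ℝ := ((J : ℝ) + N) ^ 2 * (h0 + 1) * h2 with hb
  have hbpos : 0 < b := by positivity
  have hb1 : ((J : ℝ) + N) ^ 2 * h2 ≤ b := by
    have e1 : 0 ≤ ((J : ℝ) + N) ^ 2 * h2 := by positivity
    have e2 : b = ((J : ℝ) + N) ^ 2 * h2 + ((J : ℝ) + N) ^ 2 * h2 * h0 := by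
      rw [hb]
      ring
    rw [e2]
    have e3 : 0 ≤ ((J : ℝ) + N) ^ 2 * h2 * h0 := mul_nonneg e1 hh0
    linarith
  have hb4 : b ≤ 4 * (J : ℝ) ^ 2 * (h0 + 1) * h2 := by
    have e1 : ((J : ℝ) + N) ^ 2 ≤ 4 * (J : ℝ) ^ 2 := by nlinarith
    rw [hb]
    gcongr
  have hbJ : (J : ℝ) ^ 2 * h2 ≤ b := by
    have e1 : (J : ℝ) ^ 2 ≤ ((J : ℝ) + N) ^ 2 := by nlinarith
    exact (mul_le_mul_of_nonneg_right e1 h2pos.le).trans hb1
  have hbh : (h0 : ℝ) + 1 ≤ b := by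
    have e1 : (1 : ℝ) ≤ ((J : ℝ) + N) ^ 2 * h2 := by
      have e2 : (1 : ℝ) ≤ ((J : ℝ) + N) ^ 2 := one_le_pow₀ (by linarith)
      nlinarith
    have e3 : ((h0 : ℝ) + 1) * 1 ≤ (h0 + 1) * (((J : ℝ) + N) ^ 2 * h2) :=
      mul_le_mul_of_nonneg_left e1 (by positivity)
    rw [hb]
    linarith
  set S : Finset ℕ := (Icc 1 N).filter (fun n => Q ∣ n) with hS
  -- the limit part
  have hlim : Tendsto (fun X : ℝ => ∑ n ∈ S, (Gm3 h0 Q n0 f (cj f) h' J N n (b * X) X -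
      ((1 / (Q * n.totient) : ℝ) : ℂ) *
      Qs3 f (n * h0) (b * X) (fun y t u => (∫ t', ∫ u', WN3 h' J N n y t' u') * ((ps0 t * ps0 u : ℝ) : ℂ)) X) / X)
      atTop (nhds 0) := by
    have := tendsto_finsetSum S (fun n hn => redb3_one h0 Q n0 hQ E f ω hf hω hz h' h1 h2 hh J N n hJ1 hN1
      (mem_Icc.mp (mem_filter.1 hn).1).1 (mem_filter.1 hn).2 b hb1 hbpos)
    rw [Finset.sum_const_zero] at this
    exact this
  have hev := (Metric.tendsto_nhds.mp hlim) (ε / 4) (by positivity)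
  have hQev := (tendsto_id.const_mul_atTop (r := (J : ℝ) ^ 2) (by positivity)).eventually (hN0 N hNN0)
  filter_upwards [hev, hQev, eventually_gt_atTop (0 : ℝ), eventually_ge_atTop (N : ℝ)] with X hX hXQ hX0 hXN
  rw [dist_zero_right, ← Finset.sum_div, norm_div, Complex.norm_real, Real.norm_eq_abs, abs_of_pos hX0,
    div_lt_iff₀ hX0] at hX
  simp only [id] at hXQ
  set Y : ℝ := (J : ℝ) ^ 2 * X with hY
  -- notation
  set q : ℕ → ℂ := fun n => Qs3 f (n * h0) (h2 * Y) (Wh (fun y => h' y ^ 2)) Y with hqd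
  set c : ℕ → ℂ := fun n => Qs3 f (n * h0) (b * X) (fun y t u => (∫ t', ∫ u', WN3 h' J N n y t' u') *
    ((ps0 t * ps0 u : ℝ) : ℂ)) X with hc
  set d : ℕ → ℂ := fun n => Qs3 f (n * h0) (b * X) (fun y t u =>
    (((4 / 3 * n * N / (J : ℝ) ^ 2 * ww ((n : ℝ) / N)) * h' (y / (J : ℝ) ^ 2) ^ 2 : ℝ) : ℂ) *
      ((ps0 t * ps0 u : ℝ) : ℂ)) X with hd
  have hdq : ∀ n ∈ S, d n = ((4 / 3 * n * N / (J : ℝ) ^ 2 * ww ((n : ℝ) / N) : ℝ) : ℂ) * q n := by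
    intro n hn
    exact redb3_scale f h' h1 h2 hh (n * h0) (4 / 3 * n * N / (J : ℝ) ^ 2 * ww ((n : ℝ) / N)) b X J hJ1 hX0 hbJ
  have hcd : ∀ n ∈ S, ‖c n - d n‖ ≤ 4 * η * n * N * C * (h0 + 1) * h2 * X := by
    intro n hn
    obtain ⟨hn1, hn2⟩ := mem_Icc.mp (mem_filter.1 hn).1
    have hnr : (1 : ℝ) ≤ n := by exact_mod_cast hn1
    have hnN : (n : ℝ) ≤ N := by exact_mod_cast hn2
    have hbX : ((n * h0 : ℕ) : ℝ) ≤ b * X := by
      push_cast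
      calc (n : ℝ) * h0 ≤ N * (h0 + 1) := by
            have : (n : ℝ) * h0 ≤ N * h0 := mul_le_mul_of_nonneg_right hnN hh0
            linarith
        _ ≤ X * b := mul_le_mul hXN hbh (by positivity) hX0.le
        _ = b * X := mul_comm _ _
    have hw : ∀ y : ℝ, ‖(∫ t', ∫ u', WN3 h' J N n y t' u') -
        (((4 / 3 * n * N / (J : ℝ) ^ 2 * ww ((n : ℝ) / N)) * h' (y / (J : ℝ) ^ 2) ^ 2 : ℝ) : ℂ)‖ ≤
        η * (n * N / (J : ℝ) ^ 2) := by
      intro y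
      have e1 := hcn J hJ0 n hn1 hn2 y
      rw [WN3_int h' h1 h2 hh J N n hJ1 hN1 hn1 y]
      have e2 : (2 / 3 : ℂ) * (∫ s, WN h' J N n y s) -
          (((4 / 3 * n * N / (J : ℝ) ^ 2 * ww ((n : ℝ) / N)) * h' (y / (J : ℝ) ^ 2) ^ 2 : ℝ) : ℂ) =
          (2 / 3 : ℂ) * ((∫ s, WN h' J N n y s) -
            ((2 * n * N / (J : ℝ) ^ 2 * h' (y / (J : ℝ) ^ 2) ^ 2 * ww ((n : ℝ) / N) : ℝ) : ℂ)) := by
        push_cast
        ring
      rw [e2, norm_mul]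
      have e3 : ‖(2 / 3 : ℂ)‖ ≤ 1 := by
        have : (2 / 3 : ℂ) = ((2 / 3 : ℝ) : ℂ) := by push_cast; rfl
        rw [this, Complex.norm_real, Real.norm_eq_abs, abs_of_nonneg (by norm_num)]
        norm_num
      calc ‖(2 / 3 : ℂ)‖ * _ ≤ 1 * (η * (n * N / (J : ℝ) ^ 2)) :=
            mul_le_mul e3 e1 (norm_nonneg _) zero_le_one
        _ = _ := one_mul _
    have e1 := redb3_cmp f hf.bd C hcnt (n * h0) (Nat.mul_pos hn1 hQ.pos)
      (fun y => ∫ t', ∫ u', WN3 h' J N n y t' u')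
      (fun y => (((4 / 3 * n * N / (J : ℝ) ^ 2 * ww ((n : ℝ) / N)) * h' (y / (J : ℝ) ^ 2) ^ 2 : ℝ) : ℂ))
      (η * (n * N / (J : ℝ) ^ 2)) (by positivity) hw (b * X) X hbX
    refine e1.trans ?_
    calc η * (n * N / (J : ℝ) ^ 2) * (C * (b * X)) ≤
        η * (n * N / (J : ℝ) ^ 2) * (C * ((4 * (J : ℝ) ^ 2 * (h0 + 1) * h2) * X)) := by
          gcongr
      _ = 4 * η * n * N * C * (h0 + 1) * h2 * X := by
          field_simp
  -- the decomposition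
  have hfil : ∑ n ∈ Icc 1 N, Gm3 h0 Q n0 f (cj f) h' J N n (b * X) X =
      ∑ n ∈ S, Gm3 h0 Q n0 f (cj f) h' J N n (b * X) X := by
    rw [hS, Finset.sum_filter]
    refine Finset.sum_congr rfl (fun n _ => ?_)
    split_ifs with hn
    · rfl
    · exact redb3_gm_zero h0 Q n0 f (cj f) h' J N n (b * X) X hn
  have hdec : ∑ n ∈ S, Gm3 h0 Q n0 f (cj f) h' J N n (b * X) X =
      ∑ n ∈ S, (Gm3 h0 Q n0 f (cj f) h' J N n (b * X) X - ((1 / (Q * n.totient) : ℝ) : ℂ) * c n) +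
      ∑ n ∈ S, ((1 / (Q * n.totient) : ℝ) : ℂ) * (c n - d n) +
      ((4 / 3 * N / (Q * (J : ℝ) ^ 2) : ℝ) : ℂ) *
        ∑ n ∈ S, (((n / n.totient) * ww ((n : ℝ) / N) : ℝ) : ℂ) * q n := by
    rw [Finset.mul_sum, ← Finset.sum_add_distrib, ← Finset.sum_add_distrib]
    refine Finset.sum_congr rfl (fun n hn => ?_)
    rw [hdq n hn]
    push_cast
    ring
  have hp1 : ‖∑ n ∈ S, (Gm3 h0 Q n0 f (cj f) h' J N n (b * X) X - ((1 / (Q * n.totient) : ℝ) : ℂ) * c n)‖ ≤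
      ε / 4 * N ^ 2 * X := by
    refine hX.le.trans ?_
    have : (1 : ℝ) ≤ (N : ℝ) ^ 2 := one_le_pow₀ hNr
    have h3 : ε / 4 * X * 1 ≤ ε / 4 * X * (N : ℝ) ^ 2 := mul_le_mul_of_nonneg_left this (by positivity)
    linarith
  have hp2 : ‖∑ n ∈ S, ((1 / (Q * n.totient) : ℝ) : ℂ) * (c n - d n)‖ ≤ ε / 10 * N ^ 2 * X := by
    calc ‖∑ n ∈ S, ((1 / (Q * n.totient) : ℝ) : ℂ) * (c n - d n)‖
        ≤ ∑ n ∈ S, (1 * (4 * η * N * N * C * (h0 + 1) * h2 * X)) := by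
          refine norm_sum_le_of_le _ (fun n hn => ?_)
          obtain ⟨hn1, hn2⟩ := mem_Icc.mp (mem_filter.1 hn).1
          have hnN : (n : ℝ) ≤ N := by exact_mod_cast hn2
          have hφ : (1 : ℝ) ≤ n.totient := by exact_mod_cast Nat.totient_pos.mpr hn1
          have k0 : (1 : ℝ) ≤ Q * n.totient := by nlinarith
          have k2 : 1 / ((Q : ℝ) * n.totient) ≤ 1 := by
            rw [div_le_iff₀ (by linarith)]
            linarith
          rw [norm_mul, Complex.norm_real, Real.norm_eq_abs, abs_of_nonneg (by positivity)]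
          refine mul_le_mul k2 ((hcd n hn).trans ?_) (norm_nonneg _) (by norm_num)
          gcongr
      _ = S.card * (4 * η * N * N * C * (h0 + 1) * h2 * X) := by
          rw [Finset.sum_const, nsmul_eq_mul, one_mul]
      _ ≤ N * (4 * η * N * N * C * (h0 + 1) * h2 * X) := by
          have hcard : S.card ≤ N := by
            calc S.card ≤ (Icc 1 N).card := Finset.card_filter_le _ _
              _ = N := by rw [Nat.card_Icc, Nat.add_sub_cancel]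
          have hcard' : (S.card : ℝ) ≤ N := by exact_mod_cast hcard
          exact mul_le_mul_of_nonneg_right hcard' (by positivity)
      _ = ε / 10 * N ^ 2 * X := by
          rw [hη]
          field_simp
          ring
  have hp3 : ‖((4 / 3 * N / (Q * (J : ℝ) ^ 2) : ℝ) : ℂ) *
        ∑ n ∈ S, (((n / n.totient) * ww ((n : ℝ) / N) : ℝ) : ℂ) * q n‖ ≤ ε / 3 * N ^ 2 * X := by
    rw [norm_mul, Complex.norm_real, Real.norm_eq_abs, abs_of_nonneg (by positivity)]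
    calc (4 / 3 * N / (Q * (J : ℝ) ^ 2)) * ‖∑ n ∈ S, (((n / n.totient) * ww ((n : ℝ) / N) : ℝ) : ℂ) * q n‖
        ≤ (4 / 3 * N / (1 * (J : ℝ) ^ 2)) * (ε / 4 * N * Y) := by
          refine mul_le_mul ?_ hXQ (norm_nonneg _) (by positivity)
          gcongr
      _ = ε / 3 * N ^ 2 * X := by
          rw [hY]
          field_simp
  rw [hfil, hdec]
  refine (norm_add_le _ _).trans ?_
  have := norm_add_le (∑ n ∈ S, (Gm3 h0 Q n0 f (cj f) h' J N n (b * X) X - ((1 / (Q * n.totient) : ℝ) : ℂ) * c n))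
    (∑ n ∈ S, ((1 / (Q * n.totient) : ℝ) : ℂ) * (c n - d n))
  have hpos : 0 ≤ ε * N ^ 2 * X := by positivity
  linarith

end Pool.Agent.Spl
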