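import Pool.Agent.Lib_MP_92ef0c_sp.LimH3

/-!
# All test functions
-/

set_option autoImplicit false

namespace Pool.Agent.Spl

open Finset Pool.Agent.GaussMR Pool.Agent.OmAll Pool.Agent.OmEq MeasureTheory Filter

open Classical in
/-- sums over the matrices with small weights -/
theorem sm3_small (h0 Q n0 : ℕ) (hh0 : 0 < h0) (f g : ℕ → ℂ) (hf : ∀ n, ‖f n‖ ≤ 1) (hg : ∀ n, ‖g n‖ ≤ 1) {C : ℝ}
    (hcnt : ∀ n : ℕ, 0 < n → ∀ x : ℝ, (n : ℝ) ≤ x →
      (((SN n x).filter (fun e => |tS e| ≤ 1 ∧ |uS e| ≤ 1)).card : ℝ) ≤ C * x) (x : ℝ) (hx : (h0 : ℝ) ≤ x)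
    (ε : ℝ) (hε : 0 ≤ ε) (w : Q4 → ℂ) (hw : ∀ e ∈ SQ h0 Q n0 x, ‖w e‖ ≤ ε) :
    ‖∑ e ∈ SQ h0 Q n0 x, F4 g f f g e * (w e * ((ps0 (tS e) * ps0 (uS e) : ℝ) : ℂ))‖ ≤ ε * (C * x) := by
  have h1 : ‖∑ e ∈ SQ h0 Q n0 x, F4 g f f g e * (w e * ((ps0 (tS e) * ps0 (uS e) : ℝ) : ℂ))‖ ≤
      ∑ e ∈ SQ h0 Q n0 x, if |tS e| ≤ 1 ∧ |uS e| ≤ 1 then ε else 0 := by
    apply norm_sum_le_of_le
    intro e he
    have h2 := norm_F4_le hg hf hf hg e
    have h4 := hw e he
    have h5 := limh_ps0_le (tS e)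
    have h6 := limh_ps0_nonneg (tS e)
    have h7 := limh_ps0_le (uS e)
    have h8 := limh_ps0_nonneg (uS e)
    by_cases ht : |tS e| ≤ 1 ∧ |uS e| ≤ 1
    · rw [if_pos ht, norm_mul, norm_mul, Complex.norm_real, Real.norm_eq_abs,
        abs_of_nonneg (mul_nonneg h6 h8)]
      calc ‖F4 g f f g e‖ * (‖w e‖ * (ps0 (tS e) * ps0 (uS e))) ≤ 1 * (ε * (1 * 1)) := by gcongr
        _ = ε := by ring
    · rw [if_neg ht]
      have h9 : ps0 (tS e) * ps0 (uS e) = 0 := by
        rcases not_and_or.1 ht with h | h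
        · rw [limh_ps0_zero (not_le.1 h).le, zero_mul]
        · rw [limh_ps0_zero (not_le.1 h).le, mul_zero]
      rw [h9]
      simp
  refine h1.trans ?_
  have h2 : ∑ e ∈ SQ h0 Q n0 x, (if |tS e| ≤ 1 ∧ |uS e| ≤ 1 then ε else 0) ≤
      ∑ e ∈ SN h0 x, if |tS e| ≤ 1 ∧ |uS e| ≤ 1 then ε else 0 := by
    apply sum_le_sum_of_subset_of_nonneg
    · intro e he
      rw [mem_SQ] at he
      rw [mem_SN]
      exact he.1
    · intro e _ _
      split_ifs
      · exact hε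
      · exact le_refl _
  refine h2.trans ?_
  rw [← sum_filter, sum_const, nsmul_eq_mul]
  have h3 := hcnt h0 hh0 x hx
  calc (((SN h0 x).filter (fun e => |tS e| ≤ 1 ∧ |uS e| ≤ 1)).card : ℝ) * ε ≤ (C * x) * ε :=
        mul_le_mul_of_nonneg_right h3 hε
    _ = ε * (C * x) := by ring

/-- nonnegative continuous functions of `b c` -/
theorem sm3_real (h0 Q n0 : ℕ) (hQ : HQ h0 Q n0) (E : Finset ℕ) (f g : ℕ → ℂ) (ω ω' : ℂ) (hf : MF f E ω)
    (hg : MF g E ω') (hω : ‖ω‖ = 1) (hω' : ‖ω'‖ = 1) (hG : GmSmall3 h0 Q n0 f g)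
    (b : ℝ) (c : ℝ → ℝ) (hc : Continuous c) (hnn : ∀ y, 0 ≤ c y) (hlo : ∀ y, y ≤ 0 → c y = 0)
    (hhi : ∀ y, b ≤ y → c y = 0) :
    Tendsto (fun X : ℝ => (∑ e ∈ SQ h0 Q n0 (b * X), F4 g f f g e *
      (((c (yS e / X) : ℝ) : ℂ) * ((ps0 (tS e) * ps0 (uS e) : ℝ) : ℂ))) / X) atTop (nhds 0) := by
  classical
  apply limh_tend
  intro ε hε
  obtain ⟨C, hC, hcnt⟩ := cnt3 1
  set b' : ℝ := max b 1 with hb'
  have hb1 : 1 ≤ b' := le_max_right _ _
  have hbb : b ≤ b' := le_max_left _ _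
  set δ : ℝ := ε / (2 * C * b') with hδ
  have hδ0 : 0 < δ := by positivity
  have hsupp : HasCompactSupport c := by
    apply HasCompactSupport.intro (isCompact_Icc (a := (0 : ℝ)) (b := b))
    intro y hy
    rw [Set.mem_Icc, not_and_or, not_le, not_le] at hy
    rcases hy with hy | hy
    · exact hlo y hy.le
    · exact hhi y hy.le
  obtain ⟨K0, hK0⟩ := hsupp.exists_bound_of_continuous hc
  set K : ℝ := max K0 1 with hK
  have hK1 : 1 ≤ K := le_max_right _ _
  have hKp : 0 < K := by linarith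
  have hKc : ∀ y, c y ≤ K := by
    intro y
    have h1 := hK0 y
    rw [Real.norm_eq_abs, abs_of_nonneg (hnn y)] at h1
    exact h1.trans (le_max_left _ _)
  obtain ⟨h1, hh1, hsmall⟩ : ∃ h1 : ℝ, 0 < h1 ∧ ∀ y, y ≤ h1 → c y ≤ δ := by
    have h2 := Metric.continuousAt_iff.1 (hc.continuousAt (x := 0)) δ hδ0
    obtain ⟨r, hr, h3⟩ := h2
    refine ⟨r / 2, by positivity, ?_⟩
    intro y hy
    rcases le_or_gt y 0 with h0 | h0
    · rw [hlo y h0]
      exact hδ0.le
    · have h4 := h3 (x := y) (by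
        rw [Real.dist_eq, sub_zero, abs_of_pos h0]
        linarith)
      rw [hlo 0 (le_refl 0), Real.dist_eq, sub_zero, abs_of_nonneg (hnn y)] at h4
      exact h4.le
  set h : ℝ → ℝ := fun y => max 0 (c y - δ) / K with hh
  have hHF : HF h h1 b' := by
    refine ⟨?_, ?_, ?_, hh1, hb1, ?_, ?_⟩
    · exact (continuous_const.max (hc.sub continuous_const)).div_const K
    · intro y
      exact div_nonneg (le_max_left _ _) hKp.le
    · intro y
      show max 0 (c y - δ) / K ≤ 1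
      rw [div_le_one hKp]
      apply max_le hKp.le
      linarith [hKc y]
    · intro y hy
      show max 0 (c y - δ) / K = 0
      rw [max_eq_left (by linarith [hsmall y hy]), zero_div]
    · intro y hy
      show max 0 (c y - δ) / K = 0
      rw [hhi y (hbb.trans hy), max_eq_left (by linarith), zero_div]
  have hlim := limh_ev (limH3 h0 Q n0 hQ E f g ω ω' hf hg hω hω' hG h h1 b' hHF b' (le_refl _))
    (ε := ε / (2 * K)) (by positivity)
  filter_upwards [hlim, eventually_ge_atTop (1 : ℝ), eventually_ge_atTop (h0 : ℝ)] with X hX1 hX hXh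
  have hX0 : (0 : ℝ) < X := by linarith
  have hs : ∑ e ∈ SQ h0 Q n0 (b * X), F4 g f f g e *
      (((c (yS e / X) : ℝ) : ℂ) * ((ps0 (tS e) * ps0 (uS e) : ℝ) : ℂ)) =
      ∑ e ∈ SQ h0 Q n0 (b' * X), F4 g f f g e *
      (((c (yS e / X) : ℝ) : ℂ) * ((ps0 (tS e) * ps0 (uS e) : ℝ) : ℂ)) := by
    apply sum_subset
    · intro e he
      rw [mem_SQ] at he ⊢
      exact ⟨⟨he.1.1, he.1.2.trans (mul_le_mul_of_nonneg_right hbb hX0.le)⟩, he.2⟩
    · intro e he hne
      rw [mem_SQ] at he hne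
      have h2 : b * X ≤ yS e := by
        by_contra hcon
        push Not at hcon
        exact hne ⟨⟨he.1.1, hcon.le⟩, he.2⟩
      rw [hhi (yS e / X) (by rw [le_div_iff₀ hX0]; exact h2)]
      simp
  have hd : ∑ e ∈ SQ h0 Q n0 (b' * X), F4 g f f g e *
      (((c (yS e / X) : ℝ) : ℂ) * ((ps0 (tS e) * ps0 (uS e) : ℝ) : ℂ)) =
      K * ∑ e ∈ SQ h0 Q n0 (b' * X), F4 g f f g e * Wh h (yS e / X) (tS e) (uS e) +
      ∑ e ∈ SQ h0 Q n0 (b' * X), F4 g f f g e *
      (((c (yS e / X) - K * h (yS e / X) : ℝ) : ℂ) * ((ps0 (tS e) * ps0 (uS e) : ℝ) : ℂ)) := by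
    rw [mul_sum, ← sum_add_distrib]
    apply sum_congr rfl
    intro e _
    unfold Wh
    push_cast
    ring
  have hsm := sm3_small h0 Q n0 hQ.pos f g hf.bd hg.bd hcnt (b' * X) (by nlinarith) δ hδ0.le
    (fun e => ((c (yS e / X) - K * h (yS e / X) : ℝ) : ℂ)) (by
      intro e _
      rw [Complex.norm_real, Real.norm_eq_abs]
      have h2 : K * h (yS e / X) = max 0 (c (yS e / X) - δ) := by
        simp only [hh]
        field_simp
      rw [h2]
      rcases le_total (c (yS e / X) - δ) 0 with h3 | h3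
      · rw [max_eq_left h3, sub_zero, abs_of_nonneg (hnn _)]
        linarith
      · rw [max_eq_right h3, sub_sub_cancel, abs_of_pos hδ0])
  rw [norm_div, Complex.norm_real, Real.norm_eq_abs, abs_of_pos hX0, div_le_iff₀ hX0] at hX1 ⊢
  rw [hs, hd]
  refine (norm_add_le _ _).trans ?_
  rw [norm_mul, Complex.norm_real, Real.norm_eq_abs, abs_of_pos hKp]
  have h2 : K * ‖∑ e ∈ SQ h0 Q n0 (b' * X), F4 g f f g e * Wh h (yS e / X) (tS e) (uS e)‖ ≤
      K * (ε / (2 * K) * X) :=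
    mul_le_mul_of_nonneg_left hX1 hKp.le
  have h3 : K * (ε / (2 * K) * X) = ε / 2 * X := by
    field_simp
  have h4 : δ * (C * (b' * X)) = ε / 2 * X := by
    rw [hδ]
    field_simp
  linarith

/-- the integral of the difference with `c y * ps0 t * ps0 u` -/
theorem sm3_int {b : ℝ} {W : ℝ → ℝ → ℝ → ℂ} (hW : TS b W) (y : ℝ) :
    ∫ t, ∫ u, (W y t u - (∫ t', ∫ u', W y t' u') * ((ps0 t * ps0 u : ℝ) : ℂ)) = 0 := by
  obtain ⟨R, hR, hb⟩ := hW.bdd
  have hG : Integrable (fun v : ℝ × ℝ => W y v.1 v.2) := by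
    have hcont : Continuous (fun v : ℝ × ℝ => W y v.1 v.2) :=
      hW.cont.comp (g := fun v : ℝ × ℝ × ℝ => W v.1 v.2.1 v.2.2) (f := fun v : ℝ × ℝ => (y, v.1, v.2))
        (by fun_prop)
    apply hcont.integrable_of_hasCompactSupport
    apply HasCompactSupport.intro ((isCompact_Icc (a := -R) (b := R)).prod (isCompact_Icc (a := -R) (b := R)))
    rintro ⟨t, u⟩ hv
    by_contra hne
    have h1 := hb y t u hne
    apply hv
    rw [Set.mem_prod, Set.mem_Icc, Set.mem_Icc]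
    exact ⟨abs_le.1 h1.2.1, abs_le.1 h1.2.2⟩
  have hs : ∀ t, Integrable (fun u => W y t u) := by
    intro t
    have hcont : Continuous (fun u : ℝ => W y t u) :=
      hW.cont.comp (g := fun v : ℝ × ℝ × ℝ => W v.1 v.2.1 v.2.2) (f := fun u : ℝ => (y, t, u))
        (by fun_prop)
    apply hcont.integrable_of_hasCompactSupport
    apply HasCompactSupport.intro (isCompact_Icc (a := -R) (b := R))
    intro u hv
    by_contra hne
    have h1 := hb y t u hne
    exact hv (Set.mem_Icc.2 (abs_le.1 h1.2.2))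
  have hp : Integrable (fun u => ((ps0 u : ℝ) : ℂ)) :=
    (limh_ps0_cont.integrable_of_hasCompactSupport limh_ps0_supp).ofReal
  obtain ⟨c, hc⟩ : ∃ c : ℂ, c = ∫ t', ∫ u', W y t' u' := ⟨_, rfl⟩
  rw [← hc]
  have h1 : ∀ t, ∫ u, (W y t u - c * ((ps0 t * ps0 u : ℝ) : ℂ)) = (∫ u, W y t u) - c * ((ps0 t : ℝ) : ℂ) := by
    intro t
    have e : (fun u => c * ((ps0 t * ps0 u : ℝ) : ℂ)) = fun u => (c * ((ps0 t : ℝ) : ℂ)) * ((ps0 u : ℝ) : ℂ) := by
      funext u
      push_cast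
      ring
    rw [integral_sub (hs t) (by rw [e]; exact hp.const_mul _), e, integral_const_mul, limh_ps0_intC, mul_one]
  simp only [h1]
  rw [integral_sub ?_ (hp.const_mul _), integral_const_mul, limh_ps0_intC, mul_one, ← hc, sub_self]
  exact hG.integral_prod_left

/-- PROOF. Adapt `sm` (and `limh_real`) in `Lib_MP_f1a94e_eq/LimH.lean`. `W y t u = (W y t u - c y ps0 t ps0 u) + c y ps0 t ps0 u`, `c y = ∫ t, ∫ u, W y t u` (`ts_c2`): the first part by `tvfQ`. `c` is continuous, zero for `y ≤ 0` and for `y ≥ b`; write it as a combination of four nonnegative continuous functions (positive and negative parts of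
real and imaginary part). A nonnegative continuous `c`, `c ≤ K`, zero for `y ≤ 0` and for `y ≥ b` is `K' h + r` with `HF h h1 h2` (`h = max 0 (c - η)/K'`-like, zero near `0` because `c 0 = 0`; `h2 ≥ 1`, `h2 ≥ b`) and `|r| ≤ η`, `r = 0` for `y ≤ 0`, `y ≥ b`; the sum with `r` is at most `η #{e ∈ SN h0 (b' Y) : |tS|, |uS| ≤ 1} ≤ η C b' Y` (`cnt3`). `limH3` for `h`. -/
theorem sm3 (h0 Q n0 : ℕ) (hQ : HQ h0 Q n0) (E : Finset ℕ) (f g : ℕ → ℂ) (ω ω' : ℂ) (hf : MF f E ω)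
    (hg : MF g E ω') (hω : ‖ω‖ = 1) (hω' : ‖ω'‖ = 1) (hG : GmSmall3 h0 Q n0 f g)
    (b : ℝ) (W : ℝ → ℝ → ℝ → ℂ) (hW : TS b W) :
    Tendsto (fun Y : ℝ => (∑ e ∈ SQ h0 Q n0 (b * Y), F4 g f f g e * W (yS e / Y) (tS e) (uS e)) / Y)
      atTop (nhds 0) := by
  set c : ℝ → ℂ := fun y => ∫ t, ∫ u, W y t u with hc
  obtain ⟨⟨hcc, hclo, hchi⟩, hTS⟩ := ts_c2 hW
  have hcc : Continuous c := hcc
  have hclo : ∀ y, y ≤ 0 → c y = 0 := hclo
  have hchi : ∀ y, b ≤ y → c y = 0 := hchi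
  have hre : Continuous (fun y => (c y).re) := Complex.continuous_re.comp hcc
  have him : Continuous (fun y => (c y).im) := Complex.continuous_im.comp hcc
  have t0 := tvfQ h0 Q n0 hQ E g f f g ω' ω ω ω' hg hf hf hg hω' hω hω hω' b _ (hW.sub hTS) (sm3_int hW)
  have t1 := sm3_real h0 Q n0 hQ E f g ω ω' hf hg hω hω' hG b (fun y => max 0 (c y).re) (continuous_const.max hre)
    (fun y => le_max_left _ _) (fun y hy => by simp [hclo y hy]) (fun y hy => by simp [hchi y hy])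
  have t2 := sm3_real h0 Q n0 hQ E f g ω ω' hf hg hω hω' hG b (fun y => max 0 (-(c y).re)) (continuous_const.max hre.neg)
    (fun y => le_max_left _ _) (fun y hy => by simp [hclo y hy]) (fun y hy => by simp [hchi y hy])
  have t3 := sm3_real h0 Q n0 hQ E f g ω ω' hf hg hω hω' hG b (fun y => max 0 (c y).im) (continuous_const.max him)
    (fun y => le_max_left _ _) (fun y hy => by simp [hclo y hy]) (fun y hy => by simp [hchi y hy])
  have t4 := sm3_real h0 Q n0 hQ E f g ω ω' hf hg hω hω' hG b (fun y => max 0 (-(c y).im)) (continuous_const.max him.neg)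
    (fun y => le_max_left _ _) (fun y hy => by simp [hclo y hy]) (fun y hy => by simp [hchi y hy])
  have ht := (t0.add (t1.sub t2)).add ((t3.sub t4).const_mul Complex.I)
  rw [sub_zero, mul_zero, add_zero, add_zero] at ht
  refine ht.congr (fun X => ?_)
  rw [← sub_div, ← sub_div, ← mul_div_assoc, ← add_div, ← add_div]
  congr 1
  rw [← sum_sub_distrib, ← sum_sub_distrib, mul_sum, ← sum_add_distrib, ← sum_add_distrib]
  apply sum_congr rfl
  intro e _
  have hpm : ∀ r : ℝ, max 0 r - max 0 (-r) = r := by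
    intro r
    rcases le_total 0 r with h | h
    · rw [max_eq_right h, max_eq_left (by linarith)]
      ring
    · rw [max_eq_left h, max_eq_right (by linarith)]
      ring
  have h1 : ((max 0 (c (yS e / X)).re : ℝ) : ℂ) - ((max 0 (-(c (yS e / X)).re) : ℝ) : ℂ) +
      Complex.I * (((max 0 (c (yS e / X)).im : ℝ) : ℂ) - ((max 0 (-(c (yS e / X)).im) : ℝ) : ℂ)) =
      c (yS e / X) := by
    rw [← Complex.ofReal_sub, ← Complex.ofReal_sub, hpm, hpm, mul_comm Complex.I]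
    exact Complex.re_add_im _
  have h2 : (∫ t', ∫ u', W (yS e / X) t' u') = c (yS e / X) := rfl
  rw [h2]
  linear_combination (F4 g f f g e * ((ps0 (tS e) * ps0 (uS e) : ℝ) : ℂ)) * h1

end Pool.Agent.Spl
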