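import Pool.Agent.Lib_MP_92ef0c_sp.Fin3H
import Pool.Agent.Lib_MP_92ef0c_sp.GmA3
import Pool.Agent.Lib_MP_92ef0c_sp.Sm3
import Pool.Agent.Lib_MP_92ef0c_sp.Sharp3
import Pool.Agent.Lib_MP_92ef0c_sp.Tot3
import Pool.Agent.Lib_MP_92ef0c_sp.RedB3
import Pool.Agent.Lib_MP_92ef0c_sp.DSum3
import Pool.Agent.Lib_MP_92ef0c_sp.QdS3
import Pool.Agent.Lib_MP_92ef0c_sp.MrQ
import Pool.Agent.Lib_MP_92ef0c_sp.TriInt

/-!
# Final assembly: joint equidistribution of `Ω` of the four entries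
-/

set_option autoImplicit false

namespace Pool.Agent.Spl

open Finset Pool.Agent.GaussMR Pool.Agent.OmAll Pool.Agent.OmEq MeasureTheory Filter

/-- the conjugate of `fz Q z` -/
theorem cj_fz (Q : ℕ) (z : ℂ) : cj (fz Q z) = fz Q ((starRingEnd ℂ) z) := by
  funext n
  unfold cj fz
  split_ifs
  · simp
  · rw [map_pow]

theorem fz_zero' {Q : ℕ} {z : ℂ} {m : ℕ} (h : ¬ m.Coprime Q) : fz Q z m = 0 := by
  unfold fz
  rw [if_pos (Or.inr h)]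

theorem fz_eq' {Q : ℕ} {z : ℂ} {m : ℕ} (h0 : 0 < m) (h : m.Coprime Q) :
    fz Q z m = z ^ ArithmeticFunction.cardFactors m := by
  unfold fz
  rw [if_neg]
  rintro (h1 | h1)
  · omega
  · exact h1 h

/-- stage B -/
theorem gm_small_B3 (h0 Q n0 : ℕ) (hQ : HQ h0 Q n0) (z : ℂ) (hz : ‖z‖ = 1)
    (hM : MRS (fun n => z ^ ArithmeticFunction.cardFactors n)) : GmSmall3 h0 Q n0 (fz Q z) (cj (fz Q z)) := by
  have hF := fz_MF Q hQ.posQ z hz
  exact redB3 h0 Q n0 hQ Q.primeFactors (fz Q z) z hF hz (fun m hm => fz_zero' hm)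
    (dsum3 _ hF.bd (qds3 _ hF.bd (mrQ z hz hM Q hQ.posQ)) h0 Q hQ.pos hQ.posQ)

theorem norm_of_root {q : ℕ} (hq : 0 < q) {z : ℂ} (hz : z ^ q = 1) : ‖z‖ = 1 :=
  Complex.norm_eq_one_of_pow_eq_one hz hq.ne'

theorem conj_mul_self_of_norm {z : ℂ} (hz : ‖z‖ = 1) : z * (starRingEnd ℂ) z = 1 := by
  rw [Complex.mul_conj, Complex.normSq_eq_norm_sq, hz]
  simp

theorem conj_inj_of_norm {z w : ℂ} (hw : ‖w‖ = 1) (h : z * (starRingEnd ℂ) w = 1) : z = w := by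
  have h1 := conj_mul_self_of_norm hw
  have h2 : (starRingEnd ℂ) w ≠ 0 := by
    intro h3
    rw [h3, mul_zero] at h1
    exact zero_ne_one h1
  exact mul_right_cancel₀ h2 (h.trans h1.symm)

/-- the correlations of all pairs of characters -/
theorem gm_small_all3 (q : ℕ) (hq : 0 < q) (hM : ∀ z : ℂ, z ^ q = 1 → z ≠ 1 → MRS (fun n => z ^ ArithmeticFunction.cardFactors n))
    (h0 Q n0 : ℕ) (hQ : HQ h0 Q n0) (z w : ℂ) (hz : z ^ q = 1) (hw : w ^ q = 1) (hne : ¬ (z = 1 ∧ w = 1)) :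
    GmSmall3 h0 Q n0 (fz Q z) (fz Q w) := by
  have hz1 := norm_of_root hq hz
  have hw1 := norm_of_root hq hw
  by_cases h : z * w = 1
  · have h1 : w = (starRingEnd ℂ) z := by
      have h2 := conj_mul_self_of_norm hz1
      have h3 : z ≠ 0 := by
        intro h4
        rw [h4, zero_mul] at h
        exact zero_ne_one h
      exact mul_left_cancel₀ h3 (h.trans h2.symm)
    have hz2 : z ≠ 1 := by
      intro h2
      apply hne
      rw [h2, one_mul] at h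
      exact ⟨h2, h⟩
    rw [h1, ← cj_fz]
    exact gm_small_B3 h0 Q n0 hQ z hz1 (hM z hz hz2)
  · exact gm_small_A3 h0 Q n0 hQ Q.primeFactors _ _ z w (fz_MF Q hQ.posQ z hz1) (fz_MF Q hQ.posQ w hw1) hz1 hw1 h

/-- smooth sums of nontrivial characters -/
theorem all4 (q : ℕ) (hq : 0 < q) (hM : ∀ z : ℂ, z ^ q = 1 → z ≠ 1 → MRS (fun n => z ^ ArithmeticFunction.cardFactors n))
    (h0 Q n0 : ℕ) (hQ : HQ h0 Q n0) (z1 z2 z3 z4 : ℂ) (h1 : z1 ^ q = 1) (h2 : z2 ^ q = 1) (h3 : z3 ^ q = 1)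
    (h4 : z4 ^ q = 1) (hne : ¬ (z1 = 1 ∧ z2 = 1 ∧ z3 = 1 ∧ z4 = 1)) (b : ℝ) (W : ℝ → ℝ → ℝ → ℂ) (hW : TS b W) :
    Tendsto (fun X : ℝ => (∑ e ∈ SQ h0 Q n0 (b * X), F4 (fz Q z1) (fz Q z2) (fz Q z3) (fz Q z4) e *
      W (yS e / X) (tS e) (uS e)) / X) atTop (nhds 0) := by
  have n1 := norm_of_root hq h1
  have n2 := norm_of_root hq h2
  have n3 := norm_of_root hq h3
  have n4 := norm_of_root hq h4
  have m1 := fz_MF Q hQ.posQ z1 n1
  have m2 := fz_MF Q hQ.posQ z2 n2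
  have m3 := fz_MF Q hQ.posQ z3 n3
  have m4 := fz_MF Q hQ.posQ z4 n4
  haveI : NeZero Q := ⟨hQ.posQ.ne'⟩
  have hpf : h0.primeFactors ⊆ Q.primeFactors := Nat.primeFactors_mono hQ.dvd hQ.posQ.ne'
  by_cases h14 : z1 = z4
  · by_cases h23 : z2 = z3
    · rw [← h14, ← h23]
      refine sm3 h0 Q n0 hQ Q.primeFactors (fz Q z2) (fz Q z1) z2 z1 m2 m1 n2 n1 ?_ b W hW
      refine gm_small_all3 q hq hM h0 Q n0 hQ z2 z1 h2 h1 ?_
      rintro ⟨h5, h6⟩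
      apply hne
      exact ⟨h6, h5, by rw [← h23]; exact h5, by rw [← h14]; exact h6⟩
    · have h := pairB h0 Q hQ.pos hpf Q.primeFactors (fz Q z1) (fz Q z2) (fz Q z3) (fz Q z4) z2 z3 m1.bd m2 m3 m4.bd
        n2 n3 (psq Q n0) (psq_le Q n0) b W hW (Or.inl (fun h5 => h23 (conj_inj_of_norm n3 h5)))
      refine h.congr (fun X => ?_)
      rw [sum_SQ]
      congr 1
      apply sum_congr rfl
      intro e _
      ring
  · have h := pairA h0 Q hQ.pos hpf Q.primeFactors (fz Q z1) (fz Q z2) (fz Q z3) (fz Q z4) z1 z4 m1 m2.bd m3.bd m4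
      n1 n4 (psq Q n0) (psq_le Q n0) b W hW (Or.inl (fun h5 => h14 (conj_inj_of_norm n4 h5)))
    refine h.congr (fun X => ?_)
    rw [sum_SQ]
    congr 1
    apply sum_congr rfl
    intro e _
    ring

/-- the asymptotic number of matrices in a window -/
theorem cnt_SW (h0 Q n0 : ℕ) (hQ : HQ h0 Q n0) : ∃ κ : ℝ, 0 < κ ∧ ∀ t1 t2 u1 u2 : ℝ, t1 ≤ t2 → u1 ≤ u2 →
    Tendsto (fun X : ℝ => ((SW h0 Q n0 t1 t2 u1 u2 X).card : ℂ) / X) atTop
      (nhds ((κ * ((t2 - t1) * (u2 - u1)) : ℝ) : ℂ)) := by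
  classical
  obtain ⟨κ, hκ, hlim⟩ := tot3 h0 Q n0 hQ
  obtain ⟨κ', hκ'⟩ := tot1 h0 hQ.pos
  refine ⟨κ, hκ, fun t1 t2 u1 u2 ht hu => ?_⟩
  have H : ∀ (b : ℝ) (W : ℝ → ℝ → ℝ → ℂ), TS b W →
      Tendsto (fun X : ℝ => (∑ e ∈ SN h0 (b * X), cz Q (psq Q n0) e * W (yS e / X) (tS e) (uS e)) / X) atTop
        (nhds ((κ : ℂ) * ∫ y, ∫ t, ∫ u, W y t u)) := by
    intro b W hW
    have h5 := real_to_complex (fun b X => SQ h0 Q n0 (b * X)) yS tS uS κ hlim b W hW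
    refine h5.congr (fun X => ?_)
    rw [sum_SQ]
  have h := sharp3 h0 hQ.pos κ' hκ' (fun e => cz Q (psq Q n0) e) (fun e => psq_le _ _ _ _ _ _) (κ : ℂ) H t1 t2 u1 u2 ht hu
  have h2 : ((κ * ((t2 - t1) * (u2 - u1)) : ℝ) : ℂ) = (κ : ℂ) * (((t2 - t1) * (u2 - u1) : ℝ) : ℂ) := by push_cast; ring
  rw [h2]
  refine h.congr (fun X => ?_)
  congr 1
  have h3 := sum_SW h0 Q n0 t1 t2 u1 u2 X (fun _ => 1)
  rw [sum_const, nsmul_eq_mul, mul_one] at h3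
  rw [h3]
  apply sum_congr rfl
  intro e _
  rw [mul_one]

/-- orthogonality in four variables -/
theorem orth4 {ι : Type} {q : ℕ} (hq : 0 < q) (S : Finset ι) (w : Fin 4 → ι → ℕ) (r : Fin 4 → ℕ)
    [DecidablePred fun e => ∀ i, w i e ≡ r i [MOD q]] :
    ((S.filter (fun e => ∀ i, w i e ≡ r i [MOD q])).card : ℂ) =
      ∑ j ∈ Fintype.piFinset (fun _ : Fin 4 => range q), (∏ i, (zq q ^ (j i * r i))⁻¹ / (q : ℂ)) *
        ∑ e ∈ S, ∏ i, (zq q ^ j i) ^ w i e := by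
  classical
  have hq0 : (q : ℂ) ≠ 0 := by exact_mod_cast hq.ne'
  rw [card_filter, Nat.cast_sum]
  simp_rw [mul_sum]
  rw [sum_comm]
  apply sum_congr rfl
  intro e _
  have h1 : ∀ i, (∑ j ∈ range q, (zq q ^ (j * r i))⁻¹ / (q : ℂ) * (zq q ^ j) ^ w i e) =
      if w i e ≡ r i [MOD q] then 1 else 0 := by
    intro i
    have h2 := fine_orth hq (w i e) (r i)
    have h3 : ∑ j ∈ range q, (zq q ^ (j * r i))⁻¹ / (q : ℂ) * (zq q ^ j) ^ w i e =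
        (∑ j ∈ range q, (zq q ^ (j * r i))⁻¹ * (zq q ^ j) ^ w i e) / (q : ℂ) := by
      rw [sum_div]
      apply sum_congr rfl
      intro j _
      ring
    rw [h3, h2]
    split_ifs
    · exact div_self hq0
    · exact zero_div _
  have h2 : ∏ i, (∑ j ∈ range q, (zq q ^ (j * r i))⁻¹ / (q : ℂ) * (zq q ^ j) ^ w i e) =
      ∑ j ∈ Fintype.piFinset (fun _ : Fin 4 => range q),
        ∏ i, ((zq q ^ (j i * r i))⁻¹ / (q : ℂ) * (zq q ^ j i) ^ w i e) := Finset.prod_univ_sum _ _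
  have h4 : ∀ j ∈ Fintype.piFinset (fun _ : Fin 4 => range q),
      (∏ i, (zq q ^ (j i * r i))⁻¹ / (q : ℂ)) * ∏ i, (zq q ^ j i) ^ w i e =
        ∏ i, ((zq q ^ (j i * r i))⁻¹ / (q : ℂ) * (zq q ^ j i) ^ w i e) := by
    intro j _
    rw [← prod_mul_distrib]
  rw [sum_congr rfl h4, ← h2, prod_congr rfl (fun i _ => h1 i)]
  by_cases h : ∀ i, w i e ≡ r i [MOD q]
  · rw [if_pos h, prod_congr rfl (fun i _ => if_pos (h i))]
    simp
  · rw [if_neg h]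
    push Not at h
    obtain ⟨i, hi⟩ := h
    rw [prod_eq_zero (mem_univ i) (if_neg hi)]
    simp

/-- the numbers of prime factors of the entries -/
def wE (i : Fin 4) (e : Q4) : ℕ := ArithmeticFunction.cardFactors (![e.a, e.b, e.c, e.d] i)

theorem prod_wE (h0 Q n0 : ℕ) (hQ : HQ h0 Q n0) (z : Fin 4 → ℂ) {e : Q4} (he : Sn h0 e) (hc : e.b * e.c ≡ n0 [MOD Q]) :
    ∏ i, z i ^ wE i e = F4 (fz Q (z 0)) (fz Q (z 1)) (fz Q (z 2)) (fz Q (z 3)) e := by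
  obtain ⟨⟨h1, h2⟩, h3, h4⟩ := sq_cop hQ he hc
  obtain ⟨-, pa, pb, pc, pd, -, -⟩ := he
  unfold F4
  rw [fz_eq' pa h1, fz_eq' pb h2, fz_eq' pc h3, fz_eq' pd h4, Fin.prod_univ_four]
  rfl

/-- the sums of the characters -/
theorem char4 (q : ℕ) (hq : 0 < q) (hM : ∀ z : ℂ, z ^ q = 1 → z ≠ 1 → MRS (fun n => z ^ ArithmeticFunction.cardFactors n))
    (h0 Q n0 : ℕ) (hQ : HQ h0 Q n0) (z : Fin 4 → ℂ) (hz : ∀ i, z i ^ q = 1) (hne : ¬ ∀ i, z i = 1)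
    (t1 t2 u1 u2 : ℝ) (ht : t1 ≤ t2) (hu : u1 ≤ u2) :
    Tendsto (fun X : ℝ => (∑ e ∈ SW h0 Q n0 t1 t2 u1 u2 X, ∏ i, z i ^ wE i e) / X) atTop (nhds 0) := by
  classical
  obtain ⟨κ', hκ'⟩ := tot1 h0 hQ.pos
  have hn : ∀ i, ‖z i‖ = 1 := fun i => norm_of_root hq (hz i)
  have hF : ∀ i, MF (fz Q (z i)) Q.primeFactors (z i) := fun i => fz_MF Q hQ.posQ (z i) (hn i)
  set Φ : Q4 → ℂ := fun e => cz Q (psq Q n0) e * F4 (fz Q (z 0)) (fz Q (z 1)) (fz Q (z 2)) (fz Q (z 3)) e with hΦ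
  have hb : ∀ e, ‖Φ e‖ ≤ 1 := by
    intro e
    rw [hΦ, norm_mul]
    exact mul_le_one₀ (psq_le _ _ _ _ _ _) (norm_nonneg _) (norm_F4_le (hF 0).bd (hF 1).bd (hF 2).bd (hF 3).bd e)
  have H : ∀ (b : ℝ) (W : ℝ → ℝ → ℝ → ℂ), TS b W →
      Tendsto (fun X : ℝ => (∑ e ∈ SN h0 (b * X), Φ e * W (yS e / X) (tS e) (uS e)) / X) atTop
        (nhds ((0 : ℂ) * ∫ y, ∫ t, ∫ u, W y t u)) := by
    intro b W hW
    rw [zero_mul]
    have h5 := all4 q hq hM h0 Q n0 hQ (z 0) (z 1) (z 2) (z 3) (hz 0) (hz 1) (hz 2) (hz 3) (fun h => hne (fun i => by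
      fin_cases i
      · exact h.1
      · exact h.2.1
      · exact h.2.2.1
      · exact h.2.2.2)) b W hW
    refine h5.congr (fun X => ?_)
    rw [sum_SQ]
    congr 1
    apply sum_congr rfl
    intro e _
    rw [hΦ]
    ring
  have h := sharp3 h0 hQ.pos κ' hκ' Φ hb 0 H t1 t2 u1 u2 ht hu
  rw [zero_mul] at h
  refine h.congr (fun X => ?_)
  congr 1
  have h7 : ∑ e ∈ SW h0 Q n0 t1 t2 u1 u2 X, ∏ i, z i ^ wE i e =
      ∑ e ∈ SW h0 Q n0 t1 t2 u1 u2 X, F4 (fz Q (z 0)) (fz Q (z 1)) (fz Q (z 2)) (fz Q (z 3)) e := by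
    apply sum_congr rfl
    intro e he
    unfold SW at he
    rw [mem_filter, mem_SQ] at he
    exact prod_wE h0 Q n0 hQ z he.1.1.1 he.1.2
  rw [h7, sum_SW]

open Classical in
/-- joint equidistribution, from Matomaki-Radziwill in arcs -/
theorem fin4 (h0 Q n0 : ℕ) (hQ : HQ h0 Q n0)
    (hM : ∀ q : ℕ, 0 < q → ∀ z : ℂ, z ^ q = 1 → z ≠ 1 → MRS (fun n => z ^ ArithmeticFunction.cardFactors n)) :
    ∃ κ : ℝ, 0 < κ ∧ ∀ t1 t2 u1 u2 : ℝ, t1 ≤ t2 → u1 ≤ u2 →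
      Tendsto (fun X : ℝ => ((SW h0 Q n0 t1 t2 u1 u2 X).card : ℝ) / X) atTop (nhds (κ * ((t2 - t1) * (u2 - u1)))) ∧
      ∀ q : ℕ, 0 < q → ∀ r : Fin 4 → ℕ,
      Tendsto (fun X : ℝ => (((SW h0 Q n0 t1 t2 u1 u2 X).filter (fun e => ∀ i, wE i e ≡ r i [MOD q])).card : ℝ) / X) atTop
        (nhds (κ * ((t2 - t1) * (u2 - u1)) / (q : ℝ) ^ 4)) := by
  obtain ⟨κ, hκ, hlim⟩ := cnt_SW h0 Q n0 hQ
  refine ⟨κ, hκ, fun t1 t2 u1 u2 ht hu => ⟨?_, fun q hq r => ?_⟩⟩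
  · have h1 := (Complex.continuous_re.tendsto _).comp (hlim t1 t2 u1 u2 ht hu)
    rw [Complex.ofReal_re] at h1
    refine h1.congr (fun X => ?_)
    rw [Function.comp_apply, ← Complex.ofReal_natCast, ← Complex.ofReal_div, Complex.ofReal_re]
  · have hq0 : (q : ℂ) ≠ 0 := by exact_mod_cast hq.ne'
    have hroot := fine_prim q hq
    have hS : ∀ j ∈ Fintype.piFinset (fun _ : Fin 4 => range q), Tendsto (fun X : ℝ =>
        (∑ e ∈ SW h0 Q n0 t1 t2 u1 u2 X, ∏ i, (zq q ^ j i) ^ wE i e) / X) atTop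
        (nhds (if j = 0 then ((κ * ((t2 - t1) * (u2 - u1)) : ℝ) : ℂ) else 0)) := by
      intro j hj
      rw [Fintype.mem_piFinset] at hj
      by_cases h : j = 0
      · rw [if_pos h, h]
        refine (hlim t1 t2 u1 u2 ht hu).congr (fun X => ?_)
        simp
      · rw [if_neg h]
        refine char4 q hq (hM q hq) h0 Q n0 hQ (fun i => zq q ^ j i) (fun i => ?_) (fun h1 => h ?_) t1 t2 u1 u2 ht hu
        · rw [← pow_mul, mul_comm, pow_mul, hroot.pow_eq_one, one_pow]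
        · funext i
          have h2 := hroot.dvd_of_pow_eq_one _ (h1 i)
          exact Nat.eq_zero_of_dvd_of_lt h2 (mem_range.1 (hj i))
    have hC : Tendsto (fun X : ℝ => ∑ j ∈ Fintype.piFinset (fun _ : Fin 4 => range q),
        (∏ i, (zq q ^ (j i * r i))⁻¹ / (q : ℂ)) *
          ((∑ e ∈ SW h0 Q n0 t1 t2 u1 u2 X, ∏ i, (zq q ^ j i) ^ wE i e) / X)) atTop
        (nhds (∑ j ∈ Fintype.piFinset (fun _ : Fin 4 => range q), (∏ i, (zq q ^ (j i * r i))⁻¹ / (q : ℂ)) *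
          (if j = 0 then ((κ * ((t2 - t1) * (u2 - u1)) : ℝ) : ℂ) else 0))) := by
      apply tendsto_finsetSum
      intro j hj
      exact (hS j hj).const_mul _
    have hval : (∑ j ∈ Fintype.piFinset (fun _ : Fin 4 => range q), (∏ i, (zq q ^ (j i * r i))⁻¹ / (q : ℂ)) *
          (if j = 0 then ((κ * ((t2 - t1) * (u2 - u1)) : ℝ) : ℂ) else 0)) =
        ((κ * ((t2 - t1) * (u2 - u1)) / (q : ℝ) ^ 4 : ℝ) : ℂ) := by
      rw [sum_eq_single 0]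
      · rw [if_pos rfl]
        simp only [Pi.zero_apply, zero_mul, pow_zero, inv_one, prod_const, card_univ, Fintype.card_fin]
        push_cast
        field_simp
      · intro j _ hj
        rw [if_neg hj, mul_zero]
      · intro h
        exfalso
        apply h
        rw [Fintype.mem_piFinset]
        intro i
        exact mem_range.2 hq
    rw [hval] at hC
    have h1 := (Complex.continuous_re.tendsto _).comp hC
    rw [Complex.ofReal_re] at h1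
    refine h1.congr (fun X => ?_)
    rw [Function.comp_apply]
    have h2 := orth4 hq (SW h0 Q n0 t1 t2 u1 u2 X) wE r
    have h3 : ∑ j ∈ Fintype.piFinset (fun _ : Fin 4 => range q),
        (∏ i, (zq q ^ (j i * r i))⁻¹ / (q : ℂ)) *
          ((∑ e ∈ SW h0 Q n0 t1 t2 u1 u2 X, ∏ i, (zq q ^ j i) ^ wE i e) / X) =
        (((((SW h0 Q n0 t1 t2 u1 u2 X).filter (fun e => ∀ i, wE i e ≡ r i [MOD q])).card : ℝ) / X : ℝ) : ℂ) := by
      push_cast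
      rw [h2, sum_div]
      apply sum_congr rfl
      intro j _
      rw [mul_div_assoc]
    rw [h3, Complex.ofReal_re]

end Pool.Agent.Spl
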