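import Pool.Agent.Lib_MP_92ef0c_sp.Fin3
import Pool.Agent.Lib_MP_92ef0c_sp.Fin4H
import Pool.Agent.Lib_MP_f1a94e_eq.Conv

/-!
# Final form: quadruples of natural numbers in a window
-/

set_option autoImplicit false

namespace Pool.Agent.Spl

open Finset Filter Pool.Agent.OmEq

/-- the final statement, from Matomaki-Radziwill in arcs -/
theorem fin5 (hM : ∀ q : ℕ, 0 < q → ∀ z : ℂ, z ^ q = 1 → z ≠ 1 → MRS (fun n => z ^ ArithmeticFunction.cardFactors n))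
    (h k n0 : ℕ) (hh : 0 < h) (hk : 0 < k) (h1 : n0.Coprime k) (h2 : (n0 + h).Coprime k) :
    ∃ κ : ℝ, 0 < κ ∧ ∀ α β γ δ : ℝ, 0 < α → α ≤ β → 0 < γ → γ ≤ δ →
      Tendsto (fun x : ℝ => ((WS h k n0 α β γ δ x).ncard : ℝ) / x) atTop
        (nhds (κ * (Real.log (β / α) * Real.log (δ / γ)))) ∧
      ∀ q : ℕ, 0 < q → ∀ r1 r2 r3 r4 : ℕ,
      Tendsto (fun x : ℝ => ({e : Q4 | e ∈ WS h k n0 α β γ δ x ∧
        (ArithmeticFunction.cardFactors e.a ≡ r1 [MOD q] ∧ ArithmeticFunction.cardFactors e.b ≡ r2 [MOD q]) ∧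
        (ArithmeticFunction.cardFactors e.c ≡ r3 [MOD q] ∧ ArithmeticFunction.cardFactors e.d ≡ r4 [MOD q])}.ncard : ℝ) / x)
        atTop (nhds (κ * (Real.log (β / α) * Real.log (δ / γ)) / (q : ℝ) ^ 4)) := by
  classical
  have hex : ∀ m : ℕ, ∃ κ : ℝ, m ∈ CS h k n0 → (0 < κ ∧ ∀ t1 t2 u1 u2 : ℝ, t1 ≤ t2 → u1 ≤ u2 →
      Tendsto (fun X : ℝ => ((SW h (k * h) m t1 t2 u1 u2 X).card : ℝ) / X) atTop (nhds (κ * ((t2 - t1) * (u2 - u1)))) ∧
      ∀ q : ℕ, 0 < q → ∀ r : Fin 4 → ℕ,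
      Tendsto (fun X : ℝ => (((SW h (k * h) m t1 t2 u1 u2 X).filter (fun e => ∀ i, wE i e ≡ r i [MOD q])).card : ℝ) / X) atTop
        (nhds (κ * ((t2 - t1) * (u2 - u1)) / (q : ℝ) ^ 4))) := by
    intro m
    by_cases hm : m ∈ CS h k n0
    · obtain ⟨κ, hκ⟩ := fin4 h (k * h) m (hq_of_mem hh hk h1 h2 hm) hM
      exact ⟨κ, fun _ => hκ⟩
    · exact ⟨0, fun h3 => absurd h3 hm⟩
  choose κ hκ using hex
  refine ⟨∑ m ∈ CS h k n0, κ m, sum_pos (fun m hm => (hκ m hm).1) (cs_nonempty hh hk h1), ?_⟩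
  intro α β γ δ hα hαβ hγ hγδ
  have hβ : 0 < β := hα.trans_le hαβ
  have hδ : 0 < δ := hγ.trans_le hγδ
  have ht : Real.log α ≤ Real.log β := Real.log_le_log hα hαβ
  have hu : Real.log γ ≤ Real.log δ := Real.log_le_log hγ hγδ
  have hl : (Real.log (β / α) * Real.log (δ / γ)) = (Real.log β - Real.log α) * (Real.log δ - Real.log γ) := by
    rw [Real.log_div hβ.ne' hα.ne', Real.log_div hδ.ne' hγ.ne']
  rw [hl]
  refine ⟨?_, fun q hq r1 r2 r3 r4 => ?_⟩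
  · have h3 : Tendsto (fun x : ℝ => ∑ m ∈ CS h k n0,
        ((SW h (k * h) m (Real.log α) (Real.log β) (Real.log γ) (Real.log δ) x).card : ℝ) / x) atTop
        (nhds (∑ m ∈ CS h k n0, κ m * ((Real.log β - Real.log α) * (Real.log δ - Real.log γ)))) := by
      apply tendsto_finsetSum
      intro m hm
      exact ((hκ m hm).2 _ _ _ _ ht hu).1
    rw [← sum_mul] at h3
    refine h3.congr (fun x => ?_)
    have h4 := ncard_WS h k n0 hh hk h1 h2 α β γ δ hα hβ hγ hδ x (fun _ => True)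
    simp only [and_true, filter_true] at h4
    rw [show {e : Q4 | e ∈ WS h k n0 α β γ δ x} = WS h k n0 α β γ δ x from rfl] at h4
    rw [h4]
    push_cast
    rw [sum_div]
  · have h3 : Tendsto (fun x : ℝ => ∑ m ∈ CS h k n0,
        (((SW h (k * h) m (Real.log α) (Real.log β) (Real.log γ) (Real.log δ) x).filter
          (fun e => ∀ i, wE i e ≡ (![r1, r2, r3, r4] : Fin 4 → ℕ) i [MOD q])).card : ℝ) / x) atTop
        (nhds (∑ m ∈ CS h k n0, κ m * ((Real.log β - Real.log α) * (Real.log δ - Real.log γ)) / (q : ℝ) ^ 4)) := by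
      apply tendsto_finsetSum
      intro m hm
      exact ((hκ m hm).2 _ _ _ _ ht hu).2 q hq ![r1, r2, r3, r4]
    rw [← sum_div, ← sum_mul] at h3
    refine h3.congr (fun x => ?_)
    have h4 := ncard_WS h k n0 hh hk h1 h2 α β γ δ hα hβ hγ hδ x
      (fun e => ∀ i, wE i e ≡ (![r1, r2, r3, r4] : Fin 4 → ℕ) i [MOD q])
    have h5 : {e : Q4 | e ∈ WS h k n0 α β γ δ x ∧
        (ArithmeticFunction.cardFactors e.a ≡ r1 [MOD q] ∧ ArithmeticFunction.cardFactors e.b ≡ r2 [MOD q]) ∧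
        (ArithmeticFunction.cardFactors e.c ≡ r3 [MOD q] ∧ ArithmeticFunction.cardFactors e.d ≡ r4 [MOD q])} =
        {e : Q4 | e ∈ WS h k n0 α β γ δ x ∧ ∀ i, wE i e ≡ (![r1, r2, r3, r4] : Fin 4 → ℕ) i [MOD q]} := by
      ext e
      simp only [Set.mem_ofPred_eq]
      refine and_congr_right (fun _ => ?_)
      rw [Fin.forall_fin_succ, Fin.forall_fin_succ, Fin.forall_fin_succ, Fin.forall_fin_one]
      unfold wE
      simp
      tauto
    rw [h5, h4]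
    push_cast
    rw [sum_div]
    refine sum_congr rfl (fun m _ => ?_)
    congr!

end Pool.Agent.Spl
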