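import Pool.Agent.Lib_MP_92ef0c_sp.Apx3
import Pool.Agent.Lib_MP_92ef0c_sp.ApxO3
import Pool.Agent.Lib_MP_92ef0c_sp.Cs3
import Pool.Agent.Lib_MP_92ef0c_sp.Tvf2

/-!
# From correlations to the sums over matrices
-/

set_option autoImplicit false

namespace Pool.Agent.Spl

open Finset Pool.Agent.GaussMR Pool.Agent.OmAll Pool.Agent.OmEq MeasureTheory Filter

/-- the slices of a test function are continuous with compact support -/
theorem limh3_slice {b : ℝ} {W : ℝ → ℝ → ℝ → ℂ} (hW : TS b W) (y : ℝ) :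
    Continuous (fun z : ℝ × ℝ => W y z.1 z.2) ∧ HasCompactSupport (fun z : ℝ × ℝ => W y z.1 z.2) := by
  constructor
  · exact hW.cont.comp (Continuous.prodMk_right y)
  · have hs : IsCompact (Prod.snd '' tsupport (fun v : ℝ × ℝ × ℝ => W v.1 v.2.1 v.2.2)) :=
      hW.supp.image continuous_snd
    apply HasCompactSupport.intro hs
    intro z hz
    by_contra hne
    apply hz
    refine ⟨(y, z), subset_tsupport _ ?_, rfl⟩
    exact hne

/-- the difference with the multiple of `ps0 t * ps0 u` has integral zero -/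
theorem limh3_int {b : ℝ} {W : ℝ → ℝ → ℝ → ℂ} (hW : TS b W) (y : ℝ) :
    (∫ t, ∫ u, (W y t u - (∫ t', ∫ u', W y t' u') * ((ps0 t * ps0 u : ℝ) : ℂ))) = 0 := by
  have h1 : Integrable (fun z : ℝ × ℝ => W y z.1 z.2) (volume.prod volume) :=
    (limh3_slice hW y).1.integrable_of_hasCompactSupport (limh3_slice hW y).2
  have hp : Integrable (fun t : ℝ => ((ps0 t : ℝ) : ℂ)) volume :=
    (limh_ps0_cont.integrable_of_hasCompactSupport limh_ps0_supp).ofReal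
  have h2 : Integrable (fun z : ℝ × ℝ => ((ps0 z.1 : ℝ) : ℂ) * ((ps0 z.2 : ℝ) : ℂ)) (volume.prod volume) :=
    hp.mul_prod hp
  set c : ℂ := ∫ t', ∫ u', W y t' u' with hc
  have h3 : Integrable (fun z : ℝ × ℝ => W y z.1 z.2 - c * ((ps0 z.1 * ps0 z.2 : ℝ) : ℂ)) (volume.prod volume) := by
    apply h1.sub
    have h4 := h2.const_mul c
    refine h4.congr (Filter.Eventually.of_forall (fun z => ?_))
    push_cast
    ring
  have h4 := integral_prod _ h3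
  have h5 := integral_prod _ h1
  simp only at h4 h5
  rw [← h4]
  have h6 : ∫ z : ℝ × ℝ, (W y z.1 z.2 - c * ((ps0 z.1 * ps0 z.2 : ℝ) : ℂ)) ∂(volume.prod volume) =
      (∫ z : ℝ × ℝ, W y z.1 z.2 ∂(volume.prod volume)) -
      ∫ z : ℝ × ℝ, c * (((ps0 z.1 : ℝ) : ℂ) * ((ps0 z.2 : ℝ) : ℂ)) ∂(volume.prod volume) := by
    rw [← integral_sub h1 (h2.const_mul c)]
    congr 1
    funext z
    push_cast
    ring
  have h7 : ∫ z : ℝ × ℝ, ((ps0 z.1 : ℝ) : ℂ) * ((ps0 z.2 : ℝ) : ℂ) ∂(volume.prod volume) = 1 := by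
    have h8 := integral_prod_mul (μ := (volume : Measure ℝ)) (ν := (volume : Measure ℝ))
      (fun t : ℝ => ((ps0 t : ℝ) : ℂ)) (fun t : ℝ => ((ps0 t : ℝ) : ℂ))
    rw [limh_ps0_intC] at h8
    rw [h8, one_mul]
  rw [h6, integral_const_mul, h7, h5, ← hc]
  ring

open Classical in
/-- sums over matrices with small weights -/
theorem limh3_small {h0 Q n0 : ℕ} (hh0 : 0 < h0) {f g : ℕ → ℂ} (hf : ∀ n, ‖f n‖ ≤ 1) (hg : ∀ n, ‖g n‖ ≤ 1) {C : ℝ}
    (hcnt : ∀ n : ℕ, 0 < n → ∀ x : ℝ, (n : ℝ) ≤ x →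
      (((SN n x).filter (fun e => |tS e| ≤ 1 ∧ |uS e| ≤ 1)).card : ℝ) ≤ C * x) (x : ℝ) (hx : (h0 : ℝ) ≤ x)
    (ε : ℝ) (hε : 0 ≤ ε) (w : Q4 → ℂ) (hw : ∀ e ∈ SQ h0 Q n0 x, ‖w e‖ ≤ ε) :
    ‖∑ e ∈ SQ h0 Q n0 x, F4 g f f g e * (w e * ((ps0 (tS e) * ps0 (uS e) : ℝ) : ℂ))‖ ≤ ε * (C * x) := by
  have h1 : ‖∑ e ∈ SQ h0 Q n0 x, F4 g f f g e * (w e * ((ps0 (tS e) * ps0 (uS e) : ℝ) : ℂ))‖ ≤
      ∑ e ∈ SQ h0 Q n0 x, if |tS e| ≤ 1 ∧ |uS e| ≤ 1 then ε else 0 := by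
    apply norm_sum_le_of_le
    intro e he
    by_cases ht : |tS e| ≤ 1 ∧ |uS e| ≤ 1
    · rw [if_pos ht, norm_mul, norm_mul, Complex.norm_real, Real.norm_eq_abs,
        abs_of_nonneg (mul_nonneg (limh_ps0_nonneg _) (limh_ps0_nonneg _))]
      have h2 : ‖F4 g f f g e‖ ≤ 1 := norm_F4_le hg hf hf hg e
      have h4 := hw e he
      have h5 : ps0 (tS e) * ps0 (uS e) ≤ 1 := mul_le_one₀ (limh_ps0_le _) (limh_ps0_nonneg _) (limh_ps0_le _)
      have h6 : 0 ≤ ps0 (tS e) * ps0 (uS e) := mul_nonneg (limh_ps0_nonneg _) (limh_ps0_nonneg _)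
      calc ‖F4 g f f g e‖ * (‖w e‖ * (ps0 (tS e) * ps0 (uS e))) ≤ 1 * (ε * 1) := by gcongr
        _ = ε := by ring
    · rw [if_neg ht]
      have h2 : ps0 (tS e) * ps0 (uS e) = 0 := by
        rw [not_and_or, not_le, not_le] at ht
        rcases ht with ht | ht
        · rw [limh_ps0_zero ht.le, zero_mul]
        · rw [limh_ps0_zero ht.le, mul_zero]
      rw [h2]
      simp
  refine h1.trans ?_
  rw [← sum_filter, sum_const, nsmul_eq_mul]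
  have h2 := hcnt h0 hh0 x hx
  have h3 : (((SQ h0 Q n0 x).filter (fun e => |tS e| ≤ 1 ∧ |uS e| ≤ 1)).card : ℝ) ≤
      (((SN h0 x).filter (fun e => |tS e| ≤ 1 ∧ |uS e| ≤ 1)).card : ℝ) := by
    have : (SQ h0 Q n0 x).filter (fun e => |tS e| ≤ 1 ∧ |uS e| ≤ 1) ⊆
        (SN h0 x).filter (fun e => |tS e| ≤ 1 ∧ |uS e| ≤ 1) := by
      apply filter_subset_filter
      unfold SQ
      exact filter_subset _ _
    exact_mod_cast card_le_card this
  calc (((SQ h0 Q n0 x).filter (fun e => |tS e| ≤ 1 ∧ |uS e| ≤ 1)).card : ℝ) * ε ≤ (C * x) * ε :=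
        mul_le_mul_of_nonneg_right (h3.trans h2) hε
    _ = ε * (C * x) := by ring

/-- PROOF. Adapt `limH` (`Lib_MP_f1a94e_eq/LimH.lean`). Let `C` be the constant of `cnt3` for `B = 1`. Given `ε`, take `N ≥ N0(ε')` (`GmSmall3` with `ε'`) so large that also `9 h2^2 (N+1) ≤ ε' N^2`, then `J ≥ J0`, `J ≥ N`, so large that `crho` holds with `η = ε'`. Let `X = Y / J`, `b1 = (J + N) h2 ≤ 2 J h2`, `x = b1 X`, `x' = (J+N)^2 (h0+1) h2 X`.
(1) `csN3`: `‖SX3‖^2 ≤ X^2 (9 h2^2 (N+1) + 6 h2 ε' N^2)`. (2) `apxO3` with `b = b1`: `SX3 - ∑ F4 g f f g WO3 = o(X)`. (3) `tvfQ` for `W y t u = WO3 y t u - c y ps0 t ps0 u`, `c y = ∫ t, ∫ u, WO3 y t u = ∫ s, WO h J N y s` (`WO3_ts`, `WO3_int`, `ts_c2`, `TS.sub`). (4) `crho`: `‖c y - (N/J) h (y/J)‖ ≤ η N/J`: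
`‖∑_(SQ (b1 X)) F4 (c (yS/X) - (N/J) h (yS/(J X))) ps0 (tS) ps0 (uS)‖ ≤ η (N/J) #{e ∈ SN h0 (b1 X) : |tS|, |uS| ≤ 1} ≤ η (N/J) C b1 X ≤ 2 η N C h2 X`. So `(N/J) ‖∑ F4 h (yS/(J X)) ps0 ps0‖ ≤ X (sqrt(9 h2^2 (N+1) + 6 h2 ε' N^2) + 2 η N C h2 + o(1))`, and with `Y = J X`: `‖∑ ..‖ ≤ Y (sqrt(..)/N + 2 η C h2 + o(1)/N)`.
The sum over `SQ (b Y)` equals the sum over `SQ (b1 X)`: `h (yS/Y) = 0` if `yS ≥ h2 Y`, and `b, b1/J ≥ h2`. -/
theorem limH3 (h0 Q n0 : ℕ) (hQ : HQ h0 Q n0) (E : Finset ℕ) (f g : ℕ → ℂ) (ω ω' : ℂ) (hf : MF f E ω)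
    (hg : MF g E ω') (hω : ‖ω‖ = 1) (hω' : ‖ω'‖ = 1) (hG : GmSmall3 h0 Q n0 f g)
    (h : ℝ → ℝ) (h1 h2 : ℝ) (hh : HF h h1 h2) (b : ℝ) (hb : h2 ≤ b) :
    Tendsto (fun Y : ℝ => (∑ e ∈ SQ h0 Q n0 (b * Y), F4 g f f g e * Wh h (yS e / Y) (tS e) (uS e)) / Y)
      atTop (nhds 0) := by
  classical
  apply limh_tend
  intro ε hε
  obtain ⟨C, hC, hcnt⟩ := cnt3 1
  have h20 : (1 : ℝ) ≤ h2 := hh.one
  have h2p : (0 : ℝ) < h2 := by linarith
  have h0p : 0 < h0 := hQ.pos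
  set η : ℝ := ε / (6 * C * h2) with hη
  have hη0 : 0 < η := by positivity
  set ε' : ℝ := ε ^ 2 / (108 * h2) with hε'
  have hε'0 : 0 < ε' := by positivity
  obtain ⟨N0, hN0⟩ := hG h h1 h2 hh ε' hε'0
  obtain ⟨N1, hN1⟩ := exists_nat_ge (324 * h2 ^ 2 / ε ^ 2)
  set N : ℕ := max N0 (max N1 1) with hN
  have hNN0 : N0 ≤ N := le_max_left _ _
  have hNN1 : N1 ≤ N := (le_max_left _ _).trans (le_max_right _ _)
  have hN1' : 1 ≤ N := (le_max_right _ _).trans (le_max_right _ _)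
  have hNr : (1 : ℝ) ≤ N := by exact_mod_cast hN1'
  have hNbig : 9 * h2 ^ 2 * (N + 1) ≤ ε ^ 2 / 18 * N ^ 2 := by
    have h3 : 324 * h2 ^ 2 / ε ^ 2 ≤ N := hN1.trans (by exact_mod_cast hNN1)
    rw [div_le_iff₀ (by positivity)] at h3
    have h4 : 9 * h2 ^ 2 * ((N : ℝ) + 1) ≤ 18 * h2 ^ 2 * N := by nlinarith [sq_nonneg h2]
    have h5 : 18 * h2 ^ 2 * N ≤ ε ^ 2 / 18 * N ^ 2 := by nlinarith
    linarith
  obtain ⟨J0, hJ0⟩ := hN0 N hNN0
  obtain ⟨J1, hJ1, hcr⟩ := crho h h1 h2 hh N hN1' η hη0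
  set J : ℕ := max J0 (max J1 N) with hJ
  have hJJ0 : J0 ≤ J := le_max_left _ _
  have hJJ1 : J1 ≤ J := (le_max_left _ _).trans (le_max_right _ _)
  have hJN : N ≤ J := (le_max_right _ _).trans (le_max_right _ _)
  have hJ1' : 1 ≤ J := hN1'.trans hJN
  have hJr : (1 : ℝ) ≤ J := by exact_mod_cast hJ1'
  have hJNr : (N : ℝ) ≤ J := by exact_mod_cast hJN
  set b1 : ℝ := ((J : ℝ) + N) * h2 with hb1
  have hb1p : 0 < b1 := by positivity
  have hb1J : b1 ≤ 2 * J * h2 := by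
    rw [hb1]
    have h3 := mul_le_mul_of_nonneg_right hJNr h2p.le
    linarith only [h3]
  have hb1h : J * h2 ≤ b1 := by
    rw [hb1]
    have h3 : 0 ≤ (N : ℝ) * h2 := by positivity
    linarith only [h3]
  have hb11 : 1 ≤ b1 := by nlinarith
  have hTS : TS b1 (WO3 h J N) := WO3_ts h h1 h2 hh J N hJ1' hN1' b1 (le_refl _)
  have hTS2 := hTS.sub (ts_c2 hTS).2
  have ev1 := hJ0 J hJJ0
  have ev2 := limh_ev (apxO3 h0 Q n0 h0p f g hf.bd hg.bd h h1 h2 hh J N hJ1' hN1' b1 hb1p) (ε := ε / 6)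
    (by positivity)
  have ev3 := limh_ev (tvfQ h0 Q n0 hQ E g f f g ω' ω ω ω' hg hf hf hg hω' hω hω hω' b1 _ hTS2
    (limh3_int hTS)) (ε := ε / 6) (by positivity)
  have ev4 : ∀ᶠ X : ℝ in atTop, (h0 : ℝ) + 1 ≤ X := eventually_ge_atTop _
  have hall := ((ev1.and ev2).and (ev3.and ev4))
  have htend : Tendsto (fun Y : ℝ => Y / J) atTop atTop :=
    tendsto_id.atTop_div_const (by linarith)
  filter_upwards [htend.eventually hall] with Y hY
  obtain ⟨⟨hG1, hO⟩, ⟨hV, hXh⟩⟩ := hY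
  set X : ℝ := Y / J with hX
  have hh0r : (0 : ℝ) ≤ h0 := Nat.cast_nonneg h0
  have hX1 : (1 : ℝ) ≤ X := by linarith
  have hX0 : (0 : ℝ) < X := by linarith
  have hYX : Y = J * X := by
    rw [hX]
    field_simp
  have hY0 : (0 : ℝ) < Y := by
    rw [hYX]
    positivity
  -- the sums
  set A : ℂ := ∑ e ∈ SQ h0 Q n0 (b * Y), F4 g f f g e * Wh h (yS e / Y) (tS e) (uS e) with hA
  have hA2 : A = ∑ e ∈ SQ h0 Q n0 (b1 * X), F4 g f f g e *
      (((h (yS e / X / J) : ℝ) : ℂ) * ((ps0 (tS e) * ps0 (uS e) : ℝ) : ℂ)) := by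
    rw [hA]
    have hz : ∀ e : Q4, h2 * Y ≤ yS e → Wh h (yS e / Y) (tS e) (uS e) = 0 := by
      intro e he
      have h3 : h (yS e / Y) = 0 := by
        apply hh.hi
        rw [le_div_iff₀ hY0]
        exact he
      unfold Wh
      rw [h3]
      simp
    have hs1 : ∑ e ∈ SQ h0 Q n0 (b * Y), F4 g f f g e * Wh h (yS e / Y) (tS e) (uS e) =
        ∑ e ∈ SQ h0 Q n0 (h2 * Y), F4 g f f g e * Wh h (yS e / Y) (tS e) (uS e) := by
      symm
      apply sum_subset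
      · intro e he
        rw [mem_SQ] at he ⊢
        exact ⟨⟨he.1.1, he.1.2.trans (mul_le_mul_of_nonneg_right hb hY0.le)⟩, he.2⟩
      · intro e he hne
        rw [mem_SQ] at he hne
        have : h2 * Y ≤ yS e := by
          by_contra hc
          push Not at hc
          exact hne ⟨⟨he.1.1, hc.le⟩, he.2⟩
        rw [hz e this]
        simp
    have hs2 : ∑ e ∈ SQ h0 Q n0 (b1 * X), F4 g f f g e * Wh h (yS e / Y) (tS e) (uS e) =
        ∑ e ∈ SQ h0 Q n0 (h2 * Y), F4 g f f g e * Wh h (yS e / Y) (tS e) (uS e) := by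
      symm
      apply sum_subset
      · intro e he
        rw [mem_SQ] at he ⊢
        refine ⟨⟨he.1.1, he.1.2.trans ?_⟩, he.2⟩
        rw [hYX]
        have h3 := mul_le_mul_of_nonneg_right hb1h hX0.le
        linarith only [h3]
      · intro e he hne
        rw [mem_SQ] at he hne
        have : h2 * Y ≤ yS e := by
          by_contra hc
          push Not at hc
          exact hne ⟨⟨he.1.1, hc.le⟩, he.2⟩
        rw [hz e this]
        simp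
    rw [hs1, ← hs2]
    apply sum_congr rfl
    intro e _
    have h3 : yS e / Y = yS e / X / J := by
      rw [hYX, div_div]
      ring_nf
    unfold Wh
    rw [h3]
    push_cast
    ring
  set c : ℝ → ℂ := fun y => ∫ t, ∫ u, WO3 h J N y t u with hc
  have hcW : ∀ y, c y = ∫ s, WO h J N y s := fun y => WO3_int h h1 h2 hh J N hJ1' hN1' y
  set S1 : ℂ := ∑ e ∈ SQ h0 Q n0 (b1 * X), F4 g f f g e * WO3 h J N (yS e / X) (tS e) (uS e) with hS1
  set S2 : ℂ := ∑ e ∈ SQ h0 Q n0 (b1 * X), F4 g f f g e *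
    (c (yS e / X) * ((ps0 (tS e) * ps0 (uS e) : ℝ) : ℂ)) with hS2
  have hb1X : (h0 : ℝ) ≤ b1 * X := by
    have h3 : X ≤ b1 * X := le_mul_of_one_le_left hX0.le hb11
    linarith only [h3, hXh]
  -- S2 and A
  have hd1 : ‖S2 - ((N : ℝ) / J : ℝ) * A‖ ≤ (η * (N / J)) * (C * (b1 * X)) := by
    have h3 : S2 - ((N : ℝ) / J : ℝ) * A = ∑ e ∈ SQ h0 Q n0 (b1 * X), F4 g f f g e *
        ((c (yS e / X) - (((N : ℝ) / J * h (yS e / X / J) : ℝ) : ℂ)) *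
          ((ps0 (tS e) * ps0 (uS e) : ℝ) : ℂ)) := by
      rw [hA2, hS2, mul_sum, ← sum_sub_distrib]
      apply sum_congr rfl
      intro e _
      push_cast
      ring
    rw [h3]
    apply limh3_small h0p hf.bd hg.bd hcnt (b1 * X) hb1X _ (by positivity)
    intro e _
    rw [hcW]
    exact hcr J hJJ1 (yS e / X)
  have hd2 : ‖S1 - S2‖ ≤ ε / 6 * X := by
    have h3 : S1 - S2 = ∑ e ∈ SQ h0 Q n0 (b1 * X), F4 g f f g e *
      (WO3 h J N (yS e / X) (tS e) (uS e) -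
        (∫ t', ∫ u', WO3 h J N (yS e / X) t' u') * ((ps0 (tS e) * ps0 (uS e) : ℝ) : ℂ)) := by
      rw [hS1, hS2, ← sum_sub_distrib]
      apply sum_congr rfl
      intro e _
      simp only [hc]
      ring
    rw [← h3, norm_div, Complex.norm_real, Real.norm_eq_abs, abs_of_pos hX0, div_le_iff₀ hX0] at hV
    exact hV
  have hd3 : ‖SX3 h0 Q n0 f g h J N (b1 * X) X - S1‖ ≤ ε / 6 * X := by
    rw [norm_div, Complex.norm_real, Real.norm_eq_abs, abs_of_pos hX0, div_le_iff₀ hX0] at hO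
    exact hO
  have hSX : ‖SX3 h0 Q n0 f g h J N (b1 * X) X‖ ≤ ε / 3 * N * X := by
    have h3 := csN3 h0 Q n0 hQ f g hf.bd hg.bd h hh.nn hh.le (fun y hy => hh.lo y (hy.trans hh.pos.le)) h2 hh.hi
      J N hJ1' hN1' X hX1 h20 (b1 * X) ((((J : ℝ) + N) ^ 2 * (h0 + 1) * h2) * X) (le_refl _) (le_refl _)
    have h4 : 3 * h2 * X * (3 * h2 * X * (N + 1) +
        2 * ‖∑ n ∈ Icc 1 N, Gm3 h0 Q n0 f g h J N n ((((J : ℝ) + N) ^ 2 * (h0 + 1) * h2) * X) X‖) ≤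
        (ε / 3 * N * X) ^ 2 := by
      have h5 : 3 * h2 * X * (3 * h2 * X * (N + 1) +
        2 * ‖∑ n ∈ Icc 1 N, Gm3 h0 Q n0 f g h J N n ((((J : ℝ) + N) ^ 2 * (h0 + 1) * h2) * X) X‖) ≤
        3 * h2 * X * (3 * h2 * X * (N + 1) + 2 * (ε' * N ^ 2 * X)) := by
        apply mul_le_mul_of_nonneg_left _ (by positivity)
        linarith
      refine h5.trans ?_
      have h6 : 3 * h2 * X * (3 * h2 * X * (N + 1) + 2 * (ε' * N ^ 2 * X)) =
          X ^ 2 * (9 * h2 ^ 2 * (N + 1) + 6 * h2 * ε' * N ^ 2) := by ring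
      have h7 : 6 * h2 * ε' = ε ^ 2 / 18 := by
        rw [hε']
        field_simp
        norm_num
      rw [h6, h7]
      have h8 : (ε / 3 * N * X) ^ 2 = X ^ 2 * (ε ^ 2 / 18 * N ^ 2 + ε ^ 2 / 18 * N ^ 2) := by ring
      rw [h8]
      apply mul_le_mul_of_nonneg_left _ (sq_nonneg X)
      linarith
    exact le_of_sq_le_sq (h3.trans h4) (by positivity)
  -- conclusion
  have htot : ‖((N : ℝ) / J : ℝ) * A‖ ≤ (η * (N / J)) * (C * (b1 * X)) + ε / 6 * X + ε / 6 * X +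
      ε / 3 * N * X := by
    have h3 : (((N : ℝ) / J : ℝ) : ℂ) * A = -(S2 - ((N : ℝ) / J : ℝ) * A) - (S1 - S2) -
        (SX3 h0 Q n0 f g h J N (b1 * X) X - S1) + SX3 h0 Q n0 f g h J N (b1 * X) X := by ring
    calc ‖(((N : ℝ) / J : ℝ) : ℂ) * A‖ = ‖-(S2 - ((N : ℝ) / J : ℝ) * A) - (S1 - S2) -
        (SX3 h0 Q n0 f g h J N (b1 * X) X - S1) + SX3 h0 Q n0 f g h J N (b1 * X) X‖ := by rw [← h3]
      _ ≤ ‖-(S2 - ((N : ℝ) / J : ℝ) * A) - (S1 - S2) - (SX3 h0 Q n0 f g h J N (b1 * X) X - S1)‖ +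
          ‖SX3 h0 Q n0 f g h J N (b1 * X) X‖ := norm_add_le _ _
      _ ≤ ‖-(S2 - ((N : ℝ) / J : ℝ) * A) - (S1 - S2)‖ + ‖SX3 h0 Q n0 f g h J N (b1 * X) X - S1‖ +
          ‖SX3 h0 Q n0 f g h J N (b1 * X) X‖ := by gcongr; exact norm_sub_le _ _
      _ ≤ ‖-(S2 - ((N : ℝ) / J : ℝ) * A)‖ + ‖S1 - S2‖ + ‖SX3 h0 Q n0 f g h J N (b1 * X) X - S1‖ +
          ‖SX3 h0 Q n0 f g h J N (b1 * X) X‖ := by gcongr; exact norm_sub_le _ _
      _ ≤ _ := by
          rw [norm_neg]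
          linarith
  rw [norm_mul, Complex.norm_real, Real.norm_eq_abs, abs_of_nonneg (by positivity)] at htot
  rw [norm_div, Complex.norm_real, Real.norm_eq_abs, abs_of_pos hY0, div_le_iff₀ hY0]
  have hJ0' : (0 : ℝ) < J := by linarith
  have hN0' : (0 : ℝ) < N := by linarith
  have h3 : ‖A‖ = (J / N) * ((N : ℝ) / J * ‖A‖) := by field_simp
  have h4 : (J / N) * ((N : ℝ) / J * ‖A‖) ≤ (J / N) * ((η * (N / J)) * (C * (b1 * X)) + ε / 6 * X +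
      ε / 6 * X + ε / 3 * N * X) := mul_le_mul_of_nonneg_left htot (by positivity)
  have h5 : (J / N : ℝ) * ((η * (N / J)) * (C * (b1 * X)) + ε / 6 * X + ε / 6 * X + ε / 3 * N * X) =
      η * C * b1 * X + (ε / 3) * (J / N) * X + ε / 3 * (J * X) := by
    field_simp
    ring
  have h6 : η * C * b1 * X ≤ ε / 3 * (J * X) := by
    have h7 : η * C * b1 * X ≤ η * C * (2 * J * h2) * X := by gcongr
    have h8 : η * C * (2 * J * h2) * X = ε / 3 * (J * X) := by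
      rw [hη]
      field_simp
      norm_num
    linarith
  have h7 : (ε / 3) * (J / N : ℝ) * X ≤ ε / 3 * (J * X) := by
    have h8 : (J / N : ℝ) ≤ J := by
      rw [div_le_iff₀ hN0']
      exact le_mul_of_one_le_right (by linarith only [hJr]) hNr
    have h9 : (J / N : ℝ) * X ≤ J * X := mul_le_mul_of_nonneg_right h8 hX0.le
    rw [mul_assoc (ε / 3)]
    exact mul_le_mul_of_nonneg_left h9 (by linarith only [hε])
  rw [hYX]
  linarith

end Pool.Agent.Spl
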