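import Pool.Agent.Lib_MP_92ef0c_sp.EqDefs

/-!
# Local densities modulo `p ^ 2`
-/

set_option autoImplicit false

namespace Pool.Agent.Spl

open Finset Pool.Agent.GaussMR Pool.Agent.OmAll Pool.Agent.OmEq

namespace LocPn

theorem solve {M a : ℕ} (hM : 1 < M) (ha : a.Coprime M) (t : ℕ) :
    ∃ d, d < M ∧ a * d ≡ t [MOD M] := by
  obtain ⟨m, -, hm⟩ := Nat.exists_mul_mod_eq_one_of_coprime ha hM
  refine ⟨(m * t) % M, Nat.mod_lt _ (by omega), ?_⟩
  have h1 : a * m ≡ 1 [MOD M] := by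
    show a * m % M = 1 % M
    rw [hm, Nat.mod_eq_of_lt hM]
  have h2 : a * (m * t % M) ≡ a * (m * t) [MOD M] := (Nat.mod_modEq _ _).mul_left a
  have h3 : a * (m * t) ≡ 1 * t [MOD M] := by
    rw [← mul_assoc]
    exact h1.mul_right t
  rw [one_mul] at h3
  exact h2.trans h3

open Classical in
theorem cardA {M : ℕ} (hM : 1 < M) (A B C : Finset ℕ) (hA : A ⊆ range M) (hB : B ⊆ range M)
    (hC : C ⊆ range M) (hco : ∀ a ∈ A, a.Coprime M) :
    ((clq M).filter (fun e => e.a ∈ A ∧ e.b ∈ B ∧ e.c ∈ C)).card = A.card * B.card * C.card := by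
  rw [← card_product, ← card_product]
  apply card_bij (fun e _ => ((e.a, e.b), e.c))
  · intro e he
    rw [mem_filter] at he
    rw [mem_product, mem_product]
    exact ⟨⟨he.2.1, he.2.2.1⟩, he.2.2.2⟩
  · intro e he f hf hef
    rw [mem_filter, mem_clq] at he hf
    simp only [Prod.mk.injEq] at hef
    obtain ⟨⟨h1, h2⟩, h3⟩ := hef
    have h4 : e.a * e.d ≡ e.a * f.d [MOD M] := by
      have := hf.1.2
      rw [← h1, ← h2, ← h3] at this
      exact he.1.2.trans this.symm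
    have h5 := Nat.ModEq.cancel_left_of_coprime (Nat.Coprime.symm (hco _ he.2.1)) h4
    have h6 := Nat.ModEq.eq_of_lt_of_lt h5 he.1.1.2.2.2 hf.1.1.2.2.2
    exact Q4.ext h1 h2 h3 h6
  · rintro ⟨⟨a, b⟩, c⟩ h
    rw [mem_product, mem_product] at h
    obtain ⟨⟨ha, hb⟩, hc⟩ := h
    obtain ⟨d, hd, hd'⟩ := solve hM (hco a ha) (b * c + 1)
    refine ⟨⟨a, b, c, d⟩, ?_, rfl⟩
    rw [mem_filter, mem_clq]
    exact ⟨⟨⟨mem_range.1 (hA ha), mem_range.1 (hB hb), mem_range.1 (hC hc), hd⟩, hd'⟩, ha, hb, hc⟩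

open Classical in
theorem cardB {M : ℕ} (hM : 1 < M) (A B D : Finset ℕ) (hA : A ⊆ range M) (hB : B ⊆ range M)
    (hD : D ⊆ range M) (hco : ∀ b ∈ B, b.Coprime M) :
    ((clq M).filter (fun e => e.a ∈ A ∧ e.b ∈ B ∧ e.d ∈ D)).card = A.card * B.card * D.card := by
  rw [← card_product, ← card_product]
  apply card_bij (fun e _ => ((e.a, e.b), e.d))
  · intro e he
    rw [mem_filter] at he
    rw [mem_product, mem_product]
    exact ⟨⟨he.2.1, he.2.2.1⟩, he.2.2.2⟩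
  · intro e he f hf hef
    rw [mem_filter, mem_clq] at he hf
    simp only [Prod.mk.injEq] at hef
    obtain ⟨⟨h1, h2⟩, h3⟩ := hef
    have h4 : e.b * e.c ≡ e.b * f.c [MOD M] := by
      have := hf.1.2
      rw [← h1, ← h2, ← h3] at this
      exact Nat.ModEq.add_right_cancel' 1 (he.1.2.symm.trans this)
    have h5 := Nat.ModEq.cancel_left_of_coprime (Nat.Coprime.symm (hco _ he.2.2.1)) h4
    have h6 := Nat.ModEq.eq_of_lt_of_lt h5 he.1.1.2.2.1 hf.1.1.2.2.1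
    exact Q4.ext h1 h2 h6 h3
  · rintro ⟨⟨a, b⟩, d⟩ h
    rw [mem_product, mem_product] at h
    obtain ⟨⟨ha, hb⟩, hd⟩ := h
    obtain ⟨c, hc, hc'⟩ := solve hM (hco b hb) (a * d + (M - 1))
    refine ⟨⟨a, b, c, d⟩, ?_, rfl⟩
    rw [mem_filter, mem_clq]
    refine ⟨⟨⟨mem_range.1 (hA ha), mem_range.1 (hB hb), hc, mem_range.1 (hD hd)⟩, ?_⟩, ha, hb, hd⟩
    have h1 : b * c + 1 ≡ a * d + (M - 1) + 1 [MOD M] := hc'.add_right 1
    have h2 : a * d + (M - 1) + 1 = a * d + M := by omega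
    rw [h2] at h1
    have h3 : a * d + M ≡ a * d [MOD M] := by
      show (a * d + M) % M = a * d % M
      rw [Nat.add_mod_right]
    exact (h1.trans h3).symm

/-- multiples of `p` below `p ^ 2` -/
def Nn (p : ℕ) : Finset ℕ := (range (p ^ 2)).filter (fun a => p ∣ a)

/-- non multiples of `p` below `p ^ 2` -/
def Un (p : ℕ) : Finset ℕ := (range (p ^ 2)).filter (fun a => ¬ p ∣ a)

/-- nonzero multiples of `p` below `p ^ 2` -/
def Zn (p : ℕ) : Finset ℕ := (range (p ^ 2)).filter (fun a => p ∣ a ∧ a ≠ 0)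

theorem card_Nn {p : ℕ} (hp : 0 < p) : (Nn p).card = p := by
  have h : Nn p = (range p).image (fun i => p * i) := by
    ext a
    unfold Nn
    rw [mem_filter, mem_range, mem_image]
    constructor
    · rintro ⟨h1, i, rfl⟩
      refine ⟨i, mem_range.2 ?_, rfl⟩
      rw [pow_two] at h1
      exact Nat.lt_of_mul_lt_mul_left h1
    · rintro ⟨i, hi, rfl⟩
      refine ⟨?_, Dvd.intro _ rfl⟩
      rw [pow_two]
      exact Nat.mul_lt_mul_of_pos_left (mem_range.1 hi) hp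
  rw [h, card_image_of_injective, card_range]
  intro i j hij
  exact Nat.eq_of_mul_eq_mul_left hp hij

theorem card_Zn {p : ℕ} (hp : 0 < p) : (Zn p).card = p - 1 := by
  have h : Zn p = (Nn p).erase 0 := by
    ext a
    unfold Zn Nn
    rw [mem_filter, mem_erase, mem_filter]
    tauto
  rw [h, card_erase_of_mem, card_Nn hp]
  unfold Nn
  rw [mem_filter, mem_range]
  exact ⟨by positivity, dvd_zero _⟩

theorem card_Un {p : ℕ} (hp : 0 < p) : (Un p).card = p * (p - 1) := by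
  have h := card_filter_add_card_filter_not (s := range (p ^ 2)) (fun a => p ∣ a)
  have h1 : ((range (p ^ 2)).filter (fun a => p ∣ a)).card = p := card_Nn hp
  rw [h1, card_range] at h
  unfold Un
  obtain ⟨q, rfl⟩ : ∃ q, p = q + 1 := ⟨p - 1, by omega⟩
  rw [Nat.add_sub_cancel]
  have h2 : (q + 1) ^ 2 = (q + 1) + (q + 1) * q := by ring
  rw [h2] at h
  have h3 := Nat.add_left_cancel h
  rw [← h2] at h3
  exact h3

theorem cop_of_not_dvd {p a : ℕ} (hp : p.Prime) (h : ¬ p ∣ a) : a.Coprime (p ^ 2) :=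
  Nat.Coprime.pow_right 2 ((Nat.Prime.coprime_iff_not_dvd hp).2 h).symm

theorem Un_cop {p : ℕ} (hp : p.Prime) : ∀ a ∈ Un p, a.Coprime (p ^ 2) := by
  intro a ha
  unfold Un at ha
  rw [mem_filter] at ha
  exact cop_of_not_dvd hp ha.2

theorem Un_sub (p : ℕ) : Un p ⊆ range (p ^ 2) := filter_subset _ _
theorem Nn_sub (p : ℕ) : Nn p ⊆ range (p ^ 2) := filter_subset _ _
theorem Zn_sub (p : ℕ) : Zn p ⊆ range (p ^ 2) := filter_subset _ _

theorem not_both {p : ℕ} (hp : p.Prime) {e : Q4} (he : e ∈ clq (p ^ 2)) (h1 : p ∣ e.a * e.d)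
    (h2 : p ∣ e.b * e.c) : False := by
  rw [mem_clq] at he
  have h3 : e.a * e.d ≡ e.b * e.c + 1 [MOD p] := he.2.of_dvd (dvd_pow_self p two_ne_zero)
  have h4 : p ∣ e.b * e.c + 1 := (h3.dvd_iff (dvd_refl p)).1 h1
  have h5 : p ∣ 1 := (Nat.dvd_add_right h2).1 h4
  exact hp.one_lt.ne' (Nat.dvd_one.1 h5)

theorem not_sq_dvd {p x y : ℕ} (hp : p.Prime) (hx : ¬ p ∣ x) (hy : y ≠ 0) (hy2 : y < p ^ 2) :
    ¬ p ^ 2 ∣ x * y := by
  intro h
  have h1 : p ^ 2 ∣ y := (cop_of_not_dvd hp hx).symm.dvd_of_dvd_mul_left h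
  exact absurd (Nat.le_of_dvd (Nat.pos_of_ne_zero hy) h1) (by omega)

theorem sq_dvd {p x y : ℕ} (hx : p ∣ x) (hy : p ∣ y) : p ^ 2 ∣ x * y := by
  rw [pow_two]
  exact mul_dvd_mul hx hy

end LocPn

open LocPn

open Classical in
/-- PROOF. `clq M` for `M = p ^ 2` is `{(a, b, c, d) ∈ [0, M)^4 : a d = b c + 1 mod M}`. Total `p^4 (p^2 - 1)`: number of `(a, b)` not both divisible by `p`: `p^4 - p^2`; for each of them exactly `p^2` pairs `(c, d)` (if `a` is a unit, `c` is free and `d` determined; otherwise `b` is a unit, `d` free, `c` determined): `(p^4 - p^2) p^2`.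
`p ∣ d`, `¬ p^2 ∣ a d`: `d ≠ 0 mod p^2`, `p ∣ d` (`p - 1` values) and `a` a unit (`p (p-1)` values; if `p ∣ a` then `p^2 ∣ a d`), then `b c = a d - 1` is a unit: `b` a unit (`p (p - 1)` values) and `c` determined: `p^2 (p-1)^3`. The other three in the same way. (One may work in `ZMod (p^2)` with `Finset.card` of a bijection, units
`Fintype.card (ZMod n)ˣ = φ(n)`, or count natural numbers directly.) -/
theorem locP (p : ℕ) (hp : p.Prime) : (clq (p ^ 2)).card = p ^ 4 * (p ^ 2 - 1) ∧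
    ((clq (p ^ 2)).filter (fun e => p ∣ e.d ∧ ¬ p ^ 2 ∣ e.a * e.d)).card = p ^ 2 * (p - 1) ^ 3 ∧
    ((clq (p ^ 2)).filter (fun e => p ∣ e.a ∧ ¬ p ^ 2 ∣ e.a * e.d)).card = p ^ 2 * (p - 1) ^ 3 ∧
    ((clq (p ^ 2)).filter (fun e => p ∣ e.c ∧ ¬ p ^ 2 ∣ e.b * e.c)).card = p ^ 2 * (p - 1) ^ 3 ∧
    ((clq (p ^ 2)).filter (fun e => p ∣ e.b ∧ ¬ p ^ 2 ∣ e.b * e.c)).card = p ^ 2 * (p - 1) ^ 3 := by
  have hM : 1 < p ^ 2 := Nat.one_lt_pow two_ne_zero hp.one_lt
  have hN := card_Nn hp.pos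
  have hZ := card_Zn hp.pos
  have hU := card_Un hp.pos
  refine ⟨?_, ?_, ?_, ?_, ?_⟩
  · have h := card_filter_add_card_filter_not (s := clq (p ^ 2)) (fun e => p ∣ e.a)
    have e1 : (clq (p ^ 2)).filter (fun e => p ∣ e.a) =
        (clq (p ^ 2)).filter (fun e => e.a ∈ Nn p ∧ e.b ∈ Un p ∧ e.d ∈ range (p ^ 2)) := by
      refine filter_congr fun e he => ?_
      have hb := (mem_clq.1 he).1
      unfold Nn Un
      rw [mem_filter, mem_filter, mem_range, mem_range, mem_range]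
      constructor
      · intro h1
        exact ⟨⟨hb.1, h1⟩, ⟨hb.2.1, fun h2 => not_both hp he (h1.mul_right _) (h2.mul_right _)⟩,
          hb.2.2.2⟩
      · intro h1
        exact h1.1.2
    have e2 : (clq (p ^ 2)).filter (fun e => ¬ p ∣ e.a) =
        (clq (p ^ 2)).filter (fun e => e.a ∈ Un p ∧ e.b ∈ range (p ^ 2) ∧ e.c ∈ range (p ^ 2)) := by
      refine filter_congr fun e he => ?_
      have hb := (mem_clq.1 he).1
      unfold Un
      rw [mem_filter, mem_range, mem_range, mem_range]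
      constructor
      · intro h1
        exact ⟨⟨hb.1, h1⟩, hb.2.1, hb.2.2.1⟩
      · intro h1
        exact h1.1.2
    rw [e1, e2, cardB hM _ _ _ (Nn_sub p) (Un_sub p) (Finset.Subset.refl _) (Un_cop hp),
      cardA hM _ _ _ (Un_sub p) (Finset.Subset.refl _) (Finset.Subset.refl _) (Un_cop hp),
      hN, hU, card_range] at h
    rw [← h]
    obtain ⟨q, rfl⟩ : ∃ q, p = q + 1 := ⟨p - 1, by have := hp.pos; omega⟩
    have h2 : (q + 1) ^ 2 - 1 = q * (q + 2) := Nat.sub_eq_of_eq_add (by ring)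
    rw [h2, Nat.add_sub_cancel]
    ring
  · have e1 : (clq (p ^ 2)).filter (fun e => p ∣ e.d ∧ ¬ p ^ 2 ∣ e.a * e.d) =
        (clq (p ^ 2)).filter (fun e => e.a ∈ Un p ∧ e.b ∈ Un p ∧ e.d ∈ Zn p) := by
      refine filter_congr fun e he => ?_
      have hb := (mem_clq.1 he).1
      unfold Un Zn
      rw [mem_filter, mem_filter, mem_filter, mem_range, mem_range, mem_range]
      constructor
      · rintro ⟨h1, h2⟩
        refine ⟨⟨hb.1, fun h3 => h2 (sq_dvd h3 h1)⟩,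
          ⟨hb.2.1, fun h3 => not_both hp he (h1.mul_left _) (h3.mul_right _)⟩, hb.2.2.2, h1, ?_⟩
        rintro h4
        exact h2 (by rw [h4, mul_zero]; exact dvd_zero _)
      · rintro ⟨h1, h2, h3⟩
        exact ⟨h3.2.1, not_sq_dvd hp h1.2 h3.2.2 h3.1⟩
    rw [e1, cardB hM _ _ _ (Un_sub p) (Un_sub p) (Zn_sub p) (Un_cop hp), hU, hZ]
    ring
  · have e1 : (clq (p ^ 2)).filter (fun e => p ∣ e.a ∧ ¬ p ^ 2 ∣ e.a * e.d) =
        (clq (p ^ 2)).filter (fun e => e.a ∈ Zn p ∧ e.b ∈ Un p ∧ e.d ∈ Un p) := by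
      refine filter_congr fun e he => ?_
      have hb := (mem_clq.1 he).1
      unfold Un Zn
      rw [mem_filter, mem_filter, mem_filter, mem_range, mem_range, mem_range]
      constructor
      · rintro ⟨h1, h2⟩
        refine ⟨⟨hb.1, h1, ?_⟩,
          ⟨hb.2.1, fun h3 => not_both hp he (h1.mul_right _) (h3.mul_right _)⟩, hb.2.2.2,
          fun h3 => h2 (sq_dvd h1 h3)⟩
        rintro h4
        exact h2 (by rw [h4, zero_mul]; exact dvd_zero _)
      · rintro ⟨h1, h2, h3⟩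
        refine ⟨h1.2.1, ?_⟩
        rw [mul_comm]
        exact not_sq_dvd hp h3.2 h1.2.2 h1.1
    rw [e1, cardB hM _ _ _ (Zn_sub p) (Un_sub p) (Un_sub p) (Un_cop hp), hU, hZ]
    ring
  · have e1 : (clq (p ^ 2)).filter (fun e => p ∣ e.c ∧ ¬ p ^ 2 ∣ e.b * e.c) =
        (clq (p ^ 2)).filter (fun e => e.a ∈ Un p ∧ e.b ∈ Un p ∧ e.c ∈ Zn p) := by
      refine filter_congr fun e he => ?_
      have hb := (mem_clq.1 he).1
      unfold Un Zn
      rw [mem_filter, mem_filter, mem_filter, mem_range, mem_range, mem_range]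
      constructor
      · rintro ⟨h1, h2⟩
        refine ⟨⟨hb.1, fun h3 => not_both hp he (h3.mul_right _) (h1.mul_left _)⟩,
          ⟨hb.2.1, fun h3 => h2 (sq_dvd h3 h1)⟩, hb.2.2.1, h1, ?_⟩
        rintro h4
        exact h2 (by rw [h4, mul_zero]; exact dvd_zero _)
      · rintro ⟨h1, h2, h3⟩
        exact ⟨h3.2.1, not_sq_dvd hp h2.2 h3.2.2 h3.1⟩
    rw [e1, cardA hM _ _ _ (Un_sub p) (Un_sub p) (Zn_sub p) (Un_cop hp), hU, hZ]
    ring
  · have e1 : (clq (p ^ 2)).filter (fun e => p ∣ e.b ∧ ¬ p ^ 2 ∣ e.b * e.c) =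
        (clq (p ^ 2)).filter (fun e => e.a ∈ Un p ∧ e.b ∈ Zn p ∧ e.c ∈ Un p) := by
      refine filter_congr fun e he => ?_
      have hb := (mem_clq.1 he).1
      unfold Un Zn
      rw [mem_filter, mem_filter, mem_filter, mem_range, mem_range, mem_range]
      constructor
      · rintro ⟨h1, h2⟩
        refine ⟨⟨hb.1, fun h3 => not_both hp he (h3.mul_right _) (h1.mul_right _)⟩,
          ⟨hb.2.1, h1, ?_⟩, hb.2.2.1, fun h3 => h2 (sq_dvd h1 h3)⟩
        rintro h4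
        exact h2 (by rw [h4, zero_mul]; exact dvd_zero _)
      · rintro ⟨h1, h2, h3⟩
        refine ⟨h2.2.1, ?_⟩
        rw [mul_comm]
        exact not_sq_dvd hp h3.2 h2.2.2 h2.1
    rw [e1, cardA hM _ _ _ (Un_sub p) (Zn_sub p) (Un_sub p) (Un_cop hp), hU, hZ]
    ring

namespace LocPn

/-- reduction modulo `M` -/
def rq (M : ℕ) (e : Q4) : Q4 := ⟨e.a % M, e.b % M, e.c % M, e.d % M⟩

theorem rq_cq (M : ℕ) (e : Q4) : cq M (rq M e) e :=
  ⟨Nat.mod_modEq _ _, Nat.mod_modEq _ _, Nat.mod_modEq _ _, Nat.mod_modEq _ _⟩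

theorem det_cq {M : ℕ} {e f : Q4} (h : cq M e f) (hf : f.a * f.d ≡ f.b * f.c + 1 [MOD M]) :
    e.a * e.d ≡ e.b * e.c + 1 [MOD M] :=
  (h.1.mul h.2.2.2).trans (hf.trans ((h.2.1.mul h.2.2.1).add_right 1).symm)

theorem cq_symm {M : ℕ} {e f : Q4} (h : cq M e f) : cq M f e :=
  ⟨h.1.symm, h.2.1.symm, h.2.2.1.symm, h.2.2.2.symm⟩

theorem rq_mem {M N : ℕ} (hM : 0 < M) (h : M ∣ N) {e : Q4}
    (he : e.a * e.d ≡ e.b * e.c + 1 [MOD N]) : rq M e ∈ clq M := by
  rw [mem_clq]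
  refine ⟨⟨Nat.mod_lt _ hM, Nat.mod_lt _ hM, Nat.mod_lt _ hM, Nat.mod_lt _ hM⟩, ?_⟩
  exact det_cq (rq_cq M e) (he.of_dvd h)

theorem rq_eq_of_cq {M : ℕ} {e f : Q4} (h : cq M e f)
    (hf : f.a < M ∧ f.b < M ∧ f.c < M ∧ f.d < M) : rq M e = f := by
  apply Q4.ext
  · show e.a % M = f.a
    rw [show e.a % M = f.a % M from h.1, Nat.mod_eq_of_lt hf.1]
  · show e.b % M = f.b
    rw [show e.b % M = f.b % M from h.2.1, Nat.mod_eq_of_lt hf.2.1]
  · show e.c % M = f.c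
    rw [show e.c % M = f.c % M from h.2.2.1, Nat.mod_eq_of_lt hf.2.2.1]
  · show e.d % M = f.d
    rw [show e.d % M = f.d % M from h.2.2.2, Nat.mod_eq_of_lt hf.2.2.2]

theorem eq_of_mods {M1 M2 x y : ℕ} (hco : M1.Coprime M2) (hx : x < M1 * M2) (hy : y < M1 * M2)
    (h1 : x % M1 = y % M1) (h2 : x % M2 = y % M2) : x = y := by
  have h : x ≡ y [MOD M1 * M2] := (Nat.modEq_and_modEq_iff_modEq_mul hco).1 ⟨h1, h2⟩
  exact Nat.ModEq.eq_of_lt_of_lt h hx hy

end LocPn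

open Classical in
/-- PROOF. Chinese remainder theorem: reduction modulo `M1` and modulo `M2` is a bijection `clq (M1 M2) → clq M1 × clq M2` (`Nat.chineseRemainder` for each entry; the determinant condition modulo `M1 M2` holds iff it holds modulo `M1` and modulo `M2`: `Nat.modEq_and_modEq_iff_modEq_mul`). Compare `cls_mul` in
`Lib_MP_f1a94e_aq/Local.lean`. -/
theorem clq_mul (M1 M2 : ℕ) (h1 : 0 < M1) (h2 : 0 < M2) (hco : M1.Coprime M2) (P1 P2 : Q4 → Prop)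
    (hP1 : PerQ M1 P1) (hP2 : PerQ M2 P2) :
    ((clq (M1 * M2)).filter (fun e => P1 e ∧ P2 e)).card = ((clq M1).filter P1).card * ((clq M2).filter P2).card := by
  rw [← card_product]
  apply card_bij (fun e _ => (rq M1 e, rq M2 e))
  · intro e he
    rw [mem_filter, mem_clq] at he
    rw [mem_product, mem_filter, mem_filter]
    exact ⟨⟨rq_mem h1 (Dvd.intro _ rfl) he.1.2, (hP1 _ _ (rq_cq M1 e)).2 he.2.1⟩,
      rq_mem h2 (Dvd.intro_left _ rfl) he.1.2, (hP2 _ _ (rq_cq M2 e)).2 he.2.2⟩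
  · intro e he f hf hef
    rw [mem_filter, mem_clq] at he hf
    rw [Prod.mk.injEq] at hef
    have k1 := hef.1
    have k2 := hef.2
    unfold rq at k1 k2
    rw [Q4.mk.injEq] at k1 k2
    exact Q4.ext (eq_of_mods hco he.1.1.1 hf.1.1.1 k1.1 k2.1)
      (eq_of_mods hco he.1.1.2.1 hf.1.1.2.1 k1.2.1 k2.2.1)
      (eq_of_mods hco he.1.1.2.2.1 hf.1.1.2.2.1 k1.2.2.1 k2.2.2.1)
      (eq_of_mods hco he.1.1.2.2.2 hf.1.1.2.2.2 k1.2.2.2 k2.2.2.2)
  · rintro ⟨e, f⟩ hef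
    rw [mem_product, mem_filter, mem_filter, mem_clq, mem_clq] at hef
    obtain ⟨⟨⟨he, hde⟩, hPe⟩, ⟨hf, hdf⟩, hPf⟩ := hef
    dsimp only at he hde hPe hf hdf hPf
    let g : Q4 := ⟨Nat.chineseRemainder hco e.a f.a, Nat.chineseRemainder hco e.b f.b,
      Nat.chineseRemainder hco e.c f.c, Nat.chineseRemainder hco e.d f.d⟩
    have hg1 : cq M1 g e := ⟨(Nat.chineseRemainder hco e.a f.a).2.1,
      (Nat.chineseRemainder hco e.b f.b).2.1, (Nat.chineseRemainder hco e.c f.c).2.1,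
      (Nat.chineseRemainder hco e.d f.d).2.1⟩
    have hg2 : cq M2 g f := ⟨(Nat.chineseRemainder hco e.a f.a).2.2,
      (Nat.chineseRemainder hco e.b f.b).2.2, (Nat.chineseRemainder hco e.c f.c).2.2,
      (Nat.chineseRemainder hco e.d f.d).2.2⟩
    refine ⟨g, ?_, ?_⟩
    · rw [mem_filter, mem_clq]
      refine ⟨⟨⟨Nat.chineseRemainder_lt_mul hco _ _ h1.ne' h2.ne',
        Nat.chineseRemainder_lt_mul hco _ _ h1.ne' h2.ne',
        Nat.chineseRemainder_lt_mul hco _ _ h1.ne' h2.ne',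
        Nat.chineseRemainder_lt_mul hco _ _ h1.ne' h2.ne'⟩, ?_⟩, (hP1 _ _ hg1).2 hPe,
        (hP2 _ _ hg2).2 hPf⟩
      exact (Nat.modEq_and_modEq_iff_modEq_mul hco).1 ⟨det_cq hg1 hde, det_cq hg2 hdf⟩
    · rw [Prod.mk.injEq]
      exact ⟨rq_eq_of_cq hg1 he, rq_eq_of_cq hg2 hf⟩

end Pool.Agent.Spl
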