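import Pool.Agent.Lib_MP_92ef0c_sp.TDefs
import Pool.Agent.Lib_MP_92ef0c_sp.Ctw3
import Pool.Agent.Lib_MP_92ef0c_sp.NpS

/-!
# Moves between `a` and `d` with residue classes
-/

set_option autoImplicit false

namespace Pool.Agent.Spl

open Finset Pool.Agent.GaussMR Pool.Agent.OmAll Pool.Agent.OmEq MeasureTheory Filter

/-- the component of `ψ` that is multiplied by `χ w` under `(x1, x4) ↦ (w x1, w⁻¹ x4)` -/
noncomputable def psA (M : ℕ) [NeZero M] (ψ : ZMod M → ZMod M → ZMod M → ZMod M → ℂ) (χ : DirichletCharacter ℂ M)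
    (x1 x2 x3 x4 : ZMod M) : ℂ :=
  (M.totient : ℂ)⁻¹ * ∑ v : (ZMod M)ˣ, χ⁻¹ (v : ZMod M) * ψ ((v : ZMod M) * x1) x2 x3 (((v⁻¹ : (ZMod M)ˣ) : ZMod M) * x4)

/-- PROOF. Exchange the sums: `∑_χ χ⁻¹(v) = φ(M)` if `v = 1` and `0` otherwise (`DirichletCharacter.sum_char_inv_mul_char_eq` or `DirichletCharacter.sum_characters_eq`, `χ ↦ χ⁻¹` is a bijection; see `Lib_MP_f1a94e_eq/Gram.lean`). -/
theorem psA_sum (M : ℕ) [NeZero M] (ψ : ZMod M → ZMod M → ZMod M → ZMod M → ℂ) (x1 x2 x3 x4 : ZMod M) :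
    ∑ χ : DirichletCharacter ℂ M, psA M ψ χ x1 x2 x3 x4 = ψ x1 x2 x3 x4 := by
  classical
  have hφ : ((M.totient : ℕ) : ℂ) ≠ 0 := by
    exact_mod_cast (Nat.totient_pos.2 (Nat.pos_of_ne_zero (NeZero.ne M))).ne'
  have h1 : ∀ v : (ZMod M)ˣ, ∑ χ : DirichletCharacter ℂ M, χ⁻¹ (v : ZMod M) =
      if v = 1 then (M.totient : ℂ) else 0 := by
    intro v
    have h2 : ∑ χ : DirichletCharacter ℂ M, χ⁻¹ (v : ZMod M) = ∑ χ : DirichletCharacter ℂ M, χ (v : ZMod M) :=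
      Fintype.sum_equiv (Equiv.inv (DirichletCharacter ℂ M)) _ _ fun χ => rfl
    rw [h2, DirichletCharacter.sum_characters_eq]
    by_cases hv : v = 1
    · rw [if_pos hv, if_pos (by rw [hv]; rfl)]
    · have hv2 : (v : ZMod M) ≠ 1 := fun h => hv (Units.ext (by rw [h, Units.val_one]))
      rw [if_neg hv, if_neg hv2]
  unfold psA
  rw [← Finset.mul_sum, Finset.sum_comm]
  have h3 : ∀ v : (ZMod M)ˣ, ∑ χ : DirichletCharacter ℂ M, χ⁻¹ (v : ZMod M) *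
      ψ ((v : ZMod M) * x1) x2 x3 (((v⁻¹ : (ZMod M)ˣ) : ZMod M) * x4) =
      if v = 1 then (M.totient : ℂ) * ψ x1 x2 x3 x4 else 0 := by
    intro v
    rw [← Finset.sum_mul, h1 v]
    by_cases hv : v = 1
    · rw [if_pos hv, if_pos hv, hv, inv_one, Units.val_one, one_mul, one_mul]
    · rw [if_neg hv, if_neg hv, zero_mul]
  rw [Finset.sum_congr rfl fun v _ => h3 v, Finset.sum_ite_eq' Finset.univ (1 : (ZMod M)ˣ),
    if_pos (Finset.mem_univ _), inv_mul_cancel_left₀ hφ]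

/-- PROOF. Substitute `v' = v w` in the sum over the units; `χ⁻¹(v' w⁻¹) = χ⁻¹(v') χ(w)`. -/
theorem psA_mul (M : ℕ) [NeZero M] (ψ : ZMod M → ZMod M → ZMod M → ZMod M → ℂ) (χ : DirichletCharacter ℂ M) (w : (ZMod M)ˣ)
    (x1 x2 x3 x4 : ZMod M) :
    psA M ψ χ ((w : ZMod M) * x1) x2 x3 (((w⁻¹ : (ZMod M)ˣ) : ZMod M) * x4) = χ (w : ZMod M) * psA M ψ χ x1 x2 x3 x4 := by
  have hχ : χ (w : ZMod M) * χ⁻¹ (w : ZMod M) = 1 := by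
    rw [← MulChar.mul_apply, mul_inv_cancel, MulChar.one_apply w.isUnit]
  unfold psA
  have hs := Equiv.sum_comp (Equiv.mulRight w) (fun v : (ZMod M)ˣ => χ⁻¹ (v : ZMod M) *
    ψ ((v : ZMod M) * x1) x2 x3 (((v⁻¹ : (ZMod M)ˣ) : ZMod M) * x4))
  rw [← hs, mul_left_comm]
  congr 1
  rw [Finset.mul_sum]
  refine Finset.sum_congr rfl fun v _ => ?_
  rw [Equiv.coe_mulRight, mul_inv_rev, Units.val_mul, Units.val_mul, map_mul]
  have e1 : (v : ZMod M) * ((w : ZMod M) * x1) = (v : ZMod M) * (w : ZMod M) * x1 := by ring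
  have e2 : ((v⁻¹ : (ZMod M)ˣ) : ZMod M) * (((w⁻¹ : (ZMod M)ˣ) : ZMod M) * x4) =
      ((w⁻¹ : (ZMod M)ˣ) : ZMod M) * ((v⁻¹ : (ZMod M)ˣ) : ZMod M) * x4 := by ring
  rw [e1, e2]
  calc χ⁻¹ (v : ZMod M) * ψ ((v : ZMod M) * (w : ZMod M) * x1) x2 x3
        (((w⁻¹ : (ZMod M)ˣ) : ZMod M) * ((v⁻¹ : (ZMod M)ˣ) : ZMod M) * x4)
      = (χ (w : ZMod M) * χ⁻¹ (w : ZMod M)) * (χ⁻¹ (v : ZMod M) * ψ ((v : ZMod M) * (w : ZMod M) * x1) x2 x3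
        (((w⁻¹ : (ZMod M)ˣ) : ZMod M) * ((v⁻¹ : (ZMod M)ˣ) : ZMod M) * x4)) := by rw [hχ, one_mul]
    _ = _ := by ring

/-- PROOF. Triangle inequality, `‖χ⁻¹ v‖ ≤ 1`, `#units = φ(M)` (`ZMod.card_units_eq_totient`). -/
theorem psA_le (M : ℕ) [NeZero M] (ψ : ZMod M → ZMod M → ZMod M → ZMod M → ℂ) (hψ : ∀ x1 x2 x3 x4, ‖ψ x1 x2 x3 x4‖ ≤ 1)
    (χ : DirichletCharacter ℂ M) (x1 x2 x3 x4 : ZMod M) : ‖psA M ψ χ x1 x2 x3 x4‖ ≤ 1 := by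
  have hpos : (0 : ℝ) < (M.totient : ℝ) := by
    exact_mod_cast Nat.totient_pos.2 (Nat.pos_of_ne_zero (NeZero.ne M))
  unfold psA
  rw [norm_mul, norm_inv, Complex.norm_natCast]
  have h1 : ‖∑ v : (ZMod M)ˣ, χ⁻¹ (v : ZMod M) * ψ ((v : ZMod M) * x1) x2 x3 (((v⁻¹ : (ZMod M)ˣ) : ZMod M) * x4)‖ ≤
      ∑ _v : (ZMod M)ˣ, (1 : ℝ) := by
    refine (norm_sum_le _ _).trans (Finset.sum_le_sum fun v _ => ?_)
    rw [norm_mul]
    exact mul_le_one₀ (DirichletCharacter.norm_le_one _ _) (norm_nonneg _) (hψ _ _ _ _)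
  rw [Finset.sum_const, Finset.card_univ, ZMod.card_units_eq_totient, nsmul_eq_mul, mul_one] at h1
  calc (M.totient : ℝ)⁻¹ * ‖∑ v : (ZMod M)ˣ, χ⁻¹ (v : ZMod M) * ψ ((v : ZMod M) * x1) x2 x3
        (((v⁻¹ : (ZMod M)ˣ) : ZMod M) * x4)‖ ≤ (M.totient : ℝ)⁻¹ * (M.totient : ℝ) :=
        mul_le_mul_of_nonneg_left h1 (inv_nonneg.2 hpos.le)
    _ = 1 := inv_mul_cancel₀ hpos.ne'

private theorem psiA_re_lt {z : ℂ} (hz : ‖z‖ = 1) (h1 : z ≠ 1) : z.re < 1 := by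
  rcases lt_or_eq_of_le (hz ▸ Complex.re_le_norm z) with h | h
  · exact h
  · exfalso
    apply h1
    have h2 := Complex.sq_norm_sub_sq_re z
    rw [hz, h] at h2
    have h3 : z.im = 0 := by
      have : z.im ^ 2 = 0 := by rw [← h2]; norm_num
      exact pow_eq_zero_iff (two_ne_zero) |>.1 this
    exact Complex.ext (by simpa using h) (by simpa using h3)

private theorem psiA_cmp (n M : ℕ) [NeZero M] (E : Finset ℕ)
    (f1 f2 f3 f4 : ℕ → ℂ) (ω1 ω4 : ℂ) (h1 : MF f1 E ω1) (h2 : ∀ m, ‖f2 m‖ ≤ 1) (h3 : ∀ m, ‖f3 m‖ ≤ 1) (h4 : MF f4 E ω4)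
    (hω4 : ‖ω4‖ = 1) (ψ : ZMod M → ZMod M → ZMod M → ZMod M → ℂ)
    (hψ : ∀ x1 x2 x3 x4, ‖ψ x1 x2 x3 x4‖ ≤ 1) (χ : DirichletCharacter ℂ M) :
    CmpA n (E ∪ M.primeFactors) (fun p => ω1 * (starRingEnd ℂ) ω4 * χ ((p : ZMod M)))
      (fun e => F4 f1 f2 f3 f4 e * cz M (psA M ψ χ) e) := by
  classical
  refine ⟨fun e => ?_, ?_⟩
  · rw [norm_mul]
    exact mul_le_one₀ (norm_F4_le h1.bd h2 h3 h4.bd e) (norm_nonneg _) (psA_le M ψ hψ χ _ _ _ _)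
  · intro p a b c d hp hE _ _
    have hE1 : p ∉ E := fun h => hE (Finset.mem_union_left _ h)
    have hcop : p.Coprime M := by
      rw [Nat.Prime.coprime_iff_not_dvd hp]
      intro hd
      exact hE (Finset.mem_union_right _ (Nat.mem_primeFactors.mpr ⟨hp, hd, NeZero.ne M⟩))
    have hw : ((ZMod.unitOfCoprime p hcop : (ZMod M)ˣ) : ZMod M) = (p : ZMod M) := ZMod.coe_unitOfCoprime p hcop
    have e1 : f1 (p * a) = ω1 * f1 a := by rw [h1.mul, h1.pr p hp hE1]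
    have e2 : f4 (p * d) = ω4 * f4 d := by rw [h4.mul, h4.pr p hp hE1]
    have e3 : (starRingEnd ℂ) ω4 * ω4 = 1 := by
      rw [mul_comm, Complex.mul_conj, Complex.normSq_eq_norm_sq, hω4]
      norm_num
    have e4 := psA_mul M ψ χ (ZMod.unitOfCoprime p hcop) (a : ZMod M) (b : ZMod M) (c : ZMod M)
      ((p : ZMod M) * (d : ZMod M))
    have e5 : (((ZMod.unitOfCoprime p hcop)⁻¹ : (ZMod M)ˣ) : ZMod M) * ((p : ZMod M) * (d : ZMod M)) = (d : ZMod M) := by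
      rw [← hw, ← mul_assoc, Units.inv_mul, one_mul]
    rw [e5, hw] at e4
    show F4 f1 f2 f3 f4 ⟨p * a, b, c, d⟩ * cz M (psA M ψ χ) ⟨p * a, b, c, d⟩ =
      ω1 * (starRingEnd ℂ) ω4 * χ ((p : ZMod M)) * (F4 f1 f2 f3 f4 ⟨a, b, c, p * d⟩ *
        cz M (psA M ψ χ) ⟨a, b, c, p * d⟩)
    unfold F4 cz
    simp only [Nat.cast_mul]
    rw [e4, e1, e2]
    calc ω1 * f1 a * f2 b * f3 c * f4 d * (χ (p : ZMod M) * psA M ψ χ a b c ((p : ZMod M) * (d : ZMod M)))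
        = ω1 * f1 a * f2 b * f3 c * f4 d * (χ (p : ZMod M) * psA M ψ χ a b c ((p : ZMod M) * (d : ZMod M))) *
          ((starRingEnd ℂ) ω4 * ω4) := by rw [e3, mul_one]
      _ = _ := by ring

private theorem psiA_g (M : ℕ) [NeZero M] (E : Finset ℕ) (ω : ℂ) (hω : ‖ω‖ = 1) (χ : DirichletCharacter ℂ M) :
    ∀ p : ℕ, p.Prime → p ∉ E ∪ M.primeFactors → ‖ω * χ ((p : ZMod M))‖ = 1 := by
  classical
  intro p hp hpE
  have hpn : ¬ p ∣ M := fun h => hpE (mem_union_right _ (Nat.mem_primeFactors.2 ⟨hp, h, NeZero.ne M⟩))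
  have hcop : p.Coprime M := (Nat.Prime.coprime_iff_not_dvd hp).2 hpn
  rw [norm_mul, hω, one_mul]
  have h3 := DirichletCharacter.unit_norm_eq_one χ (ZMod.unitOfCoprime p hcop)
  rwa [ZMod.coe_unitOfCoprime] at h3

/-- PROOF. Let `E' = E ∪ M.primeFactors ⊇ n.primeFactors`. For `p ∉ E'` prime and `w` the unit of `p` modulo `M`: `f1 (p a) = ω1 f1 a`, `f4 d = conj ω4 f4 (p d)` (`‖ω4‖ = 1`), `psA χ (p a, b, c, d) = χ(p) psA χ (a, b, c, p d)` (`psA_mul`, `w⁻¹ (p d) = d`). So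
`Φ = F4 f1 f2 f3 f4 * cz (psA ψ χ)` is `CmpA n E' g`, `g p = ω1 conj ω4 χ(p)`, `‖Φ‖ ≤ 1` (`psA_le`), `‖g p‖ = 1`. `npS` with `ω = ω1 conj ω4`: `R = max 0 ω.re`, which is `< 1` if `ω ≠ 1` (`‖ω‖ = 1`), and `≤ 1` always; if `χ ≠ 1` then `R = 0` is possible. `ctwA`, and the sum over the finitely many `χ` (`psA_sum`). -/
theorem pairA (n M : ℕ) [NeZero M] (hn : 0 < n) (hnM : n.primeFactors ⊆ M.primeFactors) (E : Finset ℕ)
    (f1 f2 f3 f4 : ℕ → ℂ) (ω1 ω4 : ℂ) (h1 : MF f1 E ω1) (h2 : ∀ m, ‖f2 m‖ ≤ 1) (h3 : ∀ m, ‖f3 m‖ ≤ 1) (h4 : MF f4 E ω4)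
    (hω1 : ‖ω1‖ = 1) (hω4 : ‖ω4‖ = 1) (ψ : ZMod M → ZMod M → ZMod M → ZMod M → ℂ)
    (hψ : ∀ x1 x2 x3 x4, ‖ψ x1 x2 x3 x4‖ ≤ 1) (b : ℝ) (W : ℝ → ℝ → ℝ → ℂ) (hW : TS b W)
    (h0 : ω1 * (starRingEnd ℂ) ω4 ≠ 1 ∨ ∀ y u, (∫ t, W y t u) = 0) :
    Tendsto (fun X : ℝ => (∑ e ∈ SN n (b * X), F4 f1 f2 f3 f4 e * cz M ψ e * W (yS e / X) (tS e) (uS e)) / X)
      atTop (nhds 0) := by
  classical
  set ω : ℂ := ω1 * (starRingEnd ℂ) ω4 with hωd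
  have hω : ‖ω‖ = 1 := by
    rw [hωd, norm_mul, Complex.norm_conj, hω1, hω4, one_mul]
  have key : ∀ χ : DirichletCharacter ℂ M, Tendsto (fun X : ℝ => (∑ e ∈ SN n (b * X),
      (F4 f1 f2 f3 f4 e * cz M (psA M ψ χ) e) * W (yS e / X) (tS e) (uS e)) / X) atTop (nhds 0) := by
    intro χ
    have hC := psiA_cmp n M E f1 f2 f3 f4 ω1 ω4 h1 h2 h3 h4 hω4 ψ hψ χ
    rcases h0 with h | h
    · exact ctwA n hn _ (hnM.trans subset_union_right) _ (psiA_g M E ω hω χ) (max 0 ω.re) (le_max_left _ _)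
        (max_le zero_le_one (psiA_re_lt hω h).le) (npS M χ ω hω _).1 _ hC b W hW
        (Or.inl (max_lt zero_lt_one (psiA_re_lt hω h)))
    · exact ctwA n hn _ (hnM.trans subset_union_right) _ (psiA_g M E ω hω χ) (max 0 ω.re) (le_max_left _ _)
        (max_le zero_le_one (hω ▸ Complex.re_le_norm _)) (npS M χ ω hω _).1 _ hC b W hW (Or.inr h)
  have hsum := tendsto_finsetSum (Finset.univ : Finset (DirichletCharacter ℂ M)) fun χ _ => key χ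
  rw [Finset.sum_const_zero] at hsum
  refine hsum.congr fun X => ?_
  rw [← Finset.sum_div, Finset.sum_comm]
  congr 1
  refine Finset.sum_congr rfl fun e _ => ?_
  rw [← Finset.sum_mul, ← Finset.mul_sum]
  congr 2
  exact psA_sum M ψ _ _ _ _

/-- PROOF. As `pairA`: `ψ - psA ψ 1 = ∑_(χ ≠ 1) psA ψ χ` (`psA_sum`), and for `χ ≠ 1` `npS` allows `R = 0 < 1` in `ctwA`. -/
theorem pairA1 (n M : ℕ) [NeZero M] (hn : 0 < n) (hnM : n.primeFactors ⊆ M.primeFactors) (E : Finset ℕ)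
    (f1 f2 f3 f4 : ℕ → ℂ) (ω1 ω4 : ℂ) (h1 : MF f1 E ω1) (h2 : ∀ m, ‖f2 m‖ ≤ 1) (h3 : ∀ m, ‖f3 m‖ ≤ 1) (h4 : MF f4 E ω4)
    (hω1 : ‖ω1‖ = 1) (hω4 : ‖ω4‖ = 1) (ψ : ZMod M → ZMod M → ZMod M → ZMod M → ℂ)
    (hψ : ∀ x1 x2 x3 x4, ‖ψ x1 x2 x3 x4‖ ≤ 1) (b : ℝ) (W : ℝ → ℝ → ℝ → ℂ) (hW : TS b W) :
    Tendsto (fun X : ℝ => (∑ e ∈ SN n (b * X), F4 f1 f2 f3 f4 e * (cz M ψ e - cz M (psA M ψ 1) e) *
      W (yS e / X) (tS e) (uS e)) / X) atTop (nhds 0) := by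
  classical
  set ω : ℂ := ω1 * (starRingEnd ℂ) ω4 with hωd
  have hω : ‖ω‖ = 1 := by
    rw [hωd, norm_mul, Complex.norm_conj, hω1, hω4, one_mul]
  have key : ∀ χ ∈ (Finset.univ : Finset (DirichletCharacter ℂ M)).erase 1, Tendsto (fun X : ℝ =>
      (∑ e ∈ SN n (b * X), (F4 f1 f2 f3 f4 e * cz M (psA M ψ χ) e) * W (yS e / X) (tS e) (uS e)) / X)
      atTop (nhds 0) := by
    intro χ hχ
    have hχ1 : χ ≠ 1 := (Finset.mem_erase.1 hχ).1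
    have hC := psiA_cmp n M E f1 f2 f3 f4 ω1 ω4 h1 h2 h3 h4 hω4 ψ hψ χ
    exact ctwA n hn _ (hnM.trans subset_union_right) _ (psiA_g M E ω hω χ) 0 le_rfl zero_le_one
      ((npS M χ ω hω _).2 hχ1) _ hC b W hW (Or.inl zero_lt_one)
  have hsum := tendsto_finsetSum ((Finset.univ : Finset (DirichletCharacter ℂ M)).erase 1) key
  rw [Finset.sum_const_zero] at hsum
  refine hsum.congr fun X => ?_
  rw [← Finset.sum_div, Finset.sum_comm]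
  congr 1
  refine Finset.sum_congr rfl fun e _ => ?_
  rw [← Finset.sum_mul, ← Finset.mul_sum]
  congr 2
  have h5 := psA_sum M ψ (e.a : ZMod M) (e.b : ZMod M) (e.c : ZMod M) (e.d : ZMod M)
  rw [← Finset.add_sum_erase _ _ (Finset.mem_univ (1 : DirichletCharacter ℂ M))] at h5
  show ∑ χ ∈ (Finset.univ : Finset (DirichletCharacter ℂ M)).erase 1,
    psA M ψ χ (e.a : ZMod M) (e.b : ZMod M) (e.c : ZMod M) (e.d : ZMod M) =
    ψ (e.a : ZMod M) (e.b : ZMod M) (e.c : ZMod M) (e.d : ZMod M) -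
      psA M ψ 1 (e.a : ZMod M) (e.b : ZMod M) (e.c : ZMod M) (e.d : ZMod M)
  rw [← h5]
  ring

end Pool.Agent.Spl
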